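import Pool.Agent.Work.MP_215640_nt.Q.Defs

/-!
Arithmetic of `K2` and absorption of powers (proved).
-/

set_option autoImplicit false

namespace Pool.Agent.Work.MP_215640_nt.Q

open Finset Polynomial

theorem K2_pos (c k : ℕ) : 0 < K2 c k := by unfold K2; positivity

theorem one_le_K2 (c k : ℕ) : 1 ≤ K2 c k := K2_pos c k

theorem K2_add (c d k : ℕ) : K2 (c + d) k = K2 c k * K2 d k := by
  unfold K2
  rw [← pow_add]
  congr 1
  ring

theorem K2_mono {c c' : ℕ} (k : ℕ) (h : c ≤ c') : K2 c k ≤ K2 c' k := by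
  unfold K2
  exact Nat.pow_le_pow_right (by norm_num) (Nat.mul_le_mul_right _ h)

theorem two_pow_le_K2 {c k a : ℕ} (hk : 1 ≤ k) (h : a ≤ c) : 2 ^ (a * k) ≤ K2 c k := by
  unfold K2
  apply Nat.pow_le_pow_right (by norm_num)
  calc a * k ≤ c * k := Nat.mul_le_mul_right _ h
    _ ≤ c * k ^ 2 := Nat.mul_le_mul_left _ (by nlinarith)

theorem pow_pow_k (a k : ℕ) : (2 ^ (a * k)) ^ k = K2 a k := by
  unfold K2
  rw [← pow_mul]
  congr 1
  ring

theorem le_K2 {k : ℕ} (hk : 1 ≤ k) : k ≤ K2 1 k :=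
  (Nat.lt_two_pow_self (n := k)).le.trans (by simpa using two_pow_le_K2 (a := 1) hk le_rfl)

/-- the hypothesis is monotone in the constant -/
theorem pow_K2_mono {B x : ℝ} (hB : 1 ≤ B) {c c' k : ℕ} (h : c ≤ c') (hx : B ^ K2 c' k ≤ x) :
    B ^ K2 c k ≤ x :=
  (pow_le_pow_right₀ hB (K2_mono k h)).trans hx

theorem two_pow_K2_mono {c c' k : ℕ} (h : c ≤ c') {x : ℝ} (hx : (2 : ℝ) ^ K2 c' k ≤ x) :
    (2 : ℝ) ^ K2 c k ≤ x := pow_K2_mono (by norm_num) h hx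

/-- absorption: a power of `B` is a small power of `x` -/
theorem absorb {B x s : ℝ} (hB : 1 ≤ B) {E e : ℕ} (h : B ^ E ≤ x) (hs : (e : ℝ) ≤ s * E) (hs0 : 0 ≤ s) :
    B ^ e ≤ x ^ s := by
  have h0 : 0 < B := by linarith
  calc B ^ e = B ^ (e : ℝ) := (Real.rpow_natCast B e).symm
    _ ≤ B ^ (s * E) := Real.rpow_le_rpow_of_exponent_le hB hs
    _ = (B ^ E) ^ s := by
        rw [mul_comm, Real.rpow_mul h0.le, Real.rpow_natCast]
    _ ≤ x ^ s := Real.rpow_le_rpow (by positivity) h hs0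

/-- the usual case: `e 2^(b k) ≤ K2 c k` -/
theorem absorb' {B x : ℝ} (hB : 1 ≤ B) {c k e b : ℕ} (h : B ^ K2 c k ≤ x) (he : e * 2 ^ b ≤ K2 c k) :
    B ^ e ≤ x ^ (1 / 2 ^ b : ℝ) := by
  apply absorb hB h _ (by positivity)
  have h2 : (e : ℝ) * 2 ^ b ≤ K2 c k := by exact_mod_cast he
  have h3 : (0 : ℝ) < 2 ^ b := by positivity
  rw [one_div, inv_mul_eq_div, le_div_iff₀ h3]
  exact h2

theorem K2_mul_two_pow {c a k : ℕ} (hk : 1 ≤ k) : K2 c k * 2 ^ (a * k) ≤ K2 (c + a) k := by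
  rw [K2_add]
  exact Nat.mul_le_mul_left _ (two_pow_le_K2 hk le_rfl)

/-- comparison of bounds in terms of `BB` and `XX` with powers of `M` -/
theorem BB_eq (k M : ℕ) : BB k M = M ^ K2 27 k := rfl

theorem Ml_le_BB {k : ℕ} (M j : ℕ) (hM : 1 ≤ M) : Ml k M j ≤ BB k M := by
  unfold Ml BB
  apply Nat.pow_le_pow_right hM
  apply Nat.pow_le_pow_right (by norm_num)
  calc 27 * k * (k - 1 - j) ≤ 27 * k * k := Nat.mul_le_mul_left _ (by omega)
    _ = 27 * k ^ 2 := by ring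

theorem Ml_succ {k M j : ℕ} (hj : j + 1 < k) : Ml k M j = Ml k M (j + 1) ^ (2 ^ k) ^ 27 := by
  unfold Ml
  rw [← pow_mul, ← pow_mul, ← pow_add]
  congr 2
  obtain ⟨b, rfl⟩ := Nat.exists_eq_add_of_lt hj
  rw [show j + 1 + b + 1 - 1 - j = b + 1 by omega, show j + 1 + b + 1 - 1 - (j + 1) = b by omega]
  ring

/-- room between `M'^(T^16)`, `M' = Ml k M (j+1)`, and `BB` -/
theorem Ml_pow_le_BB {k M j a : ℕ} (hj : j + 1 < k) (hM : 1 ≤ M) (ha : a ≤ 27) :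
    Ml k M (j + 1) ^ (2 ^ k) ^ a ≤ BB k M := by
  calc Ml k M (j + 1) ^ (2 ^ k) ^ a ≤ Ml k M (j + 1) ^ (2 ^ k) ^ 27 := by
        apply Nat.pow_le_pow_right
        · unfold Ml; positivity
        · exact Nat.pow_le_pow_right (by positivity) ha
    _ = Ml k M j := (Ml_succ hj).symm
    _ ≤ BB k M := Ml_le_BB M j hM

theorem M_le_Ml {k M j : ℕ} (hM : 1 ≤ M) : M ≤ Ml k M j := by
  unfold Ml
  exact Nat.le_self_pow (by positivity) M

theorem XX_eq (k M : ℕ) : XX k M = M ^ (K2 27 k * (k + 3)) := by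
  unfold XX
  rw [BB_eq, ← pow_mul]

theorem XX_pow_le {k M c : ℕ} (hk : 1 ≤ k) (hM : 1 ≤ M) {x : ℝ} (h : (M : ℝ) ^ K2 (c + 29) k ≤ x) :
    (XX k M : ℝ) ^ K2 c k ≤ x := by
  refine le_trans ?_ h
  rw [XX_eq]
  push_cast
  rw [← pow_mul]
  apply pow_le_pow_right₀ (by exact_mod_cast hM)
  have h1 : k + 3 ≤ K2 2 k := by
    unfold K2
    have h2 : k + 3 ≤ 2 ^ (2 * k) := by
      clear h
      induction k, hk using Nat.le_induction with
      | base => norm_num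
      | succ n hn ih =>
        rw [show 2 * (n + 1) = 2 * n + 2 by ring, pow_add]
        omega
    refine h2.trans (Nat.pow_le_pow_right (by norm_num) ?_)
    nlinarith
  calc K2 27 k * (k + 3) * K2 c k ≤ K2 27 k * K2 2 k * K2 c k :=
        Nat.mul_le_mul_right _ (Nat.mul_le_mul_left _ h1)
    _ = K2 (c + 29) k := by rw [← K2_add, ← K2_add]; congr 1; ring

end Pool.Agent.Work.MP_215640_nt.Q
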