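import Pool.Agent.Work.MP_215640_nt.Q.Defs

/-!
MODULE TRI. The triangle functions `tri τ` and the class `FT` (absolutely convergent Fourier series).

`tri_perturb`: let `z = dI x`, `dI (x+y) ≥ z - τ`. If `z ≥ τ`: `tri τ (x+y) ≤ (1-(z-τ)/τ)⁺/τ = 2(1 - z/(2τ))⁺/τ
= 4 tri (2τ) x`; if `z < τ`: `tri τ (x+y) ≤ 1/τ ≤ (2/τ)(1 - z/(2τ)) = 4 tri (2τ) x`.
`tri_FT`: Fourier coefficients `a 0 = 1`, `a l = (sin(π l τ)/(π l τ))^2 ≤ (1/τ^2)/l^2`. Pointwise sum: either Mathlib's
theorem that a continuous function on the circle with summable Fourier coefficients is the sum of its Fourier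
series (`hasSum_fourier_series_of_summable` etc.), or from `∑_{l≥1} cos(2πlx)/l^2 = π^2 (x^2 - x + 1/6)` for
`0 ≤ x ≤ 1` (`hasSum_one_div_nat_pow_mul_cos`, Bernoulli polynomial) at `x, x+τ, x-τ`, using
`2 sin^2(πlτ) cos(2πlx) = cos(2πlx) - (1/2)cos(2πl(x+τ)) - (1/2)cos(2πl(x-τ))`.
-/

set_option autoImplicit false

namespace Pool.Agent.Work.MP_215640_nt.Q

open Finset Polynomial

theorem tri_nonneg {τ : ℝ} (hτ : 0 < τ) (x : ℝ) : 0 ≤ tri τ x := by
  unfold tri
  positivity

theorem tri_le {τ : ℝ} (hτ : 0 < τ) (x : ℝ) : tri τ x ≤ 1 / τ := by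
  unfold tri
  refine div_le_div_of_nonneg_right (max_le zero_le_one ?_) hτ.le
  have : 0 ≤ dI x / τ := div_nonneg (dI_nonneg x) hτ.le
  linarith

theorem tri_eq_zero {τ x : ℝ} (hτ : 0 < τ) (h : τ ≤ dI x) : tri τ x = 0 := by
  unfold tri
  have : 1 ≤ dI x / τ := by rwa [le_div_iff₀ hτ, one_mul]
  rw [max_eq_left (by linarith), zero_div]

/-- `tri` is nonzero only close to the integers -/
theorem dI_lt_of_tri {τ x : ℝ} (hτ : 0 < τ) (h : tri τ x ≠ 0) : dI x < τ := by
  by_contra h1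
  exact h (tri_eq_zero hτ (not_lt.1 h1))

private theorem tri_mul {τ : ℝ} (hτ : 0 < τ) (x : ℝ) : τ ^ 2 * tri τ x = max 0 (τ - dI x) := by
  unfold tri
  have h1 : max 0 (1 - dI x / τ) = max 0 (τ - dI x) / τ := by
    rw [← max_div_div_right hτ.le, zero_div, sub_div, div_self hτ.ne']
  rw [h1]
  field_simp

/-- majorant of the indicator of a neighbourhood of the integers -/
theorem one_le_tri {τ x : ℝ} (hτ : 0 < τ) (h : dI x ≤ τ) : 1 ≤ 4 * τ * tri (2 * τ) x := by
  have h1 := tri_mul (show 0 < 2 * τ by positivity) x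
  have h2 : 2 * τ - dI x ≤ max 0 (2 * τ - dI x) := le_max_right _ _
  have h3 : τ * (4 * τ * tri (2 * τ) x) ≥ τ * 1 := by nlinarith
  exact le_of_mul_le_mul_left h3 hτ

theorem tri_perturb {τ : ℝ} (hτ : 0 < τ) (x y : ℝ) (hy : |y| ≤ τ) :
    tri τ (x + y) ≤ 4 * tri (2 * τ) x := by
  have h1 := tri_mul hτ (x + y)
  have h2 := tri_mul (show 0 < 2 * τ by positivity) x
  have h3 : dI x ≤ dI (x + y) + τ := by
    have h4 := dI_sub_le x (x + y)
    have h5 : |x - (x + y)| = |y| := by rw [sub_add_cancel_left, abs_neg]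
    rw [h5] at h4
    linarith
  have h4 : max 0 (τ - dI (x + y)) ≤ max 0 (2 * τ - dI x) := max_le_max le_rfl (by linarith)
  have h5 : τ ^ 2 * tri τ (x + y) ≤ τ ^ 2 * (4 * tri (2 * τ) x) := by
    rw [h1]
    refine h4.trans (le_of_eq ?_)
    rw [← h2]
    ring
  exact le_of_mul_le_mul_left h5 (by positivity)

theorem tri_lip {τ : ℝ} (hτ : 0 < τ) (x y : ℝ) : |tri τ x - tri τ y| ≤ dI (x - y) / τ ^ 2 := by
  have h1 := tri_mul hτ x
  have h2 := tri_mul hτ y
  rw [le_div_iff₀ (by positivity)]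
  have h3 : |tri τ x - tri τ y| * τ ^ 2 = |max 0 (τ - dI x) - max 0 (τ - dI y)| := by
    rw [← h1, ← h2, ← mul_sub, abs_mul, abs_of_pos (by positivity : 0 < τ ^ 2), mul_comm]
  rw [h3]
  have h4 : dI x ≤ dI y + dI (x - y) := by
    have := dI_add_le y (x - y)
    rwa [add_sub_cancel] at this
  have h5 : dI y ≤ dI x + dI (x - y) := by
    have := dI_add_le x (-(x - y))
    rw [dI_neg] at this
    have h6 : x + -(x - y) = y := by ring
    rwa [h6] at this
  have h6 := abs_max_sub_max_le_abs (τ - dI x) (τ - dI y) 0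
  rw [max_comm, max_comm (τ - dI y) 0] at h6
  refine h6.trans ?_
  rw [abs_le]
  constructor <;> linarith

private theorem tri_bern (t : ℝ) (ht0 : 0 ≤ t) (ht1 : t ≤ 1) :
    HasSum (fun n : ℤ => 1 / (n : ℂ) ^ 2 * ee (n * t))
      ((2 * Real.pi ^ 2 * (t ^ 2 - t + 1 / 6) : ℝ) : ℂ) := by
  have h := hasSum_one_div_pow_mul_fourier_mul_bernoulliFun (k := 2) le_rfl
    (x := t) ⟨ht0, ht1⟩
  have h1 : bernoulliFun 2 t = t ^ 2 - t + 1 / 6 := by
    rw [bernoulliFun_two]
    ring
  rw [h1] at h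
  convert h using 1
  · funext n
    congr 1
    rw [fourier_coe_apply]
    unfold ee
    congr 1
    push_cast
    ring
  · have h2 : ((Nat.factorial 2 : ℕ) : ℂ) = 2 := by norm_num [Nat.factorial]
    rw [h2]
    push_cast
    linear_combination (2 * (Real.pi : ℂ) ^ 2 * ((t : ℂ) ^ 2 - t + 1 / 6)) * Complex.I_sq

private theorem tri_bern' (y : ℝ) (z : ℤ) (h : |y - z| ≤ 1) :
    HasSum (fun n : ℤ => 1 / (n : ℂ) ^ 2 * ee (n * y))
      ((2 * Real.pi ^ 2 * ((y - z) ^ 2 - |y - z| + 1 / 6) : ℝ) : ℂ) := by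
  have hshift : ∀ (n w : ℤ) (s : ℝ), ee (n * (s + w)) = ee (n * s) := by
    intro n w s
    have h1 : (n : ℝ) * (s + w) = n * s + ((n * w : ℤ) : ℝ) := by push_cast; ring
    rw [h1, ee_add, ee_int, mul_one]
  rw [abs_le] at h
  rcases le_total 0 (y - z) with h0 | h0
  · have h1 := tri_bern (y - z) h0 h.2
    rw [abs_of_nonneg h0]
    convert h1 using 1
    funext n
    rw [← hshift n z (y - z), sub_add_cancel]
  · have h1 := tri_bern (y - z + 1) (by linarith [h.1]) (by linarith)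
    rw [abs_of_nonpos h0]
    convert h1 using 1
    · funext n
      have h2 : (y - z + 1 : ℝ) = y + ((1 - z : ℤ) : ℝ) := by push_cast; ring
      rw [h2, hshift]
    · congr 1
      ring

theorem tri_FT {τ : ℝ} (hτ : 0 < τ) (h : τ ≤ 1 / 2) : FT (tri τ) 1 (1 / τ ^ 2) := by
  have h1 : 1 ≤ 1 / τ ^ 2 := by
    rw [le_div_iff₀ (by positivity)]
    nlinarith
  refine ⟨h1, by rwa [abs_one], fun l => if l = 0 then 1 else
    (1 / (4 * Real.pi ^ 2 * τ ^ 2) : ℝ) * (1 / (l : ℂ) ^ 2 * (2 - ee (l * τ) - ee (-(l * τ)))),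
    by simp, ?_, ?_⟩
  · intro l hl
    beta_reduce
    rw [if_neg hl, norm_mul, norm_mul, Complex.norm_real,
      Real.norm_of_nonneg (by positivity), norm_div, norm_one, norm_pow]
    have h2 : ‖(2 : ℂ) - ee (l * τ) - ee (-(l * τ))‖ ≤ 4 := by
      refine (norm_sub_le _ _).trans ?_
      refine (add_le_add (norm_sub_le _ _) le_rfl).trans ?_
      rw [norm_ee, norm_ee]
      norm_num
    have h3 : ‖(l : ℂ)‖ ^ 2 = (l : ℝ) ^ 2 := by
      rw [Complex.norm_intCast, sq_abs]
    rw [h3]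
    have h4 : 0 < (l : ℝ) ^ 2 := by positivity
    have h5 := Real.pi_gt_three
    calc 1 / (4 * Real.pi ^ 2 * τ ^ 2) * (1 / (l : ℝ) ^ 2 * ‖(2 : ℂ) - ee (l * τ) - ee (-(l * τ))‖)
        ≤ 1 / (4 * Real.pi ^ 2 * τ ^ 2) * (1 / (l : ℝ) ^ 2 * 4) := by gcongr
      _ ≤ 1 / (4 * 1 * τ ^ 2) * (1 / (l : ℝ) ^ 2 * 4) := by
          gcongr
          nlinarith
      _ = 1 / τ ^ 2 / (l : ℝ) ^ 2 := by
          field_simp
  · intro x
    obtain ⟨z, hz⟩ := exists_int_dI x
    have hd := dI_le_half x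
    have hx1 := tri_bern' x z (by linarith)
    have habs : |x - z| ≤ 1 / 2 := by linarith
    have hx2 := tri_bern' (x + τ) z (by
      rw [abs_le] at habs ⊢
      constructor <;> linarith [habs.1, habs.2])
    have hx3 := tri_bern' (x - τ) z (by
      rw [abs_le] at habs ⊢
      constructor <;> linarith [habs.1, habs.2])
    have h2 := (hasSum_ite_eq (0 : ℤ) (1 : ℂ)).add
      ((((hx1.mul_left 2).sub hx2).sub hx3).mul_left
        (((1 / (4 * Real.pi ^ 2 * τ ^ 2) : ℝ) : ℂ)))
    convert h2 using 1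
    · funext l
      beta_reduce
      by_cases hl : l = 0
      · rw [if_pos hl, if_pos hl, hl]
        simp [ee_zero]
      · rw [if_neg hl, if_neg hl, zero_add]
        have e1 : ee (l * (x + τ)) = ee (l * τ) * ee (l * x) := by
          rw [← ee_add]; congr 1; ring
        have e2 : ee (l * (x - τ)) = ee (-(l * τ)) * ee (l * x) := by
          rw [← ee_add]; congr 1; ring
        rw [e1, e2]
        ring
    · have hpi := Real.pi_pos
      have key : tri τ x = 1 + 1 / (4 * Real.pi ^ 2 * τ ^ 2) *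
          (2 * (2 * Real.pi ^ 2 * ((x - z) ^ 2 - |x - z| + 1 / 6)) -
            2 * Real.pi ^ 2 * ((x + τ - z) ^ 2 - |x + τ - z| + 1 / 6) -
            2 * Real.pi ^ 2 * ((x - τ - z) ^ 2 - |x - τ - z| + 1 / 6)) := by
        have e0 := tri_mul hτ x
        rw [← hz] at e0
        have e1 : τ ^ 2 * tri τ x = τ ^ 2 + 1 / 2 * (2 * ((x - z) ^ 2 - |x - z| + 1 / 6) -
            ((x + τ - z) ^ 2 - |x + τ - z| + 1 / 6) - ((x - τ - z) ^ 2 - |x - τ - z| + 1 / 6)) := by
          rw [e0]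
          set t := x - z with ht
          have e2 : x + τ - z = t + τ := by rw [ht]; ring
          have e3 : x - τ - z = t - τ := by rw [ht]; ring
          rw [e2, e3]
          have e4 : |t + τ| + |t - τ| = 2 * max |t| τ := by
            rcases le_total 0 t with h5 | h5
            · rw [abs_of_nonneg h5, abs_of_nonneg (by linarith : 0 ≤ t + τ)]
              rcases le_total t τ with h6 | h6
              · rw [max_eq_right h6, abs_of_nonpos (by linarith)]
                ring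
              · rw [max_eq_left h6, abs_of_nonneg (by linarith)]
                ring
            · rw [abs_of_nonpos h5, abs_of_nonpos (by linarith : t - τ ≤ 0)]
              rcases le_total (-t) τ with h6 | h6
              · rw [max_eq_right h6, abs_of_nonneg (by linarith)]
                ring
              · rw [max_eq_left h6, abs_of_nonpos (by linarith)]
                ring
          have e5 : max 0 (τ - |t|) = max |t| τ - |t| := by
            rcases le_total |t| τ with h6 | h6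
            · rw [max_eq_right (by linarith), max_eq_right h6]
            · rw [max_eq_left (by linarith), max_eq_left h6]
              ring
          rw [e5]
          linarith
        have hτ2 : (τ ^ 2) ≠ 0 := by positivity
        have e2 : tri τ x = (τ ^ 2 + 1 / 2 * (2 * ((x - z) ^ 2 - |x - z| + 1 / 6) -
            ((x + τ - z) ^ 2 - |x + τ - z| + 1 / 6) -
            ((x - τ - z) ^ 2 - |x - τ - z| + 1 / 6))) / τ ^ 2 := by
          rw [← e1]
          field_simp
        rw [e2]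
        field_simp
        ring
      rw [key]
      push_cast
      ring

theorem FT.mono {f : ℝ → ℝ} {μ A A' : ℝ} (h : FT f μ A) (hA : A ≤ A') : FT f μ A' := by
  obtain ⟨h1, h2, a, h3, h4, h5⟩ := h
  refine ⟨h1.trans hA, h2.trans hA, a, h3, fun l hl => (h4 l hl).trans ?_, h5⟩
  exact div_le_div_of_nonneg_right hA (by positivity)

theorem FT.shift {f : ℝ → ℝ} {μ A : ℝ} (h : FT f μ A) (c : ℝ) : FT (fun x => f (x + c)) μ A := by
  obtain ⟨h1, h2, a, h3, h4, h5⟩ := h
  refine ⟨h1, h2, fun l => a l * ee (l * c), ?_, ?_, ?_⟩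
  · simp [h3, ee_zero]
  · intro l hl
    rw [norm_mul, norm_ee, mul_one]
    exact h4 l hl
  · intro x
    convert h5 (x + c) using 1
    funext l
    rw [mul_assoc, ← ee_add]
    congr 2
    ring

/-- composition with an integer multiple -/
theorem FT.comp_int {f : ℝ → ℝ} {μ A : ℝ} (h : FT f μ A) (n : ℤ) (hn : n ≠ 0) :
    FT (fun x => f (n * x)) μ (A * n ^ 2) := by
  obtain ⟨h1, h2, a, h3, h4, h5⟩ := h
  have hn2 : (1 : ℝ) ≤ (n : ℝ) ^ 2 := by
    have : (1 : ℤ) ≤ n ^ 2 := by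
      have := pow_pos (abs_pos.2 hn) 2
      rw [sq_abs] at this
      omega
    exact_mod_cast this
  refine ⟨by nlinarith, by nlinarith, fun l => if n ∣ l then a (l / n) else 0, ?_, ?_, ?_⟩
  · simp [h3]
  · intro l hl
    beta_reduce
    by_cases hd : n ∣ l
    · rw [if_pos hd]
      obtain ⟨k, rfl⟩ := hd
      rw [Int.mul_ediv_cancel_left _ hn]
      have hk : k ≠ 0 := by
        rintro rfl
        exact hl (mul_zero _)
      refine (h4 k hk).trans (le_of_eq ?_)
      have hkr : (k : ℝ) ≠ 0 := by exact_mod_cast hk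
      have hnr : (n : ℝ) ≠ 0 := by exact_mod_cast hn
      push_cast
      field_simp
    · rw [if_neg hd, norm_zero]
      positivity
  · intro x
    have hinj : Function.Injective (fun k : ℤ => n * k) := fun a b hab => mul_left_cancel₀ hn hab
    rw [← hinj.hasSum_iff]
    · convert h5 (n * x) using 1
      funext k
      simp only [Function.comp_apply]
      rw [if_pos (dvd_mul_right _ _), Int.mul_ediv_cancel_left _ hn]
      congr 2
      push_cast
      ring
    · intro l hl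
      beta_reduce
      rw [if_neg, zero_mul]
      rintro ⟨k, rfl⟩
      exact hl ⟨k, rfl⟩

/-- finite linear combinations -/
theorem FT.sum {ι : Type*} (s : Finset ι) (f : ι → ℝ → ℝ) (μ A : ι → ℝ) (c : ι → ℝ) (A' : ℝ)
    (h : ∀ i ∈ s, FT (f i) (μ i) (A i)) (h1 : 1 ≤ A') (hA : ∑ i ∈ s, |c i| * A i ≤ A') :
    FT (fun x => ∑ i ∈ s, c i * f i x) (∑ i ∈ s, c i * μ i) A' := by
  have h' : ∀ i, ∃ a : ℤ → ℂ, i ∈ s → (a 0 = (μ i : ℂ) ∧
      (∀ l : ℤ, l ≠ 0 → ‖a l‖ ≤ A i / (l : ℝ) ^ 2) ∧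
      ∀ x : ℝ, HasSum (fun l : ℤ => a l * ee (l * x)) ((f i x : ℝ) : ℂ)) := by
    intro i
    by_cases hi : i ∈ s
    · obtain ⟨_, _, a, h3, h4, h5⟩ := h i hi
      exact ⟨a, fun _ => ⟨h3, h4, h5⟩⟩
    · exact ⟨0, fun hi' => (hi hi').elim⟩
  choose a ha using h'
  refine ⟨h1, ?_, fun l => ∑ i ∈ s, (c i : ℂ) * a i l, ?_, ?_, ?_⟩
  · refine le_trans ?_ hA
    refine (abs_sum_le_sum_abs _ _).trans (sum_le_sum fun i hi => ?_)
    rw [abs_mul]
    exact mul_le_mul_of_nonneg_left (h i hi).2.1 (abs_nonneg _)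
  · push_cast
    exact sum_congr rfl fun i hi => by rw [(ha i hi).1]
  · intro l hl
    refine (norm_sum_le _ _).trans ?_
    have h2 : ∀ i ∈ s, ‖(c i : ℂ) * a i l‖ ≤ |c i| * A i / (l : ℝ) ^ 2 := by
      intro i hi
      rw [norm_mul, Complex.norm_real, Real.norm_eq_abs, mul_div_assoc]
      exact mul_le_mul_of_nonneg_left ((ha i hi).2.1 l hl) (abs_nonneg _)
    refine (sum_le_sum h2).trans ?_
    rw [← sum_div]
    exact div_le_div_of_nonneg_right hA (by positivity)
  · intro x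
    have h2 := hasSum_sum (s := s) (f := fun i (l : ℤ) => (c i : ℂ) * (a i l * ee (l * x)))
      (a := fun i => (c i : ℂ) * ((f i x : ℝ) : ℂ))
      (fun i hi => ((ha i hi).2.2 x).mul_left (c i : ℂ))
    convert h2 using 1
    · funext l
      rw [sum_mul]
      exact sum_congr rfl fun i _ => by ring
    · push_cast
      rfl

end Pool.Agent.Work.MP_215640_nt.Q
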