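import Pool.Agent.Work.MP_215640_nt.Q.BadPref
import Pool.Agent.Work.MP_215640_nt.Q.Tri
import Pool.Agent.Work.MP_215640_nt.Q.K2L

/-!
MODULE BADAVG. The average of `bd` is small.

Claim by induction on `s < k`: for all steps `q` (`1 ≤ q i ≤ BB k M`), with `l = k - s`,
`∑_{n∈[N,2N)} (∏_{i∈Ico 1 l} tri (2/M_i^(3d_i+3)) (q_i^(d_i) sl w q n i)) bd w k M n s q ≤ 8^s · 2 · N/M^2 · (something ≤ 1)`; precisely `≤ (8^s - 1) N / M^2`.
`s = 0`: `0`. `s + 1` (`l = k - (s+1)`): the indicator term is `bad_pref`; in the other term exchange the sums over `n` and `t ≤ Q = M_l^(T^16)`; for fixed `t` put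
`q' = Function.update q l t` (`t ≤ BB`), the factor `tri (2/M_l^..) (t^(d_l) sl w q n l)` completes the product for `l + 1 = k - s` and `q'` (`sl_congr`: `sl w q' n i = sl w q n i` for
`i ≤ l`; `q' i = q i` for `i < l`), so it is `≤ 8 (8^s - 1) N/M^2`; the average over `t` keeps the bound; `1 + 8 (8^s - 1) ≤ 8^(s+1) - 1`.
`s = k - 1`, `l = 1`: empty product, `≤ 8^k N/M^2 ≤ N/M`.
-/

set_option autoImplicit false

namespace Pool.Agent.Work.MP_215640_nt.Q

open Finset Polynomial

/-- weight of the locks of the levels below `l` -/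
private noncomputable def WT (w : ℕ → Bool) (k M : ℕ) (q : ℕ → ℕ) (n l : ℕ) : ℝ :=
  ∏ i ∈ Ico 1 l, tri (2 / (Ml k M i : ℝ) ^ (3 * dq w i + 3)) ((q i : ℝ) ^ dq w i * sl w q (n : ℝ) i)

private theorem WT_update (w : ℕ → Bool) (k M : ℕ) (q : ℕ → ℕ) (n l t : ℕ) (hl : 1 ≤ l) :
    WT w k M (Function.update q l t) n (l + 1) = WT w k M q n l *
      tri (2 / (Ml k M l : ℝ) ^ (3 * dq w l + 3)) ((t : ℝ) ^ dq w l * sl w q (n : ℝ) l) := by
  have hs : ∀ i, 1 ≤ i → i ≤ l → sl w (Function.update q l t) (n : ℝ) i = sl w q (n : ℝ) i := by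
    intro i hi hil
    apply sl_congr _ _ _ _ _ hi
    intro j hj
    exact Function.update_of_ne (by omega) _ _
  unfold WT
  rw [prod_Ico_succ_top hl, Function.update_self, hs l hl le_rfl]
  congr 1
  apply prod_congr rfl
  intro i hi
  rw [mem_Ico] at hi
  rw [hs i hi.1 (by omega), Function.update_of_ne (by omega)]

theorem bad_avg : ∃ c : ℕ, ∀ k : ℕ, 1 ≤ k → ∀ w : ℕ → Bool, Pos w k → ∀ M : ℕ, (2 : ℝ) ^ K2 c k ≤ M →
    ∀ N : ℕ, (M : ℝ) ^ K2 c k ≤ N →
    ∑ n ∈ Ico N (2 * N), bd w k M n (k - 1) qr ≤ (N : ℝ) / M := by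
  obtain ⟨c, hc⟩ := bad_pref
  refine ⟨c + 3, fun k hk w hw M hM N hN => ?_⟩
  have hM1 : (1 : ℝ) ≤ M := le_trans (one_le_pow₀ (by norm_num)) hM
  have hM1' : 1 ≤ M := by exact_mod_cast hM1
  have hM0 : (0 : ℝ) < M := by linarith
  have h8 : (8 : ℝ) ^ k ≤ M := by
    refine le_trans ?_ hM
    rw [show (8 : ℝ) = 2 ^ 3 by norm_num, ← pow_mul]
    apply pow_le_pow_right₀ (by norm_num)
    calc 3 * k ≤ 2 ^ (3 * k) := Nat.lt_two_pow_self.le
      _ ≤ K2 (c + 3) k := two_pow_le_K2 hk (by omega)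
  have hpref := hc k hk w hw M (two_pow_K2_mono (by omega) hM) N (pow_K2_mono hM1 (by omega) hN)
  have claim : ∀ s : ℕ, s < k → ∀ q : ℕ → ℕ, (∀ i, 1 ≤ q i ∧ q i ≤ BB k M) →
      ∑ n ∈ Ico N (2 * N), WT w k M q n (k - s) * bd w k M n s q ≤
        (8 ^ s - 1) * ((N : ℝ) / (M : ℝ) ^ 2) := by
    intro s
    induction s with
    | zero =>
      intro _ q _
      simp [bd]
    | succ s ih =>
      intro hs q hq
      set l := k - (s + 1) with hl
      have hl1 : 1 ≤ l := by omega
      have hlk : l < k := by omega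
      have hl2 : k - s = l + 1 := by omega
      set Q : ℕ := Ml k M l ^ (2 ^ k) ^ 16 with hQ
      have hQB : Q ≤ BB k M := by
        obtain ⟨j, hj⟩ := Nat.exists_eq_add_of_le' hl1
        rw [hQ, hj]
        exact Ml_pow_le_BB (by omega) hM1' (by norm_num)
      have hMl : 0 < Ml k M l := lt_of_lt_of_le hM1' (M_le_Ml hM1')
      have hQ0 : 0 < Q := by positivity
      have hQ0' : (0 : ℝ) < Q := by exact_mod_cast hQ0
      have hcast : ((Ml k M l : ℕ) : ℝ) ^ (2 ^ k) ^ 16 = (Q : ℝ) := by rw [hQ]; push_cast; rfl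
      have hp := hpref l hl1 hlk q hq
      have hterm : ∀ n, WT w k M q n l * bd w k M n (s + 1) q =
          WT w k M q n l * (@ite ℝ (Bad w k M n l q) (Classical.propDecidable _) 1 0) +
          8 / (Q : ℝ) * ∑ t ∈ Icc 1 Q, WT w k M (Function.update q l t) n (k - s) *
            bd w k M n s (Function.update q l t) := by
        intro n
        rw [hl2]
        simp only [bd, ← hl, ← hQ]
        rw [hcast, mul_add, mul_sum, mul_sum, mul_sum]
        congr 1
        apply sum_congr rfl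
        intro t _
        rw [WT_update w k M q n l t hl1]
        ring
      calc ∑ n ∈ Ico N (2 * N), WT w k M q n l * bd w k M n (s + 1) q
          = ∑ n ∈ Ico N (2 * N), WT w k M q n l *
              (@ite ℝ (Bad w k M n l q) (Classical.propDecidable _) 1 0) +
            8 / (Q : ℝ) * ∑ t ∈ Icc 1 Q, ∑ n ∈ Ico N (2 * N),
              WT w k M (Function.update q l t) n (k - s) *
                bd w k M n s (Function.update q l t) := by
            rw [sum_congr rfl fun n _ => hterm n, sum_add_distrib, ← mul_sum, sum_comm]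
        _ ≤ (N : ℝ) / (M : ℝ) ^ 2 + 8 / (Q : ℝ) * ∑ t ∈ Icc 1 Q,
              (8 ^ s - 1) * ((N : ℝ) / (M : ℝ) ^ 2) := by
            apply add_le_add hp
            apply mul_le_mul_of_nonneg_left _ (by positivity)
            apply sum_le_sum
            intro t ht
            rw [mem_Icc] at ht
            apply ih (by omega)
            intro i
            by_cases hi : i = l
            · rw [hi, Function.update_self]
              exact ⟨ht.1, ht.2.trans hQB⟩
            · rw [Function.update_of_ne hi]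
              exact hq i
        _ ≤ (8 ^ (s + 1) - 1) * ((N : ℝ) / (M : ℝ) ^ 2) := by
            rw [sum_const, Nat.card_Icc, Nat.add_sub_cancel, nsmul_eq_mul]
            have h0 : 0 ≤ (N : ℝ) / (M : ℝ) ^ 2 := by positivity
            have h1 : 8 / (Q : ℝ) * ((Q : ℝ) * ((8 ^ s - 1) * ((N : ℝ) / (M : ℝ) ^ 2))) =
                8 * (8 ^ s - 1) * ((N : ℝ) / (M : ℝ) ^ 2) := by
              field_simp
            have h2 : (8 : ℝ) ^ (s + 1) = 8 * 8 ^ s := by rw [pow_succ]; ring
            rw [h1, h2]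
            generalize (N : ℝ) / (M : ℝ) ^ 2 = X at h0
            linarith
  have hqr : ∀ i, 1 ≤ qr i ∧ qr i ≤ BB k M := by
    have h2 : 2 ≤ BB k M := by
      have h3 : (2 : ℝ) ≤ M := by
        refine le_trans ?_ hM
        calc (2 : ℝ) = 2 ^ 1 := by norm_num
          _ ≤ _ := pow_le_pow_right₀ (by norm_num) (one_le_K2 _ _)
      have h4 : 2 ≤ M := by exact_mod_cast h3
      rw [BB_eq]
      exact h4.trans (Nat.le_self_pow (by unfold K2; positivity) M)
    intro i
    unfold qr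
    split_ifs
    · exact ⟨by norm_num, h2⟩
    · exact ⟨le_rfl, by omega⟩
  have hfin := claim (k - 1) (by omega) qr hqr
  rw [show k - (k - 1) = 1 by omega] at hfin
  have h1 : ∀ n, WT w k M qr n 1 = 1 := fun n => by simp [WT]
  simp only [h1, one_mul] at hfin
  refine hfin.trans ?_
  have h2 : (8 : ℝ) ^ (k - 1) - 1 ≤ M := by
    have h3 : (8 : ℝ) ^ (k - 1) ≤ 8 ^ k := pow_le_pow_right₀ (by norm_num) (by omega)
    linarith
  calc (8 ^ (k - 1) - 1) * ((N : ℝ) / (M : ℝ) ^ 2) ≤ M * ((N : ℝ) / (M : ℝ) ^ 2) :=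
        mul_le_mul_of_nonneg_right h2 (by positivity)
    _ = N / M := by field_simp

end Pool.Agent.Work.MP_215640_nt.Q
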