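import Pool.Agent.Work.MP_215640_nt.Q.Defs

/-!
MODULE CONGR. Dependence of the definitions on the steps `q` (easy inductions).
-/

set_option autoImplicit false

namespace Pool.Agent.Work.MP_215640_nt.Q

open Finset Polynomial

theorem al_congr (w : ℕ → Bool) (q q' : ℕ → ℕ) (x : ℝ) (j : ℕ) (h : ∀ i ≤ j, q i = q' i) :
    al w q x j = al w q' x j := by
  induction j with
  | zero =>
    simp only [al]
    rw [h 0 le_rfl]
  | succ j ih =>
    simp only [al]
    rw [ih fun i hi => h i (Nat.le_succ_of_le hi), h (j + 1) le_rfl]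

theorem sl_congr (w : ℕ → Bool) (q q' : ℕ → ℕ) (x : ℝ) (j : ℕ) (hj : 1 ≤ j) (h : ∀ i < j, q i = q' i) :
    sl w q x j = sl w q' x j := by
  unfold sl
  rw [al_congr w q q' x (j - 1) fun i hi => h i (by omega)]

theorem ct_congr (w : ℕ → Bool) (q q' : ℕ → ℕ) (x : ℝ) (j : ℕ) (hj : 1 ≤ j) (h : ∀ i ≤ j, q i = q' i) :
    ct w q x j = ct w q' x j := by
  unfold ct
  rw [sl_congr w q q' x j hj fun i hi => h i hi.le, h j le_rfl]

theorem pq_congr (q q' : ℕ → ℕ) (j : ℕ) (h : ∀ i < j, q i = q' i) : pq q j = pq q' j := by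
  unfold pq
  exact prod_congr rfl fun i hi => h i (mem_range.1 hi)

theorem NJ_congr (w : ℕ → Bool) (q q' : ℕ → ℕ) (x j : ℕ) (H : ℝ) (h : ∀ i ≤ j, q i = q' i)
    (hn : NJ w q x j H) : NJ w q' x j H := by
  intro i hi hij h' hh'
  have h1 := hn i hi hij h' hh'
  have h2 : ∀ l ≤ i, q l = q' l := fun l hl => h l (hl.trans hij)
  rwa [ct_congr w q q' _ i hi h2, ct_congr w q q' _ i hi h2] at h1

theorem Val_congr (w : ℕ → Bool) (q q' : ℕ → ℕ) (ka : ℝ) (L n j : ℕ) (Z : ℝ[X]) (h : ∀ i ≤ j, q i = q' i)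
    (hv : Val w q ka L n j Z) : Val w q' ka L n j Z := by
  have h1 := al_congr w q q' (n : ℝ) j h
  have h2 := pq_congr q q' (j + 1) fun i hi => h i (Nat.lt_succ_iff.1 hi)
  refine ⟨hv.deg, ?_, ?_, ?_⟩
  · rw [← h2]; exact hv.eq
  · rw [← h1]; exact hv.near
  · rw [← h1]; exact hv.top

theorem Bad_congr (w : ℕ → Bool) (k M n l : ℕ) (q q' : ℕ → ℕ) (hl : 1 ≤ l) (h : ∀ i < l, q i = q' i) :
    Bad w k M n l q ↔ Bad w k M n l q' := by
  unfold Bad
  rw [sl_congr w q q' _ l hl h]
  have h1 : NJ w q n (l - 1) (XX k M) ↔ NJ w q' n (l - 1) (XX k M) :=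
    ⟨NJ_congr w q q' n (l - 1) _ fun i hi => h i (by omega),
      NJ_congr w q' q n (l - 1) _ fun i hi => (h i (by omega)).symm⟩
  rw [h1]

/-- only the steps `q i` with `i < k - s` matter -/
theorem bd_congr (w : ℕ → Bool) (k M n s : ℕ) (hs : s < k) (q q' : ℕ → ℕ) (h : ∀ i < k - s, q i = q' i) :
    bd w k M n s q = bd w k M n s q' := by
  induction s generalizing q q' with
  | zero => simp only [bd]
  | succ s ih =>
    have h1 := Bad_congr w k M n (k - (s + 1)) q q' (by omega) h
    have h2 := sl_congr w q q' (n : ℝ) (k - (s + 1)) (by omega) h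
    have h3 : ∀ t, bd w k M n s (Function.update q (k - (s + 1)) t)
        = bd w k M n s (Function.update q' (k - (s + 1)) t) := by
      intro t
      refine ih (by omega) _ _ fun i hi => ?_
      by_cases hi2 : i = k - (s + 1)
      · rw [hi2, Function.update_self, Function.update_self]
      · rw [Function.update_of_ne hi2, Function.update_of_ne hi2]
        exact h i (by omega)
    simp only [bd]
    rw [h2]
    simp only [h3]
    congr 1
    by_cases hB : Bad w k M n (k - (s + 1)) q'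
    · rw [if_pos hB, if_pos (h1.2 hB)]
    · rw [if_neg hB, if_neg fun h => hB (h1.1 h)]

theorem bd_nonneg (w : ℕ → Bool) (k M n s : ℕ) (hM : 1 ≤ M) (q : ℕ → ℕ) : 0 ≤ bd w k M n s q := by
  induction s generalizing q with
  | zero => simp only [bd]; exact le_rfl
  | succ s ih =>
    simp only [bd]
    refine add_nonneg (by split_ifs <;> norm_num) ?_
    refine mul_nonneg (by positivity) (sum_nonneg fun t _ => ?_)
    refine mul_nonneg (mul_nonneg (by norm_num) ?_) (ih _)
    unfold tri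
    exact div_nonneg (le_max_left _ _) (by positivity)

end Pool.Agent.Work.MP_215640_nt.Q
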