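import Pool.Agent.Work.MP_215640_nt.Q.Tri

/-!
MODULE TESTFN. Smooth lower approximations of the parity indicators.

`m ≥ 8` even. For `b = true`: `H x = ∑_{i = m/2+2}^{m-2} (1/m) tri (1/m) (x - i/m)`; `(1/m) tri (1/m) y = max 0 (1 - m dI y)`
are hat functions on the grid `ℤ/m`; for `y = fract x` in `[0,1)`: `H x = 0` unless `1/2 + 1/m < y < 1 - 1/m`, `H x = 1` on
`[1/2 + 2/m, 1 - 2/m]`, linear with slope `±m` between (so `0 ≤ H ≤ 1`, Lipschitz constant `m`). Mean
`(m/2 - 3)/m = 1/2 - 3/m`; `FT` by `FT.sum`, `FT.shift`, `tri_FT`: constant `(m/2)(1/m) m^2 ≤ m^2`.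
`dI (2x) ≤ 1/m` implies that `y` is within `1/(2m)` of `0, 1/2` or `1`, so `H x = 0`. `0 < H x` gives
`fract x ∈ (1/2, 1)`, i.e. `⌊2 x⌋ = 2⌊x⌋ + 1` is odd. `b = false`: the same with `i` from `2` to `m/2 - 2`,
`fract x ∈ (0, 1/2)`, `⌊2x⌋ = 2⌊x⌋`.
-/

set_option autoImplicit false

namespace Pool.Agent.Work.MP_215640_nt.Q

open Finset Polynomial

/-- the hat function of height `c` and slope `m` -/
private noncomputable def hat (m c x : ℝ) : ℝ := max 0 (c - m * dI x)

private theorem dI_zero_aux : dI 0 = 0 := by simp [dI]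

private theorem hat_eq_tri {m c : ℝ} (hm : 0 < m) (hc : 0 < c) (x : ℝ) :
    hat m c x = c ^ 2 / m * tri (c / m) x := by
  unfold hat tri
  have h1 : c - m * dI x = c * (1 - dI x / (c / m)) := by
    field_simp
  have h2 : max 0 (c * (1 - dI x / (c / m))) = c * max 0 (1 - dI x / (c / m)) := by
    rw [mul_max_of_nonneg _ _ hc.le, mul_zero]
  rw [h1, h2]
  field_simp

private theorem hat_FT {m c : ℝ} (hm : 1 ≤ m) (hc : 0 ≤ c) (hcm : c ≤ m / 2) :
    FT (hat m c) (c ^ 2 / m) m := by
  have hm0 : 0 < m := by linarith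
  rcases hc.eq_or_lt with h0 | h0
  · have h1 := FT.sum (∅ : Finset ℕ) (fun _ => hat m c) (fun _ => 0) (fun _ => 0) (fun _ => 0) m
      (by simp) hm (by simp; linarith)
    have h2 : hat m c = fun _ => 0 := by
      funext x
      unfold hat
      rw [← h0]
      have : 0 ≤ m * dI x := mul_nonneg hm0.le (dI_nonneg x)
      exact max_eq_left (by linarith)
    rw [← h0]
    rw [← h0] at h2
    rw [h2]
    simpa using h1
  · have h1 := FT.sum ({0} : Finset ℕ) (fun _ => tri (c / m)) (fun _ => 1)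
      (fun _ => 1 / (c / m) ^ 2) (fun _ => c ^ 2 / m) m
      (fun _ _ => tri_FT (by positivity) (by rw [div_le_iff₀ hm0]; linarith)) hm (by
        rw [sum_singleton, abs_of_pos (by positivity)]
        apply le_of_eq
        field_simp)
    have h2 : hat m c = fun x => ∑ i ∈ ({0} : Finset ℕ), c ^ 2 / m * tri (c / m) x := by
      funext x
      rw [sum_singleton, hat_eq_tri hm0 h0]
    rw [h2]
    simpa using h1

/-- the trapezoid -/
private noncomputable def trap (m c x : ℝ) : ℝ := hat m c x - hat m (c - 1) x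

private theorem trap_eq (m c x : ℝ) : trap m c x = max 0 (min 1 (c - m * dI x)) := by
  unfold trap hat
  rcases le_total (c - m * dI x) 0 with h | h
  · rw [max_eq_left h, max_eq_left (by linarith), min_eq_right (by linarith), max_eq_left h]
    ring
  · rcases le_total (c - m * dI x) 1 with h1 | h1
    · rw [max_eq_right h, max_eq_left (by linarith), min_eq_right h1, max_eq_right h]
      ring
    · rw [max_eq_right h, max_eq_right (by linarith), min_eq_left h1, max_eq_right zero_le_one]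
      ring

private theorem clamp_lip (a b : ℝ) : |max 0 (min 1 a) - max 0 (min 1 b)| ≤ |a - b| := by
  have h1 := abs_max_sub_max_le_abs (min 1 a) (min 1 b) 0
  rw [max_comm, max_comm (min 1 b) 0] at h1
  refine h1.trans ?_
  have h2 := abs_min_sub_min_le_max 1 a 1 b
  rw [sub_self, abs_zero, max_eq_right (abs_nonneg _)] at h2
  exact h2

private theorem dI_diff_aux (x y : ℝ) : |dI x - dI y| ≤ dI (x - y) := by
  have h4 : dI x ≤ dI y + dI (x - y) := by
    have := dI_add_le y (x - y)
    rwa [add_sub_cancel] at this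
  have h5 : dI y ≤ dI x + dI (x - y) := by
    have := dI_add_le x (-(x - y))
    rw [dI_neg] at this
    have h6 : x + -(x - y) = y := by ring
    rwa [h6] at this
  rw [abs_le]
  constructor <;> linarith

private theorem trap_test (m : ℕ) (h8 : 8 ≤ m) (s : ℝ)
    (hs : ∀ x : ℝ, dI (x + s) < 1 / 4 - 1 / m → 1 / (m : ℝ) < dI (2 * x)) :
    Test (fun x => trap m (m / 4 - 1) (x + s)) (1 / 2 - 3 / m) m := by
  have hm8 : (8 : ℝ) ≤ m := by exact_mod_cast h8
  have hm0 : (0 : ℝ) < m := by linarith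
  refine ⟨?_, ?_, ?_, ?_, ?_⟩
  · have h1 := FT.sum (univ : Finset (Fin 2))
      (fun i => if i = 0 then hat (m : ℝ) (m / 4 - 1) else hat (m : ℝ) (m / 4 - 2))
      (fun i => if i = 0 then ((m : ℝ) / 4 - 1) ^ 2 / m else ((m : ℝ) / 4 - 2) ^ 2 / m)
      (fun _ => (m : ℝ)) (fun i => if i = 0 then 1 else -1) ((m : ℝ) ^ 2)
      (by
        intro i _
        by_cases hi : i = 0
        · simp only [hi, if_true]
          exact hat_FT (by linarith) (by linarith) (by linarith)
        · simp only [hi, if_false]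
          exact hat_FT (by linarith) (by linarith) (by linarith))
      (by nlinarith)
      (by
        rw [Fin.sum_univ_two]
        simp
        nlinarith)
    have h2 := h1.shift s
    simp only [Fin.sum_univ_two] at h2
    simp only [Fin.isValue, if_true, one_ne_zero, if_false] at h2
    convert h2 using 1
    · funext x
      unfold trap
      have : (m : ℝ) / 4 - 1 - 1 = m / 4 - 2 := by ring
      rw [this]
      ring
    · field_simp
      ring
  · intro x
    rw [trap_eq]
    exact le_max_left _ _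
  · intro x
    rw [trap_eq]
    exact max_le zero_le_one (min_le_left _ _)
  · intro x y
    rw [trap_eq, trap_eq]
    refine (clamp_lip _ _).trans ?_
    have h1 : (m : ℝ) / 4 - 1 - m * dI (x + s) - (m / 4 - 1 - m * dI (y + s)) =
        -(m * (dI (x + s) - dI (y + s))) := by ring
    rw [h1, abs_neg, abs_mul, abs_of_pos hm0]
    refine mul_le_mul_of_nonneg_left ?_ hm0.le
    have h2 := dI_diff_aux (x + s) (y + s)
    rwa [add_sub_add_right_eq_sub] at h2
  · intro x hx
    rw [trap_eq]
    by_contra hne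
    have h1 : dI (x + s) < 1 / 4 - 1 / m := by
      by_contra h2
      push Not at h2
      apply hne
      have h3 : (m : ℝ) / 4 - 1 - m * dI (x + s) ≤ 0 := by
        have h4 : (m : ℝ) * (1 / 4 - 1 / m) ≤ m * dI (x + s) :=
          mul_le_mul_of_nonneg_left h2 hm0.le
        have h5 : (m : ℝ) * (1 / 4 - 1 / m) = m / 4 - 1 := by
          field_simp
        linarith
      rw [min_eq_right (by linarith), max_eq_left h3]
    have := hs x h1
    linarith

private theorem trap_pos (m : ℕ) (h8 : 8 ≤ m) (x : ℝ) (h : 0 < trap m (m / 4 - 1) x) :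
    dI x < 1 / 4 - 1 / m := by
  have hm8 : (8 : ℝ) ≤ m := by exact_mod_cast h8
  have hm0 : (0 : ℝ) < m := by linarith
  by_contra h2
  push Not at h2
  have h4 : (m : ℝ) * (1 / 4 - 1 / m) ≤ m * dI x := mul_le_mul_of_nonneg_left h2 hm0.le
  have h5 : (m : ℝ) * (1 / 4 - 1 / m) = m / 4 - 1 := by field_simp
  rw [trap_eq, min_eq_right (by linarith), max_eq_left (by linarith)] at h
  exact lt_irrefl _ h

private theorem dI_two_aux (x : ℝ) (z : ℤ) (δ : ℝ) (h1 : (z : ℝ) + 2 * δ < 2 * x)
    (h2 : 2 * x < z + 1 - 2 * δ) (hδ : 0 < δ) : δ < dI (2 * x) := by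
  obtain ⟨w, hw⟩ := exists_int_dI (2 * x)
  rw [← hw]
  rcases le_or_gt w z with h3 | h3
  · have h4 : (w : ℝ) ≤ z := by exact_mod_cast h3
    rw [abs_of_nonneg (by linarith)]
    linarith
  · have h4 : (z : ℝ) + 1 ≤ w := by exact_mod_cast h3
    rw [abs_of_nonpos (by linarith)]
    linarith

theorem exists_test (m : ℕ) (hm : Even m) (h8 : 8 ≤ m) (b : Bool) :
    ∃ H : ℝ → ℝ, Test H (1 / 2 - 3 / m) m ∧ ∀ x : ℝ, 0 < H x → (Odd ⌊2 * x⌋ ↔ b = true) := by
  have _ := hm
  have hm8 : (8 : ℝ) ≤ m := by exact_mod_cast h8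
  have hm0 : (0 : ℝ) < m := by linarith
  have hδ : 0 < 1 / (m : ℝ) := by positivity
  cases b with
  | true =>
    have key : ∀ x : ℝ, dI (x + -(3 / 4)) < 1 / 4 - 1 / m → ∃ z : ℤ,
        ((2 * z + 1 : ℤ) : ℝ) + 2 * (1 / m) < 2 * x ∧
          2 * x < ((2 * z + 1 : ℤ) : ℝ) + 1 - 2 * (1 / m) := by
      intro x hx
      obtain ⟨z, hz⟩ := exists_int_dI (x + -(3 / 4))
      rw [← hz, abs_lt] at hx
      refine ⟨z, ?_, ?_⟩
      · push_cast
        linarith [hx.1]
      · push_cast
        linarith [hx.2]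
    refine ⟨fun x => trap m (m / 4 - 1) (x + -(3 / 4)), trap_test m h8 _ ?_, ?_⟩
    · intro x hx
      obtain ⟨z, h1, h2⟩ := key x hx
      exact dI_two_aux x (2 * z + 1) _ h1 h2 hδ
    · intro x hx
      obtain ⟨z, h1, h2⟩ := key x (trap_pos m h8 _ hx)
      have h3 : ⌊2 * x⌋ = 2 * z + 1 := by
        rw [Int.floor_eq_iff]
        constructor <;> linarith
      rw [h3]
      simp
  | false =>
    have key : ∀ x : ℝ, dI (x + -(1 / 4)) < 1 / 4 - 1 / m → ∃ z : ℤ,
        ((2 * z : ℤ) : ℝ) + 2 * (1 / m) < 2 * x ∧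
          2 * x < ((2 * z : ℤ) : ℝ) + 1 - 2 * (1 / m) := by
      intro x hx
      obtain ⟨z, hz⟩ := exists_int_dI (x + -(1 / 4))
      rw [← hz, abs_lt] at hx
      refine ⟨z, ?_, ?_⟩
      · push_cast
        linarith [hx.1]
      · push_cast
        linarith [hx.2]
    refine ⟨fun x => trap m (m / 4 - 1) (x + -(1 / 4)), trap_test m h8 _ ?_, ?_⟩
    · intro x hx
      obtain ⟨z, h1, h2⟩ := key x hx
      exact dI_two_aux x (2 * z) _ h1 h2 hδ
    · intro x hx
      obtain ⟨z, h1, h2⟩ := key x (trap_pos m h8 _ hx)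
      have h3 : ⌊2 * x⌋ = 2 * z := by
        rw [Int.floor_eq_iff]
        constructor <;> linarith
      rw [h3]
      simp

end Pool.Agent.Work.MP_215640_nt.Q
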