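import Pool.Agent.Work.MP_215640_nt.Q.Tree
import Pool.Agent.Work.MP_215640_nt.Q.BadAvg
import Pool.Agent.Work.MP_215640_nt.Q.TestFn
import Pool.Agent.Work.MP_215640_nt.U.Word
import Pool.Agent.Work.MP_215640_nt.Q.K2L
import Pool.Agent.Work.MP_215640_nt.Q.Congr

/-!
MODULE WORDQ. The uniform parity word theorem (helper64's `WordThm`).

Let `c0` be the maximum of the constants of `tree`, `bad_avg` (both are monotone in `c`), `a` a bit larger, `X = N^(1/(8 K2 a k))`, `m = 2⌊X/2⌋` (even,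
`≥ X/2`), `M = m^4 ≤ N^(1/(2 K2 a k))`, so `M^(K2 c0 k) ≤ N^(1/2) ≤ N`, `2^(K2 c0 k) ≤ M` because `N ≥ 2^(K2 c k)`, `c ≥ a + c0 + 10`. `H i` from
`exists_test m _ _ (w i)`, `μ i = 1/2 - 3/m`. For `n ∈ [N,2N)` with `n % 2 = 1 ↔ w 0`: `ind w k n ≥ Π(n) := ∏_{i∈Ico 1 k} H i (xx w i n/2) ∈ [0,1]`: if
`Π(n) > 0` all `H i > 0`, so `⌊2 (xx/2)⌋ = F w i n` (Int and Nat floor of a nonnegative real) is odd iff `w i`.
`M0 = Ml k M 0`, `2 M0 ≤ N^((1/2)^(k+2))`. With `n` restricted to the right parity class, for `u < M0`: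
`∑_{n∈[N,2N)} f n Π n ≥ ∑_{n∈[N,2N)} f (n+2u) Π (n+2u) - 2u ≥ ∑ f n Π (n+2u) - δN - 2u`; average over `u < M0` and use `tree` for every `n = n0`:
`≥ ∑ f n (∏ μ - 12k/M - bd ...) - δN - 2M0 ≥ (1/2-3/m)^(k-1) ∑ f n - 12kN/M - N/M - δN - 2M0` (`bad_avg`). In the class
`∑ f n ≥ (1/2) ∑_{all n} f n - δN/2 - 1/2` (compare `n` and `n+1`). `(1/2-3/m)^(k-1) ≥ 2^(-(k-1)) (1 - 6k/m)`. The sum of the errors is at most
`2δN + N^(1-1/K2 c k)`.
-/

set_option autoImplicit false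

namespace Pool.Agent.Work.MP_215640_nt.Q

open Finset Polynomial

private theorem shift_le (g : ℕ → ℝ) (h0 : ∀ n, 0 ≤ g n) (h1 : ∀ n, g n ≤ 1) (N h : ℕ) :
    ∑ n ∈ Ico N (2 * N), g (n + h) ≤ ∑ n ∈ Ico N (2 * N), g n + h := by
  rw [sum_Ico_add' g N (2 * N) h]
  calc ∑ n ∈ Ico (N + h) (2 * N + h), g n ≤ ∑ n ∈ Ico N (2 * N + h), g n := by
        apply sum_le_sum_of_subset_of_nonneg
        · intro n hn
          rw [mem_Ico] at hn ⊢
          omega
        · intro n _ _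
          exact h0 n
    _ = ∑ n ∈ Ico N (2 * N), g n + ∑ n ∈ Ico (2 * N) (2 * N + h), g n :=
        (sum_Ico_consecutive g (by omega) (by omega)).symm
    _ ≤ ∑ n ∈ Ico N (2 * N), g n + h := by
        have h2 : ∑ n ∈ Ico (2 * N) (2 * N + h), g n ≤ ∑ n ∈ Ico (2 * N) (2 * N + h), (1 : ℝ) :=
          sum_le_sum fun n _ => h1 n
        rw [sum_const, Nat.card_Ico, nsmul_eq_mul, mul_one,
          show 2 * N + h - 2 * N = h by omega] at h2
        linarith

private theorem xx_nonneg' (w : ℕ → Bool) (j n : ℕ) : 0 ≤ xx w j n := by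
  cases j with
  | zero => exact Nat.cast_nonneg n
  | succ j => exact Real.rpow_nonneg (Nat.cast_nonneg _) _

private theorem odd_F (w : ℕ → Bool) (j n : ℕ) : Odd ⌊2 * (xx w j n / 2)⌋ ↔ F w j n % 2 = 1 := by
  rw [mul_div_cancel₀ _ (two_ne_zero), ← Int.natCast_floor_eq_floor (xx_nonneg' w j n),
    Int.odd_coe_nat, Nat.odd_iff]
  rfl

theorem word_thm : WordThm := by
  classical
  obtain ⟨ct, htree⟩ := tree
  obtain ⟨cb, hbad⟩ := bad_avg
  obtain ⟨c0, hc0⟩ : ∃ c0, c0 = ct + cb + 10 := ⟨_, rfl⟩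
  refine ⟨2 * c0 + 40, ?_⟩
  intro k w N f δ hk hw hN hf0 hf1 hδ hvar
  change 2 ^ K2 (2 * c0 + 40) k ≤ N at hN
  change (1 / 2) ^ k * ∑ n ∈ Ico N (2 * N), f n -
    (3 * δ + (N : ℝ) ^ (-(1 / (K2 (2 * c0 + 40) k : ℝ)))) * N ≤ _
  have hw' : Pos w k := hw
  -- the size parameter
  set KK : ℕ := K2 (2 * c0 + 40) k with hKK
  have hKK0 : (0 : ℝ) < KK := by exact_mod_cast K2_pos _ _
  have hNr : (2 : ℝ) ^ KK ≤ N := by exact_mod_cast hN
  have hN0 : (0 : ℝ) < N := lt_of_lt_of_le (by positivity) hNr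
  set Y : ℝ := (N : ℝ) ^ (1 / (KK : ℝ)) with hY
  have hY0 : 0 ≤ Y := Real.rpow_nonneg hN0.le _
  have hYN : Y ^ KK = N := by
    rw [hY, ← Real.rpow_natCast, ← Real.rpow_mul hN0.le, one_div_mul_cancel hKK0.ne', Real.rpow_one]
  have hY2 : 2 ≤ Y := by
    by_contra hlt
    push Not at hlt
    have h1 : Y ^ KK < 2 ^ KK := pow_lt_pow_left₀ hlt hY0 (K2_pos _ _).ne'
    linarith
  have hY1 : 1 ≤ Y := by linarith
  set R : ℕ := K2 (c0 + 1) k with hR
  have hRK : 2 * K2 c0 k ≤ R := by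
    rw [hR, K2_add, mul_comm]
    apply Nat.mul_le_mul_left
    unfold K2
    calc 2 = 2 ^ 1 := by norm_num
      _ ≤ _ := Nat.pow_le_pow_right (by norm_num) (by nlinarith)
  have hK0big : 2 ^ (10 * k) ≤ K2 c0 k := two_pow_le_K2 hk (by omega)
  have h10k : 1024 * k ≤ 2 ^ (10 * k) := by
    have h1 : (2 : ℕ) ^ (10 * k) = 1024 ^ k := by rw [pow_mul]; norm_num
    rw [h1]
    clear * - hk
    induction k, hk using Nat.le_induction with
    | base => norm_num
    | succ n hn ih => rw [pow_succ]; omega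
  have hR1024 : 2048 * k ≤ R := by omega
  have hYR : (2 : ℝ) ^ R ≤ Y ^ R := pow_le_pow_left₀ (by norm_num) hY2 R
  -- the parameter `m`
  set m : ℕ := 2 * ⌊Y ^ R / 2⌋₊ with hm
  have hmE : Even m := even_two_mul _
  have hmle : (m : ℝ) ≤ Y ^ R := by
    rw [hm]; push_cast
    have := Nat.floor_le (show 0 ≤ Y ^ R / 2 by positivity)
    linarith
  have h2R : (R : ℝ) ≤ 2 ^ (R - 1) := by
    have h1 : R ≤ 2 ^ (R - 1) := by
      have h2 : R - 1 < 2 ^ (R - 1) := Nat.lt_two_pow_self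
      omega
    exact_mod_cast h1
  have hR1r : (2048 : ℝ) * k ≤ R := by exact_mod_cast hR1024
  have hkr : (1 : ℝ) ≤ k := by exact_mod_cast hk
  have hYRs : Y ^ R = Y * Y ^ (R - 1) := by
    rw [← pow_succ']
    congr 1
    omega
  have hYR1 : (R : ℝ) ≤ Y ^ (R - 1) := h2R.trans (pow_le_pow_left₀ (by norm_num) hY2 _)
  have hmge : Y ^ R / 2 ≤ m := by
    rw [hm]; push_cast
    have h1 := Nat.lt_floor_add_one (Y ^ R / 2)
    have h2 : 4 ≤ Y ^ R := by
      rw [hYRs]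
      nlinarith
    linarith
  have hm8r : (1024 * k * Y : ℝ) ≤ m := by
    refine le_trans ?_ hmge
    rw [hYRs]
    have : (2048 * k : ℝ) ≤ Y ^ (R - 1) := hR1r.trans hYR1
    nlinarith
  have hm8 : 8 ≤ m := by
    have : (8 : ℝ) ≤ m := by nlinarith
    exact_mod_cast this
  have hm0 : (0 : ℝ) < m := by
    have : 0 < m := by omega
    exact_mod_cast this
  obtain ⟨M, hM⟩ : ∃ M : ℕ, M = m ^ 4 := ⟨_, rfl⟩
  have hMm : (m : ℝ) ≤ M := by
    rw [hM]
    exact_mod_cast Nat.le_self_pow (by norm_num) m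
  have hM0 : (0 : ℝ) < M := hm0.trans_le hMm
  have hM1 : (1 : ℝ) ≤ M := by
    have : (8 : ℝ) ≤ m := by exact_mod_cast hm8
    linarith
  have hM1' : 1 ≤ M := by exact_mod_cast hM1
  have hMY : (M : ℝ) ≤ Y ^ (4 * R) := by
    rw [hM]
    push_cast
    calc (m : ℝ) ^ 4 ≤ (Y ^ R) ^ 4 := pow_le_pow_left₀ hm0.le hmle 4
      _ = Y ^ (4 * R) := by rw [← pow_mul, mul_comm]
  have h2M : (2 : ℝ) ^ K2 c0 k ≤ M := by
    refine le_trans ?_ hMm
    refine le_trans ?_ hmge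
    rw [le_div_iff₀ (by norm_num), ← pow_succ]
    refine le_trans ?_ hYR
    apply pow_le_pow_right₀ (by norm_num)
    have := K2_pos c0 k
    omega
  have hMN : (M : ℝ) ^ K2 c0 k ≤ N := by
    rw [← hYN]
    calc (M : ℝ) ^ K2 c0 k ≤ (Y ^ (4 * R)) ^ K2 c0 k := pow_le_pow_left₀ hM0.le hMY _
      _ = Y ^ (4 * R * K2 c0 k) := by rw [← pow_mul]
      _ ≤ Y ^ KK := by
          apply pow_le_pow_right₀ hY1
          calc 4 * R * K2 c0 k ≤ K2 2 k * R * K2 c0 k := by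
                apply Nat.mul_le_mul_right
                apply Nat.mul_le_mul_right
                calc 4 = 2 ^ 2 := by norm_num
                  _ ≤ 2 ^ (2 * k) := Nat.pow_le_pow_right (by norm_num) (by omega)
                  _ ≤ _ := two_pow_le_K2 hk le_rfl
            _ = K2 (2 * c0 + 3) k := by
                rw [hR, ← K2_add, ← K2_add]
                congr 1
                ring
            _ ≤ KK := K2_mono k (by omega)
  obtain ⟨M0, hM0def⟩ : ∃ M0 : ℕ, M0 = Ml k M 0 := ⟨_, rfl⟩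
  have hM01 : 1 ≤ M0 := by
    rw [hM0def]
    exact hM1'.trans (M_le_Ml hM1')
  have hM0pos : (0 : ℝ) < M0 := by exact_mod_cast hM01
  obtain ⟨E, hE⟩ : ∃ E : ℕ, E = 4 * R * K2 27 k + 1 := ⟨_, rfl⟩
  have h2M0 : 2 * (M0 : ℝ) ≤ Y ^ E := by
    have h1 : (M0 : ℝ) ≤ (M : ℝ) ^ K2 27 k := by
      have h2 := Ml_le_BB (k := k) M 0 hM1'
      rw [← hM0def, BB_eq] at h2
      exact_mod_cast h2
    calc 2 * (M0 : ℝ) ≤ Y * (M : ℝ) ^ K2 27 k := mul_le_mul hY2 h1 hM0pos.le hY0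
      _ ≤ Y * (Y ^ (4 * R)) ^ K2 27 k :=
          mul_le_mul_of_nonneg_left (pow_le_pow_left₀ hM0.le hMY _) hY0
      _ = Y ^ E := by rw [hE, ← pow_mul, pow_succ, mul_comm]
  have hEK : (E + 3) * 2 ^ (k + 2) ≤ KK := by
    have h1 : E + 3 ≤ 8 * R * K2 27 k := by
      have h2 : 1 ≤ K2 27 k := one_le_K2 27 k
      have h3 : 4 * R * 1 ≤ 4 * R * K2 27 k := Nat.mul_le_mul_left _ h2
      rw [hE]
      have h4 : 8 * R * K2 27 k = 4 * R * K2 27 k + 4 * R * K2 27 k := by ring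
      omega
    calc (E + 3) * 2 ^ (k + 2) ≤ 8 * R * K2 27 k * 2 ^ (k + 2) := Nat.mul_le_mul_right _ h1
      _ = R * K2 27 k * 2 ^ (k + 5) := by ring
      _ ≤ R * K2 27 k * K2 6 k := by
          apply Nat.mul_le_mul_left
          calc 2 ^ (k + 5) ≤ 2 ^ (6 * k) := Nat.pow_le_pow_right (by norm_num) (by omega)
            _ ≤ _ := two_pow_le_K2 hk le_rfl
      _ = K2 (c0 + 34) k := by rw [hR, ← K2_add, ← K2_add]
      _ ≤ KK := K2_mono k (by omega)
  have hvar' : ∀ h : ℕ, (h : ℝ) ≤ Y ^ E → ∑ n ∈ Ico N (2 * N), |f (n + h) - f n| ≤ δ * N := by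
    intro h hh
    apply hvar h
    have h1 : (h : ℝ) ^ 2 ^ (k + 2) ≤ N := by
      calc (h : ℝ) ^ 2 ^ (k + 2) ≤ (Y ^ E) ^ 2 ^ (k + 2) :=
            pow_le_pow_left₀ (Nat.cast_nonneg h) hh _
        _ = Y ^ (E * 2 ^ (k + 2)) := by rw [← pow_mul]
        _ ≤ Y ^ KK := pow_le_pow_right₀ hY1 (by
            refine le_trans ?_ hEK
            exact Nat.mul_le_mul_right _ (by omega))
        _ = N := hYN
    have h2 : ((h : ℝ) ^ 2 ^ (k + 2)) ^ ((1 / 2 : ℝ) ^ (k + 2)) = h := by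
      rw [← Real.rpow_natCast, ← Real.rpow_mul (Nat.cast_nonneg h)]
      have : (((2 ^ (k + 2) : ℕ) : ℝ)) * (1 / 2 : ℝ) ^ (k + 2) = 1 := by
        push_cast
        rw [← mul_pow]
        norm_num
      rw [this, Real.rpow_one]
    rw [← h2]
    exact Real.rpow_le_rpow (by positivity) h1 (by positivity)
  -- test functions
  choose H hH hHo using fun i : ℕ => exists_test m hmE hm8 (w i)
  have hmu0 : (0 : ℝ) ≤ 1 / 2 - 3 / m := by
    have : (8 : ℝ) ≤ m := by exact_mod_cast hm8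
    rw [sub_nonneg, div_le_div_iff₀ hm0 (by norm_num)]
    linarith
  have hmu1 : (1 : ℝ) / 2 - 3 / m ≤ 1 := by
    have : 0 ≤ 3 / (m : ℝ) := by positivity
    linarith
  have ht := htree k hk w hw' m hm8 M hM (two_pow_K2_mono (by omega) h2M) N
    (pow_K2_mono hM1 (by omega) hMN) H (fun _ => 1 / 2 - 3 / m)
    (fun i _ _ => ⟨hH i, hmu0, hmu1⟩)
  have hb := hbad k hk w hw' M (two_pow_K2_mono (by omega) h2M) N (pow_K2_mono hM1 (by omega) hMN)
  rw [← hM0def] at ht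
  obtain ⟨P, hP⟩ : ∃ P : ℕ → ℝ, ∀ n, P n = ∏ i ∈ Ico 1 k, H i (xx w i n / 2) := ⟨_, fun _ => rfl⟩
  have hP0 : ∀ n, 0 ≤ P n := fun n => by
    rw [hP]; exact prod_nonneg fun i _ => (hH i).nonneg _
  have hP1 : ∀ n, P n ≤ 1 := fun n => by
    rw [hP]; exact prod_le_one (fun i _ => (hH i).nonneg _) fun i _ => (hH i).le_one _
  obtain ⟨e, he⟩ : ∃ e : ℕ → ℝ, ∀ n, e n = if (n % 2 = 1 ↔ w 0 = true) then 1 else 0 :=
    ⟨_, fun _ => rfl⟩
  have he0 : ∀ n, 0 ≤ e n := fun n => by rw [he]; split_ifs <;> norm_num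
  have he1 : ∀ n, e n ≤ 1 := fun n => by rw [he]; split_ifs <;> norm_num
  have he2 : ∀ n u, e (n + 2 * u) = e n := fun n u => by
    rw [he, he, show (n + 2 * u) % 2 = n % 2 by omega]
  have he3 : ∀ n, e n + e (n + 1) = 1 := fun n => by
    rw [he, he]
    rcases Nat.mod_two_eq_zero_or_one n with h | h
    · rw [h, show (n + 1) % 2 = 1 by omega]
      cases w 0 <;> simp
    · rw [h, show (n + 1) % 2 = 0 by omega]
      cases w 0 <;> simp
  have hind : ∀ n, e n * P n ≤ ind w k n := by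
    intro n
    have hi0 : 0 ≤ ind w k n := by unfold ind; split_ifs <;> norm_num
    by_cases h1 : e n = 0
    · rw [h1, zero_mul]; exact hi0
    by_cases h2 : P n = 0
    · rw [h2, mul_zero]; exact hi0
    have h3 : (n % 2 = 1 ↔ w 0 = true) := by
      by_contra h4
      exact h1 (by rw [he, if_neg h4])
    have h4 : Pat w w (range k) n := by
      intro j hj
      rw [mem_range] at hj
      rcases Nat.eq_zero_or_pos j with rfl | hj1
      · have : F w 0 n = n := by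
          unfold F xx
          exact Nat.floor_natCast n
        rw [this]
        exact h3
      · rw [← odd_F]
        apply hHo j
        apply lt_of_le_of_ne ((hH j).nonneg _)
        intro h5
        apply h2
        rw [hP]
        exact prod_eq_zero (mem_Ico.2 ⟨hj1, hj⟩) h5.symm
    have h5 : ind w k n = 1 := by unfold ind; rw [if_pos h4]
    rw [h5]
    exact mul_le_one₀ (he1 n) (hP0 n) (hP1 n)
  -- shifting
  have hbd0 : ∀ n, 0 ≤ bd w k M n (k - 1) qr := fun n => bd_nonneg w k M n (k - 1) hM1' qr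
  set Pm : ℝ := ∏ _i ∈ Ico 1 k, (1 / 2 - 3 / (m : ℝ)) with hPm
  have hPmeq : Pm = (1 / 2 - 3 / (m : ℝ)) ^ (k - 1) := by
    rw [hPm, prod_const, Nat.card_Ico]
  have hPm0 : 0 ≤ Pm := by rw [hPmeq]; positivity
  have hPm1 : Pm ≤ 1 := by rw [hPmeq]; exact pow_le_one₀ hmu0 hmu1
  have hu : ∀ u ∈ range M0, ∑ n ∈ Ico N (2 * N), f n * e n * P (n + 2 * u) ≤
      ∑ n ∈ Ico N (2 * N), f n * e n * P n + 2 * M0 + δ * N := by
    intro u hu
    rw [mem_range] at hu
    have hu' : (u : ℝ) ≤ M0 := by exact_mod_cast hu.le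
    have h1 := shift_le (fun n => f n * e n * P n)
      (fun n => mul_nonneg (mul_nonneg (hf0 n) (he0 n)) (hP0 n))
      (fun n => mul_le_one₀ (mul_le_one₀ (hf1 n) (he0 n) (he1 n)) (hP0 n) (hP1 n)) N (2 * u)
    have h2 := hvar' (2 * u) (by push_cast; linarith)
    have h3 : ∑ n ∈ Ico N (2 * N), f n * e n * P (n + 2 * u) ≤
        ∑ n ∈ Ico N (2 * N), (f (n + 2 * u) * e (n + 2 * u) * P (n + 2 * u) +
          |f (n + 2 * u) - f n|) := by
      apply sum_le_sum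
      intro n _
      rw [he2]
      have h4 : 0 ≤ e n * P (n + 2 * u) := mul_nonneg (he0 n) (hP0 _)
      have h5 : e n * P (n + 2 * u) ≤ 1 := mul_le_one₀ (he1 n) (hP0 _) (hP1 _)
      have h6 : f n - f (n + 2 * u) ≤ |f (n + 2 * u) - f n| := by
        rw [abs_sub_comm]; exact le_abs_self _
      have h7 : (f n - f (n + 2 * u)) * (e n * P (n + 2 * u)) ≤ |f (n + 2 * u) - f n| := by
        calc (f n - f (n + 2 * u)) * (e n * P (n + 2 * u))
            ≤ |f (n + 2 * u) - f n| * (e n * P (n + 2 * u)) := mul_le_mul_of_nonneg_right h6 h4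
          _ ≤ |f (n + 2 * u) - f n| * 1 := mul_le_mul_of_nonneg_left h5 (abs_nonneg _)
          _ = _ := mul_one _
      linarith
    rw [sum_add_distrib] at h3
    push_cast at h1
    linarith
  have hmain : Pm * ∑ n ∈ Ico N (2 * N), f n * e n - (12 * k / M + 1 / M) * N ≤
      ∑ n ∈ Ico N (2 * N), f n * e n * P n + 2 * M0 + δ * N := by
    have h1 : ∑ n ∈ Ico N (2 * N), f n * e n * ((1 / (M0 : ℝ)) * ∑ u ∈ range M0, P (n + 2 * u)) ≤
        ∑ n ∈ Ico N (2 * N), f n * e n * P n + 2 * M0 + δ * N := by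
      have h2 : ∑ n ∈ Ico N (2 * N), f n * e n * ((1 / (M0 : ℝ)) * ∑ u ∈ range M0, P (n + 2 * u)) =
          (1 / (M0 : ℝ)) * ∑ u ∈ range M0, ∑ n ∈ Ico N (2 * N), f n * e n * P (n + 2 * u) := by
        rw [sum_comm, mul_sum]
        apply sum_congr rfl
        intro n _
        rw [mul_sum, mul_sum, mul_sum]
        apply sum_congr rfl
        intro u _
        ring
      rw [h2, one_div, inv_mul_le_iff₀ hM0pos]
      refine (sum_le_sum hu).trans ?_
      rw [sum_const, card_range, nsmul_eq_mul]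
    have h3 : ∑ n ∈ Ico N (2 * N), (f n * e n * Pm - 12 * k / M - bd w k M n (k - 1) qr) ≤
        ∑ n ∈ Ico N (2 * N), f n * e n * ((1 / (M0 : ℝ)) * ∑ u ∈ range M0, P (n + 2 * u)) := by
      apply sum_le_sum
      intro n hn
      rw [mem_Ico] at hn
      have h4 := ht n hn.1 hn.2
      simp only [← hP] at h4
      have h5 := (abs_le.1 h4).1
      have h6 : 0 ≤ f n * e n := mul_nonneg (hf0 n) (he0 n)
      have h7 : f n * e n ≤ 1 := mul_le_one₀ (hf1 n) (he0 n) (he1 n)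
      have h8 : 0 ≤ 12 * k / (M : ℝ) + bd w k M n (k - 1) qr := by
        have := hbd0 n
        positivity
      have h9 : f n * e n * (Pm - (12 * k / (M : ℝ) + bd w k M n (k - 1) qr)) ≤
          f n * e n * ((1 / (M0 : ℝ)) * ∑ u ∈ range M0, P (n + 2 * u)) :=
        mul_le_mul_of_nonneg_left (by linarith) h6
      have h10 : f n * e n * (12 * k / (M : ℝ) + bd w k M n (k - 1) qr) ≤
          12 * k / (M : ℝ) + bd w k M n (k - 1) qr := mul_le_of_le_one_left h8 h7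
      rw [mul_sub] at h9
      linarith
    rw [sum_sub_distrib, sum_sub_distrib, ← sum_mul, sum_const, Nat.card_Ico,
      show 2 * N - N = N by omega, nsmul_eq_mul] at h3
    have h11 : (N : ℝ) / M = 1 / M * N := by ring
    rw [h11] at hb
    linarith
  -- the parity class
  have hclass : ∑ n ∈ Ico N (2 * N), f n ≤ 2 * ∑ n ∈ Ico N (2 * N), f n * e n + 1 + δ * N := by
    have h1 := shift_le (fun n => f n * e n) (fun n => mul_nonneg (hf0 n) (he0 n))
      (fun n => mul_le_one₀ (hf1 n) (he0 n) (he1 n)) N 1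
    have h2 := hvar' 1 (by
      push_cast
      exact one_le_pow₀ hY1)
    have h3 : ∑ n ∈ Ico N (2 * N), f n ≤ ∑ n ∈ Ico N (2 * N), (f n * e n +
        f (n + 1) * e (n + 1) + |f (n + 1) - f n|) := by
      apply sum_le_sum
      intro n _
      have h4 := he3 n
      have h5 := he0 (n + 1)
      have h6 := he1 (n + 1)
      have h7 : f n - f (n + 1) ≤ |f (n + 1) - f n| := by
        rw [abs_sub_comm]; exact le_abs_self _
      have h8 : (f n - f (n + 1)) * e (n + 1) ≤ |f (n + 1) - f n| := by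
        calc (f n - f (n + 1)) * e (n + 1) ≤ |f (n + 1) - f n| * e (n + 1) :=
              mul_le_mul_of_nonneg_right h7 h5
          _ ≤ |f (n + 1) - f n| * 1 := mul_le_mul_of_nonneg_left h6 (abs_nonneg _)
          _ = _ := mul_one _
      have h9 : f n = f n * e n + f n * e (n + 1) := by rw [← mul_add, h4, mul_one]
      nlinarith
    rw [sum_add_distrib, sum_add_distrib] at h3
    push_cast at h1
    linarith
  have hS0 : 0 ≤ ∑ n ∈ Ico N (2 * N), f n := sum_nonneg fun n _ => hf0 n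
  have hS1 : ∑ n ∈ Ico N (2 * N), f n ≤ N := by
    calc ∑ n ∈ Ico N (2 * N), f n ≤ ∑ n ∈ Ico N (2 * N), (1 : ℝ) := sum_le_sum fun n _ => hf1 n
      _ = N := by rw [sum_const, Nat.card_Ico, nsmul_eq_mul, mul_one, show 2 * N - N = N by omega]
  -- lower bound for the product of the means
  have hbern : (1 / 2 : ℝ) ^ (k - 1) * (1 - 6 * k / m) ≤ Pm := by
    have h1 : (1 : ℝ) / 2 - 3 / m = 1 / 2 * (1 + -(6 / m)) := by
      field_simp
      ring
    rw [hPmeq, h1, mul_pow]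
    apply mul_le_mul_of_nonneg_left _ (by positivity)
    have h2 : (-2 : ℝ) ≤ -(6 / m) := by
      rw [neg_le_neg_iff, div_le_iff₀ hm0]
      have : (8 : ℝ) ≤ m := by exact_mod_cast hm8
      linarith
    have h3 := one_add_mul_le_pow h2 (k - 1)
    refine le_trans ?_ h3
    have h4 : ((k - 1 : ℕ) : ℝ) ≤ k := by exact_mod_cast Nat.sub_le k 1
    have h5 : 0 ≤ 6 / (m : ℝ) := by positivity
    have h6 : 6 * k / (m : ℝ) = k * (6 / m) := by ring
    rw [h6]
    nlinarith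
  -- the errors
  have hYinv : (N : ℝ) ^ (-(1 / (KK : ℝ))) = 1 / Y := by
    rw [Real.rpow_neg hN0.le, ← hY]
    exact (one_div Y).symm
  have herr1 : 19 * k / (m : ℝ) ≤ 1 / (2 * Y) := by
    rw [div_le_div_iff₀ hm0 (by positivity)]
    nlinarith
  have herr2 : 2 * (M0 : ℝ) + 1 / 2 ≤ 1 / (2 * Y) * N := by
    rw [show 1 / (2 * Y) * (N : ℝ) = N / (2 * Y) by ring, le_div_iff₀ (by positivity), ← hYN]
    have h1 : Y ^ (E + 3) ≤ Y ^ KK := pow_le_pow_right₀ hY1 (by
      refine le_trans ?_ hEK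
      exact Nat.le_mul_of_pos_right _ (by positivity))
    refine le_trans ?_ h1
    have h2 : 1 ≤ Y ^ E := one_le_pow₀ hY1
    calc (2 * (M0 : ℝ) + 1 / 2) * (2 * Y) ≤ (Y ^ E + Y ^ E) * (2 * Y) := by
          apply mul_le_mul_of_nonneg_right (by linarith) (by positivity)
      _ = 2 * 2 * (Y ^ E * Y) := by ring
      _ ≤ Y * Y * (Y ^ E * Y) := by
          apply mul_le_mul_of_nonneg_right _ (by positivity)
          nlinarith
      _ = Y ^ (E + 3) := by rw [pow_add]; ring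
  have h13 : 12 * k / (M : ℝ) + 1 / M ≤ 13 * k / m := by
    rw [← add_div, div_le_div_iff₀ hM0 hm0]
    have : (12 * k + 1 : ℝ) ≤ 13 * k := by linarith
    calc (12 * k + 1 : ℝ) * m ≤ 13 * k * m := mul_le_mul_of_nonneg_right this hm0.le
      _ ≤ 13 * k * M := mul_le_mul_of_nonneg_left hMm (by positivity)
  have hfin : ∑ n ∈ Ico N (2 * N), f n * e n * P n ≤ ∑ n ∈ Ico N (2 * N), f n * ind w k n := by
    apply sum_le_sum
    intro n _
    rw [mul_assoc]
    exact mul_le_mul_of_nonneg_left (hind n) (hf0 n)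
  rw [hYinv]
  set S : ℝ := ∑ n ∈ Ico N (2 * N), f n with hS
  have hpow : (1 / 2 : ℝ) ^ k = (1 / 2) ^ (k - 1) * (1 / 2) := by
    rw [← pow_succ]
    congr 1
    omega
  have hp1 : (1 / 2 : ℝ) ^ (k - 1) ≤ 1 := pow_le_one₀ (by norm_num) (by norm_num)
  have hp0 : (0 : ℝ) ≤ (1 / 2 : ℝ) ^ (k - 1) := by positivity
  have step1 : (1 / 2 : ℝ) ^ k * S - 6 * k / m * N ≤ Pm * (1 / 2 * S) := by
    have h1 : (1 / 2 : ℝ) ^ (k - 1) * (1 - 6 * k / m) * (1 / 2 * S) ≤ Pm * (1 / 2 * S) :=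
      mul_le_mul_of_nonneg_right hbern (by positivity)
    have h2 : (1 / 2 : ℝ) ^ (k - 1) * (6 * k / m) * (1 / 2 * S) ≤ 1 * (6 * k / m) * N := by
      apply mul_le_mul
      · exact mul_le_mul_of_nonneg_right hp1 (by positivity)
      · linarith
      · positivity
      · positivity
    rw [hpow]
    linarith
  have step2 : Pm * (1 / 2 * S) ≤ Pm * ∑ n ∈ Ico N (2 * N), f n * e n + 1 / 2 + δ * N := by
    have h1 : Pm * (1 / 2 * S) ≤ Pm * (∑ n ∈ Ico N (2 * N), f n * e n + (1 / 2 + δ * N / 2)) :=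
      mul_le_mul_of_nonneg_left (by linarith) hPm0
    have h2 : 0 ≤ 1 / 2 + δ * N / 2 := by positivity
    have h3 : Pm * (1 / 2 + δ * N / 2) ≤ 1 / 2 + δ * N / 2 := mul_le_of_le_one_left h2 hPm1
    have h4 : 0 ≤ δ * N := by positivity
    rw [mul_add] at h1
    linarith
  have step3 : (6 * k / (m : ℝ) + (12 * k / M + 1 / M)) * N ≤ 1 / (2 * Y) * N := by
    apply mul_le_mul_of_nonneg_right _ hN0.le
    have : 19 * k / (m : ℝ) = 6 * k / m + 13 * k / m := by ring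
    linarith
  have h5 : 1 / Y = 1 / (2 * Y) + 1 / (2 * Y) := by
    field_simp
    norm_num
  have h6 : 0 ≤ δ * N := by positivity
  have e1 : (3 * δ + (1 / (2 * Y) + 1 / (2 * Y))) * (N : ℝ) =
      3 * (δ * N) + (1 / (2 * Y) * N + 1 / (2 * Y) * N) := by ring
  have e2 : (6 * k / (m : ℝ) + (12 * k / M + 1 / M)) * (N : ℝ) =
      6 * k / m * N + (12 * k / M + 1 / M) * N := by ring
  rw [e2] at step3
  rw [h5, e1]
  linarith

end Pool.Agent.Work.MP_215640_nt.Q
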