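import Pool.Agent.Work.MP_215640_nt.Q.PolyAvg
import Pool.Agent.Work.MP_215640_nt.Q.Tri

/-!
MODULE AVGQ. For a good starting point the weights average to one over the steps `q ≤ Q = M^(T^16)`.

`multi` with `s = Icc 1 d`, `S = Icc 1 Q`, `f r = tri (lam/M^(3r+3))` (`FT` with `A = M^(6T+6)`),
`y r q = q^r θ_r`, `L = M^(T^6)`, `ρ = M^(-T^6)`; the exponential sums are estimated by `weylM`.
-/

set_option autoImplicit false

namespace Pool.Agent.Work.MP_215640_nt.Q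

open Finset Polynomial

private theorem aq_exp1 {T : ℕ} (hT : 2 ≤ T) : 8 * T ^ 4 * (T ^ 6 + 1) ≤ T ^ 14 - T ^ 6 := by
  have h1 : 16 ≤ T ^ 4 := by
    calc 16 = 2 ^ 4 := by norm_num
      _ ≤ T ^ 4 := Nat.pow_le_pow_left hT 4
  have h2 : 64 ≤ T ^ 6 := by
    calc 64 = 2 ^ 6 := by norm_num
      _ ≤ T ^ 6 := Nat.pow_le_pow_left hT 6
  have h3 : T ^ 14 = T ^ 4 * T ^ 4 * T ^ 6 := by ring
  have h4 : 8 * T ^ 4 * (T ^ 6 + 1) + T ^ 6 ≤ T ^ 14 := by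
    rw [h3]
    generalize T ^ 4 = x at *
    generalize T ^ 6 = y at *
    have h5 : x * 16 * y ≤ x * x * y := by
      apply Nat.mul_le_mul_right
      exact Nat.mul_le_mul_left _ h1
    nlinarith
  omega

private theorem aq_exp2 {T : ℕ} (hT : 2 ≤ T) : T ^ 15 + (T ^ 14 - T ^ 6) ≤ T ^ 16 := by
  have h1 : T ^ 16 = T ^ 15 * T := pow_succ _ _
  have h2 : T ^ 14 ≤ T ^ 15 := Nat.pow_le_pow_right (by omega) (by norm_num)
  have h3 : T ^ 15 * 2 ≤ T ^ 15 * T := Nat.mul_le_mul_left _ hT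
  omega

private theorem aq_exp3 {T : ℕ} (hT : 2 ≤ T) : (6 * T + 6) * T + 4 ≤ T ^ 6 := by
  have h1 : 16 ≤ T ^ 4 := by
    calc 16 = 2 ^ 4 := by norm_num
      _ ≤ T ^ 4 := Nat.pow_le_pow_left hT 4
  have h2 : T ^ 6 = T ^ 4 * (T * T) := by ring
  have h3 : 16 * (T * T) ≤ T ^ 4 * (T * T) := Nat.mul_le_mul_right _ h1
  rw [h2]
  nlinarith

/-- exponential sums for one frequency vector -/
private theorem aq_sum {c : ℕ} (hc : ∀ T : ℕ, 2 ≤ T → ∀ M : ℕ, 2 ^ T ^ c ≤ M → ∀ d : ℕ, 1 ≤ d →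
    d ≤ T → ∀ P : ℝ[X], P.natDegree ≤ d → ∀ b g e V : ℕ, 8 * T ^ 4 * (b + 1) ≤ g →
    Gen (M ^ g) (1 / (M : ℝ) ^ e) (P.coeff d) → M ^ (e + g) ≤ V →
    ‖∑ v ∈ range V, ee (P.eval (v : ℝ))‖ ≤ V / (M : ℝ) ^ b ∧
    ‖∑ v ∈ Icc 1 V, ee (P.eval (v : ℝ))‖ ≤ V / (M : ℝ) ^ b)
    {T : ℕ} (hT : 2 ≤ T) {M : ℕ} (hM : 2 ^ T ^ c ≤ M) {d : ℕ} (hdT : d ≤ T)
    {θ : ℕ → ℝ} (hθ : ∀ r, 1 ≤ r → r ≤ d → Gen (M ^ T ^ 14) (1 / (M : ℝ) ^ T ^ 15) (θ r))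
    (l : ℕ → ℤ) (hl : ∀ i ∈ Icc 1 d, |l i| ≤ ((M ^ T ^ 6 : ℕ) : ℤ))
    (hl0 : ∃ i ∈ Icc 1 d, l i ≠ 0) :
    ‖∑ q ∈ Icc 1 (M ^ T ^ 16), ee (∑ i ∈ Icc 1 d, l i * ((q : ℝ) ^ i * θ i))‖ ≤
      1 / (M : ℝ) ^ T ^ 6 * (Icc 1 (M ^ T ^ 16)).card := by
  classical
  have hMpos : 1 ≤ M := le_trans (Nat.one_le_pow _ _ (by norm_num)) hM
  -- the largest index
  obtain ⟨r0, hr0, hmax⟩ : ∃ r0, (r0 ∈ Icc 1 d ∧ l r0 ≠ 0) ∧ ∀ i ∈ Icc 1 d, r0 < i → l i = 0 := by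
    set s := (Icc 1 d).filter (fun i => l i ≠ 0) with hs
    have hne : s.Nonempty := by
      obtain ⟨i, hi, hi0⟩ := hl0
      exact ⟨i, mem_filter.2 ⟨hi, hi0⟩⟩
    refine ⟨s.max' hne, mem_filter.1 (s.max'_mem hne), ?_⟩
    intro i hi hlt
    by_contra hcon
    exact absurd (s.le_max' i (mem_filter.2 ⟨hi, hcon⟩)) (by omega)
  obtain ⟨hr0d, hr0l⟩ := hr0
  rw [mem_Icc] at hr0d
  set P : ℝ[X] := ∑ i ∈ Icc 1 r0, monomial i (l i * θ i) with hP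
  have hdeg : P.natDegree ≤ r0 := by
    apply natDegree_sum_le_of_forall_le
    intro i hi
    rw [mem_Icc] at hi
    exact (natDegree_monomial_le _).trans hi.2
  have hcoeff : P.coeff r0 = l r0 * θ r0 := by
    rw [hP, finset_sum_coeff, Finset.sum_eq_single r0]
    · rw [coeff_monomial, if_pos rfl]
    · intro i _ hi
      rw [coeff_monomial, if_neg hi]
    · intro h
      exact absurd (mem_Icc.2 ⟨hr0d.1, le_rfl⟩) h
  have heval : ∀ q : ℕ, P.eval (q : ℝ) = ∑ i ∈ Icc 1 d, l i * ((q : ℝ) ^ i * θ i) := by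
    intro q
    rw [hP, eval_finset_sum]
    have h1 : ∀ i ∈ Icc 1 r0, (monomial i (l i * θ i : ℝ)).eval (q : ℝ) =
        l i * ((q : ℝ) ^ i * θ i) := by
      intro i _
      rw [eval_monomial]
      ring
    rw [Finset.sum_congr rfl h1]
    apply Finset.sum_subset
    · intro i hi
      rw [mem_Icc] at hi ⊢
      omega
    · intro i hi hi'
      have h2 : r0 < i := by
        rw [mem_Icc] at hi hi'
        omega
      rw [hmax i hi h2]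
      simp
  have hlt : (l r0).natAbs ≤ M ^ T ^ 6 := by
    have h1 := hl r0 (mem_Icc.2 hr0d)
    have : (((l r0).natAbs : ℕ) : ℤ) ≤ ((M ^ T ^ 6 : ℕ) : ℤ) := by
      rw [Int.natCast_natAbs]
      exact h1
    exact_mod_cast this
  have h614 : T ^ 6 ≤ T ^ 14 := Nat.pow_le_pow_right (by omega) (by norm_num)
  have hgen : Gen (M ^ (T ^ 14 - T ^ 6)) (1 / (M : ℝ) ^ T ^ 15) (P.coeff r0) := by
    rw [hcoeff]
    apply Gen.int_mul (l r0) hr0l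
    apply (hθ r0 hr0d.1 hr0d.2).mono _ le_rfl
    calc M ^ (T ^ 14 - T ^ 6) * (l r0).natAbs ≤ M ^ (T ^ 14 - T ^ 6) * M ^ T ^ 6 :=
          Nat.mul_le_mul_left _ hlt
      _ = M ^ T ^ 14 := by
          rw [← pow_add]
          congr 1
          omega
  have h1 := (hc T hT M hM r0 hr0d.1 (hr0d.2.trans hdT) P hdeg (T ^ 6) (T ^ 14 - T ^ 6) (T ^ 15)
    (M ^ T ^ 16) (aq_exp1 hT) hgen (Nat.pow_le_pow_right hMpos (aq_exp2 hT))).2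
  simp only [heval] at h1
  rw [Nat.card_Icc, Nat.add_sub_cancel]
  calc _ ≤ ((M ^ T ^ 16 : ℕ) : ℝ) / (M : ℝ) ^ T ^ 6 := h1
    _ = _ := by ring

theorem avg_q : ∃ c : ℕ, ∀ T : ℕ, 2 ≤ T → ∀ M : ℕ, 2 ^ T ^ c ≤ M → ∀ d : ℕ, 1 ≤ d → d ≤ T →
    ∀ lam : ℝ, 1 ≤ lam → lam ≤ 4 → ∀ θ : ℕ → ℝ,
    (∀ r, 1 ≤ r → r ≤ d → Gen (M ^ T ^ 14) (1 / (M : ℝ) ^ T ^ 15) (θ r)) →
    |(1 / (M : ℝ) ^ T ^ 16) * ∑ q ∈ Icc 1 (M ^ T ^ 16),
        ∏ r ∈ Icc 1 d, tri (lam / (M : ℝ) ^ (3 * r + 3)) ((q : ℝ) ^ r * θ r) - 1| ≤ 1 / (M : ℝ) ^ 2 := by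
  obtain ⟨c, hc⟩ := weylM
  refine ⟨c + 3, ?_⟩
  intro T hT M hM d hd hdT lam hlam1 hlam4 θ hθ
  have hM1 : 2 ^ T ^ c ≤ M := by
    refine le_trans ?_ hM
    apply Nat.pow_le_pow_right (by norm_num)
    exact Nat.pow_le_pow_right (by omega) (by omega)
  have hM3 : 2 ^ T ^ 3 ≤ M := by
    refine le_trans ?_ hM
    apply Nat.pow_le_pow_right (by norm_num)
    exact Nat.pow_le_pow_right (by omega) (by omega)
  have hMpos : 1 ≤ M := le_trans (Nat.one_le_pow _ _ (by norm_num)) hM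
  have hM0 : (0 : ℝ) < M := by exact_mod_cast hMpos
  have hM1' : (1 : ℝ) ≤ M := by exact_mod_cast hMpos
  have hM256 : (256 : ℝ) ≤ M := by
    have h1 : 8 ≤ T ^ 3 := by
      calc 8 = 2 ^ 3 := by norm_num
        _ ≤ T ^ 3 := Nat.pow_le_pow_left hT 3
    have h2 : 256 ≤ M := by
      calc 256 = 2 ^ 8 := by norm_num
        _ ≤ 2 ^ T ^ 3 := Nat.pow_le_pow_right (by norm_num) h1
        _ ≤ M := hM3
    exact_mod_cast h2
  have h5T : (5 : ℝ) ^ T * (1 + T) ≤ (M : ℝ) ^ 2 := by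
    have h1 : 5 ^ T ≤ M := by
      calc 5 ^ T ≤ 8 ^ T := Nat.pow_le_pow_left (by norm_num) T
        _ = 2 ^ (3 * T) := by rw [pow_mul]; norm_num
        _ ≤ 2 ^ T ^ 3 := by
            apply Nat.pow_le_pow_right (by norm_num)
            have : 4 ≤ T * T := by nlinarith
            calc 3 * T ≤ (T * T) * T := Nat.mul_le_mul_right _ (by omega)
              _ = T ^ 3 := by ring
        _ ≤ M := hM3
    have h2 : 1 + T ≤ M := by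
      calc 1 + T ≤ 2 ^ T := by
            have := Nat.lt_two_pow_self (n := T)
            omega
        _ ≤ 2 ^ T ^ 3 := by
            apply Nat.pow_le_pow_right (by norm_num)
            exact Nat.le_self_pow (by norm_num) T
        _ ≤ M := hM3
    have h3 : 5 ^ T * (1 + T) ≤ M * M := Nat.mul_le_mul h1 h2
    have h4 : ((5 ^ T * (1 + T) : ℕ) : ℝ) ≤ ((M * M : ℕ) : ℝ) := by exact_mod_cast h3
    push_cast at h4
    rw [sq]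
    exact h4
  -- the functions
  set τ : ℕ → ℝ := fun r => lam / (M : ℝ) ^ (3 * r + 3) with hτ
  have hτ0 : ∀ r, 0 < τ r := fun r => by
    simp only [hτ]
    have : 0 < lam := by linarith
    positivity
  have hτh : ∀ r, τ r ≤ 1 / 2 := by
    intro r
    simp only [hτ]
    rw [div_le_iff₀ (by positivity)]
    have h1 : (M : ℝ) ^ 1 ≤ (M : ℝ) ^ (3 * r + 3) := pow_le_pow_right₀ hM1' (by omega)
    rw [pow_one] at h1
    linarith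
  have hFT : ∀ r ∈ Icc 1 d, FT (tri (τ r)) 1 ((M : ℝ) ^ (6 * T + 6)) := by
    intro r hr
    rw [mem_Icc] at hr
    apply (tri_FT (hτ0 r) (hτh r)).mono
    simp only [hτ]
    rw [div_pow, one_div, inv_div]
    have h1 : (M : ℝ) ^ (3 * r + 3) ≤ (M : ℝ) ^ (3 * T + 3) :=
      pow_le_pow_right₀ hM1' (by omega)
    have h2 : 1 ≤ lam ^ 2 := one_le_pow₀ hlam1
    have h3 : ((M : ℝ) ^ (3 * r + 3)) ^ 2 ≤ (M : ℝ) ^ (6 * T + 6) := by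
      calc ((M : ℝ) ^ (3 * r + 3)) ^ 2 ≤ ((M : ℝ) ^ (3 * T + 3)) ^ 2 :=
            pow_le_pow_left₀ (by positivity) h1 2
        _ = (M : ℝ) ^ (6 * T + 6) := by
            rw [← pow_mul]
            congr 1
            ring
    calc ((M : ℝ) ^ (3 * r + 3)) ^ 2 / lam ^ 2 ≤ ((M : ℝ) ^ (3 * r + 3)) ^ 2 :=
          div_le_self (by positivity) h2
      _ ≤ _ := h3
  have h1 := multi (Icc 1 d) (Icc 1 (M ^ T ^ 16)) (fun r => tri (τ r)) (fun _ => 1)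
    ((M : ℝ) ^ (6 * T + 6)) hFT (fun r (q : ℕ) => (q : ℝ) ^ r * θ r) (M ^ T ^ 6)
    (Nat.one_le_pow _ _ hMpos) (1 / (M : ℝ) ^ T ^ 6) (by positivity)
    (fun l hl hl0 => aq_sum hc hT hM1 hdT hθ l hl hl0)
  simp only [Finset.prod_const_one, one_mul] at h1
  rw [Nat.card_Icc, Nat.add_sub_cancel, Nat.card_Icc, Nat.add_sub_cancel] at h1
  set Q : ℝ := (M : ℝ) ^ T ^ 16 with hQ
  have hQ0 : 0 < Q := by rw [hQ]; positivity
  have hQc : ((M ^ T ^ 16 : ℕ) : ℝ) = Q := by rw [hQ]; push_cast; rfl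
  rw [hQc] at h1
  have h2 : (1 / Q) * ∑ q ∈ Icc 1 (M ^ T ^ 16), ∏ r ∈ Icc 1 d, tri (τ r) ((q : ℝ) ^ r * θ r) - 1 =
      (∑ q ∈ Icc 1 (M ^ T ^ 16), ∏ r ∈ Icc 1 d, tri (τ r) ((q : ℝ) ^ r * θ r) - Q) / Q := by
    field_simp
  show |(1 / Q) * ∑ q ∈ Icc 1 (M ^ T ^ 16), ∏ r ∈ Icc 1 d, tri (τ r) ((q : ℝ) ^ r * θ r) - 1| ≤ _
  rw [h2, abs_div, abs_of_pos hQ0, div_le_iff₀ hQ0]
  refine h1.trans ?_
  apply mul_le_mul_of_nonneg_right _ hQ0.le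
  -- numerical estimate
  have e1 : (1 : ℝ) / (M : ℝ) ^ T ^ 6 + (d : ℝ) / ((M ^ T ^ 6 : ℕ) : ℝ) ≤
      (1 + T) / (M : ℝ) ^ T ^ 6 := by
    push_cast
    rw [← add_div]
    apply div_le_div_of_nonneg_right _ (by positivity)
    have : (d : ℝ) ≤ T := by exact_mod_cast hdT
    linarith
  have e2 : (5 * (M : ℝ) ^ (6 * T + 6)) ^ d ≤ 5 ^ T * (M : ℝ) ^ ((6 * T + 6) * T) := by
    have h3 : (1 : ℝ) ≤ 5 * (M : ℝ) ^ (6 * T + 6) := by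
      have : (1 : ℝ) ≤ (M : ℝ) ^ (6 * T + 6) := one_le_pow₀ hM1'
      linarith
    calc (5 * (M : ℝ) ^ (6 * T + 6)) ^ d ≤ (5 * (M : ℝ) ^ (6 * T + 6)) ^ T :=
          pow_le_pow_right₀ h3 hdT
      _ = 5 ^ T * (M : ℝ) ^ ((6 * T + 6) * T) := by rw [mul_pow, ← pow_mul]
  have e3 : (M : ℝ) ^ ((6 * T + 6) * T) * (M : ℝ) ^ 4 ≤ (M : ℝ) ^ T ^ 6 := by
    rw [← pow_add]
    exact pow_le_pow_right₀ hM1' (aq_exp3 hT)
  calc (5 * (M : ℝ) ^ (6 * T + 6)) ^ d *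
        (1 / (M : ℝ) ^ T ^ 6 + (d : ℝ) / ((M ^ T ^ 6 : ℕ) : ℝ))
      ≤ (5 ^ T * (M : ℝ) ^ ((6 * T + 6) * T)) * ((1 + T) / (M : ℝ) ^ T ^ 6) := by
        apply mul_le_mul e2 e1 _ (by positivity)
        push_cast
        positivity
    _ = (5 ^ T * (1 + T)) * ((M : ℝ) ^ ((6 * T + 6) * T) / (M : ℝ) ^ T ^ 6) := by ring
    _ ≤ (M : ℝ) ^ 2 * ((M : ℝ) ^ ((6 * T + 6) * T) / (M : ℝ) ^ T ^ 6) :=
        mul_le_mul_of_nonneg_right h5T (by positivity)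
    _ ≤ 1 / (M : ℝ) ^ 2 := by
        rw [mul_div_assoc', div_le_div_iff₀ (by positivity) (by positivity)]
        calc (M : ℝ) ^ 2 * (M : ℝ) ^ ((6 * T + 6) * T) * (M : ℝ) ^ 2
            = (M : ℝ) ^ ((6 * T + 6) * T) * (M : ℝ) ^ 4 := by ring
          _ ≤ (M : ℝ) ^ T ^ 6 := e3
          _ = 1 * (M : ℝ) ^ T ^ 6 := (one_mul _).symm

end Pool.Agent.Work.MP_215640_nt.Q
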