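import Pool.Agent.Work.MP_215640_nt.Q.PolyAvg
import Pool.Agent.Work.MP_215640_nt.Q.Tri

/-!
MODULE BADCOUNT. Few starting points have a non generic Taylor coefficient.

`r = d`: `tcf P u d = P.coeff d`, generic by the first half of `G2`. `1 ≤ r < d`: if `tcf P u r` is not generic there
is `1 ≤ b ≤ M^(T^14)` with `dI (b tcf P u r) < η = M^(-T^15)`; by `one_le_tri` the number of such `u < V` is at most
`4 η ∑_u tri (2η) (b tcf P u r)`. By `comb_poly` (`l = Pi.single r b`) `b tcf P u r = R.eval u`, degree `≤ d - r`, top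
coefficient `b (d choose r) P_d`, generic with `B = M^(T^24 - T^14 - T)`, `η' = M^(-T^25)` (second half of `G2`,
`b (d choose r) ≤ M^(T^14) 2^T ≤ M^(T^14+T)`). `poly_avg` with `a = 2 T^15`, `g = T^24 - T^14 - T`, `e = T^25`,
`V = M^(T^27)`: the sum is at most `V + V/M^2 ≤ 2V`. Total `≤ T M^(T^14) 8 M^(-T^15) V ≤ V / M^(2 T^4)`.
(`8 T^4 (2T^15+5) + 2T^15+4 ≤ T^24 - T^14 - T` and `T^25 + T^24 ≤ T^27` for `T ≥ 2`.)
-/

set_option autoImplicit false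

namespace Pool.Agent.Work.MP_215640_nt.Q

open Finset Polynomial

private theorem pow_ge' {T : ℕ} (hT : 2 ≤ T) (a b : ℕ) : 2 ^ a * T ^ b ≤ T ^ (a + b) := by
  rw [pow_add]
  exact Nat.mul_le_mul_right _ (Nat.pow_le_pow_left hT a)

private theorem num1 {T : ℕ} (hT : 2 ≤ T) :
    8 * T ^ 4 * (2 * T ^ 15 + 5) + 2 * T ^ 15 + 4 + (T ^ 14 + T) ≤ T ^ 24 := by
  have F1 := pow_ge' hT 5 19
  have F2 := pow_ge' hT 15 4
  have F3 := pow_ge' hT 4 15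
  have F4 := pow_ge' hT 5 14
  have F5 := pow_ge' hT 18 1
  have F6 := pow_ge' hT 19 0
  norm_num at F1 F2 F3 F4 F5 F6
  have e : 8 * T ^ 4 * (2 * T ^ 15 + 5) = 16 * T ^ 19 + 40 * T ^ 4 := by ring
  rw [e]
  omega

private theorem num2 {T : ℕ} (hT : 2 ≤ T) : T ^ 25 + T ^ 24 ≤ T ^ 27 := by
  have F1 := pow_ge' hT 2 25
  have F2 := pow_ge' hT 3 24
  norm_num at F1 F2
  omega

private theorem num3 {T : ℕ} (hT : 2 ≤ T) : 1 + T ^ 14 + 2 * T ^ 4 ≤ T ^ 15 := by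
  have F1 := pow_ge' hT 1 14
  have F2 := pow_ge' hT 10 4
  have F3 := pow_ge' hT 14 0
  norm_num at F1 F2 F3
  omega

private theorem eight_mul_le {T M c : ℕ} (hT : 2 ≤ T) (hM : 2 ^ T ^ (c + 3) ≤ M) : 8 * T ≤ M := by
  have h1 : T + 3 ≤ T ^ 3 := by
    have := pow_ge' hT 2 1
    norm_num at this
    omega
  have h2 : T ^ 3 ≤ T ^ (c + 3) := Nat.pow_le_pow_right (by omega) (by omega)
  calc 8 * T ≤ 8 * 2 ^ T := Nat.mul_le_mul_left _ Nat.lt_two_pow_self.le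
    _ = 2 ^ (T + 3) := by rw [pow_add]; ring
    _ ≤ 2 ^ T ^ (c + 3) := Nat.pow_le_pow_right (by norm_num) (h1.trans h2)
    _ ≤ M := hM

/-- the sum over the starting points for one pair `(r, b)` -/
private theorem key_sum {c0 : ℕ} (hc0 : ∀ T : ℕ, 2 ≤ T → ∀ M : ℕ, 2 ^ T ^ c0 ≤ M → ∀ d : ℕ, 1 ≤ d → d ≤ T →
    ∀ P : ℝ[X], P.natDegree ≤ d → ∀ a g e V : ℕ, 8 * T ^ 4 * (a + 5) + a + 4 ≤ g →
    Gen (M ^ g) (1 / (M : ℝ) ^ e) (P.coeff d) → M ^ (e + g) ≤ V →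
    ∀ (f : ℝ → ℝ) (μ A : ℝ), FT f μ A → A ≤ (M : ℝ) ^ a →
    |∑ u ∈ range V, f (P.eval (u : ℝ)) - μ * V| ≤ V / (M : ℝ) ^ 2)
    {T : ℕ} (hT : 2 ≤ T) {M : ℕ} (hM0 : 2 ^ T ^ c0 ≤ M) (hM2 : 4 ≤ M) {d : ℕ} (hdT : d ≤ T)
    {P : ℝ[X]} (hP : P.natDegree ≤ d) (hG : Gen (M ^ T ^ 24) (1 / (M : ℝ) ^ T ^ 25) (P.coeff d))
    {r b : ℕ} (hr : r < d) (hb1 : 1 ≤ b) (hb2 : b ≤ M ^ T ^ 14) :
    ∑ u ∈ range (M ^ T ^ 27), tri (2 * (1 / (M : ℝ) ^ T ^ 15)) ((b : ℝ) * tcf P u r) ≤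
      2 * (M : ℝ) ^ T ^ 27 := by
  have hMR : (4 : ℝ) ≤ (M : ℝ) := by exact_mod_cast hM2
  have hX : (4 : ℝ) ≤ (M : ℝ) ^ T ^ 15 :=
    hMR.trans (le_self_pow₀ (by linarith) (by positivity))
  have hXpos : (0 : ℝ) < (M : ℝ) ^ T ^ 15 := by linarith
  obtain ⟨R, hR1, hR2, hR3⟩ := comb_poly P d hP (fun s => if s = r then (b : ℝ) else 0) r hr.le
  have hτ : (0 : ℝ) < 2 * (1 / (M : ℝ) ^ T ^ 15) := by positivity
  have hτ2 : 2 * (1 / (M : ℝ) ^ T ^ 15) ≤ 1 / 2 := by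
    rw [mul_one_div, div_le_div_iff₀ hXpos (by norm_num)]
    linarith
  have hA : 1 / (2 * (1 / (M : ℝ) ^ T ^ 15)) ^ 2 ≤ (M : ℝ) ^ (2 * T ^ 15) := by
    have e : 1 / (2 * (1 / (M : ℝ) ^ T ^ 15)) ^ 2 = ((M : ℝ) ^ T ^ 15) ^ 2 / 4 := by
      field_simp
      norm_num
    rw [e, mul_comm 2 (T ^ 15), pow_mul]
    have : (0 : ℝ) ≤ ((M : ℝ) ^ T ^ 15) ^ 2 := by positivity
    linarith
  have hgen : Gen (M ^ (T ^ 24 - (T ^ 14 + T))) (1 / (M : ℝ) ^ T ^ 25) (R.coeff (d - r)) := by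
    rw [hR2, if_pos rfl]
    have hn : ((b * d.choose r : ℕ) : ℤ) ≠ 0 := by
      have h1 : 0 < d.choose r := Nat.choose_pos hr.le
      have : 0 < b * d.choose r := Nat.mul_pos hb1 h1
      exact_mod_cast this.ne'
    have h1 := Gen.int_mul (B := M ^ (T ^ 24 - (T ^ 14 + T))) (η := 1 / (M : ℝ) ^ T ^ 25)
      (t := P.coeff d) _ hn (by
        refine hG.mono ?_ le_rfl
        rw [Int.natAbs_natCast]
        have h2 : d.choose r ≤ M ^ T := by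
          calc d.choose r ≤ 2 ^ d := Nat.choose_le_two_pow d r
            _ ≤ 2 ^ T := Nat.pow_le_pow_right (by norm_num) hdT
            _ ≤ M ^ T := Nat.pow_le_pow_left (by omega) T
        calc M ^ (T ^ 24 - (T ^ 14 + T)) * (b * d.choose r)
            ≤ M ^ (T ^ 24 - (T ^ 14 + T)) * (M ^ T ^ 14 * M ^ T) :=
              Nat.mul_le_mul_left _ (Nat.mul_le_mul hb2 h2)
          _ = M ^ T ^ 24 := by
              rw [← pow_add, ← pow_add]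
              congr 1
              have := num1 hT
              omega)
    have e : (b : ℝ) * (d.choose r : ℝ) * P.coeff d =
        (((b * d.choose r : ℕ) : ℤ) : ℝ) * P.coeff d := by push_cast; ring
    rw [e]
    exact h1
  have h2 := hc0 T hT M hM0 (d - r) (by omega) (by omega) R hR1 (2 * T ^ 15)
    (T ^ 24 - (T ^ 14 + T)) (T ^ 25) (M ^ T ^ 27) (by have := num1 hT; omega) hgen
    (Nat.pow_le_pow_right (by omega) (by have := num2 hT; omega))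
    (tri (2 * (1 / (M : ℝ) ^ T ^ 15))) 1 _ (tri_FT hτ hτ2) hA
  have h3 : ∀ u : ℕ, R.eval (u : ℝ) = (b : ℝ) * tcf P u r := by
    intro u
    rw [hR3]
    rw [Finset.sum_eq_single r]
    · rw [if_pos rfl]
    · intro s _ hs
      rw [if_neg hs, zero_mul]
    · intro hh
      exact absurd (Finset.mem_Icc.2 ⟨le_rfl, hr.le⟩) hh
  have h4 : ∑ u ∈ range (M ^ T ^ 27), tri (2 * (1 / (M : ℝ) ^ T ^ 15)) ((b : ℝ) * tcf P u r) =
      ∑ u ∈ range (M ^ T ^ 27), tri (2 * (1 / (M : ℝ) ^ T ^ 15)) (R.eval (u : ℝ)) := by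
    refine Finset.sum_congr rfl fun u _ => ?_
    rw [h3 u]
  rw [h4]
  have h5 := (abs_le.1 h2).2
  push_cast at h5
  have h6 : (M : ℝ) ^ T ^ 27 / (M : ℝ) ^ 2 ≤ (M : ℝ) ^ T ^ 27 := by
    apply div_le_self (by positivity)
    exact one_le_pow₀ (by linarith)
  linarith

open Classical in
theorem bad_count : ∃ c : ℕ, ∀ T : ℕ, 2 ≤ T → ∀ M : ℕ, 2 ^ T ^ c ≤ M → ∀ d : ℕ, 1 ≤ d → d ≤ T →
    ∀ P : ℝ[X], P.natDegree ≤ d → G2 T M 1 (P.coeff d) →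
    ((((range (M ^ T ^ 27)).filter (fun u => ¬ ∀ r, 1 ≤ r → r ≤ d →
        Gen (M ^ T ^ 14) (1 / (M : ℝ) ^ T ^ 15) (tcf P u r))).card : ℕ) : ℝ) ≤
      (M : ℝ) ^ T ^ 27 / (M : ℝ) ^ (2 * T ^ 4) := by
  obtain ⟨c0, hc0⟩ := poly_avg
  refine ⟨c0 + 3, ?_⟩
  intro T hT M hM d hd1 hdT P hP hG
  obtain ⟨hG1, hG2⟩ := hG
  have hM8 : 8 * T ≤ M := eight_mul_le hT hM
  have hM0 : 2 ^ T ^ c0 ≤ M :=
    le_trans (Nat.pow_le_pow_right (by norm_num) (Nat.pow_le_pow_right (by omega) (by omega))) hM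
  have hMR : (16 : ℝ) ≤ (M : ℝ) := by
    have : 16 ≤ M := by omega
    exact_mod_cast this
  have hXpos : (0 : ℝ) < (M : ℝ) ^ T ^ 15 := by positivity
  have hη : (0 : ℝ) < 1 / (M : ℝ) ^ T ^ 15 := by positivity
  -- pointwise bound
  have hpt : ∀ u ∈ (range (M ^ T ^ 27)).filter (fun u => ¬ ∀ r, 1 ≤ r → r ≤ d →
        Gen (M ^ T ^ 14) (1 / (M : ℝ) ^ T ^ 15) (tcf P u r)),
      (1 : ℝ) ≤ ∑ r ∈ Icc 1 (d - 1), ∑ b ∈ Icc 1 (M ^ T ^ 14),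
        4 * (1 / (M : ℝ) ^ T ^ 15) * tri (2 * (1 / (M : ℝ) ^ T ^ 15)) ((b : ℝ) * tcf P u r) := by
    intro u hu
    rw [Finset.mem_filter] at hu
    obtain ⟨-, hu⟩ := hu
    push Not at hu
    obtain ⟨r, hr1, hr2, hr3⟩ := hu
    rw [Gen] at hr3
    push Not at hr3
    obtain ⟨b, hb1, hb2, hb3⟩ := hr3
    have hrd : r ≠ d := by
      rintro rfl
      rw [tcf_top P r hP u] at hb3
      exact absurd (hG1 b hb1 hb2) (not_le.2 hb3)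
    have nn : ∀ r' b' : ℕ, 0 ≤ 4 * (1 / (M : ℝ) ^ T ^ 15) *
        tri (2 * (1 / (M : ℝ) ^ T ^ 15)) ((b' : ℝ) * tcf P u r') := by
      intro r' b'
      exact mul_nonneg (by positivity) (tri_nonneg (by positivity) _)
    calc (1 : ℝ) ≤ 4 * (1 / (M : ℝ) ^ T ^ 15) *
          tri (2 * (1 / (M : ℝ) ^ T ^ 15)) ((b : ℝ) * tcf P u r) := one_le_tri hη hb3.le
      _ ≤ ∑ b ∈ Icc 1 (M ^ T ^ 14), 4 * (1 / (M : ℝ) ^ T ^ 15) *
          tri (2 * (1 / (M : ℝ) ^ T ^ 15)) ((b : ℝ) * tcf P u r) :=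
        Finset.single_le_sum (f := fun b' : ℕ => 4 * (1 / (M : ℝ) ^ T ^ 15) *
          tri (2 * (1 / (M : ℝ) ^ T ^ 15)) ((b' : ℝ) * tcf P u r)) (fun b' _ => nn r b')
          (Finset.mem_Icc.2 ⟨hb1, hb2⟩)
      _ ≤ _ := Finset.single_le_sum (f := fun r' : ℕ => ∑ b ∈ Icc 1 (M ^ T ^ 14),
          4 * (1 / (M : ℝ) ^ T ^ 15) *
          tri (2 * (1 / (M : ℝ) ^ T ^ 15)) ((b : ℝ) * tcf P u r'))
          (fun r' _ => Finset.sum_nonneg fun b' _ => nn r' b')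
          (Finset.mem_Icc.2 ⟨hr1, by omega⟩)
  have hcard : ((((range (M ^ T ^ 27)).filter (fun u => ¬ ∀ r, 1 ≤ r → r ≤ d →
        Gen (M ^ T ^ 14) (1 / (M : ℝ) ^ T ^ 15) (tcf P u r))).card : ℕ) : ℝ) ≤
      ∑ u ∈ range (M ^ T ^ 27), ∑ r ∈ Icc 1 (d - 1), ∑ b ∈ Icc 1 (M ^ T ^ 14),
        4 * (1 / (M : ℝ) ^ T ^ 15) *
          tri (2 * (1 / (M : ℝ) ^ T ^ 15)) ((b : ℝ) * tcf P u r) := by
    rw [Finset.card_eq_sum_ones, Nat.cast_sum]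
    refine (Finset.sum_le_sum fun u hu => ?_).trans
      (Finset.sum_le_sum_of_subset_of_nonneg (Finset.filter_subset _ _) ?_)
    · simpa using hpt u hu
    · intro u _ _
      exact Finset.sum_nonneg fun r _ => Finset.sum_nonneg fun b _ =>
        mul_nonneg (by positivity) (tri_nonneg (by positivity) _)
  refine hcard.trans ?_
  rw [Finset.sum_comm]
  have h1 : ∀ r ∈ Icc 1 (d - 1), ∑ u ∈ range (M ^ T ^ 27), ∑ b ∈ Icc 1 (M ^ T ^ 14),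
        4 * (1 / (M : ℝ) ^ T ^ 15) *
          tri (2 * (1 / (M : ℝ) ^ T ^ 15)) ((b : ℝ) * tcf P u r) ≤
      (M : ℝ) ^ T ^ 14 * (8 * (1 / (M : ℝ) ^ T ^ 15) * (M : ℝ) ^ T ^ 27) := by
    intro r hr
    rw [Finset.mem_Icc] at hr
    rw [Finset.sum_comm]
    have h2 : ∀ b ∈ Icc 1 (M ^ T ^ 14), ∑ u ∈ range (M ^ T ^ 27),
        4 * (1 / (M : ℝ) ^ T ^ 15) *
          tri (2 * (1 / (M : ℝ) ^ T ^ 15)) ((b : ℝ) * tcf P u r) ≤
        8 * (1 / (M : ℝ) ^ T ^ 15) * (M : ℝ) ^ T ^ 27 := by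
      intro b hb
      rw [Finset.mem_Icc] at hb
      rw [← Finset.mul_sum]
      have h3 := key_sum hc0 hT hM0 (by omega) hdT hP hG2 (r := r) (b := b) (by omega) hb.1 hb.2
      calc 4 * (1 / (M : ℝ) ^ T ^ 15) * ∑ u ∈ range (M ^ T ^ 27),
            tri (2 * (1 / (M : ℝ) ^ T ^ 15)) ((b : ℝ) * tcf P u r)
          ≤ 4 * (1 / (M : ℝ) ^ T ^ 15) * (2 * (M : ℝ) ^ T ^ 27) :=
            mul_le_mul_of_nonneg_left h3 (by positivity)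
        _ = _ := by ring
    refine (Finset.sum_le_sum h2).trans (le_of_eq ?_)
    rw [Finset.sum_const, Nat.card_Icc, nsmul_eq_mul]
    push_cast [Nat.add_sub_cancel]
    ring
  refine (Finset.sum_le_sum h1).trans ?_
  rw [Finset.sum_const, Nat.card_Icc, nsmul_eq_mul]
  have hd' : ((d - 1 + 1 - 1 : ℕ) : ℝ) ≤ T := by
    exact_mod_cast (show d - 1 + 1 - 1 ≤ T by omega)
  have h8 : (8 : ℝ) * T ≤ M := by exact_mod_cast hM8
  have h9 : (M : ℝ) * (M : ℝ) ^ T ^ 14 * (M : ℝ) ^ (2 * T ^ 4) ≤ (M : ℝ) ^ T ^ 15 := by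
    rw [← pow_succ', ← pow_add]
    exact pow_le_pow_right₀ (by linarith) (by have := num3 hT; omega)
  rw [le_div_iff₀ (by positivity)]
  calc ((d - 1 + 1 - 1 : ℕ) : ℝ) *
        ((M : ℝ) ^ T ^ 14 * (8 * (1 / (M : ℝ) ^ T ^ 15) * (M : ℝ) ^ T ^ 27)) *
        (M : ℝ) ^ (2 * T ^ 4)
      ≤ (T : ℝ) * ((M : ℝ) ^ T ^ 14 * (8 * (1 / (M : ℝ) ^ T ^ 15) * (M : ℝ) ^ T ^ 27)) *
        (M : ℝ) ^ (2 * T ^ 4) := by gcongr
    _ = ((8 * T) * (M : ℝ) ^ T ^ 14 * (M : ℝ) ^ (2 * T ^ 4)) * (1 / (M : ℝ) ^ T ^ 15) *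
        (M : ℝ) ^ T ^ 27 := by ring
    _ ≤ ((M : ℝ) * (M : ℝ) ^ T ^ 14 * (M : ℝ) ^ (2 * T ^ 4)) * (1 / (M : ℝ) ^ T ^ 15) *
        (M : ℝ) ^ T ^ 27 := by gcongr
    _ ≤ (M : ℝ) ^ T ^ 15 * (1 / (M : ℝ) ^ T ^ 15) * (M : ℝ) ^ T ^ 27 := by gcongr
    _ = (M : ℝ) ^ T ^ 27 := by rw [mul_one_div_cancel hXpos.ne', one_mul]

end Pool.Agent.Work.MP_215640_nt.Q
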