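import Pool.Agent.Work.MP_215640_nt.Q.Bsn

/-!
MODULE GQ. Degrees `dq`, fractional parts `gq`, and the shape of the model polynomials.

`cc w j = 3^a / 2^j` (`cc_eq`), so `2^j gq w j = 3^a - 2^j ⌊cc w j⌋` is an odd integer for `j ≥ 1`; hence
`2^(-j) ≤ gq ≤ 1 - 2^(-j)`, and for `i < j`: `2^j (gq w i - gq w j)` is an odd integer, so it is at least `1` in absolute value.
`cc w j ≤ (3/2)^j ≤ 2^j`. `dq w 0 = 1`, `gq w 0 = 0`.
Shape: induction on `j`; `dq w (j+1) ≥ 1` is needed for the coefficient `0` (it must not be the rounded one).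
-/

set_option autoImplicit false

namespace Pool.Agent.Work.MP_215640_nt.Q

open Finset Polynomial

theorem cc_le (w : ℕ → Bool) (j : ℕ) : cc w j ≤ 2 ^ j := by
  induction j with
  | zero => rw [cc_zero, pow_zero]
  | succ j ih =>
    rw [cc_succ, pow_succ]
    have h1 : ex (w j) ≤ 2 := by unfold ex; split_ifs <;> norm_num
    exact mul_le_mul ih h1 (ex_pos _).le (by positivity)

theorem dq_le (w : ℕ → Bool) (j : ℕ) : dq w j ≤ 2 ^ j := by
  have h1 : (dq w j : ℝ) ≤ cc w j := Nat.floor_le (cc_pos w j).le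
  have h2 := h1.trans (cc_le w j)
  exact_mod_cast h2

theorem dq_zero (w : ℕ → Bool) : dq w 0 = 1 := by
  unfold dq
  rw [cc_zero]
  exact Nat.floor_one

theorem cc_eq_add (w : ℕ → Bool) (j : ℕ) : cc w j = dq w j + gq w j := by
  unfold gq
  ring

theorem gq_odd (w : ℕ → Bool) {j : ℕ} (hj : 1 ≤ j) : ∃ o : ℤ, Odd o ∧ (2 : ℝ) ^ j * gq w j = o := by
  refine ⟨3 ^ ((range j).filter (fun i => w i = true)).card - 2 ^ j * dq w j, ?_, ?_⟩
  · apply Odd.sub_even
    · exact Odd.pow (by decide)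
    · have h1 : Even ((2 : ℤ) ^ j) := Even.pow_of_ne_zero even_two (by omega)
      exact h1.mul_right _
  · unfold gq
    rw [cc_eq]
    push_cast
    rw [mul_sub]
    congr 1
    field_simp

theorem gq_nonneg (w : ℕ → Bool) (j : ℕ) : 0 ≤ gq w j := by
  unfold gq
  have h1 : (dq w j : ℝ) ≤ cc w j := Nat.floor_le (cc_pos w j).le
  linarith

private theorem gq_lt_one (w : ℕ → Bool) (j : ℕ) : gq w j < 1 := by
  unfold gq
  have h1 : cc w j < dq w j + 1 := Nat.lt_floor_add_one _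
  linarith

theorem gq_lower (w : ℕ → Bool) {j : ℕ} (hj : 1 ≤ j) : 1 / 2 ^ j ≤ gq w j := by
  obtain ⟨o, ho, h⟩ := gq_odd w hj
  have h2 : (0 : ℝ) < 2 ^ j := by positivity
  have h1 : (0 : ℝ) ≤ o := by rw [← h]; exact mul_nonneg h2.le (gq_nonneg w j)
  have h3 : 0 ≤ o := by exact_mod_cast h1
  have h4 : o ≠ 0 := by rintro rfl; exact absurd ho (by decide)
  have h5 : 1 ≤ o := by omega
  have h6 : (1 : ℝ) ≤ o := by exact_mod_cast h5
  rw [div_le_iff₀ h2]
  linarith

theorem gq_upper (w : ℕ → Bool) {j : ℕ} (hj : 1 ≤ j) : gq w j ≤ 1 - 1 / 2 ^ j := by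
  obtain ⟨o, ho, h⟩ := gq_odd w hj
  have h2 : (0 : ℝ) < 2 ^ j := by positivity
  have h1 : (o : ℝ) < 2 ^ j := by
    rw [← h]
    have := mul_lt_mul_of_pos_left (gq_lt_one w j) h2
    linarith
  have h3 : o < 2 ^ j := by exact_mod_cast h1
  have h4 : o ≤ 2 ^ j - 1 := by omega
  have h5 : (o : ℝ) ≤ 2 ^ j - 1 := by exact_mod_cast h4
  have h6 : gq w j = (o : ℝ) / 2 ^ j := by rw [← h]; field_simp
  rw [h6, div_le_iff₀ h2, sub_mul, one_mul, div_mul_cancel₀ _ h2.ne']
  exact h5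

private theorem gq_sep_lt (w : ℕ → Bool) {i j : ℕ} (hi : 1 ≤ i) (hij : i < j) :
    1 / 2 ^ j ≤ |gq w i - gq w j| := by
  obtain ⟨o, ho, h⟩ := gq_odd w hi
  obtain ⟨o', ho', h'⟩ := gq_odd w (hi.trans hij.le)
  obtain ⟨e, rfl⟩ : ∃ e, j = i + (e + 1) := ⟨j - i - 1, by omega⟩
  have h2 : (0 : ℝ) < 2 ^ (i + (e + 1)) := by positivity
  have h3 : (2 : ℝ) ^ (i + (e + 1)) * (gq w i - gq w (i + (e + 1))) =
      ((2 ^ (e + 1) * o - o' : ℤ) : ℝ) := by
    push_cast
    rw [mul_sub, h', ← h, pow_add]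
    ring
  have h4 : Odd (2 ^ (e + 1) * o - o') := by
    have h5 : Even (2 ^ (e + 1) * o) := by
      have h1 : Even ((2 : ℤ) ^ (e + 1)) := Even.pow_of_ne_zero even_two (by omega)
      exact h1.mul_right _
    exact h5.sub_odd ho'
  have h6 : 1 ≤ |2 ^ (e + 1) * o - o'| := by
    have h7 : 2 ^ (e + 1) * o - o' ≠ 0 := by
      intro h0
      rw [h0] at h4
      exact absurd h4 (by decide)
    exact Int.one_le_abs h7
  have h8 : (1 : ℝ) ≤ |((2 ^ (e + 1) * o - o' : ℤ) : ℝ)| := by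
    rw [← Int.cast_abs]
    exact_mod_cast h6
  rw [← h3, abs_mul, abs_of_pos h2] at h8
  rw [div_le_iff₀ h2]
  linarith

theorem gq_sep (w : ℕ → Bool) {i j k : ℕ} (hi : 1 ≤ i) (hj : 1 ≤ j) (hij : i ≠ j) (hik : i ≤ k)
    (hjk : j ≤ k) : 1 / 2 ^ k ≤ |gq w i - gq w j| := by
  have hmono : ∀ l ≤ k, (1 : ℝ) / 2 ^ k ≤ 1 / 2 ^ l := fun l hl =>
    one_div_le_one_div_of_le (by positivity) (pow_le_pow_right₀ (by norm_num) hl)
  rcases lt_or_gt_of_ne hij with h | h
  · exact (hmono j hjk).trans (gq_sep_lt w hi h)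
  · rw [abs_sub_comm]
    exact (hmono i hik).trans (gq_sep_lt w hj h)

theorem dq_pos {w : ℕ → Bool} {k : ℕ} (hw : Pos w k) {j : ℕ} (hj : j < k) : 1 ≤ dq w j := by
  rcases Nat.eq_zero_or_pos j with rfl | h
  · rw [dq_zero]
  · have h1 := hw j h hj
    unfold dq
    rw [Nat.one_le_floor_iff]
    exact h1.le

/-- coefficients of the model polynomial -/
theorem al_coeff_lt (w : ℕ → Bool) (q : ℕ → ℕ) (x : ℝ) (j r : ℕ) (hr : r < dq w (j + 1)) :
    (al w q x (j + 1)).coeff r = (q (j + 1) : ℝ) ^ r * (bs w j (al w q x j)).coeff r := by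
  simp only [al]
  rw [coeff_add, finsetSum_coeff, coeff_monomial, if_neg (by omega), add_zero]
  simp only [coeff_monomial]
  rw [sum_ite_eq', if_pos (mem_range.2 hr)]

theorem al_coeff_top (w : ℕ → Bool) (q : ℕ → ℕ) (x : ℝ) (j : ℕ) :
    (al w q x (j + 1)).coeff (dq w (j + 1)) = x ^ (-gq w (j + 1)) * (2 * (ct w q x (j + 1) : ℝ)) := by
  simp only [al]
  rw [coeff_add, finsetSum_coeff, coeff_monomial, if_pos rfl]
  simp only [coeff_monomial]
  rw [sum_ite_eq', if_neg (by simp), zero_add]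
  rfl

private theorem al_coeff_gt (w : ℕ → Bool) (q : ℕ → ℕ) (x : ℝ) (j r : ℕ) (hr : dq w (j + 1) < r) :
    (al w q x (j + 1)).coeff r = 0 := by
  simp only [al]
  rw [coeff_add, finsetSum_coeff, coeff_monomial, if_neg (by omega), add_zero]
  simp only [coeff_monomial]
  rw [sum_ite_eq', if_neg (by simp; omega)]

private theorem dl_coeff (w : ℕ → Bool) (γ : ℝ) (j r : ℕ) :
    (dl w γ (j + 1)).coeff r = (dbs w j (sg w j) (dl w γ j)).coeff r ∨
      (r = dq w (j + 1) ∧ (dl w γ (j + 1)).coeff r = -gq w (j + 1) * (sg w (j + 1)).coeff r) ∨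
      (dq w (j + 1) < r ∧ (dl w γ (j + 1)).coeff r = 0) := by
  classical
  simp only [dl]
  split_ifs with h
  · rw [coeff_add, finsetSum_coeff, coeff_monomial]
    simp only [coeff_monomial]
    rw [sum_ite_eq']
    rcases lt_trichotomy r (dq w (j + 1)) with h1 | h1 | h1
    · left
      rw [if_pos (mem_range.2 h1), if_neg (by omega), add_zero]
    · right; left
      refine ⟨h1, ?_⟩
      rw [if_neg (by simp; omega), if_pos h1.symm, zero_add, h1]
    · right; right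
      refine ⟨h1, ?_⟩
      rw [if_neg (by simp; omega), if_neg (by omega), zero_add]
  · left
    rfl

theorem bs_coeff_zero' (w : ℕ → Bool) (q : ℕ → ℕ) (x : ℝ) {k : ℕ} (hw : Pos w k) {j : ℕ} (hj : j < k) :
    (al w q x j).coeff 0 = 1 ∧ (sg w j).coeff 0 = 1 ∧ ∀ γ, (dl w γ j).coeff 0 = 0 := by
  induction j with
  | zero => simp [al, sg, dl]
  | succ j ih =>
    obtain ⟨h1, h2, h3⟩ := ih (by omega)
    have h4 := dq_pos hw hj
    refine ⟨?_, ?_, fun γ => ?_⟩
    · rw [al_coeff_lt w q x j 0 (by omega), pow_zero, one_mul]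
      exact bs_coeff_zero w j _ h1
    · simp only [sg]
      exact bs_coeff_zero w j _ h2
    · rcases dl_coeff w γ j 0 with h | ⟨h, _⟩ | ⟨_, h⟩
      · rw [h]
        exact dbs_coeff_zero w j _ _ (h3 γ)
      · omega
      · exact h

theorem natDegree_models (w : ℕ → Bool) (q : ℕ → ℕ) (x γ : ℝ) (j : ℕ) :
    (al w q x j).natDegree ≤ dq w j ∧ (sg w j).natDegree ≤ dq w j ∧ (dl w γ j).natDegree ≤ dq w j := by
  cases j with
  | zero =>
    rw [dq_zero]
    refine ⟨?_, ?_, ?_⟩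
    · simp only [al]
      refine (natDegree_add_le _ _).trans (max_le (by simp) ?_)
      exact (natDegree_C_mul_le _ _).trans natDegree_X_le
    · simp only [sg]
      refine (natDegree_add_le _ _).trans (max_le (by simp) natDegree_X_le)
    · simp only [dl, natDegree_zero]
      exact Nat.zero_le _
  | succ j =>
    refine ⟨?_, ?_, ?_⟩
    · rw [natDegree_le_iff_coeff_eq_zero]
      exact fun r hr => al_coeff_gt w q x j r hr
    · simp only [sg]
      exact bs_natDegree w j _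
    · rw [natDegree_le_iff_coeff_eq_zero]
      intro r hr
      rcases dl_coeff w γ j r with h | ⟨h, _⟩ | ⟨_, h⟩
      · rw [h]
        exact coeff_eq_zero_of_natDegree_lt ((dbs_natDegree w j _ _).trans_lt hr)
      · omega
      · exact h

private theorem nm_sub_one_le (P : ℝ[X]) : nm (P - 1) ≤ nm P + 1 := by
  have := nm_sub_le P 1
  rwa [nm_one] at this

private theorem nm_dl_le (w : ℕ → Bool) (γ : ℝ) (j : ℕ) :
    nm (dl w γ (j + 1)) ≤ nm (dbs w j (sg w j) (dl w γ j)) + nm (sg w (j + 1)) := by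
  classical
  set Z := dbs w j (sg w j) (dl w γ j) with hZ
  simp only [dl]
  split_ifs with h
  · refine (nm_add_le _ _).trans (add_le_add ?_ ?_)
    · refine (nm_sum_le _ _).trans ?_
      simp only [nm_monomial]
      rw [nm_eq Z (dq w (j + 1)) (dbs_natDegree w j _ _)]
      exact sum_le_sum_of_subset_of_nonneg (range_subset_range.2 (Nat.le_succ _))
        fun _ _ _ => abs_nonneg _
    · rw [nm_monomial, abs_mul, abs_neg, abs_of_nonneg (gq_nonneg w (j + 1))]
      calc gq w (j + 1) * |(sg w (j + 1)).coeff (dq w (j + 1))|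
          ≤ 1 * |(sg w (j + 1)).coeff (dq w (j + 1))| :=
            mul_le_mul_of_nonneg_right (gq_lt_one w (j + 1)).le (abs_nonneg _)
        _ ≤ nm (sg w (j + 1)) := by rw [one_mul]; exact abs_coeff_le_nm _ _
  · have := nm_nonneg (sg w (j + 1))
    linarith

/-- size of the limits -/
theorem sg_bound : ∃ c : ℕ, ∀ k : ℕ, 1 ≤ k → ∀ w : ℕ → Bool, ∀ j < k,
    nm (sg w j) ≤ 2 ^ K2 c k ∧ ∀ γ : ℝ, nm (dl w γ j) ≤ 2 ^ K2 c k := by
  refine ⟨5, fun k hk w j hj => ?_⟩
  set T : ℕ := 2 ^ k with hT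
  have hT1 : 1 ≤ T := Nat.one_le_two_pow
  have hk4 : k + 4 ≤ 4 * T := by
    have := Nat.lt_two_pow_self (n := k)
    omega
  have hmain : ∀ j < k, nm (sg w j) + 1 ≤ 2 ^ (4 * (2 * T) ^ j) ∧
      ∀ γ : ℝ, nm (dl w γ j) ≤ 2 ^ (8 * (2 * T) ^ j) := by
    intro j
    induction j with
    | zero =>
      intro _
      refine ⟨?_, fun γ => ?_⟩
      · simp only [sg]
        have h1 := nm_add_le 1 (X : ℝ[X])
        have h2 : nm (X : ℝ[X]) = 1 := by
          rw [← monomial_one_one_eq_X, nm_monomial]; simp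
        rw [nm_one, h2] at h1
        norm_num
        linarith
      · simp only [dl]
        rw [nm_zero]
        positivity
    | succ j ih =>
      intro hj
      obtain ⟨h1, h2⟩ := ih (by omega)
      have hd : dq w (j + 1) ≤ T :=
        (dq_le w (j + 1)).trans (Nat.pow_le_pow_right (by norm_num) (by omega))
      have hdR : (dq w (j + 1) : ℝ) ≤ T := by exact_mod_cast hd
      set R : ℝ := 2 ^ (4 * (2 * T) ^ j) with hR
      have hR1 : 1 ≤ R := one_le_pow₀ (by norm_num)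
      have hRP : nm (sg w j - 1) ≤ R := (nm_sub_one_le _).trans h1
      have hRT : R ^ dq w (j + 1) ≤ R ^ T := pow_le_pow_right₀ hR1 hd
      have hRTe : R ^ T = 2 ^ (4 * (2 * T) ^ j * T) := by rw [hR, ← pow_mul]
      have hT2 : (T : ℝ) = 2 ^ k := by rw [hT]; push_cast; rfl
      have hTR : (1 : ℝ) ≤ T := by exact_mod_cast hT1
      have hpow1 : 1 ≤ (2 * T) ^ j := Nat.one_le_pow _ _ (by omega)
      have hRTpos : 0 < R ^ T := by positivity
      have hRT1 : 1 ≤ R ^ T := one_le_pow₀ hR1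
      have hs : nm (sg w (j + 1)) + 1 ≤ 2 ^ (4 * (2 * T) ^ (j + 1)) := by
        have h3 := bs_nm w j (sg w j) R hR1 hRP
        have h4 : 2 * ((dq w (j + 1) : ℝ) + 1) * R ^ dq w (j + 1) ≤ 2 * (T + 1) * R ^ T :=
          mul_le_mul (by linarith) hRT (by positivity) (by positivity)
        have h5 : 2 * ((T : ℝ) + 1) * R ^ T + 1 ≤ 2 ^ (k + 3) * R ^ T := by
          rw [pow_add, ← hT2]
          nlinarith
        calc nm (sg w (j + 1)) + 1 ≤ 2 * ((T : ℝ) + 1) * R ^ T + 1 := by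
              have h6 : nm (sg w (j + 1)) = nm (bs w j (sg w j)) := rfl
              rw [h6]; linarith
          _ ≤ 2 ^ (k + 3) * R ^ T := h5
          _ = 2 ^ (k + 3 + 4 * (2 * T) ^ j * T) := by rw [hRTe, ← pow_add]
          _ ≤ 2 ^ (4 * (2 * T) ^ (j + 1)) := by
              apply pow_le_pow_right₀ (by norm_num)
              have h6 : 4 * T * 1 ≤ 4 * T * (2 * T) ^ j := Nat.mul_le_mul_left _ hpow1
              have h7 : 4 * (2 * T) ^ (j + 1) = 4 * T * (2 * T) ^ j + 4 * (2 * T) ^ j * T := by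
                ring
              omega
      refine ⟨hs, fun γ => ?_⟩
      have h3 := nm_dl_le w γ j
      have h4 := dbs_nm w j (sg w j) (dl w γ j) R hR1 hRP
      have h5 : 3 * ((dq w (j + 1) : ℝ) + 1) * R ^ dq w (j + 1) * nm (dl w γ j) ≤
          3 * (T + 1) * R ^ T * 2 ^ (8 * (2 * T) ^ j) :=
        mul_le_mul (mul_le_mul (by linarith) hRT (by positivity) (by positivity)) (h2 γ)
          (nm_nonneg _) (by positivity)
      have h6 : 3 * ((T : ℝ) + 1) * R ^ T * 2 ^ (8 * (2 * T) ^ j) ≤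
          2 ^ (k + 3) * R ^ T * 2 ^ (8 * (2 * T) ^ j) := by
        apply mul_le_mul_of_nonneg_right _ (by positivity)
        apply mul_le_mul_of_nonneg_right _ (by positivity)
        rw [pow_add, ← hT2]
        linarith
      have h7 : (2 : ℝ) ^ (k + 3) * R ^ T * 2 ^ (8 * (2 * T) ^ j) =
          2 ^ (k + 3 + 4 * (2 * T) ^ j * T + 8 * (2 * T) ^ j) := by
        rw [hRTe, ← pow_add, ← pow_add]
      have e1 : 4 * T * 1 ≤ 4 * T * (2 * T) ^ j := Nat.mul_le_mul_left _ hpow1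
      have e2 : 8 * (2 * T) ^ (j + 1) = 16 * (T * (2 * T) ^ j) := by ring
      have e3 : 4 * (2 * T) ^ (j + 1) = 8 * (T * (2 * T) ^ j) := by ring
      have e4 : 4 * (2 * T) ^ j * T = 4 * (T * (2 * T) ^ j) := by ring
      have e5 : 1 * (2 * T) ^ j ≤ T * (2 * T) ^ j := Nat.mul_le_mul_right _ hT1
      have e6 : 4 * T * (2 * T) ^ j = 4 * (T * (2 * T) ^ j) := by ring
      have h8 : (2 : ℝ) ^ (k + 3 + 4 * (2 * T) ^ j * T + 8 * (2 * T) ^ j) ≤
          2 ^ (8 * (2 * T) ^ (j + 1) - 1) := by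
        apply pow_le_pow_right₀ (by norm_num)
        omega
      have h9 : nm (sg w (j + 1)) ≤ 2 ^ (8 * (2 * T) ^ (j + 1) - 1) := by
        have : (2 : ℝ) ^ (4 * (2 * T) ^ (j + 1)) ≤ 2 ^ (8 * (2 * T) ^ (j + 1) - 1) := by
          apply pow_le_pow_right₀ (by norm_num)
          omega
        linarith
      have h10 : (2 : ℝ) ^ (8 * (2 * T) ^ (j + 1)) = 2 ^ (8 * (2 * T) ^ (j + 1) - 1) +
          2 ^ (8 * (2 * T) ^ (j + 1) - 1) := by
        have e7 : 1 ≤ (2 * T) ^ (j + 1) := Nat.one_le_pow _ _ (by omega)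
        have e8 : 1 ≤ 8 * (2 * T) ^ (j + 1) := by linarith
        obtain ⟨m, hm⟩ := Nat.exists_eq_add_of_le e8
        rw [hm, Nat.add_sub_cancel_left, pow_add]
        ring
      rw [h10]
      linarith
  obtain ⟨h1, h2⟩ := hmain j hj
  have hbig : 8 * (2 * T) ^ j ≤ K2 5 k := by
    have h3 : 2 * T = 2 ^ (k + 1) := by rw [hT, pow_succ]; ring
    rw [h3, ← pow_mul, show (8 : ℕ) = 2 ^ 3 by norm_num, ← pow_add]
    unfold K2
    apply Nat.pow_le_pow_right (by norm_num)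
    have h4 : (k + 1) * j ≤ (k + 1) * k := Nat.mul_le_mul_left _ hj.le
    nlinarith
  have hbig2 : 4 * (2 * T) ^ j ≤ K2 5 k := le_trans (by omega) hbig
  have h3 : (2 : ℝ) ^ (4 * (2 * T) ^ j) ≤ 2 ^ K2 5 k := pow_le_pow_right₀ (by norm_num) hbig2
  have h4 : (2 : ℝ) ^ (8 * (2 * T) ^ j) ≤ 2 ^ K2 5 k := pow_le_pow_right₀ (by norm_num) hbig
  exact ⟨by linarith, fun γ => (h2 γ).trans h4⟩

end Pool.Agent.Work.MP_215640_nt.Q
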