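import Pool.Agent.Work.MP_215640_nt.Q.Defs

/-!
MODULE MULTI. Averages of products of functions of class `FT`.

`f_i = ∑_l a_i(l) ee(l ·)`, `∑_l |a_i(l)| ≤ A (1 + 2 ζ(2)) ≤ 5 A` (`ζ(2) < 2`), tail `∑_{|l|>L} |a_i(l)| ≤ 2A/L`
(`∑_{l>L} 1/l^2 ≤ 1/L`). Replace each `f_i` by its truncation to `|l| ≤ L` one after the other: error
`≤ #s (2A/L) (5A)^(#s-1) ≤ (5A)^#s #s/L` per point (all functions and truncations are bounded by `5A`). The product of
the truncations is a finite sum over `l : ι → ℤ` (`Finset.prod_univ_sum`/`prod_sum`), the term `l = 0` is `∏ μ_i`, the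
others are bounded by `ρ #S ∏|a_i(l_i)|`, total `≤ (5A)^#s ρ #S`.
-/

set_option autoImplicit false

namespace Pool.Agent.Work.MP_215640_nt.Q

open Finset Polynomial

private theorem multi_tail (L : ℕ) (hL : 1 ≤ L) (T : Finset ℤ) (hT : ∀ l ∈ T, (L : ℤ) < |l|) :
    ∑ l ∈ T, 1 / (l : ℝ) ^ 2 ≤ 2 / (L : ℝ) := by
  have hLpos : (0 : ℝ) < L := by exact_mod_cast hL
  have key : ∀ T' : Finset ℤ, (∀ l ∈ T', (L : ℤ) < |l|) → Set.InjOn Int.natAbs (T' : Set ℤ) →
      ∑ l ∈ T', 1 / (l : ℝ) ^ 2 ≤ 1 / (L : ℝ) := by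
    intro T' hT' hinj
    have h1 : ∑ l ∈ T', 1 / (l : ℝ) ^ 2 = ∑ n ∈ T'.image Int.natAbs, ((n : ℝ) ^ 2)⁻¹ := by
      rw [sum_image hinj]
      refine sum_congr rfl fun l _ => ?_
      rw [one_div]
      congr 1
      have : ((l.natAbs : ℕ) : ℝ) = |(l : ℝ)| := by
        rw [← Int.cast_abs, Int.abs_eq_natAbs]
        simp
      rw [this, sq_abs]
    rw [h1]
    obtain ⟨N, hN⟩ : ∃ N, ∀ n ∈ T'.image Int.natAbs, n ≤ N :=
      ⟨(T'.image Int.natAbs).sup id, fun n hn => le_sup (f := id) hn⟩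
    have h2 : T'.image Int.natAbs ⊆ Ioc L (max L N) := by
      intro n hn
      rw [mem_Ioc]
      refine ⟨?_, (hN n hn).trans (le_max_right _ _)⟩
      rw [mem_image] at hn
      obtain ⟨l, hl, rfl⟩ := hn
      have := hT' l hl
      rw [Int.abs_eq_natAbs] at this
      exact_mod_cast this
    refine (sum_le_sum_of_subset_of_nonneg h2 fun _ _ _ => by positivity).trans ?_
    refine (sum_Ioc_inv_sq_le_sub (by omega) (le_max_left _ _)).trans ?_
    have h3 : 0 ≤ ((max L N : ℕ) : ℝ)⁻¹ := by positivity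
    rw [one_div]
    linarith
  have hsplit := sum_filter_add_sum_filter_not T (fun l => 0 ≤ l) (fun l => 1 / (l : ℝ) ^ 2)
  rw [← hsplit]
  have h1 := key (T.filter (fun l => 0 ≤ l)) (fun l hl => hT l (mem_filter.1 hl).1) (by
    intro x hx y hy hxy
    simp only [coe_filter, Set.mem_ofPred_eq] at hx hy
    omega)
  have h2 := key (T.filter (fun l => ¬ 0 ≤ l)) (fun l hl => hT l (mem_filter.1 hl).1) (by
    intro x hx y hy hxy
    simp only [coe_filter, Set.mem_ofPred_eq] at hx hy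
    omega)
  have h3 : (2 : ℝ) / L = 1 / L + 1 / L := by ring
  rw [h3]
  exact add_le_add h1 h2

private theorem multi_four (T : Finset ℤ) (hT : ∀ l ∈ T, l ≠ 0) :
    ∑ l ∈ T, 1 / (l : ℝ) ^ 2 ≤ 4 := by
  have hsplit := sum_filter_add_sum_filter_not T (fun l => 1 < |l|) (fun l => 1 / (l : ℝ) ^ 2)
  rw [← hsplit]
  have h1 := multi_tail 1 le_rfl (T.filter (fun l => 1 < |l|)) (fun l hl => by
    simpa using (mem_filter.1 hl).2)
  have h2 : T.filter (fun l => ¬ 1 < |l|) ⊆ {1, -1} := by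
    intro l hl
    rw [mem_filter] at hl
    have h3 := hT l hl.1
    have h4 := hl.2
    rw [mem_insert, mem_singleton]
    rw [not_lt, abs_le] at h4
    omega
  have h3 : ∑ l ∈ T.filter (fun l => ¬ 1 < |l|), 1 / (l : ℝ) ^ 2 ≤
      ∑ l ∈ ({1, -1} : Finset ℤ), 1 / (l : ℝ) ^ 2 :=
    sum_le_sum_of_subset_of_nonneg h2 fun _ _ _ => by positivity
  have h4 : ∑ l ∈ ({1, -1} : Finset ℤ), 1 / (l : ℝ) ^ 2 = 2 := by
    rw [sum_pair (by norm_num)]
    norm_num
  have h5 : (2 : ℝ) / ((1 : ℕ) : ℝ) = 2 := by norm_num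
  rw [h5] at h1
  linarith

private theorem multi_abs_sum {a : ℤ → ℂ} {μ A : ℝ} (h0 : a 0 = (μ : ℂ)) (hμ : |μ| ≤ A)
    (h : ∀ l : ℤ, l ≠ 0 → ‖a l‖ ≤ A / (l : ℝ) ^ 2) (T : Finset ℤ) : ∑ l ∈ T, ‖a l‖ ≤ 5 * A := by
  have hA : 0 ≤ A := (abs_nonneg _).trans hμ
  have h1 : ∑ l ∈ T, ‖a l‖ ≤ ∑ l ∈ insert 0 T, ‖a l‖ :=
    sum_le_sum_of_subset_of_nonneg (subset_insert _ _) fun _ _ _ => norm_nonneg _
  refine h1.trans ?_
  have h2 : insert (0 : ℤ) T = insert 0 (T.erase 0) := by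
    ext l
    simp only [mem_insert, mem_erase]
    tauto
  rw [h2, sum_insert (by simp), h0, Complex.norm_real, Real.norm_eq_abs]
  have h3 : ∑ l ∈ T.erase 0, ‖a l‖ ≤ ∑ l ∈ T.erase 0, A * (1 / (l : ℝ) ^ 2) := by
    refine sum_le_sum fun l hl => ?_
    rw [mul_one_div]
    exact h l (mem_erase.1 hl).1
  rw [← mul_sum] at h3
  have h4 := multi_four (T.erase 0) (fun l hl => (mem_erase.1 hl).1)
  have h5 := mul_le_mul_of_nonneg_left h4 hA
  linarith

private theorem multi_trunc {a : ℤ → ℂ} {μ A : ℝ} (hA : 0 ≤ A)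
    (h : ∀ l : ℤ, l ≠ 0 → ‖a l‖ ≤ A / (l : ℝ) ^ 2) {x : ℝ} {v : ℂ}
    (hs : HasSum (fun l : ℤ => a l * ee (l * x)) v) (L : ℕ) (hL : 1 ≤ L) :
    ‖v - ∑ l ∈ Icc (-(L : ℤ)) L, a l * ee (l * x)‖ ≤ 2 * A / L := by
  have _ := μ
  have h1 : Filter.Tendsto (fun T : Finset ℤ => ‖∑ l ∈ T, a l * ee (l * x) -
      ∑ l ∈ Icc (-(L : ℤ)) L, a l * ee (l * x)‖) Filter.atTop
      (nhds ‖v - ∑ l ∈ Icc (-(L : ℤ)) L, a l * ee (l * x)‖) :=
    (hs.sub_const _).norm
  refine le_of_tendsto h1 ?_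
  filter_upwards [Filter.eventually_ge_atTop (Icc (-(L : ℤ)) L)] with T hT
  have h2 : ∑ l ∈ T, a l * ee (l * x) - ∑ l ∈ Icc (-(L : ℤ)) L, a l * ee (l * x) =
      ∑ l ∈ T \ Icc (-(L : ℤ)) L, a l * ee (l * x) := by
    rw [← sum_sdiff hT]
    ring
  rw [h2]
  refine (norm_sum_le _ _).trans ?_
  have hout : ∀ l ∈ T \ Icc (-(L : ℤ)) L, (L : ℤ) < |l| := by
    intro l hl
    rw [mem_sdiff, mem_Icc, ← abs_le] at hl
    exact not_le.1 hl.2
  have h3 : ∑ l ∈ T \ Icc (-(L : ℤ)) L, ‖a l * ee (l * x)‖ ≤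
      ∑ l ∈ T \ Icc (-(L : ℤ)) L, A * (1 / (l : ℝ) ^ 2) := by
    refine sum_le_sum fun l hl => ?_
    rw [norm_mul, norm_ee, mul_one, mul_one_div]
    refine h l ?_
    rintro rfl
    have := hout 0 hl
    simp at this
    omega
  refine h3.trans ?_
  rw [← mul_sum]
  have h4 := mul_le_mul_of_nonneg_left (multi_tail L hL _ hout) hA
  refine h4.trans (le_of_eq ?_)
  ring

private theorem multi_prod_sub {ι : Type*} [DecidableEq ι] (s : Finset ι) (x z : ι → ℂ) (M δ : ℝ)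
    (hM : 0 ≤ M) (hδ : 0 ≤ δ) (hx : ∀ i ∈ s, ‖x i‖ ≤ M) (hz : ∀ i ∈ s, ‖z i‖ ≤ M)
    (hxz : ∀ i ∈ s, ‖x i - z i‖ ≤ δ) :
    M * ‖∏ i ∈ s, x i - ∏ i ∈ s, z i‖ ≤ s.card * δ * M ^ s.card := by
  induction s using Finset.induction_on with
  | empty => simp
  | insert j s hj ih =>
    have ih' := ih (fun i hi => hx i (mem_insert_of_mem hi)) (fun i hi => hz i (mem_insert_of_mem hi))
      (fun i hi => hxz i (mem_insert_of_mem hi))
    rw [prod_insert hj, prod_insert hj, card_insert_of_notMem hj]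
    have h1 : x j * ∏ i ∈ s, x i - z j * ∏ i ∈ s, z i =
        x j * (∏ i ∈ s, x i - ∏ i ∈ s, z i) + (x j - z j) * ∏ i ∈ s, z i := by ring
    have h2 : ‖∏ i ∈ s, z i‖ ≤ M ^ s.card := by
      rw [norm_prod, ← prod_const]
      exact prod_le_prod (fun _ _ => norm_nonneg _) fun i hi => hz i (mem_insert_of_mem hi)
    have h3 : ‖x j * ∏ i ∈ s, x i - z j * ∏ i ∈ s, z i‖ ≤
        M * ‖∏ i ∈ s, x i - ∏ i ∈ s, z i‖ + δ * M ^ s.card := by
      rw [h1]
      refine (norm_add_le _ _).trans ?_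
      rw [norm_mul, norm_mul]
      refine add_le_add ?_ ?_
      · exact mul_le_mul_of_nonneg_right (hx j (mem_insert_self _ _)) (norm_nonneg _)
      · exact mul_le_mul (hxz j (mem_insert_self _ _)) h2 (norm_nonneg _) hδ
    calc M * ‖x j * ∏ i ∈ s, x i - z j * ∏ i ∈ s, z i‖
        ≤ M * (s.card * δ * M ^ s.card + δ * M ^ s.card) :=
          mul_le_mul_of_nonneg_left (h3.trans (by linarith)) hM
      _ = ((s.card + 1 : ℕ) : ℝ) * δ * M ^ (s.card + 1) := by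
          push_cast
          ring

private theorem multi_ee_sum {κ : Type*} (t : Finset κ) (b : κ → ℝ) :
    ∏ i ∈ t, ee (b i) = ee (∑ i ∈ t, b i) := by
  classical
  induction t using Finset.induction_on with
  | empty => simp [ee_zero]
  | insert j t hj ih => rw [prod_insert hj, sum_insert hj, ee_add, ih]

theorem multi {ι U : Type*} [DecidableEq ι] (s : Finset ι) (S : Finset U) (f : ι → ℝ → ℝ) (μ : ι → ℝ)
    (A : ℝ) (hf : ∀ i ∈ s, FT (f i) (μ i) A) (y : ι → U → ℝ) (L : ℕ) (hL : 1 ≤ L) (ρ : ℝ) (hρ : 0 ≤ ρ)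
    (h : ∀ l : ι → ℤ, (∀ i ∈ s, |l i| ≤ L) → (∃ i ∈ s, l i ≠ 0) →
      ‖∑ u ∈ S, ee (∑ i ∈ s, l i * y i u)‖ ≤ ρ * S.card) :
    |∑ u ∈ S, ∏ i ∈ s, f i (y i u) - (∏ i ∈ s, μ i) * S.card| ≤
      (5 * A) ^ s.card * (ρ + s.card / L) * S.card := by
  rcases s.eq_empty_or_nonempty with rfl | hsne
  · simp
    positivity
  have hLpos : (0 : ℝ) < L := by exact_mod_cast hL
  obtain ⟨i0, hi0⟩ := hsne
  have hA1 : 1 ≤ A := (hf i0 hi0).1
  have hA0 : 0 ≤ A := by linarith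
  have h' : ∀ i, ∃ a : ℤ → ℂ, i ∈ s → (a 0 = (μ i : ℂ) ∧
      (∀ l : ℤ, l ≠ 0 → ‖a l‖ ≤ A / (l : ℝ) ^ 2) ∧
      ∀ x : ℝ, HasSum (fun l : ℤ => a l * ee (l * x)) ((f i x : ℝ) : ℂ)) := by
    intro i
    by_cases hi : i ∈ s
    · obtain ⟨_, _, a, h3, h4, h5⟩ := hf i hi
      exact ⟨a, fun _ => ⟨h3, h4, h5⟩⟩
    · exact ⟨0, fun hi' => (hi hi').elim⟩
  choose a ha using h'
  set I : Finset ℤ := Icc (-(L : ℤ)) L with hI
  set g : ι → ℝ → ℂ := fun i x => ∑ l ∈ I, a i l * ee (l * x) with hg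
  have hgM : ∀ i ∈ s, ∀ x, ‖g i x‖ ≤ 5 * A := by
    intro i hi x
    refine (norm_sum_le _ _).trans ?_
    have h1 : ∀ l ∈ I, ‖a i l * ee (l * x)‖ = ‖a i l‖ := fun l _ => by
      rw [norm_mul, norm_ee, mul_one]
    rw [sum_congr rfl h1]
    exact multi_abs_sum (ha i hi).1 (hf i hi).2.1 (ha i hi).2.1 I
  have hfM : ∀ i ∈ s, ∀ x, ‖((f i x : ℝ) : ℂ)‖ ≤ 5 * A := by
    intro i hi x
    have h1 := (ha i hi).2.2 x
    refine le_of_tendsto h1.norm (Filter.Eventually.of_forall fun T => ?_)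
    refine (norm_sum_le _ _).trans ?_
    have h2 : ∀ l ∈ T, ‖a i l * ee (l * x)‖ = ‖a i l‖ := fun l _ => by
      rw [norm_mul, norm_ee, mul_one]
    rw [sum_congr rfl h2]
    exact multi_abs_sum (ha i hi).1 (hf i hi).2.1 (ha i hi).2.1 T
  have hfg : ∀ i ∈ s, ∀ x, ‖((f i x : ℝ) : ℂ) - g i x‖ ≤ 2 * A / L := by
    intro i hi x
    exact multi_trunc (μ := μ i) hA0 (ha i hi).2.1 ((ha i hi).2.2 x) L hL
  have hprod : ∀ u : U, ‖∏ i ∈ s, ((f i (y i u) : ℝ) : ℂ) - ∏ i ∈ s, g i (y i u)‖ ≤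
      (5 * A) ^ s.card * (s.card / L) := by
    intro u
    have h1 := multi_prod_sub s (fun i => ((f i (y i u) : ℝ) : ℂ)) (fun i => g i (y i u)) (5 * A)
      (2 * A / L) (by positivity) (by positivity) (fun i hi => hfM i hi _)
      (fun i hi => hgM i hi _) (fun i hi => hfg i hi _)
    have h2 : (s.card : ℝ) * (2 * A / L) * (5 * A) ^ s.card ≤
        (5 * A) * ((5 * A) ^ s.card * (s.card / L)) := by
      have h3 : (5 * A) * ((5 * A) ^ s.card * (s.card / L)) -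
          (s.card : ℝ) * (2 * A / L) * (5 * A) ^ s.card =
          3 * A * ((5 * A) ^ s.card * (s.card / L)) := by ring
      have h4 : 0 ≤ 3 * A * ((5 * A) ^ s.card * (s.card / L)) := by positivity
      linarith
    exact le_of_mul_le_mul_left (h1.trans h2) (by positivity)
  -- the main term
  have hmain : ‖∑ u ∈ S, ∏ i ∈ s, g i (y i u) - (∏ i ∈ s, (μ i : ℂ)) * S.card‖ ≤
      (5 * A) ^ s.card * ρ * S.card := by
    have e1 : ∀ u : U, ∏ i ∈ s, g i (y i u) =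
        ∑ l ∈ Fintype.piFinset (fun _ : s => I),
          (∏ i : s, a i (l i)) * ee (∑ i : s, (l i : ℝ) * y i u) := by
      intro u
      rw [← prod_coe_sort s (fun i => g i (y i u))]
      simp only [hg]
      rw [Finset.prod_univ_sum]
      refine sum_congr rfl fun l _ => ?_
      rw [prod_mul_distrib, multi_ee_sum]
    rw [sum_congr rfl fun u _ => e1 u, sum_comm]
    simp only [← mul_sum]
    have h0mem : (0 : s → ℤ) ∈ Fintype.piFinset (fun _ : s => I) := by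
      rw [Fintype.mem_piFinset]
      intro i
      rw [hI, mem_Icc]
      simp
    rw [← add_sum_erase _ _ h0mem]
    have e2 : (∏ i : s, a i ((0 : s → ℤ) i)) * ∑ u ∈ S, ee (∑ i : s, (((0 : s → ℤ) i : ℤ) : ℝ) * y i u) =
        (∏ i ∈ s, (μ i : ℂ)) * S.card := by
      congr 1
      · rw [← prod_coe_sort s (fun i => (μ i : ℂ))]
        refine prod_congr rfl fun i _ => ?_
        exact (ha i i.2).1
      · simp [ee_zero]
    rw [e2, add_sub_cancel_left]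
    refine (norm_sum_le _ _).trans ?_
    have h1 : ∀ l ∈ (Fintype.piFinset (fun _ : s => I)).erase 0,
        ‖(∏ i : s, a i (l i)) * ∑ u ∈ S, ee (∑ i : s, (l i : ℝ) * y i u)‖ ≤
          (∏ i : s, ‖a i (l i)‖) * (ρ * S.card) := by
      intro l hl
      rw [mem_erase, Fintype.mem_piFinset] at hl
      rw [norm_mul, norm_prod]
      refine mul_le_mul_of_nonneg_left ?_ (prod_nonneg fun _ _ => norm_nonneg _)
      have h2 := h (fun i => if hi : i ∈ s then l ⟨i, hi⟩ else 0) (by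
        intro i hi
        rw [dif_pos hi]
        have := hl.2 ⟨i, hi⟩
        rw [hI, mem_Icc] at this
        exact abs_le.2 this) (by
        by_contra hno
        push Not at hno
        apply hl.1
        funext i
        have := hno i i.2
        rw [dif_pos i.2] at this
        exact this)
      refine le_trans (le_of_eq ?_) h2
      congr 1
      refine sum_congr rfl fun u _ => ?_
      congr 1
      rw [← sum_coe_sort s]
      refine sum_congr rfl fun i _ => ?_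
      rw [dif_pos i.2]
    refine (sum_le_sum h1).trans ?_
    rw [← sum_mul]
    have h2 : ∑ l ∈ (Fintype.piFinset (fun _ : s => I)).erase 0, ∏ i : s, ‖a i (l i)‖ ≤
        (5 * A) ^ s.card := by
      refine (sum_le_sum_of_subset_of_nonneg (erase_subset _ _)
        fun _ _ _ => prod_nonneg fun _ _ => norm_nonneg _).trans ?_
      rw [← Finset.prod_univ_sum (fun _ : s => I) (fun i l => ‖a i l‖)]
      have h3 : ∀ i ∈ (univ : Finset s), ∑ l ∈ I, ‖a i l‖ ≤ 5 * A := fun i _ =>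
        multi_abs_sum (ha i i.2).1 (hf i i.2).2.1 (ha i i.2).2.1 I
      refine (prod_le_prod (fun i _ => sum_nonneg fun _ _ => norm_nonneg _) h3).trans ?_
      rw [prod_const, card_univ, Fintype.card_coe]
    calc _ ≤ (5 * A) ^ s.card * (ρ * S.card) := mul_le_mul_of_nonneg_right h2 (by positivity)
      _ = _ := by ring
  have hfin : ‖((∑ u ∈ S, ∏ i ∈ s, f i (y i u) - (∏ i ∈ s, μ i) * S.card : ℝ) : ℂ)‖ ≤
      (5 * A) ^ s.card * (ρ + s.card / L) * S.card := by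
    have e1 : ((∑ u ∈ S, ∏ i ∈ s, f i (y i u) - (∏ i ∈ s, μ i) * S.card : ℝ) : ℂ) =
        (∑ u ∈ S, (∏ i ∈ s, ((f i (y i u) : ℝ) : ℂ) - ∏ i ∈ s, g i (y i u))) +
        (∑ u ∈ S, ∏ i ∈ s, g i (y i u) - (∏ i ∈ s, (μ i : ℂ)) * S.card) := by
      rw [sum_sub_distrib]
      push_cast
      ring
    rw [e1]
    refine (norm_add_le _ _).trans ?_
    have h2 : ‖∑ u ∈ S, (∏ i ∈ s, ((f i (y i u) : ℝ) : ℂ) - ∏ i ∈ s, g i (y i u))‖ ≤
        S.card * ((5 * A) ^ s.card * (s.card / L)) := by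
      refine (norm_sum_le _ _).trans ?_
      refine (sum_le_sum fun u _ => hprod u).trans ?_
      rw [sum_const, nsmul_eq_mul]
    calc _ ≤ S.card * ((5 * A) ^ s.card * (s.card / L)) + (5 * A) ^ s.card * ρ * S.card :=
          add_le_add h2 hmain
      _ = _ := by ring
  rwa [Complex.norm_real, Real.norm_eq_abs] at hfin

/-- one function -/
theorem multi_one {U : Type*} (S : Finset U) (f : ℝ → ℝ) (μ A : ℝ) (hf : FT f μ A) (y : U → ℝ) (L : ℕ)
    (hL : 1 ≤ L) (ρ : ℝ) (hρ : 0 ≤ ρ)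
    (h : ∀ l : ℤ, |l| ≤ L → l ≠ 0 → ‖∑ u ∈ S, ee (l * y u)‖ ≤ ρ * S.card) :
    |∑ u ∈ S, f (y u) - μ * S.card| ≤ 5 * A * (ρ + 1 / L) * S.card := by
  have h1 := multi ({0} : Finset ℕ) S (fun _ => f) (fun _ => μ) A (fun _ _ => hf) (fun _ => y) L hL
    ρ hρ (by
      intro l hl hne
      obtain ⟨i, hi, hi0⟩ := hne
      rw [mem_singleton] at hi
      subst hi
      simp only [sum_singleton]
      exact h (l 0) (hl 0 (mem_singleton_self _)) hi0)
  simpa using h1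

end Pool.Agent.Work.MP_215640_nt.Q
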