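import Pool.Agent.Work.MP_215640_nt.Q.Slow
import Pool.Agent.Work.MP_215640_nt.Q.Multi
import Pool.Agent.Work.MP_215640_nt.Q.Congr
import Pool.Agent.Work.MP_215640_nt.Q.K2L
import Pool.Agent.Work.MP_215640_nt.Q.Tri
import Pool.Agent.Work.MP_215640_nt.Q.Gq

/-!
MODULE BADPREF. The exceptional base points of level `l` are rare, also when weighted by the locks of the earlier levels.

`T = 2^k`, `M_i = Ml k M i`, `d_i = dq w i ≤ T`, `W(n) = ∏_{i∈Ico 1 l} tri (2/M_i^(3d_i+3)) (q_i^(d_i) sl w q n i) ≤ ∏ M_i^(3d_i+3) ≤ BB k M ^ k`.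
`Bad` = `¬ Gen (M_l^(T^14)) (2/M_l^(T^15)) (sl l)` or `¬ Gen (M_l^(T^24)) (2/M_l^(T^25)) (sl l)` or `¬ NJ (l-1) (XX)`.
First two (exponents `g = T^14, T^24`, `e = T^15, T^25`): the indicator is at most `∑_{b ≤ M_l^g} 4η tri (2η) (b sl l)`, `η = 2/M_l^e` (`one_le_tri`).
For fixed `b`: `multi` with the functions `tri (2/M_i^(3d_i+3))`, `i ∈ Ico 1 l`, and `tri (2η)`, phases `q_i^(d_i) sl i` and `b sl l`, `A = BB k M` (`≥ 1/τ^2` for all of them, as
`M_i^(6T+6) ≤ M_i^(T^27)`, `M_l^(2T^25) ≤ M_l^(T^27) = M_{l-1} ≤ BB` since `l ≥ 1`; `tri_FT`), `L = BB^(2k+2)`,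
`ρ = N^(-1/K2 c' k)` from `slow` with `B' = BB^(2^(5k)) ≥ L BB^T` (frequencies `l_i q_i^(d_i)`, `l_l b`; extend by `0` to `Icc 1 (k-1)`): the sum over `n` is at most
`N (1 + (5 BB)^k (ρ + k/L)) ≤ 2N`. Total of the two: `2 · M_l^g · 4 · (2/M_l^e) · 2N ≤ N/(4 M^2)` each since `e - g ≥ 3`.
Third: `∑_{n : ¬NJ} W(n) ≤ BB^k N^(1-1/K2 c' k) ≤ N/(4M^2)` (`nj_count` with `B = XX k M`; `NJ w q n (k-1)` implies `NJ w q n (l-1)`).
-/

set_option autoImplicit false

namespace Pool.Agent.Work.MP_215640_nt.Q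

open Finset Polynomial

private theorem not_gen {B : ℕ} {η t : ℝ} (hη : 0 < η) (h : ¬ Gen B η t) :
    1 ≤ ∑ b ∈ Icc 1 B, 4 * η * tri (2 * η) (b * t) := by
  unfold Gen at h
  push Not at h
  obtain ⟨b, h1, h2, h3⟩ := h
  calc (1 : ℝ) ≤ 4 * η * tri (2 * η) (b * t) := one_le_tri hη h3.le
    _ ≤ _ := single_le_sum (f := fun b : ℕ => 4 * η * tri (2 * η) (b * t))
      (fun i _ => mul_nonneg (by positivity) (tri_nonneg (by positivity) _))
      (mem_Icc.2 ⟨h1, h2⟩)

private theorem small_k {k : ℕ} (hk : 1 ≤ k) : 2 * k + 3 + 2 ^ k ≤ K2 4 k := by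
  have h1 : (2 ^ (4 * k) : ℕ) ≤ K2 4 k := two_pow_le_K2 hk le_rfl
  have h2 : k < 2 ^ k := Nat.lt_two_pow_self
  have h3 : (2 : ℕ) ^ (4 * k) = (2 ^ k) ^ 4 := by rw [mul_comm, pow_mul]
  have h4 : 2 ≤ 2 ^ k := by
    calc 2 = 2 ^ 1 := by norm_num
      _ ≤ _ := Nat.pow_le_pow_right (by norm_num) hk
  rw [h3] at h1
  generalize 2 ^ k = t at h1 h2 h4 ⊢
  have h5 : t * 8 ≤ t ^ 4 := by
    calc t * 8 = t * 2 ^ 3 := by norm_num
      _ ≤ t * t ^ 3 := Nat.mul_le_mul_left _ (Nat.pow_le_pow_left h4 3)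
      _ = t ^ 4 := by ring
  omega

open Classical in
theorem bad_pref : ∃ c : ℕ, ∀ k : ℕ, 1 ≤ k → ∀ w : ℕ → Bool, Pos w k → ∀ M : ℕ, (2 : ℝ) ^ K2 c k ≤ M →
    ∀ N : ℕ, (M : ℝ) ^ K2 c k ≤ N → ∀ l, 1 ≤ l → l < k → ∀ q : ℕ → ℕ, (∀ i, 1 ≤ q i ∧ q i ≤ BB k M) →
    ∑ n ∈ Ico N (2 * N), (∏ i ∈ Ico 1 l, tri (2 / (Ml k M i : ℝ) ^ (3 * dq w i + 3))
        ((q i : ℝ) ^ dq w i * sl w q (n : ℝ) i)) * (if Bad w k M n l q then 1 else 0) ≤
      (N : ℝ) / (M : ℝ) ^ 2 := by
  obtain ⟨c1, hslow⟩ := slow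
  obtain ⟨c2, hnj⟩ := nj_count
  refine ⟨c1 + c2 + 40, fun k hk w hw M hM N hN l hl1 hlk q hq => ?_⟩
  set T : ℕ := 2 ^ k with hT
  set B : ℕ := BB k M with hB
  -- basic sizes
  have hT2 : 2 ≤ T := by
    calc 2 = 2 ^ 1 := by norm_num
      _ ≤ _ := Nat.pow_le_pow_right (by norm_num) hk
  have hM64 : (64 : ℝ) ≤ M := by
    refine le_trans ?_ hM
    calc (64 : ℝ) = 2 ^ 6 := by norm_num
      _ ≤ _ := pow_le_pow_right₀ (by norm_num) ?_
    calc 6 ≤ 2 ^ (3 * k) := by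
          calc 6 ≤ 2 ^ 3 := by norm_num
            _ ≤ _ := Nat.pow_le_pow_right (by norm_num) (by omega)
      _ ≤ _ := two_pow_le_K2 hk (by omega)
  have hM64' : 64 ≤ M := by exact_mod_cast hM64
  have hM1 : (1 : ℝ) ≤ M := by linarith
  have hM1' : 1 ≤ M := by omega
  have hM0 : (0 : ℝ) < M := by linarith
  have hMB : M ≤ B := by rw [hB, BB_eq]; exact Nat.le_self_pow (by unfold K2; positivity) M
  have hB64 : 64 ≤ B := hM64'.trans hMB
  have hB64r : (64 : ℝ) ≤ B := by exact_mod_cast hB64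
  have hMBr : (M : ℝ) ≤ B := by exact_mod_cast hMB
  have hB1r : (1 : ℝ) ≤ B := by linarith
  have hB0 : (0 : ℝ) < B := by linarith
  have hkM : (k : ℝ) ≤ M := by
    refine le_trans ?_ hM
    have h1 : k ≤ 2 ^ K2 (c1 + c2 + 40) k := by
      calc k ≤ K2 1 k := le_K2 hk
        _ ≤ K2 (c1 + c2 + 40) k := K2_mono k (by omega)
        _ ≤ _ := Nat.lt_two_pow_self.le
    exact_mod_cast h1
  have hN0 : (0 : ℝ) < N := lt_of_lt_of_le (by positivity) hN
  have hMl0 : ∀ i, (0 : ℝ) < Ml k M i := fun i => by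
    have := M_le_Ml (k := k) (j := i) hM1'
    have h2 : 0 < Ml k M i := by omega
    exact_mod_cast h2
  have hMlM : ∀ i, (M : ℝ) ≤ Ml k M i := fun i => by exact_mod_cast M_le_Ml (k := k) (j := i) hM1'
  have hMl1 : ∀ i, (1 : ℝ) ≤ Ml k M i := fun i => hM1.trans (hMlM i)
  -- powers of `Ml` are at most `B`
  have hpowB : ∀ i, 1 ≤ i → i < k → ∀ e : ℕ, e ≤ T ^ 27 → (Ml k M i : ℝ) ^ e ≤ B := by
    intro i hi1 hik e he
    obtain ⟨j, rfl⟩ := Nat.exists_eq_add_of_le' hi1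
    have h1 := Ml_pow_le_BB (k := k) (M := M) (j := j) (a := 27) hik hM1' le_rfl
    calc (Ml k M (j + 1) : ℝ) ^ e ≤ (Ml k M (j + 1) : ℝ) ^ T ^ 27 :=
          pow_le_pow_right₀ (hMl1 _) he
      _ ≤ B := by exact_mod_cast h1
  -- `T` is large enough
  have hT27a : 6 * T + 6 ≤ T ^ 27 := by
    calc 6 * T + 6 ≤ T * 2 ^ 4 := by omega
      _ ≤ T * T ^ 4 := Nat.mul_le_mul_left _ (Nat.pow_le_pow_left hT2 4)
      _ = T ^ 5 := by ring
      _ ≤ _ := Nat.pow_le_pow_right (by omega) (by norm_num)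
  have hT27b : 2 * T ^ 25 ≤ T ^ 27 := by
    calc 2 * T ^ 25 ≤ T ^ 2 * T ^ 25 := by
          apply Nat.mul_le_mul_right
          nlinarith
      _ = T ^ 27 := by ring
  have hdT : ∀ i, i < k → dq w i ≤ T := fun i hi =>
    (dq_le w i).trans (Nat.pow_le_pow_right (by norm_num) hi.le)
  -- absorption
  have habs : ∀ c0 : ℕ, c0 ≤ c1 + c2 → ∀ e : ℕ, e ≤ 2 * k + 3 →
      (B : ℝ) ^ e ≤ (N : ℝ) ^ (1 / (K2 c0 k : ℝ)) := by
    intro c0 hc0 e he
    rw [hB, BB_eq]
    push_cast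
    rw [← pow_mul]
    apply absorb hM1 hN _ (by positivity)
    have h1 : K2 27 k * e * K2 c0 k ≤ K2 (c1 + c2 + 40) k := by
      calc K2 27 k * e * K2 c0 k ≤ K2 27 k * K2 4 k * K2 c0 k := by
            apply Nat.mul_le_mul_right
            apply Nat.mul_le_mul_left
            exact (by omega : e ≤ 2 * k + 3 + 2 ^ k).trans (small_k hk)
        _ = K2 (c0 + 31) k := by rw [← K2_add, ← K2_add]; congr 1; ring
        _ ≤ _ := K2_mono k (by omega)
    have h2 : ((K2 27 k * e : ℕ) : ℝ) * K2 c0 k ≤ K2 (c1 + c2 + 40) k := by exact_mod_cast h1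
    have h3 : (0 : ℝ) < K2 c0 k := by exact_mod_cast K2_pos c0 k
    rw [one_div, inv_mul_eq_div, le_div_iff₀ h3]
    exact h2
  have hsplit : ∀ c0 : ℕ, (N : ℝ) ^ (1 - 1 / (K2 c0 k : ℝ)) * (N : ℝ) ^ (1 / (K2 c0 k : ℝ)) = N := by
    intro c0
    rw [← Real.rpow_add hN0, sub_add_cancel, Real.rpow_one]
  -- the main average
  have key : ∀ (m : ℕ → ℕ) (g : ℕ → ℝ → ℝ), (∀ i ∈ Ico 1 (l + 1), 1 ≤ m i ∧ m i ≤ B ^ T) →
      (∀ i ∈ Ico 1 (l + 1), FT (g i) 1 B) →
      ∑ n ∈ Ico N (2 * N), ∏ i ∈ Ico 1 (l + 1), g i (m i * sl w q (n : ℝ) i) ≤ 2 * N := by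
    intro m g hm hg
    set L : ℕ := B ^ (2 * k + 2) with hL
    set B' : ℕ := B ^ (2 * k + 2 + T) with hB'
    set ρ : ℝ := (N : ℝ) ^ (-(1 / (K2 c1 k : ℝ))) with hρ
    have hρ0 : 0 ≤ ρ := Real.rpow_nonneg hN0.le _
    have hB'B : B ≤ B' := Nat.le_self_pow (by omega) B
    have hB'N : (B' : ℝ) ^ K2 c1 k ≤ N := by
      refine le_trans ?_ hN
      rw [hB', hB, BB_eq]
      push_cast
      rw [← pow_mul, ← pow_mul]
      apply pow_le_pow_right₀ hM1
      rw [← mul_assoc]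
      calc K2 27 k * (2 * k + 2 + T) * K2 c1 k ≤ K2 27 k * K2 4 k * K2 c1 k := by
            apply Nat.mul_le_mul_right
            apply Nat.mul_le_mul_left
            exact (by omega : 2 * k + 2 + T ≤ 2 * k + 3 + 2 ^ k).trans (small_k hk)
        _ = K2 (c1 + 31) k := by rw [← K2_add, ← K2_add]; congr 1; ring
        _ ≤ _ := K2_mono k (by omega)
    have hL1 : 1 ≤ L := Nat.one_le_pow _ _ (by omega)
    have hmul := multi (Ico 1 (l + 1)) (Ico N (2 * N)) g (fun _ => 1) B hg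
      (fun i n => m i * sl w q (n : ℝ) i) L hL1 ρ hρ0 (by
        intro lam hlam hex
        let lam' : ℕ → ℤ := fun i => if i ∈ Ico 1 (l + 1) then lam i * m i else 0
        have h1 := hslow k hk w hw B' (by omega) q
          (fun i => ⟨(hq i).1, (hq i).2.trans hB'B⟩) N hB'N lam' (by
            intro i
            simp only [lam']
            split_ifs with hi
            · rw [abs_mul, Nat.abs_cast, hB', pow_add, Nat.cast_mul]
              apply mul_le_mul (hlam i hi) _ (by positivity) (by positivity)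
              exact_mod_cast (hm i hi).2
            · rw [abs_zero]; positivity) (by
            obtain ⟨i, hi, hi0⟩ := hex
            have hi' := mem_Ico.1 hi
            refine ⟨i, hi'.1, by omega, ?_⟩
            simp only [lam', if_pos hi]
            apply mul_ne_zero hi0
            have := (hm i hi).1
            exact_mod_cast (by omega : m i ≠ 0))
        have h2 : ∀ n : ℕ, ∑ i ∈ Icc 1 (k - 1), (lam' i : ℝ) * sl w q (n : ℝ) i =
            ∑ i ∈ Ico 1 (l + 1), (lam i : ℝ) * (m i * sl w q (n : ℝ) i) := by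
          intro n
          symm
          apply sum_subset_zero_on_sdiff
          · intro i hi
            rw [mem_Ico] at hi
            rw [mem_Icc]
            omega
          · intro i hi
            rw [mem_sdiff] at hi
            simp only [lam', if_neg hi.2]
            simp
          · intro i hi
            simp only [lam', if_pos hi]
            push_cast
            ring
        simp only [h2] at h1
        refine h1.trans (le_of_eq ?_)
        rw [Nat.card_Ico, show 2 * N - N = N by omega, hρ, sub_eq_add_neg, Real.rpow_add hN0,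
          Real.rpow_one, mul_comm])
    rw [Nat.card_Ico, show 2 * N - N = N by omega, Nat.card_Ico, Nat.add_sub_cancel] at hmul
    simp only [prod_const_one, one_mul] at hmul
    have h3 : (5 * (B : ℝ)) ^ l ≤ (B : ℝ) ^ (2 * k) := by
      calc (5 * (B : ℝ)) ^ l ≤ ((B : ℝ) ^ 2) ^ l := by
            apply pow_le_pow_left₀ (by positivity)
            nlinarith
        _ = (B : ℝ) ^ (2 * l) := by rw [← pow_mul]
        _ ≤ _ := pow_le_pow_right₀ hB1r (by omega)
    have h4 : (B : ℝ) ^ (2 * k) * ρ ≤ 1 / 2 := by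
      have h5 := habs c1 (by omega) (2 * k + 1) (by omega)
      have h6 : ρ * (N : ℝ) ^ (1 / (K2 c1 k : ℝ)) = 1 := by
        rw [hρ, ← Real.rpow_add hN0, neg_add_cancel, Real.rpow_zero]
      have h7 : ρ * (B : ℝ) ^ (2 * k + 1) ≤ 1 := by
        rw [← h6]
        exact mul_le_mul_of_nonneg_left h5 hρ0
      rw [pow_succ] at h7
      have h8 : 0 ≤ ρ * (B : ℝ) ^ (2 * k) := by positivity
      nlinarith
    have h5 : (B : ℝ) ^ (2 * k) * ((l : ℝ) / L) ≤ 1 / 2 := by
      have h6 : (L : ℝ) = (B : ℝ) ^ (2 * k) * (B : ℝ) ^ 2 := by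
        rw [hL]; push_cast; rw [pow_add]
      have h7 : (l : ℝ) ≤ B := by
        have : (l : ℝ) ≤ k := by exact_mod_cast hlk.le
        linarith
      rw [h6, mul_div_assoc', mul_div_mul_left _ _ (by positivity), div_le_iff₀ (by positivity)]
      nlinarith
    have h6 : (5 * (B : ℝ)) ^ l * (ρ + (l : ℝ) / L) ≤ 1 := by
      calc (5 * (B : ℝ)) ^ l * (ρ + (l : ℝ) / L) ≤ (B : ℝ) ^ (2 * k) * (ρ + (l : ℝ) / L) :=
            mul_le_mul_of_nonneg_right h3 (by positivity)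
        _ = (B : ℝ) ^ (2 * k) * ρ + (B : ℝ) ^ (2 * k) * ((l : ℝ) / L) := by ring
        _ ≤ 1 := by linarith
    have h7 := (le_abs_self _).trans hmul
    have h8 : (5 * (B : ℝ)) ^ l * (ρ + (l : ℝ) / L) * N ≤ 1 * N :=
      mul_le_mul_of_nonneg_right h6 hN0.le
    linarith
  -- the functions of the locks
  have hτ0 : ∀ i, (0 : ℝ) < 2 / (Ml k M i : ℝ) ^ (3 * dq w i + 3) := fun i => by
    have := hMl0 i
    positivity
  have hFTlock : ∀ i, 1 ≤ i → i < k → FT (tri (2 / (Ml k M i : ℝ) ^ (3 * dq w i + 3))) 1 B := by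
    intro i hi1 hik
    have h0 := hMl0 i
    apply (tri_FT (hτ0 i) _).mono
    · rw [div_pow, one_div_div, ← pow_mul, div_le_iff₀ (by norm_num)]
      have h1 := hpowB i hi1 hik ((3 * dq w i + 3) * 2) (by
        have := hdT i hik
        omega)
      nlinarith
    · rw [div_le_div_iff₀ (by positivity) (by norm_num), one_mul]
      calc (2 : ℝ) * 2 ≤ M := by linarith
        _ ≤ Ml k M i := hMlM i
        _ ≤ _ := le_self_pow₀ (hMl1 i) (by omega)
  set W : ℕ → ℝ := fun n => ∏ i ∈ Ico 1 l, tri (2 / (Ml k M i : ℝ) ^ (3 * dq w i + 3))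
        ((q i : ℝ) ^ dq w i * sl w q (n : ℝ) i) with hW
  have hW0 : ∀ n, 0 ≤ W n := fun n => prod_nonneg fun i _ => tri_nonneg (hτ0 i) _
  have hWB : ∀ n, W n ≤ (B : ℝ) ^ k := by
    intro n
    calc W n ≤ ∏ i ∈ Ico 1 l, (B : ℝ) := by
          apply prod_le_prod (fun i _ => tri_nonneg (hτ0 i) _)
          intro i hi
          rw [mem_Ico] at hi
          refine (tri_le (hτ0 i) _).trans ?_
          rw [one_div_div]
          have h0 := hMl0 i
          have h1 := hpowB i hi.1 (by omega) (3 * dq w i + 3) (by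
            have := hdT i (by omega)
            omega)
          rw [div_le_iff₀ (by norm_num)]
          nlinarith
      _ = (B : ℝ) ^ (l - 1) := by rw [prod_const, Nat.card_Ico]
      _ ≤ _ := pow_le_pow_right₀ hB1r (by omega)
  -- the two conditions on the slow number
  have hpart : ∀ G E : ℕ, G + 4 ≤ E → E ≤ T ^ 25 → G ≤ T ^ 24 →
      ∑ n ∈ Ico N (2 * N), W n * ∑ b ∈ Icc 1 (Ml k M l ^ G), 4 * (2 / (Ml k M l : ℝ) ^ E) *
        tri (2 * (2 / (Ml k M l : ℝ) ^ E)) (b * sl w q (n : ℝ) l) ≤ (N : ℝ) / (4 * (M : ℝ) ^ 2) := by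
    intro G E hGE hE hG
    have h0 := hMl0 l
    set η : ℝ := 2 / (Ml k M l : ℝ) ^ E with hη
    have hη0 : 0 < η := by positivity
    have hsw : ∑ n ∈ Ico N (2 * N), W n * ∑ b ∈ Icc 1 (Ml k M l ^ G), 4 * η *
        tri (2 * η) (b * sl w q (n : ℝ) l) = ∑ b ∈ Icc 1 (Ml k M l ^ G), 4 * η *
          ∑ n ∈ Ico N (2 * N), W n * tri (2 * η) (b * sl w q (n : ℝ) l) := by
      simp only [mul_sum]
      rw [sum_comm]
      apply sum_congr rfl
      intro b _
      apply sum_congr rfl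
      intro n _
      ring
    rw [hsw]
    have hone : ∀ b ∈ Icc 1 (Ml k M l ^ G),
        ∑ n ∈ Ico N (2 * N), W n * tri (2 * η) (b * sl w q (n : ℝ) l) ≤ 2 * N := by
      intro b hb
      rw [mem_Icc] at hb
      have h1 := key (fun i => if i = l then b else q i ^ dq w i)
        (fun i => if i = l then tri (2 * η) else tri (2 / (Ml k M i : ℝ) ^ (3 * dq w i + 3))) (by
          intro i hi
          rw [mem_Ico] at hi
          split_ifs with hil
          · refine ⟨hb.1, hb.2.trans ?_⟩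
            have h2 := hpowB l hl1 hlk G (by
              refine hG.trans (Nat.pow_le_pow_right (by omega) (by norm_num)))
            have h3 : Ml k M l ^ G ≤ B := by exact_mod_cast h2
            exact h3.trans (Nat.le_self_pow (by omega) B)
          · refine ⟨Nat.one_le_pow _ _ (hq i).1, ?_⟩
            calc q i ^ dq w i ≤ B ^ dq w i := Nat.pow_le_pow_left (hq i).2 _
              _ ≤ B ^ T := Nat.pow_le_pow_right (by omega) (hdT i (by omega))) (by
          intro i hi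
          rw [mem_Ico] at hi
          split_ifs with hil
          · apply (tri_FT (by positivity) _).mono
            · rw [hη, ← mul_div_assoc, div_pow, one_div_div, ← pow_mul, div_le_iff₀ (by norm_num)]
              have h2 := hpowB l hl1 hlk (E * 2) (by omega)
              nlinarith
            · rw [hη, ← mul_div_assoc, div_le_div_iff₀ (by positivity) (by norm_num), one_mul]
              calc (2 : ℝ) * 2 * 2 ≤ M := by linarith
                _ ≤ Ml k M l := hMlM l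
                _ ≤ _ := le_self_pow₀ (hMl1 l) (by omega)
          · exact hFTlock i hi.1 (by omega))
      refine le_trans (le_of_eq ?_) h1
      apply sum_congr rfl
      intro n _
      rw [prod_Ico_succ_top hl1]
      simp only [if_true]
      congr 1
      apply prod_congr rfl
      intro i hi
      rw [mem_Ico] at hi
      rw [if_neg (by omega), if_neg (by omega)]
      push_cast
      rfl
    calc ∑ b ∈ Icc 1 (Ml k M l ^ G), 4 * η *
          ∑ n ∈ Ico N (2 * N), W n * tri (2 * η) (b * sl w q (n : ℝ) l)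
        ≤ ∑ b ∈ Icc 1 (Ml k M l ^ G), 4 * η * (2 * N) := by
          apply sum_le_sum
          intro b hb
          exact mul_le_mul_of_nonneg_left (hone b hb) (by positivity)
      _ = (Ml k M l : ℝ) ^ G * (4 * η * (2 * N)) := by
          rw [sum_const, Nat.card_Icc, Nat.add_sub_cancel, nsmul_eq_mul]
          push_cast
          rfl
      _ ≤ (N : ℝ) / (4 * (M : ℝ) ^ 2) := by
          rw [hη, le_div_iff₀ (by positivity)]
          have h1 : (Ml k M l : ℝ) ^ G * (M : ℝ) ^ 4 ≤ (Ml k M l : ℝ) ^ E := by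
            calc (Ml k M l : ℝ) ^ G * (M : ℝ) ^ 4 ≤ (Ml k M l : ℝ) ^ G * (Ml k M l : ℝ) ^ 4 :=
                  mul_le_mul_of_nonneg_left (pow_le_pow_left₀ hM0.le (hMlM l) 4) (by positivity)
              _ = (Ml k M l : ℝ) ^ (G + 4) := by rw [pow_add]
              _ ≤ _ := pow_le_pow_right₀ (hMl1 l) hGE
          have h2 : (64 : ℝ) ≤ (M : ℝ) ^ 2 := by nlinarith
          have h3 : (Ml k M l : ℝ) ^ G * (64 * (M : ℝ) ^ 2) ≤ (Ml k M l : ℝ) ^ E := by
            refine le_trans ?_ h1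
            apply mul_le_mul_of_nonneg_left _ (by positivity)
            calc 64 * (M : ℝ) ^ 2 ≤ (M : ℝ) ^ 2 * (M : ℝ) ^ 2 :=
                  mul_le_mul_of_nonneg_right h2 (by positivity)
              _ = (M : ℝ) ^ 4 := by ring
          have h4 : (Ml k M l : ℝ) ^ G * (4 * (2 / (Ml k M l : ℝ) ^ E) * (2 * N)) * (4 * (M : ℝ) ^ 2)
              = ((Ml k M l : ℝ) ^ G * (64 * (M : ℝ) ^ 2)) * N / (Ml k M l : ℝ) ^ E := by
            field_simp
            ring
          rw [h4, div_le_iff₀ (by positivity), mul_comm (N : ℝ)]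
          exact mul_le_mul_of_nonneg_right h3 hN0.le
  -- changes of the locks
  have hNJ : ∑ n ∈ Ico N (2 * N), W n * (if ¬ NJ w q n (k - 1) (XX k M) then 1 else 0) ≤
      (N : ℝ) / (4 * (M : ℝ) ^ 2) := by
    have hBX : B ≤ XX k M := by
      unfold XX
      exact Nat.le_self_pow (by omega) B
    have h1 := hnj k hk w hw (XX k M) (by omega) q (fun i => ⟨(hq i).1, (hq i).2.trans hBX⟩) N
      (XX_pow_le hk hM1' (pow_K2_mono hM1 (by omega) hN))
    calc ∑ n ∈ Ico N (2 * N), W n * (if ¬ NJ w q n (k - 1) (XX k M) then 1 else 0)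
        ≤ ∑ n ∈ Ico N (2 * N), (B : ℝ) ^ k * (if ¬ NJ w q n (k - 1) (XX k M) then 1 else 0) := by
          apply sum_le_sum
          intro n _
          apply mul_le_mul_of_nonneg_right (hWB n)
          split_ifs <;> norm_num
      _ = (B : ℝ) ^ k *
          (((Ico N (2 * N)).filter (fun n => ¬ NJ w q n (k - 1) (XX k M))).card : ℕ) := by
          rw [← mul_sum, sum_boole]
      _ ≤ (B : ℝ) ^ k * (N : ℝ) ^ (1 - 1 / (K2 c2 k : ℝ)) :=
          mul_le_mul_of_nonneg_left h1 (by positivity)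
      _ ≤ (N : ℝ) / (4 * (M : ℝ) ^ 2) := by
          rw [le_div_iff₀ (by positivity)]
          have h2 := habs c2 (by omega) (k + 3) (by omega)
          have h3 : (B : ℝ) ^ k * (4 * (M : ℝ) ^ 2) ≤ (B : ℝ) ^ (k + 3) := by
            rw [pow_add]
            apply mul_le_mul_of_nonneg_left _ (by positivity)
            calc 4 * (M : ℝ) ^ 2 ≤ B * (B : ℝ) ^ 2 :=
                  mul_le_mul (by linarith) (pow_le_pow_left₀ hM0.le hMBr 2) (by positivity) hB0.le
              _ = (B : ℝ) ^ 3 := by ring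
          calc (B : ℝ) ^ k * (N : ℝ) ^ (1 - 1 / (K2 c2 k : ℝ)) * (4 * (M : ℝ) ^ 2)
              = (N : ℝ) ^ (1 - 1 / (K2 c2 k : ℝ)) * ((B : ℝ) ^ k * (4 * (M : ℝ) ^ 2)) := by ring
            _ ≤ (N : ℝ) ^ (1 - 1 / (K2 c2 k : ℝ)) * (N : ℝ) ^ (1 / (K2 c2 k : ℝ)) := by
                apply mul_le_mul_of_nonneg_left (h3.trans h2)
                exact Real.rpow_nonneg hN0.le _
            _ = N := hsplit c2
  -- assembly
  have h14 : T ^ 14 + 4 ≤ T ^ 15 := by
    have : 4 ≤ T ^ 14 := by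
      calc 4 ≤ 2 ^ 14 := by norm_num
        _ ≤ _ := Nat.pow_le_pow_left hT2 14
    calc T ^ 14 + 4 ≤ T ^ 14 * 2 := by omega
      _ ≤ T ^ 14 * T := Nat.mul_le_mul_left _ hT2
      _ = T ^ 15 := by ring
  have h24 : T ^ 24 + 4 ≤ T ^ 25 := by
    have : 4 ≤ T ^ 24 := by
      calc 4 ≤ 2 ^ 24 := by norm_num
        _ ≤ _ := Nat.pow_le_pow_left hT2 24
    calc T ^ 24 + 4 ≤ T ^ 24 * 2 := by omega
      _ ≤ T ^ 24 * T := Nat.mul_le_mul_left _ hT2
      _ = T ^ 25 := by ring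
  have p1 := hpart (T ^ 14) (T ^ 15) h14 (Nat.pow_le_pow_right (by omega) (by norm_num))
    (Nat.pow_le_pow_right (by omega) (by norm_num))
  have p2 := hpart (T ^ 24) (T ^ 25) h24 le_rfl le_rfl
  have hind : ∀ n : ℕ, (if Bad w k M n l q then (1 : ℝ) else 0) ≤
      ∑ b ∈ Icc 1 (Ml k M l ^ T ^ 14), 4 * (2 / (Ml k M l : ℝ) ^ T ^ 15) *
        tri (2 * (2 / (Ml k M l : ℝ) ^ T ^ 15)) (b * sl w q (n : ℝ) l) +
      ∑ b ∈ Icc 1 (Ml k M l ^ T ^ 24), 4 * (2 / (Ml k M l : ℝ) ^ T ^ 25) *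
        tri (2 * (2 / (Ml k M l : ℝ) ^ T ^ 25)) (b * sl w q (n : ℝ) l) +
      (if ¬ NJ w q n (k - 1) (XX k M) then 1 else 0) := by
    intro n
    have h0 := hMl0 l
    have e1 : (0 : ℝ) < 2 / (Ml k M l : ℝ) ^ T ^ 15 := by positivity
    have e2 : (0 : ℝ) < 2 / (Ml k M l : ℝ) ^ T ^ 25 := by positivity
    have n1 : 0 ≤ ∑ b ∈ Icc 1 (Ml k M l ^ T ^ 14), 4 * (2 / (Ml k M l : ℝ) ^ T ^ 15) *
        tri (2 * (2 / (Ml k M l : ℝ) ^ T ^ 15)) (b * sl w q (n : ℝ) l) :=
      sum_nonneg fun b _ => mul_nonneg (by positivity) (tri_nonneg (by positivity) _)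
    have n2 : 0 ≤ ∑ b ∈ Icc 1 (Ml k M l ^ T ^ 24), 4 * (2 / (Ml k M l : ℝ) ^ T ^ 25) *
        tri (2 * (2 / (Ml k M l : ℝ) ^ T ^ 25)) (b * sl w q (n : ℝ) l) :=
      sum_nonneg fun b _ => mul_nonneg (by positivity) (tri_nonneg (by positivity) _)
    have n3 : (0 : ℝ) ≤ (if ¬ NJ w q n (k - 1) (XX k M) then 1 else 0) := by
      split_ifs <;> norm_num
    by_cases hbad : Bad w k M n l q
    · rw [if_pos hbad]
      unfold Bad G2 at hbad
      rcases hbad with hb | hb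
      · rw [not_and_or] at hb
        rcases hb with hb | hb
        · have := not_gen e1 hb
          linarith
        · have := not_gen e2 hb
          linarith
      · have h3 : ¬ NJ w q n (k - 1) (XX k M) := fun h4 => hb fun i hi1 hi2 => h4 i hi1 (by omega)
        rw [if_pos h3]
        linarith
    · rw [if_neg hbad]
      linarith
  calc ∑ n ∈ Ico N (2 * N), W n * (if Bad w k M n l q then 1 else 0)
      ≤ ∑ n ∈ Ico N (2 * N), (W n * ∑ b ∈ Icc 1 (Ml k M l ^ T ^ 14),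
          4 * (2 / (Ml k M l : ℝ) ^ T ^ 15) *
            tri (2 * (2 / (Ml k M l : ℝ) ^ T ^ 15)) (b * sl w q (n : ℝ) l) +
          W n * ∑ b ∈ Icc 1 (Ml k M l ^ T ^ 24), 4 * (2 / (Ml k M l : ℝ) ^ T ^ 25) *
            tri (2 * (2 / (Ml k M l : ℝ) ^ T ^ 25)) (b * sl w q (n : ℝ) l) +
          W n * (if ¬ NJ w q n (k - 1) (XX k M) then 1 else 0)) := by
        apply sum_le_sum
        intro n _
        rw [← mul_add, ← mul_add]
        exact mul_le_mul_of_nonneg_left (hind n) (hW0 n)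
    _ ≤ (N : ℝ) / (4 * (M : ℝ) ^ 2) + (N : ℝ) / (4 * (M : ℝ) ^ 2) + (N : ℝ) / (4 * (M : ℝ) ^ 2) := by
        rw [sum_add_distrib, sum_add_distrib]
        exact add_le_add (add_le_add p1 p2) hNJ
    _ ≤ (N : ℝ) / (M : ℝ) ^ 2 := by
        have h1 : (N : ℝ) / (4 * (M : ℝ) ^ 2) = 1 / 4 * ((N : ℝ) / (M : ℝ) ^ 2) := by
          field_simp
        have h2 : 0 ≤ (N : ℝ) / (M : ℝ) ^ 2 := by positivity
        rw [h1]
        linarith

end Pool.Agent.Work.MP_215640_nt.Q
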