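import Pool.Agent.Work.MP_215640_nt.Q.Nm

/-!
MODULE BSN. Size, Lipschitz and second order estimates for `bser`, `bs` and its linearisation `dbs`.

`choose_le`: for `e ∈ {-1/2, 1/2, 3/2}` and `i ≥ 2` the factors of `(e)(e-1)...(e-i+1)/i!` after the first two are
`|e - j|/(j+1) ≤ 1`, and the first products are `≤ 2`.
Put `G = P - 1`. `bser e d P = ∑_{i ≤ d} choose(e,i) G^i`, so `nm ≤ ∑ 2 R^i`. Lipschitz: `nm (G^i - G'^i) ≤ i R^(i-1) nm (G-G')`.
`bs_quad`: `(G+D)^i - G^i - i G^(i-1) D = D ∑_{a<i} G^(i-1-a) ((G+D)^a - G^a)` has `nm ≤ i^2 R^(i-2) (nm D)^2` (`i ≥ 2`), and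
`∑_{1≤i≤d} i choose(e,i) G^(i-1) D = e ∑_{i≤d-1} choose(e-1,i) G^i D`, which is `e bser (e-1) d P D` minus the term
`e choose(e-1,d) G^d D`; that term has no coefficients of degree `≤ d` since `G` and `D` vanish at `0`, so `trunc d` kills it.
(`i * Ring.choose e i = e * Ring.choose (e-1) (i-1)`.)
`bs_scale`: `bser e d (P.comp (C a * X)) = (bser e d P).comp (C a * X)` and `trunc` commutes with scaling.
-/

set_option autoImplicit false

namespace Pool.Agent.Work.MP_215640_nt.Q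

open Finset Polynomial

private theorem bsn_fact_choose (γ : ℝ) (n : ℕ) :
    (n.factorial : ℝ) * Ring.choose γ n = ∏ j ∈ range n, (γ - j) := by
  have h1 : (descPochhammer ℤ n).smeval γ = ∏ j ∈ range n, (γ - j) := by
    induction n with
    | zero => simp
    | succ n ih =>
      rw [descPochhammer_succ_right, smeval_mul, ih, prod_range_succ, smeval_sub, smeval_X,
        smeval_natCast]
      simp
  rw [← h1, Ring.descPochhammer_eq_factorial_smul_choose, nsmul_eq_mul]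

private theorem bsn_choose_eq (γ : ℝ) (n : ℕ) :
    Ring.choose γ n = (∏ j ∈ range n, (γ - j)) / (n.factorial : ℝ) := by
  have h : ((n.factorial : ℕ) : ℝ) ≠ 0 := by positivity
  rw [eq_div_iff h, mul_comm]
  exact bsn_fact_choose γ n

private theorem bsn_choose_succ (γ : ℝ) (n : ℕ) :
    ((n : ℝ) + 1) * Ring.choose γ (n + 1) = (γ - n) * Ring.choose γ n := by
  rw [bsn_choose_eq, bsn_choose_eq, prod_range_succ, Nat.factorial_succ]
  have h : ((n.factorial : ℕ) : ℝ) ≠ 0 := by positivity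
  have h2 : ((n : ℝ) + 1) ≠ 0 := by positivity
  push_cast
  field_simp

/-- `i * choose e i = e * choose (e-1) (i-1)` -/
private theorem bsn_choose_absorb (γ : ℝ) (n : ℕ) :
    ((n : ℝ) + 1) * Ring.choose γ (n + 1) = γ * Ring.choose (γ - 1) n := by
  rw [bsn_choose_eq, bsn_choose_eq, prod_range_succ', Nat.factorial_succ]
  have h : ((n.factorial : ℕ) : ℝ) ≠ 0 := by positivity
  have h2 : ((n : ℝ) + 1) ≠ 0 := by positivity
  have h3 : ∏ j ∈ range n, (γ - ((j + 1 : ℕ) : ℝ)) = ∏ j ∈ range n, (γ - 1 - (j : ℝ)) := by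
    apply Finset.prod_congr rfl
    intro j _
    push_cast
    ring
  rw [h3]
  push_cast
  field_simp
  ring

theorem choose_le (e : ℝ) (he : e = -1 / 2 ∨ e = 1 / 2 ∨ e = 3 / 2) (i : ℕ) : |Ring.choose e i| ≤ 2 := by
  have key : ∀ i : ℕ, |Ring.choose e i| ≤ 3 / 2 := by
    intro i
    induction i with
    | zero => rw [Ring.choose_zero_right]; norm_num
    | succ n ih =>
      rcases Nat.eq_zero_or_pos n with h0 | h0
      · subst h0
        rw [zero_add, Ring.choose_one_right]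
        rcases he with h | h | h <;> rw [h] <;> norm_num [abs_le]
      · have h1 := bsn_choose_succ e n
        have hn : (1 : ℝ) ≤ n := by exact_mod_cast h0
        have h2 : |e - n| ≤ n + 1 := by
          rw [abs_le]
          rcases he with h | h | h <;> rw [h] <;> constructor <;> linarith
        have h3 : ((n : ℝ) + 1) * |Ring.choose e (n + 1)| ≤ ((n : ℝ) + 1) * (3 / 2) := by
          have h4 : |((n : ℝ) + 1) * Ring.choose e (n + 1)| =
              ((n : ℝ) + 1) * |Ring.choose e (n + 1)| := by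
            rw [abs_mul, abs_of_nonneg (by positivity : (0 : ℝ) ≤ (n : ℝ) + 1)]
          rw [← h4, h1, abs_mul]
          exact mul_le_mul h2 ih (abs_nonneg _) (by positivity)
        exact le_of_mul_le_mul_left h3 (by positivity)
  exact (key i).trans (by norm_num)

private theorem bsn_pow_le {G : ℝ[X]} {R : ℝ} (hR : 1 ≤ R) (h : nm G ≤ R) {i d : ℕ} (hi : i ≤ d) :
    nm (G ^ i) ≤ R ^ d :=
  (nm_pow_le G i).trans ((pow_le_pow_left₀ (nm_nonneg G) h i).trans (pow_le_pow_right₀ hR hi))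

/-- Lipschitz bound for powers -/
private theorem bsn_pow_lip {G G' : ℝ[X]} {R : ℝ} (hR : 1 ≤ R) (h : nm G ≤ R) (h' : nm G' ≤ R)
    (i : ℕ) : nm (G ^ i - G' ^ i) ≤ i * R ^ i * nm (G - G') := by
  have hδ := nm_nonneg (G - G')
  have hR0 : 0 ≤ R := by linarith
  induction i with
  | zero => simp [nm_zero]
  | succ i ih =>
    have e1 : G ^ (i + 1) - G' ^ (i + 1) = G ^ i * (G - G') + (G ^ i - G' ^ i) * G' := by ring
    rw [e1]
    refine (nm_add_le _ _).trans ?_
    have h1 : nm (G ^ i * (G - G')) ≤ R ^ i * nm (G - G') :=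
      (nm_mul_le _ _).trans (mul_le_mul_of_nonneg_right (bsn_pow_le hR h le_rfl) hδ)
    have h2 : nm ((G ^ i - G' ^ i) * G') ≤ (i * R ^ i * nm (G - G')) * R :=
      (nm_mul_le _ _).trans (mul_le_mul ih h' (nm_nonneg _) (by positivity))
    have h3 : R ^ i * nm (G - G') ≤ R ^ (i + 1) * nm (G - G') :=
      mul_le_mul_of_nonneg_right (pow_le_pow_right₀ hR (by omega)) hδ
    have h4 : (i * R ^ i * nm (G - G')) * R = i * (R ^ (i + 1) * nm (G - G')) := by ring
    push_cast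
    have h5 : ((i : ℝ) + 1) * R ^ (i + 1) * nm (G - G') =
        R ^ (i + 1) * nm (G - G') + i * (R ^ (i + 1) * nm (G - G')) := by ring
    rw [h5]
    linarith

theorem bser_nm (e : ℝ) (he : e = -1 / 2 ∨ e = 1 / 2 ∨ e = 3 / 2) (d : ℕ) (P : ℝ[X]) (R : ℝ) (hR : 1 ≤ R)
    (h : nm (P - 1) ≤ R) : nm (bser e d P) ≤ 2 * (d + 1) * R ^ d := by
  unfold bser
  refine (nm_sum_le _ _).trans ?_
  calc ∑ i ∈ range (d + 1), nm (C (Ring.choose e i) * (P - 1) ^ i)
      ≤ ∑ i ∈ range (d + 1), 2 * R ^ d := by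
        apply Finset.sum_le_sum
        intro i hi
        rw [mem_range] at hi
        rw [nm_C_mul]
        exact mul_le_mul (choose_le e he i) (bsn_pow_le hR h (by omega)) (nm_nonneg _) (by norm_num)
    _ = 2 * (d + 1) * R ^ d := by
        rw [Finset.sum_const, card_range, nsmul_eq_mul]; push_cast; ring

/-- Lipschitz bound for `bser` -/
private theorem bser_lip (e : ℝ) (he : e = -1 / 2 ∨ e = 1 / 2 ∨ e = 3 / 2) (d : ℕ) (P Q : ℝ[X])
    (R : ℝ) (hR : 1 ≤ R) (h : nm (P - 1) ≤ R) (h' : nm (Q - 1) ≤ R) :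
    nm (bser e d P - bser e d Q) ≤ 2 * (d + 1) ^ 2 * R ^ d * nm (P - Q) := by
  have hR0 : 0 ≤ R := by linarith
  have hδ := nm_nonneg (P - Q)
  have e1 : bser e d P - bser e d Q =
      ∑ i ∈ range (d + 1), C (Ring.choose e i) * ((P - 1) ^ i - (Q - 1) ^ i) := by
    unfold bser
    rw [← Finset.sum_sub_distrib]
    apply Finset.sum_congr rfl
    intro i _
    ring
  rw [e1]
  refine (nm_sum_le _ _).trans ?_
  calc ∑ i ∈ range (d + 1), nm (C (Ring.choose e i) * ((P - 1) ^ i - (Q - 1) ^ i))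
      ≤ ∑ i ∈ range (d + 1), 2 * ((d + 1) * R ^ d * nm (P - Q)) := by
        apply Finset.sum_le_sum
        intro i hi
        rw [mem_range] at hi
        rw [nm_C_mul]
        apply mul_le_mul (choose_le e he i) _ (nm_nonneg _) (by norm_num)
        refine (bsn_pow_lip hR h h' i).trans ?_
        have e2 : P - 1 - (Q - 1) = P - Q := by ring
        rw [e2]
        apply mul_le_mul_of_nonneg_right _ hδ
        apply mul_le_mul
        · have : (i : ℝ) ≤ d := by exact_mod_cast Nat.lt_succ_iff.1 hi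
          linarith
        · exact pow_le_pow_right₀ hR (by omega)
        · positivity
        · positivity
    _ = 2 * (d + 1) ^ 2 * R ^ d * nm (P - Q) := by
        rw [Finset.sum_const, card_range, nsmul_eq_mul]; push_cast; ring

private theorem ex_cases (b : Bool) :
    (ex b = -1 / 2 ∨ ex b = 1 / 2 ∨ ex b = 3 / 2) ∧
      (ex b - 1 = -1 / 2 ∨ ex b - 1 = 1 / 2 ∨ ex b - 1 = 3 / 2) ∧ |ex b| ≤ 3 / 2 := by
  unfold ex
  cases b
  · refine ⟨Or.inr (Or.inl (by norm_num)), Or.inl (by norm_num), ?_⟩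
    norm_num [abs_le]
  · refine ⟨Or.inr (Or.inr (by norm_num)), Or.inr (Or.inl (by norm_num)), ?_⟩
    norm_num [abs_le]

theorem bs_nm (w : ℕ → Bool) (j : ℕ) (P : ℝ[X]) (R : ℝ) (hR : 1 ≤ R) (h : nm (P - 1) ≤ R) :
    nm (bs w j P) ≤ 2 * (dq w (j + 1) + 1) * R ^ dq w (j + 1) :=
  (nm_trunc_le _ _).trans (bser_nm _ (ex_cases (w j)).1 _ P R hR h)

theorem bs_lip (w : ℕ → Bool) (j : ℕ) (P Q : ℝ[X]) (R : ℝ) (hR : 1 ≤ R) (h : nm (P - 1) ≤ R)
    (h' : nm (Q - 1) ≤ R) :
    nm (bs w j P - bs w j Q) ≤ 2 * (dq w (j + 1) + 1) ^ 2 * R ^ dq w (j + 1) * nm (P - Q) := by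
  unfold bs
  rw [← trunc_sub]
  exact (nm_trunc_le _ _).trans (bser_lip _ (ex_cases (w j)).1 _ P Q R hR h h')

theorem dbs_nm (w : ℕ → Bool) (j : ℕ) (P D : ℝ[X]) (R : ℝ) (hR : 1 ≤ R) (h : nm (P - 1) ≤ R) :
    nm (dbs w j P D) ≤ 3 * (dq w (j + 1) + 1) * R ^ dq w (j + 1) * nm D := by
  unfold dbs
  refine (nm_trunc_le _ _).trans ?_
  refine (nm_mul_le _ _).trans ?_
  apply mul_le_mul_of_nonneg_right _ (nm_nonneg D)
  rw [nm_C_mul]
  have hR0 : 0 ≤ R := by linarith
  calc |ex (w j)| * nm (bser (ex (w j) - 1) (dq w (j + 1)) P)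
      ≤ 3 / 2 * (2 * (dq w (j + 1) + 1) * R ^ dq w (j + 1)) :=
        mul_le_mul (ex_cases (w j)).2.2 (bser_nm _ (ex_cases (w j)).2.1 _ P R hR h) (nm_nonneg _)
          (by norm_num)
    _ = 3 * (dq w (j + 1) + 1) * R ^ dq w (j + 1) := by ring

theorem dbs_lip (w : ℕ → Bool) (j : ℕ) (P Q D : ℝ[X]) (R : ℝ) (hR : 1 ≤ R) (h : nm (P - 1) ≤ R)
    (h' : nm (Q - 1) ≤ R) :
    nm (dbs w j P D - dbs w j Q D) ≤
      3 * (dq w (j + 1) + 1) ^ 2 * R ^ dq w (j + 1) * nm (P - Q) * nm D := by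
  unfold dbs
  rw [← trunc_sub]
  refine (nm_trunc_le _ _).trans ?_
  have e1 : C (ex (w j)) * bser (ex (w j) - 1) (dq w (j + 1)) P * D -
      C (ex (w j)) * bser (ex (w j) - 1) (dq w (j + 1)) Q * D =
      C (ex (w j)) * (bser (ex (w j) - 1) (dq w (j + 1)) P -
        bser (ex (w j) - 1) (dq w (j + 1)) Q) * D := by ring
  rw [e1]
  refine (nm_mul_le _ _).trans ?_
  apply mul_le_mul_of_nonneg_right _ (nm_nonneg D)
  rw [nm_C_mul]
  have hR0 : 0 ≤ R := by linarith
  calc |ex (w j)| * nm (bser (ex (w j) - 1) (dq w (j + 1)) P -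
        bser (ex (w j) - 1) (dq w (j + 1)) Q)
      ≤ 3 / 2 * (2 * (dq w (j + 1) + 1) ^ 2 * R ^ dq w (j + 1) * nm (P - Q)) :=
        mul_le_mul (ex_cases (w j)).2.2 (bser_lip _ (ex_cases (w j)).2.1 _ P Q R hR h h')
          (nm_nonneg _) (by norm_num)
    _ = 3 * (dq w (j + 1) + 1) ^ 2 * R ^ dq w (j + 1) * nm (P - Q) := by ring

theorem dbs_add (w : ℕ → Bool) (j : ℕ) (P D E : ℝ[X]) :
    dbs w j P (D + E) = dbs w j P D + dbs w j P E := by
  unfold dbs
  rw [← trunc_add, mul_add]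

theorem dbs_smul (w : ℕ → Bool) (j : ℕ) (P D : ℝ[X]) (a : ℝ) :
    dbs w j P (C a * D) = C a * dbs w j P D := by
  ext r
  have e1 : C (ex (w j)) * bser (ex (w j) - 1) (dq w (j + 1)) P * (C a * D) =
      C a * (C (ex (w j)) * bser (ex (w j) - 1) (dq w (j + 1)) P * D) := by ring
  unfold dbs
  rw [e1, coeff_C_mul, trunc_coeff, trunc_coeff]
  split_ifs
  · rw [coeff_C_mul]
  · rw [mul_zero]

/-- second order remainder of a power -/
private theorem bsn_pow_quad {G D : ℝ[X]} {R : ℝ} (hR : 1 ≤ R) (h : nm G ≤ R) (h' : nm (G + D) ≤ R)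
    (i : ℕ) : nm ((G + D) ^ i - G ^ i - C (i : ℝ) * G ^ (i - 1) * D) ≤ i ^ 2 * R ^ i * nm D ^ 2 := by
  have hR0 : 0 ≤ R := by linarith
  have hδ := nm_nonneg D
  induction i with
  | zero => simp [nm_zero]
  | succ i ih =>
    have e1 : (G + D) ^ (i + 1) - G ^ (i + 1) - C ((i + 1 : ℕ) : ℝ) * G ^ (i + 1 - 1) * D =
        (G + D) * ((G + D) ^ i - G ^ i - C (i : ℝ) * G ^ (i - 1) * D) +
          C (i : ℝ) * (G ^ (i - 1) * D ^ 2) := by
      have hc : C ((i + 1 : ℕ) : ℝ) = C (i : ℝ) + 1 := by push_cast; rw [C_add, C_1]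
      rw [hc, Nat.add_sub_cancel]
      rcases Nat.eq_zero_or_pos i with h0 | h0
      · subst h0
        simp
      · obtain ⟨m, rfl⟩ : ∃ m, i = m + 1 := ⟨i - 1, by omega⟩
        rw [Nat.add_sub_cancel]
        ring
    rw [e1]
    refine (nm_add_le _ _).trans ?_
    have h1 : nm ((G + D) * ((G + D) ^ i - G ^ i - C (i : ℝ) * G ^ (i - 1) * D)) ≤
        R * (i ^ 2 * R ^ i * nm D ^ 2) :=
      (nm_mul_le _ _).trans (mul_le_mul h' ih (nm_nonneg _) hR0)
    have h2 : nm (C (i : ℝ) * (G ^ (i - 1) * D ^ 2)) ≤ i * (R ^ (i + 1) * nm D ^ 2) := by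
      rw [nm_C_mul, abs_of_nonneg (by positivity : (0 : ℝ) ≤ i)]
      apply mul_le_mul_of_nonneg_left _ (by positivity)
      exact (nm_mul_le _ _).trans (mul_le_mul (bsn_pow_le hR h (by omega)) (nm_pow_le D 2)
        (nm_nonneg _) (by positivity))
    have h3 : R * (i ^ 2 * R ^ i * nm D ^ 2) = i ^ 2 * (R ^ (i + 1) * nm D ^ 2) := by ring
    rw [h3] at h1
    have h4 : 0 ≤ R ^ (i + 1) * nm D ^ 2 := by positivity
    have hi : (0 : ℝ) ≤ i := by positivity
    push_cast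
    nlinarith

/-- `bser` is differentiable up to the last term -/
private theorem bser_quad_eq (e : ℝ) (d : ℕ) (P D : ℝ[X]) :
    bser e d (P + D) - bser e d P - C e * bser (e - 1) d P * D =
      ∑ i ∈ range (d + 1), C (Ring.choose e i) *
        ((P - 1 + D) ^ i - (P - 1) ^ i - C (i : ℝ) * (P - 1) ^ (i - 1) * D) -
      C (e * Ring.choose (e - 1) d) * ((P - 1) ^ d * D) := by
  have e1 : ∑ i ∈ range (d + 1), C (Ring.choose e i) * (C (i : ℝ) * (P - 1) ^ (i - 1) * D) =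
      C e * bser (e - 1) d P * D - C (e * Ring.choose (e - 1) d) * ((P - 1) ^ d * D) := by
    rw [Finset.sum_range_succ']
    simp only [Nat.cast_zero, C_0, zero_mul, mul_zero, add_zero, Nat.add_sub_cancel]
    unfold bser
    rw [Finset.sum_range_succ, mul_add, add_mul, C_mul]
    have e2 : C e * (C (Ring.choose (e - 1) d) * (P - 1) ^ d) * D =
        C e * C (Ring.choose (e - 1) d) * ((P - 1) ^ d * D) := by ring
    rw [e2, add_sub_cancel_right, Finset.mul_sum, Finset.sum_mul]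
    apply Finset.sum_congr rfl
    intro i _
    have e3 := bsn_choose_absorb e i
    have e4 : C (Ring.choose e (i + 1)) * (C ((i + 1 : ℕ) : ℝ) * (P - 1) ^ i * D) =
        C (((i : ℝ) + 1) * Ring.choose e (i + 1)) * ((P - 1) ^ i * D) := by
      rw [C_mul]; push_cast; ring
    rw [e4, e3, C_mul]
    ring
  have e5 : bser e d (P + D) - bser e d P =
      ∑ i ∈ range (d + 1), C (Ring.choose e i) * ((P - 1 + D) ^ i - (P - 1) ^ i) := by
    unfold bser
    rw [← Finset.sum_sub_distrib]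
    apply Finset.sum_congr rfl
    intro i _
    have : P + D - 1 = P - 1 + D := by ring
    rw [this]
    ring
  rw [e5]
  have e6 : ∑ i ∈ range (d + 1), C (Ring.choose e i) *
        ((P - 1 + D) ^ i - (P - 1) ^ i - C (i : ℝ) * (P - 1) ^ (i - 1) * D) =
      ∑ i ∈ range (d + 1), C (Ring.choose e i) * ((P - 1 + D) ^ i - (P - 1) ^ i) -
      ∑ i ∈ range (d + 1), C (Ring.choose e i) * (C (i : ℝ) * (P - 1) ^ (i - 1) * D) := by
    rw [← Finset.sum_sub_distrib]
    apply Finset.sum_congr rfl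
    intro i _
    ring
  rw [e6, e1]
  ring

theorem bs_quad (w : ℕ → Bool) (j : ℕ) (P D : ℝ[X]) (h0 : P.coeff 0 = 1) (hD : D.coeff 0 = 0) (R : ℝ)
    (hR : 1 ≤ R) (h : nm (P - 1) ≤ R) (h' : nm (P + D - 1) ≤ R) :
    nm (bs w j (P + D) - bs w j P - dbs w j P D) ≤
      4 * (dq w (j + 1) + 1) ^ 3 * R ^ dq w (j + 1) * nm D ^ 2 := by
  have hR0 : 0 ≤ R := by linarith
  set d := dq w (j + 1) with hd
  set e := ex (w j) with he
  have hcase := ex_cases (w j)
  rw [← he] at hcase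
  have e0 : bs w j (P + D) - bs w j P - dbs w j P D =
      trunc d (bser e d (P + D) - bser e d P - C e * bser (e - 1) d P * D) := by
    rw [trunc_sub, trunc_sub]
    rfl
  have hkill : trunc d (C (e * Ring.choose (e - 1) d) * ((P - 1) ^ d * D)) = 0 := by
    ext r
    rw [trunc_coeff, coeff_zero]
    split_ifs with hr
    · have h1 : X ∣ (P - 1) := by rw [X_dvd_iff]; simp [h0]
      have h2 : X ∣ D := by rw [X_dvd_iff]; exact hD
      have h3 : X ^ (d + 1) ∣ (P - 1) ^ d * D := by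
        rw [pow_succ]
        exact mul_dvd_mul (pow_dvd_pow_of_dvd h1 d) h2
      rw [X_pow_dvd_iff] at h3
      rw [coeff_C_mul, h3 r (by omega), mul_zero]
    · rfl
  rw [e0, bser_quad_eq, trunc_sub, hkill, sub_zero]
  refine (nm_trunc_le _ _).trans ((nm_sum_le _ _).trans ?_)
  have e7 : P - 1 + D = P + D - 1 := by ring
  calc ∑ i ∈ range (d + 1), nm (C (Ring.choose e i) *
        ((P - 1 + D) ^ i - (P - 1) ^ i - C (i : ℝ) * (P - 1) ^ (i - 1) * D))
      ≤ ∑ i ∈ range (d + 1), 2 * ((d + 1) ^ 2 * R ^ d * nm D ^ 2) := by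
        apply Finset.sum_le_sum
        intro i hi
        rw [mem_range] at hi
        rw [nm_C_mul]
        apply mul_le_mul (choose_le e hcase.1 i) _ (nm_nonneg _) (by norm_num)
        refine (bsn_pow_quad hR h (by rw [e7]; exact h') i).trans ?_
        apply mul_le_mul_of_nonneg_right _ (by positivity)
        apply mul_le_mul
        · apply pow_le_pow_left₀ (by positivity)
          have : (i : ℝ) ≤ d := by exact_mod_cast Nat.lt_succ_iff.1 hi
          linarith
        · exact pow_le_pow_right₀ hR (by omega)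
        · positivity
        · positivity
    _ = 2 * ((d + 1) ^ 3 * R ^ d * nm D ^ 2) := by
        rw [Finset.sum_const, card_range, nsmul_eq_mul]; push_cast; ring
    _ ≤ 4 * (d + 1) ^ 3 * R ^ d * nm D ^ 2 := by
        have : 0 ≤ ((d : ℝ) + 1) ^ 3 * R ^ d * nm D ^ 2 := by positivity
        linarith

/-- `trunc` commutes with scaling -/
private theorem trunc_scale (d : ℕ) (P : ℝ[X]) (a : ℝ) :
    trunc d (P.comp (C a * X)) = (trunc d P).comp (C a * X) := by
  ext r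
  rw [trunc_coeff, coeff_scale, coeff_scale, trunc_coeff]
  split_ifs
  · rfl
  · rw [mul_zero]

private theorem bser_scale (e : ℝ) (d : ℕ) (P : ℝ[X]) (a : ℝ) :
    bser e d (P.comp (C a * X)) = (bser e d P).comp (C a * X) := by
  unfold bser
  rw [Polynomial.sum_comp]
  apply Finset.sum_congr rfl
  intro i _
  rw [mul_comp, C_comp, pow_comp, sub_comp, one_comp]

theorem bs_scale (w : ℕ → Bool) (j : ℕ) (P : ℝ[X]) (a : ℝ) :
    bs w j (P.comp (C a * X)) = (bs w j P).comp (C a * X) := by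
  unfold bs
  rw [bser_scale, trunc_scale]

theorem dbs_scale (w : ℕ → Bool) (j : ℕ) (P D : ℝ[X]) (a : ℝ) :
    dbs w j (P.comp (C a * X)) (D.comp (C a * X)) = (dbs w j P D).comp (C a * X) := by
  unfold dbs
  rw [bser_scale, ← trunc_scale, mul_comp, mul_comp, C_comp]

theorem bs_coeff_zero (w : ℕ → Bool) (j : ℕ) (P : ℝ[X]) (h0 : P.coeff 0 = 1) : (bs w j P).coeff 0 = 1 := by
  unfold bs
  rw [trunc_coeff, if_pos (Nat.zero_le _), bser_coeff_zero _ _ h0]

theorem dbs_coeff_zero (w : ℕ → Bool) (j : ℕ) (P D : ℝ[X]) (hD : D.coeff 0 = 0) :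
    (dbs w j P D).coeff 0 = 0 := by
  unfold dbs
  rw [trunc_coeff, if_pos (Nat.zero_le _), mul_coeff_zero, hD, mul_zero]

theorem bs_natDegree (w : ℕ → Bool) (j : ℕ) (P : ℝ[X]) : (bs w j P).natDegree ≤ dq w (j + 1) :=
  trunc_natDegree _ _

theorem dbs_natDegree (w : ℕ → Bool) (j : ℕ) (P D : ℝ[X]) : (dbs w j P D).natDegree ≤ dq w (j + 1) :=
  trunc_natDegree _ _

end Pool.Agent.Work.MP_215640_nt.Q
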