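import Pool.Agent.Work.MP_215640_nt.Q.Step
import Pool.Agent.Work.MP_215640_nt.Q.Congr
import Pool.Agent.Work.MP_215640_nt.Q.Tri
import Pool.Agent.Work.MP_215640_nt.Q.K2L

/-!
MODULE CHILD. One child of a node: hypothesis `h5` of `sum_lem`.
-/

set_option autoImplicit false

namespace Pool.Agent.Work.MP_215640_nt.Q

open Finset Polynomial

/-- the averaging argument: `h` is nearly constant, the rest has a known average -/
private theorem child_avg (M' : ℕ) (hM' : 0 < M') (h g : ℕ → ℝ) (h0 c E μ : ℝ)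
    (hh0 : 0 ≤ h0) (hh1 : h0 ≤ 1) (hg0 : ∀ v < M', 0 ≤ g v) (hg1 : ∀ v < M', g v ≤ 1)
    (hc : ∀ v < M', |h v - h0| ≤ c)
    (hE : h0 = 0 ∨ |(1 / (M' : ℝ)) * ∑ v ∈ range M', g v - μ| ≤ E) (hE0 : 0 ≤ E) :
    |(1 / (M' : ℝ)) * ∑ v ∈ range M', h v * g v - h0 * μ| ≤ c + E := by
  have hMr : (0 : ℝ) < M' := by exact_mod_cast hM'
  have h1 : |(1 / (M' : ℝ)) * ∑ v ∈ range M', (h v - h0) * g v| ≤ c := by
    rw [abs_mul, abs_of_pos (by positivity : (0 : ℝ) < 1 / (M' : ℝ))]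
    have h2 : |∑ v ∈ range M', (h v - h0) * g v| ≤ M' * c := by
      calc |∑ v ∈ range M', (h v - h0) * g v| ≤ ∑ v ∈ range M', |(h v - h0) * g v| :=
            Finset.abs_sum_le_sum_abs _ _
        _ ≤ ∑ v ∈ range M', c := by
            refine Finset.sum_le_sum fun v hv => ?_
            have hv' := Finset.mem_range.mp hv
            rw [abs_mul, abs_of_nonneg (hg0 v hv')]
            calc |h v - h0| * g v ≤ c * 1 :=
                  mul_le_mul (hc v hv') (hg1 v hv') (hg0 v hv')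
                    ((abs_nonneg _).trans (hc v hv'))
              _ = c := mul_one c
        _ = M' * c := by simp
    calc 1 / (M' : ℝ) * |∑ v ∈ range M', (h v - h0) * g v| ≤ 1 / (M' : ℝ) * (M' * c) :=
          mul_le_mul_of_nonneg_left h2 (by positivity)
      _ = c := by field_simp
  have e : (1 / (M' : ℝ)) * ∑ v ∈ range M', h v * g v - h0 * μ =
      (1 / (M' : ℝ)) * ∑ v ∈ range M', (h v - h0) * g v +
        h0 * ((1 / (M' : ℝ)) * ∑ v ∈ range M', g v - μ) := by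
    have e1 : ∑ v ∈ range M', (h v - h0) * g v =
        ∑ v ∈ range M', h v * g v - h0 * ∑ v ∈ range M', g v := by
      rw [Finset.mul_sum, ← Finset.sum_sub_distrib]
      exact Finset.sum_congr rfl fun v _ => by ring
    rw [e1]
    ring
  rw [e]
  refine (abs_add_le _ _).trans (add_le_add h1 ?_)
  rcases hE with hE | hE
  · rw [hE, zero_mul, abs_zero]
    exact hE0
  · rw [abs_mul, abs_of_nonneg hh0]
    calc h0 * |(1 / (M' : ℝ)) * ∑ v ∈ range M', g v - μ| ≤ 1 * E :=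
          mul_le_mul hh1 hE (abs_nonneg _) zero_le_one
      _ = E := one_mul E

private theorem pq_le (q : ℕ → ℕ) (B : ℕ) (hq : ∀ i, q i ≤ B) (l : ℕ) : pq q l ≤ B ^ l := by
  unfold pq
  calc ∏ i ∈ range l, q i ≤ ∏ _i ∈ range l, B := Finset.prod_le_prod' fun i _ => hq i
    _ = B ^ l := by simp

theorem child : ∃ c : ℕ, ∀ k : ℕ, 1 ≤ k → ∀ w : ℕ → Bool, Pos w k → ∀ m : ℕ, 8 ≤ m → ∀ M : ℕ, M = m ^ 4 →
    (2 : ℝ) ^ K2 c k ≤ M → ∀ N : ℕ, (M : ℝ) ^ K2 c k ≤ N → ∀ (H : ℕ → ℝ → ℝ) (μ : ℕ → ℝ),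
    (∀ i, 1 ≤ i → i < k → Test (H i) (μ i) m ∧ 0 ≤ μ i ∧ μ i ≤ 1) → ∀ n0 : ℕ, N ≤ n0 → n0 < 2 * N →
    ∀ j, j + 1 < k → ∀ e : ℝ, 0 ≤ e → TreeClaim w k M N n0 H μ (j + 1) e →
    ∀ q : ℕ → ℕ, q 0 = 2 → (∀ i, 1 ≤ q i ∧ q i ≤ BB k M) → ∀ n : ℕ, n0 ≤ n → n ≤ n0 + j * BB k M ^ (k + 1) →
    ∀ Z : ℝ[X], Val w q (kaj k N j) (2 * Ml k M j) n j Z → ¬ Bad w k M n0 (j + 1) q →
    ∀ u < Ml k M j, ∀ t : ℕ, 1 ≤ t → t ≤ Ml k M (j + 1) ^ (2 ^ k) ^ 16 →
    wt 1 (dq w (j + 1)) (Ml k M (j + 1)) (hp w n j Z) u t ≠ 0 →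
    |(1 / (Ml k M (j + 1) : ℝ)) * ∑ v ∈ range (Ml k M (j + 1)), ∏ i ∈ Ico (j + 1) k,
        H i (xx w i (n + pq q (j + 1) * (u + t * v)) / 2) -
      H (j + 1) (xx w (j + 1) (n + pq q (j + 1) * u) / 2) * ∏ i ∈ Ico (j + 2) k, μ i| ≤
      1 / (Ml k M (j + 1) : ℝ) + e + bd w k M n0 (k - 1 - (j + 1)) (Function.update q (j + 1) t) := by
  obtain ⟨c0, hstep⟩ := step
  refine ⟨c0 + 29, ?_⟩
  intro k hk w hw m hm M hM h2M N hMN H μ hH n0 hn0 hn0' j hjk e he htree q hq0 hq n hn hn' Z hZ hbad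
    u hu t ht ht' hwt
  have hM1 : 1 ≤ M := by rw [hM]; exact Nat.one_le_pow _ _ (by omega)
  have hmM : 2 * m ≤ M := by
    rw [hM]
    have h8 : 2 ≤ m ^ 3 := by
      calc 2 ≤ 8 ^ 3 := by norm_num
        _ ≤ m ^ 3 := Nat.pow_le_pow_left hm 3
    calc 2 * m ≤ m ^ 3 * m := Nat.mul_le_mul_right m h8
      _ = m ^ 4 := by ring
  obtain ⟨M', hM'⟩ : ∃ M', Ml k M (j + 1) = M' := ⟨_, rfl⟩
  have hMM' : M ≤ M' := by rw [← hM']; exact M_le_Ml hM1
  have hMl : Ml k M j = M' ^ (2 ^ k) ^ 27 := by rw [← hM']; exact Ml_succ hjk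
  have hMlB : Ml k M j ≤ BB k M := Ml_le_BB M j hM1
  have hM'B : M' ≤ BB k M := by rw [← hM']; exact Ml_le_BB M (j + 1) hM1
  have htB : t ≤ BB k M := ht'.trans (Ml_pow_le_BB hjk hM1 (by norm_num))
  rw [hM'] at ht' hwt ⊢
  have hM'2 : 2 ≤ M' := by omega
  have hB2 : 2 ≤ BB k M := hM'2.trans hM'B
  have hkB : k ≤ BB k M := by
    rw [BB_eq]
    have h1 : k ≤ K2 27 k := (le_K2 hk).trans (K2_mono k (by norm_num))
    calc k ≤ K2 27 k := h1
      _ ≤ 2 ^ K2 27 k := Nat.lt_two_pow_self.le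
      _ ≤ M ^ K2 27 k := Nat.pow_le_pow_left (by omega) _
  have hBX : BB k M ^ (k + 2) ≤ XX k M := by
    unfold XX
    exact Nat.pow_le_pow_right (by omega) (by omega)
  have hBX1 : BB k M ≤ XX k M := le_trans (Nat.le_self_pow (by omega) _) hBX
  have hBX2 : 2 * BB k M ≤ XX k M := by
    calc 2 * BB k M ≤ BB k M * BB k M := Nat.mul_le_mul_right _ hB2
      _ = BB k M ^ 2 := by ring
      _ ≤ BB k M ^ (k + 2) := Nat.pow_le_pow_right (by omega) (by omega)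
      _ ≤ XX k M := hBX
  set q' : ℕ → ℕ := Function.update q (j + 1) t with hq'
  have hq'j : q' (j + 1) = t := by rw [hq']; exact Function.update_self _ _ _
  have hq'i : ∀ i ≤ j, q i = q' i := by
    intro i hi
    rw [hq', Function.update_of_ne (by omega)]
  have hq'0 : q' 0 = 2 := by rw [← hq'i 0 (by omega), hq0]
  have hq'B : ∀ i, 1 ≤ q' i ∧ q' i ≤ BB k M := by
    intro i
    by_cases hi : i = j + 1
    · rw [hi, hq'j]; exact ⟨ht, htB⟩
    · rw [hq', Function.update_of_ne hi]; exact hq i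
  have hpq1 : pq q' (j + 1) = pq q (j + 1) := (pq_congr q q' (j + 1) fun i hi => hq'i i (by omega)).symm
  have hpq2 : pq q' (j + 2) = pq q (j + 1) * t := by
    unfold pq
    rw [Finset.prod_range_succ, hq'j]
    congr 1
  -- the position
  have hpos : pq q (j + 1) * u ≤ BB k M ^ (k + 1) := by
    calc pq q (j + 1) * u ≤ BB k M ^ (j + 1) * BB k M :=
          Nat.mul_le_mul (pq_le q _ (fun i => (hq i).2) _) (hu.le.trans hMlB)
      _ = BB k M ^ (j + 2) := by ring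
      _ ≤ BB k M ^ (k + 1) := Nat.pow_le_pow_right (by omega) (by omega)
  have hpos' : n + pq q (j + 1) * u ≤ n0 + (j + 1) * BB k M ^ (k + 1) := by
    rw [Nat.add_mul, Nat.one_mul]
    omega
  have hpos'' : n + pq q (j + 1) * u ≤ n0 + XX k M := by
    refine hpos'.trans (Nat.add_le_add_left ?_ _)
    calc (j + 1) * BB k M ^ (k + 1) ≤ BB k M * BB k M ^ (k + 1) :=
          Nat.mul_le_mul_right _ (by omega)
      _ = BB k M ^ (k + 2) := by ring
      _ ≤ XX k M := hBX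
  have hL : u + q' (j + 1) * (2 * M') ≤ 2 * Ml k M j := by
    rw [hq'j]
    have h1 : t * (2 * M') ≤ Ml k M j := by
      calc t * (2 * M') ≤ M' ^ (2 ^ k) ^ 16 * (M' * M') :=
            Nat.mul_le_mul ht' (Nat.mul_le_mul_right _ hM'2)
        _ = M' ^ ((2 ^ k) ^ 16 + 2) := by ring
        _ ≤ M' ^ (2 ^ k) ^ 27 := by
            apply Nat.pow_le_pow_right (by omega)
            have h2 : 2 ≤ (2 ^ k : ℕ) := by
              calc 2 = 2 ^ 1 := by norm_num
                _ ≤ 2 ^ k := Nat.pow_le_pow_right (by norm_num) hk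
            have h3 : 1 ≤ ((2 ^ k) ^ 16 : ℕ) := Nat.one_le_pow _ _ (by omega)
            have h4 : 2 ^ 11 ≤ ((2 ^ k) ^ 11 : ℕ) := Nat.pow_le_pow_left h2 11
            calc (2 ^ k) ^ 16 + 2 ≤ (2 ^ k) ^ 16 * 2 ^ 11 := by omega
              _ ≤ (2 ^ k) ^ 16 * (2 ^ k) ^ 11 := Nat.mul_le_mul_left _ h4
              _ = (2 ^ k) ^ 27 := by ring
        _ = Ml k M j := hMl.symm
    omega
  have hnj : NJ w q n0 j (XX k M : ℕ) := by
    have h1 : ¬ ¬ NJ w q n0 (j + 1 - 1) (XX k M) := fun h => hbad (Or.inr h)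
    exact not_not.mp h1
  -- the smoothness of the step
  have hM'r : (0 : ℝ) < M' := by exact_mod_cast (by omega : 0 < M')
  have hdI : ∀ r, 1 ≤ r → r ≤ dq w (j + 1) →
      dI ((q' (j + 1) : ℝ) ^ r * tcf (hp w n j Z) u r) < 1 / (M' : ℝ) ^ (3 * r + 3) := by
    intro r hr1 hr2
    rw [hq'j]
    have hτ : 0 < 1 / (M' : ℝ) ^ (3 * r + 3) := by positivity
    apply dI_lt_of_tri hτ
    unfold wt at hwt
    exact Finset.prod_ne_zero_iff.mp hwt r (Finset.mem_Icc.mpr ⟨hr1, hr2⟩)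
  obtain ⟨hS1, hS2⟩ := hstep k hk w hw (XX k M) (hB2.trans hBX1) q'
    (fun i => ⟨(hq'B i).1, (hq'B i).2.trans hBX1⟩) N (XX_pow_le hk hM1 hMN) n0 n hn0 hn0'.le hn j hjk
    (2 * Ml k M j) Z ((Nat.mul_le_mul_left 2 hMlB).trans hBX2) (Val_congr w q q' _ _ _ _ _ hq'i hZ)
    (NJ_congr w q q' _ _ _ hq'i hnj) M' (by omega) (hM'B.trans hBX1) u hL
    (by rw [hpq1]; exact hpos'') hdI
  rw [hpq1] at hS1 hS2
  -- the test functions
  have hTest : ∀ i, j + 1 ≤ i → i < k → Test (H i) (μ i) m := fun i h1 h2 => (hH i (by omega) h2).1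
  have hm0 : (0 : ℝ) < m := by exact_mod_cast (by omega : 0 < m)
  have hmr : 2 * (m : ℝ) ≤ M' := by exact_mod_cast hmM.trans hMM'
  have hmr8 : (8 : ℝ) ≤ m := by exact_mod_cast hm
  set h : ℕ → ℝ := fun v => H (j + 1) (xx w (j + 1) (n + pq q (j + 1) * (u + t * v)) / 2) with hh
  set g : ℕ → ℝ := fun v => ∏ i ∈ Ico (j + 2) k, H i (xx w i (n + pq q (j + 1) * (u + t * v)) / 2)
    with hg
  have hprod : ∀ v, ∏ i ∈ Ico (j + 1) k, H i (xx w i (n + pq q (j + 1) * (u + t * v)) / 2) =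
      h v * g v := by
    intro v
    rw [Finset.prod_eq_prod_Ico_succ_bot hjk]
  have harg : ∀ v, n + pq q (j + 1) * (u + t * v) =
      n + pq q (j + 1) * u + pq q' (j + 2) * v := by
    intro v
    rw [hpq2]
    ring
  have hg0 : ∀ v < M', 0 ≤ g v := by
    intro v _
    refine Finset.prod_nonneg fun i hi => ?_
    have hi' := Finset.mem_Ico.mp hi
    exact (hTest i (by omega) hi'.2).nonneg _
  have hg1 : ∀ v < M', g v ≤ 1 := by
    intro v _
    refine Finset.prod_le_one (fun i hi => ?_) fun i hi => ?_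
    · have hi' := Finset.mem_Ico.mp hi
      exact (hTest i (by omega) hi'.2).nonneg _
    · have hi' := Finset.mem_Ico.mp hi
      exact (hTest i (by omega) hi'.2).le_one _
  have hT := hTest (j + 1) le_rfl hjk
  have hc : ∀ v < M', |h v - H (j + 1) (xx w (j + 1) (n + pq q (j + 1) * u) / 2)| ≤
      1 / (2 * (M' : ℝ)) := by
    intro v hv
    refine (hT.lip _ _).trans ?_
    rw [harg v, ← sub_div]
    have h1 := hS1 v (by omega)
    calc (m : ℝ) * dI ((xx w (j + 1) (n + pq q (j + 1) * u + pq q' (j + 2) * v) -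
          xx w (j + 1) (n + pq q (j + 1) * u)) / 2) ≤ m * (1 / (M' : ℝ) ^ 2) :=
          mul_le_mul_of_nonneg_left h1 hm0.le
      _ ≤ (M' / 2) * (1 / (M' : ℝ) ^ 2) := by
          apply mul_le_mul_of_nonneg_right _ (by positivity)
          linarith
      _ = 1 / (2 * (M' : ℝ)) := by field_simp
  have hbd0 : 0 ≤ bd w k M n0 (k - 1 - (j + 1)) q' := bd_nonneg w k M n0 _ hM1 q'
  have hmain := child_avg M' (by omega) h g (H (j + 1) (xx w (j + 1) (n + pq q (j + 1) * u) / 2))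
    (1 / (2 * (M' : ℝ))) (e + bd w k M n0 (k - 1 - (j + 1)) q') (∏ i ∈ Ico (j + 2) k, μ i)
    (hT.nonneg _) (hT.le_one _) hg0 hg1 hc ?_ (add_nonneg he hbd0)
  · simp_rw [hprod]
    refine hmain.trans ?_
    have h1 : 1 / (2 * (M' : ℝ)) ≤ 1 / (M' : ℝ) :=
      one_div_le_one_div_of_le hM'r (by linarith)
    linarith
  · by_cases hcase : dI (xx w (j + 1) (n + pq q (j + 1) * u)) ≤ 1 / (m : ℝ)
    · left
      apply hT.supp
      rw [mul_div_cancel₀ _ (two_ne_zero)]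
      exact hcase
    · right
      push Not at hcase
      have h4 : 4 / (M' : ℝ) ^ 2 ≤ dI (xx w (j + 1) (n + pq q (j + 1) * u)) := by
        refine le_trans ?_ hcase.le
        rw [div_le_div_iff₀ (by positivity) hm0]
        nlinarith
      obtain ⟨Z', hZ'⟩ := hS2 h4
      have h5 := htree q' hq'0 hq'B (n + pq q (j + 1) * u) (by omega) hpos' Z' (by
        rw [hM']; exact hZ')
      rw [hM'] at h5
      have h6 : ∀ v, g v = ∏ i ∈ Ico (j + 1 + 1) k,
          H i (xx w i (n + pq q (j + 1) * u + pq q' (j + 1 + 1) * v) / 2) := by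
        intro v
        simp only [hg]
        rw [harg v]
      simp_rw [h6]
      exact h5

end Pool.Agent.Work.MP_215640_nt.Q
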