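import Pool.Agent.Work.MP_215640_nt.Q.Gq
import Pool.Agent.Work.MP_215640_nt.Q.K2L

/-!
MODULE CLOSE. The model polynomials are close to the scaled limits `(sg w j)(p X)`, `p = q 0 * ... * q j`.

Let `T = 2^k` and `δ_j = nm (al w q x j - (sg w j).comp (C p_j * X))`. `δ_0 = 0`. By `al_coeff_lt`, `al_coeff_top` (rounding changes the
top coefficient by at most `x^(-gq w (j+1)) ≤ x^(-1/2^k)`), `bs_scale`, `bs_lip` with `R = B^(k T) 2^(K2 c k) + 1 ≥ nm ((sg w j)(p_j X) - 1)`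
(plus 1 for the other polynomial as long as `δ_j ≤ 1`):
`δ_{j+1} ≤ B^T 2 (T+1)^2 R^T δ_j + x^(-1/2^k)`. After `k` steps `δ_j ≤ B^(K2 c' k) x^(-1/2^k)`, and `δ_j ≤ 1` follows from
`B^(K2 c k) ≤ x` for a large `c` (`2^k K2 c' k ≤ K2 c k`). Products of `k` factors `B^(K2 a k)` are `≤ B^(K2 (a+1) k)`, products
`K2 a k * K2 b k = K2 (a+b) k`, and polynomials in `2^k` are `≤ K2 a k`; constants like `2 (T+1)^2`, `2^(K2 c k)` are powers of `B ≥ 2`.
Size: `nm (al) ≤ nm ((sg w j)(p_j X)) + 1`.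
-/

set_option autoImplicit false

namespace Pool.Agent.Work.MP_215640_nt.Q

open Finset Polynomial

private theorem close_two_mul (c k : ℕ) (hk : 1 ≤ k) : 2 * K2 c k ≤ K2 (c + 1) k := by
  rw [K2_add, mul_comm]
  refine Nat.mul_le_mul_left _ ?_
  have := two_pow_le_K2 (c := 1) (k := k) (a := 1) hk le_rfl
  refine le_trans ?_ this
  calc 2 = 2 ^ 1 := rfl
    _ ≤ 2 ^ (1 * k) := Nat.pow_le_pow_right (by norm_num) (by omega)

private theorem close_pow_le (k : ℕ) (hk : 1 ≤ k) : 2 ^ k ≤ K2 1 k := by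
  simpa using two_pow_le_K2 (c := 1) (k := k) (a := 1) hk le_rfl

/-- the exponent -/
private def clE (c0 k : ℕ) : ℕ := k * 2 ^ k + K2 c0 k

private def clG (c0 k : ℕ) : ℕ := 2 ^ k + 2 + 2 * (k + 1) + (clE c0 k + 2) * 2 ^ k

private theorem clE_le (c0 k : ℕ) (hk : 1 ≤ k) : clE c0 k ≤ K2 (c0 + 3) k := by
  unfold clE
  have h1 : k * 2 ^ k ≤ K2 2 k := by
    rw [show 2 = 1 + 1 from rfl, K2_add]
    exact Nat.mul_le_mul (le_K2 hk) (close_pow_le k hk)
  have h2 : K2 2 k ≤ K2 (c0 + 2) k := K2_mono k (by omega)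
  have h3 : K2 c0 k ≤ K2 (c0 + 2) k := K2_mono k (by omega)
  have h4 := close_two_mul (c0 + 2) k hk
  have h5 : c0 + 2 + 1 = c0 + 3 := by omega
  rw [h5] at h4
  omega

private theorem clG_le (c0 k : ℕ) (hk : 1 ≤ k) : clG c0 k ≤ K2 (c0 + 6) k := by
  unfold clG
  have hE := clE_le c0 k hk
  have hT := close_pow_le k hk
  have hkk := le_K2 hk
  have h1 : 1 ≤ K2 1 k := one_le_K2 1 k
  have h0 : 2 ≤ K2 (c0 + 3) k := by
    have := close_two_mul (c0 + 2) k hk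
    have h2 := one_le_K2 (c0 + 2) k
    have h5 : c0 + 2 + 1 = c0 + 3 := by omega
    rw [h5] at this
    omega
  have h2 : (clE c0 k + 2) * 2 ^ k ≤ K2 (c0 + 5) k := by
    calc (clE c0 k + 2) * 2 ^ k ≤ (2 * K2 (c0 + 3) k) * K2 1 k :=
          Nat.mul_le_mul (by omega) hT
      _ ≤ K2 (c0 + 3 + 1) k * K2 1 k := Nat.mul_le_mul_right _ (close_two_mul _ k hk)
      _ = K2 (c0 + 5) k := by rw [← K2_add]
  have h3 : 8 * K2 1 k ≤ K2 4 k := by
    have a1 := close_two_mul 1 k hk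
    have a2 := close_two_mul 2 k hk
    have a3 := close_two_mul 3 k hk
    simp only [Nat.reduceAdd] at a1 a2 a3
    omega
  have h4 : K2 4 k ≤ K2 (c0 + 5) k := K2_mono k (by omega)
  have h5 := close_two_mul (c0 + 5) k hk
  have h6 : c0 + 5 + 1 = c0 + 6 := by omega
  rw [h6] at h5
  omega

private theorem close_pq_le (B : ℕ) (q : ℕ → ℕ) (hq : ∀ i, 1 ≤ q i ∧ q i ≤ B) (j : ℕ) :
    pq q j ≤ B ^ j := by
  unfold pq
  calc ∏ i ∈ range j, q i ≤ ∏ _i ∈ range j, B := Finset.prod_le_prod' fun i _ => (hq i).2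
    _ = B ^ j := by simp

/-- the recursion of the model in terms of polynomials -/
private theorem close_al_succ (w : ℕ → Bool) (q : ℕ → ℕ) (x : ℝ) (hx : 0 < x) (j : ℕ) :
    ∃ e : ℝ, |e| ≤ x ^ (-gq w (j + 1)) ∧ al w q x (j + 1) =
      (bs w j (al w q x j)).comp (C (q (j + 1) : ℝ) * X) + monomial (dq w (j + 1)) e := by
  set d := dq w (j + 1) with hd
  set β := bs w j (al w q x j) with hβ
  set y : ℝ := (q (j + 1) : ℝ) ^ d * (x ^ gq w (j + 1) * β.coeff d / 2) with hy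
  refine ⟨x ^ (-gq w (j + 1)) * (2 * ((round y : ℝ) - y)), ?_, ?_⟩
  · rw [abs_mul, abs_of_pos (Real.rpow_pos_of_pos hx _), abs_mul, abs_of_pos (by norm_num : (0:ℝ) < 2)]
    have h1 := abs_sub_round y
    rw [abs_sub_comm] at h1
    calc x ^ (-gq w (j + 1)) * (2 * |(round y : ℝ) - y|)
        ≤ x ^ (-gq w (j + 1)) * (2 * (1 / 2)) := by
          have := Real.rpow_pos_of_pos hx (-gq w (j + 1))
          gcongr
      _ = x ^ (-gq w (j + 1)) := by ring
  · ext r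
    rw [coeff_add, coeff_scale, coeff_monomial]
    rcases lt_trichotomy r d with h | h | h
    · rw [al_coeff_lt w q x j r h, if_neg (by omega)]
      ring
    · rw [h, if_pos rfl]
      have h1 := al_coeff_top w q x j
      rw [← hd] at h1
      rw [h1]
      have h2 : ct w q x (j + 1) = round y := by
        unfold ct sl
        rw [Nat.add_sub_cancel]
      rw [h2, hy]
      have h3 : x ^ (-gq w (j + 1)) * x ^ gq w (j + 1) = 1 := by
        rw [← Real.rpow_add hx]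
        simp
      linear_combination ((q (j + 1) : ℝ) ^ d * β.coeff d) * h3
    · rw [if_neg (by omega), coeff_eq_zero_of_natDegree_lt (lt_of_le_of_lt
        ((natDegree_models w q x 0 (j + 1)).1) h), coeff_eq_zero_of_natDegree_lt (lt_of_le_of_lt
        (bs_natDegree w j _) h)]
      ring

private theorem close_sg_succ (w : ℕ → Bool) (q : ℕ → ℕ) (j : ℕ) :
    (sg w (j + 1)).comp (C (pq q (j + 1 + 1) : ℝ) * X) =
      (bs w j ((sg w j).comp (C (pq q (j + 1) : ℝ) * X))).comp (C (q (j + 1) : ℝ) * X) := by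
  rw [bs_scale, comp_assoc]
  show (bs w j (sg w j)).comp _ = _
  congr 1
  have h : (pq q (j + 1 + 1) : ℝ) = (pq q (j + 1) : ℝ) * (q (j + 1) : ℝ) := by
    unfold pq
    rw [Finset.prod_range_succ _ (j + 1)]
    push_cast
    rfl
  rw [h]
  simp only [mul_comp, C_comp, X_comp, C_mul]
  ring

private theorem al_close_aux (c0 : ℕ) (hc0 : ∀ k : ℕ, 1 ≤ k → ∀ w : ℕ → Bool, ∀ j < k,
    nm (sg w j) ≤ 2 ^ K2 c0 k ∧ ∀ γ : ℝ, nm (dl w γ j) ≤ 2 ^ K2 c0 k)
    (k : ℕ) (hk : 1 ≤ k) (w : ℕ → Bool) (B : ℕ) (hB : 2 ≤ B) (q : ℕ → ℕ)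
    (hq : ∀ i, 1 ≤ q i ∧ q i ≤ B) (x : ℝ) (hx : (B : ℝ) ^ K2 (c0 + 8) k ≤ x) (j : ℕ) (hj : j < k) :
    nm ((sg w j).comp (C (pq q (j + 1) : ℝ) * X)) ≤ (B : ℝ) ^ clE c0 k ∧
    nm (al w q x j - (sg w j).comp (C (pq q (j + 1) : ℝ) * X)) ≤
      (B : ℝ) ^ (clG c0 k * j) * x ^ (-(1 / 2 ^ k) : ℝ) ∧
    nm (al w q x j - (sg w j).comp (C (pq q (j + 1) : ℝ) * X)) ≤ 1 := by
  have hB1 : (1 : ℝ) ≤ B := by exact_mod_cast (by omega : 1 ≤ B)
  have hB2 : (2 : ℝ) ≤ B := by exact_mod_cast hB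
  have hx1 : 1 ≤ x := (one_le_pow₀ hB1).trans hx
  have hx0 : 0 < x := by linarith
  have hxp : 0 < x ^ (-(1 / 2 ^ k) : ℝ) := Real.rpow_pos_of_pos hx0 _
  have hσ : ∀ j < k, nm ((sg w j).comp (C (pq q (j + 1) : ℝ) * X)) ≤ (B : ℝ) ^ clE c0 k := by
    intro j hj
    have h1 : (pq q (j + 1) : ℝ) ≤ (B : ℝ) ^ k := by
      have h2 : pq q (j + 1) ≤ B ^ (j + 1) := close_pq_le B q hq _
      have h3 : B ^ (j + 1) ≤ B ^ k := Nat.pow_le_pow_right (by omega) (by omega)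
      exact_mod_cast h2.trans h3
    have h4 := nm_scale (sg w j) (pq q (j + 1) : ℝ) ((B : ℝ) ^ k) (2 ^ k)
      (((natDegree_models w q x 0 j).2.1).trans ((dq_le w j).trans
        (Nat.pow_le_pow_right (by norm_num) hj.le))) (one_le_pow₀ hB1)
      (by rw [abs_of_nonneg (by positivity)]; exact h1)
    refine h4.trans ?_
    unfold clE
    rw [pow_add, ← pow_mul]
    refine mul_le_mul_of_nonneg_left ?_ (by positivity)
    refine ((hc0 k hk w j hj).1).trans ?_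
    exact pow_le_pow_left₀ (by norm_num) hB2 _
  have hmain : ∀ j, j < k → nm (al w q x j - (sg w j).comp (C (pq q (j + 1) : ℝ) * X)) ≤
      (B : ℝ) ^ (clG c0 k * j) * x ^ (-(1 / 2 ^ k) : ℝ) → 
      nm (al w q x j - (sg w j).comp (C (pq q (j + 1) : ℝ) * X)) ≤ 1 := by
    intro j hj h
    refine h.trans ?_
    have h1 : clG c0 k * k * 2 ^ k ≤ K2 (c0 + 8) k := by
      calc clG c0 k * k * 2 ^ k ≤ K2 (c0 + 6) k * K2 1 k * K2 1 k :=
            Nat.mul_le_mul (Nat.mul_le_mul (clG_le c0 k hk) (le_K2 hk)) (close_pow_le k hk)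
        _ = K2 (c0 + 8) k := by rw [← K2_add, ← K2_add]
    have h2 := absorb' hB1 (b := k) hx h1
    have h3 : (B : ℝ) ^ (clG c0 k * j) ≤ (B : ℝ) ^ (clG c0 k * k) :=
      pow_le_pow_right₀ hB1 (Nat.mul_le_mul_left _ hj.le)
    calc (B : ℝ) ^ (clG c0 k * j) * x ^ (-(1 / 2 ^ k) : ℝ)
        ≤ x ^ (1 / 2 ^ k : ℝ) * x ^ (-(1 / 2 ^ k) : ℝ) :=
          mul_le_mul_of_nonneg_right (h3.trans h2) hxp.le
      _ = 1 := by rw [← Real.rpow_add hx0]; simp
  refine ⟨hσ j hj, ?_⟩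
  have hind : nm (al w q x j - (sg w j).comp (C (pq q (j + 1) : ℝ) * X)) ≤
      (B : ℝ) ^ (clG c0 k * j) * x ^ (-(1 / 2 ^ k) : ℝ) := by
    induction j with
    | zero =>
      have h1 : al w q x 0 - (sg w 0).comp (C (pq q (0 + 1) : ℝ) * X) = 0 := by
        show (1 + C (q 0 : ℝ) * X) - (1 + X : ℝ[X]).comp _ = 0
        have h2 : (pq q (0 + 1) : ℝ) = (q 0 : ℝ) := by
          unfold pq
          simp
        rw [h2]
        simp
      rw [h1, nm_zero]
      positivity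
    | succ j ih =>
      have hj' : j < k := by omega
      have hδ := ih hj'
      have hδ1 := hmain j hj' hδ
      obtain ⟨e, he, hal⟩ := close_al_succ w q x hx0 j
      rw [hal, close_sg_succ]
      set σ := (sg w j).comp (C (pq q (j + 1) : ℝ) * X) with hσd
      have h1 : (bs w j (al w q x j)).comp (C (q (j + 1) : ℝ) * X) + monomial (dq w (j + 1)) e -
          (bs w j σ).comp (C (q (j + 1) : ℝ) * X) =
          (bs w j (al w q x j) - bs w j σ).comp (C (q (j + 1) : ℝ) * X) +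
            monomial (dq w (j + 1)) e := by
        rw [sub_comp]; ring
      rw [h1]
      have hdT : dq w (j + 1) ≤ 2 ^ k := (dq_le w (j + 1)).trans
        (Nat.pow_le_pow_right (by norm_num) hj.le)
      -- the constant `R`
      set R : ℝ := (B : ℝ) ^ (clE c0 k + 2) with hR
      have hR1 : 1 ≤ R := one_le_pow₀ hB1
      have hRE : (B : ℝ) ^ clE c0 k + 2 ≤ R := by
        have h2 : (1 : ℝ) ≤ (B : ℝ) ^ clE c0 k := one_le_pow₀ hB1
        have h4 : (4 : ℝ) ≤ (B : ℝ) ^ 2 := by nlinarith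
        rw [hR, pow_add]
        nlinarith
      have hσ1 : nm (σ - 1) ≤ R := by
        refine (nm_sub_le _ _).trans ?_
        rw [nm_one]
        have := hσ j hj'
        linarith
      have hal1 : nm (al w q x j - 1) ≤ R := by
        have h2 : al w q x j - 1 = (al w q x j - σ) + (σ - 1) := by ring
        rw [h2]
        refine (nm_add_le _ _).trans ?_
        have h3 := nm_sub_le σ 1
        rw [nm_one] at h3
        have := hσ j hj'
        linarith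
      have hlip := bs_lip w j (al w q x j) σ R hR1 hal1 hσ1
      have hsc := nm_scale (bs w j (al w q x j) - bs w j σ) (q (j + 1) : ℝ) (B : ℝ) (2 ^ k)
        ((natDegree_sub_le _ _).trans (max_le ((bs_natDegree w j _).trans hdT)
          ((bs_natDegree w j _).trans hdT))) hB1
        (by rw [abs_of_nonneg (by positivity)]; exact_mod_cast (hq (j + 1)).2)
      have hdk : ((dq w (j + 1) : ℝ) + 1) ≤ (B : ℝ) ^ (k + 1) := by
        have h2 : dq w (j + 1) + 1 ≤ 2 ^ (k + 1) := by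
          have : 1 ≤ 2 ^ k := Nat.one_le_two_pow
          rw [pow_succ]
          omega
        calc ((dq w (j + 1) : ℝ) + 1) ≤ (2 : ℝ) ^ (k + 1) := by exact_mod_cast h2
          _ ≤ (B : ℝ) ^ (k + 1) := pow_le_pow_left₀ (by norm_num) hB2 _
      have hRd : R ^ dq w (j + 1) ≤ (B : ℝ) ^ ((clE c0 k + 2) * 2 ^ k) := by
        rw [hR, ← pow_mul]
        exact pow_le_pow_right₀ hB1 (Nat.mul_le_mul_left _ hdT)
      have hδ0 := nm_nonneg (al w q x j - σ)
      have h5 : nm (bs w j (al w q x j) - bs w j σ) ≤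
          (B : ℝ) ^ (1 + 2 * (k + 1) + (clE c0 k + 2) * 2 ^ k) * nm (al w q x j - σ) := by
        refine hlip.trans ?_
        refine mul_le_mul_of_nonneg_right ?_ hδ0
        rw [pow_add, pow_add, pow_one]
        have h6 : ((dq w (j + 1) : ℝ) + 1) ^ 2 ≤ (B : ℝ) ^ (2 * (k + 1)) := by
          rw [mul_comm 2 (k + 1), pow_mul]
          exact pow_le_pow_left₀ (by positivity) hdk 2
        gcongr
      have h7 : x ^ (-gq w (j + 1)) ≤ x ^ (-(1 / 2 ^ k) : ℝ) := by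
        apply Real.rpow_le_rpow_of_exponent_le hx1
        have h8 := gq_lower w (j := j + 1) (by omega)
        have h9 : (1 : ℝ) / 2 ^ k ≤ 1 / 2 ^ (j + 1) := by
          apply one_div_le_one_div_of_le (by positivity)
          exact pow_le_pow_right₀ (by norm_num) hj.le
        linarith
      calc nm ((bs w j (al w q x j) - bs w j σ).comp (C (q (j + 1) : ℝ) * X) +
            monomial (dq w (j + 1)) e)
          ≤ nm ((bs w j (al w q x j) - bs w j σ).comp (C (q (j + 1) : ℝ) * X)) +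
            nm (monomial (dq w (j + 1)) e) := nm_add_le _ _
        _ ≤ (B : ℝ) ^ (2 ^ k) * ((B : ℝ) ^ (1 + 2 * (k + 1) + (clE c0 k + 2) * 2 ^ k) *
            ((B : ℝ) ^ (clG c0 k * j) * x ^ (-(1 / 2 ^ k) : ℝ))) + x ^ (-(1 / 2 ^ k) : ℝ) := by
            refine add_le_add ?_ ?_
            · refine hsc.trans ?_
              refine mul_le_mul_of_nonneg_left ?_ (by positivity)
              refine h5.trans ?_
              exact mul_le_mul_of_nonneg_left hδ (by positivity)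
            · rw [nm_monomial]
              exact he.trans h7
        _ ≤ (B : ℝ) ^ (clG c0 k * (j + 1)) * x ^ (-(1 / 2 ^ k) : ℝ) := by
            have h8 : (B : ℝ) ^ (clG c0 k * (j + 1)) = (B : ℝ) * ((B : ℝ) ^ (2 ^ k) *
                ((B : ℝ) ^ (1 + 2 * (k + 1) + (clE c0 k + 2) * 2 ^ k) *
                (B : ℝ) ^ (clG c0 k * j))) := by
              rw [← pow_add, ← pow_add, ← pow_succ']
              congr 1
              unfold clG
              ring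
            have h9 : (1 : ℝ) ≤ (B : ℝ) ^ (2 ^ k) *
                ((B : ℝ) ^ (1 + 2 * (k + 1) + (clE c0 k + 2) * 2 ^ k) *
                (B : ℝ) ^ (clG c0 k * j)) := by
              rw [← pow_add, ← pow_add]
              exact one_le_pow₀ hB1
            rw [h8]
            set Y : ℝ := (B : ℝ) ^ (2 ^ k) *
                ((B : ℝ) ^ (1 + 2 * (k + 1) + (clE c0 k + 2) * 2 ^ k) *
                (B : ℝ) ^ (clG c0 k * j)) with hY
            have h10 : (B : ℝ) ^ (2 ^ k) * ((B : ℝ) ^ (1 + 2 * (k + 1) + (clE c0 k + 2) * 2 ^ k) *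
                ((B : ℝ) ^ (clG c0 k * j) * x ^ (-(1 / 2 ^ k) : ℝ))) =
                Y * x ^ (-(1 / 2 ^ k) : ℝ) := by rw [hY]; ring
            rw [h10]
            have h11 : Y + 1 ≤ B * Y := by nlinarith
            calc Y * x ^ (-(1 / 2 ^ k) : ℝ) + x ^ (-(1 / 2 ^ k) : ℝ)
                = (Y + 1) * x ^ (-(1 / 2 ^ k) : ℝ) := by ring
              _ ≤ (B * Y) * x ^ (-(1 / 2 ^ k) : ℝ) := mul_le_mul_of_nonneg_right h11 hxp.le
  exact ⟨hind, hmain j hj hind⟩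

theorem al_close : ∃ c : ℕ, ∀ k : ℕ, 1 ≤ k → ∀ w : ℕ → Bool, Pos w k → ∀ B : ℕ, 2 ≤ B → ∀ q : ℕ → ℕ,
    (∀ i, 1 ≤ q i ∧ q i ≤ B) → ∀ x : ℝ, (B : ℝ) ^ K2 c k ≤ x → ∀ j < k,
    nm (al w q x j) ≤ (B : ℝ) ^ K2 c k ∧
    nm (al w q x j - (sg w j).comp (C (pq q (j + 1) : ℝ) * X)) ≤
      (B : ℝ) ^ K2 c k * x ^ (-(1 / 2 ^ k) : ℝ) := by
  obtain ⟨c0, hc0⟩ := sg_bound
  refine ⟨c0 + 8, fun k hk w _ B hB q hq x hx j hj => ?_⟩
  have hB1 : (1 : ℝ) ≤ B := by exact_mod_cast (by omega : 1 ≤ B)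
  have hB2 : (2 : ℝ) ≤ B := by exact_mod_cast hB
  have hx1 : 1 ≤ x := (one_le_pow₀ hB1).trans hx
  obtain ⟨h1, h2, h3⟩ := al_close_aux c0 hc0 k hk w B hB q hq x hx j hj
  constructor
  · have h4 : al w q x j = (al w q x j - (sg w j).comp (C (pq q (j + 1) : ℝ) * X)) +
        (sg w j).comp (C (pq q (j + 1) : ℝ) * X) := by ring
    rw [h4]
    refine (nm_add_le _ _).trans ?_
    have h5 : (B : ℝ) ^ clE c0 k * B ≤ (B : ℝ) ^ K2 (c0 + 8) k := by
      rw [← pow_succ]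
      apply pow_le_pow_right₀ hB1
      have h6 := clE_le c0 k hk
      have h7 := close_two_mul (c0 + 3) k hk
      have h8 := one_le_K2 (c0 + 3) k
      have h9 : K2 (c0 + 3 + 1) k ≤ K2 (c0 + 8) k := K2_mono k (by omega)
      omega
    have h6 : (1 : ℝ) ≤ (B : ℝ) ^ clE c0 k := one_le_pow₀ hB1
    nlinarith
  · refine h2.trans ?_
    refine mul_le_mul_of_nonneg_right ?_ (Real.rpow_nonneg (by linarith) _)
    apply pow_le_pow_right₀ hB1
    calc clG c0 k * j ≤ K2 (c0 + 6) k * K2 1 k :=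
          Nat.mul_le_mul (clG_le c0 k hk) (hj.le.trans (le_K2 hk))
      _ = K2 (c0 + 7) k := by rw [← K2_add]
      _ ≤ K2 (c0 + 8) k := K2_mono k (by omega)

/-- size of the slow numbers -/
theorem sl_bound : ∃ c : ℕ, ∀ k : ℕ, 1 ≤ k → ∀ w : ℕ → Bool, Pos w k → ∀ B : ℕ, 2 ≤ B → ∀ q : ℕ → ℕ,
    (∀ i, 1 ≤ q i ∧ q i ≤ B) → ∀ x : ℝ, (B : ℝ) ^ K2 c k ≤ x → ∀ j, 1 ≤ j → j < k →
    |sl w q x j| ≤ (B : ℝ) ^ K2 c k * x ^ gq w j := by
  obtain ⟨c1, hc1⟩ := al_close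
  refine ⟨c1 + 4, fun k hk w hw B hB q hq x hx j hj hjk => ?_⟩
  have hB1 : (1 : ℝ) ≤ B := by exact_mod_cast (by omega : 1 ≤ B)
  have hB2 : (2 : ℝ) ≤ B := by exact_mod_cast hB
  have hx1 : 1 ≤ x := (one_le_pow₀ hB1).trans hx
  have hx0 : 0 < x := by linarith
  obtain ⟨i, rfl⟩ : ∃ i, j = i + 1 := ⟨j - 1, by omega⟩
  have hal := (hc1 k hk w hw B hB q hq x (pow_K2_mono hB1 (by omega) hx) i (by omega)).1
  set R : ℝ := (B : ℝ) ^ (K2 c1 k + 1) with hR
  have hR1 : 1 ≤ R := one_le_pow₀ hB1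
  have hal1 : nm (al w q x i - 1) ≤ R := by
    refine (nm_sub_le _ _).trans ?_
    rw [nm_one, hR, pow_succ]
    have h2 : (1 : ℝ) ≤ (B : ℝ) ^ K2 c1 k := one_le_pow₀ hB1
    nlinarith
  have hbs := bs_nm w i (al w q x i) R hR1 hal1
  have hdT : dq w (i + 1) ≤ 2 ^ k := (dq_le w (i + 1)).trans
    (Nat.pow_le_pow_right (by norm_num) hjk.le)
  have hdk : ((dq w (i + 1) : ℝ) + 1) ≤ (B : ℝ) ^ (k + 1) := by
    have h2 : dq w (i + 1) + 1 ≤ 2 ^ (k + 1) := by
      have : 1 ≤ 2 ^ k := Nat.one_le_two_pow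
      rw [pow_succ]
      omega
    calc ((dq w (i + 1) : ℝ) + 1) ≤ (2 : ℝ) ^ (k + 1) := by exact_mod_cast h2
      _ ≤ (B : ℝ) ^ (k + 1) := pow_le_pow_left₀ (by norm_num) hB2 _
  have hRd : R ^ dq w (i + 1) ≤ (B : ℝ) ^ ((K2 c1 k + 1) * 2 ^ k) := by
    rw [hR, ← pow_mul]
    exact pow_le_pow_right₀ hB1 (Nat.mul_le_mul_left _ hdT)
  have hexp : (k + 1) + (K2 c1 k + 1) * 2 ^ k ≤ K2 (c1 + 4) k := by
    have h1 : (K2 c1 k + 1) * 2 ^ k ≤ K2 (c1 + 2) k := by
      calc (K2 c1 k + 1) * 2 ^ k ≤ (2 * K2 c1 k) * K2 1 k :=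
            Nat.mul_le_mul (by have := one_le_K2 c1 k; omega) (close_pow_le k hk)
        _ ≤ K2 (c1 + 1) k * K2 1 k := Nat.mul_le_mul_right _ (close_two_mul _ k hk)
        _ = K2 (c1 + 2) k := by rw [← K2_add]
    have h2 : k + 1 ≤ K2 2 k := by
      have a1 := close_two_mul 1 k hk
      have a2 := le_K2 hk
      simp only [Nat.reduceAdd] at a1
      omega
    have h3 : K2 2 k ≤ K2 (c1 + 2) k := K2_mono k (by omega)
    have h4 := close_two_mul (c1 + 2) k hk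
    have h5 : K2 (c1 + 2 + 1) k ≤ K2 (c1 + 4) k := K2_mono k (by omega)
    omega
  have hcoef : |(bs w i (al w q x i)).coeff (dq w (i + 1))| ≤
      2 * (B : ℝ) ^ K2 (c1 + 4) k := by
    refine (abs_coeff_le_nm _ _).trans (hbs.trans ?_)
    calc 2 * ((dq w (i + 1) : ℝ) + 1) * R ^ dq w (i + 1)
        ≤ 2 * (B : ℝ) ^ (k + 1) * (B : ℝ) ^ ((K2 c1 k + 1) * 2 ^ k) := by
          gcongr
      _ = 2 * (B : ℝ) ^ ((k + 1) + (K2 c1 k + 1) * 2 ^ k) := by rw [pow_add]; ring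
      _ ≤ 2 * (B : ℝ) ^ K2 (c1 + 4) k := by
          have := pow_le_pow_right₀ hB1 hexp
          linarith
  have hxg := Real.rpow_pos_of_pos hx0 (gq w (i + 1))
  unfold sl
  rw [Nat.add_sub_cancel, abs_div, abs_mul, abs_of_pos hxg, abs_of_pos (by norm_num : (0:ℝ) < 2)]
  rw [div_le_iff₀ (by norm_num)]
  nlinarith

end Pool.Agent.Work.MP_215640_nt.Q
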