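import Pool.Agent.Work.MP_215640_nt.Basic

/-!
Definitions for the second stage (power saving equidistribution of first passage words on the
fibres, and the growth theorem for the set of integers whose juggler sequence meets `m`).
-/

set_option autoImplicit false

namespace Pool.Agent.Work.MP_215640_nt.Q

open Finset Polynomial

/-- triangle function of half width `τ` and mass `1` on the circle -/
noncomputable def tri (τ x : ℝ) : ℝ := max 0 (1 - dI x / τ) / τ

/-- `f` has an absolutely convergent Fourier series with mean `μ` and quadratic decay -/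
def FT (f : ℝ → ℝ) (μ A : ℝ) : Prop :=
  1 ≤ A ∧ |μ| ≤ A ∧ ∃ a : ℤ → ℂ, a 0 = (μ : ℂ) ∧ (∀ l : ℤ, l ≠ 0 → ‖a l‖ ≤ A / (l : ℝ) ^ 2) ∧
    ∀ x : ℝ, HasSum (fun l : ℤ => a l * ee (l * x)) ((f x : ℝ) : ℂ)

/-- coefficient of `X ^ r` of `P (X + u)` -/
noncomputable def tcf (P : ℝ[X]) (u r : ℕ) : ℝ := (P.comp (X + C (u : ℝ))).coeff r

/-- weight of the pair (start `u`, step `q`): it is nonzero only if `P (u + q v)` is nearly
constant mod 1 for `v ≤ M` -/
noncomputable def wt (lam : ℝ) (d M : ℕ) (P : ℝ[X]) (u q : ℕ) : ℝ :=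
  ∏ r ∈ Icc 1 d, tri (lam / (M : ℝ) ^ (3 * r + 3)) ((q : ℝ) ^ r * tcf P u r)

/-- integer part and fractional part of the exponent of level `j` -/
noncomputable def dq (w : ℕ → Bool) (j : ℕ) : ℕ := ⌊cc w j⌋₊
noncomputable def gq (w : ℕ → Bool) (j : ℕ) : ℝ := cc w j - dq w j

/-- the exponents of the levels `1, ..., k - 1` are larger than `1` -/
def Pos (w : ℕ → Bool) (k : ℕ) : Prop := ∀ j, 1 ≤ j → j < k → 1 < cc w j

/-- from the normalised polynomial of level `j` to that of level `j + 1` -/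
noncomputable def bs (w : ℕ → Bool) (j : ℕ) (P : ℝ[X]) : ℝ[X] :=
  trunc (dq w (j + 1)) (bser (ex (w j)) (dq w (j + 1)) P)

/-- product of the steps `q 0, ..., q (j - 1)` -/
def pq (q : ℕ → ℕ) (j : ℕ) : ℕ := ∏ i ∈ range j, q i

/-- normalised model polynomial of level `j` at the point `x` for the steps `q`: the top
coefficient is rounded -/
noncomputable def al (w : ℕ → Bool) (q : ℕ → ℕ) (x : ℝ) : ℕ → ℝ[X]
  | 0 => 1 + C (q 0 : ℝ) * X
  | j + 1 =>
    (∑ r ∈ range (dq w (j + 1)),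
      monomial r ((q (j + 1) : ℝ) ^ r * (bs w j (al w q x j)).coeff r)) +
    monomial (dq w (j + 1)) (x ^ (-gq w (j + 1)) *
      (2 * (round ((q (j + 1) : ℝ) ^ dq w (j + 1) *
        (x ^ gq w (j + 1) * (bs w j (al w q x j)).coeff (dq w (j + 1)) / 2)) : ℝ)))

/-- half the slow number of level `j ≥ 1` (it depends on `q 0, ..., q (j - 1)` only) -/
noncomputable def sl (w : ℕ → Bool) (q : ℕ → ℕ) (x : ℝ) (j : ℕ) : ℝ :=
  x ^ gq w j * (bs w (j - 1) (al w q x (j - 1))).coeff (dq w j) / 2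

/-- half the locked integer of level `j ≥ 1` -/
noncomputable def ct (w : ℕ → Bool) (q : ℕ → ℕ) (x : ℝ) (j : ℕ) : ℤ :=
  round ((q j : ℝ) ^ dq w j * sl w q x j)

/-- limits of the normalised polynomials (step `1`) -/
noncomputable def sg (w : ℕ → Bool) : ℕ → ℝ[X]
  | 0 => 1 + X
  | j + 1 => bs w j (sg w j)

/-- linearised `bs` at `sg` in the direction `D` -/
noncomputable def dbs (w : ℕ → Bool) (j : ℕ) (P D : ℝ[X]) : ℝ[X] :=
  trunc (dq w (j + 1)) (C (ex (w j)) * bser (ex (w j) - 1) (dq w (j + 1)) P * D)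

open Classical in
/-- derivative of the normalised polynomials with respect to `log x` when the locked integers of
the levels with `gq < γ` are constant -/
noncomputable def dl (w : ℕ → Bool) (γ : ℝ) : ℕ → ℝ[X]
  | 0 => 0
  | j + 1 =>
    if gq w (j + 1) < γ then
      (∑ r ∈ range (dq w (j + 1)), monomial r ((dbs w j (sg w j) (dl w γ j)).coeff r)) +
        monomial (dq w (j + 1)) (-gq w (j + 1) * (sg w (j + 1)).coeff (dq w (j + 1)))
    else dbs w j (sg w j) (dl w γ j)

/-- normalised derivative of the slow number of level `j ≥ 1` -/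
noncomputable def kap (w : ℕ → Bool) (j : ℕ) : ℝ :=
  gq w j * (sg w j).coeff (dq w j) +
    (dbs w (j - 1) (sg w (j - 1)) (dl w (gq w j) (j - 1))).coeff (dq w j)

/-- normalisation of the polynomial of level `j` on a progression starting at `n` -/
noncomputable def zh (w : ℕ → Bool) (n j : ℕ) (Z : ℝ[X]) : ℝ[X] :=
  C ((n : ℝ) ^ (-cc w j)) * Z.comp (C (n : ℝ) * X)

/-- half the polynomial of level `j + 1` before the floor, from the polynomial `Z` of level `j` -/
noncomputable def hp (w : ℕ → Bool) (n j : ℕ) (Z : ℝ[X]) : ℝ[X] :=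
  C ((n : ℝ) ^ cc w (j + 1) / 2) * (bs w j (zh w n j Z)).comp (C ((n : ℝ)⁻¹) * X)

/-- level `j` is the polynomial `Z` on the progression `n + pq q (j+1) * u`, `u ≤ L`, close to
the model, with the same top coefficient -/
structure Val (w : ℕ → Bool) (q : ℕ → ℕ) (ka : ℝ) (L n j : ℕ) (Z : ℝ[X]) : Prop where
  deg : Z.natDegree ≤ dq w j
  eq : ∀ u ≤ L, (F w j (n + pq q (j + 1) * u) : ℝ) = Z.eval (u : ℝ)
  near : ∀ r < dq w j, |(zh w n j Z).coeff r - (al w q n j).coeff r| ≤ ka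
  top : (zh w n j Z).coeff (dq w j) = (al w q n j).coeff (dq w j)

/-- the locked integers of the levels `1, ..., j` do not change on `[x, x + H]` -/
def NJ (w : ℕ → Bool) (q : ℕ → ℕ) (x j : ℕ) (H : ℝ) : Prop :=
  ∀ i, 1 ≤ i → i ≤ j → ∀ h : ℕ, (h : ℝ) ≤ H → ct w q ((x + h : ℕ) : ℝ) i = ct w q x i

/-- test functions: cut off near the integers and half integers -/
structure Test (H : ℝ → ℝ) (μ : ℝ) (m : ℕ) : Prop where
  ft : FT H μ ((m : ℝ) ^ 2)
  nonneg : ∀ x, 0 ≤ H x
  le_one : ∀ x, H x ≤ 1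
  lip : ∀ x y, |H x - H y| ≤ m * dI (x - y)
  supp : ∀ x, dI (2 * x) ≤ 1 / m → H x = 0

/-- sum of the absolute values of the coefficients -/
noncomputable def nm (P : ℝ[X]) : ℝ := ∑ r ∈ range (P.natDegree + 1), |P.coeff r|

/-- all exponents of the argument are bounded by such numbers -/
def K2 (c k : ℕ) : ℕ := 2 ^ (c * k ^ 2)

/-- length of the progressions on which level `j` is a polynomial -/
def Ml (k M j : ℕ) : ℕ := M ^ (2 ^ (27 * k * (k - 1 - j)))

/-- bound for all lengths and all steps -/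
def BB (k M : ℕ) : ℕ := M ^ (2 ^ (27 * k ^ 2))

/-- bound for the total shift of the base point -/
def XX (k M : ℕ) : ℕ := BB k M ^ (k + 3)

/-- the two genericity conditions needed for the top coefficient, with tolerance `e` -/
def G2 (T M : ℕ) (e : ℝ) (t : ℝ) : Prop :=
  Gen (M ^ T ^ 14) (e / (M : ℝ) ^ T ^ 15) t ∧ Gen (M ^ T ^ 24) (e / (M : ℝ) ^ T ^ 25) t

/-- the exceptional base points of level `l` for the steps `q` -/
def Bad (w : ℕ → Bool) (k M n l : ℕ) (q : ℕ → ℕ) : Prop :=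
  ¬ G2 (2 ^ k) (Ml k M l) 2 (sl w q n l) ∨ ¬ NJ w q n (l - 1) (XX k M)

open Classical in
/-- contribution of the exceptional base points when the last `s` levels are treated -/
noncomputable def bd (w : ℕ → Bool) (k M n : ℕ) : ℕ → (ℕ → ℕ) → ℝ
  | 0, _ => 0
  | s + 1, q =>
    (if Bad w k M n (k - (s + 1)) q then 1 else 0) +
      (1 / ((Ml k M (k - (s + 1)) : ℕ) : ℝ) ^ (2 ^ k) ^ 16) *
      ∑ t ∈ Icc 1 (Ml k M (k - (s + 1)) ^ (2 ^ k) ^ 16),
        8 * tri (2 / ((Ml k M (k - (s + 1)) : ℕ) : ℝ) ^ (3 * dq w (k - (s + 1)) + 3))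
          ((t : ℝ) ^ dq w (k - (s + 1)) * sl w q n (k - (s + 1))) *
        bd w k M n s (Function.update q (k - (s + 1)) t)

/-- the steps at the root: only `q 0 = 2` matters -/
def qr : ℕ → ℕ := fun i => if i = 0 then 2 else 1

/-- precision of the lower coefficients on level `j` -/
noncomputable def kaj (k N j : ℕ) : ℝ := (N : ℝ) ^ (((j : ℝ) + 1) / 2 ^ (12 * k) - 1)

/-- on every progression on which level `j` is a polynomial the test functions of the later levels
are nearly independent, up to `e` and the exceptional base points -/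
def TreeClaim (w : ℕ → Bool) (k M N n0 : ℕ) (H : ℕ → ℝ → ℝ) (μ : ℕ → ℝ) (j : ℕ) (e : ℝ) : Prop :=
  ∀ q : ℕ → ℕ, q 0 = 2 → (∀ i, 1 ≤ q i ∧ q i ≤ BB k M) → ∀ n : ℕ, n0 ≤ n →
    n ≤ n0 + j * BB k M ^ (k + 1) → ∀ Z : ℝ[X], Val w q (kaj k N j) (2 * Ml k M j) n j Z →
    |(1 / (Ml k M j : ℝ)) * ∑ u ∈ range (Ml k M j), ∏ i ∈ Ico (j + 1) k,
        H i (xx w i (n + pq q (j + 1) * u) / 2) - ∏ i ∈ Ico (j + 1) k, μ i| ≤
      e + bd w k M n0 (k - 1 - j) q

end Pool.Agent.Work.MP_215640_nt.Q
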