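import Pool.Agent.Work.MP_215640_nt.Q.Close

/-!
MODULE EXPAND. The next level is close to the polynomial `2 * hp` on the progression of a node.

Let `p = pq q (j+1)`, `e = ex (w j)`, `d = dq w (j+1)`, `c = cc w (j+1) = cc w j * e`, `ε = 1/2^(10k)`, `y = u/n ∈ [0, B/n]`. For
`u ≤ L`: `xx w (j+1) (n+pu) = (F w j (n+pu))^e = (Z.eval u)^e` and `Z.eval u = n^(cc w j) * (zh w n j Z).eval y`. By `near`, `top`, `al_close`
(`nm (al w q n j) ≤ B^(K2 c k)`, `al.coeff 0 = 1`) `ζ := |zh.eval y - 1| ≤ (d_j + 1) ka + B^(K2 c k) B/n ≤ n^(-1+2ε) ≤ 1/2`. Hence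
`xx = n^c (zh.eval y)^e` and `|(1+z)^e - ∑_{i≤d} choose(e,i) z^i| ≤ 4 |z|^(d+1)` for `|z| ≤ 1/2` (binomial series,
`|choose(e,i)| ≤ 2`, `choose_le`), so `(zh.eval y)^e` is within `4 ζ^(d+1)` of `(bser e d zh).eval y`; passing to
`bs w j zh = trunc d (bser ..)` changes the value by at most `nm (bser) |y|^(d+1) ≤ 2(d+1) R^d (B/n)^(d+1)`, `R = B^(K2 c k) + 2`.
Total `n^c n^((d+1)(-1+2ε)) * const ≤ n^(-(1 - gq w (j+1)) + 1/2^(8k)) * const`, `1 - gq w (j+1) ≥ 1/2^(k-1)` (`gq_upper`), so it is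
`≤ n^(-1/2^(k+1))`. And `(hp w n j Z).eval u = n^c/2 * (bs w j zh).eval y`.
(`ka ≥ 0` by `near` with `r = 0`, `dq w j ≥ 1`.)
-/

set_option autoImplicit false

namespace Pool.Agent.Work.MP_215640_nt.Q

open Finset Polynomial

/-- the binomial series with a remainder -/
theorem binom_rem (e : ℝ) (he : e = -1 / 2 ∨ e = 1 / 2 ∨ e = 3 / 2) (d : ℕ) (z : ℝ) (hz : |z| ≤ 1 / 2) :
    |(1 + z) ^ e - ∑ i ∈ range (d + 1), Ring.choose e i * z ^ i| ≤ 4 * |z| ^ (d + 1) := by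
  have hball : z ∈ Metric.eball (0 : ℝ) 1 := by
    rw [Metric.mem_eball, edist_zero_right]
    have : ‖z‖ < 1 := by rw [Real.norm_eq_abs]; linarith
    rw [← enorm_norm]
    rw [Real.enorm_eq_ofReal (norm_nonneg z)]
    exact ENNReal.ofReal_lt_one.mpr this
  have hs := (Real.one_add_rpow_hasFPowerSeriesOnBall_zero (a := e)).hasSum hball
  simp only [zero_add] at hs
  have hterm : ∀ i, (binomialSeries ℝ e) i (fun _ : Fin i => z) = Ring.choose e i * z ^ i := by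
    intro i
    simp [binomialSeries, smul_eq_mul, mul_comm]
  simp only [hterm] at hs
  have h1 := norm_sub_le_of_geometric_bound_of_hasSum (r := |z|) (C := 2) (by linarith)
    (fun i => by
      rw [Real.norm_eq_abs, abs_mul, abs_pow]
      exact mul_le_mul_of_nonneg_right (choose_le e he i) (by positivity)) hs (d + 1)
  rw [Real.norm_eq_abs, abs_sub_comm] at h1
  refine h1.trans ?_
  rw [div_le_iff₀ (by linarith)]
  have h2 : 0 ≤ |z| ^ (d + 1) := by positivity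
  nlinarith

/-- truncation changes small values only a little -/
private theorem ex_trunc_eval (d : ℕ) (Q : ℝ[X]) (y : ℝ) (hy : |y| ≤ 1) :
    |Q.eval y - (trunc d Q).eval y| ≤ nm Q * |y| ^ (d + 1) := by
  have hdeg : (Q - trunc d Q).natDegree ≤ max d Q.natDegree :=
    (natDegree_sub_le _ _).trans (max_le (le_max_right _ _) ((trunc_natDegree d Q).trans (le_max_left _ _)))
  rw [← eval_sub, eval_eq_sum_range' (Nat.lt_succ_of_le hdeg)]
  refine (Finset.abs_sum_le_sum_abs _ _).trans ?_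
  rw [nm_eq Q _ (le_max_right d Q.natDegree), Finset.sum_mul]
  apply Finset.sum_le_sum
  intro r _
  rw [coeff_sub, trunc_coeff]
  split_ifs with h
  · rw [sub_self, zero_mul, abs_zero]; positivity
  · rw [sub_zero, abs_mul, abs_pow]
    exact mul_le_mul_of_nonneg_left (pow_le_pow_of_le_one (abs_nonneg _) hy (by omega))
      (abs_nonneg _)

/-- the value of the normalised polynomial is close to one, and its size -/
private theorem ex_zeta {k : ℕ} {w : ℕ → Bool} (hw : Pos w k) {q : ℕ → ℕ} {n j : ℕ} (hj : j < k)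
    {ka : ℝ} {L : ℕ} {Z : ℝ[X]} (hV : Val w q ka L n j Z) (y : ℝ) (hy : |y| ≤ 1) :
    0 ≤ ka ∧ |(zh w n j Z).eval y - 1| ≤ (2 ^ k + 1) * ka + nm (al w q n j) * |y| ∧
      nm (zh w n j Z - 1) ≤ (2 ^ k + 1) * ka + nm (al w q n j) + 1 := by
  have hd1 : 1 ≤ dq w j := dq_pos hw hj
  have hka : 0 ≤ ka := (abs_nonneg _).trans (hV.near 0 hd1)
  have hdT : (dq w j : ℝ) ≤ 2 ^ k := by
    have h1 : dq w j ≤ 2 ^ k := (dq_le w j).trans (Nat.pow_le_pow_right (by norm_num) hj.le)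
    exact_mod_cast h1
  have hzd : (zh w n j Z).natDegree ≤ dq w j := by
    unfold zh
    exact (natDegree_C_mul_le _ _).trans ((natDegree_scale _ _).trans hV.deg)
  have had : (al w q n j).natDegree ≤ dq w j := (natDegree_models w q n 0 j).1
  have ha0 : (al w q n j).coeff 0 = 1 := (bs_coeff_zero' w q n hw hj).1
  have hD : nm (zh w n j Z - al w q n j) ≤ (2 ^ k + 1) * ka := by
    refine (nm_le_of_coeff _ (dq w j) ((natDegree_sub_le _ _).trans (max_le hzd had)) ka ?_).trans ?_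
    · intro r hr
      rw [coeff_sub]
      rcases Nat.lt_or_ge r (dq w j) with h | h
      · exact hV.near r h
      · have h2 : r = dq w j := le_antisymm hr h
        rw [h2, hV.top, sub_self, abs_zero]
        exact hka
    · apply mul_le_mul_of_nonneg_right _ hka
      linarith
  refine ⟨hka, ?_, ?_⟩
  · have e1 : (zh w n j Z).eval y - 1 =
        (zh w n j Z - al w q n j).eval y + ((al w q n j).eval y - (al w q n j).coeff 0) := by
      rw [eval_sub, ha0]; ring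
    rw [e1]
    refine (abs_add_le _ _).trans ?_
    exact add_le_add ((abs_eval_le _ y hy).trans hD) (abs_eval_sub_le _ y hy)
  · have e1 : zh w n j Z - 1 = (zh w n j Z - al w q n j) + al w q n j - 1 := by ring
    rw [e1]
    refine (nm_sub_le _ _).trans ?_
    rw [nm_one]
    have := nm_add_le (zh w n j Z - al w q n j) (al w q n j)
    linarith

private theorem ex_E {k E : ℕ} (hk : 2 ≤ k) (hE : 1 ≤ E) : E + k + 6 ≤ E * 2 ^ (4 * k) := by
  have h1 : k + 7 ≤ 2 ^ (4 * k) := by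
    calc k + 7 ≤ 2 ^ k + 2 ^ k * 3 := by
          have := (Nat.lt_two_pow_self (n := k)).le
          have h4 : 2 ^ 2 ≤ 2 ^ k := Nat.pow_le_pow_right (by norm_num) hk
          omega
      _ = 2 ^ (k + 2) := by ring
      _ ≤ 2 ^ (4 * k) := Nat.pow_le_pow_right (by norm_num) (by omega)
  calc E + k + 6 ≤ E * (k + 7) := by nlinarith
    _ ≤ E * 2 ^ (4 * k) := Nat.mul_le_mul_left _ h1

/-- the numerical part -/
private theorem ex_num {k E c : ℕ} (hk : 2 ≤ k) (hE : E = K2 c k) {B x : ℝ} (hB : 2 ≤ B)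
    (hx : B ^ K2 (c + 20) k ≤ x) {d : ℕ} (hd : d ≤ 2 ^ k) {g ka y ζ : ℝ}
    (_hka0 : 0 ≤ ka) (hka : ka ≤ x ^ (-1 + 1 / 2 ^ (10 * k) : ℝ)) (hy0 : 0 ≤ y) (hy : y ≤ B / x)
    (hζ0 : 0 ≤ ζ) (hζ : ζ ≤ (2 ^ k + 1) * ka + B ^ E * y) (hg : g ≤ 1 - 2 / 2 ^ k) :
    ζ ≤ 1 / 2 ∧ x ^ ((d : ℝ) + g) / 2 * (4 * ζ ^ (d + 1) +
      2 * (d + 1) * (B ^ E + 2) ^ d * y ^ (d + 1)) ≤ x ^ (-(1 / 2 ^ (k + 1)) : ℝ) := by
  have hB1 : 1 ≤ B := by linarith
  have hE1 : 1 ≤ E := by rw [hE]; exact one_le_K2 _ _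
  have hEE := ex_E hk hE1
  -- absorption
  have hexp1 : E * 2 ^ (4 * k) * 2 ^ (10 * k) ≤ K2 (c + 20) k := by
    calc E * 2 ^ (4 * k) * 2 ^ (10 * k) = K2 c k * 2 ^ (14 * k) := by
          rw [hE, mul_assoc, ← pow_add]; congr 2; ring
      _ ≤ K2 (c + 14) k := K2_mul_two_pow (by omega)
      _ ≤ K2 (c + 20) k := K2_mono k (by omega)
  have habs1 : B ^ (E + k + 3) ≤ x ^ (1 / 2 ^ (10 * k) : ℝ) := by
    apply absorb' hB1 hx
    refine le_trans (Nat.mul_le_mul_right _ ?_) hexp1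
    omega
  have hexp2 : (k + 3 + (E + 3) * 2 ^ k) * 2 ^ k ≤ K2 (c + 20) k := by
    have h1 : k + 3 + (E + 3) * 2 ^ k ≤ (E + k + 6) * 2 ^ k := by
      have : 1 ≤ 2 ^ k := Nat.one_le_two_pow
      nlinarith
    calc (k + 3 + (E + 3) * 2 ^ k) * 2 ^ k ≤ ((E + k + 6) * 2 ^ k) * 2 ^ k :=
          Nat.mul_le_mul_right _ h1
      _ ≤ ((E * 2 ^ (4 * k)) * 2 ^ k) * 2 ^ k :=
          Nat.mul_le_mul_right _ (Nat.mul_le_mul_right _ hEE)
      _ = E * 2 ^ (4 * k) * 2 ^ (2 * k) := by rw [mul_assoc _ (2 ^ k) (2 ^ k), ← pow_add, ← two_mul]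
      _ ≤ E * 2 ^ (4 * k) * 2 ^ (10 * k) :=
          Nat.mul_le_mul_left _ (Nat.pow_le_pow_right (by norm_num) (by omega))
      _ ≤ K2 (c + 20) k := hexp1
  have habs2 : B ^ (k + 3 + (E + 3) * 2 ^ k) ≤ x ^ (1 / 2 ^ k : ℝ) := absorb' hB1 hx hexp2
  have h4K : 4 ≤ K2 (c + 20) k := by
    refine le_trans ?_ hexp2
    calc 4 ≤ k + 3 + (E + 3) * 2 ^ k := le_trans (by omega : 4 ≤ k + 3) (Nat.le_add_right _ _)
      _ ≤ (k + 3 + (E + 3) * 2 ^ k) * 2 ^ k := Nat.le_mul_of_pos_right _ (by positivity)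
  have hx4 : 4 ≤ x := by
    calc (4 : ℝ) = 2 ^ 2 := by norm_num
      _ ≤ B ^ 2 := pow_le_pow_left₀ (by norm_num) hB 2
      _ ≤ B ^ K2 (c + 20) k := pow_le_pow_right₀ hB1 (by omega)
      _ ≤ x := hx
  have hx0 : 0 < x := by linarith
  have hx1 : 1 ≤ x := by linarith
  -- notation
  obtain ⟨T, hT⟩ : ∃ T : ℝ, T = 2 ^ k := ⟨_, rfl⟩
  obtain ⟨ε, hε⟩ : ∃ ε : ℝ, ε = 1 / 2 ^ (10 * k) := ⟨_, rfl⟩
  have hT4 : 4 ≤ T := by
    rw [hT]
    calc (4 : ℝ) = 2 ^ 2 := by norm_num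
      _ ≤ 2 ^ k := pow_le_pow_right₀ (by norm_num) hk
  have hT0 : 0 < T := by linarith
  have hdT : (d : ℝ) ≤ T := by rw [hT]; exact_mod_cast hd
  have hεT : ε = 1 / T ^ 10 := by rw [hε, hT, ← pow_mul, mul_comm 10 k]
  have hε0 : 0 < ε := by rw [hεT]; positivity
  have hεsmall : 2 * ε * (T + 1) ≤ 1 / (2 * T) := by
    rw [hεT, le_div_iff₀ (by positivity)]
    have h1 : 2 * (1 / T ^ 10) * (T + 1) * (2 * T) = (4 * T * (T + 1)) / T ^ 10 := by
      field_simp; ring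
    rw [h1, div_le_one (by positivity)]
    calc 4 * T * (T + 1) ≤ T * T * (T * T) := by
          have h2 : 4 * T ≤ T * T := mul_le_mul_of_nonneg_right hT4 hT0.le
          have h3 : T + 1 ≤ T * T := by linarith
          exact mul_le_mul h2 h3 (by linarith) (by positivity)
      _ = T ^ 4 := by ring
      _ ≤ T ^ 10 := pow_le_pow_right₀ (by linarith) (by norm_num)
  have hpowk : (2 : ℝ) ^ (k + 1) = 2 * T := by rw [hT, pow_succ]; ring
  rw [← hT] at hζ hg habs2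
  rw [← hε] at hka habs1
  rw [hpowk]
  -- bound for `T + 1`
  have hTB : T + 1 ≤ B ^ (k + 1) := by
    calc T + 1 ≤ 2 * T := by linarith
      _ = 2 ^ (k + 1) := hpowk.symm
      _ ≤ B ^ (k + 1) := pow_le_pow_left₀ (by norm_num) hB _
  -- bound for `ζ`
  have hxε1 : 1 ≤ x ^ ε := Real.one_le_rpow hx1 hε0.le
  have hsplit : x ^ (-1 + ε) = x⁻¹ * x ^ ε := by
    rw [Real.rpow_add hx0, Real.rpow_neg_one]
  have hζ' : ζ ≤ x ^ (-1 + 2 * ε) := by
    have h1 : (T + 1) * ka ≤ (T + 1) * (x⁻¹ * x ^ ε) := by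
      rw [← hsplit]
      exact mul_le_mul_of_nonneg_left hka (by linarith)
    have h2 : B ^ E * y ≤ B ^ (E + 1) * (x⁻¹ * x ^ ε) := by
      calc B ^ E * y ≤ B ^ E * (B / x) := by gcongr
        _ = B ^ (E + 1) * (x⁻¹ * 1) := by rw [pow_succ]; ring
        _ ≤ B ^ (E + 1) * (x⁻¹ * x ^ ε) := by gcongr
    have h3 : (T + 1) + B ^ (E + 1) ≤ B ^ (E + k + 3) := by
      have h4 : B ^ (k + 1) ≤ B ^ (E + k + 2) := pow_le_pow_right₀ hB1 (by omega)
      have h5 : B ^ (E + 1) ≤ B ^ (E + k + 2) := pow_le_pow_right₀ hB1 (by omega)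
      have h6 : B ^ (E + k + 3) = B ^ (E + k + 2) * B := by rw [← pow_succ]
      have h7 : 0 ≤ B ^ (E + k + 2) := by positivity
      rw [h6]
      nlinarith
    calc ζ ≤ (T + 1) * ka + B ^ E * y := hζ
      _ ≤ ((T + 1) + B ^ (E + 1)) * (x⁻¹ * x ^ ε) := by linarith
      _ ≤ x ^ ε * (x⁻¹ * x ^ ε) := by
          apply mul_le_mul_of_nonneg_right (h3.trans habs1) (by positivity)
      _ = x ^ (-1 + 2 * ε) := by
          rw [show -1 + 2 * ε = -1 + (ε + ε) by ring, Real.rpow_add hx0, Real.rpow_add hx0,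
            Real.rpow_neg_one]
          ring
  have hεq : 2 * ε ≤ 1 / 2 := by
    have h1 : 2 * ε ≤ 2 * ε * (T + 1) := by nlinarith
    have h2 : 1 / (2 * T) ≤ 1 / 2 := by
      apply one_div_le_one_div_of_le (by norm_num)
      linarith
    linarith
  refine ⟨?_, ?_⟩
  · refine hζ'.trans ?_
    calc x ^ (-1 + 2 * ε) ≤ x ^ (-(1 / 2) : ℝ) :=
          Real.rpow_le_rpow_of_exponent_le hx1 (by linarith)
      _ ≤ (4 : ℝ) ^ (-(1 / 2) : ℝ) :=
          Real.rpow_le_rpow_of_nonpos (by norm_num) hx4 (by norm_num)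
      _ = 1 / 2 := by
          rw [Real.rpow_neg (by norm_num), ← Real.sqrt_eq_rpow, show (4 : ℝ) = 2 ^ 2 by norm_num,
            Real.sqrt_sq (by norm_num)]
          norm_num
  · -- the two terms
    have hd1 : (0 : ℝ) ≤ d := by positivity
    have hfour : 4 ≤ x ^ (1 / T) := by
      refine le_trans ?_ habs2
      calc (4 : ℝ) = 2 ^ 2 := by norm_num
        _ ≤ B ^ 2 := pow_le_pow_left₀ (by norm_num) hB 2
        _ ≤ B ^ (k + 3 + (E + 3) * 2 ^ k) := pow_le_pow_right₀ hB1 (by omega)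
    have hxg : x ^ ((d : ℝ) + g) * x ^ (-((d : ℝ) + 1)) = x ^ (g - 1) := by
      rw [← Real.rpow_add hx0]; congr 1; ring
    have hg1 : x ^ (g - 1) ≤ x ^ (-(2 / T)) :=
      Real.rpow_le_rpow_of_exponent_le hx1 (by linarith)
    have hterm1 : x ^ ((d : ℝ) + g) / 2 * (4 * ζ ^ (d + 1)) ≤ 1 / 2 * x ^ (-(1 / (2 * T))) := by
      have h1 : ζ ^ (d + 1) ≤ x ^ (-((d : ℝ) + 1)) * x ^ (1 / (2 * T)) := by
        calc ζ ^ (d + 1) ≤ (x ^ (-1 + 2 * ε)) ^ (d + 1) := pow_le_pow_left₀ hζ0 hζ' _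
          _ = x ^ ((-1 + 2 * ε) * ((d : ℝ) + 1)) := by
              rw [← Real.rpow_natCast, ← Real.rpow_mul hx0.le]; push_cast; rfl
          _ = x ^ (-((d : ℝ) + 1)) * x ^ (2 * ε * ((d : ℝ) + 1)) := by
              rw [← Real.rpow_add hx0]; congr 1; ring
          _ ≤ x ^ (-((d : ℝ) + 1)) * x ^ (1 / (2 * T)) := by
              apply mul_le_mul_of_nonneg_left _ (by positivity)
              apply Real.rpow_le_rpow_of_exponent_le hx1
              refine le_trans ?_ hεsmall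
              apply mul_le_mul_of_nonneg_left _ (by positivity)
              linarith
      calc x ^ ((d : ℝ) + g) / 2 * (4 * ζ ^ (d + 1))
          = 2 * (x ^ ((d : ℝ) + g) * ζ ^ (d + 1)) := by ring
        _ ≤ 2 * (x ^ ((d : ℝ) + g) * (x ^ (-((d : ℝ) + 1)) * x ^ (1 / (2 * T)))) := by gcongr
        _ = 2 * (x ^ (g - 1) * x ^ (1 / (2 * T))) := by rw [← mul_assoc (x ^ _), hxg]
        _ ≤ 2 * (x ^ (-(2 / T)) * x ^ (1 / (2 * T))) := by gcongr
        _ = 1 / 2 * (4 * (x ^ (-(2 / T)) * x ^ (1 / (2 * T)))) := by ring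
        _ ≤ 1 / 2 * (x ^ (1 / T) * (x ^ (-(2 / T)) * x ^ (1 / (2 * T)))) := by gcongr
        _ = 1 / 2 * x ^ (-(1 / (2 * T))) := by
            rw [← Real.rpow_add hx0, ← Real.rpow_add hx0]
            congr 2
            field_simp
            ring
    have hterm2 : x ^ ((d : ℝ) + g) / 2 * (2 * (d + 1) * (B ^ E + 2) ^ d * y ^ (d + 1)) ≤
        1 / 2 * x ^ (-(1 / (2 * T))) := by
      have h1 : (B ^ E + 2) ^ d ≤ B ^ ((E + 2) * 2 ^ k) := by
        have h2 : B ^ E + 2 ≤ B ^ (E + 2) := by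
          have h3 : 1 ≤ B ^ E := one_le_pow₀ hB1
          have h4 : B ^ (E + 2) = B ^ E * B ^ 2 := pow_add _ _ _
          have h5 : 4 ≤ B ^ 2 := by nlinarith
          rw [h4]
          nlinarith
        calc (B ^ E + 2) ^ d ≤ (B ^ (E + 2)) ^ d := pow_le_pow_left₀ (by positivity) h2 d
          _ = B ^ ((E + 2) * d) := (pow_mul _ _ _).symm
          _ ≤ B ^ ((E + 2) * 2 ^ k) := pow_le_pow_right₀ hB1 (Nat.mul_le_mul_left _ hd)
      have h6 : y ^ (d + 1) ≤ B ^ (2 ^ k + 1) * x ^ (-((d : ℝ) + 1)) := by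
        calc y ^ (d + 1) ≤ (B / x) ^ (d + 1) := pow_le_pow_left₀ hy0 hy _
          _ = B ^ (d + 1) * x ^ (-((d : ℝ) + 1)) := by
              rw [div_pow, div_eq_mul_inv, Real.rpow_neg hx0.le]
              congr 2
              rw [← Real.rpow_natCast]; push_cast; rfl
          _ ≤ B ^ (2 ^ k + 1) * x ^ (-((d : ℝ) + 1)) := by
              apply mul_le_mul_of_nonneg_right _ (by positivity)
              exact pow_le_pow_right₀ hB1 (by omega)
      have h7 : (d : ℝ) + 1 ≤ B ^ (k + 1) := by linarith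
      have h8 : 2 * (B ^ (k + 1) * B ^ ((E + 2) * 2 ^ k) * B ^ (2 ^ k + 1)) ≤ x ^ (1 / T) := by
        refine le_trans ?_ habs2
        calc 2 * (B ^ (k + 1) * B ^ ((E + 2) * 2 ^ k) * B ^ (2 ^ k + 1))
            ≤ B * (B ^ (k + 1) * B ^ ((E + 2) * 2 ^ k) * B ^ (2 ^ k + 1)) := by gcongr
          _ = B ^ (k + 3 + (E + 3) * 2 ^ k) := by
              rw [← pow_add, ← pow_add, ← pow_succ']
              congr 1
              ring
      calc x ^ ((d : ℝ) + g) / 2 * (2 * (d + 1) * (B ^ E + 2) ^ d * y ^ (d + 1))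
          = x ^ ((d : ℝ) + g) * (((d : ℝ) + 1) * (B ^ E + 2) ^ d * y ^ (d + 1)) := by ring
        _ ≤ x ^ ((d : ℝ) + g) * (B ^ (k + 1) * B ^ ((E + 2) * 2 ^ k) *
              (B ^ (2 ^ k + 1) * x ^ (-((d : ℝ) + 1)))) := by gcongr
        _ = 1 / 2 * ((2 * (B ^ (k + 1) * B ^ ((E + 2) * 2 ^ k) * B ^ (2 ^ k + 1))) *
              (x ^ ((d : ℝ) + g) * x ^ (-((d : ℝ) + 1)))) := by ring
        _ ≤ 1 / 2 * (x ^ (1 / T) * x ^ (-(2 / T))) := by
              rw [hxg]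
              gcongr
        _ = 1 / 2 * x ^ (-(1 / T)) := by
              rw [← Real.rpow_add hx0]; congr 2; ring
        _ ≤ 1 / 2 * x ^ (-(1 / (2 * T))) := by
              apply mul_le_mul_of_nonneg_left _ (by norm_num)
              apply Real.rpow_le_rpow_of_exponent_le hx1
              apply neg_le_neg
              apply one_div_le_one_div_of_le hT0
              linarith
    calc x ^ ((d : ℝ) + g) / 2 * (4 * ζ ^ (d + 1) +
          2 * (d + 1) * (B ^ E + 2) ^ d * y ^ (d + 1))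
        = x ^ ((d : ℝ) + g) / 2 * (4 * ζ ^ (d + 1)) +
          x ^ ((d : ℝ) + g) / 2 * (2 * (d + 1) * (B ^ E + 2) ^ d * y ^ (d + 1)) := by ring
      _ ≤ 1 / 2 * x ^ (-(1 / (2 * T))) + 1 / 2 * x ^ (-(1 / (2 * T))) := add_le_add hterm1 hterm2
      _ = x ^ (-(1 / (2 * T))) := by ring

theorem expand : ∃ c : ℕ, ∀ k : ℕ, 1 ≤ k → ∀ w : ℕ → Bool, Pos w k → ∀ B : ℕ, 2 ≤ B → ∀ q : ℕ → ℕ,
    (∀ i, 1 ≤ q i ∧ q i ≤ B) → ∀ n : ℕ, (B : ℝ) ^ K2 c k ≤ n → ∀ j, j + 1 < k → ∀ (ka : ℝ) (L : ℕ) (Z : ℝ[X]),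
    ka ≤ (n : ℝ) ^ (-1 + 1 / 2 ^ (10 * k) : ℝ) → L ≤ B → Val w q ka L n j Z → ∀ u ≤ L,
    |xx w (j + 1) (n + pq q (j + 1) * u) / 2 - (hp w n j Z).eval (u : ℝ)| ≤ (n : ℝ) ^ (-(1 / 2 ^ (k + 1)) : ℝ) := by
  obtain ⟨c, hc⟩ := al_close
  refine ⟨c + 20, fun k hk w hw B hB q hq n hn j hj ka L Z hka hL hV u hu => ?_⟩
  have hB' : (2 : ℝ) ≤ B := by exact_mod_cast hB
  have hB1 : (1 : ℝ) ≤ B := by linarith
  have hk2 : 2 ≤ k := by omega
  have hal := (hc k hk w hw B hB q hq (n : ℝ) (pow_K2_mono hB1 (by omega) hn) j (by omega)).1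
  -- `n` is large
  have hBn : (B : ℝ) ≤ n := by
    refine le_trans ?_ hn
    exact le_self_pow₀ hB1 (K2_pos _ _).ne'
  have hn0 : (0 : ℝ) < n := by linarith
  obtain ⟨y, hydef⟩ : ∃ y : ℝ, y = (u : ℝ) / n := ⟨_, rfl⟩
  have hy0 : 0 ≤ y := by rw [hydef]; positivity
  have hyB : y ≤ B / n := by
    rw [hydef]
    have : (u : ℝ) ≤ B := by exact_mod_cast hu.trans hL
    gcongr
  have hy1 : y ≤ 1 := hyB.trans (by rw [div_le_one hn0]; exact hBn)
  have hyabs : |y| = y := abs_of_nonneg hy0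
  obtain ⟨hka0, hz1, hz2⟩ := ex_zeta hw (by omega) hV y (by rw [hyabs]; exact hy1)
  rw [hyabs] at hz1
  have hζ : |(zh w n j Z).eval y - 1| ≤ (2 ^ k + 1) * ka + (B : ℝ) ^ K2 c k * y := by
    refine hz1.trans ?_
    have := mul_le_mul_of_nonneg_right hal hy0
    linarith
  have hdk : dq w (j + 1) ≤ 2 ^ k :=
    (dq_le w (j + 1)).trans (Nat.pow_le_pow_right (by norm_num) hj.le)
  have hg : gq w (j + 1) ≤ 1 - 2 / 2 ^ k := by
    refine (gq_upper w (by omega)).trans ?_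
    have h1 : (2 : ℝ) / 2 ^ k ≤ 1 / 2 ^ (j + 1) := by
      rw [div_le_div_iff₀ (by positivity) (by positivity), one_mul, ← pow_succ']
      exact pow_le_pow_right₀ (by norm_num) (by omega)
    linarith
  obtain ⟨hhalf, hfin⟩ := ex_num hk2 rfl hB' hn hdk hka0 hka hy0 hyB (abs_nonneg _) hζ hg
  -- the first coefficient bound again: `(2^k+1) ka ≤ 1`
  have hR : nm (zh w n j Z - 1) ≤ (B : ℝ) ^ K2 c k + 2 := by
    refine hz2.trans ?_
    -- use the numerical part with `y = 0`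
    obtain ⟨h0, _⟩ := ex_num (ζ := (2 ^ k + 1) * ka) (y := 0) hk2 rfl hB' hn hdk hka0 hka le_rfl
      (by positivity) (by positivity) (by rw [mul_zero, add_zero]) hg
    linarith
  have hR1 : 1 ≤ (B : ℝ) ^ K2 c k + 2 := by
    have : 0 ≤ (B : ℝ) ^ K2 c k := by positivity
    linarith
  -- the value
  obtain ⟨z, hzdef⟩ : ∃ z : ℝ, z = (zh w n j Z).eval y - 1 := ⟨_, rfl⟩
  rw [← hzdef] at hhalf hfin
  have hcase : ex (w j) = -1 / 2 ∨ ex (w j) = 1 / 2 ∨ ex (w j) = 3 / 2 := by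
    unfold ex
    cases w j
    · exact Or.inr (Or.inl (by norm_num))
    · exact Or.inr (Or.inr (by norm_num))
  have hZ : Z.eval (u : ℝ) = (n : ℝ) ^ cc w j * (1 + z) := by
    have h1 : (zh w n j Z).eval y = (n : ℝ) ^ (-cc w j) * Z.eval (u : ℝ) := by
      unfold zh
      rw [eval_mul, eval_C, eval_comp, eval_mul, eval_C, eval_X, hydef, mul_div_cancel₀ _ hn0.ne']
    rw [hzdef, h1]
    have h2 : (n : ℝ) ^ cc w j * (n : ℝ) ^ (-cc w j) = 1 := by
      rw [← Real.rpow_add hn0, add_neg_cancel, Real.rpow_zero]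
    calc Z.eval (u : ℝ) = ((n : ℝ) ^ cc w j * (n : ℝ) ^ (-cc w j)) * Z.eval (u : ℝ) := by
          rw [h2, one_mul]
      _ = _ := by ring
  have hxx : xx w (j + 1) (n + pq q (j + 1) * u) = (n : ℝ) ^ cc w (j + 1) * (1 + z) ^ ex (w j) := by
    have hz0 : 0 ≤ 1 + z := by
      have := (abs_le.1 hhalf).1
      linarith
    rw [xx_succ, hV.eq u hu, hZ, Real.mul_rpow (by positivity) hz0, ← Real.rpow_mul hn0.le,
      ← cc_succ]
  have hhp : (hp w n j Z).eval (u : ℝ) = (n : ℝ) ^ cc w (j + 1) / 2 * (bs w j (zh w n j Z)).eval y := by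
    unfold hp
    rw [eval_mul, eval_C, eval_comp, eval_mul, eval_C, eval_X, hydef]
    congr 2
    rw [inv_mul_eq_div]
  rw [hxx, hhp]
  have hbser : |(1 + z) ^ ex (w j) - (bs w j (zh w n j Z)).eval y| ≤
      4 * |z| ^ (dq w (j + 1) + 1) +
        2 * (dq w (j + 1) + 1) * ((B : ℝ) ^ K2 c k + 2) ^ dq w (j + 1) * y ^ (dq w (j + 1) + 1) := by
    have h1 := binom_rem (ex (w j)) hcase (dq w (j + 1)) z hhalf
    have h2 : (bser (ex (w j)) (dq w (j + 1)) (zh w n j Z)).eval y =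
        ∑ i ∈ range (dq w (j + 1) + 1), Ring.choose (ex (w j)) i * z ^ i := by
      unfold bser
      rw [eval_finsetSum]
      apply Finset.sum_congr rfl
      intro i _
      rw [eval_mul, eval_C, eval_pow, eval_sub, eval_one, hzdef]
    rw [← h2] at h1
    have h3 := ex_trunc_eval (dq w (j + 1)) (bser (ex (w j)) (dq w (j + 1)) (zh w n j Z)) y
      (by rw [hyabs]; exact hy1)
    rw [hyabs] at h3
    have h4 := bser_nm (ex (w j)) hcase (dq w (j + 1)) (zh w n j Z) _ hR1 hR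
    have h5 : nm (bser (ex (w j)) (dq w (j + 1)) (zh w n j Z)) * y ^ (dq w (j + 1) + 1) ≤
        2 * (dq w (j + 1) + 1) * ((B : ℝ) ^ K2 c k + 2) ^ dq w (j + 1) * y ^ (dq w (j + 1) + 1) :=
      mul_le_mul_of_nonneg_right h4 (by positivity)
    have h6 : (1 + z) ^ ex (w j) - (bs w j (zh w n j Z)).eval y =
        ((1 + z) ^ ex (w j) - (bser (ex (w j)) (dq w (j + 1)) (zh w n j Z)).eval y) +
        ((bser (ex (w j)) (dq w (j + 1)) (zh w n j Z)).eval y -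
          (trunc (dq w (j + 1)) (bser (ex (w j)) (dq w (j + 1)) (zh w n j Z))).eval y) := by
      unfold bs; ring
    rw [h6]
    refine (abs_add_le _ _).trans ?_
    linarith
  have hcc : cc w (j + 1) = (dq w (j + 1) : ℝ) + gq w (j + 1) := cc_eq_add w (j + 1)
  have e1 : (n : ℝ) ^ cc w (j + 1) * (1 + z) ^ ex (w j) / 2 -
      (n : ℝ) ^ cc w (j + 1) / 2 * (bs w j (zh w n j Z)).eval y =
      (n : ℝ) ^ cc w (j + 1) / 2 * ((1 + z) ^ ex (w j) - (bs w j (zh w n j Z)).eval y) := by ring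
  rw [e1, abs_mul, abs_of_nonneg (by positivity : 0 ≤ (n : ℝ) ^ cc w (j + 1) / 2)]
  refine le_trans ?_ hfin
  rw [← hcc]
  exact mul_le_mul_of_nonneg_left hbser (by positivity)

end Pool.Agent.Work.MP_215640_nt.Q
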