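import Pool.Agent.Work.MP_215640_nt.Q.Small
import Pool.Agent.Work.MP_215640_nt.Q.Multi
import Pool.Agent.Work.MP_215640_nt.Q.Tri
import Pool.Agent.Work.MP_215640_nt.Q.K2L

/-!
MODULE JUMP. Rare changes of the locked integers of the levels with `gq < γ`, from exponential sums of single slow numbers.

Let `n` be in the set, `H = N^(1-γ+ε)`, `ε = 1/2^(10k)`; take the LEAST index `i` (with `gq w i < γ`) such that `ct · i` changes at some
`h ≤ H`. Then for all `i' < i` with `gq w i' < γ` nothing changes for `h ≤ H`, so `sl_small` gives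
`|(q i)^d (sl (n+h) i - sl n i)| ≤ B^T B^(K2 c k) (2N)^(gq w i) (N^(-γ+ε) + N^(-γ)) ≤ N^(-1/2^(k+1)) ≤ κ := N^(-ρ/4)`
(`gq w i + 1/2^k ≤ γ`, `h ≤ n` since `1-γ+ε ≤ 1`: if `γ ≤ ε` there is no such level because `gq w i ≥ 1/2^i`). As the nearest integer changes,
`y n := (q i)^d sl n i` has `dI (y n + 1/2) ≤ κ`. For a fixed `i` the number of such `n` is at most
`4 κ ∑_n tri (2κ) (y n + 1/2)` (`one_le_tri`), and by `multi_one` (`tri_FT`, `A = 1/(4κ^2) ≤ N^(ρ/2)`, shift by `1/2` absorbed by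
`FT.shift`, frequencies `|l| ≤ L`, `ρ' = N^(-ρ)`; negative `l` by conjugation) the sum is
`≤ N (1 + 5 N^(ρ/2) (N^(-ρ) + 1/L)) ≤ N (1 + 10 N^(-ρ/2))`. So at most `8 κ N · 2` for each `i`, total
`≤ 16 k N^(1-ρ/4)`, hence the hypothesis `50 k ≤ N^(ρ/8)`.
-/

set_option autoImplicit false

namespace Pool.Agent.Work.MP_215640_nt.Q

open Finset Polynomial

theorem dI_half_of_round_ne (y y' : ℝ) (h : round y ≠ round y') : dI (y + 1 / 2) ≤ |y' - y| := by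
  have h1 := abs_le.1 (abs_sub_round y)
  have h2 := abs_le.1 (abs_sub_round y')
  rcases lt_or_gt_of_ne h with h3 | h3
  · have h4 : (round y : ℝ) + 1 ≤ round y' := by exact_mod_cast h3
    have h5 := dI_le (y + 1 / 2) (round y + 1)
    refine h5.trans ?_
    push_cast
    rw [abs_of_nonpos (by linarith), abs_of_nonneg (by linarith)]
    linarith
  · have h4 : (round y' : ℝ) + 1 ≤ round y := by exact_mod_cast h3
    have h5 := dI_le (y + 1 / 2) (round y' + 1)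
    refine h5.trans ?_
    push_cast
    rw [abs_of_nonneg (by linarith), abs_of_nonpos (by linarith)]
    linarith

/-- the number of `n` with `y n` close to a half integer -/
theorem near_half_count (y : ℕ → ℝ) (N L : ℕ) (hN : 1 ≤ N) (ρ : ℝ) (hρ : 0 < ρ) (hL : (N : ℝ) ^ ρ ≤ L)
    (h50 : 50 ≤ (N : ℝ) ^ (ρ / 8))
    (h : ∀ l : ℕ, 1 ≤ l → l ≤ L → ‖∑ n ∈ Ico N (2 * N), ee (l * y n)‖ ≤ (N : ℝ) ^ (1 - ρ)) :
    ((((Ico N (2 * N)).filter (fun n : ℕ => dI (y n + 1 / 2) ≤ (N : ℝ) ^ (-(ρ / 4)))).card : ℕ) : ℝ) ≤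
      8 * (N : ℝ) ^ (-(ρ / 4)) * N := by
  have hN0 : (0 : ℝ) < N := by exact_mod_cast hN
  set κ := (N : ℝ) ^ (-(ρ / 4)) with hκ
  have hκ0 : 0 < κ := by positivity
  have hκ2 : κ * ((N : ℝ) ^ (ρ / 8)) ^ 2 = 1 := by
    rw [hκ, ← Real.rpow_natCast, ← Real.rpow_mul hN0.le, ← Real.rpow_add hN0]
    norm_num
    ring_nf
    simp
  have hκ4 : 2 * κ ≤ 1 / 2 := by nlinarith
  have hft := tri_FT (τ := 2 * κ) (by positivity) hκ4
  have hL1 : 1 ≤ L := by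
    have h1 : (1 : ℝ) ≤ (N : ℝ) ^ ρ := Real.one_le_rpow (by exact_mod_cast hN) hρ.le
    exact_mod_cast h1.trans hL
  have hA : (1 : ℝ) / (2 * κ) ^ 2 = (N : ℝ) ^ (ρ / 2) / 4 := by
    have h1 : κ ^ 2 * (N : ℝ) ^ (ρ / 2) = 1 := by
      rw [hκ, ← Real.rpow_natCast, ← Real.rpow_mul hN0.le, ← Real.rpow_add hN0]
      norm_num
      ring_nf
      simp
    rw [mul_pow]
    field_simp
    nlinarith
  have hcard : ((Ico N (2 * N)).card : ℝ) = N := by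
    rw [Nat.card_Ico]; push_cast [show 2 * N - N = N by omega]; rfl
  have key := multi_one (Ico N (2 * N)) (tri (2 * κ)) 1 (1 / (2 * κ) ^ 2) hft (fun n => y n + 1 / 2) L
    hL1 ((N : ℝ) ^ (-ρ)) (by positivity) ?_
  · rw [hcard, hA, one_mul] at key
    have h1 : (1 : ℝ) / L ≤ (N : ℝ) ^ (-ρ) := by
      rw [Real.rpow_neg hN0.le, ← one_div]
      exact one_div_le_one_div_of_le (by positivity) hL
    have h2 : (N : ℝ) ^ (ρ / 2) * (N : ℝ) ^ (-ρ) * ((N : ℝ) ^ (ρ / 8)) ^ 4 = 1 := by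
      rw [← Real.rpow_natCast, ← Real.rpow_mul hN0.le, ← Real.rpow_add hN0, ← Real.rpow_add hN0]
      norm_num
      ring_nf
      simp
    have h3 : (50 : ℝ) ^ 4 ≤ ((N : ℝ) ^ (ρ / 8)) ^ 4 := pow_le_pow_left₀ (by norm_num) h50 4
    have h4 : (N : ℝ) ^ (ρ / 2) * (N : ℝ) ^ (-ρ) ≤ 1 / 50 := by
      have h5 : 0 ≤ (N : ℝ) ^ (ρ / 2) * (N : ℝ) ^ (-ρ) := by positivity
      nlinarith
    have h5 : 5 * ((N : ℝ) ^ (ρ / 2) / 4) * ((N : ℝ) ^ (-ρ) + 1 / L) * N ≤ N := by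
      have h6 : 5 * ((N : ℝ) ^ (ρ / 2) / 4) * ((N : ℝ) ^ (-ρ) + 1 / L) ≤
          5 * ((N : ℝ) ^ (ρ / 2) / 4) * ((N : ℝ) ^ (-ρ) + (N : ℝ) ^ (-ρ)) := by gcongr
      have h7 : 5 * ((N : ℝ) ^ (ρ / 2) / 4) * ((N : ℝ) ^ (-ρ) + (N : ℝ) ^ (-ρ)) ≤ 1 := by
        have h8 : 5 * ((N : ℝ) ^ (ρ / 2) / 4) * ((N : ℝ) ^ (-ρ) + (N : ℝ) ^ (-ρ)) =
            5 / 2 * ((N : ℝ) ^ (ρ / 2) * (N : ℝ) ^ (-ρ)) := by ring
        rw [h8]
        linarith
      nlinarith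
    have h6 : ∑ n ∈ Ico N (2 * N), tri (2 * κ) (y n + 1 / 2) ≤ 2 * N := by
      have := (abs_le.1 (key.trans h5)).2
      linarith
    calc ((((Ico N (2 * N)).filter (fun n : ℕ => dI (y n + 1 / 2) ≤ κ)).card : ℕ) : ℝ)
        = ∑ n ∈ (Ico N (2 * N)).filter (fun n : ℕ => dI (y n + 1 / 2) ≤ κ), (1 : ℝ) := by simp
      _ ≤ ∑ n ∈ (Ico N (2 * N)).filter (fun n : ℕ => dI (y n + 1 / 2) ≤ κ),
          4 * κ * tri (2 * κ) (y n + 1 / 2) := by
          apply sum_le_sum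
          intro n hn
          exact one_le_tri hκ0 (mem_filter.1 hn).2
      _ ≤ ∑ n ∈ Ico N (2 * N), 4 * κ * tri (2 * κ) (y n + 1 / 2) := by
          apply sum_le_sum_of_subset_of_nonneg (filter_subset _ _)
          intro n _ _
          exact mul_nonneg (by positivity) (tri_nonneg (by positivity) _)
      _ = 4 * κ * ∑ n ∈ Ico N (2 * N), tri (2 * κ) (y n + 1 / 2) := by rw [mul_sum]
      _ ≤ 4 * κ * (2 * N) := by gcongr
      _ = 8 * κ * N := by ring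
  · intro l hl hl0
    rw [hcard]
    have h1 : (N : ℝ) ^ (-ρ) * N = (N : ℝ) ^ (1 - ρ) := by
      nth_rw 2 [← Real.rpow_one (N : ℝ)]
      rw [← Real.rpow_add hN0]
      congr 1
      ring
    rw [h1]
    have h2 : ∀ n : ℕ, ee (l * (y n + 1 / 2)) = ee (l * (1 / 2)) * ee (l * y n) := by
      intro n
      rw [← ee_add]
      congr 1
      ring
    simp only [h2]
    rw [← mul_sum, norm_mul, norm_ee, one_mul]
    have h3 : l.natAbs ≤ L := by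
      rw [← Int.natCast_natAbs] at hl
      exact_mod_cast hl
    have h4 : 1 ≤ l.natAbs := Int.natAbs_pos.2 hl0
    refine le_trans (le_of_eq ?_) (h l.natAbs h4 h3)
    rcases le_total 0 l with h5 | h5
    · have h6 : ((l.natAbs : ℕ) : ℝ) = (l : ℝ) := by
        rw [Nat.cast_natAbs, abs_of_nonneg h5]
      rw [h6]
    · have h6 : ((l.natAbs : ℕ) : ℝ) = -(l : ℝ) := by
        rw [Nat.cast_natAbs, abs_of_nonpos h5]
        push_cast
        ring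
      rw [h6]
      have h7 : ∑ n ∈ Ico N (2 * N), ee (-(l : ℝ) * y n) =
          (starRingEnd ℂ) (∑ n ∈ Ico N (2 * N), ee (l * y n)) := by
        rw [map_sum]
        refine sum_congr rfl fun n _ => ?_
        rw [← ee_neg]
        congr 1
        ring
      rw [h7, RCLike.norm_conj]

open Classical in
theorem jump_count : ∃ c : ℕ, ∀ k : ℕ, 1 ≤ k → ∀ w : ℕ → Bool, Pos w k → ∀ B : ℕ, 2 ≤ B → ∀ q : ℕ → ℕ,
    (∀ i, 1 ≤ q i ∧ q i ≤ B) → ∀ N : ℕ, (B : ℝ) ^ K2 c k ≤ N → ∀ γ : ℝ, γ ≤ 1 →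
    (∀ i, 1 ≤ i → i < k → gq w i < γ → gq w i + 1 / 2 ^ k ≤ γ) →
    ∀ (L : ℕ) (ρ : ℝ), 0 < ρ → ρ ≤ 1 / 2 ^ (k + 1) → (N : ℝ) ^ ρ ≤ L → 50 * (k : ℝ) ≤ (N : ℝ) ^ (ρ / 8) →
    (∀ i, 1 ≤ i → i < k → gq w i < γ → ∀ l : ℕ, 1 ≤ l → l ≤ L →
      ‖∑ n ∈ Ico N (2 * N), ee (l * ((q i : ℝ) ^ dq w i * sl w q (n : ℝ) i))‖ ≤ (N : ℝ) ^ (1 - ρ)) →
    ((((Ico N (2 * N)).filter (fun n : ℕ => ∃ i, 1 ≤ i ∧ i < k ∧ gq w i < γ ∧
        ∃ h : ℕ, (h : ℝ) ≤ (N : ℝ) ^ (1 - γ + 1 / 2 ^ (10 * k)) ∧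
          ct w q ((n : ℝ) + h) i ≠ ct w q n i)).card : ℕ) : ℝ) ≤ (N : ℝ) ^ (1 - ρ / 8) := by
  obtain ⟨c1, hs⟩ := sl_small
  refine ⟨c1 + 40, ?_⟩
  intro k hk w hw B hB q hq N hN γ hγ1 hgap L ρ hρ0 hρ1 hL h50 hsum
  have hB1 : (1 : ℝ) ≤ B := by exact_mod_cast (by omega : 1 ≤ B)
  have hB2 : (2 : ℝ) ≤ B := by exact_mod_cast hB
  have hN1 : (1 : ℝ) ≤ N := le_trans (one_le_pow₀ hB1) hN
  have hN0 : (0 : ℝ) < N := by linarith
  have hNn : 1 ≤ N := by exact_mod_cast hN1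
  have hk1 : (1 : ℝ) ≤ k := by exact_mod_cast hk
  set ε : ℝ := 1 / 2 ^ (10 * k) with hε
  have hε0 : 0 < ε := by positivity
  have hεk : 4 * ε ≤ 1 / 2 ^ k := by
    rw [hε, mul_one_div, div_le_div_iff₀ (by positivity) (by positivity), one_mul]
    calc (4 : ℝ) * 2 ^ k = 2 ^ (k + 2) := by rw [pow_add]; ring
      _ ≤ 2 ^ (10 * k) := pow_le_pow_right₀ (by norm_num) (by omega)
  have hincl : ((Ico N (2 * N)).filter (fun n : ℕ => ∃ i, 1 ≤ i ∧ i < k ∧ gq w i < γ ∧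
        ∃ h : ℕ, (h : ℝ) ≤ (N : ℝ) ^ (1 - γ + ε) ∧ ct w q ((n : ℝ) + h) i ≠ ct w q n i)) ⊆
      ((Ico 1 k).filter (fun i => gq w i < γ)).biUnion (fun i =>
        (Ico N (2 * N)).filter (fun n : ℕ =>
          dI ((q i : ℝ) ^ dq w i * sl w q (n : ℝ) i + 1 / 2) ≤ (N : ℝ) ^ (-(ρ / 4)))) := by
    intro n hn
    rw [mem_filter, mem_Ico] at hn
    obtain ⟨⟨hn1, hn2⟩, hex⟩ := hn
    obtain ⟨⟨hi1, hi2, hi3, h, hh1, hh2⟩, hmin⟩ := And.intro (Nat.find_spec hex)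
      (fun m hm => Nat.find_min hex (m := m) hm)
    set i := Nat.find hex with hi
    rw [mem_biUnion]
    refine ⟨i, mem_filter.2 ⟨mem_Ico.2 ⟨hi1, hi2⟩, hi3⟩, mem_filter.2 ⟨mem_Ico.2 ⟨hn1, hn2⟩, ?_⟩⟩
    have hn1' : (N : ℝ) ≤ n := by exact_mod_cast hn1
    have hn2' : (n : ℝ) ≤ 2 * N := by exact_mod_cast hn2.le
    have hn0 : (0 : ℝ) < n := by linarith
    have hg0 := gq_nonneg w i
    have hgap' := hgap i hi1 hi2 hi3
    have hγ0 : 0 < γ := by linarith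
    have hγε : ε ≤ γ := by
      have : 0 < (1 : ℝ) / 2 ^ k := by positivity
      linarith
    have hhN : (h : ℝ) ≤ N := by
      refine hh1.trans ?_
      calc (N : ℝ) ^ (1 - γ + ε) ≤ (N : ℝ) ^ (1 : ℝ) :=
            Real.rpow_le_rpow_of_exponent_le hN1 (by linarith)
        _ = N := Real.rpow_one _
    have hsm := hs k hk w hw B hB q hq n ((pow_K2_mono hB1 (by omega) hN).trans hn1') h
      (hhN.trans hn1') γ hγ0 i hi1 hi2 ?_
    · have hround := dI_half_of_round_ne ((q i : ℝ) ^ dq w i * sl w q (n : ℝ) i)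
        ((q i : ℝ) ^ dq w i * sl w q ((n : ℝ) + h) i) (fun h9 => hh2 h9.symm)
      refine hround.trans ?_
      have hq0 : (0 : ℝ) ≤ (q i : ℝ) ^ dq w i := by positivity
      rw [← mul_sub, abs_mul, abs_of_nonneg hq0]
      have hqB : (q i : ℝ) ^ dq w i ≤ (B : ℝ) ^ 2 ^ k := by
        have h1 : q i ^ dq w i ≤ B ^ 2 ^ k :=
          (Nat.pow_le_pow_left (hq i).2 _).trans (Nat.pow_le_pow_right (by omega)
            ((dq_le w i).trans (Nat.pow_le_pow_right (by norm_num) hi2.le)))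
        exact_mod_cast h1
      have hng : (n : ℝ) ^ gq w i ≤ 2 * (N : ℝ) ^ gq w i := by
        calc (n : ℝ) ^ gq w i ≤ (2 * N) ^ gq w i := Real.rpow_le_rpow hn0.le hn2' hg0
          _ = (2 : ℝ) ^ gq w i * (N : ℝ) ^ gq w i := Real.mul_rpow (by norm_num) hN0.le
          _ ≤ 2 * (N : ℝ) ^ gq w i := by
              gcongr
              calc (2 : ℝ) ^ gq w i ≤ (2 : ℝ) ^ (1 : ℝ) :=
                    Real.rpow_le_rpow_of_exponent_le (by norm_num) (by linarith)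
                _ = 2 := Real.rpow_one _
      have hhn : (h : ℝ) / n + (n : ℝ) ^ (-γ) ≤ 2 * (N : ℝ) ^ (-γ + ε) := by
        have h1 : (h : ℝ) / n ≤ (N : ℝ) ^ (-γ + ε) := by
          calc (h : ℝ) / n ≤ (N : ℝ) ^ (1 - γ + ε) / N := by gcongr
            _ = (N : ℝ) ^ (-γ + ε) := by
                rw [div_eq_iff hN0.ne']
                nth_rw 3 [← Real.rpow_one (N : ℝ)]
                rw [← Real.rpow_add hN0]
                congr 1
                ring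
        have h2 : (n : ℝ) ^ (-γ) ≤ (N : ℝ) ^ (-γ + ε) := by
          calc (n : ℝ) ^ (-γ) ≤ (N : ℝ) ^ (-γ) :=
                Real.rpow_le_rpow_of_nonpos hN0 hn1' (by linarith)
            _ ≤ _ := Real.rpow_le_rpow_of_exponent_le hN1 (by linarith)
        linarith
      have hBN : (B : ℝ) ^ (K2 c1 k + 2 ^ k + 2) ≤ (N : ℝ) ^ ε := by
        apply absorb' hB1 hN
        have h1 : K2 c1 k + 2 ^ k + 2 ≤ K2 (c1 + 4) k := by
          have e1 : 2 ^ k ≤ K2 1 k := by simpa using two_pow_le_K2 (a := 1) hk le_rfl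
          have e2 : 1 ≤ K2 c1 k := one_le_K2 _ _
          have e3 : 2 ≤ K2 1 k := le_trans (by
            calc 2 = 2 ^ 1 := by norm_num
              _ ≤ 2 ^ k := Nat.pow_le_pow_right (by norm_num) hk) e1
          have e4 : K2 (c1 + 4) k = K2 c1 k * K2 1 k * K2 1 k * K2 1 k * K2 1 k := by
            rw [← K2_add, ← K2_add, ← K2_add, ← K2_add]
          rw [e4]
          nlinarith [Nat.mul_le_mul e2 (Nat.mul_le_mul e3 (Nat.mul_le_mul e3 e1)),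
            Nat.mul_le_mul (Nat.mul_le_mul (le_refl (K2 c1 k)) e3)
              (Nat.mul_le_mul e3 (Nat.mul_le_mul e3 e3)),
            Nat.mul_le_mul (Nat.mul_le_mul e2 e1) (Nat.mul_le_mul e3 (Nat.mul_le_mul e3 e3))]
        calc (K2 c1 k + 2 ^ k + 2) * 2 ^ (10 * k) ≤ K2 (c1 + 4) k * 2 ^ (10 * k) :=
              Nat.mul_le_mul_right _ h1
          _ ≤ K2 (c1 + 4 + 10) k := K2_mul_two_pow hk
          _ ≤ K2 (c1 + 40) k := K2_mono k (by omega)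
      calc (q i : ℝ) ^ dq w i * |sl w q ((n : ℝ) + h) i - sl w q (n : ℝ) i|
          ≤ (B : ℝ) ^ 2 ^ k * ((B : ℝ) ^ K2 c1 k * (n : ℝ) ^ gq w i *
              ((h : ℝ) / n + (n : ℝ) ^ (-γ))) := by gcongr
        _ ≤ (B : ℝ) ^ 2 ^ k * ((B : ℝ) ^ K2 c1 k * (2 * (N : ℝ) ^ gq w i) *
              (2 * (N : ℝ) ^ (-γ + ε))) := by gcongr
        _ = (B : ℝ) ^ (K2 c1 k + 2 ^ k) * 4 * ((N : ℝ) ^ gq w i * (N : ℝ) ^ (-γ + ε)) := by
            rw [pow_add]; ring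
        _ ≤ (B : ℝ) ^ (K2 c1 k + 2 ^ k) * (B : ℝ) ^ 2 *
              ((N : ℝ) ^ gq w i * (N : ℝ) ^ (-γ + ε)) := by
            gcongr
            nlinarith
        _ = (B : ℝ) ^ (K2 c1 k + 2 ^ k + 2) * ((N : ℝ) ^ gq w i * (N : ℝ) ^ (-γ + ε)) := by
            rw [pow_add (B : ℝ) (K2 c1 k + 2 ^ k) 2]
        _ ≤ (N : ℝ) ^ ε * ((N : ℝ) ^ gq w i * (N : ℝ) ^ (-γ + ε)) := by gcongr
        _ = (N : ℝ) ^ (gq w i - γ + 2 * ε) := by
            rw [← Real.rpow_add hN0, ← Real.rpow_add hN0]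
            congr 1
            ring
        _ ≤ (N : ℝ) ^ (-(ρ / 4)) := by
            apply Real.rpow_le_rpow_of_exponent_le hN1
            have h2 : (1 : ℝ) / 2 ^ (k + 1) = 1 / 2 ^ k / 2 := by
              rw [pow_succ, div_div]
            rw [h2] at hρ1
            linarith
    · intro i' hi'1 hi'2 hi'3
      by_contra hne
      exact hmin i' hi'2 ⟨hi'1, hi'2.trans hi2, hi'3, h, hh1, hne⟩
  calc ((((Ico N (2 * N)).filter (fun n : ℕ => ∃ i, 1 ≤ i ∧ i < k ∧ gq w i < γ ∧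
        ∃ h : ℕ, (h : ℝ) ≤ (N : ℝ) ^ (1 - γ + ε) ∧ ct w q ((n : ℝ) + h) i ≠ ct w q n i)).card : ℕ) : ℝ)
      ≤ ((((Ico 1 k).filter (fun i => gq w i < γ)).biUnion (fun i =>
        (Ico N (2 * N)).filter (fun n : ℕ =>
          dI ((q i : ℝ) ^ dq w i * sl w q (n : ℝ) i + 1 / 2) ≤ (N : ℝ) ^ (-(ρ / 4))))).card : ℝ) := by
        exact_mod_cast card_le_card hincl
    _ ≤ ∑ i ∈ (Ico 1 k).filter (fun i => gq w i < γ), ((((Ico N (2 * N)).filter (fun n : ℕ =>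
          dI ((q i : ℝ) ^ dq w i * sl w q (n : ℝ) i + 1 / 2) ≤ (N : ℝ) ^ (-(ρ / 4)))).card : ℕ) : ℝ) := by
        exact_mod_cast card_biUnion_le
    _ ≤ ∑ i ∈ (Ico 1 k).filter (fun i => gq w i < γ), 8 * (N : ℝ) ^ (-(ρ / 4)) * N := by
        apply sum_le_sum
        intro i hi
        rw [mem_filter, mem_Ico] at hi
        exact near_half_count (fun n => (q i : ℝ) ^ dq w i * sl w q (n : ℝ) i) N L hNn ρ hρ0 hL
          (by nlinarith) (hsum i hi.1.1 hi.1.2 hi.2)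
    _ ≤ k * (8 * (N : ℝ) ^ (-(ρ / 4)) * N) := by
        rw [sum_const, nsmul_eq_mul]
        gcongr
        calc ((Ico 1 k).filter (fun i => gq w i < γ)).card ≤ (Ico 1 k).card := card_filter_le _ _
          _ ≤ k := by rw [Nat.card_Ico]; omega
    _ ≤ (N : ℝ) ^ (ρ / 8) * ((N : ℝ) ^ (-(ρ / 4)) * N) := by
        have h1 : (0 : ℝ) ≤ (N : ℝ) ^ (-(ρ / 4)) * N := by positivity
        nlinarith
    _ = (N : ℝ) ^ (1 - ρ / 8) := by
        nth_rw 3 [← Real.rpow_one (N : ℝ)]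
        rw [← Real.rpow_add hN0, ← Real.rpow_add hN0]
        congr 1
        ring

end Pool.Agent.Work.MP_215640_nt.Q
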