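import Pool.Agent.Work.MP_215640_nt.Q.Gq
import Pool.Agent.Work.MP_215640_nt.Parity

/-!
MODULE KAP. 2-adic argument: `kap w j ≠ 0`.

(1) For `j ≥ 1`, `r ≤ dq w j`: `2^(j r) r! (sg w j).coeff r` is an odd integer, and `0` for `r > dq w j` (for `j = 0`: integers,
coefficients `0` and `1` odd). Induction with `bser_odd` (module Parity; `ex (w j) = 3^u / 2^1`, `m = j`, `t = 1`).
(2) For all `j < k`, `r`: `2^(j (r+1)) r! (dl w γ j).coeff r` is an integer, and `(dl w γ j).coeff 0 = 0`.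
(3) Let `P = sg w j`, `D = dl w γ j`. Then `2^((j+1)(r+1)) r! (dbs w j P D).coeff r` is an EVEN integer: the coefficients `β_a`
of `bser (ex-1) d P` satisfy `2^((j+1) a) a! β_a ∈ ℤ` (as in `par_int`, `par_odd_fact` of Parity: `2^i i! choose(e-1,i) ∈ ℤ`,
`2^(j a) a! [X^a](G^i/i!) ∈ ℤ`), and `r! β_a D_b = (r choose a) (a! β_a)(b! D_b)`, `a + b = r`, `b ≥ 1`; together with the factor
`ex = odd/2` the denominator divides `2^(1 + (j+1)a + j(b+1))`, and `(j+1)(r+1) - 1 - (j+1)a - j(b+1) = b ≥ 1`.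
(4) Step of (2): coefficient `r < d` and the unfrozen top coefficient by (3); the frozen top coefficient is
`-gq w (j+1) (sg w (j+1)).coeff d`, `2^(j+1) gq` integer (`gq_odd`), (1).
(5) `2^(j (d+1)) d! kap w j` = `(2^j gq)(2^(j d) d! (sg w j).coeff d)` (odd by `gq_odd` and (1)) + an even integer (by (3)), `d = dq w j`.
`kap_lower`: an odd integer is `≥ 1` in absolute value, `2^(j(d+1)) d! ≤ 2^(k (2^k+1)) (2^k)^(2^k) ≤ 2^(K2 c k)`.
-/

set_option autoImplicit false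

namespace Pool.Agent.Work.MP_215640_nt.Q

open Finset Polynomial

private theorem kp_fact_choose (γ : ℝ) (n : ℕ) :
    (n.factorial : ℝ) * Ring.choose γ n = ∏ j ∈ range n, (γ - j) := by
  have h1 : (descPochhammer ℤ n).smeval γ = ∏ j ∈ range n, (γ - j) := by
    induction n with
    | zero => simp
    | succ n ih =>
      rw [descPochhammer_succ_right, smeval_mul, ih, prod_range_succ, smeval_sub, smeval_X,
        smeval_natCast]
      simp
  rw [← h1, Ring.descPochhammer_eq_factorial_smul_choose, nsmul_eq_mul]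

private theorem kp_int (m : ℕ) (G : ℝ[X]) (h0 : G.coeff 0 = 0)
    (hint : ∀ r : ℕ, ∃ o : ℤ, (2 : ℝ) ^ (m * r) * (r.factorial : ℝ) * G.coeff r = o) (k : ℕ) :
    ∀ r : ℕ, ∃ o : ℤ,
      (2 : ℝ) ^ (m * r) * (r.factorial : ℝ) * ((G ^ k).coeff r / (k.factorial : ℝ)) = o := by
  induction k with
  | zero =>
    intro r
    rcases Nat.eq_zero_or_pos r with h | h
    · subst h; exact ⟨1, by simp⟩
    · refine ⟨0, ?_⟩
      rw [pow_zero, coeff_one, if_neg (by omega)]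
      simp
  | succ k ih =>
    intro r
    rcases r with _ | r
    · refine ⟨0, ?_⟩
      have h1 : (G ^ (k + 1)).coeff 0 = 0 := by
        rw [coeff_zero_eq_eval_zero, eval_pow, ← coeff_zero_eq_eval_zero, h0]
        simp
      rw [h1]
      simp
    · choose a ha using ih
      choose b hb using hint
      refine ⟨∑ x ∈ antidiagonal r, (r.choose x.1 : ℤ) * a x.1 * b (x.2 + 1), ?_⟩
      have h1 : derivative (G ^ (k + 1)) = C ((k : ℝ) + 1) * G ^ k * derivative G := by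
        rw [derivative_pow]
        simp
      have h2 : (derivative (G ^ (k + 1))).coeff r = (G ^ (k + 1)).coeff (r + 1) * (r + 1) :=
        coeff_derivative _ _
      rw [h1, mul_assoc, coeff_C_mul, coeff_mul] at h2
      simp only [coeff_derivative] at h2
      have h3 : (G ^ (k + 1)).coeff (r + 1) = (((k : ℝ) + 1) *
          ∑ x ∈ antidiagonal r, (G ^ k).coeff x.1 * (G.coeff (x.2 + 1) * (x.2 + 1))) / (r + 1) := by
        rw [h2]
        have : (r : ℝ) + 1 ≠ 0 := by positivity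
        field_simp
      rw [h3]
      push_cast
      rw [Nat.factorial_succ, Nat.factorial_succ]
      push_cast
      have hk : (k : ℝ) + 1 ≠ 0 := by positivity
      have hr : (r : ℝ) + 1 ≠ 0 := by positivity
      have hkf : (k.factorial : ℝ) ≠ 0 := by positivity
      have h4 : (2 : ℝ) ^ (m * (r + 1)) * (((r : ℝ) + 1) * r.factorial) *
          ((((k : ℝ) + 1) * ∑ x ∈ antidiagonal r, (G ^ k).coeff x.1 *
            (G.coeff (x.2 + 1) * (x.2 + 1))) / (r + 1) / (((k : ℝ) + 1) * k.factorial)) =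
          ∑ x ∈ antidiagonal r, (2 : ℝ) ^ (m * (r + 1)) * r.factorial *
            ((G ^ k).coeff x.1 / k.factorial * (G.coeff (x.2 + 1) * (x.2 + 1))) := by
        rw [← mul_sum]
        have h5 : ∑ x ∈ antidiagonal r, ((G ^ k).coeff x.1 / (k.factorial : ℝ) *
            (G.coeff (x.2 + 1) * (x.2 + 1))) = (∑ x ∈ antidiagonal r, (G ^ k).coeff x.1 *
            (G.coeff (x.2 + 1) * (x.2 + 1))) / k.factorial := by
          rw [sum_div]
          refine sum_congr rfl fun x _ => ?_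
          ring
        rw [h5]
        field_simp
      rw [h4]
      refine sum_congr rfl fun x hx => ?_
      rw [HasAntidiagonal.mem_antidiagonal] at hx
      rw [← ha, ← hb]
      have h6 : (r.factorial : ℝ) = (r.choose x.1 : ℝ) * x.1.factorial * x.2.factorial := by
        rw [← hx]
        have := Nat.add_choose_mul_factorial_mul_factorial x.1 x.2
        rw [Nat.choose_symm_add]
        exact_mod_cast this.symm
      rw [h6, Nat.factorial_succ]
      push_cast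
      have h7 : (2 : ℝ) ^ (m * (r + 1)) = 2 ^ (m * x.1) * 2 ^ (m * (x.2 + 1)) := by
        rw [← pow_add, ← mul_add, ← hx, add_assoc]
      rw [h7]
      ring

private theorem kp_int_fact (γ : ℝ) (g : ℤ) (hg : 2 * γ = g) (i : ℕ) :
    ∃ o : ℤ, (2 : ℝ) ^ i * ((i.factorial : ℝ) * Ring.choose γ i) = o := by
  rw [kp_fact_choose]
  induction i with
  | zero => exact ⟨1, by simp⟩
  | succ i ih =>
    obtain ⟨o, h⟩ := ih
    refine ⟨o * (g - 2 * i), ?_⟩
    rw [prod_range_succ, pow_succ]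
    push_cast
    rw [← h, ← hg]
    ring

private theorem kp_bser_int (m : ℕ) (γ : ℝ) (g : ℤ) (hg : 2 * γ = g) (P : ℝ[X])
    (h0 : P.coeff 0 = 1)
    (hint : ∀ r : ℕ, ∃ o : ℤ, (2 : ℝ) ^ (m * r) * (r.factorial : ℝ) * P.coeff r = o) (d a : ℕ) :
    ∃ o : ℤ, (2 : ℝ) ^ ((m + 1) * a) * (a.factorial : ℝ) * (bser γ d P).coeff a = o := by
  have hG0 : (P - 1).coeff 0 = 0 := by simp [h0]
  have hGint : ∀ r : ℕ, ∃ o : ℤ,
      (2 : ℝ) ^ (m * r) * (r.factorial : ℝ) * (P - 1).coeff r = o := by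
    intro r
    rcases Nat.eq_zero_or_pos r with h | h
    · subst h; exact ⟨0, by rw [hG0]; simp⟩
    · rw [coeff_sub, coeff_one, if_neg (by omega), sub_zero]
      exact hint r
  choose b hb using fun i => kp_int m (P - 1) hG0 hGint i a
  choose o ho using fun i => kp_int_fact γ g hg i
  refine ⟨∑ i ∈ range (d + 1), if i ≤ a then o i * 2 ^ (a - i) * b i else 0, ?_⟩
  unfold bser
  rw [finsetSum_coeff, mul_sum, Int.cast_sum]
  refine sum_congr rfl fun i _ => ?_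
  rw [coeff_C_mul]
  split_ifs with hi
  · push_cast
    rw [← ho, ← hb]
    have h2 : (2 : ℝ) ^ ((m + 1) * a) = 2 ^ (m * a) * (2 ^ i * 2 ^ (a - i)) := by
      rw [← pow_add, ← pow_add, Nat.add_sub_cancel' hi]
      congr 1
      ring
    rw [h2]
    have h3 : (i.factorial : ℝ) ≠ 0 := by positivity
    field_simp
  · rw [pow_coeff_eq_zero P h0 (by omega)]
    simp

private theorem kp_ex (b : Bool) : (∃ u : ℕ, ex b = (3 : ℝ) ^ u / 2 ^ 1) ∧
    (∃ g : ℤ, 2 * (ex b - 1) = g) ∧ ∃ g : ℤ, ex b = g / 2 := by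
  cases b
  · refine ⟨⟨0, ?_⟩, ⟨-1, ?_⟩, ⟨1, ?_⟩⟩ <;> norm_num [ex]
  · refine ⟨⟨1, ?_⟩, ⟨1, ?_⟩, ⟨3, ?_⟩⟩ <;> norm_num [ex]

private theorem kp_sg (w : ℕ → Bool) {k : ℕ} (hw : Pos w k) (j : ℕ) (hj : j < k) :
    (∀ r : ℕ, ∃ o : ℤ, (2 : ℝ) ^ (j * r) * (r.factorial : ℝ) * (sg w j).coeff r = o) ∧
    (∀ r : ℕ, 1 ≤ j → r ≤ dq w j → ∃ o : ℤ, Odd o ∧
      (2 : ℝ) ^ (j * r) * (r.factorial : ℝ) * (sg w j).coeff r = o) ∧
    (∃ o : ℤ, Odd o ∧ (2 : ℝ) ^ j * (sg w j).coeff 1 = o) := by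
  induction j with
  | zero =>
    refine ⟨?_, ?_, ?_⟩
    · intro r
      simp only [sg]
      rw [coeff_add, coeff_one, coeff_X]
      rcases r with _ | _ | r
      · exact ⟨1, by simp⟩
      · exact ⟨1, by simp⟩
      · refine ⟨0, ?_⟩
        rw [if_neg (by omega), if_neg (by omega)]
        simp
    · intro r h1; omega
    · exact ⟨1, odd_one, by simp [sg, coeff_one]⟩
  | succ j ih =>
    obtain ⟨i1, -, i3⟩ := ih (by omega)
    obtain ⟨⟨u, hu⟩, -, -⟩ := kp_ex (w j)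
    have h0 := (bs_coeff_zero' w (fun _ => 1) 1 hw (j := j) (by omega)).2.1
    have hd := dq_pos hw hj
    have key : ∀ r ≤ dq w (j + 1), ∃ o : ℤ, Odd o ∧
        (2 : ℝ) ^ ((j + 1) * r) * (r.factorial : ℝ) * (sg w (j + 1)).coeff r = o := by
      intro r hr
      obtain ⟨o, ho1, ho2⟩ := bser_odd j 1 u le_rfl (sg w j) h0 i1 i3 r (dq w (j + 1)) hr
      refine ⟨o, ho1, ?_⟩
      rw [← hu] at ho2
      simp only [sg, bs]
      rw [trunc_coeff, if_pos hr]
      exact ho2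
    refine ⟨?_, fun r _ hr => key r hr, ?_⟩
    · intro r
      by_cases hr : r ≤ dq w (j + 1)
      · obtain ⟨o, -, ho⟩ := key r hr
        exact ⟨o, ho⟩
      · refine ⟨0, ?_⟩
        simp only [sg, bs]
        rw [trunc_coeff, if_neg hr]
        simp
    · obtain ⟨o, ho1, ho2⟩ := key 1 hd
      exact ⟨o, ho1, by simpa using ho2⟩

private theorem kp_dbs (w : ℕ → Bool) {k : ℕ} (hw : Pos w k) (j : ℕ) (hj : j < k) (D : ℝ[X])
    (hD0 : D.coeff 0 = 0)
    (hD : ∀ r : ℕ, ∃ o : ℤ, (2 : ℝ) ^ (j * (r + 1)) * (r.factorial : ℝ) * D.coeff r = o) (r : ℕ) :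
    ∃ o : ℤ, Even o ∧
      (2 : ℝ) ^ ((j + 1) * (r + 1)) * (r.factorial : ℝ) * (dbs w j (sg w j) D).coeff r = o := by
  by_cases hr : r ≤ dq w (j + 1)
  swap
  · refine ⟨0, Even.zero, ?_⟩
    unfold dbs
    rw [trunc_coeff, if_neg hr]
    simp
  obtain ⟨i1, -, -⟩ := kp_sg w hw j hj
  obtain ⟨-, ⟨g, hg⟩, ⟨e, he⟩⟩ := kp_ex (w j)
  have h0 := (bs_coeff_zero' w (fun _ => 1) 1 hw (j := j) hj).2.1
  choose β hβ using fun a => kp_bser_int j (ex (w j) - 1) g hg (sg w j) h0 i1 (dq w (j + 1)) a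
  choose δ hδ using hD
  have hδ0 : δ 0 = 0 := by
    have := hδ 0
    rw [hD0, mul_zero] at this
    exact_mod_cast this.symm
  refine ⟨∑ x ∈ antidiagonal r, e * (r.choose x.1 : ℤ) * β x.1 * δ x.2 * 2 ^ x.2, ?_, ?_⟩
  · refine even_sum _ fun x _ => ?_
    rcases Nat.eq_zero_or_pos x.2 with h | h
    · rw [h, hδ0]; simp
    · have h1 : Even ((2 : ℤ) ^ x.2) := Even.pow_of_ne_zero even_two (by omega)
      exact h1.mul_left _
  · unfold dbs
    rw [trunc_coeff, if_pos hr, mul_assoc (C _), coeff_C_mul, coeff_mul]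
    generalize bser (ex (w j) - 1) (dq w (j + 1)) (sg w j) = B at hβ ⊢
    rw [he, mul_sum, mul_sum]
    push_cast
    refine sum_congr rfl fun x hx => ?_
    rw [HasAntidiagonal.mem_antidiagonal] at hx
    rw [← hβ, ← hδ]
    have h6 : (r.factorial : ℝ) = (r.choose x.1 : ℝ) * x.1.factorial * x.2.factorial := by
      rw [← hx]
      have := Nat.add_choose_mul_factorial_mul_factorial x.1 x.2
      rw [Nat.choose_symm_add]
      exact_mod_cast this.symm
    have h7 : (2 : ℝ) ^ ((j + 1) * (r + 1)) =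
        2 ^ ((j + 1) * x.1) * 2 ^ (j * (x.2 + 1)) * 2 ^ x.2 * 2 := by
      rw [← pow_add, ← pow_add, ← pow_succ, ← hx]
      congr 1
      ring
    rw [h6, h7]
    ring

private theorem kp_dl_coeff (w : ℕ → Bool) (γ : ℝ) (j r : ℕ) :
    (dl w γ (j + 1)).coeff r = (dbs w j (sg w j) (dl w γ j)).coeff r ∨
      (r = dq w (j + 1) ∧ (dl w γ (j + 1)).coeff r = -gq w (j + 1) * (sg w (j + 1)).coeff r) ∨
      (dq w (j + 1) < r ∧ (dl w γ (j + 1)).coeff r = 0) := by
  classical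
  simp only [dl]
  split_ifs with h
  · rw [coeff_add, finsetSum_coeff, coeff_monomial]
    simp only [coeff_monomial]
    rw [sum_ite_eq']
    rcases lt_trichotomy r (dq w (j + 1)) with h1 | h1 | h1
    · left
      rw [if_pos (mem_range.2 h1), if_neg (by omega), add_zero]
    · right; left
      refine ⟨h1, ?_⟩
      rw [if_neg (by simp; omega), if_pos h1.symm, zero_add, h1]
    · right; right
      refine ⟨h1, ?_⟩
      rw [if_neg (by simp; omega), if_neg (by omega), zero_add]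
  · left
    rfl

private theorem kp_dl (w : ℕ → Bool) {k : ℕ} (hw : Pos w k) (γ : ℝ) (j : ℕ) (hj : j < k) (r : ℕ) :
    ∃ o : ℤ, (2 : ℝ) ^ (j * (r + 1)) * (r.factorial : ℝ) * (dl w γ j).coeff r = o := by
  induction j generalizing r with
  | zero => exact ⟨0, by simp [dl]⟩
  | succ j ih =>
    have hD0 := (bs_coeff_zero' w (fun _ => 1) 1 hw (j := j) (by omega)).2.2 γ
    rcases kp_dl_coeff w γ j r with h | ⟨h1, h⟩ | ⟨-, h⟩
    · obtain ⟨o, -, ho⟩ := kp_dbs w hw j (by omega) (dl w γ j) hD0 (ih (by omega)) r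
      exact ⟨o, by rw [h]; exact ho⟩
    · obtain ⟨a, -, ha⟩ := gq_odd w (j := j + 1) (by omega)
      obtain ⟨b, hb⟩ := (kp_sg w hw (j + 1) hj).1 r
      refine ⟨-(a * b), ?_⟩
      rw [h]
      push_cast
      rw [← ha, ← hb]
      have h2 : (2 : ℝ) ^ ((j + 1) * (r + 1)) = 2 ^ (j + 1) * 2 ^ ((j + 1) * r) := by
        rw [← pow_add]; congr 1; ring
      rw [h2]
      ring
    · exact ⟨0, by rw [h]; simp⟩

theorem kap_odd (w : ℕ → Bool) {k : ℕ} (hw : Pos w k) {j : ℕ} (hj : 1 ≤ j) (hjk : j < k) :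
    ∃ o : ℤ, Odd o ∧ (2 : ℝ) ^ (j * (dq w j + 1)) * ((dq w j).factorial : ℝ) * kap w j = o := by
  obtain ⟨j, rfl⟩ : ∃ i, j = i + 1 := ⟨j - 1, by omega⟩
  obtain ⟨a, ha1, ha⟩ := gq_odd w (j := j + 1) (by omega)
  obtain ⟨b, hb1, hb⟩ := (kp_sg w hw (j + 1) hjk).2.1 (dq w (j + 1)) (by omega) le_rfl
  have hD0 := (bs_coeff_zero' w (fun _ => 1) 1 hw (j := j) (by omega)).2.2 (gq w (j + 1))
  obtain ⟨c, hc1, hc⟩ := kp_dbs w hw j (by omega) (dl w (gq w (j + 1)) j) hD0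
    (kp_dl w hw (gq w (j + 1)) j (by omega)) (dq w (j + 1))
  refine ⟨a * b + c, (ha1.mul hb1).add_even hc1, ?_⟩
  unfold kap
  rw [Nat.add_sub_cancel]
  push_cast
  rw [← ha, ← hb, ← hc]
  have h2 : (2 : ℝ) ^ ((j + 1) * (dq w (j + 1) + 1)) =
      2 ^ (j + 1) * 2 ^ ((j + 1) * dq w (j + 1)) := by
    rw [← pow_add]; congr 1; ring
  rw [h2]
  ring

theorem kap_lower : ∃ c : ℕ, ∀ k : ℕ, 1 ≤ k → ∀ w : ℕ → Bool, Pos w k → ∀ j, 1 ≤ j → j < k →
    1 / (2 : ℝ) ^ K2 c k ≤ |kap w j| := by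
  refine ⟨4, fun k hk w hw j hj hjk => ?_⟩
  obtain ⟨o, ho1, ho⟩ := kap_odd w hw hj hjk
  have h1 : (1 : ℝ) ≤ |(o : ℝ)| := by
    have h2 : o ≠ 0 := by rintro rfl; exact absurd ho1 (by decide)
    have h3 := Int.one_le_abs h2
    rw [← Int.cast_abs]
    exact_mod_cast h3
  set d := dq w j with hd
  have hdk : d ≤ 2 ^ k := (dq_le w j).trans (Nat.pow_le_pow_right (by norm_num) hjk.le)
  have hpos : (0 : ℝ) < 2 ^ (j * (d + 1)) * (d.factorial : ℝ) := by positivity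
  rw [← ho, abs_mul, abs_of_pos hpos] at h1
  have hbd : 2 ^ (j * (d + 1)) * d.factorial ≤ 2 ^ K2 4 k := by
    have e1 : d.factorial ≤ (2 ^ k) ^ 2 ^ k :=
      (Nat.factorial_le_pow d).trans ((Nat.pow_le_pow_left hdk d).trans
        (Nat.pow_le_pow_right (by positivity) hdk))
    have e2 : 2 ^ (j * (d + 1)) ≤ 2 ^ (k * (2 ^ k + 1)) :=
      Nat.pow_le_pow_right (by norm_num) (Nat.mul_le_mul hjk.le (by omega))
    refine (Nat.mul_le_mul e2 e1).trans ?_
    rw [← pow_mul, ← pow_add]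
    apply Nat.pow_le_pow_right (by norm_num)
    have e3 : k ≤ 2 ^ k := (Nat.lt_two_pow_self (n := k)).le
    have e4 : 1 ≤ 2 ^ k := Nat.one_le_two_pow
    have e5 : k * (2 ^ k + 1) + k * 2 ^ k ≤ 2 ^ (2 * k + 2) := by
      have e6 : 2 ^ (2 * k + 2) = 4 * (2 ^ k * 2 ^ k) := by rw [pow_add, two_mul, pow_add]; ring
      rw [e6]
      nlinarith
    refine e5.trans ?_
    unfold K2
    apply Nat.pow_le_pow_right (by norm_num)
    nlinarith
  have hbdR : (2 : ℝ) ^ (j * (d + 1)) * (d.factorial : ℝ) ≤ 2 ^ K2 4 k := by exact_mod_cast hbd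
  rw [div_le_iff₀ (by positivity)]
  calc (1 : ℝ) ≤ 2 ^ (j * (d + 1)) * (d.factorial : ℝ) * |kap w j| := h1
    _ ≤ 2 ^ K2 4 k * |kap w j| := mul_le_mul_of_nonneg_right hbdR (abs_nonneg _)
    _ = |kap w j| * 2 ^ K2 4 k := mul_comm _ _

end Pool.Agent.Work.MP_215640_nt.Q
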