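import Pool.Agent.Work.MP_215640_nt.Q.Small

/-!
MODULE LIN. Linearisation of the models under shifts `h ≤ x^(1-γ+ε)`, `ε = 1/2^(10k)`, when the locked integers of the levels
with `gq < γ` do not change and the other levels `i ≤ j` have `gq w i ≥ γ + 1/2^k`.
-/

set_option autoImplicit false

namespace Pool.Agent.Work.MP_215640_nt.Q

open Finset Polynomial

/-! ### second order estimates for powers -/

theorem lin_rpow {s g : ℝ} (hs : 0 ≤ s) (hg0 : 0 ≤ g) (hg1 : g ≤ 1) :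
    |(1 + s) ^ (-g) - 1 + g * s| ≤ s ^ 2 ∧ |(1 + s) ^ g - 1 - g * s| ≤ s ^ 2 := by
  have h1s : 0 < 1 + s := by linarith
  obtain ⟨a, ha⟩ : ∃ a, (1 + s) ^ g = a := ⟨_, rfl⟩
  obtain ⟨b, hb⟩ : ∃ b, (1 + s) ^ (1 - g) = b := ⟨_, rfl⟩
  obtain ⟨c, hc⟩ : ∃ c, (1 + s) ^ (-g) = c := ⟨_, rfl⟩
  have hab : a * b = 1 + s := by
    rw [← ha, ← hb, ← Real.rpow_add h1s, add_sub_cancel, Real.rpow_one]
  have hac : a * c = 1 := by
    rw [← ha, ← hc, ← Real.rpow_add h1s, add_neg_cancel, Real.rpow_zero]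
  have ha1 : 1 ≤ a := by rw [← ha]; exact Real.one_le_rpow (by linarith) hg0
  have hb1 : 1 ≤ b := by rw [← hb]; exact Real.one_le_rpow (by linarith) (by linarith)
  have hc0 : 0 < c := by rw [← hc]; exact Real.rpow_pos_of_pos h1s _
  have ha2 : a ≤ 1 + g * s := by
    rw [← ha]
    exact rpow_one_add_le_one_add_mul_self (by linarith) hg0 hg1
  have hb2 : b ≤ 1 + (1 - g) * s := by
    rw [← hb]
    exact rpow_one_add_le_one_add_mul_self (by linarith) (by linarith) (by linarith)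
  have hgs : 0 ≤ g * s := mul_nonneg hg0 hs
  have hgs' : 0 ≤ (1 - g) * s := mul_nonneg (by linarith) hs
  rw [ha, hc]
  have hcb : c * (1 + s) = b := by
    rw [← hab]
    linear_combination b * hac
  have e1 : 1 - g * s ≤ c := by
    have h1 : 1 ≤ (1 + g * s) * c := by
      calc 1 = a * c := hac.symm
        _ ≤ (1 + g * s) * c := mul_le_mul_of_nonneg_right ha2 hc0.le
    by_contra hlt
    push Not at hlt
    have h2 : (1 + g * s) * c < (1 + g * s) * (1 - g * s) :=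
      mul_lt_mul_of_pos_left hlt (by linarith)
    nlinarith [sq_nonneg (g * s)]
  have e2 : c ≤ 1 - g * s + s ^ 2 := by
    have h1 : c * (1 + s) ≤ (1 - g * s + s ^ 2) * (1 + s) := by
      rw [hcb]
      have h2 : 0 ≤ (1 - g) * s ^ 2 := mul_nonneg (by linarith) (sq_nonneg s)
      have h3 : 0 ≤ s ^ 3 := pow_nonneg hs 3
      nlinarith
    exact le_of_mul_le_mul_right h1 h1s
  have e3 : 1 + g * s - s ^ 2 ≤ a := by
    have h1 : 1 + s ≤ a * (1 + (1 - g) * s) := by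
      calc 1 + s = a * b := hab.symm
        _ ≤ a * (1 + (1 - g) * s) := mul_le_mul_of_nonneg_left hb2 (by linarith)
    have h2 : (1 + g * s - s ^ 2) * (1 + (1 - g) * s) ≤ 1 + s := by
      have h3 : 0 ≤ (1 - g) * s * s ^ 2 := mul_nonneg hgs' (sq_nonneg s)
      have h4 : g * (1 - g) * s ^ 2 ≤ s ^ 2 := by
        have h5 : g * (1 - g) ≤ 1 := by nlinarith
        calc g * (1 - g) * s ^ 2 ≤ 1 * s ^ 2 := mul_le_mul_of_nonneg_right h5 (sq_nonneg s)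
          _ = s ^ 2 := one_mul _
      nlinarith
    exact le_of_mul_le_mul_right (h2.trans h1) (by linarith)
  constructor
  · rw [abs_le]
    constructor
    · have := sq_nonneg s
      linarith
    · linarith
  · rw [abs_le]
    constructor
    · linarith
    · have := sq_nonneg s
      linarith

/-! ### the coefficients of `dl` -/

theorem lin_dl_lt (w : ℕ → Bool) (γ : ℝ) (j r : ℕ) (hr : r < dq w (j + 1)) :
    (dl w γ (j + 1)).coeff r = (dbs w j (sg w j) (dl w γ j)).coeff r := by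
  rw [dl]
  split_ifs with hg
  · rw [coeff_add, finsetSum_coeff, coeff_monomial, if_neg (by omega), add_zero]
    simp only [coeff_monomial]
    rw [Finset.sum_ite_eq' (range (dq w (j + 1))) r, if_pos (Finset.mem_range.mpr hr)]
  · rfl

theorem lin_dl_top (w : ℕ → Bool) (γ : ℝ) (j : ℕ) (hg : gq w (j + 1) < γ) :
    (dl w γ (j + 1)).coeff (dq w (j + 1)) =
      -gq w (j + 1) * (sg w (j + 1)).coeff (dq w (j + 1)) := by
  rw [dl, if_pos hg, coeff_add, finsetSum_coeff, coeff_monomial, if_pos rfl]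
  simp only [coeff_monomial]
  rw [Finset.sum_ite_eq' (range (dq w (j + 1))) (dq w (j + 1)),
    if_neg (by simp), zero_add]

theorem lin_dl_un (w : ℕ → Bool) (γ : ℝ) (j : ℕ) (hg : ¬ gq w (j + 1) < γ) :
    dl w γ (j + 1) = dbs w j (sg w j) (dl w γ j) := by
  rw [dl, if_neg hg]

theorem lin_pq (q : ℕ → ℕ) (j : ℕ) : (pq q (j + 1 + 1) : ℝ) = pq q (j + 1) * q (j + 1) := by
  unfold pq
  rw [Finset.prod_range_succ _ (j + 1)]
  push_cast
  ring

/-! ### linearisation of `bs` -/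

theorem lin_bs (w : ℕ → Bool) {k : ℕ} (hw : Pos w k) (q : ℕ → ℕ) {x h γ R0 R1 s σ ρ θ : ℝ}
    (hR0 : 1 ≤ R0) (hR1 : 1 ≤ R1) (hσ : 0 ≤ σ) (hρ0 : 0 ≤ ρ) (hρ : ρ ≤ 1) (hσσ : σ * σ ≤ θ)
    (hσρ : σ * ρ ≤ θ) {j : ℕ} (hj : j + 1 ≤ k)
    (h1 : nm (al w q x j) ≤ R0) (h2 : nm (al w q (x + h) j) ≤ R0)
    (h3 : nm (al w q x j - (sg w j).comp (C (pq q (j + 1) : ℝ) * X)) ≤ R0 * ρ)
    (h4 : nm (al w q (x + h) j - al w q x j) ≤ R1 * σ) :
    nm (bs w j (al w q (x + h) j) - bs w j (al w q x j) -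
        C s * (dbs w j (sg w j) (dl w γ j)).comp (C (pq q (j + 1) : ℝ) * X)) ≤
      4 * ((2 : ℝ) ^ k + 1) ^ 3 * (2 * R0 + 1) ^ (2 ^ k) * (R1 ^ 2 + R0 * R1 + 1) *
        (θ + nm (al w q (x + h) j - al w q x j -
          C s * (dl w γ j).comp (C (pq q (j + 1) : ℝ) * X))) := by
  have hjk : j < k := by omega
  have hθ : 0 ≤ θ := (mul_nonneg hσ hσ).trans hσσ
  obtain ⟨P, hP⟩ : ∃ P, al w q x j = P := ⟨_, rfl⟩
  obtain ⟨P', hP'⟩ : ∃ P', al w q (x + h) j = P' := ⟨_, rfl⟩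
  obtain ⟨S, hS⟩ : ∃ S, (sg w j).comp (C (pq q (j + 1) : ℝ) * X) = S := ⟨_, rfl⟩
  obtain ⟨L, hL⟩ : ∃ L, (dl w γ j).comp (C (pq q (j + 1) : ℝ) * X) = L := ⟨_, rfl⟩
  have hG : (dbs w j (sg w j) (dl w γ j)).comp (C (pq q (j + 1) : ℝ) * X) = dbs w j S L := by
    rw [← hS, ← hL, dbs_scale]
  have hP0 : P.coeff 0 = 1 := by rw [← hP]; exact (bs_coeff_zero' w q x hw hjk).1
  have hP'0 : P'.coeff 0 = 1 := by rw [← hP']; exact (bs_coeff_zero' w q (x + h) hw hjk).1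
  rw [hP, hP', hL, hG]
  rw [hP] at h1
  rw [hP'] at h2
  rw [hP, hS] at h3
  rw [hP, hP'] at h4
  obtain ⟨E, hE⟩ : ∃ E, P' - P - C s * L = E := ⟨_, rfl⟩
  rw [hE]
  set R := 2 * R0 + 1 with hR
  have hR1' : 1 ≤ R := by linarith
  have hPR : nm (P - 1) ≤ R := (small_sub_one h1).trans (by linarith)
  have hP'R : nm (P' - 1) ≤ R := (small_sub_one h2).trans (by linarith)
  have hSR : nm (S - 1) ≤ R := by
    have e : S = P - (P - S) := by ring
    have h5 : nm S ≤ 2 * R0 := by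
      rw [e]
      refine (nm_sub_le _ _).trans ?_
      have : R0 * ρ ≤ R0 * 1 := mul_le_mul_of_nonneg_left hρ (by linarith)
      linarith
    exact small_sub_one h5
  have hD0 : (P' - P).coeff 0 = 0 := by rw [coeff_sub, hP0, hP'0, sub_self]
  have hPD : P + (P' - P) = P' := by ring
  have q1 := bs_quad w j P (P' - P) hP0 hD0 R hR1' hPR (by rw [hPD]; exact hP'R)
  rw [hPD] at q1
  have q2 := dbs_lip w j P S (P' - P) R hR1' hPR hSR
  have q3 := dbs_nm w j S E R hR1' hSR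
  have hsplit : dbs w j S (P' - P) = C s * dbs w j S L + dbs w j S E := by
    have e : P' - P = C s * L + E := by rw [← hE]; ring
    rw [e, dbs_add, dbs_smul]
  have hid : bs w j P' - bs w j P - C s * dbs w j S L =
      (bs w j P' - bs w j P - dbs w j P (P' - P)) +
        (dbs w j P (P' - P) - dbs w j S (P' - P)) + dbs w j S E := by
    rw [hsplit]; ring
  rw [hid]
  refine (nm_add_le _ _).trans ((add_le_add (nm_add_le _ _) le_rfl).trans ?_)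
  have hd0 : (0 : ℝ) ≤ dq w (j + 1) := Nat.cast_nonneg _
  have hd : (dq w (j + 1) : ℝ) + 1 ≤ (2 : ℝ) ^ k + 1 := by
    have := small_dq' (w := w) hj
    linarith
  obtain ⟨t, ht⟩ : ∃ t, (2 : ℝ) ^ k + 1 = t := ⟨_, rfl⟩
  obtain ⟨δ, hδ⟩ : ∃ δ, (dq w (j + 1) : ℝ) + 1 = δ := ⟨_, rfl⟩
  have hδ1 : 1 ≤ δ := by linarith
  have hRd : R ^ dq w (j + 1) ≤ R ^ (2 ^ k) := pow_le_pow_right₀ hR1' (small_dq hj)
  obtain ⟨ϱ, hϱ⟩ : ∃ ϱ, R ^ (2 ^ k) = ϱ := ⟨_, rfl⟩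
  obtain ⟨υ, hυ⟩ : ∃ υ, R ^ dq w (j + 1) = υ := ⟨_, rfl⟩
  have hυ1 : 1 ≤ υ := by rw [← hυ]; exact one_le_pow₀ hR1'
  rw [ht, hδ] at hd
  rw [hδ, hυ] at q1 q2 q3
  rw [hϱ, hυ] at hRd
  rw [ht, hϱ]
  have hnE := nm_nonneg E
  have hnD := nm_nonneg (P' - P)
  have hnS := nm_nonneg (P - S)
  have ht1 : 1 ≤ t := by linarith
  have hK0 : 0 ≤ 4 * t ^ 3 * ϱ := by
    have : 0 ≤ ϱ := by linarith
    positivity
  -- the three terms
  have hDD : nm (P' - P) ^ 2 ≤ R1 ^ 2 * θ := by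
    calc nm (P' - P) ^ 2 ≤ (R1 * σ) ^ 2 := pow_le_pow_left₀ hnD h4 2
      _ = R1 ^ 2 * (σ * σ) := by ring
      _ ≤ R1 ^ 2 * θ := mul_le_mul_of_nonneg_left hσσ (by positivity)
  have hSD : nm (P - S) * nm (P' - P) ≤ R0 * R1 * θ := by
    calc nm (P - S) * nm (P' - P) ≤ (R0 * ρ) * (R1 * σ) :=
          mul_le_mul h3 h4 hnD (by positivity)
      _ = R0 * R1 * (σ * ρ) := by ring
      _ ≤ R0 * R1 * θ := mul_le_mul_of_nonneg_left hσρ (by positivity)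
  have hc3 : 4 * δ ^ 3 * υ ≤ 4 * t ^ 3 * ϱ := by
    have : δ ^ 3 ≤ t ^ 3 := pow_le_pow_left₀ (by linarith) hd 3
    exact mul_le_mul (by linarith) hRd (by linarith) (by positivity)
  have hc2 : 3 * δ ^ 2 * υ ≤ 4 * t ^ 3 * ϱ := by
    refine le_trans ?_ hc3
    have : δ ^ 2 ≤ δ ^ 3 := pow_le_pow_right₀ hδ1 (by norm_num)
    have h0 : 0 ≤ δ ^ 2 := by positivity
    exact mul_le_mul_of_nonneg_right (by linarith) (by linarith)
  have hc1 : 3 * δ * υ ≤ 4 * t ^ 3 * ϱ := by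
    refine le_trans ?_ hc3
    have : δ ≤ δ ^ 3 := le_self_pow₀ hδ1 (by norm_num)
    exact mul_le_mul_of_nonneg_right (by linarith) (by linarith)
  have r1 : nm (bs w j P' - bs w j P - dbs w j P (P' - P)) ≤ 4 * t ^ 3 * ϱ * (R1 ^ 2 * θ) :=
    q1.trans (mul_le_mul hc3 hDD (by positivity) hK0)
  have r2 : nm (dbs w j P (P' - P) - dbs w j S (P' - P)) ≤ 4 * t ^ 3 * ϱ * (R0 * R1 * θ) := by
    refine q2.trans ?_
    rw [mul_assoc]
    exact mul_le_mul hc2 hSD (by positivity) hK0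
  have r3 : nm (dbs w j S E) ≤ 4 * t ^ 3 * ϱ * nm E :=
    q3.trans (mul_le_mul hc1 le_rfl hnE hK0)
  calc nm (bs w j P' - bs w j P - dbs w j P (P' - P)) +
        nm (dbs w j P (P' - P) - dbs w j S (P' - P)) + nm (dbs w j S E) ≤
      4 * t ^ 3 * ϱ * (R1 ^ 2 * θ) + 4 * t ^ 3 * ϱ * (R0 * R1 * θ) + 4 * t ^ 3 * ϱ * nm E := by
        linarith
    _ = 4 * t ^ 3 * ϱ * (R1 ^ 2 * θ + R0 * R1 * θ + nm E) := by ring
    _ ≤ 4 * t ^ 3 * ϱ * ((R1 ^ 2 + R0 * R1 + 1) * (θ + nm E)) := by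
        apply mul_le_mul_of_nonneg_left _ hK0
        have g1 : 0 ≤ (R1 ^ 2 + R0 * R1) * nm E := by positivity
        nlinarith
    _ = _ := by ring

/-- one step of the recursion -/
theorem lin_rec (w : ℕ → Bool) {k : ℕ} (hw : Pos w k) (q : ℕ → ℕ) {B : ℝ} (hB : 2 ≤ B)
    (hq : ∀ i, (q i : ℝ) ≤ B) {x h γ R0 R1 σ ρ θ : ℝ} (hx : 1 ≤ x) (hh : 0 ≤ h)
    (hs : h / x ≤ σ) (hR0 : 1 ≤ R0) (hR1 : 1 ≤ R1) (hσ : 0 ≤ σ) (hρ0 : 0 ≤ ρ) (hρ : ρ ≤ 1)
    (hσσ : σ * σ ≤ θ) (hσρ : σ * ρ ≤ θ) {j : ℕ} (hj : j + 1 < k)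
    (h1 : nm (al w q x j) ≤ R0) (h2 : nm (al w q (x + h) j) ≤ R0)
    (h3 : nm (al w q x j - (sg w j).comp (C (pq q (j + 1) : ℝ) * X)) ≤ R0 * ρ)
    (h4 : nm (al w q (x + h) j - al w q x j) ≤ R1 * σ)
    (h5 : nm (al w q x (j + 1)) ≤ R0)
    (h6 : nm (al w q x (j + 1) - (sg w (j + 1)).comp (C (pq q (j + 1 + 1) : ℝ) * X)) ≤ R0 * ρ)
    (hfr : gq w (j + 1) < γ → ct w q (x + h) (j + 1) = ct w q x (j + 1))
    (hun : ¬ gq w (j + 1) < γ → x ^ (-gq w (j + 1)) ≤ θ) :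
    nm (al w q (x + h) (j + 1) - al w q x (j + 1) -
        C (h / x) * (dl w γ (j + 1)).comp (C (pq q (j + 1 + 1) : ℝ) * X)) ≤
      ((2 : ℝ) ^ k + 1) * (B ^ (2 ^ k) * (4 * ((2 : ℝ) ^ k + 1) ^ 3 * (2 * R0 + 1) ^ (2 ^ k) *
        (R1 ^ 2 + R0 * R1 + 1)) + 2 * R0 + 2) *
        (θ + nm (al w q (x + h) j - al w q x j -
          C (h / x) * (dl w γ j).comp (C (pq q (j + 1) : ℝ) * X))) := by
  have hx0 : 0 < x := by linarith
  have hB1 : 1 ≤ B := by linarith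
  have hθ : 0 ≤ θ := (mul_nonneg hσ hσ).trans hσσ
  have hs0 : 0 ≤ h / x := by positivity
  have hbs := lin_bs w hw q (x := x) (h := h) (γ := γ) (s := h / x) hR0 hR1 hσ hρ0 hρ hσσ hσρ
    hj.le h1 h2 h3 h4
  set K := 4 * ((2 : ℝ) ^ k + 1) ^ 3 * (2 * R0 + 1) ^ (2 ^ k) * (R1 ^ 2 + R0 * R1 + 1) with hK
  have hK0 : 0 ≤ K := by positivity
  set ν := nm (al w q (x + h) j - al w q x j -
          C (h / x) * (dl w γ j).comp (C (pq q (j + 1) : ℝ) * X)) with hν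
  have hν0 : 0 ≤ ν := nm_nonneg _
  obtain ⟨Q, hQ⟩ : ∃ Q, bs w j (al w q (x + h) j) - bs w j (al w q x j) -
        C (h / x) * (dbs w j (sg w j) (dl w γ j)).comp (C (pq q (j + 1) : ℝ) * X) = Q := ⟨_, rfl⟩
  rw [hQ] at hbs
  have hQc : ∀ r, Q.coeff r = (bs w j (al w q (x + h) j)).coeff r - (bs w j (al w q x j)).coeff r -
      h / x * ((pq q (j + 1) : ℝ) ^ r * (dbs w j (sg w j) (dl w γ j)).coeff r) := by
    intro r
    rw [← hQ, coeff_sub, coeff_sub, coeff_C_mul, coeff_scale]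
  have hqQ : ∀ r ≤ dq w (j + 1), |(q (j + 1) : ℝ) ^ r * Q.coeff r| ≤ B ^ (2 ^ k) * (K * (θ + ν)) := by
    intro r hr
    rw [abs_mul, abs_of_nonneg (by positivity : (0 : ℝ) ≤ (q (j + 1) : ℝ) ^ r)]
    have g1 : (q (j + 1) : ℝ) ^ r ≤ B ^ (2 ^ k) := by
      calc (q (j + 1) : ℝ) ^ r ≤ B ^ r := pow_le_pow_left₀ (Nat.cast_nonneg _) (hq _) r
        _ ≤ B ^ (2 ^ k) := pow_le_pow_right₀ hB1 (hr.trans (small_dq hj.le))
    exact mul_le_mul g1 ((abs_coeff_le_nm _ _).trans hbs) (abs_nonneg _) (by positivity)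
  have hsσ2 : (h / x) ^ 2 ≤ θ := by
    calc (h / x) ^ 2 ≤ σ ^ 2 := pow_le_pow_left₀ hs0 hs 2
      _ = σ * σ := by ring
      _ ≤ θ := hσσ
  have hsρ : h / x * ρ ≤ θ := (mul_le_mul_of_nonneg_right hs hρ0).trans hσρ
  have hg0 := gq_nonneg w (j + 1)
  have hg1 : gq w (j + 1) ≤ 1 := (gq_upper w (by omega : 1 ≤ j + 1)).trans (by
            have : (0 : ℝ) ≤ 1 / 2 ^ (j + 1) := by positivity
            linarith)
  have hmain : ∀ r ≤ dq w (j + 1), |(al w q (x + h) (j + 1) - al w q x (j + 1) -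
        C (h / x) * (dl w γ (j + 1)).comp (C (pq q (j + 1 + 1) : ℝ) * X)).coeff r| ≤
      B ^ (2 ^ k) * (K * (θ + ν)) + (2 * R0 + 2) * θ := by
    intro r hr
    have hc : (al w q (x + h) (j + 1) - al w q x (j + 1) -
        C (h / x) * (dl w γ (j + 1)).comp (C (pq q (j + 1 + 1) : ℝ) * X)).coeff r =
        (al w q (x + h) (j + 1)).coeff r - (al w q x (j + 1)).coeff r -
          h / x * ((pq q (j + 1) * q (j + 1) : ℝ) ^ r * (dl w γ (j + 1)).coeff r) := by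
      rw [coeff_sub, coeff_sub, coeff_C_mul, coeff_scale, lin_pq]
    rw [hc]
    have hRθ : 0 ≤ (2 * R0 + 2) * θ := by positivity
    rcases lt_or_eq_of_le hr with hr' | hr'
    · have e : (al w q (x + h) (j + 1)).coeff r - (al w q x (j + 1)).coeff r -
          h / x * ((pq q (j + 1) * q (j + 1) : ℝ) ^ r * (dl w γ (j + 1)).coeff r) =
          (q (j + 1) : ℝ) ^ r * Q.coeff r := by
        rw [hQc, al_coeff_lt w q _ _ _ hr', al_coeff_lt w q _ _ _ hr', lin_dl_lt w γ j r hr',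
          mul_pow]
        ring
      rw [e]
      have := hqQ r hr
      linarith
    · rw [hr']
      by_cases hg : gq w (j + 1) < γ
      · obtain ⟨t, ht⟩ : ∃ t, (al w q x (j + 1)).coeff (dq w (j + 1)) = t := ⟨_, rfl⟩
        obtain ⟨z, hz⟩ : ∃ z, (sg w (j + 1)).coeff (dq w (j + 1)) = z := ⟨_, rfl⟩
        rw [small_frozen w q hx0 hh j (hfr hg), lin_dl_top w γ j hg, ht, hz]
        have ht1 : |t| ≤ R0 := by rw [← ht]; exact (abs_coeff_le_nm _ _).trans h5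
        have htz : |t - (pq q (j + 1) * q (j + 1) : ℝ) ^ dq w (j + 1) * z| ≤ R0 * ρ := by
          have g1 := (abs_coeff_le_nm (al w q x (j + 1) -
            (sg w (j + 1)).comp (C (pq q (j + 1 + 1) : ℝ) * X)) (dq w (j + 1))).trans h6
          rw [coeff_sub, coeff_scale, lin_pq, ht, hz] at g1
          exact g1
        have e : (1 + h / x) ^ (-gq w (j + 1)) * t - t - h / x *
            ((pq q (j + 1) * q (j + 1) : ℝ) ^ dq w (j + 1) * (-gq w (j + 1) * z)) =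
            ((1 + h / x) ^ (-gq w (j + 1)) - 1 + gq w (j + 1) * (h / x)) * t -
              gq w (j + 1) * (h / x) *
                (t - (pq q (j + 1) * q (j + 1) : ℝ) ^ dq w (j + 1) * z) := by ring
        rw [e]
        refine (abs_sub _ _).trans ?_
        rw [abs_mul, abs_mul, abs_of_nonneg (mul_nonneg hg0 hs0)]
        have g1 : |(1 + h / x) ^ (-gq w (j + 1)) - 1 + gq w (j + 1) * (h / x)| * |t| ≤ θ * R0 :=
          mul_le_mul ((lin_rpow hs0 hg0 hg1).1.trans hsσ2) ht1 (abs_nonneg _) hθ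
        have g2 : gq w (j + 1) * (h / x) *
            |t - (pq q (j + 1) * q (j + 1) : ℝ) ^ dq w (j + 1) * z| ≤ R0 * θ := by
          calc gq w (j + 1) * (h / x) *
              |t - (pq q (j + 1) * q (j + 1) : ℝ) ^ dq w (j + 1) * z| ≤
              (1 * (h / x)) * (R0 * ρ) :=
                mul_le_mul (mul_le_mul_of_nonneg_right hg1 hs0) htz (abs_nonneg _) (by linarith)
            _ = R0 * (h / x * ρ) := by ring
            _ ≤ R0 * θ := mul_le_mul_of_nonneg_left hsρ (by linarith)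
        have g3 : 0 ≤ B ^ (2 ^ k) * (K * (θ + ν)) := by positivity
        nlinarith
      · have h7 := hun hg
        have h8 : (x + h) ^ (-gq w (j + 1)) ≤ x ^ (-gq w (j + 1)) :=
          Real.rpow_le_rpow_of_nonpos hx0 (by linarith) (by linarith)
        have g4 := small_top w q (x := x) hx0 j
        have g5 := small_top w q (x := x + h) (by linarith) j
        have g6 := hqQ (dq w (j + 1)) le_rfl
        rw [lin_dl_un w γ j hg]
        have e : (al w q (x + h) (j + 1)).coeff (dq w (j + 1)) -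
            (al w q x (j + 1)).coeff (dq w (j + 1)) -
            h / x * ((pq q (j + 1) * q (j + 1) : ℝ) ^ dq w (j + 1) *
              (dbs w j (sg w j) (dl w γ j)).coeff (dq w (j + 1))) =
            ((al w q (x + h) (j + 1)).coeff (dq w (j + 1)) -
              (q (j + 1) : ℝ) ^ dq w (j + 1) *
                (bs w j (al w q (x + h) j)).coeff (dq w (j + 1))) -
            ((al w q x (j + 1)).coeff (dq w (j + 1)) -
              (q (j + 1) : ℝ) ^ dq w (j + 1) * (bs w j (al w q x j)).coeff (dq w (j + 1))) +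
            (q (j + 1) : ℝ) ^ dq w (j + 1) * Q.coeff (dq w (j + 1)) := by
          rw [hQc, mul_pow]
          ring
        rw [e]
        refine (abs_add_le _ _).trans ?_
        have h9 := (abs_sub ((al w q (x + h) (j + 1)).coeff (dq w (j + 1)) -
              (q (j + 1) : ℝ) ^ dq w (j + 1) *
                (bs w j (al w q (x + h) j)).coeff (dq w (j + 1)))
            ((al w q x (j + 1)).coeff (dq w (j + 1)) -
              (q (j + 1) : ℝ) ^ dq w (j + 1) * (bs w j (al w q x j)).coeff (dq w (j + 1))))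
        have h10 : 2 * θ ≤ (2 * R0 + 2) * θ := mul_le_mul_of_nonneg_right (by linarith) hθ
        linarith
  have hdeg : (al w q (x + h) (j + 1) - al w q x (j + 1) -
        C (h / x) * (dl w γ (j + 1)).comp (C (pq q (j + 1 + 1) : ℝ) * X)).natDegree ≤
      dq w (j + 1) := by
    refine (natDegree_sub_le_of_le ((natDegree_sub_le_of_le (natDegree_models w q (x + h) 0 (j + 1)).1
      (natDegree_models w q x 0 (j + 1)).1).trans (max_self _).le)
      ((natDegree_C_mul_le _ _).trans ((natDegree_scale _ _).trans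
        (natDegree_models w q x γ (j + 1)).2.2))).trans (max_self _).le
  refine (nm_le_of_coeff _ _ hdeg _ hmain).trans ?_
  have hd : (dq w (j + 1) : ℝ) ≤ 2 ^ k := small_dq' hj.le
  have hnn : 0 ≤ B ^ (2 ^ k) * (K * (θ + ν)) + (2 * R0 + 2) * θ := by positivity
  calc ((dq w (j + 1) : ℝ) + 1) * (B ^ (2 ^ k) * (K * (θ + ν)) + (2 * R0 + 2) * θ) ≤
        ((2 : ℝ) ^ k + 1) * (B ^ (2 ^ k) * (K * (θ + ν)) + (2 * R0 + 2) * θ) :=
        mul_le_mul_of_nonneg_right (by linarith) hnn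
    _ ≤ ((2 : ℝ) ^ k + 1) * ((B ^ (2 ^ k) * K + 2 * R0 + 2) * (θ + ν)) := by
        apply mul_le_mul_of_nonneg_left _ (by positivity)
        have g5 : 0 ≤ (2 * R0 + 2) * ν := by positivity
        nlinarith
    _ = _ := by ring

theorem lin_aux {d T : ℝ} (hT : 0 ≤ T) (h : d ≤ T) : 2 * (d + 1) ≤ 2 * (T + 1) ^ 2 := by
  nlinarith

theorem lin_eps {k : ℕ} (hk : 1 ≤ k) : 2 * (1 / 2 ^ (10 * k) : ℝ) ≤ 1 / 2 ^ (k + 2) := by
  rw [mul_one_div, div_le_div_iff₀ (by positivity) (by positivity), one_mul, ← pow_succ']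
  exact pow_le_pow_right₀ (by norm_num) (by omega)

/-- the constant of `lin_bs` -/
theorem lin_K {B : ℝ} (hB : 2 ≤ B) {k : ℕ} (hk : 1 ≤ k) (c0 c1 : ℕ) :
    4 * ((2 : ℝ) ^ k + 1) ^ 3 * (2 * B ^ K2 c0 k + 1) ^ (2 ^ k) *
      ((2 * B ^ K2 c1 k) ^ 2 + B ^ K2 c0 k * (2 * B ^ K2 c1 k) + 1) ≤
      B ^ K2 (2 * c0 + 3 * c1 + 40) k := by
  have hB0 : (0 : ℝ) ≤ B := by linarith
  have hT := small_T hB hk
  have hT0 : (0 : ℝ) ≤ (2 : ℝ) ^ k + 1 := by positivity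
  have h4 := small_const hB hk 4
  have h2 := small_const hB hk 2
  have h1 := small_const hB hk 1
  have e0 := le_refl (B ^ K2 c0 k)
  have e1 := le_refl (B ^ K2 c1 k)
  have hTT := small_mul hB hk hT0 hT hT
  have hTTT := small_mul hB hk hT0 hTT hT
  have h4T := small_mul hB hk (by positivity) h4 hTTT
  have h2R := small_mul hB hk (by positivity) h2 e0
  have h2R1 := small_add hB hk h2R h1
  have hpow := small_pow hB hk (by positivity) h2R1 (le_refl (2 ^ k))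
  have hR1 := small_mul hB hk (by positivity) h2 e1
  have hR11 := small_mul hB hk (by positivity) hR1 hR1
  have hR01 := small_mul hB hk (by positivity) e0 hR1
  have s1 := small_add hB hk hR11 hR01
  have s2 := small_add hB hk s1 h1
  have s3 := small_mul hB hk (by positivity) h4T hpow
  have s4 := small_mul hB hk (by positivity) s3 s2
  push_cast at s4
  have e : 4 * ((2 : ℝ) ^ k + 1) ^ 3 * (2 * B ^ K2 c0 k + 1) ^ (2 ^ k) *
      ((2 * B ^ K2 c1 k) ^ 2 + B ^ K2 c0 k * (2 * B ^ K2 c1 k) + 1) =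
      4 * (((2 : ℝ) ^ k + 1) * ((2 : ℝ) ^ k + 1) * ((2 : ℝ) ^ k + 1)) *
        (2 * B ^ K2 c0 k + 1) ^ (2 ^ k) *
      ((2 * B ^ K2 c1 k) * (2 * B ^ K2 c1 k) + B ^ K2 c0 k * (2 * B ^ K2 c1 k) + 1) := by ring
  rw [e]
  exact small_mono hB (by omega) s4

theorem al_lin : ∃ c : ℕ, ∀ k : ℕ, 1 ≤ k → ∀ w : ℕ → Bool, Pos w k → ∀ B : ℕ, 2 ≤ B → ∀ q : ℕ → ℕ,
    (∀ i, 1 ≤ q i ∧ q i ≤ B) → ∀ x : ℝ, (B : ℝ) ^ K2 c k ≤ x → ∀ γ : ℝ, 1 / 2 ^ k ≤ γ →
    ∀ h : ℕ, (h : ℝ) ≤ x ^ (1 - γ + 1 / 2 ^ (10 * k)) → ∀ j < k,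
    (∀ i, 1 ≤ i → i ≤ j → gq w i < γ ∨ γ + 1 / 2 ^ k ≤ gq w i) →
    (∀ i, 1 ≤ i → i ≤ j → gq w i < γ → ct w q (x + h) i = ct w q x i) →
    nm (al w q (x + h) j - al w q x j -
      C (h / x) * (dl w γ j).comp (C (pq q (j + 1) : ℝ) * X)) ≤ x ^ (-γ - 1 / 2 ^ (k + 1)) := by
  obtain ⟨c0, hclose⟩ := al_close
  obtain ⟨c1, hsmall⟩ := al_small
  set a := 3 * c0 + 3 * c1 + 100 with ha
  have hA : ∀ k : ℕ, 1 ≤ k → ∀ B : ℝ, 2 ≤ B →
      2 * (((2 : ℝ) ^ k + 1) * (B ^ (2 ^ k) * (4 * ((2 : ℝ) ^ k + 1) ^ 3 *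
        (2 * B ^ K2 c0 k + 1) ^ (2 ^ k) *
        ((2 * B ^ K2 c1 k) ^ 2 + B ^ K2 c0 k * (2 * B ^ K2 c1 k) + 1)) +
          2 * B ^ K2 c0 k + 2)) ≤ B ^ K2 a k := by
    intro k hk B hB
    have hB0 : (0 : ℝ) ≤ B := by linarith
    have hT := small_T hB hk
    have h2 := small_const hB hk 2
    have hBk := small_pow hB hk hB0 (small_B hB k) (le_refl (2 ^ k))
    have s1 := small_mul hB hk (by positivity) hBk (lin_K hB hk c0 c1)
    have s2 := small_add hB hk s1 (small_mul hB hk (by positivity) h2 (le_refl (B ^ K2 c0 k)))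
    have s3 := small_add hB hk s2 h2
    have s4 := small_mul hB hk (by positivity) hT s3
    have s5 := small_mul hB hk (by positivity) h2 s4
    push_cast at s5
    exact small_mono hB (by omega) s5
  refine ⟨a + 1 + 3, ?_⟩
  intro k hk w hw B hB q hq x hx γ hγ h hhx j hj hsep hfr
  have hBr : (2 : ℝ) ≤ B := by exact_mod_cast hB
  have hB1 : (1 : ℝ) ≤ B := by linarith
  have hx0 : (B : ℝ) ^ K2 c0 k ≤ x := pow_K2_mono hB1 (by omega) hx
  have hx1 : (B : ℝ) ^ K2 c1 k ≤ x := pow_K2_mono hB1 (by omega) hx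
  have hR0 : (1 : ℝ) ≤ (B : ℝ) ^ K2 c0 k := one_le_pow₀ hB1
  have hR1 : (1 : ℝ) ≤ 2 * (B : ℝ) ^ K2 c1 k := by
    have : (1 : ℝ) ≤ (B : ℝ) ^ K2 c1 k := one_le_pow₀ hB1
    linarith
  have hx1' : 1 ≤ x := hR0.trans hx0
  have hxp : 0 < x := by linarith
  have hh0 : (0 : ℝ) ≤ (h : ℝ) := Nat.cast_nonneg _
  obtain ⟨ε, hε⟩ : ∃ ε : ℝ, 1 / 2 ^ (10 * k) = ε := ⟨_, rfl⟩
  have hε0 : 0 < ε := by rw [← hε]; positivity
  have hε2 : 2 * ε ≤ 1 / 2 ^ (k + 2) := by rw [← hε]; exact lin_eps hk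
  obtain ⟨κ, hκ⟩ : ∃ κ : ℝ, 1 / 2 ^ (k + 2) = κ := ⟨_, rfl⟩
  have hκ1 : (1 : ℝ) / 2 ^ (k + 1) = 2 * κ := by rw [← hκ]; field_simp; ring
  have hκ0 : (1 : ℝ) / 2 ^ k = 4 * κ := by rw [← hκ]; field_simp; ring
  have hκpos : 0 < κ := by rw [← hκ]; positivity
  rw [hκ] at hε2
  rw [hε] at hhx
  have hsep' : ∀ i, 1 ≤ i → i ≤ j → gq w i < γ ∨ γ + 4 * κ ≤ gq w i := by
    intro i hi1 hi2
    rw [← hκ0]
    exact hsep i hi1 hi2
  rw [hκ0] at hγ
  rw [hκ1]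
  set σ := x ^ (-γ + ε) with hσ
  set ρ := x ^ (-(1 / 2 ^ k) : ℝ) with hρ
  set θ := x ^ (-γ - 4 * κ + 2 * ε) with hθ
  have hσ0 : 0 < σ := Real.rpow_pos_of_pos hxp _
  have hρ0 : 0 < ρ := Real.rpow_pos_of_pos hxp _
  have hθ0 : 0 < θ := Real.rpow_pos_of_pos hxp _
  have hρ1 : ρ ≤ 1 := by
    rw [hρ, hκ0]
    exact Real.rpow_le_one_of_one_le_of_nonpos hx1' (by linarith)
  have hσσ : σ * σ ≤ θ := by
    rw [hσ, hθ, ← Real.rpow_add hxp]
    exact Real.rpow_le_rpow_of_exponent_le hx1' (by linarith)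
  have hσρ : σ * ρ ≤ θ := by
    rw [hσ, hθ, hρ, hκ0, ← Real.rpow_add hxp]
    exact Real.rpow_le_rpow_of_exponent_le hx1' (by linarith)
  have hs : (h : ℝ) / x ≤ σ := by
    rw [div_le_iff₀ hxp, hσ]
    calc (h : ℝ) ≤ x ^ (1 - γ + ε) := hhx
      _ = x ^ (-γ + ε) * x := by
          rw [← Real.rpow_add_one hxp.ne']
          congr 1
          ring
  have hhx' : (h : ℝ) ≤ x := by
    calc (h : ℝ) ≤ x ^ (1 - γ + ε) := hhx
      _ ≤ x ^ (1 : ℝ) := Real.rpow_le_rpow_of_exponent_le hx1' (by linarith)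
      _ = x := Real.rpow_one x
  have hγ0 : 0 < γ := by linarith
  have hη : (h : ℝ) / x + x ^ (-γ) ≤ 2 * σ := by
    have : x ^ (-γ) ≤ σ := Real.rpow_le_rpow_of_exponent_le hx1' (by linarith)
    linarith
  set A := ((2 : ℝ) ^ k + 1) * ((B : ℝ) ^ (2 ^ k) * (4 * ((2 : ℝ) ^ k + 1) ^ 3 *
        (2 * (B : ℝ) ^ K2 c0 k + 1) ^ (2 ^ k) *
        ((2 * (B : ℝ) ^ K2 c1 k) ^ 2 + (B : ℝ) ^ K2 c0 k * (2 * (B : ℝ) ^ K2 c1 k) + 1)) +
          2 * (B : ℝ) ^ K2 c0 k + 2) with hAdef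
  have hA1 : 1 ≤ A := by
    have g1 : (1 : ℝ) ≤ (2 : ℝ) ^ k + 1 := by
      have : (0 : ℝ) ≤ (2 : ℝ) ^ k := by positivity
      linarith
    have g2 : (1 : ℝ) ≤ (B : ℝ) ^ (2 ^ k) * (4 * ((2 : ℝ) ^ k + 1) ^ 3 *
        (2 * (B : ℝ) ^ K2 c0 k + 1) ^ (2 ^ k) *
        ((2 * (B : ℝ) ^ K2 c1 k) ^ 2 + (B : ℝ) ^ K2 c0 k * (2 * (B : ℝ) ^ K2 c1 k) + 1)) +
          2 * (B : ℝ) ^ K2 c0 k + 2 := by
      have : (0 : ℝ) ≤ (B : ℝ) ^ (2 ^ k) * (4 * ((2 : ℝ) ^ k + 1) ^ 3 *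
        (2 * (B : ℝ) ^ K2 c0 k + 1) ^ (2 ^ k) *
        ((2 * (B : ℝ) ^ K2 c1 k) ^ 2 + (B : ℝ) ^ K2 c0 k * (2 * (B : ℝ) ^ K2 c1 k) + 1)) := by
        positivity
      linarith
    calc (1 : ℝ) = 1 * 1 := by norm_num
      _ ≤ A := mul_le_mul g1 g2 (by norm_num) (by linarith)
  have hind : ∀ i, i < k → i ≤ j →
      nm (al w q (x + h) i - al w q x i -
        C ((h : ℝ) / x) * (dl w γ i).comp (C (pq q (i + 1) : ℝ) * X)) ≤ (2 * A) ^ i * θ := by
    intro i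
    induction i with
    | zero =>
      intro _ _
      have : al w q (x + h) 0 - al w q x 0 -
          C ((h : ℝ) / x) * (dl w γ 0).comp (C (pq q (0 + 1) : ℝ) * X) = 0 := by
        show (1 + C (q 0 : ℝ) * X) - (1 + C (q 0 : ℝ) * X) -
          C ((h : ℝ) / x) * (0 : ℝ[X]).comp (C (pq q (0 + 1) : ℝ) * X) = 0
        rw [zero_comp, mul_zero]
        ring
      rw [this, nm_zero]
      positivity
    | succ i ih =>
      intro hik hij
      have h1 := ih (by omega) (by omega)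
      have hsm := hsmall k hk w hw B hB q hq x hx1 h hhx' γ hγ0 i (by omega)
        (fun l hl1 hl2 => hfr l hl1 (by omega))
      have h4 : nm (al w q (x + h) i - al w q x i) ≤ 2 * (B : ℝ) ^ K2 c1 k * σ := by
        refine hsm.trans ?_
        have g0 : (0 : ℝ) ≤ (B : ℝ) ^ K2 c1 k := by positivity
        calc (B : ℝ) ^ K2 c1 k * ((h : ℝ) / x + x ^ (-γ)) ≤ (B : ℝ) ^ K2 c1 k * (2 * σ) :=
              mul_le_mul_of_nonneg_left hη g0
          _ = 2 * (B : ℝ) ^ K2 c1 k * σ := by ring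
      have h2 := lin_rec w hw q hBr (fun i => by exact_mod_cast (hq i).2) hx1' hh0 hs hR0 hR1
        hσ0.le hρ0.le hρ1 hσσ hσρ hik
        (hclose k hk w hw B hB q hq x hx0 i (by omega)).1
        (hclose k hk w hw B hB q hq (x + h) (by linarith) i (by omega)).1
        (hclose k hk w hw B hB q hq x hx0 i (by omega)).2 h4
        (hclose k hk w hw B hB q hq x hx0 (i + 1) hik).1
        (hclose k hk w hw B hB q hq x hx0 (i + 1) hik).2
        (fun hg => hfr (i + 1) (by omega) hij hg)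
        (fun hg => by
          have g1 : γ + 4 * κ ≤ gq w (i + 1) := (hsep' (i + 1) (by omega) hij).resolve_left hg
          exact Real.rpow_le_rpow_of_exponent_le hx1' (by linarith))
      refine h2.trans ?_
      rw [← hAdef]
      have h3 : 1 ≤ (2 * A) ^ i := one_le_pow₀ (by linarith)
      calc A * (θ + nm (al w q (x + h) i - al w q x i -
            C ((h : ℝ) / x) * (dl w γ i).comp (C (pq q (i + 1) : ℝ) * X))) ≤
            A * ((2 * A) ^ i * θ + (2 * A) ^ i * θ) := by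
            apply mul_le_mul_of_nonneg_left _ (by linarith)
            have : θ ≤ (2 * A) ^ i * θ := le_mul_of_one_le_left hθ0.le h3
            linarith
        _ = (2 * A) ^ (i + 1) * θ := by ring
  refine (hind j hj le_rfl).trans ?_
  have h2A := hA k hk B hBr
  rw [← hAdef] at h2A
  have h3 : (2 * A) ^ j ≤ (B : ℝ) ^ K2 (a + 1) k :=
    small_pow hBr hk (by linarith) h2A (hj.le.trans Nat.lt_two_pow_self.le)
  have h4 : (B : ℝ) ^ K2 (a + 1) k ≤ x ^ κ := by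
    rw [← hκ]
    refine absorb' hB1 hx ?_
    calc K2 (a + 1) k * 2 ^ (k + 2) ≤ K2 (a + 1) k * 2 ^ (3 * k) :=
          Nat.mul_le_mul_left _ (Nat.pow_le_pow_right (by norm_num) (by omega))
      _ ≤ K2 (a + 1 + 3) k := K2_mul_two_pow hk
  calc (2 * A) ^ j * θ ≤ x ^ κ * θ := mul_le_mul_of_nonneg_right (h3.trans h4) hθ0.le
    _ = x ^ (κ + (-γ - 4 * κ + 2 * ε)) := by rw [hθ, ← Real.rpow_add hxp]
    _ ≤ x ^ (-γ - 2 * κ) := Real.rpow_le_rpow_of_exponent_le hx1' (by linarith)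

theorem sl_lin : ∃ c : ℕ, ∀ k : ℕ, 1 ≤ k → ∀ w : ℕ → Bool, Pos w k → ∀ B : ℕ, 2 ≤ B → ∀ q : ℕ → ℕ,
    (∀ i, 1 ≤ q i ∧ q i ≤ B) → ∀ x : ℝ, (B : ℝ) ^ K2 c k ≤ x → ∀ j, 1 ≤ j → j < k →
    ∀ h : ℕ, (h : ℝ) ≤ x ^ (1 - gq w j + 1 / 2 ^ (10 * k)) →
    (∀ i, 1 ≤ i → i < j → gq w i < gq w j → ct w q (x + h) i = ct w q x i) →
    |sl w q (x + h) j - sl w q x j -
      kap w j / 2 * (pq q j : ℝ) ^ dq w j * x ^ (gq w j - 1) * h| ≤ x ^ (-(1 / 2 ^ (k + 2)) : ℝ) := by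
  obtain ⟨c0, hclose⟩ := al_close
  obtain ⟨c1, hsmall⟩ := al_small
  obtain ⟨c2, hlin⟩ := al_lin
  set a := 4 * c0 + 4 * c1 + 200 with ha
  -- the constant
  have hA : ∀ k : ℕ, 1 ≤ k → ∀ B : ℝ, 2 ≤ B →
      2 * ((2 : ℝ) ^ k + 1) ^ 2 * (2 * B ^ K2 c0 k + 1) ^ (2 ^ k) *
        (1 + 2 * B ^ K2 c1 k + B ^ K2 c0 k) +
      2 * (4 * ((2 : ℝ) ^ k + 1) ^ 3 * (2 * B ^ K2 c0 k + 1) ^ (2 ^ k) *
        ((2 * B ^ K2 c1 k) ^ 2 + B ^ K2 c0 k * (2 * B ^ K2 c1 k) + 1)) ≤ B ^ K2 a k := by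
    intro k hk B hB
    have hB0 : (0 : ℝ) ≤ B := by linarith
    have hT := small_T hB hk
    have hT0 : (0 : ℝ) ≤ (2 : ℝ) ^ k + 1 := by positivity
    have h2 := small_const hB hk 2
    have h1 := small_const hB hk 1
    have e0 := le_refl (B ^ K2 c0 k)
    have e1 := le_refl (B ^ K2 c1 k)
    have hTT := small_mul hB hk hT0 hT hT
    have h2R := small_mul hB hk (by positivity) h2 e0
    have h2R1 := small_add hB hk h2R h1
    have hpow := small_pow hB hk (by positivity) h2R1 (le_refl (2 ^ k))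
    have s1 := small_mul hB hk (by positivity) (small_mul hB hk (by positivity) h2 hTT) hpow
    have s2 := small_add hB hk (small_add hB hk h1 (small_mul hB hk (by positivity) h2 e1)) e0
    have s3 := small_mul hB hk (by positivity) s1 s2
    have s4 := small_mul hB hk (by positivity) h2 (lin_K hB hk c0 c1)
    have s5 := small_add hB hk s3 s4
    push_cast at s5
    rw [pow_two ((2 : ℝ) ^ k + 1)]
    exact small_mono hB (by omega) s5
  refine ⟨a + 3 + c2, ?_⟩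
  intro k hk w hw B hB q hq x hx j hj1 hjk h hhx hfr
  obtain ⟨i, rfl⟩ : ∃ i, j = i + 1 := ⟨j - 1, by omega⟩
  have hBr : (2 : ℝ) ≤ B := by exact_mod_cast hB
  have hB1 : (1 : ℝ) ≤ B := by linarith
  have hx0 : (B : ℝ) ^ K2 c0 k ≤ x := pow_K2_mono hB1 (by omega) hx
  have hx1 : (B : ℝ) ^ K2 c1 k ≤ x := pow_K2_mono hB1 (by omega) hx
  have hx2 : (B : ℝ) ^ K2 c2 k ≤ x := pow_K2_mono hB1 (by omega) hx
  have hR0 : (1 : ℝ) ≤ (B : ℝ) ^ K2 c0 k := one_le_pow₀ hB1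
  have hR1 : (1 : ℝ) ≤ 2 * (B : ℝ) ^ K2 c1 k := by
    have : (1 : ℝ) ≤ (B : ℝ) ^ K2 c1 k := one_le_pow₀ hB1
    linarith
  have hx1' : 1 ≤ x := hR0.trans hx0
  have hxp : 0 < x := by linarith
  have hh0 : (0 : ℝ) ≤ (h : ℝ) := Nat.cast_nonneg _
  obtain ⟨g, hg⟩ : ∃ g, gq w (i + 1) = g := ⟨_, rfl⟩
  have hg0 : 0 ≤ g := by rw [← hg]; exact gq_nonneg w (i + 1)
  have hg1 : g ≤ 1 := by
    rw [← hg]
    exact (gq_upper w (by omega : 1 ≤ i + 1)).trans (by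
            have : (0 : ℝ) ≤ 1 / 2 ^ (i + 1) := by positivity
            linarith)
  have hgk : (1 : ℝ) / 2 ^ k ≤ g := by
    rw [← hg]
    refine le_trans ?_ (gq_lower w (by omega : 1 ≤ i + 1))
    exact one_div_le_one_div_of_le (by positivity) (pow_le_pow_right₀ (by norm_num) hjk.le)
  have hsep : ∀ l, 1 ≤ l → l ≤ i → gq w l < g ∨ g + 1 / 2 ^ k ≤ gq w l := by
    intro l hl1 hl2
    have g1 := gq_sep w (i := l) (j := i + 1) (k := k) hl1 (by omega) (by omega) (by omega) hjk.le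
    rw [hg] at g1
    rcases abs_cases (gq w l - g) with ⟨g2, g3⟩ | ⟨g2, g3⟩
    · right; linarith
    · left; linarith
  rw [hg] at hhx hfr
  have hE := hlin k hk w hw B hB q hq x hx2 g hgk h hhx i (by omega) hsep
    (fun l hl1 hl2 => hfr l hl1 (by omega))
  obtain ⟨ε, hε⟩ : ∃ ε : ℝ, 1 / 2 ^ (10 * k) = ε := ⟨_, rfl⟩
  have hε0 : 0 < ε := by rw [← hε]; positivity
  have hε2 : 2 * ε ≤ 1 / 2 ^ (k + 2) := by rw [← hε]; exact lin_eps hk
  obtain ⟨κ, hκ⟩ : ∃ κ : ℝ, 1 / 2 ^ (k + 2) = κ := ⟨_, rfl⟩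
  have hκ1 : (1 : ℝ) / 2 ^ (k + 1) = 2 * κ := by rw [← hκ]; field_simp; ring
  have hκ0 : (1 : ℝ) / 2 ^ k = 4 * κ := by rw [← hκ]; field_simp; ring
  have hκpos : 0 < κ := by rw [← hκ]; positivity
  rw [hκ] at hε2
  rw [hε] at hhx
  rw [hκ0] at hgk
  rw [hκ1] at hE
  rw [hκ]
  set σ := x ^ (-g + ε) with hσ
  set ρ := x ^ (-(1 / 2 ^ k) : ℝ) with hρ
  set θ := x ^ (-g - 2 * κ) with hθ
  have hσ0 : 0 < σ := Real.rpow_pos_of_pos hxp _
  have hρ0 : 0 < ρ := Real.rpow_pos_of_pos hxp _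
  have hθ0 : 0 < θ := Real.rpow_pos_of_pos hxp _
  have hρ1 : ρ ≤ 1 := by
    rw [hρ, hκ0]
    exact Real.rpow_le_one_of_one_le_of_nonpos hx1' (by linarith)
  have hσσ : σ * σ ≤ θ := by
    rw [hσ, hθ, ← Real.rpow_add hxp]
    exact Real.rpow_le_rpow_of_exponent_le hx1' (by linarith)
  have hσρ : σ * ρ ≤ θ := by
    rw [hσ, hθ, hρ, hκ0, ← Real.rpow_add hxp]
    exact Real.rpow_le_rpow_of_exponent_le hx1' (by linarith)
  have hs0 : (0 : ℝ) ≤ (h : ℝ) / x := by positivity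
  have hs : (h : ℝ) / x ≤ σ := by
    rw [div_le_iff₀ hxp, hσ]
    calc (h : ℝ) ≤ x ^ (1 - g + ε) := hhx
      _ = x ^ (-g + ε) * x := by
          rw [← Real.rpow_add_one hxp.ne']
          congr 1
          ring
  have hhx' : (h : ℝ) ≤ x := by
    calc (h : ℝ) ≤ x ^ (1 - g + ε) := hhx
      _ ≤ x ^ (1 : ℝ) := Real.rpow_le_rpow_of_exponent_le hx1' (by linarith)
      _ = x := Real.rpow_one x
  have hgpos : 0 < g := by linarith
  have hη : (h : ℝ) / x + x ^ (-g) ≤ 2 * σ := by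
    have : x ^ (-g) ≤ σ := Real.rpow_le_rpow_of_exponent_le hx1' (by linarith)
    linarith
  have hsm := hsmall k hk w hw B hB q hq x hx1 h hhx' g hgpos i (by omega)
        (fun l hl1 hl2 => hfr l hl1 (by omega))
  set R0 := (B : ℝ) ^ K2 c0 k with hR0def
  set R1 := 2 * (B : ℝ) ^ K2 c1 k with hR1def
  have h4 : nm (al w q (x + h) i - al w q x i) ≤ R1 * σ := by
    refine hsm.trans ?_
    have g0 : (0 : ℝ) ≤ (B : ℝ) ^ K2 c1 k := by positivity
    calc (B : ℝ) ^ K2 c1 k * ((h : ℝ) / x + x ^ (-g)) ≤ (B : ℝ) ^ K2 c1 k * (2 * σ) :=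
          mul_le_mul_of_nonneg_left hη g0
      _ = R1 * σ := by rw [hR1def]; ring
  have hP := (hclose k hk w hw B hB q hq x hx0 i (by omega)).1
  have hP' := (hclose k hk w hw B hB q hq (x + h) (by linarith) i (by omega)).1
  have hPS := (hclose k hk w hw B hB q hq x hx0 i (by omega)).2
  have hbs := lin_bs w hw q (x := x) (h := (h : ℝ)) (γ := g) (s := (h : ℝ) / x) hR0 hR1 hσ0.le
    hρ0.le hρ1 hσσ hσρ hjk.le hP hP' hPS h4
  set K := 4 * ((2 : ℝ) ^ k + 1) ^ 3 * (2 * R0 + 1) ^ (2 ^ k) * (R1 ^ 2 + R0 * R1 + 1) with hK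
  have hK0 : 0 ≤ K := by positivity
  obtain ⟨d, hd⟩ : ∃ d, dq w (i + 1) = d := ⟨_, rfl⟩
  obtain ⟨β, hβ⟩ : ∃ β, (bs w i (al w q x i)).coeff d = β := ⟨_, rfl⟩
  obtain ⟨β', hβ'⟩ : ∃ β', (bs w i (al w q (x + h) i)).coeff d = β' := ⟨_, rfl⟩
  obtain ⟨z, hz⟩ : ∃ z, (sg w (i + 1)).coeff d = z := ⟨_, rfl⟩
  obtain ⟨G, hG⟩ : ∃ G, (dbs w i (sg w i) (dl w g i)).coeff d = G := ⟨_, rfl⟩
  obtain ⟨p, hp⟩ : ∃ p : ℝ, (pq q (i + 1) : ℝ) = p := ⟨_, rfl⟩
  -- the error terms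
  set L := 2 * ((2 : ℝ) ^ k + 1) ^ 2 * (2 * R0 + 1) ^ (2 ^ k) with hL
  have hL0 : 0 ≤ L := by positivity
  have hPR : nm (al w q x i - 1) ≤ 2 * R0 + 1 := (small_sub_one hP).trans (by linarith)
  have hP'R : nm (al w q (x + h) i - 1) ≤ 2 * R0 + 1 := (small_sub_one hP').trans (by linarith)
  have hSR : nm ((sg w i).comp (C (pq q (i + 1) : ℝ) * X) - 1) ≤ 2 * R0 + 1 := by
    have e : (sg w i).comp (C (pq q (i + 1) : ℝ) * X) =
        al w q x i - (al w q x i - (sg w i).comp (C (pq q (i + 1) : ℝ) * X)) := by ring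
    have h5 : nm ((sg w i).comp (C (pq q (i + 1) : ℝ) * X)) ≤ 2 * R0 := by
      rw [e]
      refine (nm_sub_le _ _).trans ?_
      have : R0 * ρ ≤ R0 * 1 := mul_le_mul_of_nonneg_left hρ1 (by linarith)
      linarith
    exact small_sub_one h5
  have b1 : |β'| ≤ L := by
    rw [← hβ']
    refine (abs_coeff_le_nm _ _).trans ((bs_nm w i _ (2 * R0 + 1) (by linarith) hP'R).trans ?_)
    have hd' : (dq w (i + 1) : ℝ) ≤ 2 ^ k := small_dq' hjk.le
    have hRd : (2 * R0 + 1) ^ dq w (i + 1) ≤ (2 * R0 + 1) ^ (2 ^ k) :=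
      pow_le_pow_right₀ (by linarith) (small_dq hjk.le)
    have g1 : 2 * ((dq w (i + 1) : ℝ) + 1) ≤ 2 * ((2 : ℝ) ^ k + 1) ^ 2 :=
      lin_aux (by positivity) hd'
    exact mul_le_mul g1 hRd (by positivity) (by positivity)
  have b2 : |β' - β| ≤ L * (R1 * σ) := by
    rw [← hβ, ← hβ', ← coeff_sub]
    exact (abs_coeff_le_nm _ _).trans ((small_lip w hjk.le _ _ (2 * R0 + 1) (by linarith)
      hP'R hPR).trans (mul_le_mul_of_nonneg_left h4 hL0))
  have b3 : |β - p ^ d * z| ≤ L * (R0 * ρ) := by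
    have e : p ^ d * z = (bs w i ((sg w i).comp (C (pq q (i + 1) : ℝ) * X))).coeff d := by
      rw [bs_scale, coeff_scale, hp, ← hz]
      rfl
    rw [← hβ, e, ← coeff_sub]
    exact (abs_coeff_le_nm _ _).trans ((small_lip w hjk.le _ _ (2 * R0 + 1) (by linarith)
      hPR hSR).trans (mul_le_mul_of_nonneg_left hPS hL0))
  have b4 : |β' - β - (h : ℝ) / x * (p ^ d * G)| ≤ K * (2 * θ) := by
    have g1 := (abs_coeff_le_nm (bs w i (al w q (x + h) i) - bs w i (al w q x i) -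
      C ((h : ℝ) / x) * (dbs w i (sg w i) (dl w g i)).comp (C (pq q (i + 1) : ℝ) * X)) d).trans hbs
    rw [coeff_sub, coeff_sub, coeff_C_mul, coeff_scale, hβ, hβ', hG, hp] at g1
    refine g1.trans (mul_le_mul_of_nonneg_left ?_ hK0)
    rw [hp] at hE
    linarith
  have hkap : kap w (i + 1) = g * z + G := by
    unfold kap
    rw [Nat.add_sub_cancel, hg, hd, hz, hG]
  have hxg : 0 < x ^ g := Real.rpow_pos_of_pos hxp _
  have hxg1 : x ^ (g - 1) * (h : ℝ) = x ^ g * ((h : ℝ) / x) := by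
    rw [Real.rpow_sub_one hxp.ne']
    ring
  have e : sl w q (x + h) (i + 1) - sl w q x (i + 1) -
      kap w (i + 1) / 2 * (pq q (i + 1) : ℝ) ^ dq w (i + 1) * x ^ (gq w (i + 1) - 1) * h =
      x ^ g / 2 * (((1 + (h : ℝ) / x) ^ g - 1 - g * ((h : ℝ) / x)) * β' +
        g * ((h : ℝ) / x) * (β' - β) + g * ((h : ℝ) / x) * (β - p ^ d * z) +
        (β' - β - (h : ℝ) / x * (p ^ d * G))) := by
    unfold sl
    rw [Nat.add_sub_cancel, small_split hxp hh0, hg, hd, hβ, hβ', hkap, hp]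
    linear_combination (-(g * z + G) / 2 * p ^ d) * hxg1
  rw [e, abs_mul, abs_of_pos (by positivity)]
  have hgs0 : 0 ≤ g * ((h : ℝ) / x) := mul_nonneg hg0 hs0
  have hgs : g * ((h : ℝ) / x) ≤ σ := by
    calc g * ((h : ℝ) / x) ≤ 1 * ((h : ℝ) / x) := mul_le_mul_of_nonneg_right hg1 hs0
      _ ≤ σ := by rw [one_mul]; exact hs
  have t1 : |((1 + (h : ℝ) / x) ^ g - 1 - g * ((h : ℝ) / x)) * β'| ≤ L * θ := by
    rw [abs_mul, mul_comm L θ]
    have g1 : ((h : ℝ) / x) ^ 2 ≤ θ := by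
      calc ((h : ℝ) / x) ^ 2 ≤ σ ^ 2 := pow_le_pow_left₀ hs0 hs 2
        _ = σ * σ := by ring
        _ ≤ θ := hσσ
    exact mul_le_mul ((lin_rpow hs0 hg0 hg1).2.trans g1) b1 (abs_nonneg _) hθ0.le
  have t2 : |g * ((h : ℝ) / x) * (β' - β)| ≤ L * R1 * θ := by
    rw [abs_mul, abs_of_nonneg hgs0]
    calc g * ((h : ℝ) / x) * |β' - β| ≤ σ * (L * (R1 * σ)) :=
          mul_le_mul hgs b2 (abs_nonneg _) hσ0.le
      _ = L * R1 * (σ * σ) := by ring
      _ ≤ L * R1 * θ := mul_le_mul_of_nonneg_left hσσ (by positivity)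
  have t3 : |g * ((h : ℝ) / x) * (β - p ^ d * z)| ≤ L * R0 * θ := by
    rw [abs_mul, abs_of_nonneg hgs0]
    calc g * ((h : ℝ) / x) * |β - p ^ d * z| ≤ σ * (L * (R0 * ρ)) :=
          mul_le_mul hgs b3 (abs_nonneg _) hσ0.le
      _ = L * R0 * (σ * ρ) := by ring
      _ ≤ L * R0 * θ := mul_le_mul_of_nonneg_left hσρ (by positivity)
  have htot : |((1 + (h : ℝ) / x) ^ g - 1 - g * ((h : ℝ) / x)) * β' +
        g * ((h : ℝ) / x) * (β' - β) + g * ((h : ℝ) / x) * (β - p ^ d * z) +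
        (β' - β - (h : ℝ) / x * (p ^ d * G))| ≤ (L * (1 + R1 + R0) + 2 * K) * θ := by
    refine (abs_add_le _ _).trans ((add_le_add ((abs_add_le _ _).trans
      (add_le_add (abs_add_le _ _) le_rfl)) le_rfl).trans ?_)
    calc _ ≤ L * θ + L * R1 * θ + L * R0 * θ + K * (2 * θ) :=
          add_le_add (add_le_add (add_le_add t1 t2) t3) b4
      _ = (L * (1 + R1 + R0) + 2 * K) * θ := by ring
  have hAk := hA k hk B hBr
  rw [← hR0def, ← hR1def, ← hL, ← hK] at hAk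
  have h5 : (B : ℝ) ^ K2 a k ≤ x ^ κ := by
    rw [← hκ]
    refine absorb' hB1 (pow_K2_mono hB1 (by omega : a + 3 ≤ a + 3 + c2) hx) ?_
    calc K2 a k * 2 ^ (k + 2) ≤ K2 a k * 2 ^ (3 * k) :=
          Nat.mul_le_mul_left _ (Nat.pow_le_pow_right (by norm_num) (by omega))
      _ ≤ K2 (a + 3) k := K2_mul_two_pow hk
  calc x ^ g / 2 * |((1 + (h : ℝ) / x) ^ g - 1 - g * ((h : ℝ) / x)) * β' +
        g * ((h : ℝ) / x) * (β' - β) + g * ((h : ℝ) / x) * (β - p ^ d * z) +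
        (β' - β - (h : ℝ) / x * (p ^ d * G))| ≤ x ^ g / 2 * ((L * (1 + R1 + R0) + 2 * K) * θ) :=
        mul_le_mul_of_nonneg_left htot (by positivity)
    _ ≤ x ^ g * (x ^ κ * θ) := by
        have g1 : (L * (1 + R1 + R0) + 2 * K) * θ ≤ x ^ κ * θ :=
          mul_le_mul_of_nonneg_right (hAk.trans h5) hθ0.le
        have g2 : 0 ≤ x ^ κ * θ := by positivity
        calc x ^ g / 2 * ((L * (1 + R1 + R0) + 2 * K) * θ) ≤ x ^ g / 2 * (x ^ κ * θ) :=
              mul_le_mul_of_nonneg_left g1 (by positivity)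
          _ ≤ x ^ g * (x ^ κ * θ) := mul_le_mul_of_nonneg_right (by linarith) g2
    _ = x ^ (-κ) := by
        rw [hθ, ← Real.rpow_add hxp, ← Real.rpow_add hxp]
        congr 1
        ring

end Pool.Agent.Work.MP_215640_nt.Q
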