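import Pool.Agent.Work.MP_215640_nt.Q.Defs

/-!
MODULE NM. The norm `nm P = ∑ |coeff|` of polynomials: elementary facts.
(`nm_eq`: extend the range of summation. `nm_mul_le`: `coeff_mul`, or write `P` as a sum of monomials.
`nm_shift`: `(P.comp (X + C y)).coeff r = ∑_{s≥r} (s choose r) P_s y^(s-r)`, `|y|^(s-r) ≤ |y|` for `s > r`, `|y| ≤ 1`.)
-/

set_option autoImplicit false

namespace Pool.Agent.Work.MP_215640_nt.Q

open Finset Polynomial

theorem nm_nonneg (P : ℝ[X]) : 0 ≤ nm P :=
  Finset.sum_nonneg fun _ _ => abs_nonneg _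

theorem nm_eq (P : ℝ[X]) (n : ℕ) (hn : P.natDegree ≤ n) : nm P = ∑ r ∈ range (n + 1), |P.coeff r| := by
  unfold nm
  apply Finset.sum_subset (range_subset_range.2 (by omega))
  intro r _ hr
  rw [mem_range] at hr
  rw [coeff_eq_zero_of_natDegree_lt (by omega), abs_zero]

theorem abs_coeff_le_nm (P : ℝ[X]) (r : ℕ) : |P.coeff r| ≤ nm P := by
  rw [nm_eq P (max r P.natDegree) (le_max_right _ _)]
  exact Finset.single_le_sum (f := fun r => |P.coeff r|) (fun _ _ => abs_nonneg _)
    (mem_range.2 (Nat.lt_succ_of_le (le_max_left _ _)))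

theorem nm_le_of_coeff (P : ℝ[X]) (n : ℕ) (hn : P.natDegree ≤ n) (a : ℝ)
    (h : ∀ r ≤ n, |P.coeff r| ≤ a) : nm P ≤ (n + 1) * a := by
  rw [nm_eq P n hn]
  calc ∑ r ∈ range (n + 1), |P.coeff r| ≤ ∑ r ∈ range (n + 1), a :=
        Finset.sum_le_sum fun r hr => h r (Nat.lt_succ_iff.1 (mem_range.1 hr))
    _ = (n + 1) * a := by
        rw [Finset.sum_const, card_range, nsmul_eq_mul]; push_cast; ring

theorem nm_zero : nm 0 = 0 := by
  simp [nm]

theorem nm_one : nm 1 = 1 := by
  simp [nm]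

theorem nm_neg (P : ℝ[X]) : nm (-P) = nm P := by
  simp [nm]

theorem nm_add_le (P Q : ℝ[X]) : nm (P + Q) ≤ nm P + nm Q := by
  set n := max P.natDegree Q.natDegree with hn
  rw [nm_eq P n (le_max_left _ _), nm_eq Q n (le_max_right _ _),
    nm_eq (P + Q) n (natDegree_add_le P Q), ← Finset.sum_add_distrib]
  apply Finset.sum_le_sum
  intro r _
  rw [coeff_add]
  exact abs_add_le _ _

theorem nm_sub_le (P Q : ℝ[X]) : nm (P - Q) ≤ nm P + nm Q := by
  have h := nm_add_le P (-Q)
  rw [nm_neg] at h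
  rw [sub_eq_add_neg]
  exact h

theorem nm_sum_le {ι : Type*} (s : Finset ι) (P : ι → ℝ[X]) : nm (∑ i ∈ s, P i) ≤ ∑ i ∈ s, nm (P i) := by
  classical
  induction s using Finset.induction_on with
  | empty => simp [nm_zero]
  | insert a s ha ih =>
    rw [Finset.sum_insert ha, Finset.sum_insert ha]
    exact (nm_add_le _ _).trans (by linarith)

theorem nm_C_mul (a : ℝ) (P : ℝ[X]) : nm (C a * P) = |a| * nm P := by
  rw [nm_eq (C a * P) P.natDegree (natDegree_C_mul_le a P)]
  unfold nm
  rw [Finset.mul_sum]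
  apply Finset.sum_congr rfl
  intro r _
  rw [coeff_C_mul, abs_mul]

theorem nm_monomial (r : ℕ) (a : ℝ) : nm (monomial r a) = |a| := by
  rw [nm_eq (monomial r a) r (natDegree_monomial_le a)]
  rw [Finset.sum_eq_single r]
  · rw [coeff_monomial, if_pos rfl]
  · intro s _ hs
    rw [coeff_monomial, if_neg (fun h => hs h.symm), abs_zero]
  · intro h
    exact absurd (self_mem_range_succ r) h

/-- the polynomial of the absolute values -/
private noncomputable def apol (P : ℝ[X]) : ℝ[X] :=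
  ∑ r ∈ range (P.natDegree + 1), monomial r |P.coeff r|

private theorem apol_coeff (P : ℝ[X]) (r : ℕ) : (apol P).coeff r = |P.coeff r| := by
  unfold apol
  rw [finsetSum_coeff]
  simp only [coeff_monomial]
  rw [sum_ite_eq']
  split_ifs with h
  · rfl
  · rw [mem_range] at h
    rw [coeff_eq_zero_of_natDegree_lt (by omega), abs_zero]

private theorem apol_natDegree (P : ℝ[X]) : (apol P).natDegree ≤ P.natDegree := by
  rw [natDegree_le_iff_coeff_eq_zero]
  intro r hr
  rw [apol_coeff, coeff_eq_zero_of_natDegree_lt hr, abs_zero]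

private theorem apol_eval (P : ℝ[X]) : (apol P).eval 1 = nm P := by
  rw [eval_eq_sum_range' (n := P.natDegree + 1) (by have := apol_natDegree P; omega)]
  unfold nm
  apply Finset.sum_congr rfl
  intro r _
  rw [apol_coeff, one_pow, mul_one]

theorem nm_mul_le (P Q : ℝ[X]) : nm (P * Q) ≤ nm P * nm Q := by
  have hd : (apol P * apol Q).natDegree ≤ P.natDegree + Q.natDegree :=
    natDegree_mul_le.trans (add_le_add (apol_natDegree P) (apol_natDegree Q))
  calc nm (P * Q) = ∑ s ∈ range (P.natDegree + Q.natDegree + 1), |(P * Q).coeff s| :=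
        nm_eq _ _ natDegree_mul_le
    _ ≤ ∑ s ∈ range (P.natDegree + Q.natDegree + 1), (apol P * apol Q).coeff s := by
        apply Finset.sum_le_sum
        intro s _
        rw [coeff_mul, coeff_mul]
        refine (Finset.abs_sum_le_sum_abs _ _).trans (le_of_eq ?_)
        apply Finset.sum_congr rfl
        intro x _
        rw [abs_mul, apol_coeff, apol_coeff]
    _ = (apol P * apol Q).eval 1 := by
        rw [eval_eq_sum_range' (n := P.natDegree + Q.natDegree + 1) (by omega)]
        apply Finset.sum_congr rfl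
        intro r _
        rw [one_pow, mul_one]
    _ = nm P * nm Q := by rw [eval_mul, apol_eval, apol_eval]

theorem nm_pow_le (P : ℝ[X]) (n : ℕ) : nm (P ^ n) ≤ nm P ^ n := by
  induction n with
  | zero => rw [pow_zero, pow_zero, nm_one]
  | succ n ih =>
    rw [pow_succ, pow_succ]
    exact (nm_mul_le _ _).trans (mul_le_mul_of_nonneg_right ih (nm_nonneg P))

theorem nm_trunc_le (d : ℕ) (P : ℝ[X]) : nm (trunc d P) ≤ nm P := by
  rw [nm_eq (trunc d P) (max d P.natDegree) ((trunc_natDegree d P).trans (le_max_left _ _)),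
    nm_eq P (max d P.natDegree) (le_max_right _ _)]
  apply Finset.sum_le_sum
  intro r _
  rw [trunc_coeff]
  split_ifs
  · exact le_rfl
  · rw [abs_zero]; exact abs_nonneg _

theorem trunc_add (d : ℕ) (P Q : ℝ[X]) : trunc d (P + Q) = trunc d P + trunc d Q := by
  ext r
  rw [coeff_add, trunc_coeff, trunc_coeff, trunc_coeff, coeff_add]
  split_ifs
  · rfl
  · simp

theorem trunc_sub (d : ℕ) (P Q : ℝ[X]) : trunc d (P - Q) = trunc d P - trunc d Q := by
  ext r
  rw [coeff_sub, trunc_coeff, trunc_coeff, trunc_coeff, coeff_sub]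
  split_ifs
  · rfl
  · simp

theorem coeff_scale (P : ℝ[X]) (a : ℝ) (r : ℕ) : (P.comp (C a * X)).coeff r = a ^ r * P.coeff r := by
  rw [comp_C_mul_X_coeff, mul_comm]

theorem natDegree_scale (P : ℝ[X]) (a : ℝ) : (P.comp (C a * X)).natDegree ≤ P.natDegree := by
  rw [natDegree_le_iff_coeff_eq_zero]
  intro r hr
  rw [coeff_scale, coeff_eq_zero_of_natDegree_lt hr, mul_zero]

theorem nm_scale (P : ℝ[X]) (a A : ℝ) (d : ℕ) (hd : P.natDegree ≤ d) (h1 : 1 ≤ A) (ha : |a| ≤ A) :
    nm (P.comp (C a * X)) ≤ A ^ d * nm P := by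
  rw [nm_eq _ d ((natDegree_scale P a).trans hd), nm_eq P d hd, Finset.mul_sum]
  apply Finset.sum_le_sum
  intro r hr
  rw [mem_range] at hr
  rw [coeff_scale, abs_mul, abs_pow]
  apply mul_le_mul_of_nonneg_right _ (abs_nonneg _)
  calc |a| ^ r ≤ A ^ r := pow_le_pow_left₀ (abs_nonneg _) ha r
    _ ≤ A ^ d := pow_le_pow_right₀ h1 (by omega)

theorem abs_eval_le (P : ℝ[X]) (y : ℝ) (hy : |y| ≤ 1) : |P.eval y| ≤ nm P := by
  rw [eval_eq_sum_range]
  refine (Finset.abs_sum_le_sum_abs _ _).trans ?_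
  unfold nm
  apply Finset.sum_le_sum
  intro r _
  rw [abs_mul, abs_pow]
  exact mul_le_of_le_one_right (abs_nonneg _) (pow_le_one₀ (abs_nonneg _) hy)

theorem abs_eval_sub_le (P : ℝ[X]) (y : ℝ) (hy : |y| ≤ 1) : |P.eval y - P.coeff 0| ≤ nm P * |y| := by
  rw [eval_eq_sum_range, Finset.sum_range_succ']
  rw [pow_zero, mul_one, add_sub_cancel_right]
  refine (Finset.abs_sum_le_sum_abs _ _).trans ?_
  have h1 : nm P = ∑ r ∈ range P.natDegree, |P.coeff (r + 1)| + |P.coeff 0| := by
    unfold nm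
    rw [Finset.sum_range_succ']
  rw [h1, add_mul, Finset.sum_mul]
  have h2 : 0 ≤ |P.coeff 0| * |y| := by positivity
  refine le_trans ?_ (le_add_of_nonneg_right h2)
  apply Finset.sum_le_sum
  intro r _
  rw [abs_mul, abs_pow]
  apply mul_le_mul_of_nonneg_left _ (abs_nonneg _)
  rw [pow_succ]
  exact mul_le_of_le_one_left (abs_nonneg _) (pow_le_one₀ (abs_nonneg _) hy)

theorem nm_shift (P : ℝ[X]) (d : ℕ) (hd : P.natDegree ≤ d) (y : ℝ) (hy : |y| ≤ 1) (r : ℕ) :
    |(P.comp (X + C y)).coeff r - P.coeff r| ≤ 2 ^ d * |y| * nm P := by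
  have h1 : (P.comp (X + C y)).coeff r =
      ∑ s ∈ range (P.natDegree + 1), P.coeff s * (y ^ (s - r) * (s.choose r : ℝ)) := by
    unfold Polynomial.comp
    rw [eval₂_eq_sum_range, finsetSum_coeff]
    apply Finset.sum_congr rfl
    intro s _
    rw [coeff_C_mul, coeff_X_add_C_pow]
  have h2 : P.coeff r = ∑ s ∈ range (P.natDegree + 1), P.coeff s * (if s = r then 1 else 0) := by
    simp only [mul_ite, mul_one, mul_zero]
    rw [Finset.sum_ite_eq']
    split_ifs with h
    · rfl
    · rw [mem_range] at h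
      exact coeff_eq_zero_of_natDegree_lt (by omega)
  rw [h1]
  conv_lhs => rw [h2]
  rw [← Finset.sum_sub_distrib]
  refine (Finset.abs_sum_le_sum_abs _ _).trans ?_
  unfold nm
  rw [Finset.mul_sum]
  apply Finset.sum_le_sum
  intro s hs
  rw [mem_range] at hs
  rw [← mul_sub, abs_mul, mul_comm]
  apply mul_le_mul_of_nonneg_right _ (abs_nonneg _)
  have hpos : 0 ≤ (2 : ℝ) ^ d * |y| := by positivity
  rcases lt_trichotomy s r with h | h | h
  · rw [Nat.choose_eq_zero_of_lt h, if_neg (by omega)]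
    simpa using hpos
  · subst h
    simpa using hpos
  · rw [if_neg (by omega), sub_zero, abs_mul, abs_pow, Nat.abs_cast, mul_comm]
    apply mul_le_mul
    · calc (s.choose r : ℝ) ≤ (2 ^ s : ℕ) := by exact_mod_cast Nat.choose_le_two_pow s r
        _ = (2 : ℝ) ^ s := by push_cast; ring
        _ ≤ 2 ^ d := pow_le_pow_right₀ (by norm_num) (by omega)
    · calc |y| ^ (s - r) ≤ |y| ^ 1 := pow_le_pow_of_le_one (abs_nonneg _) hy (by omega)
        _ = |y| := pow_one _
    · positivity
    · positivity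

end Pool.Agent.Work.MP_215640_nt.Q
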