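import Pool.Agent.Work.MP_215640_nt.Q.PolyAvg
import Pool.Agent.Work.MP_215640_nt.Q.Tri

/-!
MODULE NODETOP. For every step `q ≤ Q` the weight of the step is controlled by the top coefficient.

`wt 1 d M P u q = tri (1/M^(3d+3)) (q^d P_d) * ∏_{1≤r<d} tri (1/M^(3r+3)) (q^r tcf P u r)` (`tcf_top`). Sum of the second
factor over `u < V`: `multi` with `s = Icc 1 (d-1)`, `y r u = q^r tcf P u r`, `A = M^(6T+6)`, `L = M^(T^6)`, `ρ = M^(-T^6)`.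
For `0 ≠ l`, `|l_r| ≤ L`, let `r0` be the smallest index with `l_r ≠ 0`; by `comb_poly` (coefficients `l_r q^r` for
`r < d`, `0` for `r = d`) the phase is `R.eval u`, degree `≤ d - r0` (`≥ 1`), top coefficient
`l_{r0} q^{r0} (d choose r0) P_d`, generic with `B = M^(T^24 - T^6 - T^17 - T)`, `η = M^(-T^25)` (second half of `G2`,
`q^{r0} ≤ M^(T^16 T)`, `(d choose r0) ≤ 2^T ≤ M^T`); `weylM` with `b = T^6`, `e = T^25`. The product of the means is `1`,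
error `(5 M^(6T+6))^(d-1) (ρ + (d-1)/L) ≤ 1`. So the sum is at most `2V`.
-/

set_option autoImplicit false

namespace Pool.Agent.Work.MP_215640_nt.Q

open Finset Polynomial

private theorem pow_ge' {T : ℕ} (hT : 2 ≤ T) (a b : ℕ) : 2 ^ a * T ^ b ≤ T ^ (a + b) := by
  rw [pow_add]
  exact Nat.mul_le_mul_right _ (Nat.pow_le_pow_left hT a)

private theorem num1 {T : ℕ} (hT : 2 ≤ T) :
    8 * T ^ 4 * (T ^ 6 + 1) + (T ^ 6 + T ^ 17 + T) ≤ T ^ 24 := by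
  have F1 := pow_ge' hT 7 17
  have F2 := pow_ge' hT 14 10
  have F3 := pow_ge' hT 20 4
  have F4 := pow_ge' hT 18 6
  have F5 := pow_ge' hT 23 1
  norm_num at F1 F2 F3 F4 F5
  have e : 8 * T ^ 4 * (T ^ 6 + 1) = 8 * T ^ 10 + 8 * T ^ 4 := by ring
  rw [e]
  omega

private theorem num2 {T : ℕ} (hT : 2 ≤ T) : T ^ 25 + T ^ 24 ≤ T ^ 27 := by
  have F1 := pow_ge' hT 2 25
  have F2 := pow_ge' hT 3 24
  norm_num at F1 F2
  omega

private theorem num3 {T : ℕ} (hT : 2 ≤ T) : 1 + (1 + (6 * T + 6) * T) ≤ T ^ 6 := by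
  have F1 := pow_ge' hT 4 2
  have F2 := pow_ge' hT 5 1
  norm_num at F1 F2
  have e : (6 * T + 6) * T = 6 * T ^ 2 + 6 * T := by ring
  rw [e]
  nlinarith

private theorem five_pow_le {T M c : ℕ} (hT : 2 ≤ T) (hM : 2 ^ T ^ (c + 3) ≤ M) : 5 ^ T ≤ M := by
  have h1 : 3 * T ≤ T ^ 3 := by
    have := pow_ge' hT 2 1
    norm_num at this
    omega
  have h2 : T ^ 3 ≤ T ^ (c + 3) := Nat.pow_le_pow_right (by omega) (by omega)
  calc 5 ^ T ≤ 8 ^ T := Nat.pow_le_pow_left (by norm_num) T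
    _ = 2 ^ (3 * T) := by rw [pow_mul]; norm_num
    _ ≤ 2 ^ T ^ (c + 3) := Nat.pow_le_pow_right (by norm_num) (h1.trans h2)
    _ ≤ M := hM

/-- the exponential sums -/
private theorem key_sum {c0 : ℕ} (hc0 : ∀ T : ℕ, 2 ≤ T → ∀ M : ℕ, 2 ^ T ^ c0 ≤ M → ∀ d : ℕ, 1 ≤ d → d ≤ T →
    ∀ P : ℝ[X], P.natDegree ≤ d → ∀ b g e V : ℕ, 8 * T ^ 4 * (b + 1) ≤ g →
    Gen (M ^ g) (1 / (M : ℝ) ^ e) (P.coeff d) → M ^ (e + g) ≤ V →
    ‖∑ v ∈ range V, ee (P.eval (v : ℝ))‖ ≤ V / (M : ℝ) ^ b ∧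
    ‖∑ v ∈ Icc 1 V, ee (P.eval (v : ℝ))‖ ≤ V / (M : ℝ) ^ b)
    {T : ℕ} (hT : 2 ≤ T) {M : ℕ} (hM0 : 2 ^ T ^ c0 ≤ M) (hM2 : 4 ≤ M) {d : ℕ} (hdT : d ≤ T)
    {P : ℝ[X]} (hP : P.natDegree ≤ d) (hG : Gen (M ^ T ^ 24) (1 / (M : ℝ) ^ T ^ 25) (P.coeff d))
    {q : ℕ} (hq1 : 1 ≤ q) (hq2 : q ≤ M ^ T ^ 16) (l : ℕ → ℤ)
    (hl : ∀ i ∈ Icc 1 (d - 1), |l i| ≤ ((M ^ T ^ 6 : ℕ) : ℤ)) (hne : ∃ i ∈ Icc 1 (d - 1), l i ≠ 0) :
    ‖∑ u ∈ range (M ^ T ^ 27), ee (∑ i ∈ Icc 1 (d - 1), (l i : ℝ) * ((q : ℝ) ^ i * tcf P u i))‖ ≤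
      (1 / (M : ℝ) ^ T ^ 6) * (range (M ^ T ^ 27)).card := by
  classical
  -- smallest index
  have hex : ∃ r, (1 ≤ r ∧ r < d) ∧ l r ≠ 0 := by
    obtain ⟨i, hi, hi0⟩ := hne
    rw [Finset.mem_Icc] at hi
    exact ⟨i, ⟨hi.1, by omega⟩, hi0⟩
  obtain ⟨⟨hr1, hrd⟩, hr0⟩ := Nat.find_spec hex
  set r0 := Nat.find hex with hr0def
  have hmin : ∀ m < r0, 1 ≤ m → l m = 0 := by
    intro m hm h1
    by_contra h
    exact Nat.find_min hex hm ⟨⟨h1, by omega⟩, h⟩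
  obtain ⟨R, hR1, hR2, hR3⟩ := comb_poly P d hP
    (fun s => if s < d then (l s : ℝ) * (q : ℝ) ^ s else 0) r0 hrd.le
  have hgen : Gen (M ^ (T ^ 24 - (T ^ 6 + T ^ 17 + T))) (1 / (M : ℝ) ^ T ^ 25)
      (R.coeff (d - r0)) := by
    rw [hR2, if_pos hrd]
    have hch : 0 < d.choose r0 := Nat.choose_pos hrd.le
    have hn : l r0 * ((q ^ r0 * d.choose r0 : ℕ) : ℤ) ≠ 0 := by
      apply mul_ne_zero hr0
      have : 0 < q ^ r0 * d.choose r0 := Nat.mul_pos (Nat.pow_pos hq1) hch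
      exact_mod_cast this.ne'
    have h1 := Gen.int_mul (B := M ^ (T ^ 24 - (T ^ 6 + T ^ 17 + T)))
      (η := 1 / (M : ℝ) ^ T ^ 25) (t := P.coeff d) _ hn (by
        refine hG.mono ?_ le_rfl
        rw [Int.natAbs_mul, Int.natAbs_natCast]
        have h2 : d.choose r0 ≤ M ^ T := by
          calc d.choose r0 ≤ 2 ^ d := Nat.choose_le_two_pow d r0
            _ ≤ 2 ^ T := Nat.pow_le_pow_right (by norm_num) hdT
            _ ≤ M ^ T := Nat.pow_le_pow_left (by omega) T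
        have h3 : (l r0).natAbs ≤ M ^ T ^ 6 := by
          have := hl r0 (Finset.mem_Icc.2 ⟨hr1, by omega⟩)
          rw [Int.abs_eq_natAbs] at this
          exact_mod_cast this
        have h4 : q ^ r0 ≤ M ^ T ^ 17 := by
          calc q ^ r0 ≤ (M ^ T ^ 16) ^ r0 := Nat.pow_le_pow_left hq2 _
            _ ≤ (M ^ T ^ 16) ^ T := Nat.pow_le_pow_right (Nat.pow_pos (by omega)) (by omega)
            _ = M ^ T ^ 17 := by rw [← pow_mul, ← pow_succ]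
        calc M ^ (T ^ 24 - (T ^ 6 + T ^ 17 + T)) * ((l r0).natAbs * (q ^ r0 * d.choose r0))
            ≤ M ^ (T ^ 24 - (T ^ 6 + T ^ 17 + T)) * (M ^ T ^ 6 * (M ^ T ^ 17 * M ^ T)) :=
              Nat.mul_le_mul_left _ (Nat.mul_le_mul h3 (Nat.mul_le_mul h4 h2))
          _ = M ^ T ^ 24 := by
              rw [← pow_add, ← pow_add, ← pow_add]
              congr 1
              have := num1 hT
              omega)
    have e : (l r0 : ℝ) * (q : ℝ) ^ r0 * (d.choose r0 : ℝ) * P.coeff d =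
        ((l r0 * ((q ^ r0 * d.choose r0 : ℕ) : ℤ) : ℤ) : ℝ) * P.coeff d := by push_cast; ring
    rw [e]
    exact h1
  have h2 := (hc0 T hT M hM0 (d - r0) (by omega) (by omega) R hR1 (T ^ 6)
    (T ^ 24 - (T ^ 6 + T ^ 17 + T)) (T ^ 25) (M ^ T ^ 27) (by have := num1 hT; omega) hgen
    (Nat.pow_le_pow_right (by omega) (by have := num2 hT; omega))).1
  have h3 : ∀ u : ℕ, R.eval (u : ℝ) =
      ∑ i ∈ Icc 1 (d - 1), (l i : ℝ) * ((q : ℝ) ^ i * tcf P u i) := by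
    intro u
    rw [hR3]
    have h4 : ∑ i ∈ Icc 1 (d - 1), (l i : ℝ) * ((q : ℝ) ^ i * tcf P u i) =
        ∑ i ∈ Icc r0 (d - 1), (l i : ℝ) * ((q : ℝ) ^ i * tcf P u i) := by
      symm
      apply Finset.sum_subset (Finset.Icc_subset_Icc hr1 le_rfl)
      intro i hi hi'
      rw [Finset.mem_Icc] at hi hi'
      have : i < r0 := by
        by_contra hcon
        exact hi' ⟨by omega, hi.2⟩
      rw [hmin i this hi.1]
      simp
    have h5 : ∑ r ∈ Icc r0 d, (if r < d then (l r : ℝ) * (q : ℝ) ^ r else 0) * tcf P u r =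
        ∑ r ∈ Icc r0 (d - 1), (if r < d then (l r : ℝ) * (q : ℝ) ^ r else 0) * tcf P u r := by
      symm
      apply Finset.sum_subset (Finset.Icc_subset_Icc le_rfl (by omega))
      intro i hi hi'
      rw [Finset.mem_Icc] at hi hi'
      have : ¬ i < d := by
        intro hcon
        exact hi' ⟨hi.1, by omega⟩
      rw [if_neg this, zero_mul]
    rw [h4, h5]
    refine Finset.sum_congr rfl fun i hi => ?_
    rw [Finset.mem_Icc] at hi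
    rw [if_pos (by omega)]
    ring
  have h4 : ∑ u ∈ range (M ^ T ^ 27), ee (∑ i ∈ Icc 1 (d - 1), (l i : ℝ) *
      ((q : ℝ) ^ i * tcf P u i)) = ∑ u ∈ range (M ^ T ^ 27), ee (R.eval (u : ℝ)) := by
    refine Finset.sum_congr rfl fun u _ => ?_
    rw [h3 u]
  rw [h4, Finset.card_range, one_div_mul_eq_div]
  exact h2

theorem node_top : ∃ c : ℕ, ∀ T : ℕ, 2 ≤ T → ∀ M : ℕ, 2 ^ T ^ c ≤ M → ∀ d : ℕ, 1 ≤ d → d ≤ T →
    ∀ P : ℝ[X], P.natDegree ≤ d → G2 T M 1 (P.coeff d) → ∀ q : ℕ, 1 ≤ q → q ≤ M ^ T ^ 16 →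
    ∑ u ∈ range (M ^ T ^ 27), wt 1 d M P u q ≤
      2 * tri (1 / (M : ℝ) ^ (3 * d + 3)) ((q : ℝ) ^ d * P.coeff d) * (M : ℝ) ^ T ^ 27 := by
  classical
  obtain ⟨c0, hc0⟩ := weylM
  refine ⟨c0 + 3, ?_⟩
  intro T hT M hM d hd1 hdT P hP hG q hq1 hq2
  obtain ⟨-, hG2⟩ := hG
  have h5T : 5 ^ T ≤ M := five_pow_le hT hM
  have hM0 : 2 ^ T ^ c0 ≤ M :=
    le_trans (Nat.pow_le_pow_right (by norm_num) (Nat.pow_le_pow_right (by omega) (by omega))) hM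
  have hM25 : 25 ≤ M := by
    calc 25 = 5 ^ 2 := by norm_num
      _ ≤ 5 ^ T := Nat.pow_le_pow_right (by norm_num) hT
      _ ≤ M := h5T
  have hMR : (25 : ℝ) ≤ (M : ℝ) := by exact_mod_cast hM25
  have hTM : (T : ℝ) ≤ M := by
    have : T ≤ M := (Nat.lt_pow_self (by norm_num : 1 < 5)).le.trans h5T
    exact_mod_cast this
  -- the product of the lower factors
  have hprod : ∑ u ∈ range (M ^ T ^ 27), ∏ r ∈ Icc 1 (d - 1),
      tri (1 / (M : ℝ) ^ (3 * r + 3)) ((q : ℝ) ^ r * tcf P u r) ≤ 2 * (M : ℝ) ^ T ^ 27 := by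
    have hm := multi (Icc 1 (d - 1)) (range (M ^ T ^ 27))
      (fun r => tri (1 / (M : ℝ) ^ (3 * r + 3))) (fun _ => 1) ((M : ℝ) ^ (6 * T + 6)) (by
        intro r hr
        rw [Finset.mem_Icc] at hr
        have hX : (25 : ℝ) ≤ (M : ℝ) ^ (3 * r + 3) :=
          hMR.trans (le_self_pow₀ (by linarith) (by omega))
        refine (tri_FT (by positivity) ?_).mono ?_
        · rw [div_le_div_iff₀ (by positivity) (by norm_num)]
          linarith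
        · have e : 1 / (1 / (M : ℝ) ^ (3 * r + 3)) ^ 2 = (M : ℝ) ^ ((3 * r + 3) * 2) := by
            rw [pow_mul]
            field_simp
          rw [e]
          exact pow_le_pow_right₀ (by linarith) (by omega))
      (fun r u => (q : ℝ) ^ r * tcf P u r) (M ^ T ^ 6) (Nat.pow_pos (by omega))
      (1 / (M : ℝ) ^ T ^ 6) (by positivity)
      (fun l hl hne => key_sum hc0 hT hM0 (by omega) hdT hP hG2 hq1 hq2 l
        (fun i hi => by exact_mod_cast hl i hi) hne)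
    rw [Finset.prod_const_one, one_mul, Finset.card_range, Nat.card_Icc] at hm
    have h1 := (abs_le.1 hm).2
    have h2 : (5 * (M : ℝ) ^ (6 * T + 6)) ^ (d - 1 + 1 - 1) *
        (1 / (M : ℝ) ^ T ^ 6 + ((d - 1 + 1 - 1 : ℕ) : ℝ) / ((M ^ T ^ 6 : ℕ) : ℝ)) ≤ 1 := by
      have h3 : (1 : ℝ) ≤ 5 * (M : ℝ) ^ (6 * T + 6) := by
        have : (1 : ℝ) ≤ (M : ℝ) ^ (6 * T + 6) := one_le_pow₀ (by linarith)
        linarith
      have h4 : (5 * (M : ℝ) ^ (6 * T + 6)) ^ (d - 1 + 1 - 1) ≤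
          (M : ℝ) * (M : ℝ) ^ ((6 * T + 6) * T) := by
        calc (5 * (M : ℝ) ^ (6 * T + 6)) ^ (d - 1 + 1 - 1)
            ≤ (5 * (M : ℝ) ^ (6 * T + 6)) ^ T := pow_le_pow_right₀ h3 (by omega)
          _ = (5 : ℝ) ^ T * (M : ℝ) ^ ((6 * T + 6) * T) := by rw [mul_pow, ← pow_mul]
          _ ≤ (M : ℝ) * (M : ℝ) ^ ((6 * T + 6) * T) := by
              have : (5 : ℝ) ^ T ≤ M := by exact_mod_cast h5T
              gcongr
      have h5 : 1 / (M : ℝ) ^ T ^ 6 + ((d - 1 + 1 - 1 : ℕ) : ℝ) / ((M ^ T ^ 6 : ℕ) : ℝ) ≤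
          (M : ℝ) / (M : ℝ) ^ T ^ 6 := by
        have h6 : ((d - 1 + 1 - 1 : ℕ) : ℝ) + 1 ≤ M := by
          have : ((d - 1 + 1 - 1 : ℕ) : ℝ) + 1 ≤ T := by
            exact_mod_cast (show (d - 1 + 1 - 1) + 1 ≤ T by omega)
          linarith
        rw [Nat.cast_pow, ← add_div]
        gcongr
        linarith
      have h7 : (M : ℝ) * ((M : ℝ) * (M : ℝ) ^ ((6 * T + 6) * T)) ≤ (M : ℝ) ^ T ^ 6 := by
        rw [← pow_succ', ← pow_succ']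
        exact pow_le_pow_right₀ (by linarith) (by have := num3 hT; omega)
      calc (5 * (M : ℝ) ^ (6 * T + 6)) ^ (d - 1 + 1 - 1) *
          (1 / (M : ℝ) ^ T ^ 6 + ((d - 1 + 1 - 1 : ℕ) : ℝ) / ((M ^ T ^ 6 : ℕ) : ℝ))
          ≤ ((M : ℝ) * (M : ℝ) ^ ((6 * T + 6) * T)) * ((M : ℝ) / (M : ℝ) ^ T ^ 6) := by
            gcongr
        _ = ((M : ℝ) * ((M : ℝ) * (M : ℝ) ^ ((6 * T + 6) * T))) / (M : ℝ) ^ T ^ 6 := by ring
        _ ≤ 1 := by
            rw [div_le_one (by positivity)]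
            exact h7
    have h3 : (0 : ℝ) ≤ (M : ℝ) ^ T ^ 27 := by positivity
    push_cast at h1 h2 ⊢
    have h4 := mul_le_mul_of_nonneg_right h2 h3
    linarith
  have hd0 : tri (1 / (M : ℝ) ^ (3 * d + 3)) ((q : ℝ) ^ d * P.coeff d) ≥ 0 :=
    tri_nonneg (by positivity) _
  have hsplit : ∀ u : ℕ, wt 1 d M P u q = tri (1 / (M : ℝ) ^ (3 * d + 3))
      ((q : ℝ) ^ d * P.coeff d) * ∏ r ∈ Icc 1 (d - 1),
        tri (1 / (M : ℝ) ^ (3 * r + 3)) ((q : ℝ) ^ r * tcf P u r) := by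
    intro u
    rw [wt]
    obtain ⟨d', rfl⟩ : ∃ d', d = d' + 1 := ⟨d - 1, by omega⟩
    rw [Finset.prod_Icc_succ_top (by omega), Nat.add_sub_cancel, mul_comm, tcf_top P _ hP u]
  calc ∑ u ∈ range (M ^ T ^ 27), wt 1 d M P u q
      = tri (1 / (M : ℝ) ^ (3 * d + 3)) ((q : ℝ) ^ d * P.coeff d) *
        ∑ u ∈ range (M ^ T ^ 27), ∏ r ∈ Icc 1 (d - 1),
        tri (1 / (M : ℝ) ^ (3 * r + 3)) ((q : ℝ) ^ r * tcf P u r) := by
        rw [Finset.mul_sum]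
        exact Finset.sum_congr rfl fun u _ => hsplit u
    _ ≤ tri (1 / (M : ℝ) ^ (3 * d + 3)) ((q : ℝ) ^ d * P.coeff d) * (2 * (M : ℝ) ^ T ^ 27) :=
        mul_le_mul_of_nonneg_left hprod hd0
    _ = _ := by ring

end Pool.Agent.Work.MP_215640_nt.Q
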