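import Pool.Agent.Work.MP_215640_nt.Q.Tcf
import Pool.Agent.Work.MP_215640_nt.Q.Tri

/-!
MODULE SHIFT. The weight of a step `q` hardly changes along the progression with step `q`.

Put `τ_r = M^(-(3r+3))`, `y_r = q^r tcf P u r`, `y'_r = q^r tcf P (u+qv) r`. By `tcf_shift` (shift `q v`)
`y'_r = y_r + ∑_{s>r} (s choose r) v^(s-r) y_s`, and by `tcf_shift_back` `y_r = y'_r + ∑_{s>r} (s choose r) (-v)^(s-r) y'_s`.
If all `dI y_s ≤ 2 τ_s` (or all `dI y'_s ≤ 2 τ_s`) then `dI (y'_r - y_r) ≤ T 2^(T+1) / M^2 * τ_r`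
(use `dI_int_mul_le`, `dI_add_le`). If one of the two weights is
nonzero then all `dI y_s ≤ 2 τ_s`. In that case `1/τ_s ≤ 8 tri (4 τ_s) y_s`, so by `tri_lip`
`|tri τ_r y'_r - tri τ_r y_r| ≤ T 2^(T+1) M^(-2)/τ_r ≤ T 2^(T+1) M^(-2) 8 tri (4τ_r) y_r` and
`tri τ_s ≤ 1/τ_s ≤ 8 tri (4τ_s) y_s`; telescoping the product, the difference is at most
`d 8^d T 2^(T+1) M^(-2) wt 4 ≤ wt 4 / (16 M)`. If both weights vanish the claim is trivial.
-/

set_option autoImplicit false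

namespace Pool.Agent.Work.MP_215640_nt.Q

open Finset Polynomial

private theorem prod_diff {ι : Type*} [DecidableEq ι] (s : Finset ι) (a a' B : ι → ℝ) (δ : ℝ)
    (hδ : 0 ≤ δ) (ha0 : ∀ i ∈ s, 0 ≤ a i) (ha : ∀ i ∈ s, a i ≤ B i) (ha0' : ∀ i ∈ s, 0 ≤ a' i)
    (ha' : ∀ i ∈ s, a' i ≤ B i) (hd : ∀ i ∈ s, |a' i - a i| ≤ δ * B i) :
    |∏ i ∈ s, a' i - ∏ i ∈ s, a i| ≤ s.card * δ * ∏ i ∈ s, B i := by
  induction s using Finset.induction_on with
  | empty => simp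
  | insert x s hx ih =>
    have ih' := ih (fun i hi => ha0 i (mem_insert_of_mem hi)) (fun i hi => ha i (mem_insert_of_mem hi))
      (fun i hi => ha0' i (mem_insert_of_mem hi)) (fun i hi => ha' i (mem_insert_of_mem hi))
      (fun i hi => hd i (mem_insert_of_mem hi))
    have h0 := ha0 x (mem_insert_self _ _)
    have h0' := ha0' x (mem_insert_self _ _)
    have h1 := ha x (mem_insert_self _ _)
    have h1' := ha' x (mem_insert_self _ _)
    have h2 := hd x (mem_insert_self _ _)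
    have hB : 0 ≤ ∏ i ∈ s, B i := prod_nonneg fun i hi =>
      (ha0 i (mem_insert_of_mem hi)).trans (ha i (mem_insert_of_mem hi))
    have hA : ∏ i ∈ s, a i ≤ ∏ i ∈ s, B i := prod_le_prod
      (fun i hi => ha0 i (mem_insert_of_mem hi)) (fun i hi => ha i (mem_insert_of_mem hi))
    have hA0 : 0 ≤ ∏ i ∈ s, a i := prod_nonneg fun i hi => ha0 i (mem_insert_of_mem hi)
    rw [prod_insert hx, prod_insert hx, prod_insert hx, card_insert_of_notMem hx]
    have h3 : a' x * ∏ i ∈ s, a' i - a x * ∏ i ∈ s, a i =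
        a' x * (∏ i ∈ s, a' i - ∏ i ∈ s, a i) + (a' x - a x) * ∏ i ∈ s, a i := by ring
    rw [h3]
    refine (abs_add_le _ _).trans ?_
    rw [abs_mul, abs_mul, abs_of_nonneg h0', abs_of_nonneg hA0]
    have h4 : a' x * |∏ i ∈ s, a' i - ∏ i ∈ s, a i| ≤ B x * (s.card * δ * ∏ i ∈ s, B i) :=
      mul_le_mul h1' ih' (abs_nonneg _) (h0.trans h1)
    have h5 : |a' x - a x| * ∏ i ∈ s, a i ≤ δ * B x * ∏ i ∈ s, B i :=
      mul_le_mul h2 hA hA0 (mul_nonneg hδ (h0.trans h1))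
    push_cast
    nlinarith

private theorem dI_zero' : dI 0 = 0 := by
  have := dI_le_abs 0
  rw [abs_zero] at this
  exact le_antisymm this (dI_nonneg 0)

private theorem dI_sum_le {ι : Type*} (s : Finset ι) (f : ι → ℝ) :
    dI (∑ i ∈ s, f i) ≤ ∑ i ∈ s, dI (f i) := by
  classical
  induction s using Finset.induction_on with
  | empty => rw [sum_empty, sum_empty, dI_zero']
  | insert x s hx ih =>
    rw [sum_insert hx, sum_insert hx]
    exact (dI_add_le _ _).trans (by linarith)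

private theorem shift_dI (d T M : ℕ) (hM : 1 ≤ M) (hd : d ≤ T) (x : ℤ) (hx : |(x : ℝ)| ≤ M)
    (y y' : ℕ → ℝ) (r : ℕ) (hr : 1 ≤ r) (hrd : r ≤ d)
    (h : y' r = ∑ s ∈ Icc r d, (s.choose r : ℝ) * (x : ℝ) ^ (s - r) * y s)
    (hy : ∀ s, 1 ≤ s → s ≤ d → dI (y s) ≤ 2 / (M : ℝ) ^ (3 * s + 3)) :
    dI (y' r - y r) ≤ T * 2 ^ (T + 1) / (M : ℝ) ^ 2 * (1 / (M : ℝ) ^ (3 * r + 3)) := by
  have hMR : (1 : ℝ) ≤ M := by exact_mod_cast hM
  have hM0 : (0 : ℝ) < M := by linarith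
  have hsplit : Icc r d = insert r (Icc (r + 1) d) := by
    ext s
    simp only [mem_Icc, mem_insert]
    omega
  have h1 : y' r - y r = ∑ s ∈ Icc (r + 1) d, (s.choose r : ℝ) * (x : ℝ) ^ (s - r) * y s := by
    rw [h, hsplit, sum_insert (by simp)]
    simp
  rw [h1]
  refine (dI_sum_le _ _).trans ?_
  have h2 : ∀ s ∈ Icc (r + 1) d, dI ((s.choose r : ℝ) * (x : ℝ) ^ (s - r) * y s) ≤
      2 ^ (T + 1) / (M : ℝ) ^ 2 * (1 / (M : ℝ) ^ (3 * r + 3)) := by
    intro s hs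
    obtain ⟨hs1, hs2⟩ := mem_Icc.1 hs
    have h3 : (s.choose r : ℝ) * (x : ℝ) ^ (s - r) * y s =
        (((s.choose r : ℤ) * x ^ (s - r) : ℤ) : ℝ) * y s := by push_cast; ring
    rw [h3]
    refine (dI_int_mul_le _ _).trans ?_
    have h4 : |(((s.choose r : ℤ) * x ^ (s - r) : ℤ) : ℝ)| ≤ 2 ^ T * (M : ℝ) ^ (s - r) := by
      push_cast
      rw [abs_mul, abs_pow, abs_of_nonneg (by positivity : (0 : ℝ) ≤ (s.choose r : ℝ))]
      refine mul_le_mul ?_ (pow_le_pow_left₀ (abs_nonneg _) hx _) (by positivity) (by positivity)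
      have h5 : s.choose r ≤ 2 ^ s := Nat.choose_le_two_pow s r
      have h6 : 2 ^ s ≤ 2 ^ T := Nat.pow_le_pow_right (by norm_num) (hs2.trans hd)
      exact_mod_cast h5.trans h6
    have h5 := hy s (by omega) hs2
    have h6 : |(((s.choose r : ℤ) * x ^ (s - r) : ℤ) : ℝ)| * dI (y s) ≤
        2 ^ T * (M : ℝ) ^ (s - r) * (2 / (M : ℝ) ^ (3 * s + 3)) :=
      mul_le_mul h4 h5 (dI_nonneg _) (by positivity)
    refine h6.trans ?_
    have h7 : (M : ℝ) ^ (s - r) * (M : ℝ) ^ 2 * (M : ℝ) ^ (3 * r + 3) ≤ (M : ℝ) ^ (3 * s + 3) := by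
      rw [← pow_add, ← pow_add]
      exact pow_le_pow_right₀ hMR (by omega)
    have h8 : (M : ℝ) ^ (s - r) / (M : ℝ) ^ (3 * s + 3) ≤
        1 / ((M : ℝ) ^ 2 * (M : ℝ) ^ (3 * r + 3)) := by
      rw [div_le_div_iff₀ (by positivity) (by positivity)]
      linarith
    have h9 : 2 ^ T * (M : ℝ) ^ (s - r) * (2 / (M : ℝ) ^ (3 * s + 3)) =
        2 ^ (T + 1) * ((M : ℝ) ^ (s - r) / (M : ℝ) ^ (3 * s + 3)) := by
      rw [pow_succ]; ring
    have h10 : 2 ^ (T + 1) / (M : ℝ) ^ 2 * (1 / (M : ℝ) ^ (3 * r + 3)) =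
        2 ^ (T + 1) * (1 / ((M : ℝ) ^ 2 * (M : ℝ) ^ (3 * r + 3))) := by
      field_simp
    rw [h9, h10]
    exact mul_le_mul_of_nonneg_left h8 (by positivity)
  refine (sum_le_sum h2).trans ?_
  rw [sum_const, Nat.card_Icc, nsmul_eq_mul]
  have h3 : ((d + 1 - (r + 1) : ℕ) : ℝ) ≤ T := by
    have : d + 1 - (r + 1) ≤ T := by omega
    exact_mod_cast this
  have h4 : 0 ≤ 2 ^ (T + 1) / (M : ℝ) ^ 2 * (1 / (M : ℝ) ^ (3 * r + 3)) := by positivity
  have h5 := mul_le_mul_of_nonneg_right h3 h4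
  refine h5.trans (le_of_eq ?_)
  ring

private theorem tri_lower {τ y : ℝ} (hτ : 0 < τ) (h : dI y ≤ 2 * τ) :
    1 / τ ≤ 8 * tri (4 * τ) y := by
  unfold tri
  have h1 : dI y / (4 * τ) ≤ 1 / 2 := by
    rw [div_le_iff₀ (by positivity)]
    linarith
  have h2 : (1 / 2 : ℝ) ≤ max 0 (1 - dI y / (4 * τ)) := le_max_of_le_right (by linarith)
  have h3 : (1 / 2 : ℝ) / (4 * τ) ≤ max 0 (1 - dI y / (4 * τ)) / (4 * τ) :=
    div_le_div_of_nonneg_right h2 (by positivity)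
  have h4 : 8 * ((1 / 2 : ℝ) / (4 * τ)) = 1 / τ := by
    field_simp
    norm_num
  linarith

theorem wt_shift : ∃ c : ℕ, ∀ T : ℕ, 2 ≤ T → ∀ M : ℕ, 2 ^ T ^ c ≤ M → ∀ d : ℕ, 1 ≤ d → d ≤ T →
    ∀ P : ℝ[X], P.natDegree ≤ d → ∀ u q v : ℕ, v ≤ M →
    |wt 1 d M P (u + q * v) q - wt 1 d M P u q| ≤ wt 4 d M P u q / (16 * M) := by
  classical
  refine ⟨5, fun T hT M hM d hd1 hd P hP u q v hv => ?_⟩
  have hM2 : 2 ^ (6 * T + 5) ≤ M := by
    refine le_trans (Nat.pow_le_pow_right (by norm_num) ?_) hM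
    have h1 : 2 ^ 4 ≤ T ^ 4 := Nat.pow_le_pow_left hT 4
    have h2 : T ^ 5 = T ^ 4 * T := pow_succ _ _
    nlinarith
  have hM1 : 1 ≤ M := le_trans (Nat.one_le_two_pow) hM2
  have hMR : (1 : ℝ) ≤ M := by exact_mod_cast hM1
  have hM0 : (0 : ℝ) < M := by linarith
  -- the constant
  set δ : ℝ := T * 2 ^ (T + 1) / (M : ℝ) ^ 2 with hδ
  have hδ0 : 0 ≤ δ := by positivity
  have hbig : 16 * (T : ℝ) * 8 ^ T * (T * 2 ^ (T + 1)) ≤ M := by
    have h1 : (T : ℝ) ≤ 2 ^ T := by exact_mod_cast Nat.lt_two_pow_self.le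
    have h2 : (2 : ℝ) ^ (6 * T + 5) ≤ M := by exact_mod_cast hM2
    have h3 : 16 * (T : ℝ) * 8 ^ T * (T * 2 ^ (T + 1)) ≤
        16 * (2 : ℝ) ^ T * 8 ^ T * (2 ^ T * 2 ^ (T + 1)) := by gcongr
    refine h3.trans (le_trans (le_of_eq ?_) h2)
    have h4 : (8 : ℝ) ^ T = 2 ^ (3 * T) := by rw [pow_mul]; norm_num
    have h5 : (16 : ℝ) = 2 ^ 4 := by norm_num
    rw [h4, h5, ← pow_add, ← pow_add, ← pow_add, ← pow_add]
    congr 1
    ring
  have hδbig : 16 * M * (T * 8 ^ T * δ) ≤ 1 := by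
    rw [hδ]
    have h1 : 16 * (M : ℝ) * (T * 8 ^ T * (T * 2 ^ (T + 1) / (M : ℝ) ^ 2)) =
        (16 * (T : ℝ) * 8 ^ T * (T * 2 ^ (T + 1))) / M := by
      field_simp
    rw [h1, div_le_one hM0]
    exact hbig
  have hδ1 : δ ≤ 1 := by
    have h1 : (1 : ℝ) ≤ 16 * M * (T * 8 ^ T) := by
      have h2 : (1 : ℝ) ≤ T := by exact_mod_cast (by omega : 1 ≤ T)
      have h3 : (1 : ℝ) ≤ 8 ^ T := one_le_pow₀ (by norm_num)
      have h4 : (1 : ℝ) ≤ T * 8 ^ T := by nlinarith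
      nlinarith
    nlinarith
  set τ : ℕ → ℝ := fun r => 1 / (M : ℝ) ^ (3 * r + 3) with hτ
  have hτ0 : ∀ r, 0 < τ r := fun r => by simp only [hτ]; positivity
  set y : ℕ → ℝ := fun r => (q : ℝ) ^ r * tcf P u r with hy
  set y' : ℕ → ℝ := fun r => (q : ℝ) ^ r * tcf P (u + q * v) r with hy'
  have hw4 : wt 4 d M P u q = ∏ r ∈ Icc 1 d, tri (4 * τ r) (y r) := by
    unfold wt
    refine prod_congr rfl fun r _ => ?_
    simp only [hτ, hy]
    congr 1
    ring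
  have hfwd : ∀ r, y' r = ∑ s ∈ Icc r d, (s.choose r : ℝ) * ((v : ℤ) : ℝ) ^ (s - r) * y s := by
    intro r
    simp only [hy', hy]
    rw [tcf_shift P d hP, mul_sum]
    refine sum_congr rfl fun s hs => ?_
    have h1 : (q : ℝ) ^ s = q ^ r * q ^ (s - r) := by
      rw [← pow_add]
      congr 1
      have := (mem_Icc.1 hs).1
      omega
    rw [h1]
    push_cast
    rw [mul_pow]
    ring
  have hbwd : ∀ r, y r = ∑ s ∈ Icc r d, (s.choose r : ℝ) * ((-(v : ℤ) : ℤ) : ℝ) ^ (s - r) * y' s := by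
    intro r
    simp only [hy', hy]
    rw [tcf_shift_back P d hP u (q * v) r, mul_sum]
    refine sum_congr rfl fun s hs => ?_
    have h1 : (q : ℝ) ^ s = q ^ r * q ^ (s - r) := by
      rw [← pow_add]
      congr 1
      have := (mem_Icc.1 hs).1
      omega
    rw [h1]
    push_cast
    have h2 : (-((q : ℝ) * v)) ^ (s - r) = q ^ (s - r) * (-(v : ℝ)) ^ (s - r) := by
      rw [← mul_pow]; ring
    rw [h2]
    ring
  have hvR : |(((v : ℤ)) : ℝ)| ≤ M := by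
    push_cast
    rw [abs_of_nonneg (Nat.cast_nonneg v)]
    exact_mod_cast hv
  have hvR' : |((-(v : ℤ) : ℤ) : ℝ)| ≤ M := by
    push_cast
    rw [abs_neg, abs_of_nonneg (Nat.cast_nonneg v)]
    exact_mod_cast hv
  have hw4nn : 0 ≤ wt 4 d M P u q := by
    rw [hw4]
    exact prod_nonneg fun r _ => tri_nonneg (by have := hτ0 r; positivity) _
  have hw1 : ∀ x, wt 1 d M P x q = ∏ r ∈ Icc 1 d, tri (τ r) ((q : ℝ) ^ r * tcf P x r) :=
    fun x => rfl
  -- both weights vanish or all dI are small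
  by_cases hall : ∀ s, 1 ≤ s → s ≤ d → dI (y s) ≤ 2 * τ s
  · have hclose : ∀ r ∈ Icc 1 d, dI (y' r - y r) ≤ δ * τ r := by
      intro r hr
      obtain ⟨hr1, hr2⟩ := mem_Icc.1 hr
      have h1 := shift_dI d T M hM1 hd (v : ℤ) hvR y y' r hr1 hr2 (hfwd r) (fun s h1 h2 => by
        refine (hall s h1 h2).trans (le_of_eq ?_)
        simp only [hτ]
        ring)
      exact h1
    have hkey := prod_diff (Icc 1 d) (fun r => tri (τ r) (y r)) (fun r => tri (τ r) (y' r))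
      (fun r => 8 * tri (4 * τ r) (y r)) δ hδ0
      (fun r _ => tri_nonneg (hτ0 r) _)
      (fun r hr => (tri_le (hτ0 r) _).trans
        (tri_lower (hτ0 r) (hall r (mem_Icc.1 hr).1 (mem_Icc.1 hr).2)))
      (fun r _ => tri_nonneg (hτ0 r) _)
      (fun r hr => (tri_le (hτ0 r) _).trans
        (tri_lower (hτ0 r) (hall r (mem_Icc.1 hr).1 (mem_Icc.1 hr).2)))
      (fun r hr => by
        refine (tri_lip (hτ0 r) _ _).trans ?_
        have h1 : dI (y' r - y r) / τ r ^ 2 ≤ δ * τ r / τ r ^ 2 :=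
          div_le_div_of_nonneg_right (hclose r hr) (by have := hτ0 r; positivity)
        have h2 : δ * τ r / τ r ^ 2 = δ * (1 / τ r) := by
          have := (hτ0 r).ne'
          field_simp
        rw [h2] at h1
        exact h1.trans (mul_le_mul_of_nonneg_left
          (tri_lower (hτ0 r) (hall r (mem_Icc.1 hr).1 (mem_Icc.1 hr).2)) hδ0))
    rw [hw1 (u + q * v), hw1 u]
    refine hkey.trans ?_
    rw [prod_mul_distrib, prod_const, Nat.card_Icc, Nat.add_sub_cancel, ← hw4]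
    have h1 : (d : ℝ) * δ * (8 ^ d * wt 4 d M P u q) ≤ T * δ * (8 ^ T * wt 4 d M P u q) := by
      have h2 : (d : ℝ) ≤ T := by exact_mod_cast hd
      have h3 : (8 : ℝ) ^ d ≤ 8 ^ T := pow_le_pow_right₀ (by norm_num) hd
      gcongr
    refine h1.trans ?_
    rw [le_div_iff₀ (by positivity)]
    have h2 : T * δ * (8 ^ T * wt 4 d M P u q) * (16 * M) =
        (16 * M * (T * 8 ^ T * δ)) * wt 4 d M P u q := by ring
    rw [h2]
    nlinarith
  · push Not at hall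
    obtain ⟨s0, hs1, hs2, hs3⟩ := hall
    have hz : wt 1 d M P u q = 0 := by
      rw [hw1 u]
      refine prod_eq_zero (mem_Icc.2 ⟨hs1, hs2⟩) (tri_eq_zero (hτ0 s0) ?_)
      have := hτ0 s0
      have h1 : 2 * τ s0 < dI ((q : ℝ) ^ s0 * tcf P u s0) := hs3
      linarith
    have hz' : wt 1 d M P (u + q * v) q = 0 := by
      by_contra hne
      rw [hw1 (u + q * v)] at hne
      have hne := prod_ne_zero_iff.1 hne
      have hsm : ∀ s, 1 ≤ s → s ≤ d → dI (y' s) < τ s := fun s h1 h2 =>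
        dI_lt_of_tri (hτ0 s) (hne s (mem_Icc.2 ⟨h1, h2⟩))
      have h1 := shift_dI d T M hM1 hd (-(v : ℤ)) hvR' y' y s0 hs1 hs2 (hbwd s0) (fun s h1 h2 => by
        have h3 := hsm s h1 h2
        have h4 := hτ0 s
        have h5 : 2 / (M : ℝ) ^ (3 * s + 3) = 2 * τ s := by
          simp only [hτ]; ring
        rw [h5]
        linarith)
      have h2 : δ * τ s0 ≤ τ s0 := by
        have := hτ0 s0
        nlinarith
      have h3 : dI (y s0) ≤ dI (y s0 - y' s0) + dI (y' s0) := by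
        have := dI_add_le (y s0 - y' s0) (y' s0)
        rwa [sub_add_cancel] at this
      have h4 := hsm s0 hs1 hs2
      have h5 : dI (y s0 - y' s0) ≤ δ * τ s0 := h1
      linarith
    rw [hz, hz', sub_self, abs_zero]
    positivity

end Pool.Agent.Work.MP_215640_nt.Q
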