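import Pool.Agent.Work.MP_215640_nt.Q.NodeAvg
import Pool.Agent.Work.MP_215640_nt.Q.NodeTop
import Pool.Agent.Work.MP_215640_nt.Q.Shift

/-!
MODULE NODE. The partition identity with smooth random steps, `V = M^(T^27)`, `Q = M^(T^16)`.

(N2) is `poly_avg` with `a = 1` (`g = T^24`, `e = T^25`, second half of `G2`).
(N1): let `S = (1/Q) ∑_q (1/M) ∑_{v<M} ∑_{u<V} wt(u,q) F(u+qv)`. Replace `wt(u,q)` by `wt(u+qv,q)`: by `wt_shift` the error is
at most `(1/Q) ∑_q ∑_u wt 4 (u,q)/(16M) ≤ 2V/(16M)` (`node_avg` with `lam = 4`). Then substitute `u' = u+qv`, `u'` runs over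
`[qv, V+qv)`; changing to `[0,V)` costs at most `2 q v M^(T^4) ≤ 2 M^(T^16+1+T^4) ≤ V/(8M)` (`wt_le`). What remains is
`∑_{u'<V} F(u') (1/Q) ∑_q wt(u',q)`, which differs from `∑ F` by at most `V/(8M)` (`node_avg`, `lam = 1`).
(N3) `node_top`, (N4) `node_avg`.
-/

set_option autoImplicit false

namespace Pool.Agent.Work.MP_215640_nt.Q

open Finset Polynomial

private theorem shift_sum (G : ℕ → ℝ) (B : ℝ) (hG : ∀ n, |G n| ≤ B) (V s : ℕ) :
    |∑ u ∈ range V, G u - ∑ u ∈ range V, G (u + s)| ≤ 2 * s * B := by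
  have h1 : ∑ u ∈ range (V + s), G u = ∑ u ∈ range V, G u + ∑ u ∈ range s, G (V + u) :=
    sum_range_add G V s
  have h2 : ∑ u ∈ range (s + V), G u = ∑ u ∈ range s, G u + ∑ u ∈ range V, G (s + u) :=
    sum_range_add G s V
  have h3 : ∑ u ∈ range V, G (u + s) = ∑ u ∈ range V, G (s + u) :=
    sum_congr rfl fun u _ => by rw [add_comm]
  rw [add_comm s V] at h2
  have h4 : ∑ u ∈ range V, G u - ∑ u ∈ range V, G (u + s) =
      ∑ u ∈ range s, G u - ∑ u ∈ range s, G (V + u) := by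
    rw [h3]; linarith
  rw [h4]
  have h5 : ∀ g : ℕ → ℝ, (∀ n, |g n| ≤ B) → |∑ u ∈ range s, g u| ≤ s * B := by
    intro g hg
    refine (abs_sum_le_sum_abs _ _).trans ((sum_le_sum fun u _ => hg u).trans ?_)
    rw [sum_const, card_range, nsmul_eq_mul]
  refine (abs_sub _ _).trans ?_
  have h6 := h5 G hG
  have h7 := h5 (fun u => G (V + u)) (fun n => hG _)
  linarith

theorem node : ∃ c : ℕ, ∀ T : ℕ, 2 ≤ T → ∀ M : ℕ, 2 ^ T ^ c ≤ M → ∀ d : ℕ, 1 ≤ d → d ≤ T →
    ∀ P : ℝ[X], P.natDegree ≤ d → G2 T M 1 (P.coeff d) →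
    (∀ F : ℕ → ℝ, (∀ n, |F n| ≤ 1) →
      |∑ u ∈ range (M ^ T ^ 27), F u - ∑ u ∈ range (M ^ T ^ 27), (1 / (M : ℝ) ^ T ^ 16) *
        ∑ q ∈ Icc 1 (M ^ T ^ 16), wt 1 d M P u q * ((1 / (M : ℝ)) * ∑ v ∈ range M, F (u + q * v))| ≤
        (M : ℝ) ^ T ^ 27 / M) ∧
    (∀ (f : ℝ → ℝ) (μ A : ℝ), FT f μ A → A ≤ M →
      |∑ u ∈ range (M ^ T ^ 27), f (P.eval (u : ℝ)) - μ * (M : ℝ) ^ T ^ 27| ≤ (M : ℝ) ^ T ^ 27 / M) ∧
    (∀ q : ℕ, 1 ≤ q → q ≤ M ^ T ^ 16 → ∑ u ∈ range (M ^ T ^ 27), wt 1 d M P u q ≤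
      2 * tri (1 / (M : ℝ) ^ (3 * d + 3)) ((q : ℝ) ^ d * P.coeff d) * (M : ℝ) ^ T ^ 27) ∧
    (∑ u ∈ range (M ^ T ^ 27),
      |1 - (1 / (M : ℝ) ^ T ^ 16) * ∑ q ∈ Icc 1 (M ^ T ^ 16), wt 1 d M P u q| ≤
        (M : ℝ) ^ T ^ 27 / M) := by
  obtain ⟨c1, h1⟩ := node_avg
  obtain ⟨c2, h2⟩ := node_top
  obtain ⟨c3, h3⟩ := poly_avg
  obtain ⟨c4, h4⟩ := wt_shift
  refine ⟨max (max c1 c2) (max (max c3 c4) 3), fun T hT M hM d hd1 hd P hP hG => ?_⟩
  have hTpos : 0 < T := by omega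
  have hMc : ∀ c, c ≤ max (max c1 c2) (max (max c3 c4) 3) → 2 ^ T ^ c ≤ M := fun c hc =>
    (Nat.pow_le_pow_right (by norm_num) (Nat.pow_le_pow_right hTpos hc)).trans hM
  have hM24 : 24 ≤ M := by
    have h3 := hMc 3 ((le_max_right _ _).trans (le_max_right _ _))
    have h4 : 2 ^ 3 ≤ T ^ 3 := Nat.pow_le_pow_left hT 3
    have h5 : 2 ^ 8 ≤ 2 ^ T ^ 3 := Nat.pow_le_pow_right (by norm_num) (by omega)
    omega
  have hM1 : 1 ≤ M := by omega
  have hMR : (24 : ℝ) ≤ M := by exact_mod_cast hM24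
  have hM0 : (0 : ℝ) < M := by linarith
  have hM1R : (1 : ℝ) ≤ M := by linarith
  have havg := h1 T hT M (hMc c1 ((le_max_left _ _).trans (le_max_left _ _))) d hd1 hd
  have htop := h2 T hT M (hMc c2 ((le_max_right _ _).trans (le_max_left _ _))) d hd1 hd P hP hG
  have hpoly := h3 T hT M (hMc c3 ((le_max_left _ _).trans ((le_max_left _ _).trans
    (le_max_right _ _)))) d hd1 hd P hP
  have hshift := h4 T hT M (hMc c4 ((le_max_right _ _).trans ((le_max_left _ _).trans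
    (le_max_right _ _)))) d hd1 hd P hP
  have havg1 := havg 1 le_rfl (by norm_num) P hP hG
  have havg4 := havg 4 (by norm_num) le_rfl P hP hG
  set V : ℕ := M ^ T ^ 27 with hV
  set Q : ℕ := M ^ T ^ 16 with hQ
  have hVR : (M : ℝ) ^ T ^ 27 = V := by rw [hV]; push_cast; rfl
  have hQR : (M : ℝ) ^ T ^ 16 = Q := by rw [hQ]; push_cast; rfl
  rw [hVR] at havg1 havg4 htop ⊢
  rw [hQR] at havg1 havg4 ⊢
  have hV0 : (0 : ℝ) < V := by rw [← hVR]; positivity
  have hQ0 : (0 : ℝ) < Q := by rw [← hQR]; positivity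
  have hV8 : (V : ℝ) / (8 * M) ≤ V / M := by
    refine div_le_div_of_nonneg_left hV0.le hM0 (by linarith)
  refine ⟨?_, ?_, fun q hq1 hq2 => htop q hq1 hq2, havg1.trans hV8⟩
  · intro F hF
    set W : ℕ → ℕ → ℝ := fun u q => wt 1 d M P u q with hW
    have hW0 : ∀ u q, 0 ≤ W u q := fun u q => wt_nonneg one_pos d M hM1 P u q
    have hWle : ∀ u q, W u q ≤ (M : ℝ) ^ T ^ 4 := fun u q => wt_le le_rfl T d M hM1 hT hd P u q
    -- first difference
    have d1 : |∑ u ∈ range V, F u - ∑ u ∈ range V, F u * ((1 / (Q : ℝ)) * ∑ q ∈ Icc 1 Q, W u q)| ≤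
        V / (8 * M) := by
      rw [← sum_sub_distrib]
      refine (abs_sum_le_sum_abs _ _).trans (le_trans (sum_le_sum fun u _ => ?_) havg1)
      have e1 : F u - F u * ((1 / (Q : ℝ)) * ∑ q ∈ Icc 1 Q, W u q) =
          F u * (1 - (1 / (Q : ℝ)) * ∑ q ∈ Icc 1 Q, W u q) := by ring
      rw [e1, abs_mul]
      calc |F u| * |1 - (1 / (Q : ℝ)) * ∑ q ∈ Icc 1 Q, W u q| ≤
            1 * |1 - (1 / (Q : ℝ)) * ∑ q ∈ Icc 1 Q, W u q| :=
            mul_le_mul_of_nonneg_right (hF u) (abs_nonneg _)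
        _ = _ := one_mul _
    -- rewriting the sums
    have e2 : ∑ u ∈ range V, F u * ((1 / (Q : ℝ)) * ∑ q ∈ Icc 1 Q, W u q) =
        (1 / (Q : ℝ)) * ∑ q ∈ Icc 1 Q, (1 / (M : ℝ)) * ∑ v ∈ range M, ∑ u ∈ range V, W u q * F u := by
      have e3 : ∀ q ∈ Icc 1 Q, (1 / (M : ℝ)) * ∑ v ∈ range M, ∑ u ∈ range V, W u q * F u =
          ∑ u ∈ range V, W u q * F u := by
        intro q _
        rw [sum_const, card_range, nsmul_eq_mul]
        field_simp
      rw [sum_congr rfl e3, sum_comm, mul_sum]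
      refine sum_congr rfl fun u _ => ?_
      rw [← sum_mul]
      ring
    have e4 : ∑ u ∈ range V, (1 / (Q : ℝ)) *
        ∑ q ∈ Icc 1 Q, W u q * ((1 / (M : ℝ)) * ∑ v ∈ range M, F (u + q * v)) =
        (1 / (Q : ℝ)) * ∑ q ∈ Icc 1 Q, (1 / (M : ℝ)) * ∑ v ∈ range M, ∑ u ∈ range V,
          W u q * F (u + q * v) := by
      rw [← mul_sum, sum_comm]
      congr 1
      refine sum_congr rfl fun q _ => ?_
      rw [sum_comm, mul_sum]
      refine sum_congr rfl fun u _ => ?_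
      rw [← mul_sum]
      ring
    -- second difference
    have d2 : |∑ u ∈ range V, F u * ((1 / (Q : ℝ)) * ∑ q ∈ Icc 1 Q, W u q) -
        ∑ u ∈ range V, (1 / (Q : ℝ)) *
        ∑ q ∈ Icc 1 Q, W u q * ((1 / (M : ℝ)) * ∑ v ∈ range M, F (u + q * v))| ≤
        V / (8 * M) + V / (8 * M) := by
      rw [e2, e4, ← mul_sub, ← sum_sub_distrib, abs_mul, abs_of_pos (by positivity : 0 < 1 / (Q : ℝ))]
      have e5 : ∀ q ∈ Icc 1 Q, |(1 / (M : ℝ)) * ∑ v ∈ range M, ∑ u ∈ range V, W u q * F u -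
          (1 / (M : ℝ)) * ∑ v ∈ range M, ∑ u ∈ range V, W u q * F (u + q * v)| ≤
          V / (8 * M) + ∑ u ∈ range V, wt 4 d M P u q / (16 * M) := by
        intro q hq
        obtain ⟨hq1, hq2⟩ := mem_Icc.1 hq
        rw [← mul_sub, ← sum_sub_distrib, abs_mul, abs_of_pos (by positivity : 0 < 1 / (M : ℝ))]
        have e6 : ∀ v ∈ range M, |∑ u ∈ range V, W u q * F u -
            ∑ u ∈ range V, W u q * F (u + q * v)| ≤
            V / (8 * M) + ∑ u ∈ range V, wt 4 d M P u q / (16 * M) := by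
          intro v hv
          have hvM : v ≤ M := (mem_range.1 hv).le
          have e7 : ∑ u ∈ range V, W u q * F u - ∑ u ∈ range V, W u q * F (u + q * v) =
              (∑ u ∈ range V, W u q * F u -
                ∑ u ∈ range V, W (u + q * v) q * F (u + q * v)) +
              ∑ u ∈ range V, (W (u + q * v) q - W u q) * F (u + q * v) := by
            have : ∑ u ∈ range V, (W (u + q * v) q - W u q) * F (u + q * v) =
                ∑ u ∈ range V, W (u + q * v) q * F (u + q * v) -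
                  ∑ u ∈ range V, W u q * F (u + q * v) := by
              rw [← sum_sub_distrib]
              exact sum_congr rfl fun u _ => by ring
            rw [this]
            ring
          rw [e7]
          refine (abs_add_le _ _).trans (add_le_add ?_ ?_)
          · have e8 := shift_sum (fun n => W n q * F n) ((M : ℝ) ^ T ^ 4) (fun n => by
              rw [abs_mul, abs_of_nonneg (hW0 n q)]
              calc W n q * |F n| ≤ W n q * 1 := mul_le_mul_of_nonneg_left (hF n) (hW0 n q)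
                _ ≤ _ := by rw [mul_one]; exact hWle n q) V (q * v)
            refine e8.trans ?_
            rw [le_div_iff₀ (by positivity)]
            have e9 : ((q * v : ℕ) : ℝ) ≤ Q * M := by
              exact_mod_cast Nat.mul_le_mul hq2 hvM
            have e10 : 2 * ((q * v : ℕ) : ℝ) * (M : ℝ) ^ T ^ 4 * (8 * M) ≤
                2 * (Q * M) * (M : ℝ) ^ T ^ 4 * (8 * M) := by gcongr
            refine e10.trans ?_
            rw [← hQR, ← hVR]
            have e11 : 2 * ((M : ℝ) ^ T ^ 16 * M) * (M : ℝ) ^ T ^ 4 * (8 * M) =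
                16 * (M : ℝ) ^ (T ^ 16 + T ^ 4 + 2) := by
              rw [pow_add, pow_add]; ring
            have e12 : 16 * (M : ℝ) ^ (T ^ 16 + T ^ 4 + 2) ≤ (M : ℝ) ^ (T ^ 16 + T ^ 4 + 3) := by
              rw [pow_succ (M : ℝ) (T ^ 16 + T ^ 4 + 2)]
              have : (0 : ℝ) < (M : ℝ) ^ (T ^ 16 + T ^ 4 + 2) := by positivity
              nlinarith
            rw [e11]
            refine e12.trans (pow_le_pow_right₀ hM1R ?_)
            have f1 : T ^ 4 ≤ T ^ 16 := Nat.pow_le_pow_right hTpos (by norm_num)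
            have f2 : 3 ≤ T ^ 16 := by
              have : 2 ^ 16 ≤ T ^ 16 := Nat.pow_le_pow_left hT 16
              omega
            have f3 : T ^ 27 = T ^ 16 * T ^ 11 := by rw [← pow_add]
            have f4 : 3 ≤ T ^ 11 := by
              have : 2 ^ 11 ≤ T ^ 11 := Nat.pow_le_pow_left hT 11
              omega
            have f5 : T ^ 16 * 3 ≤ T ^ 16 * T ^ 11 := Nat.mul_le_mul_left _ f4
            omega
          · refine (abs_sum_le_sum_abs _ _).trans (sum_le_sum fun u _ => ?_)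
            rw [abs_mul]
            calc |W (u + q * v) q - W u q| * |F (u + q * v)| ≤
                  |W (u + q * v) q - W u q| * 1 :=
                  mul_le_mul_of_nonneg_left (hF _) (abs_nonneg _)
              _ ≤ _ := by rw [mul_one]; exact hshift u q v hvM
        have e7 := (abs_sum_le_sum_abs (fun v => ∑ u ∈ range V, W u q * F u -
            ∑ u ∈ range V, W u q * F (u + q * v)) (range M)).trans (sum_le_sum e6)
        rw [sum_const, card_range, nsmul_eq_mul] at e7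
        rw [one_div, inv_mul_le_iff₀ hM0]
        exact e7
      have e6 := (abs_sum_le_sum_abs (fun q => (1 / (M : ℝ)) * ∑ v ∈ range M, ∑ u ∈ range V,
          W u q * F u - (1 / (M : ℝ)) * ∑ v ∈ range M, ∑ u ∈ range V, W u q * F (u + q * v))
          (Icc 1 Q)).trans (sum_le_sum e5)
      rw [sum_add_distrib, sum_const, Nat.card_Icc, Nat.add_sub_cancel, nsmul_eq_mul] at e6
      -- total mass of the wide weights
      have e7 : ∑ q ∈ Icc 1 Q, ∑ u ∈ range V, wt 4 d M P u q / (16 * M) ≤ Q * (V / (8 * M)) := by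
        have e8 : ∑ u ∈ range V, ((1 / (Q : ℝ)) * ∑ q ∈ Icc 1 Q, wt 4 d M P u q - 1) ≤
            V / (8 * M) := by
          refine le_trans (sum_le_sum fun u _ => ?_) havg4
          rw [abs_sub_comm]
          exact le_abs_self _
        rw [sum_sub_distrib, sum_const, card_range, nsmul_eq_mul, mul_one] at e8
        have e9 : (V : ℝ) / (8 * M) ≤ V := div_le_self hV0.le (by linarith)
        have e10 : ∑ q ∈ Icc 1 Q, ∑ u ∈ range V, wt 4 d M P u q / (16 * M) =
            Q / (16 * M) * ∑ u ∈ range V, (1 / (Q : ℝ)) * ∑ q ∈ Icc 1 Q, wt 4 d M P u q := by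
          rw [sum_comm, mul_sum]
          refine sum_congr rfl fun u _ => ?_
          rw [← sum_div]
          field_simp
        rw [e10]
        have e11 : ∑ u ∈ range V, (1 / (Q : ℝ)) * ∑ q ∈ Icc 1 Q, wt 4 d M P u q ≤ 2 * V := by
          linarith
        have e12 := mul_le_mul_of_nonneg_left e11 (by positivity : 0 ≤ (Q : ℝ) / (16 * M))
        refine e12.trans (le_of_eq ?_)
        field_simp
        norm_num
      rw [one_div, inv_mul_le_iff₀ hQ0, mul_add]
      exact e6.trans (add_le_add le_rfl e7)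
    have e13 : ∑ u ∈ range V, F u - ∑ u ∈ range V, (1 / (Q : ℝ)) *
        ∑ q ∈ Icc 1 Q, W u q * ((1 / (M : ℝ)) * ∑ v ∈ range M, F (u + q * v)) =
        (∑ u ∈ range V, F u - ∑ u ∈ range V, F u * ((1 / (Q : ℝ)) * ∑ q ∈ Icc 1 Q, W u q)) +
        (∑ u ∈ range V, F u * ((1 / (Q : ℝ)) * ∑ q ∈ Icc 1 Q, W u q) -
        ∑ u ∈ range V, (1 / (Q : ℝ)) *
        ∑ q ∈ Icc 1 Q, W u q * ((1 / (M : ℝ)) * ∑ v ∈ range M, F (u + q * v))) := by ring
    have e14 : |∑ u ∈ range V, F u - ∑ u ∈ range V, (1 / (Q : ℝ)) *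
        ∑ q ∈ Icc 1 Q, W u q * ((1 / (M : ℝ)) * ∑ v ∈ range M, F (u + q * v))| ≤
        V / (8 * M) + (V / (8 * M) + V / (8 * M)) := by
      rw [e13]
      exact (abs_add_le _ _).trans (add_le_add d1 d2)
    refine e14.trans ?_
    have e15 : (V : ℝ) / (8 * M) + (V / (8 * M) + V / (8 * M)) = 3 / 8 * (V / M) := by
      field_simp
      norm_num
    rw [e15]
    have : 0 < (V : ℝ) / M := by positivity
    linarith
  · intro f μ A hf hA
    have e1 := hpoly 1 (T ^ 24) (T ^ 25) V ?_ hG.2 ?_ f μ A hf (by rw [pow_one]; exact hA)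
    · refine e1.trans ?_
      exact div_le_div_of_nonneg_left hV0.le hM0 (by nlinarith)
    · have f1 : T ^ 24 = T ^ 4 * T ^ 20 := by rw [← pow_add]
      have f2 : 2 ^ 20 ≤ T ^ 20 := Nat.pow_le_pow_left hT 20
      have f3 : T ^ 4 * 2 ^ 20 ≤ T ^ 4 * T ^ 20 := Nat.mul_le_mul_left _ f2
      have f4 : 2 ^ 4 ≤ T ^ 4 := Nat.pow_le_pow_left hT 4
      omega
    · rw [hV]
      refine Nat.pow_le_pow_right hM1 ?_
      have f1 : T ^ 25 = T ^ 24 * T := pow_succ _ _
      have f2 : T ^ 27 = T ^ 24 * T ^ 3 := by rw [← pow_add]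
      have f3 : T + 1 ≤ T ^ 3 := by
        have : T ^ 3 = T * T * T := by ring
        nlinarith
      have f4 : T ^ 24 * (T + 1) ≤ T ^ 24 * T ^ 3 := Nat.mul_le_mul_left _ f3
      rw [f1, f2]
      nlinarith

end Pool.Agent.Work.MP_215640_nt.Q
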