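import Pool.Agent.Work.MP_215640_nt.Q.AvgQ
import Pool.Agent.Work.MP_215640_nt.Q.BadCount

/-!
MODULE NODEAVG. `0 ≤ wt ≤ M^(T^4)` (`∑_{r ≤ d} (3r+3) = 3d(d+3)/2 ≤ T^4`), and for most starting points the weights
average to one: split the `u` into good ones (all Taylor coefficients generic: `avg_q` with `θ_r = tcf P u r`, error
`1/M^2`) and bad ones (`bad_count`, at most `V/M^(2T^4)`, each contributes at most `1 + M^(T^4)`). Sum
`≤ V (1/M^2 + 2 M^(-T^4)) ≤ V/(8M)`.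
-/

set_option autoImplicit false

namespace Pool.Agent.Work.MP_215640_nt.Q

open Finset Polynomial

theorem wt_nonneg {lam : ℝ} (hl : 0 < lam) (d M : ℕ) (hM : 1 ≤ M) (P : ℝ[X]) (u q : ℕ) :
    0 ≤ wt lam d M P u q := by
  unfold wt
  have hM0 : (0 : ℝ) < M := by exact_mod_cast hM
  exact prod_nonneg fun r _ => tri_nonneg (by positivity) _

private theorem sum_exp (d : ℕ) : 2 * ∑ r ∈ Icc 1 d, (3 * r + 3) = 3 * d * (d + 3) := by
  induction d with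
  | zero => simp
  | succ d ih =>
    rw [sum_Icc_succ_top (by omega), mul_add, ih]
    ring

theorem wt_le {lam : ℝ} (hl : 1 ≤ lam) (T d M : ℕ) (hM : 1 ≤ M) (hT : 2 ≤ T) (hd : d ≤ T) (P : ℝ[X])
    (u q : ℕ) : wt lam d M P u q ≤ (M : ℝ) ^ T ^ 4 := by
  have hMR : (1 : ℝ) ≤ M := by exact_mod_cast hM
  have hM0 : (0 : ℝ) < M := by linarith
  have hl0 : 0 < lam := by linarith
  have h1 : wt lam d M P u q ≤ ∏ r ∈ Icc 1 d, (M : ℝ) ^ (3 * r + 3) := by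
    unfold wt
    refine prod_le_prod (fun r _ => tri_nonneg (by positivity) _) fun r _ => ?_
    refine (tri_le (by positivity) _).trans ?_
    rw [one_div_div]
    exact div_le_self (by positivity) hl
  refine h1.trans ?_
  rw [prod_pow_eq_pow_sum]
  refine pow_le_pow_right₀ hMR ?_
  have h2 := sum_exp d
  have h3 : 3 * d * (d + 3) ≤ 3 * T * (T + 3) := by gcongr
  have h4 : 3 * T * (T + 3) ≤ 2 * T ^ 4 := by
    have h5 : 4 ≤ T ^ 2 := by nlinarith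
    have h6 : T ^ 4 = T ^ 2 * T ^ 2 := by ring
    nlinarith
  omega

theorem node_avg : ∃ c : ℕ, ∀ T : ℕ, 2 ≤ T → ∀ M : ℕ, 2 ^ T ^ c ≤ M → ∀ d : ℕ, 1 ≤ d → d ≤ T →
    ∀ lam : ℝ, 1 ≤ lam → lam ≤ 4 → ∀ P : ℝ[X], P.natDegree ≤ d → G2 T M 1 (P.coeff d) →
    ∑ u ∈ range (M ^ T ^ 27), |1 - (1 / (M : ℝ) ^ T ^ 16) * ∑ q ∈ Icc 1 (M ^ T ^ 16), wt lam d M P u q| ≤
      (M : ℝ) ^ T ^ 27 / (8 * M) := by
  classical
  obtain ⟨c1, h1⟩ := avg_q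
  obtain ⟨c2, h2⟩ := bad_count
  refine ⟨max (max c1 c2) 3, fun T hT M hM d hd1 hd lam hl1 hl4 P hP hG => ?_⟩
  have hTpos : 0 < T := by omega
  have hMc : ∀ c, c ≤ max (max c1 c2) 3 → 2 ^ T ^ c ≤ M := fun c hc =>
    (Nat.pow_le_pow_right (by norm_num) (Nat.pow_le_pow_right hTpos hc)).trans hM
  have hM24 : 24 ≤ M := by
    have h3 := hMc 3 (le_max_right _ _)
    have h4 : 2 ^ 3 ≤ T ^ 3 := Nat.pow_le_pow_left hT 3
    have h5 : 2 ^ 8 ≤ 2 ^ T ^ 3 := Nat.pow_le_pow_right (by norm_num) (by omega)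
    omega
  have hM1 : 1 ≤ M := by omega
  have hMR : (24 : ℝ) ≤ M := by exact_mod_cast hM24
  have hM0 : (0 : ℝ) < M := by linarith
  have havg := h1 T hT M (hMc c1 ((le_max_left _ _).trans (le_max_left _ _))) d hd1 hd lam hl1 hl4
  have hbad := h2 T hT M (hMc c2 ((le_max_right _ _).trans (le_max_left _ _))) d hd1 hd P hP hG
  set V : ℕ := M ^ T ^ 27 with hV
  set Qn : ℕ := M ^ T ^ 16 with hQ
  have hQR : (M : ℝ) ^ T ^ 16 = Qn := by rw [hQ]; push_cast; rfl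
  have hQ0 : (0 : ℝ) < (M : ℝ) ^ T ^ 16 := by positivity
  set g : ℕ → ℝ := fun u => |1 - (1 / (M : ℝ) ^ T ^ 16) * ∑ q ∈ Icc 1 Qn, wt lam d M P u q| with hg
  set good : ℕ → Prop := fun u => ∀ r, 1 ≤ r → r ≤ d →
    Gen (M ^ T ^ 14) (1 / (M : ℝ) ^ T ^ 15) (tcf P u r) with hgood
  have hgu : ∀ u, good u → g u ≤ 1 / (M : ℝ) ^ 2 := by
    intro u hu
    have h3 := havg (fun r => tcf P u r) hu
    simp only [hg]
    rw [abs_sub_comm]
    exact h3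
  have hgb : ∀ u, g u ≤ 2 * (M : ℝ) ^ T ^ 4 := by
    intro u
    have h3 : 0 ≤ (1 / (M : ℝ) ^ T ^ 16) * ∑ q ∈ Icc 1 Qn, wt lam d M P u q :=
      mul_nonneg (by positivity) (sum_nonneg fun q _ => wt_nonneg (by linarith) d M hM1 P u q)
    have h4 : (1 / (M : ℝ) ^ T ^ 16) * ∑ q ∈ Icc 1 Qn, wt lam d M P u q ≤ (M : ℝ) ^ T ^ 4 := by
      have h5 : ∑ q ∈ Icc 1 Qn, wt lam d M P u q ≤ ∑ q ∈ Icc 1 Qn, (M : ℝ) ^ T ^ 4 :=
        sum_le_sum fun q _ => wt_le hl1 T d M hM1 hT hd P u q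
      rw [sum_const, Nat.card_Icc, Nat.add_sub_cancel, nsmul_eq_mul, ← hQR] at h5
      rw [one_div, inv_mul_le_iff₀ hQ0]
      exact h5
    have h6 : (1 : ℝ) ≤ (M : ℝ) ^ T ^ 4 := one_le_pow₀ (by linarith)
    simp only [hg]
    rw [abs_le]
    constructor <;> linarith
  have hsplit : ∑ u ∈ range V, g u ≤ ∑ u ∈ range V, (1 / (M : ℝ) ^ 2) +
      ∑ u ∈ (range V).filter (fun u => ¬ good u), 2 * (M : ℝ) ^ T ^ 4 := by
    rw [sum_filter, ← sum_add_distrib]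
    refine sum_le_sum fun u _ => ?_
    by_cases hu : good u
    · rw [if_neg (not_not.2 hu), add_zero]
      exact hgu u hu
    · rw [if_pos hu]
      have := hgb u
      have h3 : 0 ≤ 1 / (M : ℝ) ^ 2 := by positivity
      linarith
  refine hsplit.trans ?_
  rw [sum_const, sum_const, card_range, nsmul_eq_mul, nsmul_eq_mul]
  have hVR : (V : ℝ) = (M : ℝ) ^ T ^ 27 := by rw [hV]; push_cast; rfl
  have hcard : (((range V).filter (fun u => ¬ good u)).card : ℝ) ≤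
      (M : ℝ) ^ T ^ 27 / (M : ℝ) ^ (2 * T ^ 4) := by
    refine le_trans (le_of_eq ?_) hbad
    congr
  rw [hVR]
  have h3 : (((range V).filter (fun u => ¬ good u)).card : ℝ) * (2 * (M : ℝ) ^ T ^ 4) ≤
      (M : ℝ) ^ T ^ 27 / (M : ℝ) ^ (2 * T ^ 4) * (2 * (M : ℝ) ^ T ^ 4) :=
    mul_le_mul_of_nonneg_right hcard (by positivity)
  have h4 : (M : ℝ) ^ T ^ 27 / (M : ℝ) ^ (2 * T ^ 4) * (2 * (M : ℝ) ^ T ^ 4) =
      2 * ((M : ℝ) ^ T ^ 27 / (M : ℝ) ^ T ^ 4) := by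
    have : (M : ℝ) ^ (2 * T ^ 4) = (M : ℝ) ^ T ^ 4 * (M : ℝ) ^ T ^ 4 := by
      rw [two_mul, pow_add]
    rw [this]
    field_simp
  have h5 : (M : ℝ) ^ T ^ 27 / (M : ℝ) ^ T ^ 4 ≤ (M : ℝ) ^ T ^ 27 / (M : ℝ) ^ 2 := by
    refine div_le_div_of_nonneg_left (by positivity) (by positivity) ?_
    refine pow_le_pow_right₀ (by linarith) ?_
    have : 2 ^ 4 ≤ T ^ 4 := Nat.pow_le_pow_left hT 4
    omega
  have h6 : (M : ℝ) ^ T ^ 27 * (1 / (M : ℝ) ^ 2) + 2 * ((M : ℝ) ^ T ^ 27 / (M : ℝ) ^ 2) ≤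
      (M : ℝ) ^ T ^ 27 / (8 * M) := by
    have h7 : (M : ℝ) ^ T ^ 27 * (1 / (M : ℝ) ^ 2) + 2 * ((M : ℝ) ^ T ^ 27 / (M : ℝ) ^ 2) =
        (M : ℝ) ^ T ^ 27 * (3 / (M : ℝ) ^ 2) := by ring
    have h8 : (M : ℝ) ^ T ^ 27 / (8 * M) = (M : ℝ) ^ T ^ 27 * (1 / (8 * M)) := by ring
    rw [h7, h8]
    refine mul_le_mul_of_nonneg_left ?_ (by positivity)
    rw [div_le_div_iff₀ (by positivity) (by positivity)]
    nlinarith
  linarith

end Pool.Agent.Work.MP_215640_nt.Q
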