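import Pool.Agent.Work.MP_215640_nt.Q.Defs

/-!
MODULE TCF. Taylor coefficients `tcf P u r` of a polynomial at `u`, and stability of `Gen`.
-/

set_option autoImplicit false

namespace Pool.Agent.Work.MP_215640_nt.Q

open Finset Polynomial

/-- coefficients of `P (X + c)` for real `c` -/
private theorem tc_coeff (P : ℝ[X]) (d : ℕ) (hd : P.natDegree ≤ d) (c : ℝ) (r : ℕ) :
    (P.comp (X + C c)).coeff r = ∑ s ∈ Icc r d, (s.choose r : ℝ) * P.coeff s * c ^ (s - r) := by
  have h1 : P.comp (X + C c) = ∑ s ∈ range (d + 1), C (P.coeff s) * (X + C c) ^ s :=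
    eval₂_eq_sum_range' C (by omega) (X + C c)
  rw [h1, finset_sum_coeff]
  have h2 : ∀ s, (C (P.coeff s) * (X + C c) ^ s).coeff r =
      (s.choose r : ℝ) * P.coeff s * c ^ (s - r) := by
    intro s
    rw [coeff_C_mul, coeff_X_add_C_pow]
    ring
  rw [Finset.sum_congr rfl fun s _ => h2 s]
  symm
  apply Finset.sum_subset
  · intro s hs
    rw [mem_Icc] at hs
    rw [mem_range]
    omega
  · intro s hs hs'
    rw [mem_range] at hs
    rw [mem_Icc] at hs'
    have : s < r := by omega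
    rw [Nat.choose_eq_zero_of_lt this]
    simp

private theorem tc_natDegree (P : ℝ[X]) (d : ℕ) (hd : P.natDegree ≤ d) (c : ℝ) :
    (P.comp (X + C c)).natDegree ≤ d := by
  refine natDegree_comp_le.trans ?_
  have h1 : (X + C c : ℝ[X]).natDegree = 1 := natDegree_X_add_C c
  rw [h1, mul_one]
  exact hd

private theorem tc_comp (P : ℝ[X]) (a b : ℝ) :
    (P.comp (X + C a)).comp (X + C b) = P.comp (X + C (a + b)) := by
  rw [comp_assoc, add_comp, X_comp, C_comp]
  congr 1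
  rw [C_add]
  ring

theorem tcf_eq_sum (P : ℝ[X]) (d : ℕ) (hd : P.natDegree ≤ d) (u r : ℕ) :
    tcf P u r = ∑ s ∈ Icc r d, (s.choose r : ℝ) * P.coeff s * (u : ℝ) ^ (s - r) :=
  tc_coeff P d hd u r

theorem tcf_top (P : ℝ[X]) (d : ℕ) (hd : P.natDegree ≤ d) (u : ℕ) : tcf P u d = P.coeff d := by
  rw [tcf_eq_sum P d hd, Icc_self, sum_singleton, Nat.choose_self, Nat.sub_self]
  simp

theorem eval_add_tcf (P : ℝ[X]) (d : ℕ) (hd : P.natDegree ≤ d) (u : ℕ) (v : ℝ) :
    P.eval ((u : ℝ) + v) = P.eval (u : ℝ) + ∑ r ∈ Icc 1 d, tcf P u r * v ^ r := by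
  have hD := tc_natDegree P d hd (u : ℝ)
  have h1 : ∀ x : ℝ, P.eval ((u : ℝ) + x) = ∑ r ∈ range (d + 1), tcf P u r * x ^ r := by
    intro x
    have h2 := eval_eq_sum_range' (show (P.comp (X + C (u : ℝ))).natDegree < d + 1 by omega) x
    rw [eval_comp, eval_add, eval_X, eval_C, add_comm x] at h2
    exact h2
  have h0 := h1 0
  rw [add_zero] at h0
  rw [h1 v, h0, Finset.sum_range_succ', Finset.sum_range_succ']
  have h3 : ∑ r ∈ Icc 1 d, tcf P u r * v ^ r = ∑ r ∈ range d, tcf P u (r + 1) * v ^ (r + 1) := by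
    rw [Finset.range_eq_Ico, Finset.sum_Ico_add' (fun r => tcf P u r * v ^ r) 0 d 1]
    apply Finset.sum_congr
    · ext r
      rw [mem_Icc, mem_Ico]
      omega
    · intro r _
      rfl
  rw [h3]
  have h4 : ∑ r ∈ range d, tcf P u (r + 1) * (0 : ℝ) ^ (r + 1) = 0 := by
    apply Finset.sum_eq_zero
    intro r _
    rw [zero_pow (by omega), mul_zero]
  rw [h4]
  ring

theorem tcf_shift (P : ℝ[X]) (d : ℕ) (hd : P.natDegree ≤ d) (u v r : ℕ) :
    tcf P (u + v) r = ∑ s ∈ Icc r d, (s.choose r : ℝ) * (v : ℝ) ^ (s - r) * tcf P u s := by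
  have h1 := tc_coeff (P.comp (X + C (u : ℝ))) d (tc_natDegree P d hd _) (v : ℝ) r
  rw [tc_comp] at h1
  unfold tcf
  push_cast
  rw [h1]
  apply Finset.sum_congr rfl
  intro s _
  ring

/-- going back -/
theorem tcf_shift_back (P : ℝ[X]) (d : ℕ) (hd : P.natDegree ≤ d) (u v r : ℕ) :
    tcf P u r = ∑ s ∈ Icc r d, (s.choose r : ℝ) * (-(v : ℝ)) ^ (s - r) * tcf P (u + v) s := by
  have h1 := tc_coeff (P.comp (X + C ((u + v : ℕ) : ℝ))) d (tc_natDegree P d hd _) (-(v : ℝ)) r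
  rw [tc_comp] at h1
  have h2 : ((u + v : ℕ) : ℝ) + -(v : ℝ) = u := by push_cast; ring
  rw [h2] at h1
  unfold tcf
  rw [h1]
  apply Finset.sum_congr rfl
  intro s _
  ring

/-- a linear combination of Taylor coefficients is a polynomial in the base point -/
theorem comb_poly (P : ℝ[X]) (d : ℕ) (hd : P.natDegree ≤ d) (l : ℕ → ℝ) (r0 : ℕ) (h0 : r0 ≤ d) :
    ∃ R : ℝ[X], R.natDegree ≤ d - r0 ∧ R.coeff (d - r0) = l r0 * (d.choose r0 : ℝ) * P.coeff d ∧
      ∀ u : ℕ, R.eval (u : ℝ) = ∑ r ∈ Icc r0 d, l r * tcf P u r := by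
  refine ⟨∑ r ∈ Icc r0 d, ∑ s ∈ Icc r d, C (l r * ((s.choose r : ℝ) * P.coeff s)) * X ^ (s - r),
    ?_, ?_, ?_⟩
  · apply natDegree_sum_le_of_forall_le
    intro r hr
    rw [mem_Icc] at hr
    apply natDegree_sum_le_of_forall_le
    intro s hs
    rw [mem_Icc] at hs
    refine (natDegree_C_mul_X_pow_le _ _).trans ?_
    omega
  · rw [finset_sum_coeff]
    rw [Finset.sum_eq_single r0]
    · rw [finset_sum_coeff, Finset.sum_eq_single d]
      · rw [coeff_C_mul, coeff_X_pow, if_pos rfl]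
        ring
      · intro s hs hsd
        rw [mem_Icc] at hs
        rw [coeff_C_mul, coeff_X_pow, if_neg (by omega), mul_zero]
      · intro h
        exact absurd (mem_Icc.2 ⟨h0, le_rfl⟩) h
    · intro r hr hr0
      rw [mem_Icc] at hr
      rw [finset_sum_coeff]
      apply Finset.sum_eq_zero
      intro s hs
      rw [mem_Icc] at hs
      rw [coeff_C_mul, coeff_X_pow, if_neg (by omega), mul_zero]
    · intro h
      exact absurd (mem_Icc.2 ⟨le_rfl, h0⟩) h
  · intro u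
    rw [eval_finset_sum]
    apply Finset.sum_congr rfl
    intro r _
    rw [eval_finset_sum, tcf_eq_sum P d hd, Finset.mul_sum]
    apply Finset.sum_congr rfl
    intro s _
    rw [eval_mul, eval_C, eval_pow, eval_X]
    ring

theorem Gen.int_mul {B : ℕ} {η t : ℝ} (n : ℤ) (hn : n ≠ 0) (h : Gen (B * n.natAbs) η t) :
    Gen B η (n * t) := by
  have h1 := Gen.nat_mul h (Nat.one_le_iff_ne_zero.2 (Int.natAbs_ne_zero.2 hn))
  intro l hl1 hl2
  have h2 := h1 l hl1 hl2
  rcases Int.natAbs_eq n with h3 | h3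
  · have h4 : (n : ℝ) = (n.natAbs : ℝ) := by
      rw [h3]
      simp
    rw [h4]
    exact h2
  · have h4 : (n : ℝ) = -(n.natAbs : ℝ) := by
      rw [h3]
      simp
    rw [h4]
    have h5 : (l : ℝ) * (-(n.natAbs : ℝ) * t) = -((l : ℝ) * ((n.natAbs : ℝ) * t)) := by ring
    rw [h5, dI_neg]
    exact h2

end Pool.Agent.Work.MP_215640_nt.Q
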