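import Pool.Agent.Work.MP_215640_nt.Q.WeylV
import Pool.Agent.Work.MP_215640_nt.Q.Tcf
import Pool.Agent.Work.MP_215640_nt.Q.Multi

/-!
MODULE POLYAVG. Weyl sums and averages along polynomials with generic top coefficient, all errors as powers of `M`.

`weylM`: from `weylV` (constant `c`): `(M^g)^(-1/(8d^4)) ≤ M^(-(b+1))` since `g ≥ 8 T^4 (b+1) ≥ 8 d^4 (b+1)`, and
`(M^(-e) V)^(-1/(8 d^4)) ≤ M^(-(b+1))` since `V ≥ M^(e+g)`; `2 * 2^((d+1)^c) ≤ 2^(T^C) ≤ M` for a large `C` (`d + 1 ≤ 2 T ≤ T^2`).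
`poly_avg`: `multi_one` with `y u = P.eval u`, `A = M^a`, `L = M^(a+4)`, `ρ = M^(-(a+4))`.
-/

set_option autoImplicit false

namespace Pool.Agent.Work.MP_215640_nt.Q

open Finset Polynomial

/-- the constant is absorbed by `M` -/
private theorem pa_const {c T M d : ℕ} (hT : 2 ≤ T) (hM : 2 ^ T ^ (2 * c + 1) ≤ M) (hd : d ≤ T) :
    2 * 2 ^ ((d + 1) ^ c) ≤ M := by
  refine le_trans ?_ hM
  rw [← pow_succ']
  apply Nat.pow_le_pow_right (by norm_num)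
  have h1 : d + 1 ≤ T ^ 2 := by nlinarith
  have h2 : (d + 1) ^ c ≤ T ^ (2 * c) := by
    rw [pow_mul]
    exact Nat.pow_le_pow_left h1 c
  have h3 : 1 ≤ T ^ (2 * c) := Nat.one_le_pow _ _ (by omega)
  have h4 : T ^ (2 * c + 1) = T ^ (2 * c) * T := pow_succ _ _
  rw [h4]
  nlinarith

private theorem pa_root {M V : ℕ} {d T b g : ℕ} (hM : 1 ≤ M) (hd : 1 ≤ d) (hdT : d ≤ T)
    (hg : 8 * T ^ 4 * (b + 1) ≤ g) {x : ℝ} (hx : (M : ℝ) ^ g ≤ x) :
    x ^ (-(1 / (8 * (d : ℝ) ^ 4))) ≤ 1 / (M : ℝ) ^ (b + 1) := by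
  have hM' : (1 : ℝ) ≤ M := by exact_mod_cast hM
  have hM0 : (0 : ℝ) < M := by linarith
  have hd' : (0 : ℝ) < d := by exact_mod_cast hd
  have h1 : x ^ (-(1 / (8 * (d : ℝ) ^ 4))) ≤ ((M : ℝ) ^ g) ^ (-(1 / (8 * (d : ℝ) ^ 4))) := by
    apply Real.rpow_le_rpow_of_nonpos (by positivity) hx
    rw [neg_nonpos]
    positivity
  refine h1.trans ?_
  rw [Real.rpow_neg (by positivity), one_div ((M : ℝ) ^ (b + 1))]
  apply inv_anti₀ (by positivity)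
  rw [← Real.rpow_natCast (M : ℝ) g, ← Real.rpow_mul hM0.le, ← Real.rpow_natCast (M : ℝ) (b + 1)]
  apply Real.rpow_le_rpow_of_exponent_le hM'
  rw [mul_one_div, le_div_iff₀ (by positivity)]
  have h2 : 8 * d ^ 4 * (b + 1) ≤ g := by
    refine le_trans ?_ hg
    apply Nat.mul_le_mul_right
    apply Nat.mul_le_mul_left
    exact Nat.pow_le_pow_left hdT 4
  have h3 : (8 : ℝ) * (d : ℝ) ^ 4 * ((b : ℝ) + 1) ≤ (g : ℝ) := by exact_mod_cast h2
  push_cast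
  linarith

theorem weylM : ∃ c : ℕ, ∀ T : ℕ, 2 ≤ T → ∀ M : ℕ, 2 ^ T ^ c ≤ M → ∀ d : ℕ, 1 ≤ d → d ≤ T →
    ∀ P : ℝ[X], P.natDegree ≤ d → ∀ b g e V : ℕ, 8 * T ^ 4 * (b + 1) ≤ g →
    Gen (M ^ g) (1 / (M : ℝ) ^ e) (P.coeff d) → M ^ (e + g) ≤ V →
    ‖∑ v ∈ range V, ee (P.eval (v : ℝ))‖ ≤ V / (M : ℝ) ^ b ∧
    ‖∑ v ∈ Icc 1 V, ee (P.eval (v : ℝ))‖ ≤ V / (M : ℝ) ^ b := by
  obtain ⟨c, hc⟩ := weylV
  refine ⟨2 * c + 1, ?_⟩
  intro T hT M hM d hd hdT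
  have hMpos : 1 ≤ M := le_trans (Nat.one_le_pow _ _ (by norm_num)) hM
  have hM0 : (0 : ℝ) < M := by exact_mod_cast hMpos
  have hmain : ∀ P : ℝ[X], P.natDegree ≤ d → ∀ b g e V : ℕ, 8 * T ^ 4 * (b + 1) ≤ g →
      Gen (M ^ g) (1 / (M : ℝ) ^ e) (P.coeff d) → M ^ (e + g) ≤ V →
      ‖∑ v ∈ range V, ee (P.eval (v : ℝ))‖ ≤ V / (M : ℝ) ^ b := by
    intro P hP b g e V hg hgen hV
    have hV1 : 1 ≤ V := le_trans (Nat.one_le_pow _ _ hMpos) hV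
    have hV0 : (0 : ℝ) < V := by exact_mod_cast hV1
    have h1 := hc d hd P hP V (M ^ g) hV1 (Nat.one_le_pow _ _ hMpos) (1 / (M : ℝ) ^ e)
      (by positivity) hgen
    refine h1.trans ?_
    have h2 := pa_root (V := V) hMpos hd hdT hg (x := ((M ^ g : ℕ) : ℝ)) (by push_cast; exact le_rfl)
    have h3 := pa_root (V := V) hMpos hd hdT hg (x := 1 / (M : ℝ) ^ e * V) (by
      rw [one_div, inv_mul_eq_div, le_div_iff₀ (by positivity), ← pow_add, add_comm g e]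
      exact_mod_cast hV)
    have h4 : (2 : ℝ) * 2 ^ ((d + 1) ^ c) ≤ M := by exact_mod_cast pa_const hT hM hdT
    calc 2 ^ ((d + 1) ^ c) * (V : ℝ) *
        (((M ^ g : ℕ) : ℝ) ^ (-(1 / (8 * (d : ℝ) ^ 4))) +
          (1 / (M : ℝ) ^ e * V) ^ (-(1 / (8 * (d : ℝ) ^ 4))))
        ≤ 2 ^ ((d + 1) ^ c) * (V : ℝ) * (1 / (M : ℝ) ^ (b + 1) + 1 / (M : ℝ) ^ (b + 1)) := by
          apply mul_le_mul_of_nonneg_left (add_le_add h2 h3) (by positivity)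
      _ = (2 * 2 ^ ((d + 1) ^ c)) * (V / (M : ℝ) ^ (b + 1)) := by ring
      _ ≤ M * (V / (M : ℝ) ^ (b + 1)) := mul_le_mul_of_nonneg_right h4 (by positivity)
      _ = V / (M : ℝ) ^ b := by
          rw [pow_succ]
          field_simp
  intro P hP b g e V hg hgen hV
  refine ⟨hmain P hP b g e V hg hgen hV, ?_⟩
  have h1 : ((P.comp (X + C ((1 : ℕ) : ℝ))).natDegree) ≤ d := by
    refine natDegree_comp_le.trans ?_
    have h1 : (X + C ((1 : ℕ) : ℝ) : ℝ[X]).natDegree = 1 := natDegree_X_add_C _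
    rw [h1, mul_one]
    exact hP
  have h2 : (P.comp (X + C ((1 : ℕ) : ℝ))).coeff d = P.coeff d := tcf_top P d hP 1
  have h3 := hmain (P.comp (X + C ((1 : ℕ) : ℝ))) h1 b g e V hg (by rw [h2]; exact hgen) hV
  have h4 : ∑ v ∈ Icc 1 V, ee (P.eval (v : ℝ)) =
      ∑ v ∈ range V, ee ((P.comp (X + C ((1 : ℕ) : ℝ))).eval (v : ℝ)) := by
    have h5 : Icc 1 V = Ico (0 + 1) (V + 1) := by
      ext x
      rw [mem_Icc, mem_Ico]
      omega
    rw [h5, ← Finset.sum_Ico_add' (fun v : ℕ => ee (P.eval (v : ℝ))) 0 V 1, ← Finset.range_eq_Ico]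
    apply Finset.sum_congr rfl
    intro v _
    rw [eval_comp, eval_add, eval_X, eval_C]
    push_cast
    rfl
  rw [h4]
  exact h3

theorem poly_avg : ∃ c : ℕ, ∀ T : ℕ, 2 ≤ T → ∀ M : ℕ, 2 ^ T ^ c ≤ M → ∀ d : ℕ, 1 ≤ d → d ≤ T →
    ∀ P : ℝ[X], P.natDegree ≤ d → ∀ a g e V : ℕ, 8 * T ^ 4 * (a + 5) + a + 4 ≤ g →
    Gen (M ^ g) (1 / (M : ℝ) ^ e) (P.coeff d) → M ^ (e + g) ≤ V →
    ∀ (f : ℝ → ℝ) (μ A : ℝ), FT f μ A → A ≤ (M : ℝ) ^ a →
    |∑ u ∈ range V, f (P.eval (u : ℝ)) - μ * V| ≤ V / (M : ℝ) ^ 2 := by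
  obtain ⟨c, hc⟩ := weylM
  refine ⟨c + 1, ?_⟩
  intro T hT M hM d hd hdT P hP a g e V hg hgen hV f μ A hf hA
  have hM1 : 2 ^ T ^ c ≤ M := by
    refine le_trans ?_ hM
    apply Nat.pow_le_pow_right (by norm_num)
    exact Nat.pow_le_pow_right (by omega) (by omega)
  have hM4 : 4 ≤ M := by
    refine le_trans ?_ hM
    have h1 : 2 ≤ T ^ (c + 1) := by
      calc 2 ≤ T := hT
        _ = T ^ 1 := (pow_one T).symm
        _ ≤ T ^ (c + 1) := Nat.pow_le_pow_right (by omega) (by omega)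
    calc 4 = 2 ^ 2 := by norm_num
      _ ≤ 2 ^ T ^ (c + 1) := Nat.pow_le_pow_right (by norm_num) h1
  have hMpos : 1 ≤ M := by omega
  have hM0 : (0 : ℝ) < M := by exact_mod_cast hMpos
  have hV0 : (0 : ℝ) ≤ V := Nat.cast_nonneg _
  have h1 := multi_one (range V) f μ A hf (fun u : ℕ => P.eval (u : ℝ)) (M ^ (a + 4))
    (Nat.one_le_pow _ _ hMpos) (1 / (M : ℝ) ^ (a + 4)) (by positivity) (by
      intro l hl hl0
      have h2 : (C (l : ℝ) * P).natDegree ≤ d := (natDegree_C_mul_le _ _).trans hP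
      have h3 : l.natAbs ≤ M ^ (a + 4) := by
        have : ((l.natAbs : ℕ) : ℤ) ≤ ((M ^ (a + 4) : ℕ) : ℤ) := by
          rw [Int.natCast_natAbs]
          exact hl
        exact_mod_cast this
      have h4 : Gen (M ^ (g - (a + 4))) (1 / (M : ℝ) ^ e) ((C (l : ℝ) * P).coeff d) := by
        rw [coeff_C_mul]
        apply Gen.int_mul l hl0
        apply hgen.mono _ le_rfl
        calc M ^ (g - (a + 4)) * l.natAbs ≤ M ^ (g - (a + 4)) * M ^ (a + 4) :=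
              Nat.mul_le_mul_left _ h3
          _ = M ^ g := by
              rw [← pow_add]
              congr 1
              omega
      have hg' : 8 * T ^ 4 * (a + 4 + 1) ≤ g - (a + 4) := by
        have e1 : 8 * T ^ 4 * (a + 4 + 1) = 8 * T ^ 4 * (a + 5) := by ring
        rw [e1]
        generalize 8 * T ^ 4 * (a + 5) = z at hg
        omega
      have h5 := (hc T hT M hM1 d hd hdT (C (l : ℝ) * P) h2 (a + 4) (g - (a + 4)) e V hg' h4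
        (le_trans (Nat.pow_le_pow_right hMpos (by omega)) hV)).1
      have h6 : ∀ v : ℕ, (C (l : ℝ) * P).eval (v : ℝ) = l * P.eval (v : ℝ) := by
        intro v
        rw [eval_mul, eval_C]
      simp only [h6] at h5
      rw [card_range]
      calc _ ≤ (V : ℝ) / (M : ℝ) ^ (a + 4) := h5
        _ = _ := by ring)
  rw [card_range] at h1
  refine h1.trans ?_
  push_cast
  have h2 : (10 : ℝ) ≤ (M : ℝ) ^ 2 := by
    have : (4 : ℝ) ≤ M := by exact_mod_cast hM4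
    nlinarith
  calc 5 * A * (1 / (M : ℝ) ^ (a + 4) + 1 / (M : ℝ) ^ (a + 4)) * V
      ≤ 5 * (M : ℝ) ^ a * (1 / (M : ℝ) ^ (a + 4) + 1 / (M : ℝ) ^ (a + 4)) * V := by gcongr
    _ = 10 * (V / (M : ℝ) ^ 4) := by
        rw [pow_add]
        field_simp
        ring
    _ ≤ (M : ℝ) ^ 2 * (V / (M : ℝ) ^ 4) := mul_le_mul_of_nonneg_right h2 (by positivity)
    _ = V / (M : ℝ) ^ 2 := by
        field_simp

end Pool.Agent.Work.MP_215640_nt.Q
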