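import Pool.Agent.Work.MP_215640_nt.Q.Lin
import Pool.Agent.Work.MP_215640_nt.Q.Kap
import Pool.Agent.Work.MP_215640_nt.Q.K2L

/-!
MODULE SLOWSTEP. The exponential sum of a combination of slow numbers whose fastest one is `i0`.

`g = gq w i0`, `ε = 1/2^(10k)`, `H = ⌊N^(1-g+ε)⌋ ≥ 1`, `J` the exceptional set. For `f n = ee (∑ l_i sl n i)`:
`|∑_{n ∈ [N,2N)} f n| ≤ ∑_{n ∈ [N,2N)} |(1/H) ∑_{h<H} f (n+h)| + 2H` (shifting the summation window), `2H ≤ 2 N^(1-1/2^k+ε)`.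
For `n ∈ J` bound the inner average by `1`. For `n ∉ J` and `h < H`:
* `i = i0`: `sl_lin`: `sl (n+h) i0 = sl n i0 + β h + O(N^(-1/2^(k+2)))`, `β = kap/2 (pq q i0)^d n^(g-1)`;
* `l_i ≠ 0`, `i ≠ i0`: `gq w i < g`, so `gq w i ≤ g - 1/2^k` (`gq_sep`) and `sl_small` with `γ = g`:
  `|sl (n+h) i - sl n i| ≤ B^(K2 c k) (2N)^(gq w i) (h/n + n^(-g)) ≤ N^(-1/2^(k+1))`.
So `f (n+h) = f n ee (l_{i0} β h) + O(2π k B N^(-1/2^(k+2)))` (`norm_ee_sub_le`) and
`|(1/H) ∑_{h<H} ee (l_{i0} β h)| ≤ 1/(2 H dI (l_{i0} β))` (geometric sum, `norm_one_sub_ee`). Here `|l_{i0} β| ≤ 1/2` (at most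
`B^.. N^(g-1)`, `g ≤ 1 - 1/2^k`), so `dI = |l_{i0} β| ≥ (1/4) |kap| N^(g-1)` and the bound is `≤ 8 N^(-ε)/|kap| ≤ 8 2^(K2 c k) N^(-ε) ≤ N^(-ε/2)`
(`kap_lower`). Total `≤ N^(1-ρ) + N^(1-ε/2) + ... ≤ 4 N^(1-ρ)` as `ρ ≤ 1/2^(12k) ≤ ε/4`.
-/

set_option autoImplicit false

namespace Pool.Agent.Work.MP_215640_nt.Q

open Finset Polynomial

private theorem two_pow_add_four {k : ℕ} (K : ℕ) (hk : 1 ≤ k) (hK : 1 ≤ K) :
    k + 4 + (K + 1) * 2 ^ k + K ≤ K * 2 ^ (6 * k ^ 2) := by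
  have h1 : k ≤ 2 ^ k := (Nat.lt_two_pow_self (n := k)).le
  have h2 : 2 ≤ 2 ^ k := by
    calc 2 = 2 ^ 1 := rfl
      _ ≤ 2 ^ k := Nat.pow_le_pow_right (by norm_num) hk
  have h3 : (2 ^ k) ^ 6 ≤ 2 ^ (6 * k ^ 2) := by
    rw [← pow_mul]
    exact Nat.pow_le_pow_right (by norm_num) (by nlinarith)
  set t := 2 ^ k with ht
  have h4 : 6 * t ≤ t ^ 6 := by
    have : 2 ^ 5 ≤ t ^ 5 := Nat.pow_le_pow_left h2 5
    calc 6 * t ≤ 2 ^ 5 * t := by omega
      _ ≤ t ^ 5 * t := Nat.mul_le_mul_right _ this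
      _ = t ^ 6 := by ring
  calc k + 4 + (K + 1) * t + K ≤ K * (6 * t) := by nlinarith
    _ ≤ K * t ^ 6 := Nat.mul_le_mul_left _ h4
    _ ≤ K * 2 ^ (6 * k ^ 2) := Nat.mul_le_mul_left _ h3

private theorem kap_upper : ∃ c : ℕ, ∀ k : ℕ, 1 ≤ k → ∀ w : ℕ → Bool, ∀ j, 1 ≤ j → j < k →
    |kap w j| ≤ (2 : ℝ) ^ K2 c k := by
  obtain ⟨c, hc⟩ := sg_bound
  refine ⟨c + 6, fun k hk w j hj hjk => ?_⟩
  obtain ⟨j, rfl⟩ : ∃ j', j = j' + 1 := ⟨j - 1, by omega⟩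
  have h1 := (hc k hk w (j + 1) hjk).1
  have h2 := (hc k hk w j (by omega)).1
  have h3 := (hc k hk w j (by omega)).2 (gq w (j + 1))
  set K := K2 c k with hK
  have hK1 : 1 ≤ K := one_le_K2 c k
  have hg0 := gq_nonneg w (j + 1)
  have hg1 : gq w (j + 1) ≤ 1 := by
    have := gq_upper w (j := j + 1) (by omega)
    have h : (0 : ℝ) ≤ 1 / 2 ^ (j + 1) := by positivity
    linarith
  have hd : dq w (j + 1) ≤ 2 ^ k :=
    (dq_le w (j + 1)).trans (Nat.pow_le_pow_right (by norm_num) hjk.le)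
  have h4 : nm (sg w j - 1) ≤ 2 ^ (K + 1) := by
    calc nm (sg w j - 1) ≤ nm (sg w j) + nm 1 := nm_sub_le _ _
      _ ≤ 2 ^ K + 2 ^ K := by
          rw [nm_one]
          have : (1 : ℝ) ≤ 2 ^ K := one_le_pow₀ (by norm_num)
          linarith
      _ = 2 ^ (K + 1) := by ring
  have h5 := dbs_nm w j (sg w j) (dl w (gq w (j + 1)) j) (2 ^ (K + 1))
    (one_le_pow₀ (by norm_num)) h4
  have h6 : nm (dbs w j (sg w j) (dl w (gq w (j + 1)) j)) ≤ 2 ^ (k + 3 + (K + 1) * 2 ^ k + K) := by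
    refine h5.trans ?_
    have e1 : (3 : ℝ) * (dq w (j + 1) + 1) ≤ 2 ^ (k + 3) := by
      have : (dq w (j + 1) : ℝ) ≤ 2 ^ k := by exact_mod_cast hd
      have h7 : (1 : ℝ) ≤ 2 ^ k := one_le_pow₀ (by norm_num)
      rw [pow_add]
      linarith
    have e2 : ((2 : ℝ) ^ (K + 1)) ^ dq w (j + 1) ≤ 2 ^ ((K + 1) * 2 ^ k) := by
      rw [← pow_mul]
      exact pow_le_pow_right₀ (by norm_num) (Nat.mul_le_mul_left _ hd)
    calc 3 * ((dq w (j + 1) : ℝ) + 1) * (2 ^ (K + 1)) ^ dq w (j + 1) *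
          nm (dl w (gq w (j + 1)) j)
        ≤ 2 ^ (k + 3) * 2 ^ ((K + 1) * 2 ^ k) * 2 ^ K := by
          have := nm_nonneg (dl w (gq w (j + 1)) j)
          gcongr
      _ = 2 ^ (k + 3 + (K + 1) * 2 ^ k + K) := by rw [← pow_add, ← pow_add]
  have h7 : |kap w (j + 1)| ≤ nm (sg w (j + 1)) + nm (dbs w j (sg w j) (dl w (gq w (j + 1)) j)) := by
    unfold kap
    rw [Nat.add_sub_cancel]
    refine (abs_add_le _ _).trans ?_
    refine add_le_add ?_ (abs_coeff_le_nm _ _)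
    rw [abs_mul, abs_of_nonneg hg0]
    calc gq w (j + 1) * |(sg w (j + 1)).coeff (dq w (j + 1))|
        ≤ 1 * nm (sg w (j + 1)) := by
          refine mul_le_mul hg1 (abs_coeff_le_nm _ _) (abs_nonneg _) (by norm_num)
      _ = nm (sg w (j + 1)) := one_mul _
  refine h7.trans ((add_le_add h1 h6).trans ?_)
  have h8 : (2 : ℝ) ^ K ≤ 2 ^ (k + 3 + (K + 1) * 2 ^ k + K) :=
    pow_le_pow_right₀ (by norm_num) (by omega)
  calc (2 : ℝ) ^ K + 2 ^ (k + 3 + (K + 1) * 2 ^ k + K)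
      ≤ 2 ^ (k + 3 + (K + 1) * 2 ^ k + K) + 2 ^ (k + 3 + (K + 1) * 2 ^ k + K) := by linarith
    _ = 2 ^ (k + 4 + (K + 1) * 2 ^ k + K) := by ring
    _ ≤ 2 ^ K2 (c + 6) k := by
        apply pow_le_pow_right₀ (by norm_num)
        rw [K2_add]
        exact two_pow_add_four K hk hK1

private theorem shift_avg (f : ℕ → ℂ) (hf : ∀ n, ‖f n‖ ≤ 1) (a b H : ℕ) :
    (H : ℝ) * ‖∑ n ∈ Ico a b, f n‖ ≤
      ∑ n ∈ Ico a b, ‖∑ h ∈ range H, f (n + h)‖ + (H : ℝ) ^ 2 := by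
  have h1 : ∀ h : ℕ, ‖∑ n ∈ Ico a b, f n - ∑ n ∈ Ico a b, f (n + h)‖ ≤ 2 * h := by
    by_cases hab : a ≤ b
    · intro h
      induction h with
      | zero => simp
      | succ h ih =>
        have e1 : ∑ n ∈ Ico a b, f (n + (h + 1)) =
            ∑ n ∈ Ico a b, f (n + h) + f (b + h) - f (a + h) := by
          have e2 := sum_Ico_succ_top hab (fun n => f (n + h))
          have e3 := sum_eq_sum_Ico_succ_bot (show a < b + 1 by omega) (fun n => f (n + h))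
          have e4 : ∑ n ∈ Ico a b, f (n + (h + 1)) = ∑ n ∈ Ico (a + 1) (b + 1), f (n + h) := by
            rw [← sum_Ico_add' (fun n => f (n + h)) a b 1]
            exact sum_congr rfl fun n _ => by rw [show n + 1 + h = n + (h + 1) by ring]
          rw [e4, ← e2, e3]
          ring
        rw [e1]
        calc ‖∑ n ∈ Ico a b, f n - (∑ n ∈ Ico a b, f (n + h) + f (b + h) - f (a + h))‖
            = ‖(∑ n ∈ Ico a b, f n - ∑ n ∈ Ico a b, f (n + h)) + (f (a + h) - f (b + h))‖ := by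
              congr 1; ring
          _ ≤ 2 * h + (1 + 1) := by
              refine (norm_add_le _ _).trans (add_le_add ih ?_)
              exact (norm_sub_le _ _).trans (add_le_add (hf _) (hf _))
          _ = 2 * ((h + 1 : ℕ) : ℝ) := by push_cast; ring
    · intro h
      rw [Ico_eq_empty (by omega)]
      simp
  have h2 : (H : ℂ) * ∑ n ∈ Ico a b, f n = ∑ h ∈ range H, ∑ n ∈ Ico a b, f (n + h) +
      ∑ h ∈ range H, (∑ n ∈ Ico a b, f n - ∑ n ∈ Ico a b, f (n + h)) := by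
    rw [sum_sub_distrib, sum_const, card_range, nsmul_eq_mul]
    ring
  have h3 : (H : ℝ) * ‖∑ n ∈ Ico a b, f n‖ = ‖(H : ℂ) * ∑ n ∈ Ico a b, f n‖ := by
    rw [norm_mul, Complex.norm_natCast]
  rw [h3, h2]
  refine (norm_add_le _ _).trans (add_le_add ?_ ?_)
  · rw [sum_comm]
    exact norm_sum_le _ _
  · refine (norm_sum_le _ _).trans ((sum_le_sum fun h _ => h1 h).trans ?_)
    rw [← mul_sum]
    have h4 : ∑ i ∈ range H, (i : ℝ) = H * (H - 1) / 2 := by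
      clear h3 h2
      induction H with
      | zero => simp
      | succ H ih => rw [sum_range_succ, ih]; push_cast; ring
    rw [h4]
    have : (0 : ℝ) ≤ H := Nat.cast_nonneg H
    nlinarith

private theorem geom_ee (θ : ℝ) (hθ : 0 < dI θ) (H : ℕ) :
    ‖∑ h ∈ range H, ee (θ * h)‖ ≤ 1 / (2 * dI θ) := by
  have h1 : ∀ h : ℕ, ee (θ * h) = ee θ ^ h := fun h => by rw [mul_comm, ee_nat_mul]
  simp only [h1]
  have h2 := norm_one_sub_ee θ
  have h3 : ee θ ≠ 1 := by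
    intro h
    rw [h, sub_self, norm_zero] at h2
    linarith
  rw [geom_sum_eq h3, norm_div]
  have h4 : ‖ee θ ^ H - 1‖ ≤ 2 := by
    refine (norm_sub_le _ _).trans ?_
    rw [norm_pow, norm_ee, one_pow, norm_one]
    norm_num
  have h5 : ‖ee θ - 1‖ = ‖1 - ee θ‖ := norm_sub_rev _ _
  rw [h5]
  calc ‖ee θ ^ H - 1‖ / ‖1 - ee θ‖ ≤ 2 / (4 * dI θ) := by
        apply div_le_div₀ (by norm_num) h4 (by linarith) h2
    _ = 1 / (2 * dI θ) := by field_simp; norm_num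

private theorem le_dI {θ : ℝ} (h : |θ| ≤ 1 / 2) : |θ| ≤ dI θ := by
  obtain ⟨z, hz⟩ := exists_int_dI θ
  rw [← hz]
  by_cases h0 : z = 0
  · subst h0; simp
  · have h1 : (1 : ℝ) ≤ |(z : ℝ)| := by
      have := Int.one_le_abs h0
      exact_mod_cast this
    have h2 : |(z : ℝ)| ≤ |θ - z| + |θ| := by
      have : (z : ℝ) = -(θ - z) + θ := by ring
      calc |(z : ℝ)| = |-(θ - z) + θ| := by rw [← this]
        _ ≤ |-(θ - z)| + |θ| := abs_add_le _ _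
        _ = |θ - z| + |θ| := by rw [abs_neg]
    linarith

private theorem eps_le {k : ℕ} (hk : 1 ≤ k) : (1 : ℝ) / 2 ^ (10 * k) ≤ 1 / 2 ^ (k + 2) :=
  one_div_le_one_div_of_le (by positivity) (pow_le_pow_right₀ (by norm_num) (by omega))

private theorem point_approx : ∃ c : ℕ, ∀ k : ℕ, 1 ≤ k → ∀ w : ℕ → Bool, Pos w k → ∀ B : ℕ, 2 ≤ B →
    ∀ q : ℕ → ℕ, (∀ i, 1 ≤ q i ∧ q i ≤ B) → ∀ N : ℕ, (B : ℝ) ^ K2 c k ≤ N → ∀ i0, 1 ≤ i0 → i0 < k →
    ∀ l : ℕ → ℤ, (∀ i, |l i| ≤ B) → (∀ i, 1 ≤ i → i < k → gq w i0 < gq w i → l i = 0) →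
    ∀ n : ℕ, N ≤ n → ∀ h : ℕ, (h : ℝ) ≤ (N : ℝ) ^ (1 - gq w i0 + 1 / 2 ^ (10 * k)) →
    (∀ i, 1 ≤ i → i < k → gq w i < gq w i0 → ct w q ((n : ℝ) + h) i = ct w q n i) →
    |∑ i ∈ Icc 1 (k - 1), l i * sl w q ((n : ℝ) + h) i - ∑ i ∈ Icc 1 (k - 1), l i * sl w q (n : ℝ) i -
      l i0 * (kap w i0 / 2 * (pq q i0 : ℝ) ^ dq w i0 * (n : ℝ) ^ (gq w i0 - 1)) * h| ≤
      k * (B * (N : ℝ) ^ (-(1 / 2 ^ (k + 2)) : ℝ)) := by
  obtain ⟨c1, h1⟩ := sl_lin
  obtain ⟨c2, h2⟩ := sl_small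
  refine ⟨c1 + c2 + 8, fun k hk w hw B hB q hq N hN i0 hi0 hi0k l hl hl0 n hNn h hh hct => ?_⟩
  have hB1 : (1 : ℝ) ≤ B := by exact_mod_cast (by omega : 1 ≤ B)
  have hB2 : (2 : ℝ) ≤ B := by exact_mod_cast hB
  have hN1 : (1 : ℝ) ≤ N := le_trans (one_le_pow₀ hB1) hN
  have hn : (N : ℝ) ≤ n := by exact_mod_cast hNn
  have hn1 : (1 : ℝ) ≤ n := hN1.trans hn
  have hn0 : (0 : ℝ) < n := by linarith
  have hN' : (B : ℝ) ^ K2 (c1 + c2 + 8) k ≤ n := hN.trans hn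
  have hx1 : (B : ℝ) ^ K2 c1 k ≤ n := pow_K2_mono hB1 (by omega) hN'
  have hx2 : (B : ℝ) ^ K2 c2 k ≤ n := pow_K2_mono hB1 (by omega) hN'
  set g := gq w i0 with hg
  have hg0 : 1 / 2 ^ k ≤ g :=
    (one_div_le_one_div_of_le (by positivity)
      (pow_le_pow_right₀ (by norm_num) hi0k.le)).trans (gq_lower w hi0)
  have hgp : 0 < g := lt_of_lt_of_le (by positivity) hg0
  have hε : (1 : ℝ) / 2 ^ (10 * k) ≤ 1 / 2 ^ (k + 2) := eps_le hk
  have hε4 : (1 : ℝ) / 2 ^ k = 4 * (1 / 2 ^ (k + 2)) := by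
    rw [pow_add]; field_simp; norm_num
  have hεp : (0 : ℝ) < 1 / 2 ^ (k + 2) := by positivity
  have hh1 : (h : ℝ) ≤ (n : ℝ) ^ (1 - g + 1 / 2 ^ (10 * k)) := by
    refine hh.trans (Real.rpow_le_rpow (by linarith) hn ?_)
    have h3 : g ≤ 1 := by
      have := gq_upper w hi0
      have h : (0 : ℝ) ≤ 1 / 2 ^ i0 := by positivity
      linarith
    have h4 : (0 : ℝ) ≤ 1 / 2 ^ (10 * k) := by positivity
    linarith
  have hh2 : (h : ℝ) ≤ n := by
    refine hh1.trans ?_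
    calc (n : ℝ) ^ (1 - g + 1 / 2 ^ (10 * k)) ≤ (n : ℝ) ^ (1 : ℝ) := by
          apply Real.rpow_le_rpow_of_exponent_le hn1
          linarith
      _ = n := Real.rpow_one _
  have hNn2 : (n : ℝ) ^ (-(1 / 2 ^ (k + 2)) : ℝ) ≤ (N : ℝ) ^ (-(1 / 2 ^ (k + 2)) : ℝ) :=
    Real.rpow_le_rpow_of_nonpos (by linarith) hn (by linarith)
  have hlB : ∀ i, |(l i : ℝ)| ≤ B := by
    intro i
    have := hl i
    have h3 : ((|l i| : ℤ) : ℝ) ≤ ((B : ℤ) : ℝ) := by exact_mod_cast this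
    simpa using h3
  set θ : ℝ := l i0 * (kap w i0 / 2 * (pq q i0 : ℝ) ^ dq w i0 * (n : ℝ) ^ (g - 1)) * h with hθ
  have key : ∀ i ∈ Icc 1 (k - 1), |l i * sl w q ((n : ℝ) + h) i - l i * sl w q (n : ℝ) i -
      (if i = i0 then θ else 0)| ≤ B * (N : ℝ) ^ (-(1 / 2 ^ (k + 2)) : ℝ) := by
    intro i hi
    obtain ⟨hi1, hi2⟩ := mem_Icc.1 hi
    have hik : i < k := by omega
    by_cases hii : i = i0
    · rw [if_pos hii]
      subst hii
      have h3 := h1 k hk w hw B hB q hq n hx1 i hi1 hik h hh1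
        (fun i' hi' hi'' hlt => hct i' hi' (by omega) hlt)
      have h4 : l i * sl w q ((n : ℝ) + h) i - l i * sl w q (n : ℝ) i - θ =
          l i * (sl w q ((n : ℝ) + h) i - sl w q (n : ℝ) i -
            kap w i / 2 * (pq q i : ℝ) ^ dq w i * (n : ℝ) ^ (gq w i - 1) * h) := by
        rw [hθ, hg]; ring
      rw [h4, abs_mul]
      exact mul_le_mul (hlB i) (h3.trans hNn2) (abs_nonneg _) (by linarith)
    · rw [if_neg hii, sub_zero]
      by_cases hli : l i = 0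
      · rw [hli]
        simp only [Int.cast_zero, zero_mul, sub_zero, abs_zero]
        positivity
      · have hle : gq w i ≤ g := by
          by_contra hcon
          exact hli (hl0 i hi1 hik (not_le.1 hcon))
        have hsep := gq_sep w hi1 hi0 hii hik.le hi0k.le
        have hgi : gq w i ≤ g - 1 / 2 ^ k := by
          rw [← hg, abs_of_nonpos (by linarith)] at hsep
          linarith
        have h3 := h2 k hk w hw B hB q hq n hx2 h hh2 g hgp i hi1 hik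
          (fun i' hi' hi'' hlt => hct i' hi' (by omega) hlt)
        have h4 : (h : ℝ) / n ≤ (n : ℝ) ^ (-g + 1 / 2 ^ (10 * k)) := by
          rw [div_le_iff₀ hn0]
          calc (h : ℝ) ≤ (n : ℝ) ^ (1 - g + 1 / 2 ^ (10 * k)) := hh1
            _ = (n : ℝ) ^ (-g + 1 / 2 ^ (10 * k)) * n := by
                nth_rewrite 3 [← Real.rpow_one (n : ℝ)]
                rw [← Real.rpow_add hn0]
                congr 1; ring
        have h5 : (n : ℝ) ^ (-g) ≤ (n : ℝ) ^ (-g + 1 / 2 ^ (10 * k)) := by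
          apply Real.rpow_le_rpow_of_exponent_le hn1
          have : (0 : ℝ) ≤ 1 / 2 ^ (10 * k) := by positivity
          linarith
        have h6 : (n : ℝ) ^ gq w i ≤ (n : ℝ) ^ (g - 1 / 2 ^ k) :=
          Real.rpow_le_rpow_of_exponent_le hn1 hgi
        have h7 : 2 * (B : ℝ) ^ K2 c2 k ≤ (n : ℝ) ^ (1 / 2 ^ (k + 2) : ℝ) := by
          calc 2 * (B : ℝ) ^ K2 c2 k ≤ B * (B : ℝ) ^ K2 c2 k := by
                have : (0 : ℝ) ≤ (B : ℝ) ^ K2 c2 k := by positivity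
                exact mul_le_mul_of_nonneg_right hB2 this
            _ = (B : ℝ) ^ (K2 c2 k + 1) := by ring
            _ ≤ (n : ℝ) ^ (1 / 2 ^ (k + 2) : ℝ) := by
                apply absorb' hB1 hN'
                have e1 := one_le_K2 c2 k
                have e2 := K2_mul_two_pow (c := c2) (a := 4) hk
                have e3 : K2 (c2 + 4) k ≤ K2 (c1 + c2 + 8) k := K2_mono k (by omega)
                have e4 : 2 ^ (k + 3) ≤ 2 ^ (4 * k) := Nat.pow_le_pow_right (by norm_num) (by omega)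
                calc (K2 c2 k + 1) * 2 ^ (k + 2) ≤ (2 * K2 c2 k) * 2 ^ (k + 2) :=
                      Nat.mul_le_mul_right _ (by omega)
                  _ = K2 c2 k * 2 ^ (k + 3) := by ring
                  _ ≤ K2 c2 k * 2 ^ (4 * k) := Nat.mul_le_mul_left _ e4
                  _ ≤ _ := e2.trans e3
        have h8 : |sl w q ((n : ℝ) + h) i - sl w q (n : ℝ) i| ≤
            (n : ℝ) ^ (-(1 / 2 ^ (k + 2)) : ℝ) := by
          calc |sl w q ((n : ℝ) + h) i - sl w q (n : ℝ) i|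
              ≤ (B : ℝ) ^ K2 c2 k * (n : ℝ) ^ gq w i * (h / n + (n : ℝ) ^ (-g)) := h3
            _ ≤ (B : ℝ) ^ K2 c2 k * (n : ℝ) ^ (g - 1 / 2 ^ k) *
                ((n : ℝ) ^ (-g + 1 / 2 ^ (10 * k)) + (n : ℝ) ^ (-g + 1 / 2 ^ (10 * k))) := by
                gcongr
            _ = (2 * (B : ℝ) ^ K2 c2 k) *
                ((n : ℝ) ^ (g - 1 / 2 ^ k) * (n : ℝ) ^ (-g + 1 / 2 ^ (10 * k))) := by ring
            _ ≤ (n : ℝ) ^ (1 / 2 ^ (k + 2) : ℝ) *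
                ((n : ℝ) ^ (g - 1 / 2 ^ k) * (n : ℝ) ^ (-g + 1 / 2 ^ (10 * k))) := by
                apply mul_le_mul_of_nonneg_right h7 (by positivity)
            _ = (n : ℝ) ^ (1 / 2 ^ (k + 2) + (g - 1 / 2 ^ k + (-g + 1 / 2 ^ (10 * k))) : ℝ) := by
                rw [← Real.rpow_add hn0, ← Real.rpow_add hn0]
            _ ≤ (n : ℝ) ^ (-(1 / 2 ^ (k + 2)) : ℝ) := by
                apply Real.rpow_le_rpow_of_exponent_le hn1
                linarith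
        rw [← mul_sub, abs_mul]
        exact mul_le_mul (hlB i) (h8.trans hNn2) (abs_nonneg _) (by linarith)
  have hsum : ∑ i ∈ Icc 1 (k - 1), l i * sl w q ((n : ℝ) + h) i -
      ∑ i ∈ Icc 1 (k - 1), l i * sl w q (n : ℝ) i - θ =
      ∑ i ∈ Icc 1 (k - 1), (l i * sl w q ((n : ℝ) + h) i - l i * sl w q (n : ℝ) i -
        (if i = i0 then θ else 0)) := by
    rw [sum_sub_distrib, sum_sub_distrib, sum_ite_eq', if_pos (mem_Icc.2 ⟨hi0, by omega⟩)]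
  rw [hsum]
  refine (abs_sum_le_sum_abs _ _).trans ((sum_le_sum key).trans ?_)
  rw [sum_const, Nat.card_Icc, nsmul_eq_mul]
  have h3 : ((k - 1 + 1 - 1 : ℕ) : ℝ) ≤ k := by exact_mod_cast (by omega : k - 1 + 1 - 1 ≤ k)
  exact mul_le_mul_of_nonneg_right h3 (by positivity)

open Classical in
theorem slow_step : ∃ c : ℕ, ∀ k : ℕ, 1 ≤ k → ∀ w : ℕ → Bool, Pos w k → ∀ B : ℕ, 2 ≤ B → ∀ q : ℕ → ℕ,
    (∀ i, 1 ≤ q i ∧ q i ≤ B) → ∀ N : ℕ, (B : ℝ) ^ K2 c k ≤ N → ∀ i0, 1 ≤ i0 → i0 < k →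
    ∀ l : ℕ → ℤ, l i0 ≠ 0 → (∀ i, |l i| ≤ B) → (∀ i, 1 ≤ i → i < k → gq w i0 < gq w i → l i = 0) →
    ∀ ρ : ℝ, 0 < ρ → ρ ≤ 1 / 2 ^ (12 * k) →
    ((((Ico N (2 * N)).filter (fun n : ℕ => ∃ i, 1 ≤ i ∧ i < k ∧ gq w i < gq w i0 ∧
        ∃ h : ℕ, (h : ℝ) ≤ (N : ℝ) ^ (1 - gq w i0 + 1 / 2 ^ (10 * k)) ∧
          ct w q ((n : ℝ) + h) i ≠ ct w q n i)).card : ℕ) : ℝ) ≤ (N : ℝ) ^ (1 - ρ) →
    ‖∑ n ∈ Ico N (2 * N), ee (∑ i ∈ Icc 1 (k - 1), l i * sl w q (n : ℝ) i)‖ ≤ 4 * (N : ℝ) ^ (1 - ρ) := by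
  obtain ⟨c0, h0⟩ := point_approx
  obtain ⟨c3, h3⟩ := kap_lower
  obtain ⟨c5, h5⟩ := kap_upper
  refine ⟨c0 + c3 + c5 + 30, fun k hk w hw B hB q hq N hN i0 hi0 hi0k l hli0 hl hl0 ρ hρ0 hρ hJ => ?_⟩
  set J := (Ico N (2 * N)).filter (fun n : ℕ => ∃ i, 1 ≤ i ∧ i < k ∧ gq w i < gq w i0 ∧
        ∃ h : ℕ, (h : ℝ) ≤ (N : ℝ) ^ (1 - gq w i0 + 1 / 2 ^ (10 * k)) ∧
          ct w q ((n : ℝ) + h) i ≠ ct w q n i) with hJdef
  have hB1 : (1 : ℝ) ≤ B := by exact_mod_cast (by omega : 1 ≤ B)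
  have hB2 : (2 : ℝ) ≤ B := by exact_mod_cast hB
  have hB0 : (0 : ℝ) < B := by linarith
  have hN1 : (1 : ℝ) ≤ N := le_trans (one_le_pow₀ hB1) hN
  have hN0 : (0 : ℝ) < N := by linarith
  have hNc0 : (B : ℝ) ^ K2 c0 k ≤ N := pow_K2_mono hB1 (by omega) hN
  set g := gq w i0 with hg
  set ε : ℝ := 1 / 2 ^ (10 * k) with hεdef
  have hεp : 0 < ε := by positivity
  have hg0 : 1 / 2 ^ k ≤ g :=
    (one_div_le_one_div_of_le (by positivity)
      (pow_le_pow_right₀ (by norm_num) hi0k.le)).trans (gq_lower w hi0)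
  have hgp : 0 < g := lt_of_lt_of_le (by positivity) hg0
  have hg1 : 1 / 2 ^ k ≤ 1 - g := by
    have e1 := gq_upper w hi0
    have e2 : (1 : ℝ) / 2 ^ k ≤ 1 / 2 ^ i0 :=
      one_div_le_one_div_of_le (by positivity) (pow_le_pow_right₀ (by norm_num) hi0k.le)
    linarith
  have hε1 : ε ≤ 1 / 2 ^ (k + 2) := eps_le hk
  have hk4 : (1 : ℝ) / 2 ^ k = 4 * (1 / 2 ^ (k + 2)) := by
    rw [pow_add]; field_simp; norm_num
  have hρε : ρ ≤ ε / 4 := by
    refine hρ.trans ?_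
    rw [hεdef, div_div]
    refine one_div_le_one_div_of_le (by positivity) ?_
    rw [show (2 : ℝ) ^ (10 * k) * 4 = 2 ^ (10 * k + 2) by rw [pow_add]; norm_num]
    exact pow_le_pow_right₀ (by norm_num) (by omega)
  set s : ℝ := (N : ℝ) ^ (1 - g + ε) with hs
  have hs1 : 1 ≤ s := Real.one_le_rpow hN1 (by
    have : (0 : ℝ) < 1 / 2 ^ k := by positivity
    linarith)
  set H : ℕ := ⌊s⌋₊ with hH
  have hHs : (H : ℝ) ≤ s := Nat.floor_le (by linarith)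
  have hHs2 : s / 2 ≤ H := by
    have := Nat.lt_floor_add_one s
    rw [← hH] at this
    have h1 : (1 : ℝ) ≤ H := by
      have : 1 ≤ H := Nat.le_floor (by simpa using hs1)
      exact_mod_cast this
    linarith
  have hH0 : (0 : ℝ) < H := by linarith
  -- the constants
  have hkap1 := h3 k hk w hw i0 hi0 hi0k
  have hkap2 := h5 k hk w i0 hi0 hi0k
  set κ := |kap w i0| with hκ
  have hκ0 : 0 < κ := lt_of_lt_of_le (by positivity) hkap1
  set E : ℝ := 2 * Real.pi * (k * (B * (N : ℝ) ^ (-(1 / 2 ^ (k + 2)) : ℝ))) with hE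
  have hE1 : E ≤ (N : ℝ) ^ (-ρ) := by
    have e1 : 2 * Real.pi * (k * B) ≤ (N : ℝ) ^ (1 / 2 ^ (12 * k) : ℝ) := by
      calc 2 * Real.pi * (k * B) ≤ 2 ^ 3 * (2 ^ k * B) := by
            have e2 : (k : ℝ) ≤ 2 ^ k := by exact_mod_cast (Nat.lt_two_pow_self (n := k)).le
            have e3 := Real.pi_lt_four
            have e4 := Real.pi_pos
            gcongr
            linarith
        _ ≤ (B : ℝ) ^ 3 * ((B : ℝ) ^ k * B) := by gcongr
        _ = (B : ℝ) ^ (k + 4) := by ring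
        _ ≤ (N : ℝ) ^ (1 / 2 ^ (12 * k) : ℝ) := by
            apply absorb' hB1 hN
            have e5 : k + 4 ≤ 2 ^ (4 * k) := by
              have e6 : k ≤ 2 ^ k := (Nat.lt_two_pow_self (n := k)).le
              have e7 : 2 ≤ 2 ^ k := by
                calc 2 = 2 ^ 1 := rfl
                  _ ≤ 2 ^ k := Nat.pow_le_pow_right (by norm_num) hk
              have e8 : 2 * 2 * 2 * 2 ^ k ≤ 2 ^ k * 2 ^ k * 2 ^ k * 2 ^ k :=
                Nat.mul_le_mul_right _ (Nat.mul_le_mul (Nat.mul_le_mul e7 e7) e7)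
              calc k + 4 ≤ 2 ^ k * 2 ^ k * 2 ^ k * 2 ^ k := by omega
                _ = 2 ^ (4 * k) := by ring
            calc (k + 4) * 2 ^ (12 * k) ≤ 2 ^ (4 * k) * 2 ^ (12 * k) := Nat.mul_le_mul_right _ e5
              _ = 2 ^ (16 * k) := by rw [← pow_add]; congr 1; ring
              _ ≤ _ := two_pow_le_K2 hk (by omega)
    have e2 : (1 : ℝ) / 2 ^ (12 * k) ≤ 1 / 2 ^ (k + 2) / 2 := by
      rw [div_div]
      refine one_div_le_one_div_of_le (by positivity) ?_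
      rw [← pow_succ]
      exact pow_le_pow_right₀ (by norm_num) (by omega)
    calc E = (2 * Real.pi * (k * B)) * (N : ℝ) ^ (-(1 / 2 ^ (k + 2)) : ℝ) := by rw [hE]; ring
      _ ≤ (N : ℝ) ^ (1 / 2 ^ (12 * k) : ℝ) * (N : ℝ) ^ (-(1 / 2 ^ (k + 2)) : ℝ) := by gcongr
      _ = (N : ℝ) ^ (1 / 2 ^ (12 * k) + -(1 / 2 ^ (k + 2)) : ℝ) := by rw [← Real.rpow_add hN0]
      _ ≤ (N : ℝ) ^ (-ρ) := by
          apply Real.rpow_le_rpow_of_exponent_le hN1
          linarith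
  have hW : 2 * (N : ℝ) ^ (1 - g) / κ ≤ H * (N : ℝ) ^ (-ρ) := by
    have e1 : 4 / κ ≤ (N : ℝ) ^ (1 / 2 ^ (10 * k + 1) : ℝ) := by
      calc 4 / κ ≤ 4 / (1 / 2 ^ K2 c3 k) := by gcongr
        _ = 2 ^ 2 * 2 ^ K2 c3 k := by rw [div_div_eq_mul_div]; norm_num
        _ ≤ (B : ℝ) ^ 2 * (B : ℝ) ^ K2 c3 k := by gcongr
        _ = (B : ℝ) ^ (K2 c3 k + 2) := by ring
        _ ≤ (N : ℝ) ^ (1 / 2 ^ (10 * k + 1) : ℝ) := by
            apply absorb' hB1 hN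
            have e2 := one_le_K2 c3 k
            have e3 := K2_mul_two_pow (c := c3) (a := 13) hk
            have e4 : K2 (c3 + 13) k ≤ K2 (c0 + c3 + c5 + 30) k := K2_mono k (by omega)
            have e5 : 2 ^ 2 * 2 ^ (10 * k + 1) ≤ 2 ^ (13 * k) := by
              rw [← pow_add]
              exact Nat.pow_le_pow_right (by norm_num) (by omega)
            calc (K2 c3 k + 2) * 2 ^ (10 * k + 1) ≤ (K2 c3 k * 2 ^ 2) * 2 ^ (10 * k + 1) :=
                  Nat.mul_le_mul_right _ (by omega)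
              _ = K2 c3 k * (2 ^ 2 * 2 ^ (10 * k + 1)) := by ring
              _ ≤ K2 c3 k * 2 ^ (13 * k) := Nat.mul_le_mul_left _ e5
              _ ≤ _ := e3.trans e4
    have e6 : (1 : ℝ) / 2 ^ (10 * k + 1) = ε / 2 := by
      rw [hεdef, div_div, ← pow_succ]
    calc 2 * (N : ℝ) ^ (1 - g) / κ = (4 / κ) * ((N : ℝ) ^ (1 - g) / 2) := by ring
      _ ≤ (N : ℝ) ^ (ε / 2) * ((N : ℝ) ^ (1 - g) / 2) := by
          rw [e6] at e1
          gcongr
      _ = (N : ℝ) ^ (ε / 2 + (1 - g)) / 2 := by rw [Real.rpow_add hN0]; ring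
      _ ≤ (N : ℝ) ^ ((1 - g + ε) + -ρ) / 2 := by
          have : (N : ℝ) ^ (ε / 2 + (1 - g)) ≤ (N : ℝ) ^ ((1 - g + ε) + -ρ) := by
            apply Real.rpow_le_rpow_of_exponent_le hN1
            linarith
          linarith
      _ = s / 2 * (N : ℝ) ^ (-ρ) := by rw [Real.rpow_add hN0, hs]; ring
      _ ≤ H * (N : ℝ) ^ (-ρ) := by gcongr
  -- pointwise
  set f : ℕ → ℂ := fun n => ee (∑ i ∈ Icc 1 (k - 1), l i * sl w q (n : ℝ) i) with hf
  have hf1 : ∀ n, ‖f n‖ = 1 := fun n => norm_ee _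
  have hpt : ∀ n ∈ Ico N (2 * N), n ∉ J → ‖∑ h ∈ range H, f (n + h)‖ ≤
      H * (N : ℝ) ^ (-ρ) + H * (N : ℝ) ^ (-ρ) := by
    intro n hn hnJ
    obtain ⟨hn1, hn2⟩ := mem_Ico.1 hn
    have hnN : (N : ℝ) ≤ n := by exact_mod_cast hn1
    have hn2N : (n : ℝ) ≤ 2 * N := by exact_mod_cast hn2.le
    have hn0 : (0 : ℝ) < n := by linarith
    have hct : ∀ h : ℕ, (h : ℝ) ≤ s → ∀ i, 1 ≤ i → i < k → gq w i < g →
        ct w q ((n : ℝ) + h) i = ct w q n i := by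
      intro h hh i hi hik hgi
      by_contra hcon
      exact hnJ (mem_filter.2 ⟨hn, i, hi, hik, hgi, h, hh, hcon⟩)
    set θ : ℝ := l i0 * (kap w i0 / 2 * (pq q i0 : ℝ) ^ dq w i0 * (n : ℝ) ^ (g - 1)) with hθ
    have hl1 : (1 : ℝ) ≤ |(l i0 : ℝ)| := by
      have := Int.one_le_abs hli0
      exact_mod_cast this
    have hlB : |(l i0 : ℝ)| ≤ B := by
      have h3 : ((|l i0| : ℤ) : ℝ) ≤ ((B : ℤ) : ℝ) := by exact_mod_cast hl i0
      simpa using h3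
    have hpq1 : (1 : ℝ) ≤ (pq q i0 : ℝ) := by
      have : 1 ≤ pq q i0 := by
        unfold pq
        exact Nat.one_le_iff_ne_zero.2 (prod_ne_zero_iff.2 fun i _ => by
          have := (hq i).1
          omega)
      exact_mod_cast this
    have hpqB : (pq q i0 : ℝ) ≤ (B : ℝ) ^ k := by
      have : pq q i0 ≤ B ^ i0 := by
        unfold pq
        calc ∏ i ∈ range i0, q i ≤ ∏ i ∈ range i0, B := prod_le_prod' fun i _ => (hq i).2
          _ = B ^ i0 := by simp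
      have h2 : B ^ i0 ≤ B ^ k := Nat.pow_le_pow_right (by omega) hi0k.le
      exact_mod_cast this.trans h2
    have hθabs : |θ| = |(l i0 : ℝ)| * (κ / 2 * (pq q i0 : ℝ) ^ dq w i0 * (n : ℝ) ^ (g - 1)) := by
      rw [hθ, abs_mul, abs_mul, abs_mul, abs_div, abs_of_pos (show (0 : ℝ) < 2 by norm_num),
        abs_of_nonneg (show (0 : ℝ) ≤ (pq q i0 : ℝ) ^ dq w i0 by positivity),
        abs_of_nonneg (show (0 : ℝ) ≤ (n : ℝ) ^ (g - 1) by positivity)]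
    have hpp : (1 : ℝ) ≤ (pq q i0 : ℝ) ^ dq w i0 := one_le_pow₀ hpq1
    have hθlow : κ / 4 * (N : ℝ) ^ (g - 1) ≤ |θ| := by
      have e1 : (N : ℝ) ^ (g - 1) / 2 ≤ (n : ℝ) ^ (g - 1) := by
        have e2 : (2 * (N : ℝ)) ^ (g - 1) ≤ (n : ℝ) ^ (g - 1) :=
          Real.rpow_le_rpow_of_nonpos hn0 hn2N (by
            have : (0 : ℝ) < 1 / 2 ^ k := by positivity
            linarith)
        rw [Real.mul_rpow (by norm_num) (by linarith)] at e2
        have e3 : (1 : ℝ) / 2 ≤ (2 : ℝ) ^ (g - 1) := by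
          rw [show (1 : ℝ) / 2 = 2 ^ (-1 : ℝ) by rw [Real.rpow_neg_one]; norm_num]
          apply Real.rpow_le_rpow_of_exponent_le (by norm_num)
          linarith
        have e4 : (0 : ℝ) ≤ (N : ℝ) ^ (g - 1) := by positivity
        nlinarith
      rw [hθabs]
      calc κ / 4 * (N : ℝ) ^ (g - 1) = 1 * (κ / 2 * 1 * ((N : ℝ) ^ (g - 1) / 2)) := by ring
        _ ≤ |(l i0 : ℝ)| * (κ / 2 * (pq q i0 : ℝ) ^ dq w i0 * (n : ℝ) ^ (g - 1)) := by gcongr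
    have hθup : |θ| ≤ 1 / 2 := by
      have e1 : (n : ℝ) ^ (g - 1) ≤ (N : ℝ) ^ (g - 1) :=
        Real.rpow_le_rpow_of_nonpos hN0 hnN (by
          have : (0 : ℝ) < 1 / 2 ^ k := by positivity
          linarith)
      have e2 : (pq q i0 : ℝ) ^ dq w i0 ≤ (B : ℝ) ^ (k * 2 ^ k) := by
        have hd : dq w i0 ≤ 2 ^ k :=
          (dq_le w i0).trans (Nat.pow_le_pow_right (by norm_num) hi0k.le)
        calc (pq q i0 : ℝ) ^ dq w i0 ≤ (pq q i0 : ℝ) ^ 2 ^ k := pow_le_pow_right₀ hpq1 hd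
          _ ≤ ((B : ℝ) ^ k) ^ 2 ^ k := by gcongr
          _ = (B : ℝ) ^ (k * 2 ^ k) := by rw [← pow_mul]
      have e3 : (B : ℝ) ^ (1 + K2 c5 k + k * 2 ^ k) ≤ (N : ℝ) ^ (1 / 2 ^ k : ℝ) := by
        apply absorb' hB1 hN
        have f1 := one_le_K2 c5 k
        have f2 : k ≤ 2 ^ k := (Nat.lt_two_pow_self (n := k)).le
        have f3 : 1 ≤ 2 ^ k := Nat.one_le_two_pow
        have f4 := K2_mul_two_pow (c := c5) (a := 5) hk
        have f5 : K2 (c5 + 5) k ≤ K2 (c0 + c3 + c5 + 30) k := K2_mono k (by omega)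
        have f6 : 2 ^ (5 * k) = 2 ^ k * 2 ^ k * 2 ^ k * (2 ^ k * 2 ^ k) := by ring
        have f7 : 2 ≤ 2 ^ k := by
          calc 2 = 2 ^ 1 := rfl
            _ ≤ 2 ^ k := Nat.pow_le_pow_right (by norm_num) hk
        calc (1 + K2 c5 k + k * 2 ^ k) * 2 ^ k ≤ (K2 c5 k * (2 ^ k * 2 ^ k * 4)) * 2 ^ k := by
              apply Nat.mul_le_mul_right
              have g1 : k * 2 ^ k ≤ 2 ^ k * 2 ^ k := Nat.mul_le_mul_right _ f2
              have g2 : 1 ≤ 2 ^ k * 2 ^ k := Nat.one_le_iff_ne_zero.2 (by positivity)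
              nlinarith
          _ ≤ (K2 c5 k * (2 ^ k * 2 ^ k * (2 ^ k * 2 ^ k))) * 2 ^ k := by
              apply Nat.mul_le_mul_right
              apply Nat.mul_le_mul_left
              apply Nat.mul_le_mul_left
              nlinarith
          _ = K2 c5 k * 2 ^ (5 * k) := by rw [f6]; ring
          _ ≤ _ := f4.trans f5
      have e4 : (N : ℝ) ^ (1 / 2 ^ k : ℝ) * (N : ℝ) ^ (g - 1) ≤ 1 := by
        rw [← Real.rpow_add hN0]
        exact Real.rpow_le_one_of_one_le_of_nonpos hN1 (by linarith)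
      have e5 : κ ≤ (B : ℝ) ^ K2 c5 k :=
        hkap2.trans (pow_le_pow_left₀ (by norm_num) hB2 _)
      rw [hθabs]
      calc |(l i0 : ℝ)| * (κ / 2 * (pq q i0 : ℝ) ^ dq w i0 * (n : ℝ) ^ (g - 1))
          ≤ B * ((B : ℝ) ^ K2 c5 k / 2 * (B : ℝ) ^ (k * 2 ^ k) * (N : ℝ) ^ (g - 1)) := by
            gcongr
        _ = ((B : ℝ) ^ (1 + K2 c5 k + k * 2 ^ k) * (N : ℝ) ^ (g - 1)) / 2 := by
            rw [pow_add, pow_add]; ring
        _ ≤ ((N : ℝ) ^ (1 / 2 ^ k : ℝ) * (N : ℝ) ^ (g - 1)) / 2 := by gcongr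
        _ ≤ 1 / 2 := by linarith
    have hθ0 : 0 < |θ| := lt_of_lt_of_le (by positivity) hθlow
    have hdI : |θ| ≤ dI θ := le_dI hθup
    have happ : ∀ h ∈ range H, ‖f (n + h) - f n * ee (θ * h)‖ ≤ E := by
      intro h hh
      have hhs : (h : ℝ) ≤ s := by
        have : (h : ℝ) ≤ H := by exact_mod_cast (mem_range.1 hh).le
        linarith
      have e1 := h0 k hk w hw B hB q hq N hNc0 i0 hi0 hi0k l hl hl0 n hn1 h hhs
        (hct h hhs)
      have e2 : f n * ee (θ * h) =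
          ee (∑ i ∈ Icc 1 (k - 1), l i * sl w q (n : ℝ) i + θ * h) := (ee_add _ _).symm
      rw [e2, hf]
      refine (norm_ee_sub_le _ _).trans ?_
      rw [hE]
      refine mul_le_mul_of_nonneg_left ?_ (by positivity)
      refine le_trans (le_of_eq ?_) e1
      push_cast
      congr 1
      rw [hθ]
      ring
    have hsplit : ∑ h ∈ range H, f (n + h) = f n * ∑ h ∈ range H, ee (θ * h) +
        ∑ h ∈ range H, (f (n + h) - f n * ee (θ * h)) := by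
      rw [sum_sub_distrib, mul_sum]; ring
    rw [hsplit]
    refine (norm_add_le _ _).trans (add_le_add ?_ ?_)
    · rw [norm_mul, hf1, one_mul]
      refine (geom_ee θ (by linarith) H).trans (le_trans ?_ hW)
      calc 1 / (2 * dI θ) ≤ 1 / (2 * (κ / 4 * (N : ℝ) ^ (g - 1))) := by
            apply one_div_le_one_div_of_le (by positivity)
            linarith
        _ = 2 * (N : ℝ) ^ (1 - g) / κ := by
            have e1 : (N : ℝ) ^ (1 - g) = ((N : ℝ) ^ (g - 1))⁻¹ := by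
              rw [← Real.rpow_neg hN0.le]; congr 1; ring
            rw [e1]
            have e2 : (N : ℝ) ^ (g - 1) ≠ 0 := by positivity
            field_simp
            norm_num
    · refine (norm_sum_le _ _).trans ((sum_le_sum happ).trans ?_)
      rw [sum_const, card_range, nsmul_eq_mul]
      gcongr
  have hmain := shift_avg f (fun n => (hf1 n).le) N (2 * N) H
  have hsumJ : ∑ n ∈ Ico N (2 * N), ‖∑ h ∈ range H, f (n + h)‖ ≤
      H * (N : ℝ) ^ (1 - ρ) + N * (H * (N : ℝ) ^ (-ρ) + H * (N : ℝ) ^ (-ρ)) := by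
    have e1 : ∀ n ∈ Ico N (2 * N), ‖∑ h ∈ range H, f (n + h)‖ ≤
        (if n ∈ J then (H : ℝ) else 0) + (H * (N : ℝ) ^ (-ρ) + H * (N : ℝ) ^ (-ρ)) := by
      intro n hn
      by_cases hnJ : n ∈ J
      · rw [if_pos hnJ]
        have e2 : ‖∑ h ∈ range H, f (n + h)‖ ≤ H := by
          refine (norm_sum_le _ _).trans ?_
          simp [hf1]
        have e3 : 0 ≤ (H * (N : ℝ) ^ (-ρ) + H * (N : ℝ) ^ (-ρ)) := by positivity
        linarith
      · rw [if_neg hnJ, zero_add]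
        exact hpt n hn hnJ
    refine (sum_le_sum e1).trans ?_
    rw [sum_add_distrib, sum_const, Nat.card_Ico, ← sum_filter, sum_const, nsmul_eq_mul,
      nsmul_eq_mul]
    have e4 : (Ico N (2 * N)).filter (fun n => n ∈ J) = J := by
      apply Subset.antisymm
      · intro n hn
        exact (mem_filter.1 hn).2
      · intro n hn
        refine mem_filter.2 ⟨?_, hn⟩
        rw [hJdef] at hn
        exact (mem_filter.1 hn).1
    rw [e4]
    have e5 : ((2 * N - N : ℕ) : ℝ) = N := by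
      have : 2 * N - N = N := by omega
      rw [this]
    rw [e5]
    refine add_le_add ?_ le_rfl
    rw [mul_comm]
    gcongr
  have hNN : (N : ℝ) * (N : ℝ) ^ (-ρ) = (N : ℝ) ^ (1 - ρ) := by
    nth_rewrite 1 [← Real.rpow_one (N : ℝ)]
    rw [← Real.rpow_add hN0]
    congr 1
  have hHN : (H : ℝ) ≤ (N : ℝ) ^ (1 - ρ) := by
    refine hHs.trans ?_
    apply Real.rpow_le_rpow_of_exponent_le hN1
    have : (0 : ℝ) < 1 / 2 ^ (k + 2) := by positivity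
    linarith
  have hfin : (H : ℝ) * ‖∑ n ∈ Ico N (2 * N), f n‖ ≤ H * (4 * (N : ℝ) ^ (1 - ρ)) := by
    calc (H : ℝ) * ‖∑ n ∈ Ico N (2 * N), f n‖
        ≤ (H * (N : ℝ) ^ (1 - ρ) + N * (H * (N : ℝ) ^ (-ρ) + H * (N : ℝ) ^ (-ρ))) + (H : ℝ) ^ 2 :=
          hmain.trans (by linarith)
      _ = H * ((N : ℝ) ^ (1 - ρ) + 2 * ((N : ℝ) * (N : ℝ) ^ (-ρ)) + H) := by ring
      _ ≤ H * ((N : ℝ) ^ (1 - ρ) + 2 * (N : ℝ) ^ (1 - ρ) + (N : ℝ) ^ (1 - ρ)) := by
          rw [hNN]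
          gcongr
      _ = H * (4 * (N : ℝ) ^ (1 - ρ)) := by ring
  exact le_of_mul_le_mul_left hfin hH0

end Pool.Agent.Work.MP_215640_nt.Q
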