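import Pool.Agent.Work.MP_215640_nt.Q.Jump
import Pool.Agent.Work.MP_215640_nt.Q.SlowStep
import Pool.Agent.Work.MP_215640_nt.Q.K2L

/-!
MODULE SLOW. Joint equidistribution of the slow numbers, and rarity of changes of the locked integers.

`rank i = #{i' ∈ [1,k) : gq w i' < gq w i}`, `R = 2^(20k)`. Induction on the rank: `P(p, D)`: for all `B ≥ 2`, `q ≤ B`,
`N ≥ B^D`, `l ≠ 0` on `[1,k)`, `|l| ≤ B`, `l_i = 0` unless `rank i < p`: `‖S‖ ≤ N^(1 - R/D)`. Step `P(p, D) → P(p+1, R^2 D)`.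
-/

set_option autoImplicit false

namespace Pool.Agent.Work.MP_215640_nt.Q

open Finset Polynomial

open Classical in
/-- number of slower levels -/
noncomputable def rk (w : ℕ → Bool) (k i : ℕ) : ℕ :=
  ((Ico 1 k).filter (fun i' => gq w i' < gq w i)).card

theorem rk_lt {w : ℕ → Bool} {k i i0 : ℕ} (h1 : 1 ≤ i) (h2 : i < k) (h : gq w i < gq w i0) :
    rk w k i < rk w k i0 := by
  classical
  unfold rk
  apply card_lt_card
  refine ⟨?_, ?_⟩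
  · intro a ha
    rw [mem_filter] at ha ⊢
    exact ⟨ha.1, ha.2.trans h⟩
  · intro hsub
    have h3 := hsub (mem_filter.2 ⟨mem_Ico.2 ⟨h1, h2⟩, h⟩)
    rw [mem_filter] at h3
    exact lt_irrefl _ h3.2

theorem rk_lt_k {w : ℕ → Bool} {k i : ℕ} (h1 : 1 ≤ i) (h2 : i < k) : rk w k i < k := by
  classical
  unfold rk
  calc _ ≤ (Ico 1 k).card := card_filter_le _ _
    _ < k := by rw [Nat.card_Ico]; omega

/-- the statement of rank `p` -/
def SlowP (w : ℕ → Bool) (k p D : ℕ) : Prop :=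
  ∀ B : ℕ, 2 ≤ B → ∀ q : ℕ → ℕ, (∀ i, 1 ≤ q i ∧ q i ≤ B) → ∀ N : ℕ, (B : ℝ) ^ D ≤ N →
    ∀ l : ℕ → ℤ, (∀ i, |l i| ≤ B) → (∀ i, 1 ≤ i → i < k → p ≤ rk w k i → l i = 0) →
    (∃ i, 1 ≤ i ∧ i < k ∧ l i ≠ 0) →
    ‖∑ n ∈ Ico N (2 * N), ee (∑ i ∈ Icc 1 (k - 1), l i * sl w q (n : ℝ) i)‖ ≤
      (N : ℝ) ^ (1 - (2 : ℝ) ^ (20 * k) / D)

/-- the exponential sums of a single slow number -/
theorem single_sum {w : ℕ → Bool} {k p D : ℕ} (hP : SlowP w k p D) (hk : 1 ≤ k) (hD : 1 ≤ D) {B : ℕ}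
    (hB : 2 ≤ B) {q : ℕ → ℕ} (hq : ∀ i, 1 ≤ q i ∧ q i ≤ B) {N : ℕ}
    (hN : (B : ℝ) ^ ((2 ^ (20 * k)) ^ 2 * D) ≤ N) {i : ℕ} (hi1 : 1 ≤ i) (hi2 : i < k)
    (hi : rk w k i < p) (l : ℕ) (hl1 : 1 ≤ l) (hl2 : l ≤ ⌈(N : ℝ) ^ (1 / (4 * (D : ℝ)))⌉₊) :
    ‖∑ n ∈ Ico N (2 * N), ee (l * ((q i : ℝ) ^ dq w i * sl w q (n : ℝ) i))‖ ≤
      (N : ℝ) ^ (1 - 1 / (4 * (D : ℝ))) := by
  have hB1 : (1 : ℝ) ≤ B := by exact_mod_cast (by omega : 1 ≤ B)
  have hD0 : (0 : ℝ) < D := by exact_mod_cast hD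
  set L := ⌈(N : ℝ) ^ (1 / (4 * (D : ℝ)))⌉₊ with hL
  have hN1 : (1 : ℝ) ≤ N := le_trans (one_le_pow₀ hB1) hN
  have hT : dq w i ≤ 2 ^ k := (dq_le w i).trans (Nat.pow_le_pow_right (by norm_num) hi2.le)
  have hB' : 2 ≤ L * B ^ 2 ^ k := by
    have h1 : 1 ≤ L := hl1.trans hl2
    have h2 : B ≤ B ^ 2 ^ k := Nat.le_self_pow (by positivity) B
    calc 2 ≤ B := hB
      _ ≤ B ^ 2 ^ k := h2
      _ ≤ L * B ^ 2 ^ k := Nat.le_mul_of_pos_left _ h1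
  have hBB' : B ≤ L * B ^ 2 ^ k := by
    have h1 : 1 ≤ L := hl1.trans hl2
    exact (Nat.le_self_pow (by positivity) B).trans (Nat.le_mul_of_pos_left _ h1)
  have hpow : ((L * B ^ 2 ^ k : ℕ) : ℝ) ^ D ≤ N := by
    have h1 : (L : ℝ) ≤ 2 * (N : ℝ) ^ (1 / (4 * (D : ℝ))) := by
      have h2 := Nat.ceil_lt_add_one (a := (N : ℝ) ^ (1 / (4 * (D : ℝ)))) (by positivity)
      have h3 : 1 ≤ (N : ℝ) ^ (1 / (4 * (D : ℝ))) := Real.one_le_rpow hN1 (by positivity)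
      rw [← hL] at h2
      linarith
    have h2 : (2 : ℝ) ≤ B := by exact_mod_cast hB
    push_cast
    rw [mul_pow, ← pow_mul]
    calc (L : ℝ) ^ D * (B : ℝ) ^ (2 ^ k * D)
        ≤ (2 * (N : ℝ) ^ (1 / (4 * (D : ℝ)))) ^ D * (B : ℝ) ^ (2 ^ k * D) := by
          gcongr
      _ = 2 ^ D * (N : ℝ) ^ (1 / 4 : ℝ) * (B : ℝ) ^ (2 ^ k * D) := by
          rw [mul_pow, ← Real.rpow_natCast ((N : ℝ) ^ _), ← Real.rpow_mul (by positivity)]
          congr 3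
          field_simp
      _ ≤ (B : ℝ) ^ D * (N : ℝ) ^ (1 / 4 : ℝ) * (B : ℝ) ^ (2 ^ k * D) := by
          gcongr
      _ = (N : ℝ) ^ (1 / 4 : ℝ) * (B : ℝ) ^ ((2 ^ k + 1) * D) := by
          rw [show (2 ^ k + 1) * D = D + 2 ^ k * D by ring, pow_add]
          ring
      _ ≤ (N : ℝ) ^ (1 / 4 : ℝ) * (N : ℝ) ^ (1 / 4 : ℝ) := by
          gcongr
          apply absorb hB1 hN _ (by norm_num)
          push_cast
          have h4 : ((2 : ℝ) ^ k + 1) ≤ 1 / 4 * (2 ^ (20 * k)) ^ 2 := by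
            have h5 : (2 : ℝ) ^ k ≤ 2 ^ (20 * k) / 2 ^ 19 := by
              rw [le_div_iff₀ (by positivity), ← pow_add]
              exact pow_le_pow_right₀ (by norm_num) (by omega)
            have h6 : (1 : ℝ) ≤ 2 ^ k := one_le_pow₀ (by norm_num)
            nlinarith
          nlinarith
      _ = (N : ℝ) ^ (1 / 2 : ℝ) := by
          rw [← Real.rpow_add (by linarith)]
          norm_num
      _ ≤ (N : ℝ) ^ (1 : ℝ) := Real.rpow_le_rpow_of_exponent_le hN1 (by norm_num)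
      _ = N := Real.rpow_one _
  have key := hP (L * B ^ 2 ^ k) hB' q (fun i => ⟨(hq i).1, (hq i).2.trans hBB'⟩) N hpow
    (Pi.single i ((l : ℤ) * (q i : ℤ) ^ dq w i)) ?_ ?_ ?_
  · have h1 : ∀ n : ℕ, (∑ i' ∈ Icc 1 (k - 1),
        ((Pi.single i ((l : ℤ) * (q i : ℤ) ^ dq w i) : ℕ → ℤ) i' : ℝ) * sl w q (n : ℝ) i') =
        l * ((q i : ℝ) ^ dq w i * sl w q (n : ℝ) i) := by
      intro n
      rw [sum_eq_single i]
      · rw [Pi.single_eq_same]; push_cast; ring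
      · intro b _ hb
        rw [Pi.single_eq_of_ne hb]; simp
      · intro h
        exact absurd (mem_Icc.2 ⟨hi1, by omega⟩) h
    simp only [h1] at key
    refine key.trans ?_
    apply Real.rpow_le_rpow_of_exponent_le hN1
    have h2 : (1 : ℝ) / (4 * D) ≤ 2 ^ (20 * k) / D := by
      rw [div_le_div_iff₀ (by positivity) hD0]
      have h3 : (1 : ℝ) ≤ 2 ^ (20 * k) := one_le_pow₀ (by norm_num)
      nlinarith
    linarith
  · intro j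
    by_cases hj : j = i
    · subst hj
      rw [Pi.single_eq_same, abs_of_nonneg (by positivity)]
      have h1 : q j ^ dq w j ≤ B ^ 2 ^ k :=
        (Nat.pow_le_pow_left (hq j).2 _).trans (Nat.pow_le_pow_right (by omega) hT)
      exact_mod_cast Nat.mul_le_mul hl2 h1
    · rw [Pi.single_eq_of_ne hj]
      simp only [abs_zero]
      positivity
  · intro j _ _ hj
    rw [Pi.single_eq_of_ne]
    rintro rfl
    omega
  · refine ⟨i, hi1, hi2, ?_⟩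
    rw [Pi.single_eq_same]
    have := (hq i).1
    positivity

theorem fifty_le {k D N : ℕ} (hk : 1 ≤ k) (hD : 1 ≤ D) (hN : (2 : ℝ) ^ ((2 ^ (20 * k)) ^ 2 * D) ≤ N) :
    50 * (k : ℝ) ≤ (N : ℝ) ^ (1 / (4 * (D : ℝ)) / 8) := by
  have h1 : (2 : ℝ) ^ (k + 6) ≤ (N : ℝ) ^ (1 / (4 * (D : ℝ)) / 8) := by
    apply absorb (by norm_num) hN _ (by positivity)
    have hD0 : (0 : ℝ) < D := by exact_mod_cast hD
    push_cast
    have h2 : 1 / (4 * (D : ℝ)) / 8 * ((2 ^ (20 * k)) ^ 2 * D) = (2 ^ (20 * k)) ^ 2 / 32 := by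
      field_simp
      norm_num
    rw [h2]
    have h3 : (2 : ℝ) ^ (20 * k) = 2 ^ k * 2 ^ (19 * k) := by rw [← pow_add]; congr 1; ring
    have h4 : (k : ℝ) ≤ 2 ^ k := by exact_mod_cast Nat.lt_two_pow_self.le
    have h5 : (2 : ℝ) ^ 19 ≤ 2 ^ (19 * k) := pow_le_pow_right₀ (by norm_num) (by omega)
    have h6 : (1 : ℝ) ≤ 2 ^ k := one_le_pow₀ (by norm_num)
    have h7 : (2 : ℝ) ^ k * 2 ^ 19 ≤ 2 ^ (20 * k) := by
      rw [h3]; gcongr
    nlinarith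
  have h2 : (k : ℝ) + 1 ≤ 2 ^ k := by exact_mod_cast Nat.lt_two_pow_self
  rw [pow_add] at h1
  nlinarith

open Classical in
theorem slowP_succ {cJ cS : ℕ}
    (hJ : ∀ k : ℕ, 1 ≤ k → ∀ w : ℕ → Bool, Pos w k → ∀ B : ℕ, 2 ≤ B → ∀ q : ℕ → ℕ,
      (∀ i, 1 ≤ q i ∧ q i ≤ B) → ∀ N : ℕ, (B : ℝ) ^ K2 cJ k ≤ N → ∀ γ : ℝ, γ ≤ 1 →
      (∀ i, 1 ≤ i → i < k → gq w i < γ → gq w i + 1 / 2 ^ k ≤ γ) →
      ∀ (L : ℕ) (ρ : ℝ), 0 < ρ → ρ ≤ 1 / 2 ^ (k + 1) → (N : ℝ) ^ ρ ≤ L →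
      50 * (k : ℝ) ≤ (N : ℝ) ^ (ρ / 8) →
      (∀ i, 1 ≤ i → i < k → gq w i < γ → ∀ l : ℕ, 1 ≤ l → l ≤ L →
        ‖∑ n ∈ Ico N (2 * N), ee (l * ((q i : ℝ) ^ dq w i * sl w q (n : ℝ) i))‖ ≤ (N : ℝ) ^ (1 - ρ)) →
      ((((Ico N (2 * N)).filter (fun n : ℕ => ∃ i, 1 ≤ i ∧ i < k ∧ gq w i < γ ∧
          ∃ h : ℕ, (h : ℝ) ≤ (N : ℝ) ^ (1 - γ + 1 / 2 ^ (10 * k)) ∧
            ct w q ((n : ℝ) + h) i ≠ ct w q n i)).card : ℕ) : ℝ) ≤ (N : ℝ) ^ (1 - ρ / 8))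
    (hS : ∀ k : ℕ, 1 ≤ k → ∀ w : ℕ → Bool, Pos w k → ∀ B : ℕ, 2 ≤ B → ∀ q : ℕ → ℕ,
      (∀ i, 1 ≤ q i ∧ q i ≤ B) → ∀ N : ℕ, (B : ℝ) ^ K2 cS k ≤ N → ∀ i0, 1 ≤ i0 → i0 < k →
      ∀ l : ℕ → ℤ, l i0 ≠ 0 → (∀ i, |l i| ≤ B) → (∀ i, 1 ≤ i → i < k → gq w i0 < gq w i → l i = 0) →
      ∀ ρ : ℝ, 0 < ρ → ρ ≤ 1 / 2 ^ (12 * k) →
      ((((Ico N (2 * N)).filter (fun n : ℕ => ∃ i, 1 ≤ i ∧ i < k ∧ gq w i < gq w i0 ∧
          ∃ h : ℕ, (h : ℝ) ≤ (N : ℝ) ^ (1 - gq w i0 + 1 / 2 ^ (10 * k)) ∧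
            ct w q ((n : ℝ) + h) i ≠ ct w q n i)).card : ℕ) : ℝ) ≤ (N : ℝ) ^ (1 - ρ) →
      ‖∑ n ∈ Ico N (2 * N), ee (∑ i ∈ Icc 1 (k - 1), l i * sl w q (n : ℝ) i)‖ ≤ 4 * (N : ℝ) ^ (1 - ρ))
    {k : ℕ} (hk : 1 ≤ k) {w : ℕ → Bool} (hw : Pos w k) {p D : ℕ} (hDJ : K2 cJ k ≤ D)
    (hDS : K2 cS k ≤ D) (hDR : (2 ^ (20 * k)) ^ 2 ≤ D) (hP : SlowP w k p D) :
    SlowP w k (p + 1) ((2 ^ (20 * k)) ^ 2 * D) := by
  intro B hB q hq N hN l hl hl0 hlne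
  have hB1 : (1 : ℝ) ≤ B := by exact_mod_cast (by omega : 1 ≤ B)
  have hD1 : 1 ≤ D := le_trans (Nat.one_le_iff_ne_zero.2 (by positivity)) hDR
  have hD0 : (0 : ℝ) < D := by exact_mod_cast hD1
  have hN1 : (1 : ℝ) ≤ N := le_trans (one_le_pow₀ hB1) hN
  have hR1 : 1 ≤ (2 ^ (20 * k)) ^ 2 := Nat.one_le_iff_ne_zero.2 (by positivity)
  have hND : (B : ℝ) ^ D ≤ N := by
    refine le_trans (pow_le_pow_right₀ hB1 ?_) hN
    exact Nat.le_mul_of_pos_left _ hR1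
  have hN2 : (2 : ℝ) ^ ((2 ^ (20 * k)) ^ 2 * D) ≤ N := by
    refine le_trans ?_ hN
    gcongr
    exact_mod_cast hB
  by_cases hex : ∃ i0, 1 ≤ i0 ∧ i0 < k ∧ rk w k i0 = p ∧ l i0 ≠ 0
  · obtain ⟨i0, h1, h2, h3, h4⟩ := hex
    have hrank : ∀ i, 1 ≤ i → i < k → gq w i0 < gq w i → l i = 0 := by
      intro i hi1 hi2 hi
      have := rk_lt (k := k) h1 h2 hi
      exact hl0 i hi1 hi2 (by omega)
    have hsep : ∀ i, 1 ≤ i → i < k → gq w i < gq w i0 → gq w i + 1 / 2 ^ k ≤ gq w i0 := by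
      intro i hi1 hi2 hi
      have hne : i ≠ i0 := by rintro rfl; exact lt_irrefl _ hi
      have h5 := gq_sep w hi1 h1 hne hi2.le h2.le
      rw [abs_sub_comm, abs_of_pos (by linarith)] at h5
      linarith
    have hρ : (1 : ℝ) / (4 * D) ≤ 1 / 2 ^ (k + 1) := by
      have h5 : ((2 : ℝ) ^ (20 * k)) ^ 2 ≤ D := by exact_mod_cast hDR
      have h6 : (2 : ℝ) ^ (k + 1) ≤ (2 ^ (20 * k)) ^ 2 := by
        rw [← pow_mul]
        exact pow_le_pow_right₀ (by norm_num) (by omega)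
      apply one_div_le_one_div_of_le (by positivity)
      linarith
    have hj := hJ k hk w hw B hB q hq N ((pow_le_pow_right₀ hB1 hDJ).trans hND) (gq w i0)
      (by have := gq_upper w h1; have h9 : (0 : ℝ) < 1 / 2 ^ i0 := by positivity
          linarith) hsep ⌈(N : ℝ) ^ (1 / (4 * (D : ℝ)))⌉₊ (1 / (4 * (D : ℝ))) (by positivity) hρ
      (Nat.le_ceil _) (fifty_le hk hD1 hN2)
      (fun i hi1 hi2 hi l' hl1 hl2 => single_sum hP hk hD1 hB hq hN hi1 hi2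
        (by have := rk_lt (k := k) hi1 hi2 hi; omega) l' hl1 hl2)
    have hs := hS k hk w hw B hB q hq N ((pow_le_pow_right₀ hB1 hDS).trans hND) i0 h1 h2 l h4 hl
      hrank (1 / (4 * (D : ℝ)) / 8) (by positivity) ?_ hj
    · refine hs.trans ?_
      have h5 : (4 : ℝ) ≤ (N : ℝ) ^ (1 / (64 * (D : ℝ))) := by
        have h6 : (2 : ℝ) ^ 2 ≤ (N : ℝ) ^ (1 / (64 * (D : ℝ))) := by
          apply absorb (by norm_num) hN2 _ (by positivity)
          push_cast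
          have h7 : 1 / (64 * (D : ℝ)) * ((2 ^ (20 * k)) ^ 2 * D) = (2 ^ (20 * k)) ^ 2 / 64 := by
            field_simp
          rw [h7]
          have h8 : (2 : ℝ) ^ 20 ≤ 2 ^ (20 * k) := pow_le_pow_right₀ (by norm_num) (by omega)
          nlinarith
        linarith
      calc 4 * (N : ℝ) ^ (1 - 1 / (4 * (D : ℝ)) / 8)
          ≤ (N : ℝ) ^ (1 / (64 * (D : ℝ))) * (N : ℝ) ^ (1 - 1 / (4 * (D : ℝ)) / 8) := by gcongr
        _ = (N : ℝ) ^ (1 - 1 / (64 * (D : ℝ))) := by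
            rw [← Real.rpow_add (by linarith)]
            congr 1
            field_simp
            ring
        _ ≤ _ := by
            apply Real.rpow_le_rpow_of_exponent_le hN1
            have h6 : (2 : ℝ) ^ (20 * k) / (((2 ^ (20 * k)) ^ 2 * D : ℕ) : ℝ) ≤
                1 / (64 * (D : ℝ)) := by
              push_cast
              rw [div_le_div_iff₀ (by positivity) (by positivity)]
              have h8 : (2 : ℝ) ^ 20 ≤ 2 ^ (20 * k) := pow_le_pow_right₀ (by norm_num) (by omega)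
              have h9 : (2 : ℝ) ^ (20 * k) * 64 ≤ (2 ^ (20 * k)) ^ 2 := by nlinarith
              nlinarith
            linarith
    · have h5 : ((2 : ℝ) ^ (20 * k)) ^ 2 ≤ D := by exact_mod_cast hDR
      have h6 : (2 : ℝ) ^ (12 * k) ≤ (2 ^ (20 * k)) ^ 2 := by
        rw [← pow_mul]
        exact pow_le_pow_right₀ (by norm_num) (by omega)
      rw [div_div]
      apply one_div_le_one_div_of_le (by positivity)
      linarith
  · push Not at hex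
    refine (hP B hB q hq N hND l hl ?_ hlne).trans ?_
    · intro i hi1 hi2 hi
      rcases Nat.eq_or_lt_of_le hi with h | h
      · exact hex i hi1 hi2 h.symm
      · exact hl0 i hi1 hi2 h
    · apply Real.rpow_le_rpow_of_exponent_le hN1
      have h6 : (2 : ℝ) ^ (20 * k) / (((2 ^ (20 * k)) ^ 2 * D : ℕ) : ℝ) ≤ 2 ^ (20 * k) / D := by
        push_cast
        apply div_le_div_of_nonneg_left (by positivity) hD0
        have : (1 : ℝ) ≤ (2 ^ (20 * k)) ^ 2 := by exact_mod_cast hR1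
        nlinarith
      linarith

theorem slowP_all : ∃ c : ℕ, ∀ k : ℕ, 1 ≤ k → ∀ w : ℕ → Bool, Pos w k → ∀ p : ℕ,
    SlowP w k p ((2 ^ (20 * k)) ^ (2 * p + 2) * K2 c k) := by
  obtain ⟨cJ, hJ⟩ := jump_count
  obtain ⟨cS, hS⟩ := slow_step
  refine ⟨cJ + cS, fun k hk w hw p => ?_⟩
  induction p with
  | zero =>
    intro B hB q hq N hN l hl hl0 ⟨i, hi1, hi2, hi⟩
    exact absurd (hl0 i hi1 hi2 (Nat.zero_le _)) hi
  | succ p ih =>
    have h1 : K2 (cJ + cS) k ≤ (2 ^ (20 * k)) ^ (2 * p + 2) * K2 (cJ + cS) k :=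
      Nat.le_mul_of_pos_left _ (by positivity)
    have h2 := slowP_succ hJ hS hk hw ((K2_mono k (Nat.le_add_right _ _)).trans h1)
      ((K2_mono k (Nat.le_add_left _ _)).trans h1) ?_ ih
    · have h3 : (2 ^ (20 * k)) ^ (2 * (p + 1) + 2) * K2 (cJ + cS) k =
          (2 ^ (20 * k)) ^ 2 * ((2 ^ (20 * k)) ^ (2 * p + 2) * K2 (cJ + cS) k) := by ring
      rw [h3]
      exact h2
    · calc (2 ^ (20 * k)) ^ 2 ≤ (2 ^ (20 * k)) ^ (2 * p + 2) :=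
            Nat.pow_le_pow_right (by positivity) (by omega)
        _ ≤ _ := Nat.le_mul_of_pos_right _ (K2_pos _ _)

theorem pow_R_le {c k : ℕ} (hk : 1 ≤ k) :
    (2 ^ (20 * k)) ^ 2 * ((2 ^ (20 * k)) ^ (2 * k + 2) * K2 c k) ≤ K2 (120 + c) k := by
  have h1 : (2 ^ (20 * k)) ^ 2 * (2 ^ (20 * k)) ^ (2 * k + 2) ≤ K2 120 k := by
    unfold K2
    rw [← pow_add, ← pow_mul]
    apply Nat.pow_le_pow_right (by norm_num)
    nlinarith
  rw [← mul_assoc, K2_add]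
  exact Nat.mul_le_mul_right _ h1

theorem slow : ∃ c : ℕ, ∀ k : ℕ, 1 ≤ k → ∀ w : ℕ → Bool, Pos w k → ∀ B : ℕ, 2 ≤ B → ∀ q : ℕ → ℕ,
    (∀ i, 1 ≤ q i ∧ q i ≤ B) → ∀ N : ℕ, (B : ℝ) ^ K2 c k ≤ N →
    ∀ l : ℕ → ℤ, (∀ i, |l i| ≤ B) → (∃ i, 1 ≤ i ∧ i < k ∧ l i ≠ 0) →
    ‖∑ n ∈ Ico N (2 * N), ee (∑ i ∈ Icc 1 (k - 1), l i * sl w q (n : ℝ) i)‖ ≤
      (N : ℝ) ^ (1 - 1 / (K2 c k : ℝ)) := by
  obtain ⟨c, hc⟩ := slowP_all
  refine ⟨120 + c, fun k hk w hw B hB q hq N hN l hl hlne => ?_⟩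
  have hB1 : (1 : ℝ) ≤ B := by exact_mod_cast (by omega : 1 ≤ B)
  have hN1 : (1 : ℝ) ≤ N := le_trans (one_le_pow₀ hB1) hN
  have hle : (2 ^ (20 * k)) ^ (2 * k + 2) * K2 c k ≤ K2 (120 + c) k :=
    (Nat.le_mul_of_pos_left _ (by positivity)).trans (pow_R_le hk)
  refine (hc k hk w hw k B hB q hq N ((pow_le_pow_right₀ hB1 hle).trans hN) l hl ?_ hlne).trans ?_
  · intro i hi1 hi2 hi
    have := rk_lt_k (w := w) hi1 hi2
    omega
  · apply Real.rpow_le_rpow_of_exponent_le hN1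
    have h1 : (1 : ℝ) / (K2 (120 + c) k : ℝ) ≤
        2 ^ (20 * k) / (((2 ^ (20 * k)) ^ (2 * k + 2) * K2 c k : ℕ) : ℝ) := by
      have h2 : (0 : ℝ) < (((2 ^ (20 * k)) ^ (2 * k + 2) * K2 c k : ℕ) : ℝ) := by
        exact_mod_cast Nat.mul_pos (by positivity) (K2_pos _ _)
      have h3 : (0 : ℝ) < (K2 (120 + c) k : ℝ) := by exact_mod_cast K2_pos _ _
      rw [div_le_div_iff₀ h3 h2]
      have h4 : (((2 ^ (20 * k)) ^ (2 * k + 2) * K2 c k : ℕ) : ℝ) ≤ (K2 (120 + c) k : ℝ) := by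
        exact_mod_cast hle
      have h5 : (1 : ℝ) ≤ 2 ^ (20 * k) := one_le_pow₀ (by norm_num)
      nlinarith
    linarith

open Classical in
theorem nj_count : ∃ c : ℕ, ∀ k : ℕ, 1 ≤ k → ∀ w : ℕ → Bool, Pos w k → ∀ B : ℕ, 2 ≤ B → ∀ q : ℕ → ℕ,
    (∀ i, 1 ≤ q i ∧ q i ≤ B) → ∀ N : ℕ, (B : ℝ) ^ K2 c k ≤ N →
    ((((Ico N (2 * N)).filter (fun n : ℕ => ¬ NJ w q n (k - 1) B)).card : ℕ) : ℝ) ≤
      (N : ℝ) ^ (1 - 1 / (K2 c k : ℝ)) := by
  obtain ⟨c, hc⟩ := slowP_all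
  obtain ⟨cJ, hJ⟩ := jump_count
  refine ⟨200 + c + cJ, fun k hk w hw B hB q hq N hN => ?_⟩
  have hB1 : (1 : ℝ) ≤ B := by exact_mod_cast (by omega : 1 ≤ B)
  have hN1 : (1 : ℝ) ≤ N := le_trans (one_le_pow₀ hB1) hN
  set D := (2 ^ (20 * k)) ^ (2 * k + 2) * K2 c k with hDdef
  have hD1 : 1 ≤ D := Nat.mul_pos (by positivity) (K2_pos _ _)
  have hD0 : (0 : ℝ) < D := by exact_mod_cast hD1
  have hle : (2 ^ (20 * k)) ^ 2 * D ≤ K2 (120 + c) k := pow_R_le hk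
  have hND : (B : ℝ) ^ ((2 ^ (20 * k)) ^ 2 * D) ≤ N :=
    (pow_le_pow_right₀ hB1 (hle.trans (K2_mono k (by omega)))).trans hN
  have hN2 : (2 : ℝ) ^ ((2 ^ (20 * k)) ^ 2 * D) ≤ N := by
    refine le_trans ?_ hND
    gcongr
    exact_mod_cast hB
  have hDR : (2 ^ (20 * k)) ^ 2 ≤ D := by
    calc (2 ^ (20 * k)) ^ 2 ≤ (2 ^ (20 * k)) ^ (2 * k + 2) :=
            Nat.pow_le_pow_right (by positivity) (by omega)
        _ ≤ _ := Nat.le_mul_of_pos_right _ (K2_pos _ _)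
  have hρ : (1 : ℝ) / (4 * D) ≤ 1 / 2 ^ (k + 1) := by
    have h5 : ((2 : ℝ) ^ (20 * k)) ^ 2 ≤ D := by exact_mod_cast hDR
    have h6 : (2 : ℝ) ^ (k + 1) ≤ (2 ^ (20 * k)) ^ 2 := by
      rw [← pow_mul]
      exact pow_le_pow_right₀ (by norm_num) (by omega)
    apply one_div_le_one_div_of_le (by positivity)
    linarith
  have hj := hJ k hk w hw B hB q hq N ((pow_le_pow_right₀ hB1 (K2_mono k (by omega))).trans hN) 1
    le_rfl ?_ ⌈(N : ℝ) ^ (1 / (4 * (D : ℝ)))⌉₊ (1 / (4 * (D : ℝ))) (by positivity) hρ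
    (Nat.le_ceil _) (fifty_le hk hD1 hN2)
    (fun i hi1 hi2 _ l' hl1 hl2 => single_sum (hc k hk w hw k) hk hD1 hB hq hND hi1 hi2
      (rk_lt_k hi1 hi2) l' hl1 hl2)
  · calc ((((Ico N (2 * N)).filter (fun n : ℕ => ¬ NJ w q n (k - 1) B)).card : ℕ) : ℝ)
        ≤ ((((Ico N (2 * N)).filter (fun n : ℕ => ∃ i, 1 ≤ i ∧ i < k ∧ gq w i < 1 ∧
          ∃ h : ℕ, (h : ℝ) ≤ (N : ℝ) ^ (1 - 1 + 1 / 2 ^ (10 * k) : ℝ) ∧
            ct w q ((n : ℝ) + h) i ≠ ct w q n i)).card : ℕ) : ℝ) := by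
          apply Nat.cast_le.2
          apply card_le_card
          intro n hn'
          rw [mem_filter] at hn' ⊢
          refine ⟨hn'.1, ?_⟩
          have hn := hn'.2
          unfold NJ at hn
          push Not at hn
          obtain ⟨i, hi1, hi2, h, hh1, hh2⟩ := hn
          refine ⟨i, hi1, by omega, ?_, h, ?_, ?_⟩
          · have h5 := gq_upper w hi1
            have h6 : (0 : ℝ) < 1 / 2 ^ i := by positivity
            linarith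
          · refine hh1.trans ?_
            rw [sub_self, zero_add]
            have h7 : (B : ℝ) ^ 1 ≤ (N : ℝ) ^ (1 / 2 ^ (10 * k) : ℝ) := by
              apply absorb' hB1 hN
              rw [one_mul]
              exact two_pow_le_K2 hk (by omega)
            simpa using h7
          · intro h7
            apply hh2
            push_cast
            exact h7
      _ ≤ (N : ℝ) ^ (1 - 1 / (4 * (D : ℝ)) / 8) := hj
      _ ≤ _ := by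
          apply Real.rpow_le_rpow_of_exponent_le hN1
          have h8 : (1 : ℝ) / (K2 (200 + c + cJ) k : ℝ) ≤ 1 / (4 * (D : ℝ)) / 8 := by
            rw [div_div]
            apply one_div_le_one_div_of_le (by positivity)
            have h9 : 32 * D ≤ K2 (200 + c + cJ) k := by
              calc 32 * D ≤ (2 ^ (20 * k)) ^ 2 * D := by
                    apply Nat.mul_le_mul_right
                    rw [← pow_mul, show 32 = 2 ^ 5 by norm_num]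
                    exact Nat.pow_le_pow_right (by norm_num) (by omega)
                _ ≤ K2 (120 + c) k := hle
                _ ≤ _ := K2_mono k (by omega)
            have h10 : (32 : ℝ) * D ≤ (K2 (200 + c + cJ) k : ℝ) := by exact_mod_cast h9
            linarith
          linarith
  · intro i hi1 hi2 _
    have h5 := gq_upper w hi1
    have h6 : (1 : ℝ) / 2 ^ k ≤ 1 / 2 ^ i := by
      apply one_div_le_one_div_of_le (by positivity)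
      exact pow_le_pow_right₀ (by norm_num) hi2.le
    linarith

end Pool.Agent.Work.MP_215640_nt.Q
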