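import Pool.Agent.Work.MP_215640_nt.Q.Close
import Pool.Agent.Work.MP_215640_nt.Q.K2L

/-!
MODULE SMALL. Small shifts `x → x + h` change the models little, if the locked integers of the levels with `gq < γ`
do not change.
-/

set_option autoImplicit false

namespace Pool.Agent.Work.MP_215640_nt.Q

open Finset Polynomial

/-! ### calculus of bounds of the form `B ^ K2 a k` -/

theorem small_mono {B : ℝ} (hB : 2 ≤ B) {k : ℕ} {X : ℝ} {a b : ℕ} (hab : a ≤ b)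
    (hX : X ≤ B ^ K2 a k) : X ≤ B ^ K2 b k :=
  hX.trans (pow_le_pow_right₀ (by linarith) (K2_mono k hab))

theorem small_two_le {k : ℕ} (hk : 1 ≤ k) : 2 ≤ 2 ^ (1 * k) := by
  calc 2 = 2 ^ 1 := by norm_num
    _ ≤ 2 ^ (1 * k) := Nat.pow_le_pow_right (by norm_num) (by omega)

theorem small_mul {B : ℝ} (hB : 2 ≤ B) {k : ℕ} (hk : 1 ≤ k) {X Y : ℝ} {a b : ℕ} (hY0 : 0 ≤ Y)
    (hX : X ≤ B ^ K2 a k) (hY : Y ≤ B ^ K2 b k) : X * Y ≤ B ^ K2 (a + b + 1) k := by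
  have hB1 : 1 ≤ B := by linarith
  calc X * Y ≤ B ^ K2 a k * B ^ K2 b k := mul_le_mul hX hY hY0 (by positivity)
    _ = B ^ (K2 a k + K2 b k) := (pow_add _ _ _).symm
    _ ≤ B ^ K2 (a + b + 1) k := by
        apply pow_le_pow_right₀ hB1
        have h1 : K2 a k ≤ K2 (a + b) k := K2_mono k (by omega)
        have h2 : K2 b k ≤ K2 (a + b) k := K2_mono k (by omega)
        have h3 : K2 (a + b) k * 2 ^ (1 * k) ≤ K2 (a + b + 1) k := K2_mul_two_pow hk
        have h4 := small_two_le hk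
        have h5 : K2 (a + b) k * 2 ≤ K2 (a + b) k * 2 ^ (1 * k) := Nat.mul_le_mul_left _ h4
        omega

theorem small_add {B : ℝ} (hB : 2 ≤ B) {k : ℕ} (hk : 1 ≤ k) {X Y : ℝ} {a b : ℕ}
    (hX : X ≤ B ^ K2 a k) (hY : Y ≤ B ^ K2 b k) : X + Y ≤ B ^ K2 (a + b + 1) k := by
  have hB1 : 1 ≤ B := by linarith
  have hX' := small_mono hB (show a ≤ a + b by omega) hX
  have hY' := small_mono hB (show b ≤ a + b by omega) hY
  have h0 : 0 < B ^ K2 (a + b) k := by positivity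
  calc X + Y ≤ 2 * B ^ K2 (a + b) k := by linarith
    _ ≤ B * B ^ K2 (a + b) k := mul_le_mul_of_nonneg_right hB h0.le
    _ = B ^ (K2 (a + b) k + 1) := by rw [pow_succ, mul_comm]
    _ ≤ B ^ K2 (a + b + 1) k := by
        apply pow_le_pow_right₀ hB1
        have h1 := one_le_K2 (a + b) k
        have h3 : K2 (a + b) k * 2 ^ (1 * k) ≤ K2 (a + b + 1) k := K2_mul_two_pow hk
        have h4 := small_two_le hk
        have h5 : K2 (a + b) k * 2 ≤ K2 (a + b) k * 2 ^ (1 * k) := Nat.mul_le_mul_left _ h4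
        omega

theorem small_pow {B : ℝ} (hB : 2 ≤ B) {k : ℕ} (hk : 1 ≤ k) {X : ℝ} {a d : ℕ} (hX0 : 0 ≤ X)
    (hX : X ≤ B ^ K2 a k) (hd : d ≤ 2 ^ k) : X ^ d ≤ B ^ K2 (a + 1) k := by
  have hB1 : 1 ≤ B := by linarith
  calc X ^ d ≤ (B ^ K2 a k) ^ d := pow_le_pow_left₀ hX0 hX d
    _ = B ^ (K2 a k * d) := (pow_mul _ _ _).symm
    _ ≤ B ^ K2 (a + 1) k := by
        apply pow_le_pow_right₀ hB1
        have h3 : K2 a k * 2 ^ (1 * k) ≤ K2 (a + 1) k := K2_mul_two_pow hk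
        have h4 : K2 a k * d ≤ K2 a k * 2 ^ (1 * k) := Nat.mul_le_mul_left _ (by rwa [one_mul])
        omega

theorem small_const {B : ℝ} (hB : 2 ≤ B) {k : ℕ} (hk : 1 ≤ k) (n : ℕ) : (n : ℝ) ≤ B ^ K2 n k := by
  have hB1 : 1 ≤ B := by linarith
  have h1 : n ≤ K2 n k := by
    unfold K2
    calc n ≤ 2 ^ n := Nat.lt_two_pow_self.le
      _ ≤ 2 ^ (n * k ^ 2) :=
          Nat.pow_le_pow_right (by norm_num) (Nat.le_mul_of_pos_right n (by positivity))
  calc (n : ℝ) ≤ 2 ^ n := by exact_mod_cast Nat.lt_two_pow_self.le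
    _ ≤ B ^ n := pow_le_pow_left₀ (by norm_num) hB n
    _ ≤ B ^ K2 n k := pow_le_pow_right₀ hB1 h1

theorem small_T {B : ℝ} (hB : 2 ≤ B) {k : ℕ} (hk : 1 ≤ k) : (2 : ℝ) ^ k + 1 ≤ B ^ K2 1 k := by
  have hB1 : 1 ≤ B := by linarith
  have h1 : k + 1 ≤ K2 1 k := by
    unfold K2
    calc k + 1 ≤ 2 ^ k := Nat.lt_two_pow_self
      _ ≤ 2 ^ (1 * k ^ 2) := Nat.pow_le_pow_right (by norm_num) (by nlinarith)
  have h2 : (1 : ℝ) ≤ 2 ^ k := one_le_pow₀ (by norm_num)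
  calc (2 : ℝ) ^ k + 1 ≤ 2 ^ (k + 1) := by rw [pow_succ]; linarith
    _ ≤ B ^ (k + 1) := pow_le_pow_left₀ (by norm_num) hB _
    _ ≤ B ^ K2 1 k := pow_le_pow_right₀ hB1 h1

theorem small_B {B : ℝ} (hB : 2 ≤ B) (k : ℕ) : B ≤ B ^ K2 0 k := by
  have hB1 : 1 ≤ B := by linarith
  calc B = B ^ 1 := (pow_one B).symm
    _ ≤ B ^ K2 0 k := pow_le_pow_right₀ hB1 (one_le_K2 0 k)

theorem small_dq {w : ℕ → Bool} {j k : ℕ} (hj : j ≤ k) : dq w j ≤ 2 ^ k :=
  (dq_le w j).trans (Nat.pow_le_pow_right (by norm_num) hj)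

theorem small_dq' {w : ℕ → Bool} {j k : ℕ} (hj : j ≤ k) : (dq w j : ℝ) ≤ 2 ^ k := by
  exact_mod_cast small_dq hj

/-! ### powers -/

theorem small_rpow_neg {s g : ℝ} (hs : 0 ≤ s) (hg0 : 0 ≤ g) (hg1 : g ≤ 1) :
    |(1 + s) ^ (-g) - 1| ≤ s := by
  have h1 : (1 + s) ^ (-g) ≤ 1 := Real.rpow_le_one_of_one_le_of_nonpos (by linarith) (by linarith)
  have h2 : (1 + s) ^ (-1 : ℝ) ≤ (1 + s) ^ (-g) :=
    Real.rpow_le_rpow_of_exponent_le (by linarith) (by linarith)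
  have h3 : 1 - s ≤ (1 + s) ^ (-1 : ℝ) := by
    rw [Real.rpow_neg_one, ← one_div, le_div_iff₀ (by linarith)]
    nlinarith
  rw [abs_le]
  constructor <;> linarith

theorem small_rpow_pos {s g : ℝ} (hs : 0 ≤ s) (hg0 : 0 ≤ g) (hg1 : g ≤ 1) :
    |(1 + s) ^ g - 1| ≤ s := by
  have h1 : 1 ≤ (1 + s) ^ g := Real.one_le_rpow (by linarith) hg0
  have h2 : (1 + s) ^ g ≤ (1 + s) ^ (1 : ℝ) :=
    Real.rpow_le_rpow_of_exponent_le (by linarith) hg1
  rw [Real.rpow_one] at h2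
  rw [abs_le]
  constructor <;> linarith

theorem small_split {x h g : ℝ} (hx : 0 < x) (hh : 0 ≤ h) :
    (x + h) ^ g = x ^ g * (1 + h / x) ^ g := by
  rw [← Real.mul_rpow hx.le (by positivity)]
  congr 1
  field_simp

/-! ### the coefficients -/

/-- the rounding error of the top coefficient -/
theorem small_top (w : ℕ → Bool) (q : ℕ → ℕ) {x : ℝ} (hx : 0 < x) (j : ℕ) :
    |(al w q x (j + 1)).coeff (dq w (j + 1)) -
      (q (j + 1) : ℝ) ^ dq w (j + 1) * (bs w j (al w q x j)).coeff (dq w (j + 1))| ≤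
      x ^ (-gq w (j + 1)) := by
  rw [al_coeff_top]
  unfold ct sl
  rw [Nat.add_sub_cancel]
  obtain ⟨y, hy⟩ : ∃ y, (q (j + 1) : ℝ) ^ dq w (j + 1) *
    (x ^ gq w (j + 1) * (bs w j (al w q x j)).coeff (dq w (j + 1)) / 2) = y := ⟨_, rfl⟩
  rw [hy]
  have hxg : 0 < x ^ (-gq w (j + 1)) := Real.rpow_pos_of_pos hx _
  have hxx : x ^ (-gq w (j + 1)) * x ^ gq w (j + 1) = 1 := by
    rw [← Real.rpow_add hx, neg_add_cancel, Real.rpow_zero]
  have h1 : (q (j + 1) : ℝ) ^ dq w (j + 1) * (bs w j (al w q x j)).coeff (dq w (j + 1)) =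
      x ^ (-gq w (j + 1)) * (2 * y) := by
    rw [← hy]
    linear_combination (-(q (j + 1) : ℝ) ^ dq w (j + 1) *
      (bs w j (al w q x j)).coeff (dq w (j + 1))) * hxx
  rw [h1, ← mul_sub, abs_mul, abs_of_pos hxg]
  have h2 : |2 * ((round y : ℤ) : ℝ) - 2 * y| ≤ 1 := by
    have h3 := abs_sub_round y
    rw [← mul_sub, abs_mul, abs_sub_comm, abs_of_pos (by norm_num : (0 : ℝ) < 2)]
    linarith
  calc x ^ (-gq w (j + 1)) * |2 * ((round y : ℤ) : ℝ) - 2 * y| ≤ x ^ (-gq w (j + 1)) * 1 :=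
        mul_le_mul_of_nonneg_left h2 hxg.le
    _ = x ^ (-gq w (j + 1)) := mul_one _

/-- change of the frozen top coefficient -/
theorem small_frozen (w : ℕ → Bool) (q : ℕ → ℕ) {x h : ℝ} (hx : 0 < x) (hh : 0 ≤ h) (j : ℕ)
    (hct : ct w q (x + h) (j + 1) = ct w q x (j + 1)) :
    (al w q (x + h) (j + 1)).coeff (dq w (j + 1)) =
      (1 + h / x) ^ (-gq w (j + 1)) * (al w q x (j + 1)).coeff (dq w (j + 1)) := by
  rw [al_coeff_top, al_coeff_top, hct, small_split hx hh]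
  ring

theorem small_sub_one {P : ℝ[X]} {R : ℝ} (h : nm P ≤ R) : nm (P - 1) ≤ R + 1 := by
  refine (nm_sub_le _ _).trans ?_
  rw [nm_one]
  linarith

theorem small_lip (w : ℕ → Bool) {k j : ℕ} (hj : j + 1 ≤ k) (P Q : ℝ[X]) (R : ℝ) (hR : 1 ≤ R)
    (h : nm (P - 1) ≤ R) (h' : nm (Q - 1) ≤ R) :
    nm (bs w j P - bs w j Q) ≤ 2 * ((2 : ℝ) ^ k + 1) ^ 2 * R ^ (2 ^ k) * nm (P - Q) := by
  refine (bs_lip w j P Q R hR h h').trans ?_
  apply mul_le_mul_of_nonneg_right _ (nm_nonneg _)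
  have h1 : (dq w (j + 1) : ℝ) ≤ 2 ^ k := small_dq' hj
  have h0 : (0 : ℝ) ≤ dq w (j + 1) := Nat.cast_nonneg _
  have h2 : R ^ dq w (j + 1) ≤ R ^ (2 ^ k) := pow_le_pow_right₀ hR (small_dq hj)
  have h3 : ((dq w (j + 1) : ℝ) + 1) ^ 2 ≤ ((2 : ℝ) ^ k + 1) ^ 2 := by gcongr
  exact mul_le_mul (by linarith) h2 (by positivity) (by positivity)

/-- one step of the recursion -/
theorem small_rec (w : ℕ → Bool) (q : ℕ → ℕ) {k : ℕ} {B : ℝ} (hB : 2 ≤ B)
    (hq : ∀ i, (q i : ℝ) ≤ B) {x h γ R0 : ℝ} (hx : 1 ≤ x) (hh : 0 ≤ h) (hR0 : 1 ≤ R0) {j : ℕ}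
    (hj : j + 1 < k) (h1 : nm (al w q x j) ≤ R0) (h2 : nm (al w q (x + h) j) ≤ R0)
    (h3 : nm (al w q x (j + 1)) ≤ R0)
    (hfr : gq w (j + 1) < γ → ct w q (x + h) (j + 1) = ct w q x (j + 1)) :
    nm (al w q (x + h) (j + 1) - al w q x (j + 1)) ≤
      ((2 : ℝ) ^ k + 1) * (B ^ (2 ^ k) * (2 * ((2 : ℝ) ^ k + 1) ^ 2 * (R0 + 1) ^ (2 ^ k)) + R0 + 2) *
        (nm (al w q (x + h) j - al w q x j) + (h / x + x ^ (-γ))) := by
  have hx0 : 0 < x := by linarith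
  have hB1 : 1 ≤ B := by linarith
  set Δ := nm (al w q (x + h) j - al w q x j) with hΔ
  have hΔ0 : 0 ≤ Δ := nm_nonneg _
  set L := 2 * ((2 : ℝ) ^ k + 1) ^ 2 * (R0 + 1) ^ (2 ^ k) with hL
  have hL0 : 0 ≤ L := by positivity
  set η := h / x + x ^ (-γ) with hη
  have hs0 : 0 ≤ h / x := by positivity
  have hxγ : 0 < x ^ (-γ) := Real.rpow_pos_of_pos hx0 _
  have hη0 : 0 ≤ η := by positivity
  have hbs : nm (bs w j (al w q (x + h) j) - bs w j (al w q x j)) ≤ L * Δ :=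
    small_lip w hj.le _ _ (R0 + 1) (by linarith) (small_sub_one h2) (small_sub_one h1)
  have hqr : ∀ r ≤ dq w (j + 1), ((q (j + 1) : ℝ) ^ r) ≤ B ^ (2 ^ k) := by
    intro r hr
    calc (q (j + 1) : ℝ) ^ r ≤ B ^ r := pow_le_pow_left₀ (Nat.cast_nonneg _) (hq _) r
      _ ≤ B ^ (2 ^ k) := pow_le_pow_right₀ hB1 (hr.trans (small_dq hj.le))
  have hcoef : ∀ r ≤ dq w (j + 1), |(q (j + 1) : ℝ) ^ r *
      ((bs w j (al w q (x + h) j)).coeff r - (bs w j (al w q x j)).coeff r)| ≤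
        B ^ (2 ^ k) * (L * Δ) := by
    intro r hr
    rw [abs_mul, abs_of_nonneg (by positivity : (0 : ℝ) ≤ (q (j + 1) : ℝ) ^ r), ← coeff_sub]
    exact mul_le_mul (hqr r hr) ((abs_coeff_le_nm _ _).trans hbs) (abs_nonneg _) (by positivity)
  have hmain : ∀ r ≤ dq w (j + 1), |(al w q (x + h) (j + 1) - al w q x (j + 1)).coeff r| ≤
      B ^ (2 ^ k) * (L * Δ) + (R0 + 2) * η := by
    intro r hr
    have hRη : 0 ≤ (R0 + 2) * η := by positivity
    rcases lt_or_eq_of_le hr with hr' | hr'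
    · rw [coeff_sub, al_coeff_lt w q _ _ _ hr', al_coeff_lt w q _ _ _ hr', ← mul_sub]
      have := hcoef r hr
      linarith
    · rw [hr', coeff_sub]
      have hBL : 0 ≤ B ^ (2 ^ k) * (L * Δ) := by positivity
      by_cases hg : gq w (j + 1) < γ
      · rw [small_frozen w q hx0 hh j (hfr hg), ← sub_one_mul, abs_mul]
        have h4 := small_rpow_neg hs0 (gq_nonneg w (j + 1))
          ((gq_upper w (by omega : 1 ≤ j + 1)).trans (by
            have : (0 : ℝ) ≤ 1 / 2 ^ (j + 1) := by positivity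
            linarith))
        have h5 : |(al w q x (j + 1)).coeff (dq w (j + 1))| ≤ R0 :=
          (abs_coeff_le_nm _ _).trans h3
        have h6 : |(1 + h / x) ^ (-gq w (j + 1)) - 1| * |(al w q x (j + 1)).coeff (dq w (j + 1))| ≤
            h / x * R0 := mul_le_mul h4 h5 (abs_nonneg _) hs0
        have h7 : h / x * R0 ≤ (R0 + 2) * η := by
          rw [hη, mul_comm]
          apply mul_le_mul (by linarith) (by linarith) hs0 (by linarith)
        linarith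
      · push Not at hg
        have h4 := small_top w q (x := x) hx0 j
        have h5 := small_top w q (x := x + h) (by linarith) j
        have h6 := hcoef (dq w (j + 1)) le_rfl
        have h7 : x ^ (-gq w (j + 1)) ≤ x ^ (-γ) :=
          Real.rpow_le_rpow_of_exponent_le hx (by linarith)
        have h8 : (x + h) ^ (-gq w (j + 1)) ≤ x ^ (-gq w (j + 1)) :=
          Real.rpow_le_rpow_of_nonpos hx0 (by linarith)
            (by have := gq_nonneg w (j + 1); linarith)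
        have e : (al w q (x + h) (j + 1)).coeff (dq w (j + 1)) -
            (al w q x (j + 1)).coeff (dq w (j + 1)) =
            ((al w q (x + h) (j + 1)).coeff (dq w (j + 1)) -
              (q (j + 1) : ℝ) ^ dq w (j + 1) *
                (bs w j (al w q (x + h) j)).coeff (dq w (j + 1))) -
            ((al w q x (j + 1)).coeff (dq w (j + 1)) -
              (q (j + 1) : ℝ) ^ dq w (j + 1) * (bs w j (al w q x j)).coeff (dq w (j + 1))) +
            (q (j + 1) : ℝ) ^ dq w (j + 1) * ((bs w j (al w q (x + h) j)).coeff (dq w (j + 1)) -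
              (bs w j (al w q x j)).coeff (dq w (j + 1))) := by ring
        rw [e]
        refine (abs_add_le _ _).trans ?_
        have h9 := (abs_sub ((al w q (x + h) (j + 1)).coeff (dq w (j + 1)) -
              (q (j + 1) : ℝ) ^ dq w (j + 1) *
                (bs w j (al w q (x + h) j)).coeff (dq w (j + 1)))
            ((al w q x (j + 1)).coeff (dq w (j + 1)) -
              (q (j + 1) : ℝ) ^ dq w (j + 1) * (bs w j (al w q x j)).coeff (dq w (j + 1))))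
        have h10 : 2 * x ^ (-γ) ≤ (R0 + 2) * η := by
          rw [hη]
          apply mul_le_mul (by linarith) (by linarith) hxγ.le (by linarith)
        linarith
  have hdeg : (al w q (x + h) (j + 1) - al w q x (j + 1)).natDegree ≤ dq w (j + 1) :=
    (natDegree_sub_le_of_le (natDegree_models w q (x + h) 0 (j + 1)).1
      (natDegree_models w q x 0 (j + 1)).1).trans (max_self _).le
  refine (nm_le_of_coeff _ _ hdeg _ hmain).trans ?_
  have hd : (dq w (j + 1) : ℝ) ≤ 2 ^ k := small_dq' hj.le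
  have hnn : 0 ≤ B ^ (2 ^ k) * (L * Δ) + (R0 + 2) * η := by positivity
  calc ((dq w (j + 1) : ℝ) + 1) * (B ^ (2 ^ k) * (L * Δ) + (R0 + 2) * η) ≤
        ((2 : ℝ) ^ k + 1) * (B ^ (2 ^ k) * (L * Δ) + (R0 + 2) * η) :=
        mul_le_mul_of_nonneg_right (by linarith) hnn
    _ ≤ ((2 : ℝ) ^ k + 1) * ((B ^ (2 ^ k) * L + R0 + 2) * (Δ + η)) := by
        apply mul_le_mul_of_nonneg_left _ (by positivity)
        have h4 : 0 ≤ B ^ (2 ^ k) * L * η := by positivity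
        have h5 : 0 ≤ (R0 + 2) * Δ := by positivity
        nlinarith
    _ = _ := by ring

theorem al_small : ∃ c : ℕ, ∀ k : ℕ, 1 ≤ k → ∀ w : ℕ → Bool, Pos w k → ∀ B : ℕ, 2 ≤ B → ∀ q : ℕ → ℕ,
    (∀ i, 1 ≤ q i ∧ q i ≤ B) → ∀ x : ℝ, (B : ℝ) ^ K2 c k ≤ x → ∀ h : ℕ, (h : ℝ) ≤ x → ∀ γ : ℝ, 0 < γ →
    ∀ j < k, (∀ i, 1 ≤ i → i ≤ j → gq w i < γ → ct w q (x + h) i = ct w q x i) →
    nm (al w q (x + h) j - al w q x j) ≤ (B : ℝ) ^ K2 c k * (h / x + x ^ (-γ)) := by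
  obtain ⟨c0, hclose⟩ := al_close
  -- the bound for one step
  have hA : ∃ c1 : ℕ, c0 ≤ c1 ∧ ∀ k : ℕ, 1 ≤ k → ∀ B : ℝ, 2 ≤ B →
      2 * (((2 : ℝ) ^ k + 1) * (B ^ (2 ^ k) * (2 * ((2 : ℝ) ^ k + 1) ^ 2 *
        (B ^ K2 c0 k + 1) ^ (2 ^ k)) + B ^ K2 c0 k + 2)) ≤ B ^ K2 c1 k := by
    refine ⟨2 * c0 + 100, by omega, fun k hk B hB => ?_⟩
    · have hB0 : (0 : ℝ) ≤ B := by linarith
      have hT := small_T hB hk
      have hT0 : (0 : ℝ) ≤ (2 : ℝ) ^ k + 1 := by positivity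
      have h2 := small_const hB hk 2
      have h1 := small_const hB hk 1
      have hBk := small_pow hB hk hB0 (small_B hB k) (le_refl (2 ^ k))
      have hTT := small_mul hB hk hT0 hT hT
      have hR : B ^ K2 c0 k + 1 ≤ B ^ K2 (c0 + 1 + 1) k := by
        have := small_add hB hk (le_refl (B ^ K2 c0 k)) h1
        simpa using this
      have hRk := small_pow hB hk (by positivity : (0 : ℝ) ≤ B ^ K2 c0 k + 1) hR (le_refl (2 ^ k))
      have s1 := small_mul hB hk (by positivity : (0 : ℝ) ≤ ((2 : ℝ) ^ k + 1) * ((2 : ℝ) ^ k + 1))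
        h2 hTT
      have s2 := small_mul hB hk (by positivity : (0 : ℝ) ≤ (B ^ K2 c0 k + 1) ^ (2 ^ k)) s1 hRk
      have s3 := small_mul hB hk (by positivity) hBk s2
      have s4 := small_add hB hk s3 (le_refl (B ^ K2 c0 k))
      have s5 := small_add hB hk s4 h2
      have s6 := small_mul hB hk (by positivity) hT s5
      have s7 := small_mul hB hk (by positivity) h2 s6
      push_cast at s7
      rw [pow_two ((2 : ℝ) ^ k + 1)]
      exact small_mono hB (by omega) s7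
  obtain ⟨c1, hc01, hA⟩ := hA
  refine ⟨c1 + 1, ?_⟩
  intro k hk w hw B hB q hq x hx h hhx γ hγ j hj hfr
  have hBr : (2 : ℝ) ≤ B := by exact_mod_cast hB
  have hB1 : (1 : ℝ) ≤ B := by linarith
  have hx0 : (B : ℝ) ^ K2 c0 k ≤ x := pow_K2_mono hB1 (by omega) hx
  have hR0 : (1 : ℝ) ≤ (B : ℝ) ^ K2 c0 k := one_le_pow₀ hB1
  have hx1 : 1 ≤ x := hR0.trans hx0
  have hh0 : (0 : ℝ) ≤ (h : ℝ) := Nat.cast_nonneg _
  set η := (h : ℝ) / x + x ^ (-γ) with hη
  have hη0 : 0 ≤ η := by positivity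
  set A := ((2 : ℝ) ^ k + 1) * ((B : ℝ) ^ (2 ^ k) * (2 * ((2 : ℝ) ^ k + 1) ^ 2 *
        ((B : ℝ) ^ K2 c0 k + 1) ^ (2 ^ k)) + (B : ℝ) ^ K2 c0 k + 2) with hAdef
  have hA1 : 1 ≤ A := by
    have g1 : (1 : ℝ) ≤ (2 : ℝ) ^ k + 1 := by
      have : (0 : ℝ) ≤ (2 : ℝ) ^ k := by positivity
      linarith
    have g2 : (1 : ℝ) ≤ (B : ℝ) ^ (2 ^ k) * (2 * ((2 : ℝ) ^ k + 1) ^ 2 *
        ((B : ℝ) ^ K2 c0 k + 1) ^ (2 ^ k)) + (B : ℝ) ^ K2 c0 k + 2 := by
      have : (0 : ℝ) ≤ (B : ℝ) ^ (2 ^ k) * (2 * ((2 : ℝ) ^ k + 1) ^ 2 *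
        ((B : ℝ) ^ K2 c0 k + 1) ^ (2 ^ k)) := by positivity
      linarith
    calc (1 : ℝ) = 1 * 1 := by norm_num
      _ ≤ A := mul_le_mul g1 g2 (by norm_num) (by linarith)
  have hind : ∀ i, i < k → (∀ l, 1 ≤ l → l ≤ i → gq w l < γ → ct w q (x + h) l = ct w q x l) →
      nm (al w q (x + h) i - al w q x i) ≤ (2 * A) ^ i * η := by
    intro i
    induction i with
    | zero =>
      intro _ _
      have : al w q (x + h) 0 - al w q x 0 = 0 := by
        show (1 + C (q 0 : ℝ) * X) - (1 + C (q 0 : ℝ) * X) = 0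
        ring
      rw [this, nm_zero]
      positivity
    | succ i ih =>
      intro hik hfri
      have h1 := ih (by omega) (fun l hl1 hl2 => hfri l hl1 (by omega))
      have h2 := small_rec w q hBr (fun i => by exact_mod_cast (hq i).2) hx1 hh0 hR0 hik
        (hclose k hk w hw B hB q hq x hx0 i (by omega)).1
        (hclose k hk w hw B hB q hq (x + h) (by linarith) i (by omega)).1
        (hclose k hk w hw B hB q hq x hx0 (i + 1) hik).1
        (fun hg => hfri (i + 1) (by omega) le_rfl hg)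
      refine h2.trans ?_
      rw [← hAdef, ← hη]
      have h3 : 1 ≤ (2 * A) ^ i := one_le_pow₀ (by linarith)
      calc A * (nm (al w q (x + h) i - al w q x i) + η) ≤ A * ((2 * A) ^ i * η + (2 * A) ^ i * η) := by
            apply mul_le_mul_of_nonneg_left _ (by linarith)
            have : η ≤ (2 * A) ^ i * η := le_mul_of_one_le_left hη0 h3
            linarith
        _ = (2 * A) ^ (i + 1) * η := by ring
  refine (hind j hj hfr).trans (mul_le_mul_of_nonneg_right ?_ hη0)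
  have h2A := hA k hk B hBr
  rw [← hAdef] at h2A
  exact small_pow hBr hk (by linarith) h2A (hj.le.trans Nat.lt_two_pow_self.le)

theorem sl_small : ∃ c : ℕ, ∀ k : ℕ, 1 ≤ k → ∀ w : ℕ → Bool, Pos w k → ∀ B : ℕ, 2 ≤ B → ∀ q : ℕ → ℕ,
    (∀ i, 1 ≤ q i ∧ q i ≤ B) → ∀ x : ℝ, (B : ℝ) ^ K2 c k ≤ x → ∀ h : ℕ, (h : ℝ) ≤ x → ∀ γ : ℝ, 0 < γ →
    ∀ j, 1 ≤ j → j < k → (∀ i, 1 ≤ i → i < j → gq w i < γ → ct w q (x + h) i = ct w q x i) →
    |sl w q (x + h) j - sl w q x j| ≤ (B : ℝ) ^ K2 c k * x ^ gq w j * (h / x + x ^ (-γ)) := by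
  obtain ⟨c0, hclose⟩ := al_close
  obtain ⟨c1, hsmall⟩ := al_small
  -- the final constant
  have hA : ∃ c2 : ℕ, c0 ≤ c2 ∧ c1 ≤ c2 ∧ ∀ k : ℕ, 1 ≤ k → ∀ B : ℝ, 2 ≤ B →
      2 * ((2 : ℝ) ^ k + 1) ^ 2 * (B ^ K2 c0 k + 1) ^ (2 ^ k) * (1 + B ^ K2 c1 k) ≤
        B ^ K2 c2 k := by
    refine ⟨c0 + c1 + 100, by omega, by omega, fun k hk B hB => ?_⟩
    · have hB0 : (0 : ℝ) ≤ B := by linarith
      have hT := small_T hB hk
      have hT0 : (0 : ℝ) ≤ (2 : ℝ) ^ k + 1 := by positivity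
      have h2 := small_const hB hk 2
      have h1 := small_const hB hk 1
      have hTT := small_mul hB hk hT0 hT hT
      have hR : B ^ K2 c0 k + 1 ≤ B ^ K2 (c0 + 1 + 1) k := by
        have := small_add hB hk (le_refl (B ^ K2 c0 k)) h1
        simpa using this
      have hRk := small_pow hB hk (by positivity : (0 : ℝ) ≤ B ^ K2 c0 k + 1) hR (le_refl (2 ^ k))
      have s1 := small_mul hB hk (by positivity : (0 : ℝ) ≤ ((2 : ℝ) ^ k + 1) * ((2 : ℝ) ^ k + 1))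
        h2 hTT
      have s2 := small_mul hB hk (by positivity : (0 : ℝ) ≤ (B ^ K2 c0 k + 1) ^ (2 ^ k)) s1 hRk
      have s3 := small_add hB hk h1 (le_refl (B ^ K2 c1 k))
      have s4 := small_mul hB hk (by positivity) s2 s3
      push_cast at s4
      rw [pow_two ((2 : ℝ) ^ k + 1)]
      exact small_mono hB (by omega) s4
  obtain ⟨c2, hc02, hc12, hA⟩ := hA
  refine ⟨c2, ?_⟩
  intro k hk w hw B hB q hq x hx h hhx γ hγ j hj1 hjk hfr
  obtain ⟨i, rfl⟩ : ∃ i, j = i + 1 := ⟨j - 1, by omega⟩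
  have hBr : (2 : ℝ) ≤ B := by exact_mod_cast hB
  have hB1 : (1 : ℝ) ≤ B := by linarith
  have hx0 : (B : ℝ) ^ K2 c0 k ≤ x := pow_K2_mono hB1 hc02 hx
  have hR0 : (1 : ℝ) ≤ (B : ℝ) ^ K2 c0 k := one_le_pow₀ hB1
  have hx1 : 1 ≤ x := hR0.trans hx0
  have hxp : 0 < x := by linarith
  have hh0 : (0 : ℝ) ≤ (h : ℝ) := Nat.cast_nonneg _
  have hs0 : (0 : ℝ) ≤ (h : ℝ) / x := by positivity
  have hs1 : (h : ℝ) / x ≤ 1 := (div_le_one hxp).mpr hhx
  set η := (h : ℝ) / x + x ^ (-γ) with hη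
  have hη0 : 0 ≤ η := by positivity
  have hsη : (h : ℝ) / x ≤ η := by
    rw [hη]
    have : 0 ≤ x ^ (-γ) := (Real.rpow_pos_of_pos hxp _).le
    linarith
  have hg0 := gq_nonneg w (i + 1)
  have hg1 : gq w (i + 1) ≤ 1 := (gq_upper w (by omega : 1 ≤ i + 1)).trans (by
            have : (0 : ℝ) ≤ 1 / 2 ^ (i + 1) := by positivity
            linarith)
  have hxg : 0 < x ^ gq w (i + 1) := Real.rpow_pos_of_pos hxp _
  have hΔ := hsmall k hk w hw B hB q hq x (pow_K2_mono hB1 hc12 hx) h hhx γ hγ i (by omega)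
    (fun l hl1 hl2 => hfr l hl1 (by omega))
  have hP := (hclose k hk w hw B hB q hq x hx0 i (by omega)).1
  have hP' := (hclose k hk w hw B hB q hq (x + h) (by linarith) i (by omega)).1
  set R0 := (B : ℝ) ^ K2 c0 k with hR0def
  have hlip := small_lip w hjk.le (al w q (x + h) i) (al w q x i) (R0 + 1) (by linarith)
    (small_sub_one hP') (small_sub_one hP)
  set L := 2 * ((2 : ℝ) ^ k + 1) ^ 2 * (R0 + 1) ^ (2 ^ k) with hL
  have hL0 : 0 ≤ L := by positivity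
  set β := (bs w i (al w q x i)).coeff (dq w (i + 1)) with hβ
  set β' := (bs w i (al w q (x + h) i)).coeff (dq w (i + 1)) with hβ'
  have hββ : |β' - β| ≤ L * ((B : ℝ) ^ K2 c1 k * η) := by
    rw [hβ, hβ', ← coeff_sub]
    exact (abs_coeff_le_nm _ _).trans (hlip.trans (mul_le_mul_of_nonneg_left hΔ hL0))
  have hβb : |β'| ≤ L := by
    rw [hβ']
    refine (abs_coeff_le_nm _ _).trans ((bs_nm w i _ (R0 + 1) (by linarith)
      (small_sub_one hP')).trans ?_)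
    have hd : (dq w (i + 1) : ℝ) ≤ 2 ^ k := small_dq' hjk.le
    have hRd : (R0 + 1) ^ dq w (i + 1) ≤ (R0 + 1) ^ (2 ^ k) :=
      pow_le_pow_right₀ (by linarith) (small_dq hjk.le)
    have h1 : 2 * ((dq w (i + 1) : ℝ) + 1) ≤ 2 * ((2 : ℝ) ^ k + 1) ^ 2 := by
      have h0 : (0 : ℝ) ≤ (2 : ℝ) ^ k := by positivity
      nlinarith
    exact mul_le_mul h1 hRd (by positivity) (by positivity)
  have e : sl w q (x + h) (i + 1) - sl w q x (i + 1) =
      x ^ gq w (i + 1) / 2 * (((1 + (h : ℝ) / x) ^ gq w (i + 1) - 1) * β' + (β' - β)) := by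
    unfold sl
    rw [Nat.add_sub_cancel, small_split hxp hh0, ← hβ, ← hβ']
    ring
  rw [e, abs_mul, abs_of_pos (by positivity)]
  have h1 : |((1 + (h : ℝ) / x) ^ gq w (i + 1) - 1) * β' + (β' - β)| ≤
      L * (1 + (B : ℝ) ^ K2 c1 k) * η := by
    refine (abs_add_le _ _).trans ?_
    have h2 : |((1 + (h : ℝ) / x) ^ gq w (i + 1) - 1) * β'| ≤ η * L := by
      rw [abs_mul]
      exact mul_le_mul ((small_rpow_pos hs0 hg0 hg1).trans hsη) hβb (abs_nonneg _) hη0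
    calc |((1 + (h : ℝ) / x) ^ gq w (i + 1) - 1) * β'| + |β' - β| ≤
          η * L + L * ((B : ℝ) ^ K2 c1 k * η) := add_le_add h2 hββ
      _ = L * (1 + (B : ℝ) ^ K2 c1 k) * η := by ring
  have h3 := hA k hk B hBr
  rw [← hR0def, ← hL] at h3
  calc x ^ gq w (i + 1) / 2 * |((1 + (h : ℝ) / x) ^ gq w (i + 1) - 1) * β' + (β' - β)| ≤
        x ^ gq w (i + 1) / 2 * (L * (1 + (B : ℝ) ^ K2 c1 k) * η) :=
        mul_le_mul_of_nonneg_left h1 (by positivity)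
    _ ≤ x ^ gq w (i + 1) / 2 * ((B : ℝ) ^ K2 c2 k * η) := by
        apply mul_le_mul_of_nonneg_left _ (by positivity)
        exact mul_le_mul_of_nonneg_right h3 hη0
    _ ≤ (B : ℝ) ^ K2 c2 k * x ^ gq w (i + 1) * η := by
        have h4 : 0 ≤ (B : ℝ) ^ K2 c2 k * x ^ gq w (i + 1) * η := by positivity
        nlinarith

end Pool.Agent.Work.MP_215640_nt.Q
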