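import Pool.Agent.Work.MP_215640_nt.Q.Small
import Pool.Agent.Work.MP_215640_nt.Q.K2L

/-!
MODULE TOPCLOSE. The top coefficient of the polynomial of the next level is close to the slow number of the base point `n0`.

Let `d = dq w (j+1)`, `g = gq w (j+1)`, `c = cc w (j+1) = d + g`. `(hp w n j Z).coeff d = n^c/2 * n^(-d) * (bs w j (zh w n j Z)).coeff d =
n^g/2 * (bs w j (zh w n j Z)).coeff d` (`coeff_scale`), and `sl w q n (j+1) = n^g/2 * (bs w j (al w q n j)).coeff d`. By `Val.near`, `Val.top`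
`nm (zh - al) ≤ (d_j + 1) kaj`, so by `bs_lip` (`R = B^(K2 c k) + 2`) the difference is at most
`(3N)^g B^(K2 a k) N^(1/2^(11k) - 1) ≤ N^(-1/2^k)` (`g ≤ 1 - 1/2^(k-1)`, `n ≤ 3N`). Next `|sl w q n (j+1) - sl w q n0 (j+1)| ≤
B^(K2 c k) (2N)^g (B/N + N^(-2))` by `sl_small` with `x = n0`, `h = n - n0 ≤ B`, `γ = 2` (all levels `i ≤ j` frozen by `NJ`).
`natDegree_hp`: from the truncation.
-/

set_option autoImplicit false

namespace Pool.Agent.Work.MP_215640_nt.Q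

open Finset Polynomial

theorem natDegree_hp (w : ℕ → Bool) (n j : ℕ) (Z : ℝ[X]) : (hp w n j Z).natDegree ≤ dq w (j + 1) := by
  unfold hp
  refine (natDegree_C_mul_le _ _).trans ?_
  refine (natDegree_scale _ _).trans ?_
  exact bs_natDegree w j _

private theorem tc_two_mul (c k : ℕ) (hk : 1 ≤ k) : 2 * K2 c k ≤ K2 (c + 1) k := by
  rw [K2_add, mul_comm]
  refine Nat.mul_le_mul_left _ ?_
  have := two_pow_le_K2 (c := 1) (k := k) (a := 1) hk le_rfl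
  refine le_trans ?_ this
  calc 2 = 2 ^ 1 := rfl
    _ ≤ 2 ^ (1 * k) := Nat.pow_le_pow_right (by norm_num) (by omega)

private theorem tc_pow_le (k : ℕ) (hk : 1 ≤ k) : 2 ^ k ≤ K2 1 k := by
  simpa using two_pow_le_K2 (c := 1) (k := k) (a := 1) hk le_rfl

/-- the coefficient of the next level -/
private theorem tc_hp_coeff (w : ℕ → Bool) (n j : ℕ) (hn : 1 ≤ n) (Z : ℝ[X]) :
    (hp w n j Z).coeff (dq w (j + 1)) =
      (n : ℝ) ^ gq w (j + 1) * (bs w j (zh w n j Z)).coeff (dq w (j + 1)) / 2 := by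
  have hn0 : (0 : ℝ) < n := by exact_mod_cast (by omega : 0 < n)
  unfold hp
  rw [coeff_C_mul, coeff_scale, cc_eq_add, Real.rpow_add hn0, Real.rpow_natCast]
  have h1 : (n : ℝ) ^ dq w (j + 1) * ((n : ℝ)⁻¹) ^ dq w (j + 1) = 1 := by
    rw [← mul_pow, mul_inv_cancel₀ hn0.ne', one_pow]
  linear_combination ((n : ℝ) ^ gq w (j + 1) *
    (bs w j (zh w n j Z)).coeff (dq w (j + 1)) / 2) * h1

private theorem tc_near (w : ℕ → Bool) (q : ℕ → ℕ) (ka : ℝ) (hka : 0 ≤ ka) (L n j : ℕ) (Z : ℝ[X])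
    (hV : Val w q ka L n j Z) : nm (zh w n j Z - al w q n j) ≤ (dq w j + 1) * ka := by
  have hdeg : (zh w n j Z - al w q n j).natDegree ≤ dq w j := by
    refine (natDegree_sub_le _ _).trans (max_le ?_ (natDegree_models w q n 0 j).1)
    unfold zh
    exact (natDegree_C_mul_le _ _).trans ((natDegree_scale _ _).trans hV.deg)
  refine nm_le_of_coeff _ _ hdeg _ fun r hr => ?_
  rw [coeff_sub]
  rcases lt_or_eq_of_le hr with h | h
  · exact hV.near r h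
  · rw [h, hV.top, sub_self, abs_zero]
    exact hka

theorem top_close : ∃ c : ℕ, ∀ k : ℕ, 1 ≤ k → ∀ w : ℕ → Bool, Pos w k → ∀ B : ℕ, 2 ≤ B → ∀ q : ℕ → ℕ,
    (∀ i, 1 ≤ q i ∧ q i ≤ B) → ∀ N : ℕ, (B : ℝ) ^ K2 c k ≤ N → ∀ n0 n : ℕ, N ≤ n0 → n0 ≤ 2 * N → n0 ≤ n →
    n ≤ n0 + B → ∀ j, j + 1 < k → ∀ (L : ℕ) (Z : ℝ[X]), Val w q (kaj k N j) L n j Z → NJ w q n0 j B →
    |(hp w n j Z).coeff (dq w (j + 1)) - sl w q (n0 : ℝ) (j + 1)| ≤ (N : ℝ) ^ (-(1 / 2 ^ (k + 1)) : ℝ) := by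
  obtain ⟨c1, hc1⟩ := al_close
  obtain ⟨c2, hc2⟩ := sl_small
  refine ⟨c1 + c2 + 10, fun k hk w hw B hB q hq N hN n0 n hn0 hn02 hn0n hnB j hj L Z hV hNJ => ?_⟩
  have hB1 : (1 : ℝ) ≤ B := by exact_mod_cast (by omega : 1 ≤ B)
  have hB2 : (2 : ℝ) ≤ B := by exact_mod_cast hB
  have hK1 := one_le_K2 1 k
  -- sizes
  have hBN : (B : ℝ) ≤ N := by
    refine le_trans ?_ hN
    exact le_self_pow₀ hB1 (K2_pos _ _).ne'
  have hN1 : (1 : ℝ) ≤ N := hB1.trans hBN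
  have hN0 : (0 : ℝ) < N := by linarith
  have hNn0 : (N : ℝ) ≤ n0 := by exact_mod_cast hn0
  have hn0n' : (n0 : ℝ) ≤ n := by exact_mod_cast hn0n
  have hn3 : (n : ℝ) ≤ 3 * N := by
    have h1 : (n : ℝ) ≤ n0 + B := by exact_mod_cast hnB
    have h2 : (n0 : ℝ) ≤ 2 * N := by exact_mod_cast hn02
    linarith
  have hn1 : 1 ≤ n := by
    have : (1 : ℝ) ≤ n := by linarith
    exact_mod_cast this
  have hnpos : (0 : ℝ) < n := by linarith
  set T := 2 ^ k with hT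
  set g := gq w (j + 1) with hg
  set d := dq w (j + 1) with hd
  set s : ℝ := 1 / 2 ^ (k + 1) with hs
  have hs0 : 0 < s := by positivity
  have hdT : d ≤ 2 ^ k := (dq_le w (j + 1)).trans (Nat.pow_le_pow_right (by norm_num) hj.le)
  have hdjT : dq w j ≤ 2 ^ k := (dq_le w j).trans (Nat.pow_le_pow_right (by norm_num) (by omega))
  have hpk : ∀ m : ℕ, m ≤ 2 ^ k → ((m : ℝ) + 1) ≤ (B : ℝ) ^ (k + 1) := by
    intro m hm
    have h2 : m + 1 ≤ 2 ^ (k + 1) := by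
      have : 1 ≤ 2 ^ k := Nat.one_le_two_pow
      rw [pow_succ]
      omega
    calc ((m : ℝ) + 1) ≤ (2 : ℝ) ^ (k + 1) := by exact_mod_cast h2
      _ ≤ (B : ℝ) ^ (k + 1) := pow_le_pow_left₀ (by norm_num) hB2 _
  -- the exponent of the fractional part
  have hg1 : g ≤ 1 - 4 * s := by
    have h1 := gq_upper w (j := j + 1) (by omega)
    have h2 : 4 * s ≤ 1 / 2 ^ (j + 1) := by
      rw [hs]
      have h3 : (2 : ℝ) ^ (j + 1) ≤ 2 ^ (k - 1) := pow_le_pow_right₀ (by norm_num) (by omega)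
      have h4 : (2 : ℝ) ^ (k + 1) = 4 * 2 ^ (k - 1) := by
        have : k + 1 = (k - 1) + 2 := by omega
        rw [this, pow_add]
        ring
      rw [h4, mul_one_div, div_le_div_iff₀ (by positivity) (by positivity)]
      linarith
    linarith
  have hg0 : 0 ≤ g := gq_nonneg w (j + 1)
  -- the precision
  have hkexp : ((j : ℝ) + 1) / 2 ^ (12 * k) ≤ s := by
    rw [hs, div_le_div_iff₀ (by positivity) (by positivity), one_mul]
    have h1 : (j + 1) * 2 ^ (k + 1) ≤ 2 ^ (12 * k) := by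
      calc (j + 1) * 2 ^ (k + 1) ≤ 2 ^ k * 2 ^ (k + 1) :=
            Nat.mul_le_mul_right _ (hj.le.trans (Nat.lt_two_pow_self (n := k)).le)
        _ = 2 ^ (k + (k + 1)) := (pow_add _ _ _).symm
        _ ≤ 2 ^ (12 * k) := Nat.pow_le_pow_right (by norm_num) (by omega)
    exact_mod_cast h1
  have hs1 : s ≤ 1 / 4 := by
    rw [hs]
    apply one_div_le_one_div_of_le (by norm_num)
    calc (4 : ℝ) = 2 ^ 2 := by norm_num
      _ ≤ 2 ^ (k + 1) := pow_le_pow_right₀ (by norm_num) (by omega)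
  have hkaj0 : 0 ≤ kaj k N j := Real.rpow_nonneg hN0.le _
  have hkaj1 : kaj k N j ≤ 1 := by
    unfold kaj
    apply Real.rpow_le_one_of_one_le_of_nonpos hN1
    linarith
  have hkajs : kaj k N j ≤ (N : ℝ) ^ (s - 1) := by
    unfold kaj
    apply Real.rpow_le_rpow_of_exponent_le hN1
    linarith
  -- the norms
  have hK : ∀ c, c ≤ c1 + c2 + 10 → (B : ℝ) ^ K2 c k ≤ N := fun c hc => pow_K2_mono hB1 hc hN
  have hal := (hc1 k hk w hw B hB q hq (n : ℝ) ((hK c1 (by omega)).trans (by linarith)) j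
    (by omega)).1
  have hnear := tc_near w q (kaj k N j) hkaj0 L n j Z hV
  set e1 : ℕ := K2 (c1 + 2) k + 2 with he1
  set R : ℝ := (B : ℝ) ^ e1 with hR
  have hR1 : 1 ≤ R := one_le_pow₀ hB1
  have hRb : (B : ℝ) ^ (k + 1) + (B : ℝ) ^ K2 c1 k + 1 ≤ R := by
    have h1 : (B : ℝ) ^ (k + 1) ≤ (B : ℝ) ^ K2 (c1 + 2) k := by
      apply pow_le_pow_right₀ hB1
      have a1 := tc_two_mul 1 k hk
      have a2 := le_K2 hk
      have a3 : K2 2 k ≤ K2 (c1 + 2) k := K2_mono k (by omega)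
      simp only [Nat.reduceAdd] at a1
      omega
    have h2 : (B : ℝ) ^ K2 c1 k ≤ (B : ℝ) ^ K2 (c1 + 2) k :=
      pow_le_pow_right₀ hB1 (K2_mono k (by omega))
    have h3 : (1 : ℝ) ≤ (B : ℝ) ^ K2 (c1 + 2) k := one_le_pow₀ hB1
    have h4 : (4 : ℝ) ≤ (B : ℝ) ^ 2 := by nlinarith
    have h5 : R = (B : ℝ) ^ K2 (c1 + 2) k * (B : ℝ) ^ 2 := by rw [hR, he1, pow_add]
    have h6 : (B : ℝ) ^ K2 (c1 + 2) k * 4 ≤ (B : ℝ) ^ K2 (c1 + 2) k * (B : ℝ) ^ 2 :=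
      mul_le_mul_of_nonneg_left h4 (by linarith)
    rw [h5]
    linarith
  have hnear1 : nm (zh w n j Z - al w q n j) ≤ (B : ℝ) ^ (k + 1) := by
    refine hnear.trans ?_
    have h1 := hpk _ hdjT
    have h2 : (0 : ℝ) ≤ (dq w j : ℝ) + 1 := by positivity
    calc ((dq w j : ℝ) + 1) * kaj k N j ≤ ((dq w j : ℝ) + 1) * 1 :=
          mul_le_mul_of_nonneg_left hkaj1 h2
      _ ≤ (B : ℝ) ^ (k + 1) := by rw [mul_one]; exact h1
  have hR2 : nm (al w q n j - 1) ≤ R := by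
    refine (nm_sub_le _ _).trans ?_
    rw [nm_one]
    have : (0 : ℝ) ≤ (B : ℝ) ^ (k + 1) := by positivity
    linarith
  have hR3 : nm (zh w n j Z - 1) ≤ R := by
    have h1 : zh w n j Z - 1 = (zh w n j Z - al w q n j) + (al w q n j - 1) := by ring
    rw [h1]
    refine (nm_add_le _ _).trans ?_
    have h2 := nm_sub_le (al w q n j) 1
    rw [nm_one] at h2
    linarith
  have hlip := bs_lip w j (zh w n j Z) (al w q n j) R hR1 hR3 hR2
  rw [← hd] at hlip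
  set e2 : ℕ := 1 + 2 * (k + 1) + e1 * 2 ^ k + (k + 1) with he2
  have hbs : nm (bs w j (zh w n j Z) - bs w j (al w q n j)) ≤ (B : ℝ) ^ e2 * kaj k N j := by
    refine hlip.trans ?_
    have h1 : R ^ d ≤ (B : ℝ) ^ (e1 * 2 ^ k) := by
      rw [hR, ← pow_mul]
      exact pow_le_pow_right₀ hB1 (Nat.mul_le_mul_left _ hdT)
    have h2 : ((d : ℝ) + 1) ^ 2 ≤ (B : ℝ) ^ (2 * (k + 1)) := by
      rw [mul_comm 2 (k + 1), pow_mul]
      exact pow_le_pow_left₀ (by positivity) (hpk d hdT) 2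
    have h3 : nm (zh w n j Z - al w q n j) ≤ (B : ℝ) ^ (k + 1) * kaj k N j :=
      hnear.trans (mul_le_mul_of_nonneg_right (hpk _ hdjT) hkaj0)
    calc 2 * ((d : ℝ) + 1) ^ 2 * R ^ d * nm (zh w n j Z - al w q n j)
        ≤ B * (B : ℝ) ^ (2 * (k + 1)) * (B : ℝ) ^ (e1 * 2 ^ k) *
            ((B : ℝ) ^ (k + 1) * kaj k N j) := by
          have := nm_nonneg (zh w n j Z - al w q n j)
          gcongr
      _ = (B : ℝ) ^ e2 * kaj k N j := by
          rw [he2, pow_add, pow_add, pow_add, pow_one]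
          ring
  -- absorption
  have hexp1 : (e2 + 1) * 2 ^ (k + 1) ≤ K2 (c1 + c2 + 10) k := by
    have a0 := tc_pow_le k hk
    have a1 := tc_two_mul 1 k hk
    have a2 := le_K2 hk
    have a3 := tc_two_mul 2 k hk
    have a4 := tc_two_mul 3 k hk
    simp only [Nat.reduceAdd] at a1 a3 a4
    have b1 : e1 ≤ K2 (c1 + 4) k := by
      have h1 := tc_two_mul (c1 + 2) k hk
      have h2 := tc_two_mul (c1 + 3) k hk
      have h3 := one_le_K2 (c1 + 2) k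
      rw [he1]
      have h4 : c1 + 2 + 1 = c1 + 3 := by omega
      have h5 : c1 + 3 + 1 = c1 + 4 := by omega
      rw [h4] at h1
      rw [h5] at h2
      omega
    have b2 : e1 * 2 ^ k ≤ K2 (c1 + 5) k := by
      calc e1 * 2 ^ k ≤ K2 (c1 + 4) k * K2 1 k := Nat.mul_le_mul b1 a0
        _ = K2 (c1 + 5) k := by rw [← K2_add]
    have b3 : 8 * K2 1 k ≤ K2 (c1 + 5) k := by
      have : K2 4 k ≤ K2 (c1 + 5) k := K2_mono k (by omega)
      omega
    have b4 : e2 + 1 ≤ K2 (c1 + 6) k := by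
      have h1 := tc_two_mul (c1 + 5) k hk
      have h4 : c1 + 5 + 1 = c1 + 6 := by omega
      rw [h4] at h1
      rw [he2]
      omega
    calc (e2 + 1) * 2 ^ (k + 1) ≤ K2 (c1 + 6) k * K2 2 k := by
          refine Nat.mul_le_mul b4 ?_
          rw [pow_succ]
          omega
      _ = K2 (c1 + 8) k := by rw [← K2_add]
      _ ≤ K2 (c1 + c2 + 10) k := K2_mono k (by omega)
  have habs1 : (B : ℝ) ^ (e2 + 1) ≤ (N : ℝ) ^ s := absorb' hB1 (b := k + 1) hN hexp1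
  have hexp2 : (K2 c2 k + 2) * 2 ^ (k + 1) ≤ K2 (c1 + c2 + 10) k := by
    have a0 := tc_pow_le k hk
    have a1 := tc_two_mul 1 k hk
    simp only [Nat.reduceAdd] at a1
    have h1 := tc_two_mul c2 k hk
    have h2 := tc_two_mul (c2 + 1) k hk
    have h3 := one_le_K2 c2 k
    have h5 : c2 + 1 + 1 = c2 + 2 := by omega
    rw [h5] at h2
    calc (K2 c2 k + 2) * 2 ^ (k + 1) ≤ K2 (c2 + 2) k * K2 2 k := by
          refine Nat.mul_le_mul (by omega) ?_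
          rw [pow_succ]
          omega
      _ = K2 (c2 + 4) k := by rw [← K2_add]
      _ ≤ K2 (c1 + c2 + 10) k := K2_mono k (by omega)
  have habs2 : (B : ℝ) ^ (K2 c2 k + 2) ≤ (N : ℝ) ^ s := absorb' hB1 (b := k + 1) hN hexp2
  have habs0 : (2 : ℝ) ≤ (N : ℝ) ^ s := by
    refine le_trans ?_ habs1
    exact hB2.trans (le_self_pow₀ hB1 (by omega))
  -- first difference
  have hD1 : |(hp w n j Z).coeff d - sl w q (n : ℝ) (j + 1)| ≤ (N : ℝ) ^ (-(2 * s)) := by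
    have h1 : sl w q (n : ℝ) (j + 1) = (n : ℝ) ^ g * (bs w j (al w q n j)).coeff d / 2 := by
      unfold sl
      rw [Nat.add_sub_cancel]
    have h2 : (hp w n j Z).coeff d - sl w q (n : ℝ) (j + 1) =
        (n : ℝ) ^ g / 2 * (bs w j (zh w n j Z) - bs w j (al w q n j)).coeff d := by
      rw [h1, hd, tc_hp_coeff w n j hn1, coeff_sub]
      ring
    rw [h2, abs_mul, abs_of_nonneg (by positivity)]
    have h3 : (n : ℝ) ^ g ≤ 3 * (N : ℝ) ^ g := by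
      calc (n : ℝ) ^ g ≤ (3 * (N : ℝ)) ^ g := Real.rpow_le_rpow hnpos.le hn3 hg0
        _ = 3 ^ g * (N : ℝ) ^ g := Real.mul_rpow (by norm_num) hN0.le
        _ ≤ 3 * (N : ℝ) ^ g := by
          refine mul_le_mul_of_nonneg_right ?_ (by positivity)
          calc (3 : ℝ) ^ g ≤ 3 ^ (1 : ℝ) :=
                Real.rpow_le_rpow_of_exponent_le (by norm_num) (by linarith)
            _ = 3 := Real.rpow_one 3
    calc (n : ℝ) ^ g / 2 * |(bs w j (zh w n j Z) - bs w j (al w q n j)).coeff d|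
        ≤ (3 * (N : ℝ) ^ g) / 2 * ((B : ℝ) ^ e2 * (N : ℝ) ^ (s - 1)) := by
          have h4 := (abs_coeff_le_nm (bs w j (zh w n j Z) - bs w j (al w q n j)) d).trans
            (hbs.trans (mul_le_mul_of_nonneg_left hkajs (by positivity)))
          gcongr
      _ ≤ (B : ℝ) ^ (e2 + 1) * ((N : ℝ) ^ g * (N : ℝ) ^ (s - 1)) := by
          rw [pow_succ]
          have h5 : 0 ≤ (B : ℝ) ^ e2 * ((N : ℝ) ^ g * (N : ℝ) ^ (s - 1)) := by positivity
          have h6 : (3 / 2 : ℝ) * ((B : ℝ) ^ e2 * ((N : ℝ) ^ g * (N : ℝ) ^ (s - 1))) ≤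
              B * ((B : ℝ) ^ e2 * ((N : ℝ) ^ g * (N : ℝ) ^ (s - 1))) :=
            mul_le_mul_of_nonneg_right (by linarith) h5
          calc (3 * (N : ℝ) ^ g) / 2 * ((B : ℝ) ^ e2 * (N : ℝ) ^ (s - 1))
              = (3 / 2 : ℝ) * ((B : ℝ) ^ e2 * ((N : ℝ) ^ g * (N : ℝ) ^ (s - 1))) := by ring
            _ ≤ _ := h6
            _ = _ := by ring
      _ ≤ (N : ℝ) ^ s * ((N : ℝ) ^ g * (N : ℝ) ^ (s - 1)) :=
          mul_le_mul_of_nonneg_right habs1 (by positivity)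
      _ = (N : ℝ) ^ (s + (g + (s - 1))) := by
          rw [Real.rpow_add hN0, Real.rpow_add hN0]
      _ ≤ (N : ℝ) ^ (-(2 * s)) := by
          apply Real.rpow_le_rpow_of_exponent_le hN1
          linarith
  -- second difference
  have hD2 : |sl w q (n : ℝ) (j + 1) - sl w q (n0 : ℝ) (j + 1)| ≤ (N : ℝ) ^ (-(2 * s)) := by
    obtain ⟨h, rfl⟩ := Nat.exists_eq_add_of_le hn0n
    have hhB : (h : ℝ) ≤ B := by exact_mod_cast (by omega : h ≤ B)
    have hn0pos : (0 : ℝ) < n0 := by linarith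
    have h1 := hc2 k hk w hw B hB q hq (n0 : ℝ) ((hK c2 (by omega)).trans hNn0) h
      (hhB.trans (hBN.trans hNn0)) 2 (by norm_num) (j + 1) (by omega) hj (by
        intro i hi hij _
        have := hNJ i hi (by omega) h hhB
        rw [← this]
        push_cast
        rfl)
    have h2 : (((n0 + h : ℕ) : ℕ) : ℝ) = (n0 : ℝ) + h := by push_cast; rfl
    rw [h2]
    refine h1.trans ?_
    have h3 : (h : ℝ) / n0 + (n0 : ℝ) ^ (-(2 : ℝ)) ≤ (B : ℝ) ^ 2 * (n0 : ℝ) ^ (-(1 : ℝ)) := by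
      have h4 : (n0 : ℝ) ^ (-(2 : ℝ)) ≤ (n0 : ℝ) ^ (-(1 : ℝ)) :=
        Real.rpow_le_rpow_of_exponent_le (by linarith) (by norm_num)
      have h5 : (h : ℝ) / n0 ≤ B * (n0 : ℝ) ^ (-(1 : ℝ)) := by
        rw [Real.rpow_neg_one, div_eq_mul_inv]
        exact mul_le_mul_of_nonneg_right hhB (by positivity)
      have h6 : (0 : ℝ) < (n0 : ℝ) ^ (-(1 : ℝ)) := by positivity
      have h7 : (B : ℝ) + 1 ≤ (B : ℝ) ^ 2 := by nlinarith
      calc (h : ℝ) / n0 + (n0 : ℝ) ^ (-(2 : ℝ))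
          ≤ B * (n0 : ℝ) ^ (-(1 : ℝ)) + (n0 : ℝ) ^ (-(1 : ℝ)) := add_le_add h5 h4
        _ = (B + 1) * (n0 : ℝ) ^ (-(1 : ℝ)) := by ring
        _ ≤ (B : ℝ) ^ 2 * (n0 : ℝ) ^ (-(1 : ℝ)) := mul_le_mul_of_nonneg_right h7 h6.le
    calc (B : ℝ) ^ K2 c2 k * (n0 : ℝ) ^ g * ((h : ℝ) / n0 + (n0 : ℝ) ^ (-(2 : ℝ)))
        ≤ (B : ℝ) ^ K2 c2 k * (n0 : ℝ) ^ g * ((B : ℝ) ^ 2 * (n0 : ℝ) ^ (-(1 : ℝ))) :=
          mul_le_mul_of_nonneg_left h3 (by positivity)
      _ = (B : ℝ) ^ (K2 c2 k + 2) * (n0 : ℝ) ^ (g + -(1 : ℝ)) := by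
          rw [pow_add, Real.rpow_add hn0pos]
          ring
      _ ≤ (N : ℝ) ^ s * (N : ℝ) ^ (g + -(1 : ℝ)) := by
          have h7 : (n0 : ℝ) ^ (g + -(1 : ℝ)) ≤ (N : ℝ) ^ (g + -(1 : ℝ)) :=
            Real.rpow_le_rpow_of_nonpos hN0 hNn0 (by linarith)
          gcongr
      _ = (N : ℝ) ^ (s + (g + -(1 : ℝ))) := (Real.rpow_add hN0 s (g + -(1 : ℝ))).symm
      _ ≤ (N : ℝ) ^ (-(2 * s)) := by
          apply Real.rpow_le_rpow_of_exponent_le hN1
          linarith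
  have hfin : |(hp w n j Z).coeff d - sl w q (n0 : ℝ) (j + 1)| ≤
      (N : ℝ) ^ (-(2 * s)) + (N : ℝ) ^ (-(2 * s)) := by
    have h1 : (hp w n j Z).coeff d - sl w q (n0 : ℝ) (j + 1) =
        ((hp w n j Z).coeff d - sl w q (n : ℝ) (j + 1)) +
          (sl w q (n : ℝ) (j + 1) - sl w q (n0 : ℝ) (j + 1)) := by ring
    rw [h1]
    exact (abs_add_le _ _).trans (add_le_add hD1 hD2)
  refine hfin.trans ?_
  have h2 : (N : ℝ) ^ (-s) = (N : ℝ) ^ s * (N : ℝ) ^ (-(2 * s)) := by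
    rw [← Real.rpow_add hN0]
    congr 1
    ring
  rw [h2, ← two_mul]
  exact mul_le_mul_of_nonneg_right habs0 (by positivity)

end Pool.Agent.Work.MP_215640_nt.Q
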