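import Pool.Agent.Work.MP_215640_nt.Q.Expand
import Pool.Agent.Work.MP_215640_nt.Q.TopClose
import Pool.Agent.Work.MP_215640_nt.Q.Tcf
import Pool.Agent.Work.MP_215640_nt.Q.K2L

/-!
Auxiliary lemmas for the module `Step`.
-/

set_option autoImplicit false

namespace Pool.Agent.Work.MP_215640_nt.Q

open Finset Polynomial

/-! ### arithmetic of exponents -/

theorem step_K2_sum {a b k : ℕ} (hk : 1 ≤ k) : K2 a k + K2 b k ≤ K2 (a + b + 1) k := by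
  have h1 : K2 a k ≤ K2 (a + b) k := K2_mono k (by omega)
  have h2 : K2 b k ≤ K2 (a + b) k := K2_mono k (by omega)
  have h3 : K2 (a + b + 1) k = K2 (a + b) k * K2 1 k := K2_add _ _ _
  have h4 : 2 ≤ K2 1 k := by
    have := two_pow_le_K2 (c := 1) (k := k) (a := 1) hk le_rfl
    have h5 : 2 ^ 1 ≤ 2 ^ (1 * k) := Nat.pow_le_pow_right (by norm_num) (by omega)
    omega
  rw [h3]
  nlinarith

theorem step_const {a m k : ℕ} (hk : 1 ≤ k) (h : m ≤ 2 ^ a) : m ≤ K2 a k := by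
  refine h.trans ?_
  unfold K2
  apply Nat.pow_le_pow_right (by norm_num)
  nlinarith [Nat.pow_le_pow_left hk 2]

theorem step_T {k : ℕ} (hk : 1 ≤ k) : 2 ^ k ≤ K2 1 k := by
  simpa using two_pow_le_K2 (c := 1) (k := k) (a := 1) hk le_rfl

/-! ### sums of rounded coefficients -/

theorem step_geom (d : ℕ) : ∑ r ∈ Icc 1 d, (1 / 2 : ℝ) ^ r ≤ 1 := by
  have h : ∀ d : ℕ, ∑ r ∈ Icc 1 d, (1 / 2 : ℝ) ^ r = 1 - (1 / 2) ^ d := by
    intro d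
    induction d with
    | zero => simp
    | succ d ih =>
      rw [Finset.sum_Icc_succ_top (by omega), ih]
      ring
  rw [h]
  have : (0 : ℝ) ≤ (1 / 2) ^ d := by positivity
  linarith

theorem step_round (d M v : ℕ) (hM : 8 ≤ M) (hv : v ≤ 2 * M) (a : ℕ → ℝ) (z : ℕ → ℤ)
    (h : ∀ r, 1 ≤ r → r ≤ d → |a r - z r| ≤ 1 / (M : ℝ) ^ (3 * r + 3)) :
    |∑ r ∈ Icc 1 d, a r * (v : ℝ) ^ r - ∑ r ∈ Icc 1 d, (z r : ℝ) * (v : ℝ) ^ r| ≤
      1 / (4 * (M : ℝ) ^ 2) := by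
  have hM' : (8 : ℝ) ≤ M := by exact_mod_cast hM
  have hM0 : (0 : ℝ) < M := by linarith
  rw [← Finset.sum_sub_distrib]
  refine (Finset.abs_sum_le_sum_abs _ _).trans ?_
  have h1 : ∀ r ∈ Icc 1 d, |a r * (v : ℝ) ^ r - (z r : ℝ) * (v : ℝ) ^ r| ≤
      1 / (M : ℝ) ^ 3 * (1 / 2) ^ r := by
    intro r hr
    rw [mem_Icc] at hr
    rw [← sub_mul, abs_mul, abs_of_nonneg (by positivity : (0 : ℝ) ≤ (v : ℝ) ^ r)]
    have h2 : (v : ℝ) ^ r ≤ (2 * M) ^ r := by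
      apply pow_le_pow_left₀ (by positivity)
      exact_mod_cast hv
    calc |a r - z r| * (v : ℝ) ^ r ≤ 1 / (M : ℝ) ^ (3 * r + 3) * (2 * M) ^ r :=
          mul_le_mul (h r hr.1 hr.2) h2 (by positivity) (by positivity)
      _ = 1 / (M : ℝ) ^ 3 * (2 / M ^ 2) ^ r := by
          rw [mul_pow, div_pow, pow_add, pow_mul]
          field_simp
          ring
      _ ≤ 1 / (M : ℝ) ^ 3 * (1 / 2) ^ r := by
          apply mul_le_mul_of_nonneg_left _ (by positivity)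
          apply pow_le_pow_left₀ (by positivity)
          rw [div_le_div_iff₀ (by positivity) (by norm_num)]
          nlinarith
  refine (Finset.sum_le_sum h1).trans ?_
  rw [← Finset.mul_sum]
  calc 1 / (M : ℝ) ^ 3 * ∑ r ∈ Icc 1 d, (1 / 2 : ℝ) ^ r ≤ 1 / (M : ℝ) ^ 3 * 1 :=
        mul_le_mul_of_nonneg_left (step_geom d) (by positivity)
    _ ≤ 1 / (4 * (M : ℝ) ^ 2) := by
        rw [mul_one]
        apply one_div_le_one_div_of_le (by positivity)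
        nlinarith [sq_nonneg (M : ℝ)]

/-! ### floors -/

theorem step_floor {x e : ℝ} {s : ℤ} (he : |e| < dI x) : ⌊x + s + e⌋ = ⌊x⌋ + s := by
  have h1 := dI_le x ⌊x⌋
  have h2 := dI_le x (⌊x⌋ + 1)
  have h3 := Int.floor_le x
  have h4 := Int.lt_floor_add_one x
  rw [abs_of_nonneg (by linarith)] at h1
  push_cast at h2
  rw [abs_of_nonpos (by linarith)] at h2
  rw [abs_lt] at he
  rw [Int.floor_eq_iff]
  push_cast
  constructor <;> linarith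

theorem step_xx_nonneg (w : ℕ → Bool) (j n : ℕ) : 0 ≤ xx w j n := by
  cases j with
  | zero => simp [xx]
  | succ j => rw [xx]; positivity

theorem step_F (w : ℕ → Bool) (j n : ℕ) : (F w j n : ℝ) = (⌊xx w j n⌋ : ℝ) := by
  unfold F
  rw [natCast_floor_eq_intCast_floor (step_xx_nonneg w j n)]

/-! ### Taylor coefficients of `hp` -/

theorem step_tcf_hp (w : ℕ → Bool) (n j u r : ℕ) (Z : ℝ[X]) :
    tcf (hp w n j Z) u r = (n : ℝ) ^ cc w (j + 1) / 2 * (((n : ℝ)⁻¹) ^ r *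
      ((bs w j (zh w n j Z)).comp (X + C ((u : ℝ) * (n : ℝ)⁻¹))).coeff r) := by
  unfold tcf hp
  rw [mul_comp, C_comp, coeff_C_mul]
  congr 1
  rw [← coeff_scale]
  congr 1
  rw [comp_assoc, comp_assoc]
  congr 1
  simp only [mul_comp, C_comp, X_comp, add_comp]
  rw [mul_add, C_mul]
  ring

/-! ### closeness of the coefficients -/

theorem step_zh_natDegree (w : ℕ → Bool) (n j : ℕ) (Z : ℝ[X]) :
    (zh w n j Z).natDegree ≤ Z.natDegree := by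
  unfold zh
  exact (natDegree_C_mul_le _ _).trans (natDegree_scale _ _)

theorem step_val_nm {w : ℕ → Bool} {q : ℕ → ℕ} {ka : ℝ} {L n j : ℕ} {Z : ℝ[X]}
    (h : Val w q ka L n j Z) (hka : 0 ≤ ka) :
    nm (zh w n j Z - al w q n j) ≤ (dq w j + 1) * ka := by
  apply nm_le_of_coeff _ (dq w j)
  · exact (natDegree_sub_le _ _).trans
      (max_le ((step_zh_natDegree w n j Z).trans h.deg) (natDegree_models w q n 0 j).1)
  · intro r hr
    rw [coeff_sub]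
    rcases hr.lt_or_eq with hr | hr
    · exact h.near r hr
    · rw [hr, h.top, sub_self, abs_zero]
      exact hka

theorem step_coeff {β β' : ℝ[X]} {d r : ℕ} {y G δ n n' s tr Zr : ℝ}
    (hd : β.natDegree ≤ d) (hy : |y| ≤ 1) (hG : nm β ≤ G) (hδ : nm (β - β') ≤ δ)
    (hn : 0 < n) (hnn' : n ≤ n') (hn1 : 1 ≤ n') (hs : 1 ≤ s) (htr : 0 ≤ tr)
    (hZ : |Zr - tr * (n ^ s * (β.comp (X + C y)).coeff r)| ≤ 3) :
    |n' ^ (-s) * Zr - tr * β'.coeff r| ≤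
      3 / n' + tr * (s * ((n' - n) / n') * ((2 ^ d + 1) * G) + 2 ^ d * |y| * G + δ) := by
  have hn0 : 0 < n' := by linarith
  set b := (β.comp (X + C y)).coeff r with hb
  have hG0 : 0 ≤ G := (nm_nonneg β).trans hG
  have h1 : |b - β.coeff r| ≤ 2 ^ d * |y| * G :=
    (nm_shift β d hd y hy r).trans (mul_le_mul_of_nonneg_left hG (by positivity))
  have h2 : |β.coeff r - β'.coeff r| ≤ δ := by
    rw [← coeff_sub]
    exact (abs_coeff_le_nm _ _).trans hδ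
  have h3 : |b| ≤ (2 ^ d + 1) * G := by
    have e1 : |b| ≤ |b - β.coeff r| + |β.coeff r| := by
      have := abs_add_le (b - β.coeff r) (β.coeff r)
      rwa [sub_add_cancel] at this
    have e2 : |β.coeff r| ≤ G := (abs_coeff_le_nm _ _).trans hG
    have e3 : 2 ^ d * |y| * G ≤ 2 ^ d * 1 * G := by gcongr
    linarith
  set ρ := n' ^ (-s) * n ^ s with hρ
  have hρ' : ρ = (n / n') ^ s := by
    rw [hρ, Real.div_rpow hn.le hn0.le, Real.rpow_neg hn0.le]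
    field_simp
  have hq : n / n' = 1 + -((n' - n) / n') := by field_simp; ring
  have hq1 : (n' - n) / n' ≤ 1 := by rw [div_le_one hn0]; linarith
  have hq0 : 0 ≤ (n' - n) / n' := div_nonneg (by linarith) hn0.le
  have hρ1 : 1 - s * ((n' - n) / n') ≤ ρ := by
    rw [hρ', hq]
    have := one_add_mul_self_le_rpow_one_add (s := -((n' - n) / n')) (by linarith) hs
    linarith
  have hρ2 : ρ ≤ 1 := by
    rw [hρ']
    apply Real.rpow_le_one (by positivity) _ (by linarith)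
    rw [div_le_one hn0]; exact hnn'
  have hρ3 : |ρ - 1| ≤ s * ((n' - n) / n') := by
    rw [abs_sub_comm, abs_of_nonneg (by linarith)]
    linarith
  have h4 : |ρ * b - β'.coeff r| ≤
      s * ((n' - n) / n') * ((2 ^ d + 1) * G) + 2 ^ d * |y| * G + δ := by
    have e1 : ρ * b - β'.coeff r = (ρ - 1) * b + (b - β.coeff r) + (β.coeff r - β'.coeff r) := by
      ring
    rw [e1]
    refine (abs_add_le _ _).trans (add_le_add ((abs_add_le _ _).trans (add_le_add ?_ h1)) h2)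
    rw [abs_mul]
    exact mul_le_mul hρ3 h3 (abs_nonneg _) (by positivity)
  have h5 : n' ^ (-s) ≤ 1 / n' := by
    rw [Real.rpow_neg hn0.le, one_div]
    apply inv_anti₀ hn0
    calc n' = n' ^ (1 : ℝ) := (Real.rpow_one _).symm
      _ ≤ n' ^ s := Real.rpow_le_rpow_of_exponent_le hn1 hs
  have e2 : n' ^ (-s) * Zr - tr * β'.coeff r =
      n' ^ (-s) * (Zr - tr * (n ^ s * b)) + tr * (ρ * b - β'.coeff r) := by
    rw [hρ]; ring
  rw [e2]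
  refine (abs_add_le _ _).trans (add_le_add ?_ ?_)
  · rw [abs_mul, abs_of_nonneg (by positivity : (0 : ℝ) ≤ n' ^ (-s))]
    calc n' ^ (-s) * |Zr - tr * (n ^ s * b)| ≤ 1 / n' * 3 :=
          mul_le_mul h5 hZ (abs_nonneg _) (by positivity)
      _ = 3 / n' := by ring
  · rw [abs_mul, abs_of_nonneg htr]
    exact mul_le_mul_of_nonneg_left h4 htr

/-! ### arithmetic -/

theorem step_kaj_succ {k N j : ℕ} (hN : 1 ≤ N) :
    kaj k N (j + 1) = (N : ℝ) ^ (1 / 2 ^ (12 * k) : ℝ) * kaj k N j := by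
  have hN0 : (0 : ℝ) < N := by exact_mod_cast hN
  unfold kaj
  rw [← Real.rpow_add hN0]
  congr 1
  push_cast
  ring

theorem step_kaj_ge {k N j : ℕ} (hN : 1 ≤ N) : 1 / (N : ℝ) ≤ kaj k N j := by
  have hN0 : (0 : ℝ) < N := by exact_mod_cast hN
  have hN1 : (1 : ℝ) ≤ N := by exact_mod_cast hN
  unfold kaj
  rw [one_div, ← Real.rpow_neg_one]
  apply Real.rpow_le_rpow_of_exponent_le hN1
  have : (0 : ℝ) ≤ ((j : ℝ) + 1) / 2 ^ (12 * k) := by positivity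
  linarith

theorem step_two_pow (n : ℕ) : n + 1 ≤ 2 ^ n := Nat.lt_two_pow_self

theorem step_Rpow {B c1 k d : ℕ} (hB : 2 ≤ B) (hd : d ≤ 2 ^ k) :
    2 * ((d : ℝ) + 1) ^ 2 * ((B : ℝ) ^ K2 c1 k + 2) ^ d ≤ (B : ℝ) ^ ((K2 c1 k + 6) * 2 ^ k) := by
  have hB2 : (2 : ℝ) ≤ B := by exact_mod_cast hB
  have hB1 : (1 : ℝ) ≤ B := by linarith
  set T := 2 ^ k with hT
  have hT1 : 1 ≤ T := Nat.one_le_two_pow
  have h1 : (d : ℝ) + 1 ≤ (B : ℝ) ^ T := by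
    calc (d : ℝ) + 1 ≤ (T : ℝ) + 1 := by
          have : (d : ℝ) ≤ T := by exact_mod_cast hd
          linarith
      _ ≤ (2 : ℝ) ^ T := by exact_mod_cast step_two_pow T
      _ ≤ (B : ℝ) ^ T := pow_le_pow_left₀ (by norm_num) hB2 T
  have h2 : (B : ℝ) ^ K2 c1 k + 2 ≤ (B : ℝ) ^ (K2 c1 k + 2) := by
    have h3 : (1 : ℝ) ≤ (B : ℝ) ^ K2 c1 k := one_le_pow₀ hB1
    have h5 : (4 : ℝ) ≤ (B : ℝ) ^ 2 := by nlinarith
    have h6 := mul_le_mul_of_nonneg_left h5 (by linarith : (0 : ℝ) ≤ (B : ℝ) ^ K2 c1 k)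
    rw [pow_add]
    linarith
  have h4 : ((B : ℝ) ^ K2 c1 k + 2) ^ d ≤ (B : ℝ) ^ ((K2 c1 k + 2) * T) := by
    calc ((B : ℝ) ^ K2 c1 k + 2) ^ d ≤ ((B : ℝ) ^ (K2 c1 k + 2)) ^ d :=
          pow_le_pow_left₀ (by positivity) h2 d
      _ ≤ ((B : ℝ) ^ (K2 c1 k + 2)) ^ T := pow_le_pow_right₀ (one_le_pow₀ hB1) hd
      _ = (B : ℝ) ^ ((K2 c1 k + 2) * T) := by rw [← pow_mul]
  calc 2 * ((d : ℝ) + 1) ^ 2 * ((B : ℝ) ^ K2 c1 k + 2) ^ d
      ≤ (B : ℝ) * ((B : ℝ) ^ T) ^ 2 * (B : ℝ) ^ ((K2 c1 k + 2) * T) := by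
        gcongr
    _ = (B : ℝ) ^ (1 + T * 2 + (K2 c1 k + 2) * T) := by
        rw [← pow_mul, pow_add, pow_add, pow_one]
    _ ≤ (B : ℝ) ^ ((K2 c1 k + 6) * T) := by
        apply pow_le_pow_right₀ hB1
        nlinarith

theorem step_arith {k B c1 c2 N d r j t : ℕ} {s n n' y : ℝ} (hk : 1 ≤ k) (hB : 2 ≤ B)
    (hN : (B : ℝ) ^ K2 (c1 + c2 + 30) k ≤ N) (hd : d ≤ 2 ^ k) (hr : r ≤ d) (ht : t ≤ B)
    (hs0 : 0 ≤ s) (hs : s ≤ 2 ^ k) (hn' : N ≤ n') (hnn : n ≤ n') (hnn' : n' ≤ n + B)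
    (hy : |y| ≤ B / N) :
    3 / n' + (t : ℝ) ^ r * (s * ((n' - n) / n') * ((2 ^ d + 1) *
      (2 * ((d : ℝ) + 1) * ((B : ℝ) ^ K2 c1 k + 2) ^ d)) +
      2 ^ d * |y| * (2 * ((d : ℝ) + 1) * ((B : ℝ) ^ K2 c1 k + 2) ^ d) +
      2 * ((d : ℝ) + 1) ^ 2 * ((B : ℝ) ^ K2 c1 k + 2) ^ d * ((2 ^ k + 1) * kaj k N j +
        2 * ((B : ℝ) ^ K2 c2 k * ((B + 1) / N)))) ≤ kaj k N (j + 1) := by
  have hB2 : (2 : ℝ) ≤ B := by exact_mod_cast hB
  have hB1 : (1 : ℝ) ≤ B := by linarith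
  have hNr1 : (1 : ℝ) ≤ N := (one_le_pow₀ hB1).trans hN
  have hN1 : 1 ≤ N := by exact_mod_cast hNr1
  have hN0 : (0 : ℝ) < N := by linarith
  set κ := kaj k N j with hκ
  have hκ1 : 1 / (N : ℝ) ≤ κ := step_kaj_ge hN1
  have hκ0 : 0 < κ := lt_of_lt_of_le (by positivity) hκ1
  set T := 2 ^ k with hT
  have hT1 : 1 ≤ T := Nat.one_le_two_pow
  have hTr : ((2 : ℝ) ^ k) = (T : ℝ) := by rw [hT]; push_cast; rfl
  set E0 := (K2 c1 k + K2 c2 k + 6) * T with hE0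
  set Q : ℝ := (B : ℝ) ^ E0 with hQ
  have hpow : ∀ e ≤ E0, (B : ℝ) ^ e ≤ Q := fun e he => pow_le_pow_right₀ hB1 he
  have hK1 := one_le_K2 c1 k
  have hK2' := one_le_K2 c2 k
  have hE1 : T + 1 ≤ E0 := by rw [hE0]; nlinarith
  have hE2 : (K2 c1 k + 6) * T ≤ E0 := by rw [hE0]; nlinarith
  have hQ2 : 2 ≤ Q := hB2.trans (by simpa using hpow 1 (by omega))
  have q1 : (t : ℝ) ^ r ≤ Q := by
    calc (t : ℝ) ^ r ≤ (B : ℝ) ^ r := pow_le_pow_left₀ (by positivity) (by exact_mod_cast ht) r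
      _ ≤ Q := hpow r (by omega)
  have q2 : s ≤ Q := by
    calc s ≤ (T : ℝ) := by rw [← hTr]; exact hs
      _ ≤ (2 : ℝ) ^ T := by exact_mod_cast (by have := step_two_pow T; omega : T ≤ 2 ^ T)
      _ ≤ (B : ℝ) ^ T := pow_le_pow_left₀ (by norm_num) hB2 T
      _ ≤ Q := hpow T (by omega)
  have q3 : (2 : ℝ) ^ d + 1 ≤ Q := by
    calc (2 : ℝ) ^ d + 1 ≤ (2 : ℝ) ^ T + (2 : ℝ) ^ T :=
          add_le_add (pow_le_pow_right₀ (by norm_num) hd) (one_le_pow₀ (by norm_num))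
      _ = (2 : ℝ) ^ (T + 1) := by ring
      _ ≤ (B : ℝ) ^ (T + 1) := pow_le_pow_left₀ (by norm_num) hB2 _
      _ ≤ Q := hpow _ hE1
  have q3' : (2 : ℝ) ^ d ≤ Q := by linarith
  set X1 := 2 * ((d : ℝ) + 1) ^ 2 * ((B : ℝ) ^ K2 c1 k + 2) ^ d with hX1
  have q4 : X1 ≤ Q := (step_Rpow hB hd).trans (hpow _ hE2)
  set X2 := 2 * ((d : ℝ) + 1) * ((B : ℝ) ^ K2 c1 k + 2) ^ d with hX2
  have q5 : X2 ≤ Q := by
    refine le_trans ?_ q4
    rw [hX1, hX2]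
    apply mul_le_mul_of_nonneg_right _ (by positivity)
    have : (0 : ℝ) ≤ d := by positivity
    nlinarith
  have hX20 : 0 ≤ X2 := by positivity
  have hX10 : 0 ≤ X1 := by positivity
  have q6 : (B : ℝ) / N ≤ Q * κ := by
    calc (B : ℝ) / N = B * (1 / N) := by ring
      _ ≤ Q * κ := mul_le_mul (by simpa using hpow 1 (by omega)) hκ1 (by positivity) (by linarith)
  have hn'0 : 0 < n' := by linarith
  have q7 : (n' - n) / n' ≤ Q * κ := by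
    refine le_trans ?_ q6
    rw [div_le_div_iff₀ hn'0 hN0]
    nlinarith
  have q70 : 0 ≤ (n' - n) / n' := div_nonneg (by linarith) hn'0.le
  have q8 : |y| ≤ Q * κ := hy.trans q6
  have q9 : 3 / n' ≤ Q ^ 2 * κ := by
    calc 3 / n' ≤ 3 / N := by gcongr
      _ = 3 * (1 / N) := by ring
      _ ≤ Q ^ 2 * κ := mul_le_mul (by nlinarith) hκ1 (by positivity) (by positivity)
  have q10 : (2 ^ k + 1) * κ + 2 * ((B : ℝ) ^ K2 c2 k * ((B + 1) / N)) ≤ Q * κ := by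
    have e1 : 2 * ((B : ℝ) ^ K2 c2 k * ((B + 1) / N)) ≤ (B : ℝ) ^ (K2 c2 k + 3) * κ := by
      have e2 : 2 * ((B : ℝ) + 1) ≤ (B : ℝ) ^ 3 := by
        have e9 : (4 : ℝ) ≤ (B : ℝ) ^ 2 := by nlinarith
        have e10 := mul_le_mul_of_nonneg_right e9 (by linarith : (0 : ℝ) ≤ B)
        rw [pow_succ]
        linarith
      calc 2 * ((B : ℝ) ^ K2 c2 k * ((B + 1) / N)) =
            (B : ℝ) ^ K2 c2 k * (2 * (B + 1)) * (1 / N) := by ring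
        _ ≤ (B : ℝ) ^ K2 c2 k * (B : ℝ) ^ 3 * κ := by gcongr
        _ = (B : ℝ) ^ (K2 c2 k + 3) * κ := by rw [pow_add]
    have e3 : (2 : ℝ) ^ k + 1 + (B : ℝ) ^ (K2 c2 k + 3) ≤ Q := by
      have e4 : (2 : ℝ) ^ k + 1 ≤ (B : ℝ) ^ T := by
        rw [hTr]
        calc (T : ℝ) + 1 ≤ (2 : ℝ) ^ T := by exact_mod_cast step_two_pow T
          _ ≤ (B : ℝ) ^ T := pow_le_pow_left₀ (by norm_num) hB2 T
      have e5 : (B : ℝ) ^ T ≤ (B : ℝ) ^ (T + (K2 c2 k + 3)) :=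
        pow_le_pow_right₀ hB1 (by omega)
      have e6 : (B : ℝ) ^ (K2 c2 k + 3) ≤ (B : ℝ) ^ (T + (K2 c2 k + 3)) :=
        pow_le_pow_right₀ hB1 (by omega)
      have e7 : (B : ℝ) ^ (T + (K2 c2 k + 3) + 1) ≤ Q := by
        apply hpow
        rw [hE0]
        nlinarith
      rw [pow_succ] at e7
      have e8 : (0 : ℝ) ≤ (B : ℝ) ^ (T + (K2 c2 k + 3)) := by positivity
      nlinarith
    calc (2 ^ k + 1) * κ + 2 * ((B : ℝ) ^ K2 c2 k * ((B + 1) / N)) ≤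
          (2 ^ k + 1) * κ + (B : ℝ) ^ (K2 c2 k + 3) * κ := by linarith
      _ = ((2 : ℝ) ^ k + 1 + (B : ℝ) ^ (K2 c2 k + 3)) * κ := by ring
      _ ≤ Q * κ := mul_le_mul_of_nonneg_right e3 hκ0.le
  have q100 : 0 ≤ (2 ^ k + 1) * κ + 2 * ((B : ℝ) ^ K2 c2 k * ((B + 1) / N)) := by positivity
  have hQ0 : 0 ≤ Q := by linarith
  have t1 : s * ((n' - n) / n') * ((2 ^ d + 1) * X2) ≤ Q * (Q * κ) * (Q * Q) := by gcongr
  have t2 : 2 ^ d * |y| * X2 ≤ Q * (Q * κ) * Q := by gcongr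
  have t3 : X1 * ((2 ^ k + 1) * κ + 2 * ((B : ℝ) ^ K2 c2 k * ((B + 1) / N))) ≤ Q * (Q * κ) := by
    gcongr
  have t4 : (t : ℝ) ^ r * (s * ((n' - n) / n') * ((2 ^ d + 1) * X2) + 2 ^ d * |y| * X2 +
      X1 * ((2 ^ k + 1) * κ + 2 * ((B : ℝ) ^ K2 c2 k * ((B + 1) / N)))) ≤
      Q * (Q * (Q * κ) * (Q * Q) + Q * (Q * κ) * Q + Q * (Q * κ)) := by
    gcongr
  have t5 : Q ^ 2 * κ + Q * (Q * (Q * κ) * (Q * Q) + Q * (Q * κ) * Q + Q * (Q * κ)) ≤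
      Q ^ 7 * κ := by
    have e1 : Q ^ 2 * κ + Q * (Q * (Q * κ) * (Q * Q) + Q * (Q * κ) * Q + Q * (Q * κ)) =
      (Q ^ 2 + Q ^ 5 + Q ^ 4 + Q ^ 3) * κ := by ring
    rw [e1]
    apply mul_le_mul_of_nonneg_right _ hκ0.le
    have hQ1 : 1 ≤ Q := by linarith
    have e2 : Q ^ 2 ≤ Q ^ 5 := pow_le_pow_right₀ hQ1 (by norm_num)
    have e3 : Q ^ 3 ≤ Q ^ 5 := pow_le_pow_right₀ hQ1 (by norm_num)
    have e4 : Q ^ 4 ≤ Q ^ 5 := pow_le_pow_right₀ hQ1 (by norm_num)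
    have e5 : Q ^ 7 = Q ^ 5 * Q ^ 2 := by ring
    have e6 : 0 ≤ Q ^ 5 := by positivity
    have e7 : 4 ≤ Q ^ 2 := by nlinarith
    have e8 := mul_le_mul_of_nonneg_left e7 e6
    rw [e5]
    linarith
  have t6 : Q ^ 7 ≤ (N : ℝ) ^ (1 / 2 ^ (12 * k) : ℝ) := by
    rw [hQ, ← pow_mul]
    apply absorb' hB1 hN
    have f1 : K2 c1 k + K2 c2 k ≤ K2 (c1 + c2 + 1) k := step_K2_sum hk
    have f2 : 6 ≤ K2 3 k := step_const hk (by norm_num)
    have f3 : K2 (c1 + c2 + 1) k + K2 3 k ≤ K2 (c1 + c2 + 1 + 3 + 1) k := step_K2_sum hk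
    have f4 : 7 ≤ K2 3 k := step_const hk (by norm_num)
    have f5 : T ≤ K2 1 k := step_T hk
    calc E0 * 7 * 2 ^ (12 * k) ≤ (K2 (c1 + c2 + 1 + 3 + 1) k * K2 1 k) * K2 3 k * K2 12 k := by
          rw [hE0]
          gcongr
          · omega
          · exact two_pow_le_K2 hk le_rfl
      _ = K2 (c1 + c2 + 1 + 3 + 1 + 1 + 3 + 12) k := by
          rw [← K2_add, ← K2_add, ← K2_add]
      _ ≤ K2 (c1 + c2 + 30) k := K2_mono k (by omega)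
  rw [step_kaj_succ hN1]
  calc 3 / n' + (t : ℝ) ^ r * (s * ((n' - n) / n') * ((2 ^ d + 1) * X2) + 2 ^ d * |y| * X2 +
      X1 * ((2 ^ k + 1) * κ + 2 * ((B : ℝ) ^ K2 c2 k * ((B + 1) / N)))) ≤
      Q ^ 2 * κ + Q * (Q * (Q * κ) * (Q * Q) + Q * (Q * κ) * Q + Q * (Q * κ)) :=
        add_le_add q9 t4
    _ ≤ Q ^ 7 * κ := t5
    _ ≤ (N : ℝ) ^ (1 / 2 ^ (12 * k) : ℝ) * κ := mul_le_mul_of_nonneg_right t6 hκ0.le

end Pool.Agent.Work.MP_215640_nt.Q
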