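import Pool.Agent.Work.MP_215640_nt.Q.Expand
import Pool.Agent.Work.MP_215640_nt.Q.TopClose
import Pool.Agent.Work.MP_215640_nt.Q.Tcf
import Pool.Agent.Work.MP_215640_nt.Q.StepA

/-!
MODULE STEP (proved). From a node of level `j` at `n` to a node of level `j + 1` at `n' = n + p u`, `p = pq q (j+1)`, step `t = q (j+1)`,
`p' = pq q (j+2) = p t`. Let `P = hp w n j Z`, `d = dq w (j+1)`, `g = gq w (j+1)`, `c = cc w (j+1)`, `z_r = round (t^r tcf P u r)`.

First claim: `P.eval (u + t v) - P.eval u = ∑_{1≤r≤d} t^r tcf P u r v^r` (`eval_add_tcf`), the distance of this number to the integer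
`∑ z_r v^r` is at most `∑_r (2M)^r / M^(3r+3) ≤ 4/M^5` (`v ≤ 2M`), and by `expand` (twice, `kaj ≤ n^(-1+1/2^(10k))` as `n ≤ 3N`; `u + t v ≤ L`) the error
between `xx/2` and `P` is at most `2 N^(-1/2^(k+1)) ≤ 1/(2M^2)`. So `xx(n'+p'v)/2 = xx(n')/2 + ∑ z_r v^r + err`, `|err| ≤ 1/M^2`, also `M ≥ 3`.
Second claim: then `xx(n'+p'v) = xx(n') + 2 ∑ z_r v^r + 2 err`, `|2 err| ≤ 2/M^2 < 4/M^2 ≤ dI (xx(n'))`, so the floors differ exactly by
`2 ∑ z_r v^r`: `F w (j+1) (n'+p'v) = Z'.eval v`, `Z' = C (F w (j+1) n') + 2 ∑_{1≤r≤d} z_r X^r` (floors of nonnegative reals; compare as integers).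
`top`: `|t^d P_d - t^d sl w q n' (j+1)| ≤ B^T (N^(-1/2^(k+1)) + ...)` by `top_close` at `n` and the shift `n0 → n'` (`sl_small`, `γ = 2`, frozen by `NJ`), while
`|t^d P_d - z_d| < 1/M^(3d+3)` (`tcf_top`); so `z_d = round (t^d sl w q n' (j+1)) = ct w q n' (j+1)`, and
`(zh w n' (j+1) Z').coeff d = n'^(d-c) 2 z_d = n'^(-g) 2 ct` which is `al_coeff_top`.
`near`, `r = 0`: `n'^(-c) F w (j+1) n' = n'^(-c) (n^c (bs w j zh).eval (u/n) + O(1)) = 1 + O(B^(K2 a k)(kaj + 1/N))` as `(bs w j zh).coeff 0 = 1 + O(..)`, `c > 1`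
(`bs_lip` against `al`, `bs_coeff_zero`); the coefficient `0` of the model is `1`. `1 ≤ r < d`: `2 z_r = 2 t^r tcf P u r + O(1)`,
`tcf P u r = n^(c-r)/2 * ((bs w j zh).comp (X + C (u/n))).coeff r` and `nm_shift`; `n'^(r-c) * O(1) ≤ N^(-1)` because `r ≤ d - 1 < c - 1`;
`(n/n')^(c-r) = 1 + O(T B^(k+1)/N)`; finally `(bs w j zh).coeff r` is within `B^(K2 a k)(kaj k N j + 1/N)` of `(bs w j (al w q n' j)).coeff r`
(`bs_lip`, `Val.near`, `Val.top`, `al_small` with `γ = 2`), and `al_coeff_lt`. Everything is `≤ kaj k N (j+1)` since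
`B^(K2 a k) ≤ N^(1/2^(12k))/8`.
-/

set_option autoImplicit false

namespace Pool.Agent.Work.MP_215640_nt.Q

open Finset Polynomial

private theorem step_kaj_le {k N j n : ℕ} (hj : j + 1 ≤ k) (hN : 1 ≤ N) (hNn : N ≤ n)
    (hn : n ≤ 3 * N) (h3 : (3 : ℝ) ≤ (N : ℝ) ^ (1 / 2 ^ (11 * k) : ℝ)) :
    kaj k N j ≤ (n : ℝ) ^ (-1 + 1 / 2 ^ (10 * k) : ℝ) := by
  have hN1 : (1 : ℝ) ≤ N := by exact_mod_cast hN
  have hN0 : (0 : ℝ) < N := by linarith
  have hNn' : (N : ℝ) ≤ n := by exact_mod_cast hNn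
  have hn0 : (0 : ℝ) < n := by linarith
  have hn' : (n : ℝ) ≤ 3 * N := by exact_mod_cast hn
  have hk : 1 ≤ k := by omega
  have hj2 : ((j : ℝ) + 1) ≤ 2 ^ k := by
    have h : j + 1 ≤ 2 ^ k := hj.trans (by have := Nat.lt_two_pow_self (n := k); omega)
    exact_mod_cast h
  have hk2 : (2 : ℝ) ≤ 2 ^ k := by
    calc (2 : ℝ) = 2 ^ 1 := by norm_num
      _ ≤ 2 ^ k := pow_le_pow_right₀ (by norm_num) hk
  have e0 : (2 : ℝ) ^ (12 * k) = 2 ^ (11 * k) * 2 ^ k := by rw [← pow_add]; congr 1; ring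
  have e0' : (2 : ℝ) ^ (11 * k) = 2 ^ (10 * k) * 2 ^ k := by rw [← pow_add]; congr 1; ring
  have hp11 : (0 : ℝ) < 2 ^ (11 * k) := by positivity
  have hp10 : (0 : ℝ) < 2 ^ (10 * k) := by positivity
  have e1 : ((j : ℝ) + 1) / 2 ^ (12 * k) + 1 / 2 ^ (11 * k) ≤ 1 / 2 ^ (10 * k) := by
    have f1 : ((j : ℝ) + 1) / 2 ^ (12 * k) ≤ 1 / 2 ^ (11 * k) := by
      rw [e0, div_le_div_iff₀ (by positivity) hp11]
      nlinarith
    have f2 : 1 / (2 : ℝ) ^ (11 * k) * 2 ≤ 1 / 2 ^ (10 * k) := by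
      rw [e0', div_mul_eq_mul_div, div_le_div_iff₀ (by positivity) hp10]
      nlinarith
    linarith
  have e2 : (N : ℝ) ^ (((j : ℝ) + 1) / 2 ^ (12 * k)) * 3 ≤ (N : ℝ) ^ (1 / 2 ^ (10 * k) : ℝ) := by
    calc (N : ℝ) ^ (((j : ℝ) + 1) / 2 ^ (12 * k)) * 3 ≤
          (N : ℝ) ^ (((j : ℝ) + 1) / 2 ^ (12 * k)) * (N : ℝ) ^ (1 / 2 ^ (11 * k) : ℝ) := by gcongr
      _ = (N : ℝ) ^ (((j : ℝ) + 1) / 2 ^ (12 * k) + 1 / 2 ^ (11 * k)) := by
          rw [← Real.rpow_add hN0]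
      _ ≤ (N : ℝ) ^ (1 / 2 ^ (10 * k) : ℝ) := Real.rpow_le_rpow_of_exponent_le hN1 e1
  have e3 : (N : ℝ) ^ (1 / 2 ^ (10 * k) : ℝ) ≤ (n : ℝ) ^ (1 / 2 ^ (10 * k) : ℝ) :=
    Real.rpow_le_rpow hN0.le hNn' (by positivity)
  unfold kaj
  rw [Real.rpow_sub hN0, Real.rpow_one, Real.rpow_add hn0, Real.rpow_neg_one,
    div_le_iff₀ hN0]
  have e4 : (n : ℝ)⁻¹ * N ≥ 1 / 3 := by
    rw [ge_iff_le, inv_mul_eq_div, div_le_div_iff₀ (by norm_num) hn0]
    linarith
  have e5 : (0 : ℝ) ≤ (n : ℝ) ^ (1 / 2 ^ (10 * k) : ℝ) := by positivity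
  have e6 : (n : ℝ)⁻¹ * (n : ℝ) ^ (1 / 2 ^ (10 * k) : ℝ) * N =
    (n : ℝ) ^ (1 / 2 ^ (10 * k) : ℝ) * ((n : ℝ)⁻¹ * N) := by ring
  rw [e6]
  have e7 := mul_le_mul_of_nonneg_left e4 e5
  linarith

private theorem step_round_eq {x : ℝ} {z : ℤ} (h : |x - z| < 1 / 2) : round x = z := by
  rw [abs_lt] at h
  rw [round_eq, Int.floor_eq_iff]
  constructor <;> linarith

private theorem step_shift_le {n0 N h B : ℝ} (hN : 1 ≤ N) (hN0 : N ≤ n0) (hh0 : 0 ≤ h)
    (hh : h ≤ B) : h / n0 + n0 ^ (-(2 : ℝ)) ≤ (B + 1) / N := by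
  have h1 : h / n0 ≤ B / N := by
    apply div_le_div₀ (by linarith) hh (by linarith) hN0
  have h2 : n0 ^ (-(2 : ℝ)) ≤ 1 / N := by
    calc n0 ^ (-(2 : ℝ)) ≤ n0 ^ (-(1 : ℝ)) :=
          Real.rpow_le_rpow_of_exponent_le (by linarith) (by norm_num)
      _ = 1 / n0 := by rw [Real.rpow_neg_one, one_div]
      _ ≤ 1 / N := one_div_le_one_div_of_le (by linarith) hN0
  rw [add_div]
  linarith

theorem step : ∃ c : ℕ, ∀ k : ℕ, 1 ≤ k → ∀ w : ℕ → Bool, Pos w k → ∀ B : ℕ, 2 ≤ B → ∀ q : ℕ → ℕ,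
    (∀ i, 1 ≤ q i ∧ q i ≤ B) → ∀ N : ℕ, (B : ℝ) ^ K2 c k ≤ N → ∀ n0 n : ℕ, N ≤ n0 → n0 ≤ 2 * N → n0 ≤ n →
    ∀ j, j + 1 < k → ∀ (L : ℕ) (Z : ℝ[X]), L ≤ B → Val w q (kaj k N j) L n j Z → NJ w q n0 j B →
    ∀ M : ℕ, 8 ≤ M → M ≤ B → ∀ u : ℕ, u + q (j + 1) * (2 * M) ≤ L → n + pq q (j + 1) * u ≤ n0 + B →
    (∀ r, 1 ≤ r → r ≤ dq w (j + 1) →
      dI ((q (j + 1) : ℝ) ^ r * tcf (hp w n j Z) u r) < 1 / (M : ℝ) ^ (3 * r + 3)) →
    (∀ v ≤ 2 * M, dI ((xx w (j + 1) (n + pq q (j + 1) * u + pq q (j + 2) * v) -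
      xx w (j + 1) (n + pq q (j + 1) * u)) / 2) ≤ 1 / (M : ℝ) ^ 2) ∧
    (4 / (M : ℝ) ^ 2 ≤ dI (xx w (j + 1) (n + pq q (j + 1) * u)) →
      ∃ Z' : ℝ[X], Val w q (kaj k N (j + 1)) (2 * M) (n + pq q (j + 1) * u) (j + 1) Z') := by
  obtain ⟨c1, h1⟩ := al_close
  obtain ⟨c2, h2⟩ := al_small
  obtain ⟨c3, h3⟩ := sl_small
  obtain ⟨c4, h4⟩ := expand
  obtain ⟨c5, h5⟩ := top_close
  refine ⟨c1 + c2 + c3 + c4 + c5 + 40, ?_⟩
  intro k hk w hw B hB q hq N hN n0 n hNn0 hn0N hn0n j hj L Z hL hZ hNJ M hM hMB u hu hun htcf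
  have hB2 : (2 : ℝ) ≤ B := by exact_mod_cast hB
  have hB1 : (1 : ℝ) ≤ B := by linarith
  have hN' : ∀ c ≤ c1 + c2 + c3 + c4 + c5 + 40, (B : ℝ) ^ K2 c k ≤ N :=
    fun c hc => pow_K2_mono hB1 hc hN
  have hNr1 : (1 : ℝ) ≤ N := (one_le_pow₀ hB1).trans hN
  have hN1 : 1 ≤ N := by exact_mod_cast hNr1
  have hN0 : (0 : ℝ) < N := by linarith
  have hBNr : (B : ℝ) ≤ N := by
    refine le_trans ?_ hN
    calc (B : ℝ) = (B : ℝ) ^ 1 := (pow_one _).symm
      _ ≤ _ := pow_le_pow_right₀ hB1 (one_le_K2 _ _)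
  have hBN : B ≤ N := by exact_mod_cast hBNr
  set n' := n + pq q (j + 1) * u with hn'
  set t := q (j + 1) with ht
  set P := hp w n j Z with hP
  set d := dq w (j + 1) with hd
  have hpq : pq q (j + 2) = pq q (j + 1) * t := by
    unfold pq
    rw [prod_range_succ]
  have hnn' : n ≤ n' := by rw [hn']; exact Nat.le_add_right _ _
  have hNn : N ≤ n := hNn0.trans hn0n
  have hn3 : n ≤ 3 * N := by omega
  have hNnr : (N : ℝ) ≤ n := by exact_mod_cast hNn
  have hNn0r : (N : ℝ) ≤ n0 := by exact_mod_cast hNn0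
  have hnn'r : (n : ℝ) ≤ n' := by exact_mod_cast hnn'
  have hn0r : (0 : ℝ) < n := by linarith
  have hn'0r : (0 : ℝ) < n' := by linarith
  have htB : t ≤ B := (hq _).2
  have ht1 : 1 ≤ t := (hq _).1
  have huB : u ≤ B := by
    have := Nat.zero_le (t * (2 * M))
    omega
  have hM' : (8 : ℝ) ≤ M := by exact_mod_cast hM
  have hM0 : (0 : ℝ) < M := by linarith
  have hMBr : (M : ℝ) ≤ B := by exact_mod_cast hMB
  have hdeg : P.natDegree ≤ d := natDegree_hp w n j Z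
  have hd1 : 1 ≤ d := dq_pos hw hj
  have hdT : d ≤ 2 ^ k :=
    (dq_le w (j + 1)).trans (Nat.pow_le_pow_right (by norm_num) (by omega))
  -- absorption
  set ν : ℝ := (N : ℝ) ^ (-(1 / 2 ^ (k + 1)) : ℝ) with hν
  have hν0 : 0 < ν := by positivity
  have habs : ∀ e : ℕ, e * 2 ^ (k + 1) ≤ K2 (c1 + c2 + c3 + c4 + c5 + 40) k →
      (B : ℝ) ^ e * ν ≤ 1 := by
    intro e he
    have := absorb' hB1 hN he
    rw [hν, Real.rpow_neg hN0.le]
    rw [mul_inv_le_iff₀ (by positivity), one_mul]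
    exact this
  have h3N : (3 : ℝ) ≤ (N : ℝ) ^ (1 / 2 ^ (11 * k) : ℝ) := by
    have e1 : (B : ℝ) ^ 2 ≤ (N : ℝ) ^ (1 / 2 ^ (11 * k) : ℝ) := by
      apply absorb' hB1 hN
      calc 2 * 2 ^ (11 * k) ≤ K2 1 k * K2 11 k := by
            gcongr
            · exact step_const hk (by norm_num)
            · exact two_pow_le_K2 hk le_rfl
        _ = K2 (1 + 11) k := by rw [← K2_add]
        _ ≤ _ := K2_mono k (by omega)
    nlinarith
  have hka : kaj k N j ≤ (n : ℝ) ^ (-1 + 1 / 2 ^ (10 * k) : ℝ) :=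
    step_kaj_le (by omega) hN1 hNn hn3 h3N
  have h2k : (2 : ℕ) ^ (k + 1) ≤ K2 2 k := by
    calc (2 : ℕ) ^ (k + 1) ≤ 2 ^ (2 * k) := Nat.pow_le_pow_right (by norm_num) (by omega)
      _ ≤ K2 2 k := two_pow_le_K2 hk le_rfl
  have hν1 : ν ≤ 1 / (4 * (M : ℝ) ^ 2) := by
    have e1 : (B : ℝ) ^ 4 * ν ≤ 1 := by
      apply habs
      calc 4 * 2 ^ (k + 1) ≤ K2 2 k * K2 2 k := by
            gcongr
            exact step_const hk (by norm_num)
        _ = K2 (2 + 2) k := by rw [← K2_add]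
        _ ≤ _ := K2_mono k (by omega)
    rw [le_div_iff₀ (by positivity)]
    refine le_trans ?_ e1
    rw [mul_comm]
    apply mul_le_mul_of_nonneg_right _ hν0.le
    calc 4 * (M : ℝ) ^ 2 ≤ (B : ℝ) ^ 2 * (B : ℝ) ^ 2 := by
          gcongr
          nlinarith
      _ = (B : ℝ) ^ 4 := by ring
  -- the polynomial on the progression
  have hexp : ∀ v ≤ 2 * M,
      |xx w (j + 1) (n' + pq q (j + 2) * v) / 2 - P.eval ((u : ℝ) + t * v)| ≤ ν := by
    intro v hv
    have e1 := h4 k hk w hw B hB q hq n ((hN' c4 (by omega)).trans hNnr) j hj (kaj k N j) L Z hka hL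
      hZ (u + t * v) (le_trans (by gcongr) hu)
    have e2 : n + pq q (j + 1) * (u + t * v) = n' + pq q (j + 2) * v := by
      rw [hn', hpq]; ring
    rw [e2] at e1
    push_cast at e1
    refine e1.trans ?_
    exact Real.rpow_le_rpow_of_nonpos hN0 hNnr (by
      have : (0 : ℝ) ≤ 1 / 2 ^ (k + 1) := by positivity
      linarith)
  have hexp0 : |xx w (j + 1) n' / 2 - P.eval (u : ℝ)| ≤ ν := by
    have := hexp 0 (by omega)
    simpa using this
  set z : ℕ → ℤ := fun r => round ((t : ℝ) ^ r * tcf P u r) with hz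
  have hzr : ∀ r, 1 ≤ r → r ≤ d → |(t : ℝ) ^ r * tcf P u r - z r| ≤ 1 / (M : ℝ) ^ (3 * r + 3) :=
    fun r hr1 hr2 => (htcf r hr1 hr2).le
  set s : ℕ → ℤ := fun v => ∑ r ∈ Icc 1 d, z r * (v : ℤ) ^ r with hs
  have herr : ∀ v ≤ 2 * M, |(xx w (j + 1) (n' + pq q (j + 2) * v) - xx w (j + 1) n') / 2 - s v| ≤
      1 / (M : ℝ) ^ 2 := by
    intro v hv
    have e1 := hexp v hv
    have e2 := eval_add_tcf P d hdeg u ((t : ℝ) * v)
    have e3 := step_round d M v hM hv (fun r => (t : ℝ) ^ r * tcf P u r) z hzr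
    have e4 : ∑ r ∈ Icc 1 d, tcf P u r * ((t : ℝ) * v) ^ r =
        ∑ r ∈ Icc 1 d, ((t : ℝ) ^ r * tcf P u r) * (v : ℝ) ^ r :=
      Finset.sum_congr rfl fun r _ => by rw [mul_pow]; ring
    have e5 : ((s v : ℤ) : ℝ) = ∑ r ∈ Icc 1 d, (z r : ℝ) * (v : ℝ) ^ r := by
      rw [hs]; push_cast; rfl
    rw [e4] at e2
    rw [← e5] at e3
    have e6 : (xx w (j + 1) (n' + pq q (j + 2) * v) - xx w (j + 1) n') / 2 - s v =
        (xx w (j + 1) (n' + pq q (j + 2) * v) / 2 - P.eval ((u : ℝ) + t * v)) -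
        (xx w (j + 1) n' / 2 - P.eval (u : ℝ)) +
        (∑ r ∈ Icc 1 d, ((t : ℝ) ^ r * tcf P u r) * (v : ℝ) ^ r - s v) := by
      rw [e2]; ring
    rw [e6]
    refine (abs_add_le _ _).trans ?_
    have e7 := abs_sub (xx w (j + 1) (n' + pq q (j + 2) * v) / 2 - P.eval ((u : ℝ) + t * v))
      (xx w (j + 1) n' / 2 - P.eval (u : ℝ))
    have e8 : 1 / (M : ℝ) ^ 2 = 4 * (1 / (4 * (M : ℝ) ^ 2)) := by field_simp
    have e9 : (0 : ℝ) < 1 / (4 * (M : ℝ) ^ 2) := by positivity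
    linarith
  refine ⟨fun v hv => (dI_le _ (s v)).trans (herr v hv), fun hdI => ?_⟩
  set Z' : ℝ[X] := C (F w (j + 1) n' : ℝ) + ∑ r ∈ Icc 1 d, monomial r (2 * (z r : ℝ)) with hZ'
  have hZ'0 : Z'.coeff 0 = F w (j + 1) n' := by
    rw [hZ', coeff_add, coeff_C_zero, finsetSum_coeff, Finset.sum_eq_zero, add_zero]
    intro r hr
    rw [mem_Icc] at hr
    rw [coeff_monomial, if_neg (by omega)]
  have hZ'r : ∀ r, 1 ≤ r → r ≤ d → Z'.coeff r = 2 * (z r : ℝ) := by
    intro r hr1 hr2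
    rw [hZ', coeff_add, coeff_C_of_ne_zero (by omega), zero_add, finsetSum_coeff,
      Finset.sum_eq_single r]
    · rw [coeff_monomial, if_pos rfl]
    · intro i _ hi
      rw [coeff_monomial, if_neg hi]
    · intro hr
      exact absurd (mem_Icc.2 ⟨hr1, hr2⟩) hr
  have hzhc : ∀ r, (zh w n' (j + 1) Z').coeff r =
      (n' : ℝ) ^ (-(cc w (j + 1) - r)) * Z'.coeff r := by
    intro r
    unfold zh
    rw [coeff_C_mul, coeff_scale, ← mul_assoc, ← Real.rpow_natCast (n' : ℝ) r,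
      ← Real.rpow_add hn'0r]
    congr 2
    ring
  have hcd : cc w (j + 1) = d + gq w (j + 1) := cc_eq_add w (j + 1)
  have hg0 := gq_nonneg w (j + 1)
  have hck : cc w (j + 1) ≤ 2 ^ k :=
    (cc_le w (j + 1)).trans (pow_le_pow_right₀ (by norm_num) (by omega))
  refine ⟨Z', ?_, ?_, ?_, ?_⟩
  · rw [hZ']
    refine (natDegree_add_le _ _).trans (max_le ?_ ?_)
    · rw [natDegree_C]; exact Nat.zero_le _
    · apply natDegree_sum_le_of_forall_le
      intro r hr
      exact (natDegree_monomial_le _).trans (mem_Icc.1 hr).2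
  · intro v hv
    have e1 := herr v hv
    set er : ℝ := 2 * ((xx w (j + 1) (n' + pq q (j + 2) * v) - xx w (j + 1) n') / 2 - s v) with her
    have e2 : |er| < dI (xx w (j + 1) n') := by
      refine lt_of_lt_of_le ?_ hdI
      rw [her, abs_mul, abs_of_pos (by norm_num : (0 : ℝ) < 2)]
      have e3 : 4 / (M : ℝ) ^ 2 = 2 * (1 / (M : ℝ) ^ 2) + 2 * (1 / (M : ℝ) ^ 2) := by ring
      have e4 : (0 : ℝ) < 1 / (M : ℝ) ^ 2 := by positivity
      linarith
    have e5 := step_floor (s := 2 * s v) e2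
    have e6 : xx w (j + 1) n' + ((2 * s v : ℤ) : ℝ) + er =
        xx w (j + 1) (n' + pq q (j + 2) * v) := by
      rw [her]; push_cast; ring
    rw [e6] at e5
    rw [step_F, show j + 1 + 1 = j + 2 from rfl, e5, hZ', eval_add, eval_C, eval_finsetSum,
      step_F]
    push_cast
    congr 1
    rw [hs]
    push_cast
    rw [Finset.mul_sum]
    refine Finset.sum_congr rfl fun r _ => ?_
    rw [eval_monomial]
    ring
  · -- closeness of the lower coefficients
    intro r hr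
    rw [hzhc r]
    have hr' : ((r : ℝ) + 1) ≤ d := by exact_mod_cast hr
    have hs1 : 1 ≤ cc w (j + 1) - r := by rw [hcd]; linarith
    have hs2 : cc w (j + 1) - r ≤ 2 ^ k := by
      have : (0 : ℝ) ≤ r := by positivity
      linarith
    rw [al_coeff_lt w q n' j r hr]
    have hal := h1 k hk w hw B hB q hq
    have hR1 : (1 : ℝ) ≤ (B : ℝ) ^ K2 c1 k + 2 := by
      have : (0 : ℝ) ≤ (B : ℝ) ^ K2 c1 k := by positivity
      linarith
    have hκ0 : 0 ≤ kaj k N j := by unfold kaj; positivity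
    have hκ1 : (2 ^ k + 1) * kaj k N j ≤ 1 := by
      have f1 : (2 : ℝ) ^ k + 1 ≤ (N : ℝ) ^ (1 / 2 ^ 1 : ℝ) := by
        have g1 : (B : ℝ) ^ (k + 1) ≤ (N : ℝ) ^ (1 / 2 ^ 1 : ℝ) := by
          apply absorb' hB1 hN
          calc (k + 1) * 2 ^ 1 ≤ K2 2 k * K2 1 k := by
                gcongr
                · refine le_trans ?_ h2k
                  exact (Nat.lt_two_pow_self (n := k + 1)).le
                · exact step_const hk (by norm_num)
            _ = K2 (2 + 1) k := by rw [← K2_add]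
            _ ≤ _ := K2_mono k (by omega)
        refine le_trans ?_ g1
        calc (2 : ℝ) ^ k + 1 ≤ 2 ^ k + 2 ^ k := by
              have : (1 : ℝ) ≤ 2 ^ k := one_le_pow₀ (by norm_num)
              linarith
          _ = 2 ^ (k + 1) := by ring
          _ ≤ (B : ℝ) ^ (k + 1) := pow_le_pow_left₀ (by norm_num) hB2 _
      have f2 : kaj k N j ≤ (N : ℝ) ^ (-(1 / 2 ^ 1) : ℝ) := by
        unfold kaj
        apply Real.rpow_le_rpow_of_exponent_le hNr1
        have g1 : ((j : ℝ) + 1) ≤ 2 ^ k := by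
          have h : j + 1 ≤ 2 ^ k := hj.le.trans (Nat.lt_two_pow_self (n := k)).le
          exact_mod_cast h
        have g2 : ((j : ℝ) + 1) / 2 ^ (12 * k) ≤ 1 / 2 := by
          rw [div_le_div_iff₀ (by positivity) (by norm_num), one_mul]
          calc ((j : ℝ) + 1) * 2 ≤ 2 ^ k * 2 := by linarith
            _ = 2 ^ (k + 1) := by ring
            _ ≤ 2 ^ (12 * k) := pow_le_pow_right₀ (by norm_num) (by omega)
        linarith
      calc (2 ^ k + 1) * kaj k N j ≤ (N : ℝ) ^ (1 / 2 ^ 1 : ℝ) * (N : ℝ) ^ (-(1 / 2 ^ 1) : ℝ) :=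
            mul_le_mul f1 f2 hκ0 (by positivity)
        _ = 1 := by
            rw [← Real.rpow_add hN0, add_neg_cancel, Real.rpow_zero]
    have hzal : nm (zh w n j Z - al w q n j) ≤ (2 ^ k + 1) * kaj k N j := by
      refine (step_val_nm hZ hκ0).trans ?_
      apply mul_le_mul_of_nonneg_right _ hκ0
      have : (dq w j : ℝ) ≤ 2 ^ k := by
        calc (dq w j : ℝ) ≤ ((2 ^ j : ℕ) : ℝ) := by exact_mod_cast dq_le w j
          _ = 2 ^ j := by push_cast; rfl
          _ ≤ 2 ^ k := pow_le_pow_right₀ (by norm_num) (by omega)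
      linarith
    have haln := (hal n ((hN' c1 (by omega)).trans hNnr) j (by omega)).1
    have haln' := (hal n' ((hN' c1 (by omega)).trans (hNnr.trans hnn'r)) j (by omega)).1
    have hzR : nm (zh w n j Z - 1) ≤ (B : ℝ) ^ K2 c1 k + 2 := by
      have e1 : zh w n j Z - 1 = (zh w n j Z - al w q n j) + (al w q n j - 1) := by ring
      rw [e1]
      have e2 := nm_add_le (zh w n j Z - al w q n j) (al w q n j - 1)
      have e3 := nm_sub_le (al w q (n : ℝ) j) 1
      rw [nm_one] at e3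
      linarith
    have halR : nm (al w q n' j - 1) ≤ (B : ℝ) ^ K2 c1 k + 2 := by
      have e3 := nm_sub_le (al w q (n' : ℝ) j) 1
      rw [nm_one] at e3
      linarith
    -- shifts
    have hsh : ∀ m : ℕ, n0 ≤ m → m ≤ n0 + B →
        nm (al w q m j - al w q n0 j) ≤ (B : ℝ) ^ K2 c2 k * ((B + 1) / N) := by
      intro m hm1 hm2
      obtain ⟨hh, rfl⟩ := Nat.exists_eq_add_of_le hm1
      have hhB : hh ≤ B := by omega
      have e1 := h2 k hk w hw B hB q hq n0 ((hN' c2 (by omega)).trans hNn0r) hh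
        (by exact_mod_cast (hhB.trans hBN).trans hNn0) 2 (by norm_num) j (by omega)
        (fun i hi1 hi2 _ => by
          have := hNJ i hi1 hi2 hh (by exact_mod_cast hhB)
          push_cast at this
          exact this)
      push_cast
      refine e1.trans (mul_le_mul_of_nonneg_left ?_ (by positivity))
      exact step_shift_le hNr1 hNn0r (by positivity) (by exact_mod_cast hhB)
    have hδ : nm (zh w n j Z - al w q n' j) ≤
        (2 ^ k + 1) * kaj k N j + 2 * ((B : ℝ) ^ K2 c2 k * ((B + 1) / N)) := by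
      have e1 : zh w n j Z - al w q n' j = (zh w n j Z - al w q n j) +
          ((al w q n j - al w q n0 j) - (al w q n' j - al w q n0 j)) := by ring
      rw [e1]
      have e2 := nm_add_le (zh w n j Z - al w q n j)
        ((al w q n j - al w q n0 j) - (al w q n' j - al w q n0 j))
      have e3 := nm_sub_le (al w q (n : ℝ) j - al w q n0 j) (al w q n' j - al w q n0 j)
      have e4 := hsh n hn0n (by omega)
      have e5 := hsh n' (by omega) hun
      linarith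
    have hG := bs_nm w j (zh w n j Z) _ hR1 hzR
    have hL' := (bs_lip w j (zh w n j Z) (al w q n' j) _ hR1 hzR halR).trans
      (mul_le_mul_of_nonneg_left hδ (by positivity))
    have hy : |(u : ℝ) * (n : ℝ)⁻¹| ≤ B / N := by
      rw [abs_of_nonneg (by positivity), ← div_eq_mul_inv]
      apply div_le_div₀ (by positivity) (by exact_mod_cast huB) hN0 hNnr
    have hy1 : |(u : ℝ) * (n : ℝ)⁻¹| ≤ 1 := hy.trans (by rw [div_le_one hN0]; exact hBNr)
    have hbb : (t : ℝ) ^ r * ((n : ℝ) ^ (cc w (j + 1) - r) *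
        ((bs w j (zh w n j Z)).comp (X + C ((u : ℝ) * (n : ℝ)⁻¹))).coeff r) =
        2 * ((t : ℝ) ^ r * tcf P u r) := by
      rw [hP, step_tcf_hp, Real.rpow_sub hn0r, Real.rpow_natCast, inv_pow]
      field_simp
    have hZ3 : |Z'.coeff r - (t : ℝ) ^ r * ((n : ℝ) ^ (cc w (j + 1) - r) *
        ((bs w j (zh w n j Z)).comp (X + C ((u : ℝ) * (n : ℝ)⁻¹))).coeff r)| ≤ 3 := by
      rw [hbb]
      rcases Nat.eq_zero_or_pos r with hr0 | hr0
      · subst hr0
        rw [hZ'0, pow_zero, one_mul]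
        have e1 : tcf P u 0 = P.eval (u : ℝ) := by
          unfold tcf
          rw [coeff_zero_eq_eval_zero, eval_comp, eval_add, eval_X, eval_C, zero_add]
        rw [e1, step_F]
        have e2 := Int.floor_le (xx w (j + 1) n')
        have e3 := Int.lt_floor_add_one (xx w (j + 1) n')
        have e4 := abs_le.1 hexp0
        have e5 : ν ≤ 1 := hν1.trans (by
          rw [div_le_one (by positivity)]
          nlinarith)
        rw [abs_le]
        constructor <;> linarith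
      · rw [hZ'r r hr0 hr.le, ← mul_sub, abs_mul, abs_of_pos (by norm_num : (0 : ℝ) < 2),
          abs_sub_comm]
        have := abs_sub_round ((t : ℝ) ^ r * tcf P u r)
        have e1 : (z r : ℝ) = (round ((t : ℝ) ^ r * tcf P u r) : ℝ) := rfl
        rw [e1]
        linarith
    refine (step_coeff (bs_natDegree w j _) hy1 hG hL' hn0r hnn'r (by linarith) hs1
      (by positivity) hZ3).trans ?_
    refine step_arith (c1 := c1) (c2 := c2) hk hB (hN' _ (by omega)) hdT hr.le htB (by linarith)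
      hs2 (hNnr.trans hnn'r) hnn'r ?_ hy
    have : (n' : ℝ) ≤ ((n0 + B : ℕ) : ℝ) := by exact_mod_cast hun
    have e2 : (n0 : ℝ) ≤ n := by exact_mod_cast hn0n
    push_cast at this
    linarith
  · -- the top coefficient
    rw [hzhc d, al_coeff_top]
    have e1 : (n' : ℝ) ^ (-(cc w (j + 1) - (d : ℝ))) = (n' : ℝ) ^ (-gq w (j + 1)) := rfl
    have e2 : ct w q n' (j + 1) = z d := by
      apply step_round_eq
      have hPd : |P.coeff d - sl w q n0 (j + 1)| ≤ ν :=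
        h5 k hk w hw B hB q hq N (hN' c5 (by omega)) n0 n hNn0 hn0N hn0n (by omega) j hj L Z hZ hNJ
      have hg1 : gq w (j + 1) - 1 ≤ -(1 / 2 ^ (k + 1) : ℝ) := by
        have f1 := gq_upper w (j := j + 1) (by omega)
        have f2 : (1 : ℝ) / 2 ^ (k + 1) ≤ 1 / 2 ^ (j + 1) := by
          apply one_div_le_one_div_of_le (by positivity)
          exact pow_le_pow_right₀ (by norm_num) (by omega)
        linarith
      have hn0r' : (0 : ℝ) < n0 := by linarith
      have hnu : (n0 : ℝ) ^ gq w (j + 1) * ((B + 1) / n0) ≤ (B + 1) * ν := by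
        have f1 : (n0 : ℝ) ^ gq w (j + 1) * ((B + 1) / n0) =
            (B + 1) * (n0 : ℝ) ^ (gq w (j + 1) - 1) := by
          rw [Real.rpow_sub hn0r', Real.rpow_one]; ring
        rw [f1]
        apply mul_le_mul_of_nonneg_left _ (by positivity)
        calc (n0 : ℝ) ^ (gq w (j + 1) - 1) ≤ (n0 : ℝ) ^ (-(1 / 2 ^ (k + 1)) : ℝ) :=
              Real.rpow_le_rpow_of_exponent_le (by linarith) hg1
          _ ≤ ν := Real.rpow_le_rpow_of_nonpos hN0 hNn0r (by
              have : (0 : ℝ) ≤ 1 / 2 ^ (k + 1) := by positivity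
              linarith)
      have hsl : |sl w q n' (j + 1) - sl w q n0 (j + 1)| ≤
          (B : ℝ) ^ K2 c3 k * ((B + 1) * ν) := by
        obtain ⟨hh, hh'⟩ := Nat.exists_eq_add_of_le (show n0 ≤ n' by omega)
        have hhB : hh ≤ B := by omega
        have f1 := h3 k hk w hw B hB q hq n0 ((hN' c3 (by omega)).trans hNn0r) hh
          (by exact_mod_cast (hhB.trans hBN).trans hNn0) 2 (by norm_num) (j + 1) (by omega) hj
          (fun i hi1 hi2 _ => by
            have := hNJ i hi1 (by omega) hh (by exact_mod_cast hhB)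
            push_cast at this
            exact this)
        rw [hh']
        push_cast
        refine f1.trans ?_
        rw [mul_assoc]
        apply mul_le_mul_of_nonneg_left _ (by positivity)
        refine le_trans (mul_le_mul_of_nonneg_left ?_ (by positivity)) hnu
        exact step_shift_le (by linarith) le_rfl (by positivity) (by exact_mod_cast hhB)
      have hdiff : |P.coeff d - sl w q n' (j + 1)| ≤ (B : ℝ) ^ (K2 c3 k + 3) * ν := by
        have f1 : P.coeff d - sl w q n' (j + 1) = (P.coeff d - sl w q n0 (j + 1)) -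
            (sl w q n' (j + 1) - sl w q n0 (j + 1)) := by ring
        rw [f1]
        refine (abs_sub _ _).trans ?_
        have f2 : ν + (B : ℝ) ^ K2 c3 k * ((B + 1) * ν) ≤ (B : ℝ) ^ (K2 c3 k + 3) * ν := by
          have f3 : (1 : ℝ) ≤ (B : ℝ) ^ K2 c3 k := one_le_pow₀ hB1
          have f4 : (B : ℝ) + 2 ≤ (B : ℝ) ^ 3 := by
            have f5 : (4 : ℝ) ≤ (B : ℝ) ^ 2 := by nlinarith
            have f6 := mul_le_mul_of_nonneg_right f5 (by linarith : (0 : ℝ) ≤ B)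
            rw [pow_succ]
            linarith
          have f7 : 1 + (B : ℝ) ^ K2 c3 k * (B + 1) ≤ (B : ℝ) ^ K2 c3 k * (B : ℝ) ^ 3 := by
            have f8 := mul_le_mul_of_nonneg_left f4 (by linarith : (0 : ℝ) ≤ (B : ℝ) ^ K2 c3 k)
            nlinarith
          rw [pow_add]
          have f9 := mul_le_mul_of_nonneg_right f7 hν0.le
          linarith
        linarith
      have hfin : (t : ℝ) ^ d * |P.coeff d - sl w q n' (j + 1)| ≤ 1 / 4 := by
        have f1 : (t : ℝ) ^ d ≤ (B : ℝ) ^ 2 ^ k := by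
          calc (t : ℝ) ^ d ≤ (B : ℝ) ^ d := pow_le_pow_left₀ (by positivity) (by exact_mod_cast htB) d
            _ ≤ (B : ℝ) ^ 2 ^ k := pow_le_pow_right₀ hB1 hdT
        have f2 : (B : ℝ) ^ (2 ^ k + (K2 c3 k + 3) + 2) * ν ≤ 1 := by
          apply habs
          have g1 : 2 ^ k ≤ K2 1 k := step_T hk
          have g2 : 3 + 2 ≤ K2 3 k := step_const hk (by norm_num)
          have g3 : K2 1 k + K2 c3 k ≤ K2 (1 + c3 + 1) k := step_K2_sum hk
          have g4 : K2 (1 + c3 + 1) k + K2 3 k ≤ K2 (1 + c3 + 1 + 3 + 1) k := step_K2_sum hk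
          calc (2 ^ k + (K2 c3 k + 3) + 2) * 2 ^ (k + 1) ≤
                K2 (1 + c3 + 1 + 3 + 1) k * K2 2 k := by
                apply Nat.mul_le_mul _ h2k
                omega
            _ = K2 (1 + c3 + 1 + 3 + 1 + 2) k := by rw [← K2_add]
            _ ≤ _ := K2_mono k (by omega)
        calc (t : ℝ) ^ d * |P.coeff d - sl w q n' (j + 1)| ≤
              (B : ℝ) ^ 2 ^ k * ((B : ℝ) ^ (K2 c3 k + 3) * ν) :=
              mul_le_mul f1 hdiff (abs_nonneg _) (by positivity)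
          _ ≤ 1 / 4 := by
              rw [pow_add, pow_add (B : ℝ) (2 ^ k)] at f2
              have f3 : (4 : ℝ) ≤ (B : ℝ) ^ 2 := by nlinarith
              have f4 : (0 : ℝ) ≤ (B : ℝ) ^ 2 ^ k * (B : ℝ) ^ (K2 c3 k + 3) * ν := by positivity
              nlinarith
      have hM8 : 1 / (M : ℝ) ^ (3 * d + 3) ≤ 1 / 8 := by
        apply one_div_le_one_div_of_le (by norm_num)
        calc (8 : ℝ) ≤ (M : ℝ) ^ 1 := by rw [pow_one]; exact hM'
          _ ≤ (M : ℝ) ^ (3 * d + 3) := pow_le_pow_right₀ (by linarith) (by omega)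
      have hzd := hzr d hd1 le_rfl
      rw [tcf_top P d hdeg u] at hzd
      have f1 : (t : ℝ) ^ d * sl w q n' (j + 1) - z d =
          ((t : ℝ) ^ d * P.coeff d - z d) - (t : ℝ) ^ d * (P.coeff d - sl w q n' (j + 1)) := by
        ring
      rw [f1]
      refine lt_of_le_of_lt (abs_sub _ _) ?_
      rw [abs_mul, abs_of_nonneg (by positivity : (0 : ℝ) ≤ (t : ℝ) ^ d)]
      linarith
    rw [e1, hZ'r d hd1 le_rfl, e2]

end Pool.Agent.Work.MP_215640_nt.Q
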