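import Pool.Agent.Work.MP_215640_nt.Q.Defs

/-!
MODULE SUMLEM. The averaging inequality of one node (finite sums only).

Write `E_u = (1/V) ∑_{u<V}`, `E_q = (1/Q) ∑_{q∈[1,Q]}`. `|E_u F - E_u E_q wt A| ≤ 1/M`. Where `wt ≠ 0`, `|A - h μ'| ≤ 1/M + e + b q`, so
`|E_u E_q wt (A - h μ')| ≤ (1/M + e) E_u E_q wt + E_q b_q E_u wt ≤ (1 + 1/M)(1/M + e) + E_q c_q b_q`.
`|E_u h μ' (E_q wt - 1)| ≤ 1/M`, `|E_u h - μl| ≤ 2/M`. Total `(1+1/M) e + (1+1/M)/M + 4/M + E_q c_q b_q ≤ (1+1/M) e + 6/M + ...`.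
-/

set_option autoImplicit false

namespace Pool.Agent.Work.MP_215640_nt.Q

open Finset Polynomial

theorem sum_lem (V Q M : ℕ) (hV : 1 ≤ V) (hQ : 1 ≤ Q) (hM : 1 ≤ M) (F h : ℕ → ℝ) (W A : ℕ → ℕ → ℝ)
    (μ' μl e : ℝ) (b c : ℕ → ℝ)
    (hW : ∀ u q, 0 ≤ W u q) (hh : ∀ u, 0 ≤ h u ∧ h u ≤ 1) (hμ' : 0 ≤ μ' ∧ μ' ≤ 1) (he : 0 ≤ e)
    (hb : ∀ q, 0 ≤ b q) (hc : ∀ q, 0 ≤ c q)
    (h1 : |∑ u ∈ range V, F u - ∑ u ∈ range V, (1 / (Q : ℝ)) * ∑ q ∈ Icc 1 Q, W u q * A u q| ≤ V / M)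
    (h2 : |∑ u ∈ range V, h u - μl * V| ≤ 2 * V / M)
    (h3 : ∀ q ∈ Icc 1 Q, ∑ u ∈ range V, W u q ≤ c q * V)
    (h4 : ∑ u ∈ range V, |1 - (1 / (Q : ℝ)) * ∑ q ∈ Icc 1 Q, W u q| ≤ V / M)
    (h5 : ∀ u ∈ range V, ∀ q ∈ Icc 1 Q, W u q ≠ 0 → |A u q - h u * μ'| ≤ 1 / M + e + b q) :
    |(1 / (V : ℝ)) * ∑ u ∈ range V, F u - μl * μ'| ≤
      (1 + 1 / M) * e + 6 / M + (1 / (Q : ℝ)) * ∑ q ∈ Icc 1 Q, c q * b q := by
  have hV0 : (0 : ℝ) < V := by exact_mod_cast hV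
  have hQ0 : (0 : ℝ) < Q := by exact_mod_cast hQ
  have hM0 : (1 : ℝ) ≤ M := by exact_mod_cast hM
  have hMinv : 0 < 1 / (M : ℝ) := by positivity
  have hMinv1 : 1 / (M : ℝ) ≤ 1 := by rw [div_le_one (by linarith)]; exact hM0
  set E : ℕ → ℝ := fun u => (1 / (Q : ℝ)) * ∑ q ∈ Icc 1 Q, W u q with hE
  set R : ℝ := (1 / (Q : ℝ)) * ∑ q ∈ Icc 1 Q, c q * b q with hR
  -- decomposition
  have hdec : ∑ u ∈ range V, F u - V * (μl * μ') =
      (∑ u ∈ range V, F u - ∑ u ∈ range V, (1 / (Q : ℝ)) * ∑ q ∈ Icc 1 Q, W u q * A u q) +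
      (∑ u ∈ range V, (1 / (Q : ℝ)) * ∑ q ∈ Icc 1 Q, W u q * (A u q - h u * μ')) +
      (∑ u ∈ range V, h u * μ' * (E u - 1)) + μ' * (∑ u ∈ range V, h u - μl * V) := by
    have e1 : ∑ u ∈ range V, (1 / (Q : ℝ)) * ∑ q ∈ Icc 1 Q, W u q * (A u q - h u * μ') =
        ∑ u ∈ range V, (1 / (Q : ℝ)) * ∑ q ∈ Icc 1 Q, W u q * A u q -
          ∑ u ∈ range V, h u * μ' * E u := by
      rw [← sum_sub_distrib]
      refine sum_congr rfl fun u _ => ?_
      have : ∑ q ∈ Icc 1 Q, W u q * (A u q - h u * μ') =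
          ∑ q ∈ Icc 1 Q, W u q * A u q - (∑ q ∈ Icc 1 Q, W u q) * (h u * μ') := by
        rw [sum_mul, ← sum_sub_distrib]
        exact sum_congr rfl fun q _ => by ring
      rw [this, hE]
      ring
    have e2 : ∑ u ∈ range V, h u * μ' * (E u - 1) =
        ∑ u ∈ range V, h u * μ' * E u - μ' * ∑ u ∈ range V, h u := by
      rw [mul_sum, ← sum_sub_distrib]
      exact sum_congr rfl fun u _ => by ring
    rw [e1, e2]
    ring
  have b3 : |∑ u ∈ range V, h u * μ' * (E u - 1)| ≤ V / M := by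
    refine (abs_sum_le_sum_abs _ _).trans (le_trans (sum_le_sum fun u _ => ?_) h4)
    rw [abs_mul, abs_mul, abs_of_nonneg (hh u).1, abs_of_nonneg hμ'.1, abs_sub_comm]
    have : h u * μ' ≤ 1 := by nlinarith [(hh u).1, (hh u).2, hμ'.1, hμ'.2]
    calc h u * μ' * |1 - E u| ≤ 1 * |1 - E u| := mul_le_mul_of_nonneg_right this (abs_nonneg _)
      _ = |1 - E u| := one_mul _
  have b4 : |μ' * (∑ u ∈ range V, h u - μl * V)| ≤ 2 * V / M := by
    rw [abs_mul, abs_of_nonneg hμ'.1]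
    calc μ' * |∑ u ∈ range V, h u - μl * V| ≤ 1 * |∑ u ∈ range V, h u - μl * V| :=
          mul_le_mul_of_nonneg_right hμ'.2 (abs_nonneg _)
      _ ≤ _ := by rw [one_mul]; exact h2
  have bE : ∑ u ∈ range V, E u ≤ V + V / M := by
    have e1 : ∑ u ∈ range V, (E u - 1) ≤ V / M := by
      refine le_trans (sum_le_sum fun u _ => ?_) h4
      rw [abs_sub_comm]
      exact le_abs_self _
    rw [sum_sub_distrib, sum_const, card_range, nsmul_eq_mul, mul_one] at e1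
    linarith
  have b2 : |∑ u ∈ range V, (1 / (Q : ℝ)) * ∑ q ∈ Icc 1 Q, W u q * (A u q - h u * μ')| ≤
      (1 / M + e) * (V + V / M) + V * R := by
    have e1 : ∀ u ∈ range V, |(1 / (Q : ℝ)) * ∑ q ∈ Icc 1 Q, W u q * (A u q - h u * μ')| ≤
        (1 / M + e) * E u + (1 / (Q : ℝ)) * ∑ q ∈ Icc 1 Q, b q * W u q := by
      intro u hu
      rw [abs_mul, abs_of_pos (by positivity : 0 < 1 / (Q : ℝ))]
      have e2 : |∑ q ∈ Icc 1 Q, W u q * (A u q - h u * μ')| ≤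
          ∑ q ∈ Icc 1 Q, ((1 / M + e) * W u q + b q * W u q) := by
        refine (abs_sum_le_sum_abs _ _).trans (sum_le_sum fun q hq => ?_)
        rw [abs_mul, abs_of_nonneg (hW u q)]
        by_cases h0 : W u q = 0
        · rw [h0]; simp
        · have := h5 u hu q hq h0
          have h6 := mul_le_mul_of_nonneg_left this (hW u q)
          linarith
      rw [sum_add_distrib, ← mul_sum] at e2
      have e3 := mul_le_mul_of_nonneg_left e2 (by positivity : (0 : ℝ) ≤ 1 / (Q : ℝ))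
      refine e3.trans (le_of_eq ?_)
      rw [hE]
      ring
    refine (abs_sum_le_sum_abs _ _).trans ((sum_le_sum e1).trans ?_)
    have e8 : ∑ u ∈ range V, ((1 / M + e) * E u + (1 / (Q : ℝ)) * ∑ q ∈ Icc 1 Q, b q * W u q) =
        (1 / M + e) * ∑ u ∈ range V, E u +
          (1 / (Q : ℝ)) * ∑ q ∈ Icc 1 Q, ∑ u ∈ range V, b q * W u q := by
      rw [sum_add_distrib]
      congr 1
      · exact (mul_sum _ _ _).symm
      · rw [sum_comm]
        exact (mul_sum _ _ _).symm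
    rw [e8]
    have e4 : ∑ q ∈ Icc 1 Q, ∑ u ∈ range V, b q * W u q ≤ ∑ q ∈ Icc 1 Q, c q * b q * V := by
      refine sum_le_sum fun q hq => ?_
      rw [← mul_sum]
      have := mul_le_mul_of_nonneg_left (h3 q hq) (hb q)
      linarith
    have e5 := mul_le_mul_of_nonneg_left e4 (by positivity : (0 : ℝ) ≤ 1 / (Q : ℝ))
    have e6 : (1 / (Q : ℝ)) * ∑ q ∈ Icc 1 Q, c q * b q * V = V * R := by
      rw [hR, ← sum_mul]; ring
    have e7 : (1 / M + e) * ∑ u ∈ range V, E u ≤ (1 / M + e) * (V + V / M) :=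
      mul_le_mul_of_nonneg_left bE (by positivity)
    linarith
  have htot : |∑ u ∈ range V, F u - V * (μl * μ')| ≤
      V / M + ((1 / M + e) * (V + V / M) + V * R) + V / M + 2 * V / M := by
    rw [hdec]
    refine (abs_add_le _ _).trans (add_le_add ((abs_add_le _ _).trans (add_le_add
      ((abs_add_le _ _).trans (add_le_add h1 b2)) b3)) b4)
  have hfin : |(1 / (V : ℝ)) * ∑ u ∈ range V, F u - μl * μ'| =
      (1 / (V : ℝ)) * |∑ u ∈ range V, F u - V * (μl * μ')| := by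
    rw [← abs_of_pos (by positivity : 0 < 1 / (V : ℝ)), ← abs_mul,
      abs_of_pos (by positivity : 0 < 1 / (V : ℝ))]
    congr 1
    field_simp
  rw [hfin]
  have h7 := mul_le_mul_of_nonneg_left htot (by positivity : (0 : ℝ) ≤ 1 / (V : ℝ))
  refine h7.trans ?_
  have h8 : (1 / (V : ℝ)) * (V / M + ((1 / M + e) * (V + V / M) + V * R) + V / M + 2 * V / M) =
      (1 + 1 / M) * e + (4 + (1 + 1 / M)) * (1 / M) + R := by
    field_simp
    ring
  rw [h8]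
  have h9 : (4 + (1 + 1 / (M : ℝ))) * (1 / M) ≤ 6 / M := by
    rw [div_eq_mul_one_div 6 (M : ℝ)]
    exact mul_le_mul_of_nonneg_right (by linarith) hMinv.le
  linarith

end Pool.Agent.Work.MP_215640_nt.Q
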