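import Pool.Agent.Work.MP_215640_nt.Q.Child
import Pool.Agent.Work.MP_215640_nt.Q.Node
import Pool.Agent.Work.MP_215640_nt.Q.SumLem

/-!
MODULE TREE. Induction over the levels.

`tree_step`: let `q, n, Z` be as in `TreeClaim` at level `j`, `l = j+1`, `M' = Ml k M l`, `T = 2^k`, `V = Ml k M j = M'^(T^27)`, `Q = M'^(T^16)`, `d = dq w l`,
`P = hp w n j Z`. `bd w k M n0 (k-1-j) q` unfolds (`k-1-j = (k-1-l)+1`, `k - (k-1-j) = l`). If `Bad w k M n0 l q`: the left side is at most `1` (both numbers are in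
`[0,1]`) and the right side is at least `1`. Otherwise `top_close` (`B = XX k M`, `NJ` from `¬ Bad`, `q i ≤ XX`, `n ≤ n0 + XX`) gives
`|P.coeff d - sl w q n0 l| ≤ N^(-1/2^(k+1)) =: κ`, tiny compared with all negative powers of `XX k M`, so (`Gen.perturb`) `G2 T M' 1 (P.coeff d)`.
Apply `node` (`T`, `M'`, `d ≤ T`, `P`) and `sum_lem` with `F u = ∏_{i ∈ Ico l k} H i (xx w i (n + pq q l u)/2)` (take (N1) for this `F`), `A u t` = the average over
`v < M'` of `F (u + t v)`, `h u = H l (xx w l (n + pq q l u)/2)`, `μl = μ l`, `μ' = ∏_{i ∈ Ico (l+1) k} μ i`, `b t = bd w k M n0 (k-1-l) (update q l t)`,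
`c t = 2 tri (1/M'^(3d+3)) (t^d P.coeff d)`. `h2`: (N2) for `H l` (`FT` with `A = m^2 ≤ M'`) and `|h u - H l (P.eval u)| ≤ m N^(-1/2^(k+1)) ≤ 1/M'` (`expand`,
`Test.lip`). `h5` = `child`. Finally `c t ≤ 8 tri (2/M'^(3d+3)) (t^d sl w q n0 l)` by `tri_perturb`, `|t^d (P.coeff d - sl)| ≤ 1/M'^(3d+3)`, and `6/M' ≤ 6/M`,
`(1 + 1/M') e ≤ (1 + 1/M) e`.
`tree`: at level `k-1` the products are empty, `TreeClaim (k-1) 0`. Then `k-1` steps: `e ≤ (1+1/M)^k 6k/M ≤ 12 k/M`. At level `0`: `Z = C n0 + 2 X`, `q = qr`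
is a node with `n = n0` (`zh = 1 + 2X = al w qr n0 0`, `F w 0 n = n`, `pq qr 1 = 2`, `dq w 0 = 1`), any precision `≥ 0`.
-/

set_option autoImplicit false

namespace Pool.Agent.Work.MP_215640_nt.Q

open Finset Polynomial

open Classical in
/-- unfolding of `bd` -/
private theorem tree_bd (w : ℕ → Bool) (k M n j : ℕ) (q : ℕ → ℕ) (hj : j + 1 < k) :
    bd w k M n (k - 1 - j) q = (if Bad w k M n (j + 1) q then 1 else 0) +
      (1 / ((Ml k M (j + 1) : ℕ) : ℝ) ^ (2 ^ k) ^ 16) *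
      ∑ t ∈ Icc 1 (Ml k M (j + 1) ^ (2 ^ k) ^ 16),
        8 * tri (2 / ((Ml k M (j + 1) : ℕ) : ℝ) ^ (3 * dq w (j + 1) + 3))
          ((t : ℝ) ^ dq w (j + 1) * sl w q n (j + 1)) *
        bd w k M n (k - 1 - (j + 1)) (Function.update q (j + 1) t) := by
  obtain ⟨s, hs⟩ : ∃ s, k - 1 - (j + 1) = s := ⟨_, rfl⟩
  have h1 : k - 1 - j = s + 1 := by omega
  have h2 : k - (s + 1) = j + 1 := by omega
  rw [h1, hs]
  simp only [bd]
  rw [h2]

private theorem tree_kaj {c k N n j : ℕ} (hk : 1 ≤ k) (hj : j < k) (hc : 12 ≤ c)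
    (hN : (2 : ℝ) ^ K2 c k ≤ N) (hn : (n : ℝ) ≤ 3 * N) (hn0 : 0 < n) :
    kaj k N j ≤ (n : ℝ) ^ (-1 + 1 / 2 ^ (10 * k) : ℝ) := by
  have hN1 : (1 : ℝ) ≤ N := le_trans (one_le_pow₀ (by norm_num)) hN
  have hN0 : (0 : ℝ) < N := by linarith
  have hnr : (0 : ℝ) < n := by exact_mod_cast hn0
  set ε : ℝ := 1 / 2 ^ (10 * k) with hε
  set δ : ℝ := 1 / 2 ^ (11 * k) with hδ
  have h1 : (2 : ℝ) ^ 2 ≤ (N : ℝ) ^ δ := by
    refine absorb' (by norm_num) hN ?_
    refine le_trans ?_ (two_pow_le_K2 hk hc)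
    rw [show 12 * k = k + 11 * k by ring, pow_add]
    refine Nat.mul_le_mul_right _ ?_
    calc 2 = 2 ^ 1 := by norm_num
      _ ≤ 2 ^ k := Nat.pow_le_pow_right (by norm_num) hk
  have h2 : ((j : ℝ) + 1) / 2 ^ (12 * k) ≤ δ := by
    have h3 : j + 1 ≤ 2 ^ k := le_trans (by omega : j + 1 ≤ k) (Nat.lt_two_pow_self).le
    have h4 : (j : ℝ) + 1 ≤ 2 ^ k := by exact_mod_cast h3
    rw [hδ, div_le_div_iff₀ (by positivity) (by positivity),
      show 12 * k = k + 11 * k by ring, pow_add, one_mul]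
    exact mul_le_mul_of_nonneg_right h4 (by positivity)
  have h3 : 2 * δ ≤ ε := by
    rw [hδ, hε, mul_one_div, div_le_div_iff₀ (by positivity) (by positivity),
      show 11 * k = k + 10 * k by ring, pow_add, one_mul]
    refine mul_le_mul_of_nonneg_right ?_ (by positivity)
    calc (2 : ℝ) = 2 ^ 1 := by norm_num
      _ ≤ 2 ^ k := pow_le_pow_right₀ (by norm_num) hk
  have hε1 : ε ≤ 1 := by
    rw [hε, div_le_one (by positivity)]
    exact one_le_pow₀ (by norm_num)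
  have h4 : kaj k N j ≤ (N : ℝ) ^ (δ - 1) := by
    unfold kaj
    exact Real.rpow_le_rpow_of_exponent_le hN1 (by linarith)
  have h5 : (3 * (N : ℝ)) ^ (-1 + ε) ≤ (n : ℝ) ^ (-1 + ε) :=
    Real.rpow_le_rpow_of_nonpos hnr hn (by linarith)
  have h6 : (3 * (N : ℝ)) ^ (-1 + ε) = (3 : ℝ) ^ (-1 + ε) * (N : ℝ) ^ (-1 + ε) :=
    Real.mul_rpow (by norm_num) hN0.le
  have h7 : (1 : ℝ) / 3 ≤ (3 : ℝ) ^ (-1 + ε) := by
    calc (1 : ℝ) / 3 = (3 : ℝ) ^ (-1 : ℝ) := by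
          rw [Real.rpow_neg_one]; norm_num
      _ ≤ (3 : ℝ) ^ (-1 + ε) :=
          Real.rpow_le_rpow_of_exponent_le (by norm_num) (by
            have : 0 ≤ ε := by rw [hε]; positivity
            linarith)
  have h8 : (N : ℝ) ^ (δ - 1) * 4 ≤ (N : ℝ) ^ (-1 + ε) := by
    calc (N : ℝ) ^ (δ - 1) * 4 ≤ (N : ℝ) ^ (δ - 1) * (N : ℝ) ^ δ := by
          refine mul_le_mul_of_nonneg_left ?_ (by positivity)
          linarith
      _ = (N : ℝ) ^ (δ - 1 + δ) := (Real.rpow_add hN0 _ _).symm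
      _ ≤ (N : ℝ) ^ (-1 + ε) := Real.rpow_le_rpow_of_exponent_le hN1 (by linarith)
  have h9 : 0 ≤ (N : ℝ) ^ (δ - 1) := by positivity
  calc kaj k N j ≤ (N : ℝ) ^ (δ - 1) := h4
    _ ≤ 1 / 3 * ((N : ℝ) ^ (δ - 1) * 4) := by linarith
    _ ≤ 3 ^ (-1 + ε) * (N : ℝ) ^ (-1 + ε) :=
        mul_le_mul h7 h8 (by positivity) (by positivity)
    _ = (3 * (N : ℝ)) ^ (-1 + ε) := h6.symm
    _ ≤ (n : ℝ) ^ (-1 + ε) := h5

theorem tree_step : ∃ c : ℕ, ∀ k : ℕ, 1 ≤ k → ∀ w : ℕ → Bool, Pos w k → ∀ m : ℕ, 8 ≤ m → ∀ M : ℕ, M = m ^ 4 →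
    (2 : ℝ) ^ K2 c k ≤ M → ∀ N : ℕ, (M : ℝ) ^ K2 c k ≤ N → ∀ (H : ℕ → ℝ → ℝ) (μ : ℕ → ℝ),
    (∀ i, 1 ≤ i → i < k → Test (H i) (μ i) m ∧ 0 ≤ μ i ∧ μ i ≤ 1) → ∀ n0 : ℕ, N ≤ n0 → n0 < 2 * N →
    ∀ j, j + 1 < k → ∀ e : ℝ, 0 ≤ e → TreeClaim w k M N n0 H μ (j + 1) e →
    TreeClaim w k M N n0 H μ j ((1 + 1 / M) * e + 6 / M) := by
  classical
  obtain ⟨c1, hchild⟩ := child
  obtain ⟨c2, hnode⟩ := node
  obtain ⟨c3, htop⟩ := top_close
  obtain ⟨c4, hexp⟩ := expand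
  refine ⟨c1 + c2 + c3 + c4 + 60, ?_⟩
  intro k hk w hw m hm M hM h2M N hMN H μ hH n0 hn0 hn0' j hjk e he htree q hq0 hq n hn hn' Z hZ
  have hM1 : 1 ≤ M := by rw [hM]; exact Nat.one_le_pow _ _ (by omega)
  have hM1r : (1 : ℝ) ≤ M := by exact_mod_cast hM1
  have hmM : m ^ 2 ≤ M := by
    rw [hM]; exact Nat.pow_le_pow_right (by omega) (by norm_num)
  have hmM1 : m ≤ M := by
    rw [hM]; exact Nat.le_self_pow (by norm_num) m
  have hchild' := hchild k hk w hw m hm M hM (two_pow_K2_mono (by omega) h2M) N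
    (pow_K2_mono hM1r (by omega) hMN) H μ hH n0 hn0 hn0' j hjk e he htree q hq0 hq n hn hn' Z hZ
  obtain ⟨M', hM'⟩ : ∃ M', Ml k M (j + 1) = M' := ⟨_, rfl⟩
  obtain ⟨T, hT⟩ : ∃ T, 2 ^ k = T := ⟨_, rfl⟩
  have hT2 : 2 ≤ T := by
    rw [← hT]
    calc 2 = 2 ^ 1 := by norm_num
      _ ≤ 2 ^ k := Nat.pow_le_pow_right (by norm_num) hk
  have hMM' : M ≤ M' := by rw [← hM']; exact M_le_Ml hM1
  have hMl : Ml k M j = M' ^ T ^ 27 := by rw [← hM', ← hT]; exact Ml_succ hjk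
  have hMlB : Ml k M j ≤ BB k M := Ml_le_BB M j hM1
  have hM'B : M' ≤ BB k M := by rw [← hM']; exact Ml_le_BB M (j + 1) hM1
  have hM'2 : 2 ≤ M' := by omega
  have hM'1 : 1 ≤ M' := by omega
  have hB2 : 2 ≤ BB k M := hM'2.trans hM'B
  have hM'r : (0 : ℝ) < M' := by exact_mod_cast (by omega : 0 < M')
  have hkB : k ≤ BB k M := by
    rw [BB_eq]
    have h1 : k ≤ K2 27 k := (le_K2 hk).trans (K2_mono k (by norm_num))
    calc k ≤ K2 27 k := h1
      _ ≤ 2 ^ K2 27 k := Nat.lt_two_pow_self.le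
      _ ≤ M ^ K2 27 k := Nat.pow_le_pow_left (by omega) _
  have hBX : BB k M ^ (k + 2) ≤ XX k M := by
    unfold XX
    exact Nat.pow_le_pow_right (by omega) (by omega)
  have hBX1 : BB k M ≤ XX k M := le_trans (Nat.le_self_pow (by omega) _) hBX
  have hBX2 : 2 * BB k M ≤ XX k M := by
    calc 2 * BB k M ≤ BB k M * BB k M := Nat.mul_le_mul_right _ hB2
      _ = BB k M ^ 2 := by ring
      _ ≤ BB k M ^ (k + 2) := Nat.pow_le_pow_right (by omega) (by omega)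
      _ ≤ XX k M := hBX
  have hX2 : 2 ≤ XX k M := hB2.trans hBX1
  have hX1r : (1 : ℝ) ≤ XX k M := by exact_mod_cast (by omega : 1 ≤ XX k M)
  have hqX : ∀ i, 1 ≤ q i ∧ q i ≤ XX k M := fun i => ⟨(hq i).1, (hq i).2.trans hBX1⟩
  have hXN : ∀ c, c ≤ c1 + c2 + c3 + c4 + 31 → (XX k M : ℝ) ^ K2 c k ≤ N := fun c hc =>
    XX_pow_le hk hM1 (pow_K2_mono hM1r (by omega) hMN)
  have hXN' : XX k M ≤ N := by
    have h1 := hXN 0 (by omega)
    have h2 : (XX k M : ℝ) ≤ (XX k M : ℝ) ^ K2 0 k := le_self_pow₀ hX1r (K2_pos 0 k).ne'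
    exact_mod_cast h2.trans h1
  have hnX : n ≤ n0 + XX k M := by
    refine hn'.trans (Nat.add_le_add_left ?_ _)
    calc j * BB k M ^ (k + 1) ≤ BB k M * BB k M ^ (k + 1) :=
          Nat.mul_le_mul_right _ (by omega)
      _ = BB k M ^ (k + 2) := by ring
      _ ≤ XX k M := hBX
  have hn3 : (n : ℝ) ≤ 3 * N := by
    have : n ≤ 3 * N := by omega
    exact_mod_cast this
  have hNn : N ≤ n := hn0.trans hn
  have hN2 : 2 ≤ N := hX2.trans hXN'
  have hNr : (0 : ℝ) < N := by exact_mod_cast (by omega : 0 < N)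
  -- the tiny number
  obtain ⟨κ, hκ⟩ : ∃ κ : ℝ, (N : ℝ) ^ (-(1 / 2 ^ (k + 1)) : ℝ) = κ := ⟨_, rfl⟩
  have hκ0 : 0 ≤ κ := by rw [← hκ]; positivity
  have hXκ : (XX k M : ℝ) * κ ≤ 1 := by
    have h1 : (XX k M : ℝ) ^ 1 ≤ (N : ℝ) ^ (1 / 2 ^ (k + 1) : ℝ) := by
      refine absorb' hX1r (hXN 2 (by omega)) ?_
      rw [one_mul]
      unfold K2
      exact Nat.pow_le_pow_right (by norm_num) (by nlinarith)
    rw [pow_one] at h1
    rw [← hκ, Real.rpow_neg hNr.le, ← div_eq_mul_inv, div_le_one (by positivity)]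
    exact h1
  have hpow : ∀ E, E ≤ T ^ 27 → (M' : ℝ) ^ E * κ ≤ 1 := by
    intro E hE
    refine le_trans (mul_le_mul_of_nonneg_right ?_ hκ0) hXκ
    have h1 : M' ^ E ≤ XX k M := by
      calc M' ^ E ≤ M' ^ T ^ 27 := Nat.pow_le_pow_right hM'1 hE
        _ = Ml k M j := hMl.symm
        _ ≤ XX k M := hMlB.trans hBX1
    exact_mod_cast h1
  have hTpow : ∀ a b, a ≤ b → T ^ a ≤ T ^ b := fun a b h => Nat.pow_le_pow_right (by omega) h
  have hTdbl : ∀ a, T ^ a + T ^ a ≤ T ^ (a + 1) := by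
    intro a
    rw [pow_succ]
    calc T ^ a + T ^ a = T ^ a * 2 := by ring
      _ ≤ T ^ a * T := Nat.mul_le_mul_left _ hT2
  obtain ⟨d, hd⟩ : ∃ d, dq w (j + 1) = d := ⟨_, rfl⟩
  have hd1 : 1 ≤ d := by rw [← hd]; exact dq_pos hw hjk
  have hdT : d ≤ T := by
    rw [← hd, ← hT]
    exact (dq_le w (j + 1)).trans (Nat.pow_le_pow_right (by norm_num) (by omega))
  obtain ⟨P, hP⟩ : ∃ P, hp w n j Z = P := ⟨_, rfl⟩
  have hPd : P.natDegree ≤ d := by rw [← hP, ← hd]; exact natDegree_hp w n j Z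
  -- the functions
  obtain ⟨F, hF⟩ : ∃ F : ℕ → ℝ, (fun u => ∏ i ∈ Ico (j + 1) k,
    H i (xx w i (n + pq q (j + 1) * u) / 2)) = F := ⟨_, rfl⟩
  obtain ⟨h, hh⟩ : ∃ h : ℕ → ℝ, (fun u => H (j + 1) (xx w (j + 1) (n + pq q (j + 1) * u) / 2)) = h :=
    ⟨_, rfl⟩
  have hTest : ∀ i, j + 1 ≤ i → i < k → Test (H i) (μ i) m := fun i h1 h2 => (hH i (by omega) h2).1
  have hμ : ∀ i, j + 1 ≤ i → i < k → 0 ≤ μ i ∧ μ i ≤ 1 := fun i h1 h2 => (hH i (by omega) h2).2
  have hF01 : ∀ u, 0 ≤ F u ∧ F u ≤ 1 := by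
    intro u
    rw [← hF]
    constructor
    · refine Finset.prod_nonneg fun i hi => ?_
      have hi' := Finset.mem_Ico.mp hi
      exact (hTest i (by omega) hi'.2).nonneg _
    · refine Finset.prod_le_one (fun i hi => ?_) fun i hi => ?_
      · have hi' := Finset.mem_Ico.mp hi
        exact (hTest i (by omega) hi'.2).nonneg _
      · have hi' := Finset.mem_Ico.mp hi
        exact (hTest i (by omega) hi'.2).le_one _
  have hT1 := hTest (j + 1) le_rfl hjk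
  have hh01 : ∀ u, 0 ≤ h u ∧ h u ≤ 1 := by
    intro u
    rw [← hh]
    exact ⟨hT1.nonneg _, hT1.le_one _⟩
  have hμ01 : ∀ a, j + 1 ≤ a → 0 ≤ ∏ i ∈ Ico a k, μ i ∧ ∏ i ∈ Ico a k, μ i ≤ 1 := by
    intro a ha
    constructor
    · refine Finset.prod_nonneg fun i hi => ?_
      have hi' := Finset.mem_Ico.mp hi
      exact (hμ i (by omega) hi'.2).1
    · refine Finset.prod_le_one (fun i hi => ?_) fun i hi => ?_
      · have hi' := Finset.mem_Ico.mp hi
        exact (hμ i (by omega) hi'.2).1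
      · have hi' := Finset.mem_Ico.mp hi
        exact (hμ i (by omega) hi'.2).2
  have hbd : ∀ q', 0 ≤ bd w k M n0 (k - 1 - (j + 1)) q' := fun q' => bd_nonneg w k M n0 _ hM1 q'
  have hbdj := tree_bd w k M n0 j q hjk
  rw [hM', hT, hd] at hbdj
  rw [hMl]
  have hVpos : 0 < M' ^ T ^ 27 := Nat.pow_pos (by omega)
  have hVr : (0 : ℝ) < ((M' ^ T ^ 27 : ℕ) : ℝ) := by exact_mod_cast hVpos
  have hVc : ((M' ^ T ^ 27 : ℕ) : ℝ) = (M' : ℝ) ^ T ^ 27 := by push_cast; rfl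
  have hQc : ((M' ^ T ^ 16 : ℕ) : ℝ) = (M' : ℝ) ^ T ^ 16 := by push_cast; rfl
  have hsum0 : 0 ≤ (1 / (M' : ℝ) ^ T ^ 16) * ∑ t ∈ Icc 1 (M' ^ T ^ 16),
      8 * tri (2 / (M' : ℝ) ^ (3 * d + 3)) ((t : ℝ) ^ d * sl w q n0 (j + 1)) *
        bd w k M n0 (k - 1 - (j + 1)) (Function.update q (j + 1) t) := by
    refine mul_nonneg (by positivity) (sum_nonneg fun t _ => mul_nonneg (mul_nonneg (by norm_num)
      (tri_nonneg (by positivity) _)) (hbd _))
  by_cases hbad : Bad w k M n0 (j + 1) q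
  · -- the exceptional case
    rw [if_pos hbad] at hbdj
    have h1 : |(1 / ((M' ^ T ^ 27 : ℕ) : ℝ)) * ∑ u ∈ range (M' ^ T ^ 27), F u -
        ∏ i ∈ Ico (j + 1) k, μ i| ≤ 1 := by
      have h2 : 0 ≤ (1 / ((M' ^ T ^ 27 : ℕ) : ℝ)) * ∑ u ∈ range (M' ^ T ^ 27), F u :=
        mul_nonneg (by positivity) (sum_nonneg fun u _ => (hF01 u).1)
      have h3 : (1 / ((M' ^ T ^ 27 : ℕ) : ℝ)) * ∑ u ∈ range (M' ^ T ^ 27), F u ≤ 1 := by
        have h4 : ∑ u ∈ range (M' ^ T ^ 27), F u ≤ ((M' ^ T ^ 27 : ℕ) : ℝ) := by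
          calc ∑ u ∈ range (M' ^ T ^ 27), F u ≤ ∑ _u ∈ range (M' ^ T ^ 27), (1 : ℝ) :=
                sum_le_sum fun u _ => (hF01 u).2
            _ = ((M' ^ T ^ 27 : ℕ) : ℝ) := by simp
        rw [one_div, inv_mul_le_iff₀ hVr, mul_one]
        exact h4
      obtain ⟨h5, h6⟩ := hμ01 (j + 1) le_rfl
      rw [abs_le]
      constructor <;> linarith
    rw [← hF] at h1
    refine h1.trans ?_
    rw [hbdj]
    have h2 : 0 ≤ (1 + 1 / (M : ℝ)) * e + 6 / M := by positivity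
    linarith
  · rw [if_neg hbad, zero_add] at hbdj
    have hc5 := hchild' hbad
    rw [hM', hT, hd, hP, hMl] at hc5
    have hnb := not_or.mp hbad
    have hG := not_not.mp hnb.1
    have hNJ := not_not.mp hnb.2
    rw [hM', hT] at hG
    rw [Nat.add_sub_cancel] at hNJ
    -- the top coefficient
    have htc := htop k hk w hw (XX k M) hX2 q hqX N (hXN c3 (by omega)) n0 n hn0 (by omega) hn hnX j hjk
      (2 * Ml k M j) Z hZ hNJ
    rw [hκ, hP, hd] at htc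
    have hG1 : G2 T M' 1 (P.coeff d) := by
      obtain ⟨hGa, hGb⟩ := hG
      constructor
      · have h1 : Gen (M' ^ T ^ 14) (2 / (M' : ℝ) ^ T ^ 15 / 2) (P.coeff d) := by
          refine hGa.perturb ?_
          have h2 := hpow (T ^ 14 + T ^ 15) (by
            have e1 := hTpow 14 15 (by norm_num)
            have e2 := hTdbl 15
            have e3 := hTpow (15 + 1) 27 (by norm_num)
            omega)
          rw [show (2 : ℝ) / (M' : ℝ) ^ T ^ 15 / 2 = 1 / (M' : ℝ) ^ T ^ 15 by ring,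
            le_div_iff₀ (by positivity)]
          push_cast
          calc (M' : ℝ) ^ T ^ 14 * |P.coeff d - sl w q n0 (j + 1)| * (M' : ℝ) ^ T ^ 15
              ≤ (M' : ℝ) ^ T ^ 14 * κ * (M' : ℝ) ^ T ^ 15 := by
                refine mul_le_mul_of_nonneg_right ?_ (by positivity)
                exact mul_le_mul_of_nonneg_left htc (by positivity)
            _ = (M' : ℝ) ^ (T ^ 14 + T ^ 15) * κ := by rw [pow_add]; ring
            _ ≤ 1 := h2
        rwa [show (2 : ℝ) / (M' : ℝ) ^ T ^ 15 / 2 = 1 / (M' : ℝ) ^ T ^ 15 by ring] at h1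
      · have h1 : Gen (M' ^ T ^ 24) (2 / (M' : ℝ) ^ T ^ 25 / 2) (P.coeff d) := by
          refine hGb.perturb ?_
          have h2 := hpow (T ^ 24 + T ^ 25) (by
            have e1 := hTpow 24 25 (by norm_num)
            have e2 := hTdbl 25
            have e3 := hTpow (25 + 1) 27 (by norm_num)
            omega)
          rw [show (2 : ℝ) / (M' : ℝ) ^ T ^ 25 / 2 = 1 / (M' : ℝ) ^ T ^ 25 by ring,
            le_div_iff₀ (by positivity)]
          push_cast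
          calc (M' : ℝ) ^ T ^ 24 * |P.coeff d - sl w q n0 (j + 1)| * (M' : ℝ) ^ T ^ 25
              ≤ (M' : ℝ) ^ T ^ 24 * κ * (M' : ℝ) ^ T ^ 25 := by
                refine mul_le_mul_of_nonneg_right ?_ (by positivity)
                exact mul_le_mul_of_nonneg_left htc (by positivity)
            _ = (M' : ℝ) ^ (T ^ 24 + T ^ 25) * κ := by rw [pow_add]; ring
            _ ≤ 1 := h2
        rwa [show (2 : ℝ) / (M' : ℝ) ^ T ^ 25 / 2 = 1 / (M' : ℝ) ^ T ^ 25 by ring] at h1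
    have hM'node : 2 ^ T ^ c2 ≤ M' := by
      refine le_trans ?_ hMM'
      have h1 : (2 : ℝ) ^ K2 c2 k ≤ M := two_pow_K2_mono (by omega) h2M
      have h2 : 2 ^ K2 c2 k ≤ M := by exact_mod_cast h1
      refine le_trans (Nat.pow_le_pow_right (by norm_num) ?_) h2
      rw [← hT, ← pow_mul, mul_comm]
      exact two_pow_le_K2 hk le_rfl
    obtain ⟨hN1, hN2', hN3, hN4⟩ := hnode T hT2 M' hM'node d hd1 hdT P hPd hG1
    have hV1 := hN1 F (fun u => by
      rw [abs_le]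
      exact ⟨by linarith [(hF01 u).1], (hF01 u).2⟩)
    -- the mean of `h`
    have hAM : (m : ℝ) ^ 2 ≤ M' := by exact_mod_cast hmM.trans hMM'
    have hV2 := hN2' (H (j + 1)) (μ (j + 1)) ((m : ℝ) ^ 2) hT1.ft hAM
    have hkaj := tree_kaj (n := n) (c := 12) hk (by omega : j < k) le_rfl (by
      have h1 := hXN 12 (by omega)
      refine le_trans (pow_le_pow_left₀ (by norm_num) ?_ _) h1
      exact_mod_cast hX2) hn3 (by omega)
    have hex := hexp k hk w hw (XX k M) hX2 q hqX n (by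
      refine (hXN c4 (by omega)).trans ?_
      exact_mod_cast hNn) j hjk (kaj k N j) (2 * Ml k M j) Z hkaj
      ((Nat.mul_le_mul_left 2 hMlB).trans hBX2) hZ
    rw [hP] at hex
    have hnκ : (n : ℝ) ^ (-(1 / 2 ^ (k + 1)) : ℝ) ≤ κ := by
      rw [← hκ]
      refine Real.rpow_le_rpow_of_nonpos hNr (by exact_mod_cast hNn) ?_
      have : (0 : ℝ) ≤ 1 / 2 ^ (k + 1) := by positivity
      linarith
    have hmκ : (m : ℝ) * κ ≤ 1 / M' := by
      rw [le_div_iff₀ hM'r]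
      have h1 := hpow 2 (by
        have := hTpow 1 27 (by norm_num)
        rw [pow_one] at this
        omega)
      have h2 : (m : ℝ) ≤ M' := by exact_mod_cast hmM1.trans hMM'
      calc (m : ℝ) * κ * M' ≤ M' * κ * M' := by
            refine mul_le_mul_of_nonneg_right ?_ hM'r.le
            exact mul_le_mul_of_nonneg_right h2 hκ0
        _ = (M' : ℝ) ^ 2 * κ := by ring
        _ ≤ 1 := h1
    have hV2' : |∑ u ∈ range (M' ^ T ^ 27), h u - μ (j + 1) * ((M' ^ T ^ 27 : ℕ) : ℝ)| ≤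
        2 * ((M' ^ T ^ 27 : ℕ) : ℝ) / M' := by
      have h1 : |∑ u ∈ range (M' ^ T ^ 27), (h u - H (j + 1) (P.eval (u : ℝ)))| ≤
          ((M' ^ T ^ 27 : ℕ) : ℝ) / M' := by
        calc |∑ u ∈ range (M' ^ T ^ 27), (h u - H (j + 1) (P.eval (u : ℝ)))|
            ≤ ∑ u ∈ range (M' ^ T ^ 27), |h u - H (j + 1) (P.eval (u : ℝ))| :=
              abs_sum_le_sum_abs _ _
          _ ≤ ∑ _u ∈ range (M' ^ T ^ 27), 1 / (M' : ℝ) := by
              refine sum_le_sum fun u hu => ?_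
              have hu' : u < M' ^ T ^ 27 := mem_range.1 hu
              rw [← hh]
              refine (hT1.lip _ _).trans (le_trans ?_ hmκ)
              refine mul_le_mul_of_nonneg_left ?_ (by positivity)
              refine (dI_le_abs _).trans ((hex u ?_).trans hnκ)
              rw [hMl]; omega
          _ = ((M' ^ T ^ 27 : ℕ) : ℝ) / M' := by
              rw [sum_const, card_range, nsmul_eq_mul, mul_one_div]
      have h2 : ∑ u ∈ range (M' ^ T ^ 27), h u - μ (j + 1) * ((M' ^ T ^ 27 : ℕ) : ℝ) =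
          ∑ u ∈ range (M' ^ T ^ 27), (h u - H (j + 1) (P.eval (u : ℝ))) +
          (∑ u ∈ range (M' ^ T ^ 27), H (j + 1) (P.eval (u : ℝ)) - μ (j + 1) * (M' : ℝ) ^ T ^ 27) := by
        rw [sum_sub_distrib, hVc]; ring
      rw [h2]
      refine (abs_add_le _ _).trans ?_
      rw [← hVc] at hV2
      have h3 : 2 * ((M' ^ T ^ 27 : ℕ) : ℝ) / M' = ((M' ^ T ^ 27 : ℕ) : ℝ) / M' +
          ((M' ^ T ^ 27 : ℕ) : ℝ) / M' := by ring
      rw [h3]
      rw [← hVc]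
      exact add_le_add h1 hV2
    -- the averaging inequality
    rw [← hVc, ← hQc] at hV1
    have hV4 := hN4
    rw [← hVc, ← hQc] at hV4
    have hτ : (0 : ℝ) < 1 / (M' : ℝ) ^ (3 * d + 3) := by positivity
    have hsl := sum_lem (M' ^ T ^ 27) (M' ^ T ^ 16) M' hVpos (Nat.pow_pos (by omega)) hM'1 F h
      (fun u t => wt 1 d M' P u t) (fun u t => (1 / (M' : ℝ)) * ∑ v ∈ range M', F (u + t * v))
      (∏ i ∈ Ico (j + 2) k, μ i) (μ (j + 1)) e
      (fun t => bd w k M n0 (k - 1 - (j + 1)) (Function.update q (j + 1) t))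
      (fun t => 2 * tri (1 / (M' : ℝ) ^ (3 * d + 3)) ((t : ℝ) ^ d * P.coeff d))
      (fun u t => by
        unfold wt
        refine Finset.prod_nonneg fun r _ => tri_nonneg (by positivity) _) hh01 (hμ01 (j + 2) (by omega)) he
      (fun t => hbd _) (fun t => mul_nonneg (by norm_num) (tri_nonneg hτ _)) hV1 hV2'
      (fun t ht => by
        have ht' := Finset.mem_Icc.1 ht
        rw [hVc]
        exact hN3 t ht'.1 ht'.2) hV4
      (fun u hu t ht hne => by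
        have ht' := Finset.mem_Icc.1 ht
        have h1 := hc5 u (mem_range.1 hu) t ht'.1 ht'.2 hne
        simp only [← hF, ← hh]
        exact h1)
    have hprod : ∏ i ∈ Ico (j + 1) k, μ i = μ (j + 1) * ∏ i ∈ Ico (j + 2) k, μ i :=
      Finset.prod_eq_prod_Ico_succ_bot hjk _
    rw [hprod]
    simp only [← hF] at hsl
    refine hsl.trans ?_
    rw [hbdj, hQc]
    have hMM'r : (M : ℝ) ≤ M' := by exact_mod_cast hMM'
    have hM0r : (0 : ℝ) < M := by linarith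
    have h1 : 1 / (M' : ℝ) ≤ 1 / M := one_div_le_one_div_of_le hM0r hMM'r
    have h2 : (1 + 1 / (M' : ℝ)) * e ≤ (1 + 1 / (M : ℝ)) * e :=
      mul_le_mul_of_nonneg_right (by linarith) he
    have h3 : 6 / (M' : ℝ) ≤ 6 / M := div_le_div_of_nonneg_left (by norm_num) hM0r hMM'r
    refine add_le_add (add_le_add h2 h3) (mul_le_mul_of_nonneg_left (sum_le_sum fun t ht => ?_)
      (by positivity))
    refine mul_le_mul_of_nonneg_right ?_ (hbd _)
    have ht' := Finset.mem_Icc.1 ht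
    have h4 : |(t : ℝ) ^ d * (P.coeff d - sl w q n0 (j + 1))| ≤ 1 / (M' : ℝ) ^ (3 * d + 3) := by
      rw [abs_mul, abs_of_nonneg (by positivity : (0 : ℝ) ≤ (t : ℝ) ^ d), le_div_iff₀ (by positivity)]
      have h5 : (t : ℝ) ^ d ≤ (M' : ℝ) ^ (T ^ 16 * d) := by
        rw [pow_mul]
        refine pow_le_pow_left₀ (by positivity) ?_ _
        exact_mod_cast ht'.2
      have h6 := hpow (T ^ 16 * d + (3 * d + 3)) (by
        have e1 : T ^ 16 * d ≤ T ^ 17 := by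
          rw [pow_succ T 16]
          exact Nat.mul_le_mul_left _ hdT
        have e2 : 3 * d + 3 ≤ T ^ 17 := by
          have e3 : T ^ 3 * T ≤ T ^ 17 := by
            rw [← pow_succ]; exact hTpow 4 17 (by norm_num)
          have e4 : 2 ^ 3 ≤ T ^ 3 := Nat.pow_le_pow_left hT2 3
          have e5 : 2 ^ 3 * T ≤ T ^ 3 * T := Nat.mul_le_mul_right _ e4
          omega
        have e6 := hTdbl 17
        have e7 : T ^ (17 + 1) ≤ T ^ 27 := hTpow (17 + 1) 27 (by norm_num)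
        omega)
      calc (t : ℝ) ^ d * |P.coeff d - sl w q n0 (j + 1)| * (M' : ℝ) ^ (3 * d + 3)
          ≤ (M' : ℝ) ^ (T ^ 16 * d) * κ * (M' : ℝ) ^ (3 * d + 3) := by
            refine mul_le_mul_of_nonneg_right ?_ (by positivity)
            exact mul_le_mul h5 htc (abs_nonneg _) (by positivity)
        _ = (M' : ℝ) ^ (T ^ 16 * d + (3 * d + 3)) * κ := by rw [pow_add]; ring
        _ ≤ 1 := h6
    have h7 := tri_perturb hτ ((t : ℝ) ^ d * sl w q n0 (j + 1))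
      ((t : ℝ) ^ d * (P.coeff d - sl w q n0 (j + 1))) h4
    rw [show (t : ℝ) ^ d * sl w q n0 (j + 1) + (t : ℝ) ^ d * (P.coeff d - sl w q n0 (j + 1)) =
      (t : ℝ) ^ d * P.coeff d by ring, mul_one_div] at h7
    linarith

private theorem tree_mono {w : ℕ → Bool} {k M N n0 : ℕ} {H : ℕ → ℝ → ℝ} {μ : ℕ → ℝ} {j : ℕ} {e e' : ℝ}
    (h : TreeClaim w k M N n0 H μ j e) (he : e ≤ e') : TreeClaim w k M N n0 H μ j e' := by
  intro q hq0 hq n hn hn' Z hZ
  have := h q hq0 hq n hn hn' Z hZ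
  linarith

private theorem tree_root (w : ℕ → Bool) (ka : ℝ) (hka : 0 ≤ ka) (L n0 : ℕ) (hn0 : 0 < n0) :
    Val w qr ka L n0 0 (C (n0 : ℝ) + C 2 * X) := by
  have hq0 : qr 0 = 2 := by simp [qr]
  have hpq : pq qr (0 + 1) = 2 := by simp [pq, qr]
  have hn : (n0 : ℝ) ≠ 0 := by positivity
  have hc0 : (C (n0 : ℝ) + C 2 * X).coeff 0 = (n0 : ℝ) := by simp
  have hc1 : (C (n0 : ℝ) + C 2 * X).coeff 1 = (2 : ℝ) := by
    rw [coeff_add, coeff_C_mul_X, coeff_C]; simp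
  have hinv : (n0 : ℝ) ^ (-cc w 0) = (n0 : ℝ)⁻¹ := by
    rw [cc_zero, Real.rpow_neg_one]
  refine ⟨?_, ?_, ?_, ?_⟩
  · rw [dq_zero]
    refine (natDegree_add_le _ _).trans (max_le ?_ ?_)
    · rw [natDegree_C]; omega
    · exact (natDegree_C_mul_le _ _).trans natDegree_X_le
  · intro u _
    rw [F_zero, hpq]
    simp
  · intro r hr
    rw [dq_zero] at hr
    have hr0 : r = 0 := by omega
    subst hr0
    have h1 : (al w qr n0 0).coeff 0 = 1 := by simp [al]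
    unfold zh
    rw [coeff_C_mul, coeff_scale, hc0, h1, hinv, pow_zero, one_mul, inv_mul_cancel₀ hn, sub_self,
      abs_zero]
    exact hka
  · rw [dq_zero]
    have h1 : (al w qr n0 0).coeff 1 = 2 := by
      simp only [al]
      rw [coeff_add, coeff_C_mul_X, coeff_one, hq0]
      simp
    unfold zh
    rw [coeff_C_mul, coeff_scale, hc1, h1, hinv, pow_one, ← mul_assoc, inv_mul_cancel₀ hn, one_mul]

theorem tree : ∃ c : ℕ, ∀ k : ℕ, 1 ≤ k → ∀ w : ℕ → Bool, Pos w k → ∀ m : ℕ, 8 ≤ m → ∀ M : ℕ, M = m ^ 4 →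
    (2 : ℝ) ^ K2 c k ≤ M → ∀ N : ℕ, (M : ℝ) ^ K2 c k ≤ N → ∀ (H : ℕ → ℝ → ℝ) (μ : ℕ → ℝ),
    (∀ i, 1 ≤ i → i < k → Test (H i) (μ i) m ∧ 0 ≤ μ i ∧ μ i ≤ 1) → ∀ n0 : ℕ, N ≤ n0 → n0 < 2 * N →
    |(1 / (Ml k M 0 : ℝ)) * ∑ u ∈ range (Ml k M 0), ∏ i ∈ Ico 1 k, H i (xx w i (n0 + 2 * u) / 2) -
      ∏ i ∈ Ico 1 k, μ i| ≤ 12 * k / M + bd w k M n0 (k - 1) qr := by
  obtain ⟨c, hstep⟩ := tree_step
  refine ⟨c + 2, ?_⟩
  intro k hk w hw m hm M hM h2M N hMN H μ hH n0 hn0 hn0'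
  have hM1 : 1 ≤ M := by rw [hM]; exact Nat.one_le_pow _ _ (by omega)
  have hM1r : (1 : ℝ) ≤ M := by exact_mod_cast hM1
  have hM0r : (0 : ℝ) < M := by linarith
  have hM2 : 2 ≤ M := by
    rw [hM]
    calc 2 ≤ 8 ^ 4 := by norm_num
      _ ≤ m ^ 4 := Nat.pow_le_pow_left hm 4
  have hN1 : 1 ≤ N := by
    have h1 : (1 : ℝ) ≤ N := le_trans (one_le_pow₀ hM1r) hMN
    exact_mod_cast h1
  -- the bottom level
  have h0 : TreeClaim w k M N n0 H μ (k - 1) 0 := by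
    intro q hq0 hq n hn hn' Z hZ
    have hb := bd_nonneg w k M n0 (k - 1 - (k - 1)) hM1 q
    have hMl : (0 : ℝ) < (Ml k M (k - 1) : ℝ) := by
      have : 0 < Ml k M (k - 1) := lt_of_lt_of_le (by omega) (M_le_Ml hM1)
      exact_mod_cast this
    rw [show k - 1 + 1 = k by omega]
    simp only [Ico_self, prod_empty, sum_const, card_range, nsmul_eq_mul, mul_one]
    rw [one_div, inv_mul_cancel₀ hMl.ne', sub_self, abs_zero]
    linarith
  have hind : ∀ s, s ≤ k - 1 → TreeClaim w k M N n0 H μ (k - 1 - s)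
      ((1 + 1 / (M : ℝ)) ^ s * (6 * s / M)) := by
    intro s
    induction s with
    | zero =>
      intro _
      refine tree_mono h0 ?_
      simp
    | succ s ih =>
      intro hs
      have h1 := ih (by omega)
      have h2 : k - 1 - s = k - 1 - (s + 1) + 1 := by omega
      rw [h2] at h1
      have h3 := hstep k hk w hw m hm M hM (two_pow_K2_mono (by omega) h2M) N
        (pow_K2_mono hM1r (by omega) hMN) H μ hH n0 hn0 hn0' (k - 1 - (s + 1)) (by omega) _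
        (by positivity) h1
      refine tree_mono h3 ?_
      have h4 : (1 : ℝ) ≤ (1 + 1 / (M : ℝ)) ^ (s + 1) := by
        refine one_le_pow₀ ?_
        have : 0 ≤ 1 / (M : ℝ) := by positivity
        linarith
      have h5 : 0 ≤ 6 / (M : ℝ) := by positivity
      have h6 : (1 + 1 / (M : ℝ)) ^ (s + 1) * (6 * ((s + 1 : ℕ) : ℝ) / M) =
          (1 + 1 / (M : ℝ)) * ((1 + 1 / (M : ℝ)) ^ s * (6 * s / M)) +
            (1 + 1 / (M : ℝ)) ^ (s + 1) * (6 / M) := by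
        push_cast
        ring
      rw [h6]
      have h7 : 6 / (M : ℝ) ≤ (1 + 1 / (M : ℝ)) ^ (s + 1) * (6 / M) := by
        calc 6 / (M : ℝ) = 1 * (6 / M) := (one_mul _).symm
          _ ≤ _ := mul_le_mul_of_nonneg_right h4 h5
      linarith
  have h1 := hind (k - 1) le_rfl
  rw [Nat.sub_self] at h1
  have hB2 : 2 ≤ BB k M := hM2.trans ((M_le_Ml (k := k) (j := 0) hM1).trans (Ml_le_BB M 0 hM1))
  have h2 := h1 qr (by simp [qr]) (fun i => by
    unfold qr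
    split_ifs <;> omega) n0 le_rfl (by omega) (C (n0 : ℝ) + C 2 * X)
    (tree_root w _ (by unfold kaj; positivity) _ n0 (by omega))
  rw [Nat.sub_zero, show pq qr (0 + 1) = 2 by simp [pq, qr], Nat.zero_add] at h2
  refine h2.trans (add_le_add ?_ le_rfl)
  -- the total error
  have hk2 : 2 * k ≤ M := by
    have h3 : (2 : ℝ) ^ K2 2 k ≤ M := two_pow_K2_mono (by omega) h2M
    have h4 : 2 ^ K2 2 k ≤ M := by exact_mod_cast h3
    refine le_trans ?_ h4
    have h5 : k < 2 ^ k := Nat.lt_two_pow_self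
    calc 2 * k ≤ 2 * 2 ^ k := by omega
      _ = 2 ^ (k + 1) := by ring
      _ ≤ 2 ^ K2 2 k := by
          refine Nat.pow_le_pow_right (by norm_num) ?_
          calc k + 1 ≤ 2 ^ k := h5
            _ ≤ 2 ^ (2 * k ^ 2) := Nat.pow_le_pow_right (by norm_num) (by nlinarith)
  have hk2r : 2 * (k : ℝ) ≤ M := by exact_mod_cast hk2
  have h3 : (1 + 1 / (M : ℝ)) ^ (k - 1) ≤ 2 := by
    have h4 : (1 + 1 / (M : ℝ)) ^ (k - 1) ≤ (1 + 1 / (M : ℝ)) ^ k := by
      refine pow_le_pow_right₀ ?_ (by omega)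
      have : 0 ≤ 1 / (M : ℝ) := by positivity
      linarith
    refine h4.trans ?_
    have h5 : 1 + 1 / (M : ℝ) ≤ Real.exp (1 / M) := by
      have := Real.add_one_le_exp (1 / (M : ℝ))
      linarith
    have h6 : (1 + 1 / (M : ℝ)) ^ k ≤ Real.exp (1 / 2) := by
      calc (1 + 1 / (M : ℝ)) ^ k ≤ Real.exp (1 / M) ^ k :=
            pow_le_pow_left₀ (by positivity) h5 k
        _ = Real.exp (k * (1 / M)) := by rw [Real.exp_nat_mul]
        _ ≤ Real.exp (1 / 2) := by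
            refine Real.exp_le_exp.2 ?_
            rw [mul_one_div, div_le_div_iff₀ hM0r (by norm_num)]
            linarith
    refine h6.trans ?_
    have h7 : Real.exp (1 / 2) ^ 2 = Real.exp 1 := by
      rw [← Real.exp_nat_mul]; congr 1; norm_num
    have h8 := Real.exp_one_lt_d9
    nlinarith [Real.exp_pos (1 / 2)]
  have h4 : (6 * ((k - 1 : ℕ) : ℝ) / M) ≤ 6 * k / M := by
    refine div_le_div_of_nonneg_right ?_ hM0r.le
    have : ((k - 1 : ℕ) : ℝ) ≤ k := by exact_mod_cast Nat.sub_le k 1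
    linarith
  calc (1 + 1 / (M : ℝ)) ^ (k - 1) * (6 * ((k - 1 : ℕ) : ℝ) / M) ≤ 2 * (6 * k / M) :=
        mul_le_mul h3 h4 (by positivity) (by norm_num)
    _ = 12 * k / M := by ring

end Pool.Agent.Work.MP_215640_nt.Q
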