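import Pool.Agent.Work.MP_215640_nt.Q.Defs
import Pool.Agent.Work.Vino.WeylV

/-!
MODULE WEYLV (section V). Weyl sums with polynomial loss in the degree, top coefficient only.

Proof from the mean value theorem `J s d X ≤ 2^((d+1)^12) X^(2s - d(d+1)/2 + 1/2)`, `s = d^3 + d`.
`d = 1`: geometric sum, `dI α ≥ η`. `d ≥ 2`: `Z = min B (η V) > 1` (else trivial), `W = ⌊Z^(1/(2d))⌋`,
`s = (d-1)^3 + (d-1)`, degree `d - 1` in the mean value theorem.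
`∑_v ee (P v) = (1/W) ∑_v T v + O(W)`, `T v = ∑_{w<W} ee (P (v+w))`,
`|T v| = |∑_w ee (∑_{1≤r<d} θ_r(v) w^r + α w^d)|`, `θ_{d-1}(v) = const + d α v`.
`(T v)^s = ∑_h c(h) ee (h·θ(v))`, `h_r ∈ [0, s W^r]`, `∑ |c(h)|^2 ≤ J s (d-1) W`. Large sieve by duality:
`∑_v |U_v|^2 ≤ ‖c‖^2 Δ`, `Δ = sup_v ∑_{v'} ∏_{r<d} K_r(θ_r(v) - θ_r(v'))`,
`K_r(t) = ∑_h 2 max(0, 1-|h|/(2H_r)) ee (h t) = (1/H_r)|∑_{n<2H_r} ee (n t)|^2 ∈ [0, 4 H_r]`, `H_r = s W^r`.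
For `r = d-1`: `∑_{v'<V} K(d α (v-v')) ≤ 2V + 4H/η` since `2 H d ≤ B` (else trivial). So
`(1/V) ∑_v |T v / W|^(2s) ≤ C W^((d-1)(d-2)/2 - d(d-1)/2 + 1/2) ≤ C W^(-1/2)`.
-/

set_option autoImplicit false

namespace Pool.Agent.Work.MP_215640_nt.Q

open Finset Polynomial

theorem weylV : ∃ c : ℕ, ∀ d : ℕ, 1 ≤ d → ∀ P : ℝ[X], P.natDegree ≤ d → ∀ V B : ℕ, 1 ≤ V → 1 ≤ B →
    ∀ η : ℝ, 0 < η → Gen B η (P.coeff d) →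
    ‖∑ v ∈ range V, ee (P.eval (v : ℝ))‖ ≤ 2 ^ ((d + 1) ^ c) * V *
      ((B : ℝ) ^ (-(1 / (8 * (d : ℝ) ^ 4))) + (η * V) ^ (-(1 / (8 * (d : ℝ) ^ 4)))) := by
  obtain ⟨c, hc⟩ := Pool.Agent.Work.Vino.weylv
  exact ⟨c, fun d hd P hP V B hV hB η hη hG => hc d P V B η hd hP hV hB hη hG⟩

end Pool.Agent.Work.MP_215640_nt.Q
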